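import Pool.Agent.Helper41.GF.BoxDefs

/-!
# Environments and the conditional kernel
-/

set_option autoImplicit false

open scoped ENNReal Nat
open Finset MeasureTheory

namespace Pool.Agent.Helper41.GF

section kernel

variable {V E H ι : Type} [Fintype V] [DecidableEq V] [Fintype E] [DecidableEq E] [Fintype H]
  [DecidableEq H] [Fintype ι] [DecidableEq ι]

/-- couplings given the radii -/
noncomputable def GG.Jr (G : GG V E H) (r : V → ℝ) : E ⊕ H → ℝ :=
  Sum.elim (fun e => (G.w e : ℝ) * (r (G.src e) * r (G.tgt e))) (fun g => (G.f g : ℝ) * r (G.hs g))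

/-- signs of a field -/
noncomputable def sgn (ψ : V → ℝ) (x : V) : Bool := decide (0 < ψ x)

/-- the environment: lists of ghost paths of each type and a residual current without ghosts -/
abbrev Env (E H ι : Type) := (ι → List (H × List (E × Bool) × H)) × (E → ℕ)

/-- total current of an environment -/
def ncur (env : Env E H ι) : E ⊕ H → ℕ :=
  Sum.elim env.2 0 + ∑ t, ((env.1 t).map npath).sum

/-- weight of an environment -/
noncomputable def GG.ew (G : GG V E H) (tp : H × List (E × Bool) × H → ι) (env : Env E H ι) :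
    ℝ≥0∞ :=
  (∏ t, lw G.lam tp t (env.1 t)) * G.Phi Ga (Sum.elim env.2 0)

/-- conditional law of the environment given the field -/
noncomputable def GG.sk (G : GG V E H) (tp : H × List (E × Bool) × H → ι) (ψ : V → ℝ)
    (env : Env E H ι) : ℝ≥0∞ :=
  G.ew tp env * (G.Phi Ga (ncur env))⁻¹
    * ENNReal.ofReal (cw G.inc (G.Jr (fun x => |ψ x|)) (ncur env)
        * qq G.inc (G.Jr (fun x => |ψ x|)) (ncur env) (sgn ψ))
    * ENNReal.ofReal (2 ^ (Fintype.card V)
        * Real.exp (-∑ e, G.Jr (fun x => |ψ x|) e * sgE G.inc (sgn ψ) e))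

/-- the law of the field -/
noncomputable def GG.fieldLaw (G : GG V E H) : Measure (V → ℝ) :=
  (∫⁻ ψ : V → ℝ, ENNReal.ofReal (G.rho ψ))⁻¹ •
    (volume : Measure (V → ℝ)).withDensity (fun ψ => ENNReal.ofReal (G.rho ψ))

end kernel

end Pool.Agent.Helper41.GF
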