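import Pool.Agent.Helper41.GF.Defs

set_option autoImplicit false

open scoped ENNReal Nat
open Finset MeasureTheory

namespace Pool.Agent.Helper41.GF

namespace GG

variable {V E H : Type} [Fintype V] [DecidableEq V] [Fintype E] [DecidableEq E] [Fintype H]
  [DecidableEq H]

/-- the bilinear form -/
noncomputable def BB (G : GG V E H) (a b : V → ℝ) : ℝ :=
  ∑ x, a x * b x - ∑ e, (G.w e : ℝ) * (a (G.src e) * b (G.tgt e) + a (G.tgt e) * b (G.src e))

theorem sum_Pop (G : GG V E H) (a b : V → ℝ) :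
    ∑ x, a x * G.Pop b x =
      ∑ e, (G.w e : ℝ) * (a (G.src e) * b (G.tgt e) + a (G.tgt e) * b (G.src e)) := by
  simp only [Pop, Finset.mul_sum]
  rw [Finset.sum_comm]
  apply Finset.sum_congr rfl
  intro e _
  have h : ∀ x, a x * ((G.w e : ℝ) * ((if G.src e = x then b (G.tgt e) else 0)
      + (if G.tgt e = x then b (G.src e) else 0)))
      = (if G.src e = x then (G.w e : ℝ) * (a x * b (G.tgt e)) else 0)
        + (if G.tgt e = x then (G.w e : ℝ) * (a x * b (G.src e)) else 0) := by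
    intro x
    split_ifs <;> ring
  simp only [h, Finset.sum_add_distrib, Finset.sum_ite_eq, Finset.mem_univ, if_true]
  ring

theorem BB_eq (G : GG V E H) (a b : V → ℝ) :
    G.BB a b = ∑ x, a x * (b x - G.Pop b x) := by
  simp only [mul_sub, Finset.sum_sub_distrib, sum_Pop, BB]

theorem BB_comm (G : GG V E H) (a b : V → ℝ) : G.BB a b = G.BB b a := by
  simp only [BB]
  congr 1
  · apply Finset.sum_congr rfl; intro x _; ring
  · apply Finset.sum_congr rfl; intro x _; ring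

theorem BB_sub_left (G : GG V E H) (a b c : V → ℝ) :
    G.BB (fun x => a x - b x) c = G.BB a c - G.BB b c := by
  simp only [BB_eq]
  rw [← Finset.sum_sub_distrib]
  apply Finset.sum_congr rfl; intro x _; ring

theorem BB_smul_left (G : GG V E H) (s : ℝ) (a c : V → ℝ) :
    G.BB (fun x => s * a x) c = s * G.BB a c := by
  simp only [BB_eq, Finset.mul_sum]
  apply Finset.sum_congr rfl; intro x _; ring

theorem BB_sub_right (G : GG V E H) (a b c : V → ℝ) :
    G.BB c (fun x => a x - b x) = G.BB c a - G.BB c b := by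
  rw [BB_comm, BB_sub_left, BB_comm G a, BB_comm G b]

theorem BB_smul_right (G : GG V E H) (s : ℝ) (a c : V → ℝ) :
    G.BB c (fun x => s * a x) = s * G.BB c a := by
  rw [BB_comm, BB_smul_left, BB_comm]

theorem BB_pole (G : GG V E H) (a gr : V → ℝ) (z : V)
    (hgr : ∀ x, gr x = G.Pop gr x + (if x = z then 1 else 0)) : G.BB a gr = a z := by
  rw [BB_eq]
  have : ∀ x, a x * (gr x - G.Pop gr x) = if x = z then a x else 0 := by
    intro x
    have h := hgr x
    split_ifs at h ⊢ with hx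
    · rw [show gr x - G.Pop gr x = 1 by linarith, mul_one]
    · rw [show gr x - G.Pop gr x = 0 by linarith, mul_zero]
  simp only [this, Finset.sum_ite_eq', Finset.mem_univ, if_true]

theorem BB_m (G : GG V E H) (m : V → ℝ)
    (hm : ∀ x, m x = G.Pop m x + ∑ g, (if G.hs g = x then (G.f g : ℝ) else 0)) (a : V → ℝ) :
    G.BB a m = ∑ g, (G.f g : ℝ) * a (G.hs g) := by
  rw [BB_eq]
  have : ∀ x, a x * (m x - G.Pop m x) = ∑ g, (if G.hs g = x then (G.f g : ℝ) * a x else 0) := by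
    intro x
    have h := hm x
    rw [show m x - G.Pop m x = ∑ g, (if G.hs g = x then (G.f g : ℝ) else 0) by linarith,
      Finset.mul_sum]
    apply Finset.sum_congr rfl
    intro g _
    split_ifs <;> ring
  simp only [this]
  rw [Finset.sum_comm]
  apply Finset.sum_congr rfl
  intro g _
  simp

theorem expo_eq (G : GG V E H) (m : V → ℝ)
    (hm : ∀ x, m x = G.Pop m x + ∑ g, (if G.hs g = x then (G.f g : ℝ) else 0)) (ψ : V → ℝ) :
    G.expo ψ = -(1 / 2) * G.BB (fun x => ψ x - m x) (fun x => ψ x - m x)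
      + (1 / 2) * G.BB m m := by
  have h1 : G.expo ψ = -(1 / 2) * G.BB ψ ψ + G.BB ψ m := by
    rw [BB_m G m hm ψ]
    simp only [expo, BB]
    have h2 : ∑ e, (G.w e : ℝ) * (ψ (G.src e) * ψ (G.tgt e) + ψ (G.tgt e) * ψ (G.src e))
        = 2 * ∑ e, (G.w e : ℝ) * (ψ (G.src e) * ψ (G.tgt e)) := by
      rw [Finset.mul_sum]; apply Finset.sum_congr rfl; intro e _; ring
    have h3 : ∑ x, ψ x * ψ x = ∑ x, ψ x ^ 2 := by
      apply Finset.sum_congr rfl; intro x _; ring
    rw [h2, h3]; ring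
  rw [h1, BB_sub_left, BB_sub_right, BB_sub_right, BB_comm G m ψ]
  ring

theorem continuous_rho (G : GG V E H) : Continuous G.rho := by
  unfold rho expo
  fun_prop

theorem measurable_rho (G : GG V E H) : Measurable (fun ψ => ENNReal.ofReal (G.rho ψ)) :=
  ENNReal.measurable_ofReal.comp G.continuous_rho.measurable

theorem expo_tilt (G : GG V E H) (m gr : V → ℝ) (z : V)
    (hm : ∀ x, m x = G.Pop m x + ∑ g, (if G.hs g = x then (G.f g : ℝ) else 0))
    (hgr : ∀ x, gr x = G.Pop gr x + (if x = z then 1 else 0)) (s : ℝ) (ψ : V → ℝ) :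
    G.expo ψ + s * (ψ z - m z) = G.expo (fun x => ψ x - s * gr x) + s ^ 2 * gr z / 2 := by
  rw [expo_eq G m hm, expo_eq G m hm (fun x => ψ x - s * gr x)]
  have h1 : (fun x => ψ x - s * gr x - m x) = (fun x => (ψ x - m x) - (s * gr x)) := by
    funext x; ring
  rw [h1, BB_sub_left G (fun x => ψ x - m x) (fun x => s * gr x),
    BB_sub_right G (fun x => ψ x - m x) (fun x => s * gr x),
    BB_sub_right G (fun x => ψ x - m x) (fun x => s * gr x),
    BB_smul_left, BB_smul_right, BB_smul_right, BB_smul_left, BB_pole G gr gr z hgr,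
    BB_pole G (fun x => ψ x - m x) gr z hgr, BB_comm G gr (fun x => ψ x - m x),
    BB_pole G (fun x => ψ x - m x) gr z hgr]
  ring

/-- reflection invariance -/
theorem rho_reflect (G : GG V E H) (m : V → ℝ)
    (hm : ∀ x, m x = G.Pop m x + ∑ g, (if G.hs g = x then (G.f g : ℝ) else 0)) (ψ : V → ℝ) :
    G.rho (fun x => 2 * m x - ψ x) = G.rho ψ := by
  unfold rho
  rw [expo_eq G m hm, expo_eq G m hm ψ]
  have h1 : (fun x => 2 * m x - ψ x - m x) = (fun x => (-1) * (ψ x - m x)) := by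
    funext x; ring
  rw [h1, BB_smul_left, BB_smul_right]
  congr 1
  ring

/-- finite total mass -/
theorem lintegral_rho_ne_top (G : GG V E H) (θ : ℝ) (hθ : 0 < θ)
    (hc : ∀ ψ : V → ℝ, 2 * ∑ e, (G.w e : ℝ) * (ψ (G.src e) * ψ (G.tgt e))
      ≤ (1 - θ) * ∑ x, ψ x ^ 2) :
    ∫⁻ ψ : V → ℝ, ENNReal.ofReal (G.rho ψ) ≠ ∞ := by
  let c : V → ℝ := fun x => ∑ g, (if G.hs g = x then (G.f g : ℝ) else 0)
  have hlin : ∀ ψ : V → ℝ, ∑ g, (G.f g : ℝ) * ψ (G.hs g) = ∑ x, c x * ψ x := by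
    intro ψ
    simp only [c, Finset.sum_mul]
    rw [Finset.sum_comm]
    apply Finset.sum_congr rfl
    intro g _
    simp
  have hint : Integrable (fun ψ : V → ℝ => ∏ x, (Real.exp (c x ^ 2 / θ) *
      Real.exp (-(θ / 4) * ψ x ^ 2))) := by
    apply Integrable.fintype_prod (f := fun x t => Real.exp (c x ^ 2 / θ) *
      Real.exp (-(θ / 4) * t ^ 2))
    intro x
    exact (integrable_exp_neg_mul_sq (by positivity)).const_mul _
  have hle : ∀ ψ : V → ℝ, G.rho ψ ≤ ∏ x, (Real.exp (c x ^ 2 / θ) *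
      Real.exp (-(θ / 4) * ψ x ^ 2)) := by
    intro ψ
    simp only [← Real.exp_add]
    rw [← Real.exp_sum]
    unfold rho
    apply Real.exp_le_exp.2
    unfold expo
    rw [hlin]
    have h1 := hc ψ
    have h2 : ∑ x, c x * ψ x ≤ ∑ x, (c x ^ 2 / θ + (θ / 4) * ψ x ^ 2) := by
      apply Finset.sum_le_sum
      intro x _
      have h3 : 0 ≤ (c x - θ / 2 * ψ x) ^ 2 / θ := by positivity
      have h4 : (c x - θ / 2 * ψ x) ^ 2 / θ = c x ^ 2 / θ + (θ / 4) * ψ x ^ 2 - c x * ψ x := by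
        field_simp; ring
      linarith
    have h5 : ∑ x, (c x ^ 2 / θ + (θ / 4) * ψ x ^ 2)
        = ∑ x, (c x ^ 2 / θ + -(θ / 4) * ψ x ^ 2) + (θ / 2) * ∑ x, ψ x ^ 2 := by
      rw [Finset.mul_sum, ← Finset.sum_add_distrib]
      apply Finset.sum_congr rfl; intro x _; ring
    linarith
  have hlt : ∫⁻ ψ : V → ℝ, ENNReal.ofReal (∏ x, (Real.exp (c x ^ 2 / θ) *
      Real.exp (-(θ / 4) * ψ x ^ 2))) < ∞ := hint.lintegral_lt_top
  exact (lt_of_le_of_lt (lintegral_mono fun ψ => ENNReal.ofReal_le_ofReal (hle ψ)) hlt).ne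

/-- positive total mass -/
theorem lintegral_rho_ne_zero (G : GG V E H) :
    ∫⁻ ψ : V → ℝ, ENNReal.ofReal (G.rho ψ) ≠ 0 := by
  intro h
  rw [lintegral_eq_zero_iff G.measurable_rho] at h
  have h2 : ∀ᵐ _ψ : V → ℝ, False := by
    filter_upwards [h] with ψ hψ
    simp only [Pi.zero_apply, ENNReal.ofReal_eq_zero] at hψ
    exact absurd hψ (not_le.2 (Real.exp_pos _))
  rw [ae_iff] at h2
  simp only [not_false_eq_true, Set.setOf_true] at h2
  exact (isOpen_univ.measure_pos (volume : Measure (V → ℝ)) Set.univ_nonempty).ne' h2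

/-- the measure with density rho is invariant under the reflection -/
theorem measurePreserving_reflect (G : GG V E H) (m : V → ℝ)
    (hm : ∀ x, m x = G.Pop m x + ∑ g, (if G.hs g = x then (G.f g : ℝ) else 0)) :
    MeasurePreserving (fun (ψ : V → ℝ) x => 2 * m x - ψ x)
      ((volume : Measure (V → ℝ)).withDensity (fun ψ => ENNReal.ofReal (G.rho ψ)))
      ((volume : Measure (V → ℝ)).withDensity (fun ψ => ENNReal.ofReal (G.rho ψ))) := by
  have hmp : MeasurePreserving (fun (ψ : V → ℝ) => (fun x => 2 * m x) - ψ)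
      (volume : Measure (V → ℝ)) volume := Measure.measurePreserving_sub_left volume (fun x => 2 * m x)
  have hmeas : Measurable (fun (ψ : V → ℝ) x => 2 * m x - ψ x) := hmp.measurable
  refine ⟨hmeas, ?_⟩
  ext s hs
  rw [Measure.map_apply hmeas hs, withDensity_apply _ (hmeas hs), withDensity_apply _ hs]
  have h1 := hmp.setLIntegral_comp_preimage hs G.measurable_rho
  rw [← h1]
  apply setLIntegral_congr_fun (hmeas hs)
  intro ψ _
  have h2 := G.rho_reflect m hm ψ
  show ENNReal.ofReal (G.rho ψ) = ENNReal.ofReal (G.rho ((fun x => 2 * m x) - ψ))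
  rw [← h2]
  rfl

/-- Gaussian tail of one coordinate, from a Green function `gr` with pole at `z` -/
theorem tail_rho (G : GG V E H) (m gr : V → ℝ) (z : V)
    (hm : ∀ x, m x = G.Pop m x + ∑ g, (if G.hs g = x then (G.f g : ℝ) else 0))
    (hgr : ∀ x, gr x = G.Pop gr x + (if x = z then 1 else 0)) (hpos : 0 < gr z)
    (t : ℝ) (ht : 0 ≤ t) :
    ∫⁻ ψ in {ψ : V → ℝ | t ≤ |ψ z - m z|}, ENNReal.ofReal (G.rho ψ)
      ≤ ENNReal.ofReal (2 * Real.exp (-t ^ 2 / (2 * gr z)))
          * ∫⁻ ψ : V → ℝ, ENNReal.ofReal (G.rho ψ) := by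
  -- one sided bound
  have one : ∀ σ : ℝ, σ ^ 2 = 1 →
      ∫⁻ ψ in {ψ : V → ℝ | t ≤ σ * (ψ z - m z)}, ENNReal.ofReal (G.rho ψ)
        ≤ ENNReal.ofReal (Real.exp (-t ^ 2 / (2 * gr z)))
          * ∫⁻ ψ : V → ℝ, ENNReal.ofReal (G.rho ψ) := by
    intro σ hσ
    set s : ℝ := σ * t / gr z with hs
    have hmS : MeasurableSet {ψ : V → ℝ | t ≤ σ * (ψ z - m z)} :=
      measurableSet_le measurable_const (by fun_prop)
    have hpt : ∀ ψ ∈ {ψ : V → ℝ | t ≤ σ * (ψ z - m z)}, ENNReal.ofReal (G.rho ψ)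
        ≤ ENNReal.ofReal (Real.exp (-t ^ 2 / (2 * gr z))) *
          ENNReal.ofReal (G.rho (fun x => ψ x - s * gr x)) := by
      intro ψ hψ
      rw [← ENNReal.ofReal_mul (Real.exp_pos _).le]
      apply ENNReal.ofReal_le_ofReal
      unfold rho
      rw [← Real.exp_add]
      apply Real.exp_le_exp.2
      have h1 := G.expo_tilt m gr z hm hgr s ψ
      have h2 : s * (ψ z - m z) = t / gr z * (σ * (ψ z - m z)) := by rw [hs]; ring
      have h3 : t / gr z * t ≤ t / gr z * (σ * (ψ z - m z)) :=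
        mul_le_mul_of_nonneg_left hψ (div_nonneg ht hpos.le)
      have h4 : s ^ 2 * gr z / 2 = t / gr z * t + -t ^ 2 / (2 * gr z) := by
        rw [hs, div_pow, mul_pow, hσ]
        field_simp
        ring
      linarith
    calc ∫⁻ ψ in {ψ : V → ℝ | t ≤ σ * (ψ z - m z)}, ENNReal.ofReal (G.rho ψ)
        ≤ ∫⁻ ψ in {ψ : V → ℝ | t ≤ σ * (ψ z - m z)},
            ENNReal.ofReal (Real.exp (-t ^ 2 / (2 * gr z))) *
            ENNReal.ofReal (G.rho (fun x => ψ x - s * gr x)) := setLIntegral_mono' hmS hpt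
      _ ≤ ∫⁻ ψ : V → ℝ, ENNReal.ofReal (Real.exp (-t ^ 2 / (2 * gr z))) *
            ENNReal.ofReal (G.rho (fun x => ψ x - s * gr x)) := setLIntegral_le_lintegral _ _
      _ = ENNReal.ofReal (Real.exp (-t ^ 2 / (2 * gr z))) *
            ∫⁻ ψ : V → ℝ, ENNReal.ofReal (G.rho (fun x => ψ x - s * gr x)) := by
          rw [lintegral_const_mul' _ _ ENNReal.ofReal_ne_top]
      _ = _ := by
          congr 1
          exact lintegral_sub_right_eq_self (fun ψ : V → ℝ => ENNReal.ofReal (G.rho ψ))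
            (fun x => s * gr x)
  have hsub : {ψ : V → ℝ | t ≤ |ψ z - m z|} ⊆
      {ψ : V → ℝ | t ≤ 1 * (ψ z - m z)} ∪ {ψ : V → ℝ | t ≤ (-1) * (ψ z - m z)} := by
    intro ψ hψ
    simp only [Set.mem_setOf_eq, Set.mem_union] at hψ ⊢
    rcases le_abs.1 hψ with h | h
    · left; linarith
    · right; linarith
  calc ∫⁻ ψ in {ψ : V → ℝ | t ≤ |ψ z - m z|}, ENNReal.ofReal (G.rho ψ)
      ≤ ∫⁻ ψ in {ψ : V → ℝ | t ≤ 1 * (ψ z - m z)} ∪ {ψ : V → ℝ | t ≤ (-1) * (ψ z - m z)},
          ENNReal.ofReal (G.rho ψ) := lintegral_mono_set hsub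
    _ ≤ _ := lintegral_union_le _ _ _
    _ ≤ ENNReal.ofReal (Real.exp (-t ^ 2 / (2 * gr z)))
          * (∫⁻ ψ : V → ℝ, ENNReal.ofReal (G.rho ψ)) +
        ENNReal.ofReal (Real.exp (-t ^ 2 / (2 * gr z)))
          * ∫⁻ ψ : V → ℝ, ENNReal.ofReal (G.rho ψ) :=
        add_le_add (one 1 (by norm_num)) (one (-1) (by norm_num))
    _ = _ := by
        rw [ENNReal.ofReal_mul (by norm_num : (0 : ℝ) ≤ 2), ← two_mul, ENNReal.ofReal_ofNat]
        ring

end GG

end Pool.Agent.Helper41.GF
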