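import Pool.Agent.Helper41.GF.Defs

set_option autoImplicit false

open scoped ENNReal Nat
open Finset

namespace Pool.Agent.Helper41.GF

namespace GG

variable {V E H : Type} [Fintype V] [DecidableEq V] [Fintype E] [DecidableEq E] [Fintype H]
  [DecidableEq H]

theorem pw_ne (G : GG V E H) (x y : V) (l : List (E × Bool)) (h : G.fin x l ≠ y) :
    G.pw x l y = 0 := by
  induction l generalizing x with
  | nil =>
    simp only [fin] at h
    simp only [pw]
    rw [if_neg h]
  | cons d l ih =>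
    simp only [fin] at h
    simp only [pw]
    rw [ih _ h, mul_zero, ite_self]

theorem pw_append (G : GG V E H) (x y : V) (l1 l2 : List (E × Bool)) :
    G.pw x (l1 ++ l2) y = G.pw x l1 (G.fin x l1) * G.pw (G.fin x l1) l2 y := by
  induction l1 generalizing x with
  | nil => simp [pw, fin]
  | cons d l ih =>
    simp only [List.cons_append, pw, fin]
    rw [ih]
    split_ifs
    · rw [mul_assoc]
    · rw [zero_mul]

theorem pw_append_tsum (G : GG V E H) (x y : V) (l1 l2 : List (E × Bool)) :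
    G.pw x (l1 ++ l2) y = ∑' z, G.pw x l1 z * G.pw z l2 y := by
  rw [pw_append, tsum_eq_single (G.fin x l1)]
  intro z hz
  rw [G.pw_ne x z l1 (Ne.symm hz), zero_mul]

theorem two_piece {α : Type} (T : List α → List α → ℝ≥0∞) :
    ∑' l : List α, ∑ b ∈ range (l.length + 1), T (l.take b) (l.drop b) =
      ∑' l1, ∑' l2, T l1 l2 := by
  let g : (Σ l : List α, Fin (l.length + 1)) → List α × List α :=
    fun s => (s.1.take s.2, s.1.drop s.2)
  have hg : Function.Bijective g := by
    constructor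
    · rintro ⟨l, b⟩ ⟨l', b'⟩ h
      have h1 : l.take b = l'.take b' := congrArg Prod.fst h
      have h2 : l.drop b = l'.drop b' := congrArg Prod.snd h
      have h3 : l = l' := by
        rw [← List.take_append_drop b l, h1, h2, List.take_append_drop]
      subst h3
      have h4 := congrArg List.length h1
      rw [List.length_take, List.length_take] at h4
      have h5 : b = b' := Fin.ext (by omega)
      rw [h5]
    · rintro ⟨l1, l2⟩
      refine ⟨⟨l1 ++ l2, ⟨l1.length, by simp⟩⟩, ?_⟩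
      simp [g]
  have h1 : ∀ l : List α, ∑ b ∈ range (l.length + 1), T (l.take b) (l.drop b) =
      ∑' b : Fin (l.length + 1), T (l.take b) (l.drop b) := by
    intro l
    rw [tsum_fintype, Fin.sum_univ_eq_sum_range (fun b => T (l.take b) (l.drop b))]
  simp_rw [h1]
  rw [← ENNReal.tsum_sigma (fun (l : List α) (b : Fin (l.length + 1)) => T (l.take b) (l.drop b)),
    ← ENNReal.tsum_prod]
  exact (Equiv.ofBijective g hg).tsum_eq (fun p => T p.1 p.2)

theorem pwr_zero (G : GG V E H) (x y : V) : G.pwr 0 x y = if x = y then 1 else 0 := by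
  unfold pwr
  rw [tsum_eq_single []]
  · simp [pw]
  · intro l hl
    rw [if_neg]
    intro h
    exact hl (List.length_eq_zero_iff.1 h)

theorem pwr_add (G : GG V E H) (m n : ℕ) (x y : V) :
    G.pwr (m + n) x y = ∑ z, G.pwr m x z * G.pwr n z y := by
  have h1 := two_piece (fun l1 l2 : List (E × Bool) =>
    if l1.length = m ∧ l2.length = n then G.pw x (l1 ++ l2) y else 0)
  have h2 : G.pwr (m + n) x y = ∑' l : List (E × Bool), ∑ b ∈ range (l.length + 1),
      if (l.take b).length = m ∧ (l.drop b).length = n then G.pw x (l.take b ++ l.drop b) y else 0 := by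
    unfold pwr
    apply tsum_congr
    intro l
    simp only [List.take_append_drop, List.length_take, List.length_drop]
    by_cases hl : l.length = m + n
    · rw [if_pos hl, Finset.sum_eq_single m]
      · rw [if_pos]
        constructor <;> omega
      · intro b hb hbm
        rw [Finset.mem_range] at hb
        rw [if_neg]
        omega
      · intro h
        exfalso
        apply h
        rw [Finset.mem_range]
        omega
    · rw [if_neg hl]
      symm
      apply Finset.sum_eq_zero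
      intro b hb
      rw [Finset.mem_range] at hb
      rw [if_neg]
      omega
  rw [h2, h1, ← tsum_fintype (L := .unconditional V)]
  unfold pwr
  simp_rw [← ENNReal.tsum_mul_right, ← ENNReal.tsum_mul_left]
  have h3 : ∀ l1 l2 : List (E × Bool), (if l1.length = m ∧ l2.length = n then G.pw x (l1 ++ l2) y else 0) =
      ∑' z, (if l1.length = m then G.pw x l1 z else 0) * (if l2.length = n then G.pw z l2 y else 0) := by
    intro l1 l2
    by_cases ha : l1.length = m
    · by_cases hb : l2.length = n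
      · rw [if_pos ⟨ha, hb⟩, pw_append_tsum]
        simp only [if_pos ha, if_pos hb]
      · rw [if_neg (fun h => hb h.2)]
        simp only [if_neg hb, mul_zero, tsum_zero]
    · rw [if_neg (fun h => ha h.1)]
      simp only [if_neg ha, zero_mul, tsum_zero]
  simp_rw [h3]
  calc ∑' (l1 : List (E × Bool)) (l2 : List (E × Bool)) (z : V),
        (if l1.length = m then G.pw x l1 z else 0) * (if l2.length = n then G.pw z l2 y else 0)
      = ∑' (l1 : List (E × Bool)) (z : V) (l2 : List (E × Bool)),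
        (if l1.length = m then G.pw x l1 z else 0) * (if l2.length = n then G.pw z l2 y else 0) :=
        tsum_congr fun l1 => ENNReal.tsum_comm
    _ = _ := ENNReal.tsum_comm

/-- reversal of a list of darts -/
def rev (l : List (E × Bool)) : List (E × Bool) := (l.map (fun d => (d.1, !d.2))).reverse

theorem rev_rev (l : List (E × Bool)) : rev (rev l) = l := by
  unfold rev
  rw [List.map_reverse, List.reverse_reverse, List.map_map]
  have : ((fun d : E × Bool => (d.1, !d.2)) ∘ fun d : E × Bool => (d.1, !d.2)) = id := by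
    funext d
    simp
  rw [this, List.map_id]

theorem pw_rev (G : GG V E H) (l : List (E × Bool)) (x y : V) : G.pw x l y = G.pw y (rev l) x := by
  induction l generalizing x with
  | nil =>
    simp only [rev, List.map_nil, List.reverse_nil, pw]
    simp only [eq_comm]
  | cons d l ih =>
    have h1 : rev (d :: l) = rev l ++ [(d.1, !d.2)] := by
      simp [rev]
    rw [h1, pw_append_tsum]
    have hs : G.ds (d.1, !d.2) = G.dt d := by
      unfold ds dt
      cases d.2 <;> simp
    have ht : G.dt (d.1, !d.2) = G.ds d := by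
      unfold ds dt
      cases d.2 <;> simp
    rw [tsum_eq_single (G.dt d)]
    · simp only [pw, hs, ht, if_true]
      rw [← ih]
      split_ifs
      · rw [mul_one, mul_comm]
      · simp
    · intro z hz
      simp only [pw, hs]
      rw [if_neg (Ne.symm hz), mul_zero]

theorem pwr_comm (G : GG V E H) (n : ℕ) (x y : V) : G.pwr n x y = G.pwr n y x := by
  unfold pwr
  let e : List (E × Bool) ≃ List (E × Bool) := ⟨rev, rev, rev_rev, rev_rev⟩
  rw [← e.tsum_eq]
  apply tsum_congr
  intro l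
  have h1 : (e l).length = l.length := by
    show (rev l).length = l.length
    simp [rev]
  rw [h1]
  have h2 : G.pw x (e l) y = G.pw y l x := by
    rw [G.pw_rev l y x]
    rfl
  rw [h2]

theorem pwr_tsum_mul (G : GG V E H) (x y : V) (F : ℕ → ℝ≥0∞) :
    ∑' n, G.pwr n x y * F n = ∑' l, G.pw x l y * F l.length := by
  unfold pwr
  simp_rw [← ENNReal.tsum_mul_right]
  rw [ENNReal.tsum_comm]
  apply tsum_congr
  intro l
  rw [tsum_eq_single l.length]
  · rw [if_pos rfl]
  · intro n hn
    rw [if_neg (Ne.symm hn), zero_mul]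

theorem pwr_tsum (G : GG V E H) (x y : V) : ∑' n, G.pwr n x y = ∑' l, G.pw x l y := by
  have := G.pwr_tsum_mul x y (fun _ => 1)
  simpa using this

/-- integral against paths from weighted ghosts -/
noncomputable def JJ (G : GG V E H) (a : H → ℝ≥0∞) (y : V) (K : H → List (E × Bool) → ℝ≥0∞) :
    ℝ≥0∞ := ∑' g : H, a g * ∑' m, G.pw (G.hs g) m y * K g m

theorem peel (G : GG V E H) (h y : V) (U : V → List (E × Bool) → List (E × Bool) → ℝ≥0∞) :
    ∑' l, G.pw h l y * ∑ b ∈ range (l.length + 1), U (G.fin h (l.take b)) (l.take b) (l.drop b) =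
      ∑' x, ∑' l, G.pw x l y * ∑' m, G.pw h m x * U x m l := by
  calc ∑' l, G.pw h l y * ∑ b ∈ range (l.length + 1), U (G.fin h (l.take b)) (l.take b) (l.drop b)
      = ∑' l : List (E × Bool), ∑ b ∈ range (l.length + 1), G.pw h (l.take b ++ l.drop b) y *
          U (G.fin h (l.take b)) (l.take b) (l.drop b) := by
        simp only [Finset.mul_sum, List.take_append_drop]
    _ = ∑' l1, ∑' l2, G.pw h (l1 ++ l2) y * U (G.fin h l1) l1 l2 :=
        two_piece (fun l1 l2 => G.pw h (l1 ++ l2) y * U (G.fin h l1) l1 l2)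
    _ = ∑' l1, ∑' l2, ∑' x, G.pw x l2 y * (G.pw h l1 x * U x l1 l2) := by
        apply tsum_congr
        intro l1
        apply tsum_congr
        intro l2
        rw [pw_append, tsum_eq_single (G.fin h l1)]
        · ring
        · intro x hx
          rw [G.pw_ne h x l1 (Ne.symm hx), zero_mul, mul_zero]
    _ = ∑' l2, ∑' l1, ∑' x, G.pw x l2 y * (G.pw h l1 x * U x l1 l2) := ENNReal.tsum_comm
    _ = ∑' l2, ∑' x, ∑' l1, G.pw x l2 y * (G.pw h l1 x * U x l1 l2) :=
        tsum_congr fun l2 => ENNReal.tsum_comm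
    _ = ∑' x, ∑' l2, ∑' l1, G.pw x l2 y * (G.pw h l1 x * U x l1 l2) := ENNReal.tsum_comm
    _ = _ := by
        simp_rw [ENNReal.tsum_mul_left]

theorem JJ_peel (G : GG V E H) (a : H → ℝ≥0∞) (y : V)
    (T : H → V → List (E × Bool) → List (E × Bool) → ℝ≥0∞) :
    G.JJ a y (fun g l => ∑ b ∈ range (l.length + 1),
        T g (G.fin (G.hs g) (l.take b)) (l.take b) (l.drop b)) =
      ∑' x, ∑' l, G.pw x l y * G.JJ a x (fun g m => T g x m l) := by
  unfold JJ
  simp_rw [peel]
  simp_rw [← ENNReal.tsum_mul_left]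
  calc ∑' (g : H) (x : V) (l : List (E × Bool)) (m : List (E × Bool)),
        a g * (G.pw x l y * (G.pw (G.hs g) m x * T g x m l))
      = ∑' (x : V) (g : H) (l : List (E × Bool)) (m : List (E × Bool)),
        a g * (G.pw x l y * (G.pw (G.hs g) m x * T g x m l)) := ENNReal.tsum_comm
    _ = ∑' (x : V) (l : List (E × Bool)) (g : H) (m : List (E × Bool)),
        a g * (G.pw x l y * (G.pw (G.hs g) m x * T g x m l)) :=
        tsum_congr fun x => ENNReal.tsum_comm
    _ = _ := by
        apply tsum_congr; intro x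
        apply tsum_congr; intro l
        apply tsum_congr; intro g
        apply tsum_congr; intro m
        ring

theorem JJ_peel_len (G : GG V E H) (a : H → ℝ≥0∞) (y : V)
    (T : H → V → List (E × Bool) → ℕ → ℝ≥0∞) :
    G.JJ a y (fun g l => ∑ b ∈ range (l.length + 1),
        T g (G.fin (G.hs g) (l.take b)) (l.take b) (l.length - b)) =
      ∑' x, ∑' n, G.pwr n x y * G.JJ a x (fun g m => T g x m n) := by
  have h1 := G.JJ_peel a y (fun g x m l => T g x m l.length)
  simp only [List.length_drop] at h1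
  rw [h1]
  apply tsum_congr
  intro x
  rw [G.pwr_tsum_mul x y (fun n => G.JJ a x (fun g m => T g x m n))]

theorem JJ_const (G : GG V E H) (A : H → Prop) [DecidablePred A] (x : V) (c : ℝ≥0∞) :
    G.JJ (fun g => if A g then (G.f g : ℝ≥0∞) else 0) x (fun _ _ => c) = G.mA A x * c := by
  unfold JJ mA
  rw [← tsum_fintype (L := .unconditional H), ← ENNReal.tsum_mul_right]
  apply tsum_congr
  intro g
  rw [ENNReal.tsum_mul_right, pwr_tsum]
  by_cases hA : A g
  · simp only [hA, if_true]
    ring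
  · simp [hA]

theorem start (G : GG V E H) (A B : H → Prop) [DecidablePred A] [DecidablePred B]
    (K : H → List (E × Bool) → ℝ≥0∞) :
    ∑' p : H × List (E × Bool) × H, (if A p.1 ∧ B p.2.2 then G.lam p else 0) * K p.1 p.2.1 =
      ∑' g1, (2⁻¹ * if B g1 then (G.f g1 : ℝ≥0∞) else 0) *
        G.JJ (fun g => if A g then (G.f g : ℝ≥0∞) else 0) (G.hs g1) K := by
  simp_rw [ENNReal.tsum_prod']
  unfold JJ
  simp_rw [← ENNReal.tsum_mul_left]
  calc ∑' (g0 : H) (l : List (E × Bool)) (g1 : H),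
        (if A g0 ∧ B g1 then G.lam (g0, l, g1) else 0) * K g0 l
      = ∑' (g0 : H) (g1 : H) (l : List (E × Bool)),
        (if A g0 ∧ B g1 then G.lam (g0, l, g1) else 0) * K g0 l :=
        tsum_congr fun g0 => ENNReal.tsum_comm
    _ = ∑' (g1 : H) (g0 : H) (l : List (E × Bool)),
        (if A g0 ∧ B g1 then G.lam (g0, l, g1) else 0) * K g0 l := ENNReal.tsum_comm
    _ = _ := by
        apply tsum_congr; intro g1
        apply tsum_congr; intro g0
        apply tsum_congr; intro l
        unfold lam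
        simp only
        by_cases hA : A g0
        · by_cases hB : B g1
          · rw [if_pos ⟨hA, hB⟩, if_pos hA, if_pos hB]
            ring
          · rw [if_neg (fun h => hB h.2), if_neg hB]
            simp
        · rw [if_neg (fun h => hA h.1), if_neg hA]
          simp

theorem start_peel (G : GG V E H) (A B : H → Prop) [DecidablePred A] [DecidablePred B]
    (T : H → V → List (E × Bool) → ℝ≥0∞) :
    ∑' p : H × List (E × Bool) × H, (if A p.1 ∧ B p.2.2 then G.lam p else 0) *
      (∑ b ∈ range (p.2.1.length + 1), T p.1 (G.fin (G.hs p.1) (p.2.1.take b)) (p.2.1.take b)) =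
      ∑' x, 2⁻¹ * G.mB B x *
        G.JJ (fun g => if A g then (G.f g : ℝ≥0∞) else 0) x (fun g m => T g x m) := by
  rw [G.start A B (fun g l => ∑ b ∈ range (l.length + 1),
    T g (G.fin (G.hs g) (l.take b)) (l.take b))]
  have h1 : ∀ y, G.JJ (fun g => if A g then (G.f g : ℝ≥0∞) else 0) y
      (fun g l => ∑ b ∈ range (l.length + 1), T g (G.fin (G.hs g) (l.take b)) (l.take b)) =
      ∑' x, (∑' n, G.pwr n x y) * G.JJ (fun g => if A g then (G.f g : ℝ≥0∞) else 0) x
        (fun g m => T g x m) := by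
    intro y
    have := G.JJ_peel (fun g => if A g then (G.f g : ℝ≥0∞) else 0) y (fun g x m _ => T g x m)
    rw [this]
    apply tsum_congr
    intro x
    rw [ENNReal.tsum_mul_right, pwr_tsum]
  simp_rw [h1, ← ENNReal.tsum_mul_left]
  rw [ENNReal.tsum_comm]
  apply tsum_congr
  intro x
  unfold mB
  rw [← tsum_fintype (L := .unconditional H), ← ENNReal.tsum_mul_left, ← ENNReal.tsum_mul_right]
  apply tsum_congr
  intro g
  split_ifs
  · ring
  · simp

theorem two_marks (G : GG V E H) (A B : H → Prop) [DecidablePred A] [DecidablePred B]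
    (Θ : V → List (E × Bool) → V → ℝ≥0∞) :
    ∑' p : H × List (E × Bool) × H, (if A p.1 ∧ B p.2.2 then G.lam p else 0)
        * ∑ b ∈ range (p.2.1.length + 1), ∑ a ∈ range (b + 1),
            Θ (G.site p a) ((p.2.1.take b).drop a) (G.site p b)
      = ∑ x, ∑' l : List (E × Bool),
          2⁻¹ * G.mA A x * G.pw x l (G.fin x l) * G.mB B (G.fin x l) * Θ x l (G.fin x l) := by
  have h1 : ∀ p : H × List (E × Bool) × H, ∑ b ∈ range (p.2.1.length + 1), ∑ a ∈ range (b + 1),
            Θ (G.site p a) ((p.2.1.take b).drop a) (G.site p b) =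
      ∑ b ∈ range (p.2.1.length + 1), (fun (g : H) (z : V) (m : List (E × Bool)) =>
        ∑ a ∈ range (m.length + 1), Θ (G.fin (G.hs g) (m.take a)) (m.drop a) z) p.1
          (G.fin (G.hs p.1) (p.2.1.take b)) (p.2.1.take b) := by
    intro p
    apply Finset.sum_congr rfl
    intro b hb
    rw [Finset.mem_range] at hb
    have hlen : (p.2.1.take b).length = b := by
      rw [List.length_take]; omega
    simp only [hlen]
    apply Finset.sum_congr rfl
    intro a ha
    rw [Finset.mem_range] at ha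
    unfold site
    rw [List.take_take, min_eq_left (by omega)]
  refine (tsum_congr fun p => by rw [h1 p]).trans ?_
  refine (G.start_peel A B (fun (g : H) (z : V) (m : List (E × Bool)) =>
        ∑ a ∈ range (m.length + 1), Θ (G.fin (G.hs g) (m.take a)) (m.drop a) z)).trans ?_
  have h2 : ∀ z, G.JJ (fun g => if A g then (G.f g : ℝ≥0∞) else 0) z (fun g m =>
      ∑ a ∈ range (m.length + 1), Θ (G.fin (G.hs g) (m.take a)) (m.drop a) z) =
      ∑' x, ∑' l, G.pw x l z * (G.mA A x * Θ x l z) := by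
    intro z
    have := G.JJ_peel (fun g => if A g then (G.f g : ℝ≥0∞) else 0) z (fun _ x _ l => Θ x l z)
    rw [this]
    simp_rw [G.JJ_const A]
  simp_rw [h2, ← ENNReal.tsum_mul_left]
  rw [ENNReal.tsum_comm, ← tsum_fintype (L := .unconditional V)]
  apply tsum_congr
  intro x
  rw [ENNReal.tsum_comm]
  apply tsum_congr
  intro l
  rw [tsum_eq_single (G.fin x l)]
  · ring
  · intro z hz
    rw [G.pw_ne x z l (Ne.symm hz), zero_mul, mul_zero]

theorem reorder (F : V → V → V → V → ℕ → ℕ → ℕ → ℝ≥0∞) :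
    ∑' x4, ∑' x3, ∑' n3, ∑' x2, ∑' n2, ∑' x1, ∑' n1, F x1 x2 x3 x4 n1 n2 n3 =
    ∑' x1, ∑' x2, ∑' x3, ∑' x4, ∑' n1, ∑' n2, ∑' n3, F x1 x2 x3 x4 n1 n2 n3 := by
  let e : (V × V × ℕ × V × ℕ × V × ℕ) ≃ (V × V × V × V × ℕ × ℕ × ℕ) :=
    { toFun := fun p => (p.2.2.2.2.2.1, p.2.2.2.1, p.2.1, p.1, p.2.2.2.2.2.2, p.2.2.2.2.1, p.2.2.1)
      invFun := fun q => (q.2.2.2.1, q.2.2.1, q.2.2.2.2.2.2, q.2.1, q.2.2.2.2.2.1, q.1, q.2.2.2.2.1)
      left_inv := fun _ => rfl
      right_inv := fun _ => rfl }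
  have h := e.tsum_eq (fun q : V × V × V × V × ℕ × ℕ × ℕ =>
    F q.1 q.2.1 q.2.2.1 q.2.2.2.1 q.2.2.2.2.1 q.2.2.2.2.2.1 q.2.2.2.2.2.2)
  simp_rw [ENNReal.tsum_prod'] at h
  exact h

theorem four_marks (G : GG V E H) (A B : H → Prop) [DecidablePred A] [DecidablePred B]
    (Θ : ℕ → ℕ → ℕ → V → V → V → V → ℝ≥0∞) :
    ∑' p : H × List (E × Bool) × H, (if A p.1 ∧ B p.2.2 then G.lam p else 0)
        * ∑ i4 ∈ range (p.2.1.length + 1), ∑ i3 ∈ range (i4 + 1), ∑ i2 ∈ range (i3 + 1),
            ∑ i1 ∈ range (i2 + 1), Θ (i2 - i1) (i3 - i2) (i4 - i3)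
              (G.site p i1) (G.site p i2) (G.site p i3) (G.site p i4)
      = ∑ x1, ∑ x2, ∑ x3, ∑ x4, ∑' n1, ∑' n2, ∑' n3,
          2⁻¹ * G.mA A x1 * G.pwr n1 x1 x2 * G.pwr n2 x2 x3 * G.pwr n3 x3 x4 * G.mB B x4
            * Θ n1 n2 n3 x1 x2 x3 x4 := by
  -- nested sums
  let T1 : ℕ → ℕ → V → V → V → H → List (E × Bool) → ℝ≥0∞ := fun n2 n3 x2 x3 x4 g m =>
    ∑ i1 ∈ range (m.length + 1), Θ (m.length - i1) n2 n3 (G.fin (G.hs g) (m.take i1)) x2 x3 x4
  let T2 : ℕ → V → V → H → List (E × Bool) → ℝ≥0∞ := fun n3 x3 x4 g m =>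
    ∑ i2 ∈ range (m.length + 1),
      T1 (m.length - i2) n3 (G.fin (G.hs g) (m.take i2)) x3 x4 g (m.take i2)
  let T3 : V → H → List (E × Bool) → ℝ≥0∞ := fun x4 g m =>
    ∑ i3 ∈ range (m.length + 1),
      T2 (m.length - i3) (G.fin (G.hs g) (m.take i3)) x4 g (m.take i3)
  have hlen : ∀ (m : List (E × Bool)) (i : ℕ), i < m.length + 1 → (m.take i).length = i := by
    intro m i hi
    rw [List.length_take]; omega
  have htt : ∀ (m : List (E × Bool)) (i j : ℕ), i < j + 1 → (m.take j).take i = m.take i := by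
    intro m i j hij
    rw [List.take_take, min_eq_left (by omega)]
  have e1 : ∀ (n2 n3 : ℕ) (x2 x3 x4 : V) (g : H) (m : List (E × Bool)) (i2 : ℕ), i2 < m.length + 1 →
      T1 n2 n3 x2 x3 x4 g (m.take i2) =
        ∑ i1 ∈ range (i2 + 1), Θ (i2 - i1) n2 n3 (G.fin (G.hs g) (m.take i1)) x2 x3 x4 := by
    intro n2 n3 x2 x3 x4 g m i2 hi
    simp only [T1]
    rw [hlen m i2 hi]
    apply Finset.sum_congr rfl
    intro i1 hi1
    rw [htt m i1 i2 (Finset.mem_range.1 hi1)]
  have e2 : ∀ (n3 : ℕ) (x3 x4 : V) (g : H) (m : List (E × Bool)) (i3 : ℕ), i3 < m.length + 1 →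
      T2 n3 x3 x4 g (m.take i3) =
        ∑ i2 ∈ range (i3 + 1), ∑ i1 ∈ range (i2 + 1), Θ (i2 - i1) (i3 - i2) n3
          (G.fin (G.hs g) (m.take i1)) (G.fin (G.hs g) (m.take i2)) x3 x4 := by
    intro n3 x3 x4 g m i3 hi
    simp only [T2]
    rw [hlen m i3 hi]
    apply Finset.sum_congr rfl
    intro i2 hi2
    rw [Finset.mem_range] at hi2
    rw [htt m i2 i3 hi2, e1 _ _ _ _ _ _ m i2 (by omega)]
  have e3 : ∀ (x4 : V) (g : H) (m : List (E × Bool)) (i4 : ℕ), i4 < m.length + 1 →
      T3 x4 g (m.take i4) =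
        ∑ i3 ∈ range (i4 + 1), ∑ i2 ∈ range (i3 + 1), ∑ i1 ∈ range (i2 + 1),
          Θ (i2 - i1) (i3 - i2) (i4 - i3)
          (G.fin (G.hs g) (m.take i1)) (G.fin (G.hs g) (m.take i2)) (G.fin (G.hs g) (m.take i3)) x4 := by
    intro x4 g m i4 hi
    simp only [T3]
    rw [hlen m i4 hi]
    apply Finset.sum_congr rfl
    intro i3 hi3
    rw [Finset.mem_range] at hi3
    rw [htt m i3 i4 hi3, e2 _ _ _ _ m i3 (by omega)]
  have h1 : ∀ p : H × List (E × Bool) × H,
      ∑ i4 ∈ range (p.2.1.length + 1), ∑ i3 ∈ range (i4 + 1), ∑ i2 ∈ range (i3 + 1),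
            ∑ i1 ∈ range (i2 + 1), Θ (i2 - i1) (i3 - i2) (i4 - i3)
              (G.site p i1) (G.site p i2) (G.site p i3) (G.site p i4) =
      ∑ i4 ∈ range (p.2.1.length + 1), (fun (g : H) (z : V) (m : List (E × Bool)) => T3 z g m) p.1
          (G.fin (G.hs p.1) (p.2.1.take i4)) (p.2.1.take i4) := by
    intro p
    apply Finset.sum_congr rfl
    intro i4 hi4
    rw [Finset.mem_range] at hi4
    simp only
    rw [e3 _ _ _ _ hi4]
    rfl
  refine (tsum_congr fun p => by rw [h1 p]).trans ?_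
  refine (G.start_peel A B (fun (g : H) (z : V) (m : List (E × Bool)) => T3 z g m)).trans ?_
  have h3 : ∀ x4, G.JJ (fun g => if A g then (G.f g : ℝ≥0∞) else 0) x4 (fun g m => T3 x4 g m) =
      ∑' x3, ∑' n3, G.pwr n3 x3 x4 *
        G.JJ (fun g => if A g then (G.f g : ℝ≥0∞) else 0) x3 (fun g m => T2 n3 x3 x4 g m) := by
    intro x4
    exact G.JJ_peel_len (fun g => if A g then (G.f g : ℝ≥0∞) else 0) x4
      (fun g x m n => T2 n x x4 g m)
  have h2 : ∀ n3 x3 x4, G.JJ (fun g => if A g then (G.f g : ℝ≥0∞) else 0) x3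
      (fun g m => T2 n3 x3 x4 g m) =
      ∑' x2, ∑' n2, G.pwr n2 x2 x3 *
        G.JJ (fun g => if A g then (G.f g : ℝ≥0∞) else 0) x2 (fun g m => T1 n2 n3 x2 x3 x4 g m) := by
    intro n3 x3 x4
    exact G.JJ_peel_len (fun g => if A g then (G.f g : ℝ≥0∞) else 0) x3
      (fun g x m n => T1 n n3 x x3 x4 g m)
  have h0 : ∀ n2 n3 x2 x3 x4, G.JJ (fun g => if A g then (G.f g : ℝ≥0∞) else 0) x2
      (fun g m => T1 n2 n3 x2 x3 x4 g m) =
      ∑' x1, ∑' n1, G.pwr n1 x1 x2 * (G.mA A x1 * Θ n1 n2 n3 x1 x2 x3 x4) := by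
    intro n2 n3 x2 x3 x4
    have := G.JJ_peel_len (fun g => if A g then (G.f g : ℝ≥0∞) else 0) x2
      (fun _ x _ n => Θ n n2 n3 x x2 x3 x4)
    simp_rw [G.JJ_const A] at this
    exact this
  simp_rw [h3, h2, h0, ← ENNReal.tsum_mul_left]
  simp_rw [← tsum_fintype (L := .unconditional V)]
  rw [reorder (fun x1 x2 x3 x4 n1 n2 n3 => 2⁻¹ * G.mB B x4 * (G.pwr n3 x3 x4 *
    (G.pwr n2 x2 x3 * (G.pwr n1 x1 x2 * (G.mA A x1 * Θ n1 n2 n3 x1 x2 x3 x4)))))]
  apply tsum_congr; intro x1
  apply tsum_congr; intro x2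
  apply tsum_congr; intro x3
  apply tsum_congr; intro x4
  apply tsum_congr; intro n1
  apply tsum_congr; intro n2
  apply tsum_congr; intro n3
  ring

end GG

end Pool.Agent.Helper41.GF
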