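import Pool.Agent.Helper41.GF.BoxDefs
import Pool.Agent.Helper41.GF.Marks

/-!
# Definitions: finite weighted graphs with ghost edges, currents, signs, ghost paths
-/

set_option autoImplicit false

open scoped ENNReal Nat
open Finset MeasureTheory

namespace Pool.Agent.Helper41.GF


/-! ## TARGETS -/

section targets

variable {V E H : Type} [Fintype V] [DecidableEq V] [Fintype E] [DecidableEq E] [Fintype H]
  [DecidableEq H]

theorem pwr_one' (G : GG V E H) (x y : V) : G.pwr 1 x y =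
    ∑ d : E × Bool, if G.ds d = x then (G.w d.1 : ℝ≥0∞) * (if G.dt d = y then 1 else 0) else 0 := by
  unfold GG.pwr
  have hinj : Function.Injective (fun d : E × Bool => [d]) := fun a b h => by simpa using h
  rw [← tsum_fintype (L := .unconditional (E × Bool))]
  rw [← hinj.tsum_eq]
  · apply tsum_congr
    intro d
    simp [GG.pw]
  · intro l hl
    rw [Function.mem_support] at hl
    have h1 : l.length = 1 := by
      by_contra h
      rw [if_neg h] at hl
      exact hl rfl
    obtain ⟨d, rfl⟩ := List.length_eq_one_iff.1 h1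
    exact ⟨d, rfl⟩

theorem pop_nonneg (G : GG V E H) (g : V → ℝ) (hg : ∀ x, 0 ≤ g x) (x : V) : 0 ≤ G.Pop g x := by
  unfold GG.Pop
  apply Finset.sum_nonneg
  intro e _
  apply mul_nonneg (G.w e).2
  apply add_nonneg
  · split_ifs
    · exact hg _
    · exact le_rfl
  · split_ifs
    · exact hg _
    · exact le_rfl

theorem pop_one (G : GG V E H) (g : V → ℝ) (hg : ∀ x, 0 ≤ g x) (x : V) :
    ∑ y, G.pwr 1 x y * ENNReal.ofReal (g y) = ENNReal.ofReal (G.Pop g x) := by
  have h1 : ∑ y, G.pwr 1 x y * ENNReal.ofReal (g y) =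
      ∑ d : E × Bool, if G.ds d = x then (G.w d.1 : ℝ≥0∞) * ENNReal.ofReal (g (G.dt d)) else 0 := by
    simp_rw [pwr_one', Finset.sum_mul]
    rw [Finset.sum_comm]
    apply Finset.sum_congr rfl
    intro d _
    by_cases h : G.ds d = x
    · simp only [h, if_true]
      rw [Finset.sum_eq_single (G.dt d)]
      · rw [if_pos rfl, mul_one]
      · intro y _ hy
        rw [if_neg (Ne.symm hy), mul_zero, zero_mul]
      · intro h'
        exact absurd (Finset.mem_univ _) h'
    · simp only [h, if_false, zero_mul, Finset.sum_const_zero]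
  rw [h1, Fintype.sum_prod_type]
  unfold GG.Pop
  rw [ENNReal.ofReal_sum_of_nonneg]
  · apply Finset.sum_congr rfl
    intro e _
    rw [Fintype.sum_bool]
    simp only [GG.ds, GG.dt, if_true]
    rw [ENNReal.ofReal_mul (NNReal.coe_nonneg (G.w e)), ENNReal.ofReal_add, ENNReal.ofReal_coe_nnreal, mul_add]
    · congr 1
      · by_cases h : G.src e = x
        · rw [if_pos h, if_pos h]
        · rw [if_neg h, if_neg h, ENNReal.ofReal_zero, mul_zero]
      · by_cases h : G.tgt e = x
        · simp [h]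
        · simp [h]
    · split_ifs
      · exact hg _
      · exact le_rfl
    · split_ifs
      · exact hg _
      · exact le_rfl
  · intro e _
    apply mul_nonneg (G.w e).2
    apply add_nonneg
    · split_ifs
      · exact hg _
      · exact le_rfl
    · split_ifs
      · exact hg _
      · exact le_rfl

theorem pop_iterate (G : GG V E H) (g : V → ℝ) (hg : ∀ x, 0 ≤ g x) (n : ℕ) (x : V) :
    ∑ y, G.pwr n x y * ENNReal.ofReal (g y) = ENNReal.ofReal (G.Pop^[n] g x) := by
  induction n generalizing g with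
  | zero =>
    simp_rw [G.pwr_zero]
    rw [Finset.sum_eq_single x]
    · rw [if_pos rfl, one_mul]
      rfl
    · intro y _ hy
      rw [if_neg (Ne.symm hy), zero_mul]
    · intro h
      exact absurd (Finset.mem_univ _) h
  | succ n ih =>
    rw [Function.iterate_succ_apply, ← ih (G.Pop g) (fun x => pop_nonneg G g hg x)]
    simp_rw [G.pwr_add, Finset.sum_mul]
    rw [Finset.sum_comm]
    apply Finset.sum_congr rfl
    intro z _
    rw [← pop_one G g hg z, Finset.mul_sum]
    apply Finset.sum_congr rfl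
    intro y _
    rw [mul_assoc]

theorem contraction (G : GG V E H) (θ : ℝ) (hrow : RowLe G θ) (ψ : V → ℝ) :
    2 * ∑ e, (G.w e : ℝ) * (ψ (G.src e) * ψ (G.tgt e)) ≤ (1 - θ) * ∑ x, ψ x ^ 2 := by
  have h1 : 2 * ∑ e, (G.w e : ℝ) * (ψ (G.src e) * ψ (G.tgt e)) ≤
      ∑ e, (G.w e : ℝ) * (ψ (G.src e) ^ 2 + ψ (G.tgt e) ^ 2) := by
    rw [Finset.mul_sum]
    apply Finset.sum_le_sum
    intro e _
    have hw : (0 : ℝ) ≤ (G.w e : ℝ) := (G.w e).2
    have h2 : 2 * (ψ (G.src e) * ψ (G.tgt e)) ≤ ψ (G.src e) ^ 2 + ψ (G.tgt e) ^ 2 := by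
      nlinarith [sq_nonneg (ψ (G.src e) - ψ (G.tgt e))]
    calc 2 * ((G.w e : ℝ) * (ψ (G.src e) * ψ (G.tgt e)))
        = (G.w e : ℝ) * (2 * (ψ (G.src e) * ψ (G.tgt e))) := by ring
      _ ≤ _ := mul_le_mul_of_nonneg_left h2 hw
  refine h1.trans ?_
  have h2 : ∑ e, (G.w e : ℝ) * (ψ (G.src e) ^ 2 + ψ (G.tgt e) ^ 2) =
      ∑ x, (∑ e, (G.w e : ℝ) * ((if G.src e = x then 1 else 0) + (if G.tgt e = x then 1 else 0))) *
        ψ x ^ 2 := by
    simp_rw [Finset.sum_mul]
    rw [Finset.sum_comm]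
    apply Finset.sum_congr rfl
    intro e _
    have h3 : ∀ x, (G.w e : ℝ) * ((if G.src e = x then 1 else 0) + (if G.tgt e = x then 1 else 0)) *
        ψ x ^ 2 = (G.w e : ℝ) * ((if G.src e = x then ψ x ^ 2 else 0) +
          (if G.tgt e = x then ψ x ^ 2 else 0)) := by
      intro x
      split_ifs <;> ring
    simp_rw [h3]
    rw [← Finset.mul_sum, Finset.sum_add_distrib, Finset.sum_ite_eq, Finset.sum_ite_eq]
    simp
  rw [h2, Finset.mul_sum]
  apply Finset.sum_le_sum
  intro x _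
  exact mul_le_mul_of_nonneg_right (hrow x) (sq_nonneg _)

theorem pop_le (G : GG V E H) (θ : ℝ) (hrow : RowLe G θ) (g : V → ℝ) (c : ℝ) (hc : 0 ≤ c)
    (hg : ∀ x, g x ≤ c) (x : V) : G.Pop g x ≤ (1 - θ) * c := by
  unfold GG.Pop
  calc ∑ e, (G.w e : ℝ) * ((if G.src e = x then g (G.tgt e) else 0)
        + (if G.tgt e = x then g (G.src e) else 0))
      ≤ ∑ e, ((G.w e : ℝ) * ((if G.src e = x then 1 else 0) + (if G.tgt e = x then 1 else 0))) * c := by
        apply Finset.sum_le_sum
        intro e _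
        rw [mul_assoc]
        apply mul_le_mul_of_nonneg_left _ (G.w e).2
        rw [add_mul]
        apply add_le_add
        · split_ifs
          · rw [one_mul]; exact hg _
          · rw [zero_mul]
        · split_ifs
          · rw [one_mul]; exact hg _
          · rw [zero_mul]
    _ = (∑ e, (G.w e : ℝ) * ((if G.src e = x then 1 else 0) + (if G.tgt e = x then 1 else 0))) * c := by
        rw [Finset.sum_mul]
    _ ≤ (1 - θ) * c := mul_le_mul_of_nonneg_right (hrow x) hc

theorem iter_bound (G : GG V E H) (θ : ℝ) (hθ1 : θ ≤ 1) (hrow : RowLe G θ) (g : V → ℝ) (c : ℝ)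
    (hc : 0 ≤ c) (hg0 : ∀ x, 0 ≤ g x) (hg : ∀ x, g x ≤ c) (n : ℕ) :
    ∀ x, 0 ≤ G.Pop^[n] g x ∧ G.Pop^[n] g x ≤ (1 - θ) ^ n * c := by
  induction n with
  | zero =>
    intro x
    simp only [Function.iterate_zero, id, pow_zero, one_mul]
    exact ⟨hg0 x, hg x⟩
  | succ n ih =>
    intro x
    rw [Function.iterate_succ_apply']
    refine ⟨pop_nonneg G _ (fun x => (ih x).1) x, ?_⟩
    have h1 := pop_le G θ hrow (G.Pop^[n] g) ((1 - θ) ^ n * c)
      (mul_nonneg (pow_nonneg (by linarith) n) hc) (fun x => (ih x).2) x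
    calc G.Pop (G.Pop^[n] g) x ≤ (1 - θ) * ((1 - θ) ^ n * c) := h1
      _ = (1 - θ) ^ (n + 1) * c := by ring

theorem pwr_row (G : GG V E H) (θ : ℝ) (hθ : 0 ≤ θ) (hθ1 : θ ≤ 1) (hrow : RowLe G θ)
    (n : ℕ) (x : V) : ∑ y, G.pwr n x y ≤ ENNReal.ofReal ((1 - θ) ^ n) := by
  have h1 := pop_iterate G (fun _ => 1) (fun _ => zero_le_one) n x
  simp only [ENNReal.ofReal_one, mul_one] at h1
  rw [h1]
  apply ENNReal.ofReal_le_ofReal
  have h2 := (iter_bound G θ hθ1 hrow (fun _ => 1) 1 zero_le_one (fun _ => zero_le_one)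
    (fun _ => le_rfl) n x).2
  rwa [mul_one] at h2

theorem Tb_row (G : GG V E H) (hrow : RowLe G 0) (v : ℝ≥0∞) (hv0 : v ≠ 0) (hv : v ≤ 1)
    (x : V) : ∑ y, G.Tb v x y ≤ 1 := by
  unfold GG.Tb
  rw [← tsum_fintype (L := .unconditional V), ENNReal.tsum_comm]
  calc ∑' n : ℕ, ∑' y : V, v * (1 - v) ^ n * G.pwr n x y
      ≤ ∑' n : ℕ, v * (1 - v) ^ n := by
        apply ENNReal.tsum_le_tsum
        intro n
        rw [ENNReal.tsum_mul_left, tsum_fintype]
        calc v * (1 - v) ^ n * ∑ y, G.pwr n x y ≤ v * (1 - v) ^ n * 1 := by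
              gcongr
              have := pwr_row G 0 le_rfl zero_le_one hrow n x
              simpa using this
          _ = v * (1 - v) ^ n := mul_one _
    _ = v * (1 - (1 - v))⁻¹ := by
        rw [ENNReal.tsum_mul_left, ENNReal.tsum_geometric]
    _ = 1 := by
        rw [ENNReal.sub_sub_cancel ENNReal.one_ne_top hv]
        exact ENNReal.mul_inv_cancel hv0 (ne_top_of_le_ne_top ENNReal.one_ne_top hv)

theorem Gr_ne_top (G : GG V E H) (θ : ℝ) (hθ : 0 < θ) (hθ1 : θ ≤ 1) (hrow : RowLe G θ)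
    (x y : V) : G.Gr x y ≠ ∞ := by
  have h1 : G.Gr x y ≤ ∑' n : ℕ, ENNReal.ofReal ((1 - θ) ^ n) := by
    unfold GG.Gr
    apply ENNReal.tsum_le_tsum
    intro n
    refine le_trans ?_ (pwr_row G θ hθ.le hθ1 hrow n x)
    exact Finset.single_le_sum (f := fun y => G.pwr n x y) (fun _ _ => zero_le) (Finset.mem_univ y)
  refine ne_top_of_le_ne_top ?_ h1
  exact (summable_geometric_of_lt_one (by linarith) (by linarith)).tsum_ofReal_ne_top

theorem Gr_split (G : GG V E H) (x z : V) :
    G.Gr x z = (if x = z then 1 else 0) + ∑ y, G.pwr 1 x y * G.Gr y z := by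
  have h1 : G.Gr x z = G.pwr 0 x z + ∑' n, G.pwr (n + 1) x z := by
    unfold GG.Gr
    rw [tsum_eq_zero_add' ENNReal.summable]
  rw [h1, G.pwr_zero]
  congr 1
  have h2 : ∀ n, G.pwr (n + 1) x z = ∑' y, G.pwr 1 x y * G.pwr n y z := by
    intro n
    rw [add_comm, G.pwr_add, tsum_fintype]
  simp_rw [h2]
  rw [ENNReal.tsum_comm, tsum_fintype]
  apply Finset.sum_congr rfl
  intro y _
  rw [ENNReal.tsum_mul_left]
  rfl

theorem Gr_eq (G : GG V E H) (θ : ℝ) (hθ : 0 < θ) (hθ1 : θ ≤ 1) (hrow : RowLe G θ)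
    (z x : V) : (G.Gr x z).toReal
      = G.Pop (fun y => (G.Gr y z).toReal) x + (if x = z then 1 else 0) := by
  have h1 := Gr_split G x z
  have h2 : ∀ y, G.Gr y z = ENNReal.ofReal ((G.Gr y z).toReal) := fun y =>
    (ENNReal.ofReal_toReal (Gr_ne_top G θ hθ hθ1 hrow y z)).symm
  have h3 : ∑ y, G.pwr 1 x y * G.Gr y z =
      ENNReal.ofReal (G.Pop (fun y => (G.Gr y z).toReal) x) := by
    rw [← pop_one G (fun y => (G.Gr y z).toReal) (fun _ => ENNReal.toReal_nonneg) x]
    apply Finset.sum_congr rfl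
    intro y _
    rw [← h2 y]
  rw [h3] at h1
  have h4 : 0 ≤ G.Pop (fun y => (G.Gr y z).toReal) x :=
    pop_nonneg G _ (fun _ => ENNReal.toReal_nonneg) x
  have h5 : (if x = z then (1 : ℝ≥0∞) else 0) = ENNReal.ofReal (if x = z then 1 else 0) := by
    split_ifs <;> simp
  rw [h5, ← ENNReal.ofReal_add (by split_ifs <;> norm_num) h4] at h1
  rw [h1, ENNReal.toReal_ofReal (add_nonneg (by split_ifs <;> norm_num) h4)]
  ring

theorem Gr_comm (G : GG V E H) (x y : V) : G.Gr x y = G.Gr y x := by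
  unfold GG.Gr
  exact tsum_congr fun n => G.pwr_comm n x y

theorem pop_add (G : GG V E H) (g h : V → ℝ) : G.Pop (g + h) = G.Pop g + G.Pop h := by
  funext x
  show G.Pop (g + h) x = G.Pop g x + G.Pop h x
  unfold GG.Pop
  rw [← Finset.sum_add_distrib]
  apply Finset.sum_congr rfl
  intro e _
  simp only [Pi.add_apply]
  split_ifs <;> ring

theorem pop_iter_add (G : GG V E H) (n : ℕ) (g h : V → ℝ) :
    G.Pop^[n] (g + h) = G.Pop^[n] g + G.Pop^[n] h := by
  induction n with
  | zero => rfl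
  | succ n ih =>
    rw [Function.iterate_succ_apply', Function.iterate_succ_apply', Function.iterate_succ_apply', ih,
      pop_add]

theorem pop_mono (G : GG V E H) : Monotone (fun g : V → ℝ => G.Pop g) := by
  intro g h hgh x
  show G.Pop g x ≤ G.Pop h x
  unfold GG.Pop
  apply Finset.sum_le_sum
  intro e _
  apply mul_le_mul_of_nonneg_left _ (G.w e).2
  apply add_le_add
  · split_ifs
    · exact hgh _
    · exact le_rfl
  · split_ifs
    · exact hgh _
    · exact le_rfl

theorem Gr_mul_sum (G : GG V E H) (gg : V → ℝ) (hgg : ∀ x, 0 ≤ gg x) (x : V) :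
    ∑ y, G.Gr x y * ENNReal.ofReal (gg y) = ∑' n, ENNReal.ofReal (G.Pop^[n] gg x) := by
  unfold GG.Gr
  simp_rw [← ENNReal.tsum_mul_right]
  rw [← tsum_fintype (L := .unconditional V), ENNReal.tsum_comm]
  apply tsum_congr
  intro n
  rw [tsum_fintype, pop_iterate G gg hgg n x]

theorem iter_nonneg (G : GG V E H) (g : V → ℝ) (hg : ∀ x, 0 ≤ g x) (n : ℕ) :
    ∀ x, 0 ≤ G.Pop^[n] g x := by
  induction n with
  | zero => exact hg
  | succ n ih =>
    intro x
    rw [Function.iterate_succ_apply']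
    exact pop_nonneg G _ ih x

/-- comparison with a superharmonic function -/
theorem Gr_le (G : GG V E H) (u gg : V → ℝ) (hu : ∀ x, 0 ≤ u x) (hgg : ∀ x, 0 ≤ gg x)
    (h : ∀ x, G.Pop u x + gg x ≤ u x) (x : V) :
    ∑ y, G.Gr x y * ENNReal.ofReal (gg y) ≤ ENNReal.ofReal (u x) := by
  rw [Gr_mul_sum G gg hgg x, ENNReal.tsum_eq_iSup_nat]
  apply iSup_le
  intro N
  rw [← ENNReal.ofReal_sum_of_nonneg (fun n _ => iter_nonneg G gg hgg n x)]
  apply ENNReal.ofReal_le_ofReal
  have key : ∀ N, ∀ x, ∑ n ∈ range N, G.Pop^[n] gg x + G.Pop^[N] u x ≤ u x := by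
    intro N
    induction N with
    | zero =>
      intro x
      simp
    | succ N ih =>
      intro x
      rw [Finset.sum_range_succ, Function.iterate_succ_apply]
      have h1 : G.Pop^[N] (G.Pop u + gg) ≤ G.Pop^[N] u := (pop_mono G).iterate N (fun x => h x)
      have h2 := h1 x
      rw [pop_iter_add] at h2
      simp only [Pi.add_apply] at h2
      have h3 := ih x
      linarith
  have h4 := key N x
  have h5 := iter_nonneg G u hu N x
  linarith

theorem mB_eq (G : GG V E H) (θ : ℝ) (hθ : 0 < θ) (hθ1 : θ ≤ 1) (hrow : RowLe G θ)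
    (A : H → Prop) [DecidablePred A] (m : V → ℝ) (hm0 : ∀ x, 0 ≤ m x)
    (hm : ∀ x, m x = G.Pop m x + ∑ g, if G.hs g = x ∧ A g then (G.f g : ℝ) else 0) (x : V) :
    G.mB A x = ENNReal.ofReal (m x) := by
  set fA : V → ℝ := fun x => ∑ g, if G.hs g = x ∧ A g then (G.f g : ℝ) else 0 with hfA
  have hfA0 : ∀ x, 0 ≤ fA x := by
    intro x
    apply Finset.sum_nonneg
    intro g _
    split_ifs
    · exact (G.f g).2
    · exact le_rfl
  have hm' : m = G.Pop m + fA := funext hm
  have h1 : G.mB A x = ∑ y, G.Gr x y * ENNReal.ofReal (fA y) := by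
    have h2 : ∀ y, ENNReal.ofReal (fA y) = ∑ g, if G.hs g = y ∧ A g then (G.f g : ℝ≥0∞) else 0 := by
      intro y
      rw [hfA]
      simp only
      rw [ENNReal.ofReal_sum_of_nonneg]
      · apply Finset.sum_congr rfl
        intro g _
        by_cases hc : G.hs g = y ∧ A g
        · rw [if_pos hc, if_pos hc, ENNReal.ofReal_coe_nnreal]
        · rw [if_neg hc, if_neg hc, ENNReal.ofReal_zero]
      · intro g _
        split_ifs
        · exact (G.f g).2
        · exact le_rfl
    simp_rw [h2, Finset.mul_sum]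
    rw [Finset.sum_comm]
    unfold GG.mB
    apply Finset.sum_congr rfl
    intro g _
    by_cases hA : A g
    · simp only [hA, if_true, and_true]
      rw [Finset.sum_eq_single (G.hs g)]
      · rw [if_pos rfl]
        rfl
      · intro y _ hy
        rw [if_neg (Ne.symm hy), mul_zero]
      · intro h'
        exact absurd (Finset.mem_univ _) h'
    · simp only [hA, if_false, and_false, mul_zero, Finset.sum_const_zero]
  rw [h1, Gr_mul_sum G fA hfA0 x]
  have key : ∀ N, ∀ x, ∑ n ∈ range N, G.Pop^[n] fA x + G.Pop^[N] m x = m x := by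
    intro N
    induction N with
    | zero =>
      intro x
      simp
    | succ N ih =>
      intro x
      rw [Finset.sum_range_succ, Function.iterate_succ_apply]
      have h2 : G.Pop^[N] m = G.Pop^[N] (G.Pop m) + G.Pop^[N] fA := by
        rw [← pop_iter_add, ← hm']
      have h3 := congrFun h2 x
      simp only [Pi.add_apply] at h3
      have h4 := ih x
      linarith
  have hc : ∀ x, m x ≤ ∑ y, m y := fun x =>
    Finset.single_le_sum (f := m) (fun y _ => hm0 y) (Finset.mem_univ x)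
  have hc0 : 0 ≤ ∑ y, m y := Finset.sum_nonneg fun y _ => hm0 y
  have hlim : Filter.Tendsto (fun N => G.Pop^[N] m x) Filter.atTop (nhds 0) := by
    have h2 : Filter.Tendsto (fun N : ℕ => (1 - θ) ^ N * ∑ y, m y) Filter.atTop (nhds 0) := by
      have h3 := (tendsto_pow_atTop_nhds_zero_of_lt_one (show (0 : ℝ) ≤ 1 - θ by linarith)
        (by linarith)).mul_const (∑ y, m y)
      rwa [zero_mul] at h3
    exact squeeze_zero (fun N => iter_nonneg G m hm0 N x)
      (fun N => (iter_bound G θ hθ1 hrow m _ hc0 hm0 hc N x).2) h2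
  have hsum : HasSum (fun n => G.Pop^[n] fA x) (m x) := by
    rw [hasSum_iff_tendsto_nat_of_nonneg (fun n => iter_nonneg G fA hfA0 n x)]
    have h2 : (fun N => ∑ n ∈ range N, G.Pop^[n] fA x) = fun N => m x - G.Pop^[N] m x := by
      funext N
      have := key N x
      linarith
    rw [h2]
    have h3 := hlim.const_sub (m x)
    rwa [sub_zero] at h3
  rw [← ENNReal.ofReal_tsum_of_nonneg (fun n => iter_nonneg G fA hfA0 n x) hsum.summable,
    hsum.tsum_eq]

theorem mA_eq (G : GG V E H) (θ : ℝ) (hθ : 0 < θ) (hθ1 : θ ≤ 1) (hrow : RowLe G θ)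
    (A : H → Prop) [DecidablePred A] (m : V → ℝ) (hm0 : ∀ x, 0 ≤ m x)
    (hm : ∀ x, m x = G.Pop m x + ∑ g, if G.hs g = x ∧ A g then (G.f g : ℝ) else 0) (x : V) :
    G.mA A x = ENNReal.ofReal (m x) := by
  rw [← mB_eq G θ hθ hθ1 hrow A m hm0 hm x]
  unfold GG.mA GG.mB
  apply Finset.sum_congr rfl
  intro g _
  split_ifs
  · rw [mul_comm]
    congr 1
    exact tsum_congr fun n => G.pwr_comm n _ _
  · rfl

theorem pwr_tsum' (G : GG V E H) (x y : V) : ∑' l, G.pw x l y = G.Gr x y := by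
  unfold GG.Gr GG.pwr
  rw [ENNReal.tsum_comm]
  apply tsum_congr
  intro l
  rw [tsum_eq_single l.length]
  · rw [if_pos rfl]
  · intro n hn
    rw [if_neg (Ne.symm hn)]

theorem lamk_sum_ne_top (G : GG V E H) (θ : ℝ) (hθ : 0 < θ) (hθ1 : θ ≤ 1)
    (hrow : RowLe G θ) : ∑' p : H × List (E × Bool) × H, G.lam p ≠ ∞ := by
  have h1 : ∑' p : H × List (E × Bool) × H, G.lam p =
      ∑ g0, ∑ g1, 2⁻¹ * (G.f g0 : ℝ≥0∞) * G.Gr (G.hs g0) (G.hs g1) * (G.f g1 : ℝ≥0∞) := by
    simp_rw [ENNReal.tsum_prod']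
    rw [← tsum_fintype (L := .unconditional H)]
    apply tsum_congr
    intro g0
    rw [ENNReal.tsum_comm, ← tsum_fintype (L := .unconditional H)]
    apply tsum_congr
    intro g1
    unfold GG.lam
    simp only
    rw [ENNReal.tsum_mul_right, ENNReal.tsum_mul_left, pwr_tsum']
  rw [h1]
  apply ENNReal.sum_ne_top.2
  intro g0 _
  apply ENNReal.sum_ne_top.2
  intro g1 _
  apply ENNReal.mul_ne_top
  · apply ENNReal.mul_ne_top
    · apply ENNReal.mul_ne_top
      · simp
      · exact ENNReal.coe_ne_top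
    · exact Gr_ne_top G θ hθ hθ1 hrow _ _
  · exact ENNReal.coe_ne_top

end targets

end Pool.Agent.Helper41.GF
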