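import Pool.Agent.Helper41.GF.Defs

set_option autoImplicit false

open scoped ENNReal Nat
open Finset MeasureTheory

namespace Pool.Agent.Helper41.GF

theorem rad_eq (d : ℕ) {r : ℝ} (hr : r ∈ Set.Ioi (0 : ℝ)) :
    rad d r = r ^ (d : ℝ) * Real.exp (-(1 / 2) * r ^ (2 : ℝ)) := by
  unfold rad
  rw [Real.rpow_natCast, Real.rpow_two]
  congr 2
  ring

theorem rad_nonneg (d : ℕ) {r : ℝ} (hr : r ∈ Set.Ioi (0 : ℝ)) : 0 ≤ rad d r := by
  have : 0 < r := hr
  unfold rad
  positivity

theorem rad_cont (d : ℕ) : Continuous (rad d) := by unfold rad; fun_prop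

theorem rad_int (d : ℕ) : IntegrableOn (rad d) (Set.Ioi 0) := by
  have h := integrableOn_rpow_mul_exp_neg_mul_rpow (p := 2) (s := d) (b := 1 / 2)
    (by have : (0 : ℝ) ≤ d := Nat.cast_nonneg d
        linarith) two_pos (by norm_num)
  exact h.congr_fun (fun r hr => (rad_eq d hr).symm) measurableSet_Ioi

theorem rad_val (d : ℕ) : ∫ r in Set.Ioi (0 : ℝ), rad d r =
    (1 / 2 : ℝ) ^ (-((d : ℝ) + 1) / 2) * (1 / 2) * Real.Gamma (((d : ℝ) + 1) / 2) := by
  have h := integral_rpow_mul_exp_neg_mul_rpow (p := 2) (q := d) (b := 1 / 2) two_pos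
    (by have : (0 : ℝ) ≤ d := Nat.cast_nonneg d
        linarith) (by norm_num)
  rw [← h]
  exact setIntegral_congr_fun measurableSet_Ioi fun r hr => rad_eq d hr

theorem Ga_eq (d : ℕ) : Ga d = ENNReal.ofReal (∫ r in Set.Ioi (0 : ℝ), rad d r) := by
  unfold Ga
  rw [ofReal_integral_eq_lintegral_ofReal (rad_int d)]
  filter_upwards [self_mem_ae_restrict measurableSet_Ioi] with r hr
  exact rad_nonneg d hr

theorem Ga_ne_top (d : ℕ) : Ga d ≠ ∞ := by
  rw [Ga_eq]
  exact ENNReal.ofReal_ne_top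

theorem rad_val_pos (d : ℕ) : 0 < ∫ r in Set.Ioi (0 : ℝ), rad d r := by
  rw [rad_val]
  have h1 : 0 < Real.Gamma (((d : ℝ) + 1) / 2) := Real.Gamma_pos_of_pos (by positivity)
  positivity

theorem Ga_ne_zero (d : ℕ) : Ga d ≠ 0 := by
  rw [Ga_eq]
  exact (ENNReal.ofReal_pos.2 (rad_val_pos d)).ne'

theorem Ga_rec (d : ℕ) : Ga (d + 2) = ((d : ℝ≥0∞) + 1) * Ga d := by
  have h : ∫ r in Set.Ioi (0 : ℝ), rad (d + 2) r = ((d : ℝ) + 1) * ∫ r in Set.Ioi (0 : ℝ), rad d r := by
    rw [rad_val, rad_val]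
    have e1 : (((d + 2 : ℕ) : ℝ) + 1) / 2 = ((d : ℝ) + 1) / 2 + 1 := by push_cast; ring
    have e2 : -(((d + 2 : ℕ) : ℝ) + 1) / 2 = -((d : ℝ) + 1) / 2 + (-1) := by push_cast; ring
    have h1 : (0 : ℝ) < ((d : ℝ) + 1) / 2 := by positivity
    rw [e1, e2, Real.Gamma_add_one h1.ne', Real.rpow_add (by norm_num), Real.rpow_neg_one]
    norm_num
    ring
  rw [Ga_eq, Ga_eq, h, ENNReal.ofReal_mul (by positivity)]
  congr 1
  rw [ENNReal.ofReal_add (by positivity) zero_le_one, ENNReal.ofReal_natCast, ENNReal.ofReal_one]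

theorem lint_pow (d : ℕ) (c ε : ℝ) (hc : 0 ≤ c) (hε : 0 ≤ ε) :
    ∫⁻ r in Set.Ioc (0 : ℝ) ε, ENNReal.ofReal (r ^ d * c) =
      ENNReal.ofReal (ε ^ (d + 1) / (d + 1) * c) := by
  have hcont : Continuous fun r : ℝ => r ^ d * c := by fun_prop
  rw [← ofReal_integral_eq_lintegral_ofReal]
  · rw [← intervalIntegral.integral_of_le hε, intervalIntegral.integral_mul_const, integral_pow]
    simp
  · exact (hcont.integrableOn_Icc (a := 0) (b := ε)).mono_set Set.Ioc_subset_Icc_self
  · filter_upwards [self_mem_ae_restrict measurableSet_Ioc] with r hr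
    have : 0 < r := hr.1
    positivity

/-- small radii are unlikely when the degree is at least two -/
theorem Ga_small (d : ℕ) (hd : 2 ≤ d) (ε : ℝ) (h0 : 0 < ε) (h1 : ε ≤ 1) :
    ∫⁻ r in Set.Ioc (0 : ℝ) ε, ENNReal.ofReal (rad d r)
      ≤ ENNReal.ofReal (2 * ε ^ 3) * Ga d := by
  have hnum : ∫⁻ r in Set.Ioc (0 : ℝ) ε, ENNReal.ofReal (rad d r) ≤
      ENNReal.ofReal (ε ^ (d + 1) / (d + 1) * 1) := by
    rw [← lint_pow d 1 ε zero_le_one h0.le]
    apply setLIntegral_mono' measurableSet_Ioc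
    intro r hr
    apply ENNReal.ofReal_le_ofReal
    unfold rad
    have hr0 : 0 < r := hr.1
    apply mul_le_mul_of_nonneg_left _ (by positivity)
    rw [Real.exp_le_one_iff]
    nlinarith [sq_nonneg r]
  have hden : ENNReal.ofReal ((1 : ℝ) ^ (d + 1) / (d + 1) * Real.exp (-1 / 2)) ≤ Ga d := by
    rw [← lint_pow d (Real.exp (-1 / 2)) 1 (Real.exp_pos _).le zero_le_one]
    unfold Ga
    refine le_trans ?_ (lintegral_mono_set (s := Set.Ioc (0 : ℝ) 1) Set.Ioc_subset_Ioi_self)
    apply setLIntegral_mono' measurableSet_Ioc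
    intro r hr
    apply ENNReal.ofReal_le_ofReal
    unfold rad
    have hr0 : 0 < r := hr.1
    have hr1 : r ≤ 1 := hr.2
    apply mul_le_mul_of_nonneg_left _ (by positivity)
    apply Real.exp_le_exp.2
    nlinarith
  refine hnum.trans ?_
  refine le_trans ?_ (mul_le_mul_right hden _)
  rw [← ENNReal.ofReal_mul (by positivity)]
  apply ENNReal.ofReal_le_ofReal
  have h2 : ε ^ (d + 1) ≤ ε ^ 3 := pow_le_pow_of_le_one h0.le h1 (by omega)
  have h3 : 1 ≤ 2 * Real.exp (-1 / 2) := by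
    have h4 : Real.exp (1 / 2) ≤ 2 := by
      have h5 : Real.exp (1 / 2) ^ 2 ≤ 2 ^ 2 := by
        rw [← Real.exp_nat_mul]
        have := Real.exp_one_lt_d9
        norm_num
        linarith
      exact (pow_le_pow_iff_left₀ (Real.exp_pos _).le (by norm_num) two_ne_zero).1 h5
    have h6 : Real.exp (-1 / 2) * Real.exp (1 / 2) = 1 := by
      rw [← Real.exp_add]; norm_num
    have h7 := Real.exp_pos (-1 / 2)
    nlinarith
  have h8 : (0 : ℝ) < (d : ℝ) + 1 := by positivity
  have h9 : 0 < ε ^ 3 := by positivity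
  rw [mul_one, one_pow]
  have e1 : 2 * ε ^ 3 * (1 / ((d : ℝ) + 1) * Real.exp (-1 / 2)) =
    (ε ^ 3 * (2 * Real.exp (-1 / 2))) / ((d : ℝ) + 1) := by ring
  rw [e1]
  apply div_le_div_of_nonneg_right _ h8.le
  nlinarith

theorem sg_mul_self (b : Bool) : sg b * sg b = 1 := by
  cases b <;> simp [sg]

theorem sg_mp (b : Bool) : MeasurePreserving (fun r : ℝ => sg b * r) := by
  cases b
  · have : (fun r : ℝ => sg false * r) = Neg.neg := by funext r; simp [sg]
    rw [this]
    exact Measure.measurePreserving_neg volume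
  · have : (fun r : ℝ => sg true * r) = id := by funext r; simp [sg]
    rw [this]
    exact MeasurePreserving.id volume

/-- decomposition of the integral over the field in signs and radii -/
theorem lintegral_sign_radii {V : Type} [Fintype V] [DecidableEq V] (F : (V → ℝ) → ℝ≥0∞)
    (hF : Measurable F) :
    ∫⁻ ψ : V → ℝ, F ψ
      = ∑ σ : V → Bool, ∫⁻ r : V → ℝ in {r | ∀ x, 0 < r x}, F (fun x => sg (σ x) * r x) := by
  set O : (V → Bool) → Set (V → ℝ) := fun σ => {ψ | ∀ x, 0 < sg (σ x) * ψ x} with hO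
  have hOm : ∀ σ, MeasurableSet (O σ) := by
    intro σ
    have : O σ = ⋂ x, {ψ : V → ℝ | 0 < sg (σ x) * ψ x} := by
      ext ψ; simp [hO]
    rw [this]
    exact MeasurableSet.iInter fun x =>
      measurableSet_lt measurable_const ((measurable_pi_apply x).const_mul _)
  have hd : Pairwise (Function.onFun Disjoint O) := by
    intro σ τ hne
    rw [Function.onFun, Set.disjoint_left]
    intro ψ h1 h2
    apply hne
    funext x
    have h3 : 0 < sg (σ x) * ψ x := h1 x
    have h4 : 0 < sg (τ x) * ψ x := h2 x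
    rcases hσ : σ x <;> rcases hτ : τ x <;> simp [hσ, hτ, sg] at h3 h4 ⊢ <;> linarith
  have hae : (⋃ σ, O σ) =ᵐ[volume] (Set.univ : Set (V → ℝ)) := by
    rw [Filter.eventuallyEq_univ]
    have h1 : ∀ᵐ ψ : V → ℝ, ∀ x, ψ x ≠ 0 := by
      rw [ae_all_iff]
      intro x
      rw [volume_pi]
      exact Measure.ae_eval_ne (fun _ : V => (volume : Measure ℝ)) x 0
    filter_upwards [h1] with ψ hψ
    rw [Set.mem_iUnion]
    refine ⟨fun x => decide (0 < ψ x), fun x => ?_⟩
    rcases lt_or_gt_of_ne (hψ x) with h | h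
    · have : ¬ 0 < ψ x := not_lt.2 h.le
      simp [sg, this, h]
    · simp [sg, h]
  rw [← setLIntegral_univ, ← setLIntegral_congr hae, lintegral_iUnion hOm hd, tsum_fintype]
  apply Finset.sum_congr rfl
  intro σ _
  have hmp : MeasurePreserving (fun (r : V → ℝ) x => sg (σ x) * r x) :=
    volume_preserving_pi fun x => sg_mp (σ x)
  rw [← hmp.setLIntegral_comp_preimage (hOm σ) hF]
  have : (fun (r : V → ℝ) x => sg (σ x) * r x) ⁻¹' (O σ) = {r | ∀ x, 0 < r x} := by
    ext r
    simp only [hO, Set.mem_preimage, Set.mem_ofPred_eq, ← mul_assoc, sg_mul_self, one_mul]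
  rw [this]

theorem lint_fin {n : ℕ} {μ : Fin n → Measure ℝ} [∀ i, SigmaFinite (μ i)]
    (f : Fin n → ℝ → ℝ≥0∞) (hf : ∀ i, Measurable (f i)) :
    ∫⁻ x : Fin n → ℝ, ∏ i, f i (x i) ∂(Measure.pi μ) = ∏ i, ∫⁻ x, f i x ∂(μ i) := by
  induction n with
  | zero => simp
  | succ n ih =>
    have h1 : ∫⁻ x : Fin (n + 1) → ℝ, ∏ i, f i (x i) ∂(Measure.pi μ) =
        ∫⁻ x : ℝ × (Fin n → ℝ), f 0 x.1 * ∏ i : Fin n, f (Fin.succ i) (x.2 i)
          ∂((μ 0).prod (Measure.pi (fun i ↦ μ i.succ))) := by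
      rw [← ((measurePreserving_piFinSuccAbove μ 0).symm).lintegral_comp_emb
        (MeasurableEquiv.measurableEmbedding _)]
      simp_rw [MeasurableEquiv.piFinSuccAbove_symm_apply, Fin.insertNthEquiv,
            Fin.prod_univ_succ, Fin.insertNth_zero, Equiv.coe_fn_mk, Fin.cons_succ,
            Fin.zero_succAbove, cast_eq, Fin.cons_zero]
    rw [h1, Fin.prod_univ_succ, ← ih (fun i => f i.succ) (fun i => hf i.succ), ← lintegral_prod_mul]
    · exact (hf 0).aemeasurable
    · apply Measurable.aemeasurable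
      exact Finset.measurable_fun_prod _ fun i _ => (hf i.succ).comp (measurable_pi_apply i)

theorem lint_fintype {V : Type} [Fintype V] [DecidableEq V] {μ : V → Measure ℝ}
    [∀ i, SigmaFinite (μ i)]
    (f : V → ℝ → ℝ≥0∞) (hf : ∀ i, Measurable (f i)) :
    ∫⁻ x : V → ℝ, ∏ i, f i (x i) ∂(Measure.pi μ) = ∏ i, ∫⁻ x, f i x ∂(μ i) := by
  let e := (Fintype.equivFin V).symm
  rw [← (measurePreserving_piCongrLeft _ e).lintegral_comp_emb
        (MeasurableEquiv.measurableEmbedding _)]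
  simp_rw [← e.prod_comp, MeasurableEquiv.coe_piCongrLeft, Equiv.piCongrLeft_apply_apply]
  exact lint_fin (fun i => f (e i)) (fun i => hf (e i))

/-- integral of a product of radial densities -/
theorem lintegral_prod_rad {V : Type} [Fintype V] [DecidableEq V] (d : V → ℕ) (z : V) (S : Set ℝ)
    (hS : MeasurableSet S) :
    ∫⁻ r : V → ℝ in {r | (∀ x, 0 < r x) ∧ r z ∈ S}, ∏ x, ENNReal.ofReal (rad (d x) (r x))
      = (∫⁻ r in Set.Ioi (0 : ℝ) ∩ S, ENNReal.ofReal (rad (d z) r))
          * ∏ x ∈ Finset.univ.erase z, Ga (d x) := by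
  have hset : {r : V → ℝ | (∀ x, 0 < r x) ∧ r z ∈ S} =
      Set.univ.pi fun x => if x = z then Set.Ioi (0 : ℝ) ∩ S else Set.Ioi 0 := by
    ext r
    simp only [Set.mem_ofPred_eq, Set.mem_pi, Set.mem_univ, forall_true_left]
    constructor
    · rintro ⟨h1, h2⟩ x
      split_ifs with h
      · subst h; exact ⟨h1 x, h2⟩
      · exact h1 x
    · intro h
      refine ⟨fun x => ?_, ?_⟩
      · have := h x
        split_ifs at this with h'
        · exact this.1
        · exact this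
      · have := h z
        rw [if_pos rfl] at this
        exact this.2
  rw [hset, volume_pi, Measure.restrict_pi_pi,
    lint_fintype (fun x r => ENNReal.ofReal (rad (d x) r))
      (fun x => (rad_cont (d x)).measurable.ennreal_ofReal),
    ← Finset.mul_prod_erase Finset.univ _ (Finset.mem_univ z), if_pos rfl]
  congr 1
  apply Finset.prod_congr rfl
  intro x hx
  rw [if_neg (Finset.ne_of_mem_erase hx)]
  rfl

/-- integral of a product of radial densities, no constraint -/
theorem lintegral_prod_rad_univ {V : Type} [Fintype V] [DecidableEq V] (d : V → ℕ) :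
    ∫⁻ r : V → ℝ in {r | ∀ x, 0 < r x}, ∏ x, ENNReal.ofReal (rad (d x) (r x))
      = ∏ x, Ga (d x) := by
  have hset : {r : V → ℝ | ∀ x, 0 < r x} = Set.univ.pi fun _ => Set.Ioi (0 : ℝ) := by
    ext r
    simp only [Set.mem_ofPred_eq, Set.mem_pi, Set.mem_univ, forall_true_left, Set.mem_Ioi]
  rw [hset, volume_pi, Measure.restrict_pi_pi,
    lint_fintype (fun x r => ENNReal.ofReal (rad (d x) r))
      (fun x => (rad_cont (d x)).measurable.ennreal_ofReal)]
  rfl

end Pool.Agent.Helper41.GF
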