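import Pool.Agent.Helper41.GF.Defs

set_option autoImplicit false

open scoped ENNReal Nat
open Finset

namespace Pool.Agent.Helper41.GF

variable {V E : Type} [Fintype V] [DecidableEq V] [Fintype E] [DecidableEq E]

theorem hs_fin (m : ℕ) : ∀ (f : Fin m → ℕ → ℝ), (∀ i, Summable (fun k => ‖f i k‖)) →
    Summable (fun n : Fin m → ℕ => ‖∏ i, f i (n i)‖) ∧
      HasSum (fun n : Fin m → ℕ => ∏ i, f i (n i)) (∏ i, ∑' k, f i k) := by
  induction m with
  | zero =>
    intro f _
    refine ⟨(hasSum_fintype _).summable, ?_⟩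
    have h := hasSum_fintype (fun n : Fin 0 → ℕ => ∏ i, f i (n i))
    convert h using 1
    simp
  | succ m ih =>
    intro f hf
    obtain ⟨h1, h2⟩ := ih (fun i => f i.succ) (fun i => hf i.succ)
    have hs := summable_mul_of_summable_norm (hf 0) h1
    have hn := (hf 0).mul_norm h1
    have hm := HasSum.mul (hf 0).of_norm.hasSum h2 hs
    let e : (ℕ × (Fin m → ℕ)) ≃ (Fin (m+1) → ℕ) := Fin.consEquiv (fun _ => ℕ)
    constructor
    · rw [← e.summable_iff]
      refine hn.congr ?_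
      intro p
      simp [e, Fin.prod_univ_succ, Fin.consEquiv]
    · rw [← e.hasSum_iff]
      rw [Fin.prod_univ_succ]
      have he : ((fun n : Fin (m+1) → ℕ => ∏ i, f i (n i)) ∘ e)
          = (fun x : ℕ × (Fin m → ℕ) => f 0 x.1 * ∏ i, f i.succ (x.2 i)) := by
        funext p
        simp [e, Fin.prod_univ_succ, Fin.consEquiv]
      rw [he]
      exact hm

theorem hs_pi {E : Type} [Fintype E] (f : E → ℕ → ℝ) (hf : ∀ i, Summable (fun k => ‖f i k‖)) :
    HasSum (fun n : E → ℕ => ∏ i, f i (n i)) (∏ i, ∑' k, f i k) := by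
  classical
  let e := Fintype.equivFin E
  have h := (hs_fin (Fintype.card E) (fun i => f (e.symm i)) (fun i => hf _)).2
  let e2 : (E → ℕ) ≃ (Fin (Fintype.card E) → ℕ) := Equiv.arrowCongr e (Equiv.refl ℕ)
  rw [← e2.hasSum_iff] at h
  have h3 : (∏ i, ∑' k, f (e.symm i) k) = ∏ i, ∑' k, f i k :=
    Equiv.prod_comp e.symm (fun i => ∑' k, f i k)
  rw [h3] at h
  convert h using 1
  funext n
  simp only [Function.comp]
  rw [← Equiv.prod_comp e.symm (fun i => f i (n i))]
  refine Finset.prod_congr rfl fun i _ => ?_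
  simp [e2, Equiv.arrowCongr]

theorem prod_add_univ {E : Type} [Fintype E] [DecidableEq E] (a b : E → ℝ) :
    ∑ ω : Finset E, (∏ e ∈ ω, a e) * (∏ e ∈ ωᶜ, b e) = ∏ e, (a e + b e) := by
  rw [Finset.prod_add, Finset.powerset_univ]
  refine Finset.sum_congr rfl fun ω _ => ?_
  rw [Finset.compl_eq_univ_sdiff]

theorem sum_superset {E : Type} [Fintype E] [DecidableEq E] (a b : E → ℝ) (A : Finset E) :
    ∑ ω : Finset E, (if A ⊆ ω then (∏ e ∈ ω, a e) * (∏ e ∈ ωᶜ, b e) else 0)
      = ∏ e, (if e ∈ A then a e else a e + b e) := by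
  have h := prod_add_univ a (fun e => if e ∈ A then 0 else b e)
  have h2 : ∏ e, (if e ∈ A then a e else a e + b e)
      = ∏ e, (a e + (if e ∈ A then 0 else b e)) := by
    refine Finset.prod_congr rfl fun e _ => ?_
    split_ifs <;> simp
  rw [h2, ← h]
  refine Finset.sum_congr rfl fun ω _ => ?_
  split_ifs with hA
  · congr 1
    refine Finset.prod_congr rfl fun e he => ?_
    have : e ∉ A := fun h => (Finset.mem_compl.1 he) (hA h)
    simp [this]
  · rw [Finset.not_subset] at hA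
    obtain ⟨e, he, he2⟩ := hA
    symm
    rw [mul_eq_zero]
    right
    exact Finset.prod_eq_zero (Finset.mem_compl.2 he2) (by simp [he])

theorem sg_cases (b : Bool) : sg b = 1 ∨ sg b = -1 := by
  cases b <;> simp [sg]

theorem sgE_cases (inc : E → Finset V) (σ : V → Bool) (e : E) :
    sgE inc σ e = 1 ∨ sgE inc σ e = -1 := by
  unfold sgE
  refine Finset.prod_induction _ (fun x : ℝ => x = 1 ∨ x = -1) ?_ (Or.inl rfl) ?_
  · rintro a b (ha | ha) (hb | hb) <;> simp [ha, hb]
  · intro x _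
    exact sg_cases _

theorem parity (inc : E → Finset V) (n : E → ℕ) :
    (if ∀ x, Even (deg inc n x) then (1:ℝ) else 0)
      = (1/2)^(Fintype.card V) * ∑ τ : V → Bool, ∏ e, (sgE inc τ e) ^ (n e) := by
  have h1 : ∀ τ : V → Bool, ∏ e, (sgE inc τ e)^(n e) = ∏ x, (sg (τ x))^(deg inc n x) := by
    intro τ
    unfold sgE deg
    simp_rw [← Finset.prod_pow_eq_pow_sum]
    rw [Finset.prod_comm]
    refine Finset.prod_congr rfl fun e _ => ?_
    rw [← Finset.prod_pow]
    rw [← Fintype.prod_ite_mem (inc e) (fun x => sg (τ x) ^ n e)]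
    refine Finset.prod_congr rfl fun x _ => ?_
    split_ifs <;> simp
  simp_rw [h1]
  have h2 : ∑ τ : V → Bool, ∏ x, (sg (τ x))^(deg inc n x)
      = ∏ x, ∑ b : Bool, sg b ^ deg inc n x := (Fintype.prod_sum (fun x (b : Bool) => sg b ^ deg inc n x)).symm
  rw [h2, ← Finset.card_univ, ← Finset.prod_const, ← Finset.prod_mul_distrib]
  have h3 : ∀ x, (1/2:ℝ) * ∑ b : Bool, sg b ^ deg inc n x
      = if Even (deg inc n x) then 1 else 0 := by
    intro x
    rw [Fintype.sum_bool]
    simp only [sg]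
    rcases Nat.even_or_odd (deg inc n x) with h | h
    · simp [h, h.neg_one_pow]
      norm_num
    · simp [h.neg_one_pow, Nat.not_even_iff_odd.2 h]
  simp_rw [h3]
  rw [Fintype.prod_ite_zero]
  simp

/-- weight term for a fixed open set, with currents vanishing on `Z` -/
noncomputable def tm (inc : E → Finset V) (J : E → ℝ) (ω Z : Finset E) (n : E → ℕ) : ℝ :=
  if (∀ x, Even (deg inc n x)) ∧ (∀ e, n e ≠ 0 → e ∈ ω) ∧ (∀ e ∈ Z, n e = 0) then
    (∏ e, J e ^ n e / ((n e)! : ℝ)) *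
      (∏ e ∈ ω, if n e = 0 then 1 - Real.exp (-J e) else 1) else 0

/-- edge factor -/
noncomputable def gf (inc : E → Finset V) (J : E → ℝ) (ω Z : Finset E) (τ : V → Bool) (e : E)
    (k : ℕ) : ℝ :=
  if e ∈ ω then (if k = 0 then 1 - Real.exp (-J e) else
    if e ∈ Z then 0 else (J e * sgE inc τ e)^k / (k ! : ℝ)) else (if k = 0 then 1 else 0)

theorem tm_eq (inc : E → Finset V) (J : E → ℝ) (ω Z : Finset E) (n : E → ℕ) :
    tm inc J ω Z n = (1/2)^(Fintype.card V) * ∑ τ, ∏ e, gf inc J ω Z τ e (n e) := by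
  unfold tm
  by_cases h : (∀ e, n e ≠ 0 → e ∈ ω) ∧ (∀ e ∈ Z, n e = 0)
  · have h1 : ∀ τ, ∏ e, gf inc J ω Z τ e (n e) = (∏ e, (sgE inc τ e) ^ (n e)) *
        ((∏ e, J e ^ n e / ((n e)! : ℝ)) *
          (∏ e ∈ ω, if n e = 0 then 1 - Real.exp (-J e) else 1)) := by
      intro τ
      rw [← Fintype.prod_ite_mem ω (fun e => if n e = 0 then 1 - Real.exp (-J e) else 1),
        ← Finset.prod_mul_distrib, ← Finset.prod_mul_distrib]
      refine Finset.prod_congr rfl fun e _ => ?_
      unfold gf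
      by_cases he : n e = 0
      · by_cases hω : e ∈ ω <;> simp [he, hω]
      · have hω := h.1 e he
        have hZ : e ∉ Z := fun hZ => he (h.2 e hZ)
        simp only [hω, he, hZ, if_true, if_false]
        rw [mul_pow]
        ring
    simp_rw [h1]
    rw [← Finset.sum_mul, ← mul_assoc, ← parity]
    by_cases h2 : ∀ x, Even (deg inc n x)
    · rw [if_pos ⟨h2, h⟩, if_pos h2, one_mul]
    · rw [if_neg (fun h3 => h2 h3.1), if_neg h2, zero_mul]
  · rw [if_neg (fun h3 => h h3.2)]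
    have h1 : ∀ τ, ∏ e, gf inc J ω Z τ e (n e) = 0 := by
      intro τ
      rw [not_and_or] at h
      rcases h with h | h
      · push Not at h
        obtain ⟨e, he, he2⟩ := h
        exact Finset.prod_eq_zero (Finset.mem_univ e) (by simp [gf, he, he2])
      · push Not at h
        obtain ⟨e, he, he2⟩ := h
        exact Finset.prod_eq_zero (Finset.mem_univ e) (by simp [gf, he, he2])
    simp_rw [h1]
    simp

theorem gf_hasSum (inc : E → Finset V) (J : E → ℝ) (ω Z : Finset E) (τ : V → Bool) (e : E) :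
    HasSum (fun k => gf inc J ω Z τ e k)
      (if e ∈ ω then (if e ∈ Z then 1 - Real.exp (-J e) else
        Real.exp (J e * sgE inc τ e) - Real.exp (-J e)) else 1) := by
  unfold gf
  by_cases hω : e ∈ ω
  · by_cases hZ : e ∈ Z
    · simp only [hω, hZ, if_true]
      exact hasSum_ite_eq 0 (1 - Real.exp (-J e))
    · simp only [hω, hZ, if_true, if_false]
      have h1 := NormedSpace.expSeries_div_hasSum_exp (J e * sgE inc τ e)
      rw [← Real.exp_eq_exp_ℝ] at h1
      have h2 := h1.add (hasSum_ite_eq 0 (-Real.exp (-J e)))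
      rw [← sub_eq_add_neg] at h2
      have h5 : (fun k : ℕ => if k = 0 then 1 - Real.exp (-J e) else
          (J e * sgE inc τ e) ^ k / (k ! : ℝ)) = (fun b : ℕ => (J e * sgE inc τ e) ^ b / (b ! : ℝ)
            + if b = 0 then -Real.exp (-J e) else 0) := by
        funext k
        by_cases hk : k = 0
        · simp [hk, sub_eq_add_neg]
        · simp [hk]
      rw [h5]
      exact h2
  · simp only [hω, if_false]
    exact hasSum_ite_eq 0 1

theorem tm_hasSum0 (inc : E → Finset V) (J : E → ℝ) (ω Z : Finset E) :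
    HasSum (tm inc J ω Z) ((1/2)^(Fintype.card V) * ∑ τ : V → Bool, ∏ e,
      (if e ∈ ω then (if e ∈ Z then 1 - Real.exp (-J e) else
        Real.exp (J e * sgE inc τ e) - Real.exp (-J e)) else 1)) := by
  have h1 : ∀ τ : V → Bool, HasSum (fun n : E → ℕ => ∏ e, gf inc J ω Z τ e (n e)) (∏ e,
      (if e ∈ ω then (if e ∈ Z then 1 - Real.exp (-J e) else
        Real.exp (J e * sgE inc τ e) - Real.exp (-J e)) else 1)) := by
    intro τ
    have h := hs_pi (gf inc J ω Z τ) (fun e => (gf_hasSum inc J ω Z τ e).summable.norm)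
    have h2 : ∏ e, ∑' k, gf inc J ω Z τ e k = ∏ e,
      (if e ∈ ω then (if e ∈ Z then 1 - Real.exp (-J e) else
        Real.exp (J e * sgE inc τ e) - Real.exp (-J e)) else 1) :=
      Finset.prod_congr rfl fun e _ => (gf_hasSum inc J ω Z τ e).tsum_eq
    rw [h2] at h
    exact h
  have h3 := (hasSum_sum (s := Finset.univ) (fun τ _ => h1 τ)).mul_left ((1/2:ℝ)^(Fintype.card V))
  have h5 : tm inc J ω Z = fun n => (1/2:ℝ)^(Fintype.card V) *
      ∑ τ, ∏ e, gf inc J ω Z τ e (n e) := by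
    funext n
    exact tm_eq inc J ω Z n
  rw [h5]
  exact h3

theorem sum_tau (inc : E → Finset V) (J : E → ℝ) (ω : Finset E) :
    ∑ τ : V → Bool, ∏ e ∈ ω, (Real.exp (J e * sgE inc τ e) - Real.exp (-J e))
      = cnt inc ω * ∏ e ∈ ω, (Real.exp (J e) - Real.exp (-J e)) := by
  classical
  have h1 : ∀ τ : V → Bool, ∏ e ∈ ω, (Real.exp (J e * sgE inc τ e) - Real.exp (-J e))
      = if Compat inc ω τ then ∏ e ∈ ω, (Real.exp (J e) - Real.exp (-J e)) else 0 := by
    intro τ
    split_ifs with h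
    · refine Finset.prod_congr rfl fun e he => ?_
      rw [h e he, mul_one]
    · unfold Compat at h
      push Not at h
      obtain ⟨e, he, he2⟩ := h
      have h3 := (sgE_cases inc τ e).resolve_left he2
      refine Finset.prod_eq_zero he ?_
      rw [h3]
      simp
  simp_rw [h1]
  rw [← Finset.sum_filter, Finset.sum_const, nsmul_eq_mul]
  unfold cnt
  congr! 2

theorem tm_hasSum (inc : E → Finset V) (J : E → ℝ) (ω Z : Finset E) :
    HasSum (tm inc J ω Z) ((1/2)^(Fintype.card V) * (cnt inc (ω \ Z) *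
      ((∏ e ∈ ω ∩ Z, 1 / (1 + Real.exp (J e))) *
        ∏ e ∈ ω, (Real.exp (J e) - Real.exp (-J e))))) := by
  have h := tm_hasSum0 inc J ω Z
  convert h using 2
  have h1 : ∀ τ : V → Bool, ∏ e, (if e ∈ ω then (if e ∈ Z then 1 - Real.exp (-J e) else
        Real.exp (J e * sgE inc τ e) - Real.exp (-J e)) else 1)
      = (∏ e ∈ ω ∩ Z, (1 - Real.exp (-J e))) *
        ∏ e ∈ ω \ Z, (Real.exp (J e * sgE inc τ e) - Real.exp (-J e)) := by
    intro τ
    rw [Fintype.prod_ite_mem, ← Finset.prod_inter_mul_prod_sdiff ω Z]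
    congr 1
    · refine Finset.prod_congr rfl fun e he => ?_
      rw [if_pos (Finset.mem_inter.1 he).2]
    · refine Finset.prod_congr rfl fun e he => ?_
      rw [if_neg (Finset.mem_sdiff.1 he).2]
  simp_rw [h1]
  rw [← Finset.mul_sum, sum_tau, ← Finset.prod_inter_mul_prod_sdiff ω Z
    (fun e => Real.exp (J e) - Real.exp (-J e))]
  have h2 : ∏ e ∈ ω ∩ Z, (1 - Real.exp (-J e)) = (∏ e ∈ ω ∩ Z, 1 / (1 + Real.exp (J e))) *
      ∏ e ∈ ω ∩ Z, (Real.exp (J e) - Real.exp (-J e)) := by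
    rw [← Finset.prod_mul_distrib]
    refine Finset.prod_congr rfl fun e _ => ?_
    have h3 : (1 + Real.exp (J e)) ≠ 0 := by positivity
    have h4 : Real.exp (J e) * Real.exp (-J e) = 1 := by
      rw [← Real.exp_add]; simp
    field_simp
    linear_combination (-1:ℝ) * h4
  rw [h2]
  ring

theorem D_nonneg {J : E → ℝ} (hJ : ∀ e, 0 ≤ J e) (e : E) :
    0 ≤ Real.exp (J e) - Real.exp (-J e) := by
  have : Real.exp (-J e) ≤ Real.exp (J e) := Real.exp_le_exp.2 (by have := hJ e; linarith)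
  linarith

theorem one_sub_nonneg {J : E → ℝ} (hJ : ∀ e, 0 ≤ J e) (e : E) :
    0 ≤ 1 - Real.exp (-J e) := by
  have : Real.exp (-J e) ≤ 1 := Real.exp_le_one_iff.2 (by have := hJ e; linarith)
  linarith

open Classical in
/-- coefficient of an open set -/
noncomputable def cc (inc : E → Finset V) (J : E → ℝ) (σ : V → Bool) (ω : Finset E) : ℝ :=
  if Compat inc ω σ then (∏ e ∈ ωᶜ, Real.exp (-J e)) / (cnt inc ω : ℝ) else 0

theorem cc_nonneg (inc : E → Finset V) (J : E → ℝ) (σ : V → Bool) (ω : Finset E) :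
    0 ≤ cc inc J σ ω := by
  unfold cc
  split_ifs
  · exact div_nonneg (Finset.prod_nonneg fun e _ => (Real.exp_pos _).le) (Nat.cast_nonneg _)
  · exact le_rfl

theorem cw_qq (inc : E → Finset V) (J : E → ℝ) (σ : V → Bool) (n : E → ℕ) :
    cw inc J n * qq inc J n σ = ∑ ω, cc inc J σ ω * tm inc J ω ∅ n := by
  unfold cw qq
  rw [Finset.mul_sum]
  refine Finset.sum_congr rfl fun ω _ => ?_
  unfold cc tm
  by_cases h1 : ∀ x, Even (deg inc n x)
  · by_cases h2 : ∀ e, n e ≠ 0 → e ∈ ω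
    · by_cases h3 : Compat inc ω σ
      · rw [if_pos h1, if_pos ⟨h2, h3⟩, if_pos h3, if_pos ⟨h1, h2, by simp⟩]
        ring
      · rw [if_pos h1, if_neg (fun h => h3 h.2), if_neg h3]
        ring
    · have e1 : ¬ ((∀ e, n e ≠ 0 → e ∈ ω) ∧ Compat inc ω σ) := fun h => h2 h.1
      have e2 : ¬ ((∀ x, Even (deg inc n x)) ∧ (∀ e, n e ≠ 0 → e ∈ ω) ∧
        (∀ e ∈ (∅ : Finset E), n e = 0)) := fun h => h2 h.2.1
      rw [if_neg e1, if_neg e2, mul_zero, mul_zero]
  · have e2 : ¬ ((∀ x, Even (deg inc n x)) ∧ (∀ e, n e ≠ 0 → e ∈ ω) ∧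
        (∀ e ∈ (∅ : Finset E), n e = 0)) := fun h => h1 h.1
    rw [if_neg h1, if_neg e2, mul_zero, zero_mul]

theorem deg_zero_iff (inc : E → Finset V) (n : E → ℕ) (z : V) :
    deg inc n z = 0 ↔ ∀ e ∈ Finset.univ.filter (fun e => z ∈ inc e), n e = 0 := by
  unfold deg
  rw [Finset.sum_eq_zero_iff]
  constructor
  · intro h e he
    have := h e (Finset.mem_univ e)
    rw [if_pos (Finset.mem_filter.1 he).2] at this
    exact this
  · intro h e _
    split_ifs with hz
    · exact h e (Finset.mem_filter.2 ⟨Finset.mem_univ e, hz⟩)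
    · rfl

theorem cw_qq_z (inc : E → Finset V) (J : E → ℝ) (σ : V → Bool) (n : E → ℕ) (z : V) :
    (if deg inc n z ≠ 0 then cw inc J n * qq inc J n σ else 0)
      = ∑ ω, cc inc J σ ω *
        (tm inc J ω ∅ n - tm inc J ω (Finset.univ.filter (fun e => z ∈ inc e)) n) := by
  by_cases h : deg inc n z = 0
  · rw [if_neg (not_not.2 h)]
    symm
    refine Finset.sum_eq_zero fun ω _ => ?_
    rw [deg_zero_iff] at h
    have : tm inc J ω ∅ n = tm inc J ω (Finset.univ.filter (fun e => z ∈ inc e)) n := by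
      unfold tm
      congr 1
      simp only [eq_iff_iff]
      constructor
      · rintro ⟨a, b, -⟩; exact ⟨a, b, h⟩
      · rintro ⟨a, b, -⟩; exact ⟨a, b, by simp⟩
    rw [this, sub_self, mul_zero]
  · rw [if_pos h, cw_qq]
    refine Finset.sum_congr rfl fun ω _ => ?_
    rw [deg_zero_iff] at h
    have : tm inc J ω (Finset.univ.filter (fun e => z ∈ inc e)) n = 0 := by
      unfold tm
      rw [if_neg (fun h2 => h h2.2.2)]
    rw [this, sub_zero]

/-- open weight -/
noncomputable def aa (inc : E → Finset V) (J : E → ℝ) (σ : V → Bool) (e : E) : ℝ :=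
  if sgE inc σ e = 1 then Real.exp (J e) - Real.exp (-J e) else 0

theorem aa_add (inc : E → Finset V) (J : E → ℝ) (σ : V → Bool) (e : E) :
    aa inc J σ e + Real.exp (-J e) = Real.exp (J e * sgE inc σ e) := by
  unfold aa
  rcases sgE_cases inc σ e with h | h
  · rw [if_pos h, h]; simp
  · rw [h, if_neg (by norm_num)]; simp

theorem aa_nonneg (inc : E → Finset V) {J : E → ℝ} (hJ : ∀ e, 0 ≤ J e) (σ : V → Bool) (e : E) :
    0 ≤ aa inc J σ e := by
  unfold aa
  split_ifs
  · exact D_nonneg hJ e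
  · exact le_rfl

theorem aa_le (inc : E → Finset V) {J : E → ℝ} (hJ : ∀ e, 0 ≤ J e) (σ : V → Bool) (e : E) :
    aa inc J σ e ≤ 2 * J e * Real.exp (J e * sgE inc σ e) := by
  unfold aa
  split_ifs with h
  · rw [h, mul_one]
    have h1 : Real.exp (-J e) = Real.exp (J e) * Real.exp (-(2 * J e)) := by
      rw [← Real.exp_add]; congr 1; ring
    have h2 : 1 - 2 * J e ≤ Real.exp (-(2 * J e)) := by
      have := Real.add_one_le_exp (-(2 * J e)); linarith
    have h3 : Real.exp (J e) * (1 - 2 * J e) ≤ Real.exp (J e) * Real.exp (-(2 * J e)) :=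
      mul_le_mul_of_nonneg_left h2 (Real.exp_pos _).le
    rw [h1]
    linarith
  · have := hJ e
    positivity

theorem cnt_pos (inc : E → Finset V) (ω : Finset E) (σ : V → Bool) (h : Compat inc ω σ) :
    0 < cnt inc ω := by
  unfold cnt
  exact Finset.card_pos.2 ⟨σ, by simp [h]⟩

theorem cc_mul (inc : E → Finset V) (J : E → ℝ) (σ : V → Bool) (ω : Finset E) :
    cc inc J σ ω * (cnt inc ω * ∏ e ∈ ω, (Real.exp (J e) - Real.exp (-J e)))
      = (∏ e ∈ ω, aa inc J σ e) * ∏ e ∈ ωᶜ, Real.exp (-J e) := by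
  unfold cc
  split_ifs with h
  · have h1 : (cnt inc ω : ℝ) ≠ 0 := by
      have := cnt_pos inc ω σ h
      positivity
    have h2 : ∏ e ∈ ω, aa inc J σ e = ∏ e ∈ ω, (Real.exp (J e) - Real.exp (-J e)) := by
      refine Finset.prod_congr rfl fun e he => ?_
      unfold aa
      rw [if_pos (h e he)]
    rw [h2]
    field_simp
  · unfold Compat at h
    push Not at h
    obtain ⟨e, he, he2⟩ := h
    have : ∏ e ∈ ω, aa inc J σ e = 0 :=
      Finset.prod_eq_zero he (by unfold aa; rw [if_neg he2])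
    rw [this]
    ring

theorem qq_nonneg (inc : E → Finset V) (J : E → ℝ) (hJ : ∀ e, 0 ≤ J e) (n : E → ℕ)
    (σ : V → Bool) : 0 ≤ qq inc J n σ := by
  unfold qq
  refine Finset.sum_nonneg fun ω _ => ?_
  split_ifs
  · refine div_nonneg (mul_nonneg (Finset.prod_nonneg fun e _ => ?_)
      (Finset.prod_nonneg fun e _ => (Real.exp_pos _).le)) (Nat.cast_nonneg _)
    split_ifs
    · exact one_sub_nonneg hJ e
    · exact zero_le_one
  · exact le_rfl

theorem qq_sum (inc : E → Finset V) (J : E → ℝ) (n : E → ℕ) :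
    ∑ σ, qq inc J n σ = 1 := by
  classical
  unfold qq
  rw [Finset.sum_comm]
  have h1 : ∀ ω : Finset E, (∑ σ : V → Bool, if (∀ e, n e ≠ 0 → e ∈ ω) ∧ Compat inc ω σ then
      (∏ e ∈ ω, if n e = 0 then 1 - Real.exp (-J e) else 1) * (∏ e ∈ ωᶜ, Real.exp (-J e))
      / (cnt inc ω : ℝ) else 0) = (∏ e ∈ ω, if n e = 0 then 1 - Real.exp (-J e) else 1) *
        (∏ e ∈ ωᶜ, if n e = 0 then Real.exp (-J e) else 0) := by
    intro ω
    by_cases h : ∀ e, n e ≠ 0 → e ∈ ω
    · have h2 : ∀ σ : V → Bool, (if (∀ e, n e ≠ 0 → e ∈ ω) ∧ Compat inc ω σ then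
        (∏ e ∈ ω, if n e = 0 then 1 - Real.exp (-J e) else 1) * (∏ e ∈ ωᶜ, Real.exp (-J e))
        / (cnt inc ω : ℝ) else 0) = (if Compat inc ω σ then
        (∏ e ∈ ω, if n e = 0 then 1 - Real.exp (-J e) else 1) * (∏ e ∈ ωᶜ, Real.exp (-J e))
        / (cnt inc ω : ℝ) else 0) := by
        intro σ
        by_cases h3 : Compat inc ω σ
        · rw [if_pos ⟨h, h3⟩, if_pos h3]
        · rw [if_neg (fun h4 => h3 h4.2), if_neg h3]
      simp_rw [h2]
      rw [← Finset.sum_filter, Finset.sum_const, nsmul_eq_mul]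
      have h4 : ((Finset.univ.filter (fun σ : V → Bool => Compat inc ω σ)).card : ℝ)
          = (cnt inc ω : ℝ) := by
        unfold cnt
        congr! 2
      rw [h4]
      have h5 : (cnt inc ω : ℝ) ≠ 0 := by
        have := cnt_pos inc ω (fun _ => true) (by intro e _; simp [sgE, sg])
        positivity
      have h6 : ∏ e ∈ ωᶜ, (if n e = 0 then Real.exp (-J e) else 0) = ∏ e ∈ ωᶜ, Real.exp (-J e) := by
        refine Finset.prod_congr rfl fun e he => ?_
        have : n e = 0 := by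
          by_contra hn
          exact (Finset.mem_compl.1 he) (h e hn)
        rw [if_pos this]
      rw [h6]
      field_simp
    · have h2 : ∀ σ : V → Bool, (if (∀ e, n e ≠ 0 → e ∈ ω) ∧ Compat inc ω σ then
        (∏ e ∈ ω, if n e = 0 then 1 - Real.exp (-J e) else 1) * (∏ e ∈ ωᶜ, Real.exp (-J e))
        / (cnt inc ω : ℝ) else 0) = 0 := by
        intro σ
        rw [if_neg (fun h4 => h h4.1)]
      simp_rw [h2]
      push Not at h
      obtain ⟨e, he, he2⟩ := h
      have : ∏ e ∈ ωᶜ, (if n e = 0 then Real.exp (-J e) else 0) = 0 :=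
        Finset.prod_eq_zero (Finset.mem_compl.2 he2) (by rw [if_neg he])
      rw [this]
      simp
  simp_rw [h1]
  rw [prod_add_univ]
  refine Finset.prod_eq_one fun e _ => ?_
  split_ifs <;> ring

theorem qq_supp (inc : E → Finset V) (J : E → ℝ) (n : E → ℕ) (σ : V → Bool)
    (h : qq inc J n σ ≠ 0) (e : E) (he : n e ≠ 0) : sgE inc σ e = 1 := by
  unfold qq at h
  obtain ⟨ω, _, hω⟩ := Finset.exists_ne_zero_of_sum_ne_zero h
  by_cases h1 : (∀ e, n e ≠ 0 → e ∈ ω) ∧ Compat inc ω σ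
  · exact h1.2 e (h1.1 e he)
  · rw [if_neg h1] at hω
    exact absurd rfl hω

theorem cw_nonneg (inc : E → Finset V) {J : E → ℝ} (hJ : ∀ e, 0 ≤ J e) (n : E → ℕ) :
    0 ≤ cw inc J n := by
  unfold cw
  split_ifs
  · refine Finset.prod_nonneg fun e _ => ?_
    have := hJ e
    positivity
  · exact le_rfl

theorem prod_aa (inc : E → Finset V) (J : E → ℝ) (σ : V → Bool) :
    ∏ e, (aa inc J σ e + Real.exp (-J e)) = Real.exp (∑ e, J e * sgE inc σ e) := by
  rw [Real.exp_sum]
  exact Finset.prod_congr rfl fun e _ => aa_add inc J σ e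

theorem qq_marginal (inc : E → Finset V) (J : E → ℝ) (hJ : ∀ e, 0 ≤ J e) (σ : V → Bool) :
    ∑' n : E → ℕ, ENNReal.ofReal (cw inc J n * qq inc J n σ)
      = ENNReal.ofReal ((1 / 2) ^ (Fintype.card V) * Real.exp (∑ e, J e * sgE inc σ e)) := by
  have h1 : HasSum (fun n : E → ℕ => cw inc J n * qq inc J n σ)
      ((1 / 2) ^ (Fintype.card V) * Real.exp (∑ e, J e * sgE inc σ e)) := by
    have h2 := hasSum_sum (s := (Finset.univ : Finset (Finset E)))
      (fun ω _ => (tm_hasSum inc J ω ∅).mul_left (cc inc J σ ω))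
    have h3 : (fun n : E → ℕ => cw inc J n * qq inc J n σ)
        = fun n => ∑ ω, cc inc J σ ω * tm inc J ω ∅ n := by
      funext n
      exact cw_qq inc J σ n
    rw [h3]
    have h4 : (1 / 2) ^ (Fintype.card V) * Real.exp (∑ e, J e * sgE inc σ e)
        = ∑ ω, cc inc J σ ω * ((1/2)^(Fintype.card V) * (cnt inc (ω \ ∅) *
      ((∏ e ∈ ω ∩ ∅, 1 / (1 + Real.exp (J e))) *
        ∏ e ∈ ω, (Real.exp (J e) - Real.exp (-J e))))) := by
      rw [← prod_aa, ← prod_add_univ, Finset.mul_sum]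
      refine Finset.sum_congr rfl fun ω _ => ?_
      rw [← cc_mul]
      simp only [Finset.sdiff_empty, Finset.inter_empty, Finset.prod_empty]
      ring
    rw [h4]
    exact h2
  rw [← h1.tsum_eq, ENNReal.ofReal_tsum_of_nonneg _ h1.summable]
  intro n
  exact mul_nonneg (cw_nonneg inc hJ n) (qq_nonneg inc J hJ n σ)

/-- flip the sign at `z` -/
def flip (z : V) (τ : V → Bool) : V → Bool := Function.update τ z (!τ z)

theorem flip_flip (z : V) (τ : V → Bool) : flip z (flip z τ) = τ := by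
  unfold flip
  funext x
  by_cases h : x = z
  · subst h; simp
  · simp [Function.update_of_ne h]

theorem sgE_flip_not_mem (inc : E → Finset V) (z : V) (τ : V → Bool) (e : E) (h : z ∉ inc e) :
    sgE inc (flip z τ) e = sgE inc τ e := by
  unfold sgE flip
  refine Finset.prod_congr rfl fun x hx => ?_
  have : x ≠ z := fun h2 => h (h2 ▸ hx)
  rw [Function.update_of_ne this]

theorem sgE_flip_mem (inc : E → Finset V) (z : V) (τ : V → Bool) (e : E) (h : z ∈ inc e) :
    sgE inc (flip z τ) e = -sgE inc τ e := by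
  unfold sgE flip
  rw [← Finset.mul_prod_erase _ _ h, ← Finset.mul_prod_erase (inc e) (fun x => sg (τ x)) h]
  have h1 : ∏ x ∈ (inc e).erase z, sg (Function.update τ z (!τ z) x)
      = ∏ x ∈ (inc e).erase z, sg (τ x) := by
    refine Finset.prod_congr rfl fun x hx => ?_
    rw [Function.update_of_ne (Finset.ne_of_mem_erase hx)]
  rw [h1, Function.update_self]
  cases τ z <;> simp [sg]

theorem cnt_two (inc : E → Finset V) (z : V) (ω : Finset E)
    (h : (ω ∩ Finset.univ.filter (fun e => z ∈ inc e)).Nonempty) :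
    2 * cnt inc ω ≤ cnt inc (ω \ Finset.univ.filter (fun e => z ∈ inc e)) := by
  classical
  obtain ⟨e, he⟩ := h
  have heω : e ∈ ω := (Finset.mem_inter.1 he).1
  have hez : z ∈ inc e := (Finset.mem_filter.1 (Finset.mem_inter.1 he).2).2
  obtain ⟨A, hA⟩ : ∃ A, A = Finset.univ.filter (fun σ : V → Bool => Compat inc ω σ) := ⟨_, rfl⟩
  have h1 : cnt inc ω = A.card := by
    rw [hA]; unfold cnt; congr! 2
  have h2 : cnt inc (ω \ Finset.univ.filter (fun e => z ∈ inc e))
      = (Finset.univ.filter (fun σ : V → Bool =>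
        Compat inc (ω \ Finset.univ.filter (fun e => z ∈ inc e)) σ)).card := by
    unfold cnt; congr! 2
  rw [h1, h2]
  have hinj : Function.Injective (flip z : (V → Bool) → (V → Bool)) := by
    intro a b hab
    have := congrArg (flip z) hab
    rwa [flip_flip, flip_flip] at this
  have h3 : (A.image (flip z)).card = A.card := Finset.card_image_of_injective A hinj
  have hdis : Disjoint A (A.image (flip z)) := by
    rw [Finset.disjoint_left]
    intro τ h4 h5
    obtain ⟨τ', h6, h7⟩ := Finset.mem_image.1 h5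
    rw [hA] at h4 h6
    have h8 := (Finset.mem_filter.1 h4).2 e heω
    have h9 := (Finset.mem_filter.1 h6).2 e heω
    rw [← h7, sgE_flip_mem inc z τ' e hez, h9] at h8
    norm_num at h8
  have h4 : A ∪ A.image (flip z) ⊆ (Finset.univ.filter (fun σ : V → Bool =>
        Compat inc (ω \ Finset.univ.filter (fun e => z ∈ inc e)) σ)) := by
    intro τ hτ
    rw [Finset.mem_filter]
    refine ⟨Finset.mem_univ _, ?_⟩
    intro e' he'
    obtain ⟨h5, h6⟩ := Finset.mem_sdiff.1 he'
    have h7 : z ∉ inc e' := fun h => h6 (Finset.mem_filter.2 ⟨Finset.mem_univ _, h⟩)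
    rcases Finset.mem_union.1 hτ with h8 | h8
    · rw [hA] at h8
      exact (Finset.mem_filter.1 h8).2 e' h5
    · obtain ⟨τ', h9, h10⟩ := Finset.mem_image.1 h8
      rw [hA] at h9
      rw [← h10, sgE_flip_not_mem inc z τ' e' h7]
      exact (Finset.mem_filter.1 h9).2 e' h5
  have h5 := Finset.card_le_card h4
  rw [Finset.card_union_of_disjoint hdis, h3] at h5
  omega

/-- the error factor -/
noncomputable def kap (J : E → ℝ) (Z ω : Finset E) : ℝ :=
  (∑ e ∈ Z, (if {e} ⊆ ω then J e / 2 else 0)) +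
    (1 / 2) * ∑ e ∈ Z, ∑ e' ∈ Z, (if e ≠ e' ∧ ({e, e'} : Finset E) ⊆ ω then 1 else 0)

theorem half_bound (x : ℝ) (hx : 0 ≤ x) : 1 - 2 * (1 / (1 + Real.exp x)) ≤ x / 2 := by
  have h1 : 0 ≤ Real.exp x - 1 := by have := Real.one_le_exp hx; linarith
  have h2 := Real.le_log_one_add_of_nonneg h1
  rw [add_sub_cancel, Real.log_exp] at h2
  have h3 : 2 * (Real.exp x - 1) / (Real.exp x - 1 + 2) = 2 * (1 - 2 * (1 / (1 + Real.exp x))) := by
    have h4 : (1 + Real.exp x) ≠ 0 := by positivity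
    have h5 : Real.exp x - 1 + 2 = 1 + Real.exp x := by ring
    rw [h5]
    field_simp
    ring
  rw [h3] at h2
  linarith

theorem kap_bound (inc : E → Finset V) {J : E → ℝ} (hJ : ∀ e, 0 ≤ J e) (z : V) (ω Z : Finset E)
    (hZ : Z = Finset.univ.filter (fun e => z ∈ inc e)) :
    (cnt inc ω : ℝ) - cnt inc (ω \ Z) * ∏ e ∈ ω ∩ Z, 1 / (1 + Real.exp (J e))
      ≤ cnt inc ω * kap J Z ω := by
  have hk1 : 0 ≤ ∑ e ∈ Z, (if {e} ⊆ ω then J e / 2 else 0) := by
    refine Finset.sum_nonneg fun e _ => ?_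
    split_ifs
    · have := hJ e; positivity
    · exact le_rfl
  have hk2 : ∀ e ∈ Z, 0 ≤ ∑ e' ∈ Z, (if e ≠ e' ∧ ({e, e'} : Finset E) ⊆ ω then (1:ℝ) else 0) := by
    intro e _
    refine Finset.sum_nonneg fun e' _ => ?_
    split_ifs <;> norm_num
  have hcn : (0:ℝ) ≤ cnt inc ω := Nat.cast_nonneg _
  by_cases hne : (ω ∩ Z).Nonempty
  · have h2 : (2:ℝ) * cnt inc ω ≤ cnt inc (ω \ Z) := by
      have := cnt_two inc z ω (by rw [← hZ]; exact hne)
      rw [← hZ] at this
      exact_mod_cast this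
    have hpr : 0 ≤ ∏ e ∈ ω ∩ Z, 1 / (1 + Real.exp (J e)) :=
      Finset.prod_nonneg fun e _ => by positivity
    have h3 : (cnt inc ω : ℝ) - cnt inc (ω \ Z) * ∏ e ∈ ω ∩ Z, 1 / (1 + Real.exp (J e))
        ≤ cnt inc ω * (1 - 2 * ∏ e ∈ ω ∩ Z, 1 / (1 + Real.exp (J e))) := by
      have := mul_le_mul_of_nonneg_right h2 hpr
      linarith
    refine h3.trans (mul_le_mul_of_nonneg_left ?_ hcn)
    unfold kap
    by_cases hc : (ω ∩ Z).card = 1
    · obtain ⟨e, he⟩ := Finset.card_eq_one.1 hc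
      have heZ : e ∈ ω ∩ Z := by rw [he]; exact Finset.mem_singleton_self e
      rw [he, Finset.prod_singleton]
      have h4 := half_bound (J e) (hJ e)
      have h5 : J e / 2 ≤ ∑ e ∈ Z, (if {e} ⊆ ω then J e / 2 else 0) := by
        have h6 := Finset.single_le_sum (f := fun e => (if {e} ⊆ ω then J e / 2 else 0))
          (s := Z) (fun e _ => by
            split_ifs
            · have := hJ e; positivity
            · exact le_rfl) (Finset.mem_inter.1 heZ).2
        rw [if_pos (Finset.singleton_subset_iff.2 (Finset.mem_inter.1 heZ).1)] at h6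
        exact h6
      have h7 := Finset.sum_nonneg hk2
      linarith
    · have hc2 : 1 < (ω ∩ Z).card := by
        have := Finset.card_pos.2 hne
        omega
      obtain ⟨e, he, e', he', hee⟩ := Finset.one_lt_card.1 hc2
      have h5 : ∀ e e' : E, e ∈ ω ∩ Z → e' ∈ ω ∩ Z → e ≠ e' →
          (1:ℝ) ≤ ∑ e' ∈ Z, (if e ≠ e' ∧ ({e, e'} : Finset E) ⊆ ω then (1:ℝ) else 0) := by
        intro e e' he he' hee
        have h6 := Finset.single_le_sum
          (f := fun e' => (if e ≠ e' ∧ ({e, e'} : Finset E) ⊆ ω then (1:ℝ) else 0))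
          (s := Z) (fun e _ => by split_ifs <;> norm_num) (Finset.mem_inter.1 he').2
        rw [if_pos ⟨hee, by
          intro x hx
          rcases Finset.mem_insert.1 hx with h | h
          · rw [h]; exact (Finset.mem_inter.1 he).1
          · rw [Finset.mem_singleton.1 h]; exact (Finset.mem_inter.1 he').1⟩] at h6
        exact h6
      have h6 : (2:ℝ) ≤ ∑ e ∈ Z, ∑ e' ∈ Z,
          (if e ≠ e' ∧ ({e, e'} : Finset E) ⊆ ω then (1:ℝ) else 0) := by
        have h7 : ∑ x ∈ ({e, e'} : Finset E), ∑ e' ∈ Z,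
            (if x ≠ e' ∧ ({x, e'} : Finset E) ⊆ ω then (1:ℝ) else 0) ≤ ∑ e ∈ Z, ∑ e' ∈ Z,
            (if e ≠ e' ∧ ({e, e'} : Finset E) ⊆ ω then (1:ℝ) else 0) := by
          refine Finset.sum_le_sum_of_subset_of_nonneg ?_ (fun x hx _ => hk2 x hx)
          intro x hx
          rcases Finset.mem_insert.1 hx with h | h
          · rw [h]; exact (Finset.mem_inter.1 he).2
          · rw [Finset.mem_singleton.1 h]; exact (Finset.mem_inter.1 he').2
        rw [Finset.sum_pair hee] at h7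
        have h8 := h5 e e' he he' hee
        have h9 := h5 e' e he' he (Ne.symm hee)
        linarith
      linarith
  · rw [Finset.not_nonempty_iff_eq_empty] at hne
    have h1 : ω \ Z = ω := by
      rw [Finset.sdiff_eq_self_iff_disjoint, Finset.disjoint_iff_inter_eq_empty]
      exact hne
    rw [hne, h1]
    simp only [Finset.prod_empty, mul_one, sub_self]
    refine mul_nonneg hcn ?_
    unfold kap
    have := Finset.sum_nonneg hk2
    linarith

theorem sup_bound (inc : E → Finset V) {J : E → ℝ} (hJ : ∀ e, 0 ≤ J e) (σ : V → Bool)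
    (A : Finset E) :
    ∑ ω : Finset E, (if A ⊆ ω then (∏ e ∈ ω, aa inc J σ e) * (∏ e ∈ ωᶜ, Real.exp (-J e)) else 0)
      ≤ (∏ e ∈ A, (2 * J e)) * Real.exp (∑ e, J e * sgE inc σ e) := by
  rw [sum_superset, ← prod_aa, ← Fintype.prod_ite_mem A (fun e => 2 * J e),
    ← Finset.prod_mul_distrib]
  refine Finset.prod_le_prod (fun e _ => ?_) (fun e _ => ?_)
  · have := aa_nonneg inc hJ σ e
    split_ifs
    · exact this
    · have := Real.exp_pos (-J e); linarith
  · split_ifs
    · rw [aa_add]; exact aa_le inc hJ σ e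
    · rw [one_mul]

theorem kap_sum (inc : E → Finset V) {J : E → ℝ} (hJ : ∀ e, 0 ≤ J e) (σ : V → Bool)
    (Z : Finset E) :
    ∑ ω : Finset E, ((∏ e ∈ ω, aa inc J σ e) * (∏ e ∈ ωᶜ, Real.exp (-J e))) * kap J Z ω
      ≤ 3 * (∑ e ∈ Z, J e) ^ 2 * Real.exp (∑ e, J e * sgE inc σ e) := by
  obtain ⟨w, hw⟩ : ∃ w : Finset E → ℝ, w = fun ω =>
    (∏ e ∈ ω, aa inc J σ e) * (∏ e ∈ ωᶜ, Real.exp (-J e)) := ⟨_, rfl⟩
  obtain ⟨P, hP⟩ : ∃ P : ℝ, P = Real.exp (∑ e, J e * sgE inc σ e) := ⟨_, rfl⟩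
  have hP0 : 0 ≤ P := by rw [hP]; exact (Real.exp_pos _).le
  have hsup : ∀ A : Finset E, ∑ ω : Finset E, (if A ⊆ ω then w ω else 0)
      ≤ (∏ e ∈ A, (2 * J e)) * P := by
    intro A
    rw [hw, hP]
    exact sup_bound inc hJ σ A
  have hk : ∀ ω, ((∏ e ∈ ω, aa inc J σ e) * (∏ e ∈ ωᶜ, Real.exp (-J e))) * kap J Z ω
      = (∑ e ∈ Z, J e / 2 * (if {e} ⊆ ω then w ω else 0)) +
        ∑ e ∈ Z, ∑ e' ∈ Z, (if e ≠ e' then (1/2) *
          (if ({e, e'} : Finset E) ⊆ ω then w ω else 0) else 0) := by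
    intro ω
    unfold kap
    have hwω : (∏ e ∈ ω, aa inc J σ e) * (∏ e ∈ ωᶜ, Real.exp (-J e)) = w ω := by rw [hw]
    rw [hwω, mul_add, Finset.mul_sum]
    congr 1
    · refine Finset.sum_congr rfl fun e _ => ?_
      split_ifs <;> ring
    · rw [← mul_assoc, Finset.mul_sum]
      refine Finset.sum_congr rfl fun e _ => ?_
      rw [Finset.mul_sum]
      refine Finset.sum_congr rfl fun e' _ => ?_
      by_cases h1 : e ≠ e'
      · by_cases h2 : ({e, e'} : Finset E) ⊆ ω
        · rw [if_pos ⟨h1, h2⟩, if_pos h1, if_pos h2]; ring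
        · rw [if_neg (fun h => h2 h.2), if_pos h1, if_neg h2]; ring
      · rw [if_neg (fun h => h1 h.1), if_neg h1]; ring
  simp_rw [hk]
  rw [Finset.sum_add_distrib]
  have hS1 : ∑ ω : Finset E, ∑ e ∈ Z, J e / 2 * (if {e} ⊆ ω then w ω else 0)
      ≤ ∑ e ∈ Z, J e * J e * P := by
    rw [Finset.sum_comm]
    refine Finset.sum_le_sum fun e _ => ?_
    rw [← Finset.mul_sum]
    have h1 := hsup {e}
    rw [Finset.prod_singleton] at h1
    have h2 := mul_le_mul_of_nonneg_left h1 (show 0 ≤ J e / 2 by have := hJ e; positivity)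
    refine h2.trans (le_of_eq ?_)
    ring
  have hS2 : ∑ ω : Finset E, ∑ e ∈ Z, ∑ e' ∈ Z, (if e ≠ e' then (1/2) *
          (if ({e, e'} : Finset E) ⊆ ω then w ω else 0) else 0)
      ≤ ∑ e ∈ Z, ∑ e' ∈ Z, 2 * (J e * J e') * P := by
    rw [Finset.sum_comm]
    refine Finset.sum_le_sum fun e _ => ?_
    rw [Finset.sum_comm]
    refine Finset.sum_le_sum fun e' _ => ?_
    have hnn : 0 ≤ 2 * (J e * J e') * P := by
      have := hJ e
      have := hJ e'
      positivity
    by_cases h1 : e ≠ e'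
    · simp only [if_pos h1]
      rw [← Finset.mul_sum]
      have h2 := hsup {e, e'}
      rw [Finset.prod_pair h1] at h2
      linarith
    · simp only [if_neg h1]
      rw [Finset.sum_const_zero]
      exact hnn
  obtain ⟨S, hS⟩ : ∃ S, S = ∑ e ∈ Z, J e := ⟨_, rfl⟩
  have hS0 : 0 ≤ S := by rw [hS]; exact Finset.sum_nonneg fun e _ => hJ e
  have h3 : ∑ e ∈ Z, ∑ e' ∈ Z, 2 * (J e * J e') * P = 2 * (S * S) * P := by
    rw [hS, Finset.sum_mul_sum, Finset.mul_sum, Finset.sum_mul]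
    refine Finset.sum_congr rfl fun e _ => ?_
    rw [Finset.mul_sum, Finset.sum_mul]
  have h4 : ∑ e ∈ Z, J e * J e * P ≤ S * S * P := by
    have h5 : ∑ e ∈ Z, J e * J e * P ≤ ∑ e ∈ Z, J e * S * P := by
      refine Finset.sum_le_sum fun e he => ?_
      have h6 : J e ≤ S := by
        rw [hS]
        exact Finset.single_le_sum (f := J) (fun e _ => hJ e) he
      exact mul_le_mul_of_nonneg_right (mul_le_mul_of_nonneg_left h6 (hJ e)) hP0
    refine h5.trans (le_of_eq ?_)
    rw [← Finset.sum_mul, ← Finset.sum_mul, ← hS]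
  rw [← hS, ← hP]
  rw [h3] at hS2
  nlinarith [hS1, hS2, h4]

open Classical in
theorem qq_visit (inc : E → Finset V) (J : E → ℝ) (hJ : ∀ e, 0 ≤ J e) (σ : V → Bool) (z : V) :
    ∑' n : E → ℕ, (if deg inc n z ≠ 0 then ENNReal.ofReal (cw inc J n * qq inc J n σ) else 0)
      ≤ ENNReal.ofReal (3 * (∑ e, if z ∈ inc e then J e else 0) ^ 2
          * ((1 / 2) ^ (Fintype.card V) * Real.exp (∑ e, J e * sgE inc σ e))) := by
  obtain ⟨Z, hZ⟩ : ∃ Z, Z = Finset.univ.filter (fun e => z ∈ inc e) := ⟨_, rfl⟩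
  have h1 := hasSum_sum (s := (Finset.univ : Finset (Finset E)))
      (fun ω _ => ((tm_hasSum inc J ω ∅).sub (tm_hasSum inc J ω Z)).mul_left (cc inc J σ ω))
  have h3 : (fun n : E → ℕ => if deg inc n z ≠ 0 then cw inc J n * qq inc J n σ else 0)
        = fun n => ∑ ω, cc inc J σ ω * (tm inc J ω ∅ n - tm inc J ω Z n) := by
    funext n
    have h4 := cw_qq_z inc J σ n z
    rw [hZ, ← h4]
  rw [← h3] at h1
  have hnn : ∀ n : E → ℕ, 0 ≤ (if deg inc n z ≠ 0 then cw inc J n * qq inc J n σ else 0) := by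
    intro n
    split_ifs
    · exact mul_nonneg (cw_nonneg inc hJ n) (qq_nonneg inc J hJ n σ)
    · exact le_rfl
  have h5 : ∑' n : E → ℕ, (if deg inc n z ≠ 0 then ENNReal.ofReal (cw inc J n * qq inc J n σ)
      else 0) = ENNReal.ofReal (∑' n : E → ℕ, (if deg inc n z ≠ 0 then
        cw inc J n * qq inc J n σ else 0)) := by
    rw [ENNReal.ofReal_tsum_of_nonneg hnn h1.summable]
    refine tsum_congr fun n => ?_
    split_ifs
    · rfl
    · simp
  rw [h5, h1.tsum_eq]
  refine ENNReal.ofReal_le_ofReal ?_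
  have h6 : (∑ e, if z ∈ inc e then J e else 0) = ∑ e ∈ Z, J e := by
    rw [hZ, Finset.sum_filter]
  rw [h6]
  have h7 : ∀ ω : Finset E, cc inc J σ ω * ((1/2)^(Fintype.card V) * (cnt inc (ω \ ∅) *
      ((∏ e ∈ ω ∩ ∅, 1 / (1 + Real.exp (J e))) *
        ∏ e ∈ ω, (Real.exp (J e) - Real.exp (-J e)))) - (1/2)^(Fintype.card V) *
        (cnt inc (ω \ Z) * ((∏ e ∈ ω ∩ Z, 1 / (1 + Real.exp (J e))) *
        ∏ e ∈ ω, (Real.exp (J e) - Real.exp (-J e))))) ≤ (1/2)^(Fintype.card V) *
        (((∏ e ∈ ω, aa inc J σ e) * (∏ e ∈ ωᶜ, Real.exp (-J e))) * kap J Z ω) := by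
    intro ω
    rw [← cc_mul]
    simp only [Finset.sdiff_empty, Finset.inter_empty, Finset.prod_empty, one_mul]
    have h8 := kap_bound inc hJ z ω Z hZ
    have h9 : 0 ≤ (1/2:ℝ)^(Fintype.card V) * (cc inc J σ ω *
        ∏ e ∈ ω, (Real.exp (J e) - Real.exp (-J e))) :=
      mul_nonneg (by positivity) (mul_nonneg (cc_nonneg inc J σ ω)
        (Finset.prod_nonneg fun e _ => D_nonneg hJ e))
    have h10 := mul_le_mul_of_nonneg_left h8 h9
    refine le_trans (le_of_eq ?_) (h10.trans (le_of_eq ?_))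
    · ring
    · ring
  refine (Finset.sum_le_sum fun ω _ => h7 ω).trans ?_
  rw [← Finset.mul_sum]
  have h8 := kap_sum inc hJ σ Z
  have h9 := mul_le_mul_of_nonneg_left h8 (show 0 ≤ (1/2:ℝ)^(Fintype.card V) by positivity)
  refine h9.trans (le_of_eq ?_)
  ring

end Pool.Agent.Helper41.GF
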