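import Pool.Agent.Helper41.GF.Mecke

set_option autoImplicit false

open scoped ENNReal Nat
open Finset

namespace Pool.Agent.Helper41.GF

namespace GG

variable {V E H : Type} [Fintype V] [DecidableEq V] [Fintype E] [DecidableEq E] [Fintype H]
  [DecidableEq H]

end GG

variable {V E H : Type} [Fintype V] [DecidableEq V] [Fintype E] [DecidableEq E] [Fintype H]
  [DecidableEq H]



/-- number of ghost edges -/
def gh {E H : Type} [Fintype H] (n : E ⊕ H → ℕ) : ℕ := ∑ g : H, n (Sum.inr g)

omit [Fintype E] [DecidableEq E] [DecidableEq H] in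
theorem gh_add (m n : E ⊕ H → ℕ) : gh (m + n) = gh m + gh n := by
  simp [gh, Finset.sum_add_distrib]

omit [Fintype E] [DecidableEq E] [DecidableEq H] in
theorem gh_elim (n' : E → ℕ) : gh (Sum.elim n' (0 : H → ℕ)) = 0 := by
  simp [gh]

omit [Fintype E] [DecidableEq E] [DecidableEq H] in
theorem gh_zero : gh (0 : E ⊕ H → ℕ) = 0 := by
  simp [gh]

omit [Fintype E] in
theorem gh_listsum (l : List (E × Bool)) :
    gh ((l.map (fun d => (Pi.single (Sum.inl d.1) 1 : E ⊕ H → ℕ))).sum) = 0 := by
  induction l with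
  | nil => simp [gh_zero]
  | cons a l ih =>
    rw [List.map_cons, List.sum_cons, gh_add, ih]
    simp [gh]

omit [Fintype E] in
theorem gh_single (g : H) : gh (Pi.single (Sum.inr g) 1 : E ⊕ H → ℕ) = 1 := by
  unfold gh
  rw [Finset.sum_eq_single g]
  · simp
  · intro b _ hb
    rw [Pi.single_eq_of_ne]
    simpa using hb
  · simp

omit [Fintype E] in
theorem gh_npath (p : H × List (E × Bool) × H) : gh (npath p) = 2 := by
  unfold npath
  rw [gh_add, gh_add, gh_listsum, gh_single, gh_single]

omit [Fintype E] in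
theorem gh_maplist (l : List (H × List (E × Bool) × H)) :
    gh ((l.map npath).sum) = 2 * l.length := by
  induction l with
  | nil => simp [gh_zero]
  | cons a l ih =>
    rw [List.map_cons, List.sum_cons, gh_add, ih, gh_npath, List.length_cons]
    ring

omit [Fintype E] in
theorem gh_sum {ι : Type} (s : Finset ι) (l : ι → List (H × List (E × Bool) × H)) :
    gh (∑ t ∈ s, ((l t).map npath).sum) = 2 * ∑ t ∈ s, (l t).length := by
  classical
  induction s using Finset.induction_on with
  | empty => simp [gh_zero]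
  | insert a s ha ih =>
    rw [Finset.sum_insert ha, Finset.sum_insert ha, gh_add, ih, gh_maplist]
    ring

theorem lw_cons_len {α ι : Type} [DecidableEq ι] (lam : α → ℝ≥0∞) (tp : α → ι) (t : ι) (p : α)
    (l : List α) :
    lw lam tp t (p :: l) * (((p :: l).length : ℕ) : ℝ≥0∞)
      = (if tp p = t then lam p else 0) * lw lam tp t l := by
  unfold lw
  simp only [List.map_cons, List.prod_cons, List.length_cons, Nat.factorial_succ, Nat.cast_mul]
  have h0 : (((l.length + 1 : ℕ)) : ℝ≥0∞) ≠ 0 := by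
    exact Nat.cast_ne_zero.mpr (Nat.succ_ne_zero _)
  have h1 : (((l.length + 1 : ℕ)) : ℝ≥0∞) ≠ ∞ := ENNReal.natCast_ne_top _
  rw [div_eq_mul_inv, div_eq_mul_inv, ENNReal.mul_inv (Or.inl h0) (Or.inl h1)]
  rw [show ∀ a b c d e : ℝ≥0∞, a * b * (c * d) * e = a * (b * d) * (c * e) by intros; ring,
    ENNReal.inv_mul_cancel h0 h1, mul_one]

theorem mecke_one {α ι : Type} [Fintype ι] [DecidableEq ι] (lam : α → ℝ≥0∞) (tp : α → ι) (t0 : ι)
    (K : (ι → List α) → ℝ≥0∞) :
    ∑' l : ι → List α, (∏ t, lw lam tp t (l t)) * ((l t0).length : ℝ≥0∞) * K l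
      = ∑' p : α, (if tp p = t0 then lam p else 0) *
          ∑' l : ι → List α, (∏ t, lw lam tp t (l t)) * K (Function.update l t0 (p :: l t0)) := by
  let ph : α × (ι → List α) → (ι → List α) := fun x => Function.update x.2 t0 (x.1 :: x.2 t0)
  have hph : Function.Injective ph := by
    rintro ⟨p, l⟩ ⟨q, m⟩ h
    have h0 : p :: l t0 = q :: m t0 := by simpa [ph] using congrFun h t0
    have h1 := List.cons.inj h0
    have h2 : l = m := by
      funext t
      by_cases ht : t = t0
      · subst ht; exact h1.2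
      · simpa [ph, ht] using congrFun h t
    rw [h1.1, h2]
  have hsupp : Function.support (fun l : ι → List α =>
      (∏ t, lw lam tp t (l t)) * ((l t0).length : ℝ≥0∞) * K l) ⊆ Set.range ph := by
    intro l hl
    have hne : l t0 ≠ [] := by
      intro h; apply hl; simp [h]
    obtain ⟨p, l', hpl⟩ := List.exists_cons_of_ne_nil hne
    refine ⟨(p, Function.update l t0 l'), ?_⟩
    funext t
    by_cases ht : t = t0
    · subst ht; simp [ph, hpl]
    · simp [ph, ht]
  rw [← hph.tsum_eq hsupp, ENNReal.tsum_prod']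
  refine tsum_congr fun p => ?_
  rw [← ENNReal.tsum_mul_left]
  refine tsum_congr fun l => ?_
  have e1 : ∏ t, lw lam tp t (ph (p, l) t)
      = lw lam tp t0 (p :: l t0) * ∏ t ∈ Finset.univ.erase t0, lw lam tp t (l t) := by
    rw [← Finset.mul_prod_erase Finset.univ _ (Finset.mem_univ t0)]
    congr 1
    · simp [ph]
    · refine Finset.prod_congr rfl fun t ht => ?_
      have := Finset.ne_of_mem_erase ht
      simp [ph, this]
  have e2 : ∏ t, lw lam tp t (l t)
      = lw lam tp t0 (l t0) * ∏ t ∈ Finset.univ.erase t0, lw lam tp t (l t) := by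
    rw [← Finset.mul_prod_erase Finset.univ _ (Finset.mem_univ t0)]
  have e3 : ph (p, l) t0 = p :: l t0 := by simp [ph]
  rw [e1, e2, e3]
  have e4 := lw_cons_len lam tp t0 p (l t0)
  calc lw lam tp t0 (p :: l t0) * (∏ t ∈ Finset.univ.erase t0, lw lam tp t (l t))
        * (((p :: l t0).length : ℕ) : ℝ≥0∞) * K (ph (p, l))
      = (lw lam tp t0 (p :: l t0) * (((p :: l t0).length : ℕ) : ℝ≥0∞))
        * ((∏ t ∈ Finset.univ.erase t0, lw lam tp t (l t)) * K (ph (p, l))) := by ring
    _ = _ := by rw [e4]; ring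

/-- the soup functional -/
noncomputable def EE {ι : Type} [Fintype ι] [DecidableEq ι] (G : GG V E H) (Ga : ℕ → ℝ≥0∞)
    (tp : H × List (E × Bool) × H → ι) (F : (E ⊕ H → ℕ) → ℝ≥0∞) : ℝ≥0∞ :=
  ∑' l : ι → List (H × List (E × Bool) × H), ∑' n' : E → ℕ,
          (∏ t, lw G.lam tp t (l t)) * G.Phi Ga (Sum.elim n' 0)
            * F (Sum.elim n' 0 + ∑ t, ((l t).map npath).sum)

theorem EE_eq {ι : Type} [Fintype ι] [DecidableEq ι] (G : GG V E H) (Ga : ℕ → ℝ≥0∞)
    (tp : H × List (E × Bool) × H → ι) (F : (E ⊕ H → ℕ) → ℝ≥0∞) :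
    EE G Ga tp F = ∑' l : ι → List (H × List (E × Bool) × H), (∏ t, lw G.lam tp t (l t)) *
      ∑' n' : E → ℕ, G.Phi Ga (Sum.elim n' 0) * F (Sum.elim n' 0 + ∑ t, ((l t).map npath).sum) := by
  unfold EE
  refine tsum_congr fun l => ?_
  rw [← ENNReal.tsum_mul_left]
  refine tsum_congr fun n' => ?_
  ring

omit [Fintype E] [Fintype H] in
theorem upd_sum {ι : Type} [Fintype ι] [DecidableEq ι] (l : ι → List (H × List (E × Bool) × H))
    (t0 : ι) (p : H × List (E × Bool) × H) :
    ∑ t, ((Function.update l t0 (p :: l t0) t).map npath).sum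
      = ∑ t, ((l t).map npath).sum + npath p := by
  rw [← Finset.add_sum_erase Finset.univ _ (Finset.mem_univ t0),
    ← Finset.add_sum_erase Finset.univ (fun t => ((l t).map npath).sum) (Finset.mem_univ t0)]
  have : ∑ t ∈ Finset.univ.erase t0, ((Function.update l t0 (p :: l t0) t).map npath).sum
      = ∑ t ∈ Finset.univ.erase t0, ((l t).map npath).sum := by
    refine Finset.sum_congr rfl fun t ht => ?_
    have := Finset.ne_of_mem_erase ht
    simp [this]
  rw [this]
  simp only [Function.update_self, List.map_cons, List.sum_cons]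
  abel

theorem EE_mecke {ι : Type} [Fintype ι] [DecidableEq ι] (G : GG V E H) (Ga : ℕ → ℝ≥0∞)
    (tp : H × List (E × Bool) × H → ι) (F : (E ⊕ H → ℕ) → ℝ≥0∞) :
    EE G Ga tp (fun n => (gh n : ℝ≥0∞) * F n)
      = ∑' p : H × List (E × Bool) × H, 2 * G.lam p * EE G Ga tp (fun n => F (n + npath p)) := by
  rw [EE_eq]
  set K : (ι → List (H × List (E × Bool) × H)) → ℝ≥0∞ := fun l =>
    ∑' n' : E → ℕ, G.Phi Ga (Sum.elim n' 0) * F (Sum.elim n' 0 + ∑ t, ((l t).map npath).sum)
    with hK
  have h1 : ∀ l : ι → List (H × List (E × Bool) × H), (∏ t, lw G.lam tp t (l t)) *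
      ∑' n' : E → ℕ, G.Phi Ga (Sum.elim n' 0) *
        ((gh (Sum.elim n' 0 + ∑ t, ((l t).map npath).sum) : ℝ≥0∞) *
          F (Sum.elim n' 0 + ∑ t, ((l t).map npath).sum))
      = ∑ t0, 2 * ((∏ t, lw G.lam tp t (l t)) * ((l t0).length : ℝ≥0∞) * K l) := by
    intro l
    have e1 : ∑' n' : E → ℕ, G.Phi Ga (Sum.elim n' 0) *
        ((gh (Sum.elim n' 0 + ∑ t, ((l t).map npath).sum) : ℝ≥0∞) *
          F (Sum.elim n' 0 + ∑ t, ((l t).map npath).sum))
        = (2 * ∑ t, ((l t).length : ℝ≥0∞)) * K l := by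
      rw [hK]
      simp only
      rw [← ENNReal.tsum_mul_left]
      refine tsum_congr fun n' => ?_
      rw [gh_add, gh_elim, gh_sum]
      push_cast
      ring
    rw [e1]
    rw [← Finset.mul_sum, ← Finset.sum_mul, ← Finset.mul_sum]
    ring
  rw [tsum_congr h1, Summable.tsum_finsetSum (fun _ _ => ENNReal.summable)]
  have h2 : ∀ t0 : ι, ∑' l : ι → List (H × List (E × Bool) × H),
      2 * ((∏ t, lw G.lam tp t (l t)) * ((l t0).length : ℝ≥0∞) * K l)
      = ∑' p : H × List (E × Bool) × H, (if tp p = t0 then 2 * G.lam p else 0) *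
          EE G Ga tp (fun n => F (n + npath p)) := by
    intro t0
    rw [ENNReal.tsum_mul_left, mecke_one, ← ENNReal.tsum_mul_left]
    refine tsum_congr fun p => ?_
    have e3 : ∑' l : ι → List (H × List (E × Bool) × H), (∏ t, lw G.lam tp t (l t)) *
        K (Function.update l t0 (p :: l t0)) = EE G Ga tp (fun n => F (n + npath p)) := by
      rw [EE_eq]
      refine tsum_congr fun l => ?_
      congr 1
      rw [hK]
      simp only
      refine tsum_congr fun n' => ?_
      rw [upd_sum, add_assoc]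
    rw [e3]
    split_ifs <;> ring
  rw [Finset.sum_congr rfl (fun t0 _ => h2 t0),
    ← Summable.tsum_finsetSum (fun _ _ => ENNReal.summable)]
  refine tsum_congr fun p => ?_
  rw [← Finset.sum_mul]
  congr 1
  simp

theorem soup_level {ι : Type} [Fintype ι] [DecidableEq ι] (G : GG V E H) (Ga : ℕ → ℝ≥0∞)
    (hGa : ∀ d, Even d → Ga (d + 2) = ((d : ℝ≥0∞) + 1) * Ga d) (hfin : ∀ d, Ga d ≠ ∞)
    (tp : H × List (E × Bool) × H → ι) (j : ℕ) :
    ∀ F : (E ⊕ H → ℕ) → ℝ≥0∞, (∀ n, F n ≠ 0 → gh n = j) →
      ∑' n : E ⊕ H → ℕ, G.Phi Ga n * F n = EE G Ga tp F := by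
  induction j using Nat.strong_induction_on with
  | _ j ih =>
    intro F hF
    rcases Nat.eq_zero_or_pos j with hj | hj
    · subst hj
      rw [EE_eq]
      rw [tsum_eq_single (fun _ : ι => ([] : List (H × List (E × Bool) × H)))]
      · have e1 : ∏ t : ι, lw G.lam tp t ([] : List (H × List (E × Bool) × H)) = 1 := by
          refine Finset.prod_eq_one fun t _ => ?_
          simp [lw]
        rw [e1, one_mul]
        have hinj : Function.Injective (fun n' : E → ℕ => (Sum.elim n' (0 : H → ℕ))) := by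
          intro a b hab
          funext e
          simpa using congrFun hab (Sum.inl e)
        have hs : Function.support (fun n : E ⊕ H → ℕ => G.Phi Ga n * F n)
            ⊆ Set.range (fun n' : E → ℕ => (Sum.elim n' (0 : H → ℕ))) := by
          intro n hn
          have h1 : F n ≠ 0 := by
            intro h; apply hn; simp [h]
          have h2 := hF n h1
          unfold gh at h2
          have h3 : ∀ g : H, n (Sum.inr g) = 0 := by
            intro g
            exact (Finset.sum_eq_zero_iff.mp h2) g (Finset.mem_univ g)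
          refine ⟨fun e => n (Sum.inl e), ?_⟩
          funext x
          rcases x with x | x
          · simp
          · simp [h3 x]
        rw [← hinj.tsum_eq hs]
        refine tsum_congr fun n' => ?_
        simp
      · intro l hl
        have h1 : ∃ t, l t ≠ [] := by
          by_contra hcon
          push Not at hcon
          exact hl (funext hcon)
        obtain ⟨t, ht⟩ := h1
        have h2 : ∀ n' : E → ℕ, F (Sum.elim n' 0 + ∑ t, ((l t).map npath).sum) = 0 := by
          intro n'
          by_contra hcon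
          have h3 := hF _ hcon
          rw [gh_add, gh_elim, gh_sum] at h3
          have h4 : ∑ t, (l t).length = 0 := by omega
          have h5 := (Finset.sum_eq_zero_iff.mp h4) t (Finset.mem_univ t)
          exact ht (List.length_eq_zero_iff.mp h5)
        simp [h2]
    · have hj0 : (j : ℝ≥0∞) ≠ 0 := by exact_mod_cast hj.ne'
      have hj1 : (j : ℝ≥0∞) ≠ ∞ := ENNReal.natCast_ne_top _
      have key : (j : ℝ≥0∞) * ∑' n : E ⊕ H → ℕ, G.Phi Ga n * F n = (j : ℝ≥0∞) * EE G Ga tp F := by
        have a1 : (j : ℝ≥0∞) * ∑' n : E ⊕ H → ℕ, G.Phi Ga n * F n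
            = ∑' n : E ⊕ H → ℕ, (∑ g : H, (n (Sum.inr g) : ℝ≥0∞)) * G.Phi Ga n * F n := by
          rw [← ENNReal.tsum_mul_left]
          refine tsum_congr fun n => ?_
          by_cases h : F n = 0
          · simp [h]
          · have h2 := hF n h
            have h3 : (∑ g : H, (n (Sum.inr g) : ℝ≥0∞)) = (j : ℝ≥0∞) := by
              rw [← h2]; unfold gh; push_cast; rfl
            rw [h3]; ring
        have a2 : EE G Ga tp (fun n => (gh n : ℝ≥0∞) * F n) = (j : ℝ≥0∞) * EE G Ga tp F := by
          unfold EE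
          rw [← ENNReal.tsum_mul_left]
          refine tsum_congr fun l => ?_
          rw [← ENNReal.tsum_mul_left]
          refine tsum_congr fun n' => ?_
          by_cases h : F (Sum.elim n' 0 + ∑ t, ((l t).map npath).sum) = 0
          · simp [h]
          · simp only [hF _ h]; ring
        rw [a1, mecke_Phi G Ga hGa hfin F, ← a2, EE_mecke]
        refine tsum_congr fun p => ?_
        congr 1
        refine ih (j - 2) (by omega) (fun n => F (n + npath p)) ?_
        intro n hn
        have := hF _ hn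
        rw [gh_add, gh_npath] at this
        omega
      exact (ENNReal.mul_right_inj hj0 hj1).mp key

/-- TARGET -/
theorem soup_decomp {ι : Type} [Fintype ι] [DecidableEq ι] (G : GG V E H) (Ga : ℕ → ℝ≥0∞)
    (hGa : ∀ d, Even d → Ga (d + 2) = ((d : ℝ≥0∞) + 1) * Ga d) (hfin : ∀ d, Ga d ≠ ∞)
    (tp : H × List (E × Bool) × H → ι) (F : (E ⊕ H → ℕ) → ℝ≥0∞) :
    ∑' n : E ⊕ H → ℕ, G.Phi Ga n * F n
      = ∑' l : ι → List (H × List (E × Bool) × H), ∑' n' : E → ℕ,
          (∏ t, lw G.lam tp t (l t)) * G.Phi Ga (Sum.elim n' 0)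
            * F (Sum.elim n' 0 + ∑ t, ((l t).map npath).sum) := by
  have hdec : ∀ n : E ⊕ H → ℕ, F n = ∑' j : ℕ, (if gh n = j then F n else 0) := by
    intro n
    rw [tsum_eq_single (gh n) (fun j hj => by simp [Ne.symm hj])]
    simp
  have h1 : ∑' n : E ⊕ H → ℕ, G.Phi Ga n * F n
      = ∑' j : ℕ, ∑' n : E ⊕ H → ℕ, G.Phi Ga n * (if gh n = j then F n else 0) := by
    rw [ENNReal.tsum_comm]
    refine tsum_congr fun n => ?_
    rw [ENNReal.tsum_mul_left, ← hdec n]
  have h2 : EE G Ga tp F = ∑' j : ℕ, EE G Ga tp (fun n => if gh n = j then F n else 0) := by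
    unfold EE
    conv_rhs => rw [ENNReal.tsum_comm]
    refine tsum_congr fun l => ?_
    conv_rhs => rw [ENNReal.tsum_comm]
    refine tsum_congr fun n' => ?_
    rw [ENNReal.tsum_mul_left, ← hdec]
  rw [h1]
  change _ = EE G Ga tp F
  rw [h2]
  refine tsum_congr fun j => ?_
  refine soup_level G Ga hGa hfin tp j _ ?_
  intro n hn
  by_contra hcon
  exact hn (by simp [hcon])

end Pool.Agent.Helper41.GF
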