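import Pool.Agent.Helper41.GF.KerDefs
import Pool.Agent.Helper41.GF.Signs
import Pool.Agent.Helper41.GF.Soup
import Pool.Agent.Helper41.GF.Radial

/-!
# Definitions: finite weighted graphs with ghost edges, currents, signs, ghost paths
-/

set_option autoImplicit false

open scoped ENNReal Nat
open Finset MeasureTheory

namespace Pool.Agent.Helper41.GF


/-! ## definitions for the targets -/

section kernel

variable {V E H ι : Type} [Fintype V] [DecidableEq V] [Fintype E] [DecidableEq E] [Fintype H]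
  [DecidableEq H] [Fintype ι] [DecidableEq ι]

lemma Jr_eq (G : GG V E H) (r : V → ℝ) (e : E ⊕ H) : G.Jr r e = (G.wt e : ℝ) * ∏ x ∈ G.inc e, r x := by
  rcases e with e | g
  · simp [GG.Jr, GG.wt, GG.inc, Finset.prod_pair (G.hne e)]
  · simp [GG.Jr, GG.wt, GG.inc]

lemma sg_abs (b : Bool) : |sg b| = 1 := by cases b <;> simp [sg]

lemma sg_sq (b : Bool) : sg b ^ 2 = 1 := by cases b <;> simp [sg]

lemma expo_eq_b (G : GG V E H) (σ : V → Bool) (r : V → ℝ) :
    G.expo (fun x => sg (σ x) * r x)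
      = -(1 / 2) * ∑ x, r x ^ 2 + ∑ e, G.Jr r e * sgE G.inc σ e := by
  have h1 : ∀ e : E, sgE G.inc σ (Sum.inl e) = sg (σ (G.src e)) * sg (σ (G.tgt e)) := by
    intro e; simp [sgE, GG.inc, Finset.prod_pair (G.hne e)]
  have h2 : ∀ g : H, sgE G.inc σ (Sum.inr g) = sg (σ (G.hs g)) := by
    intro g; simp [sgE, GG.inc]
  rw [Fintype.sum_sum_type]
  simp only [h1, h2]
  unfold GG.expo
  rw [add_assoc]
  congr 1
  · congr 1
    apply Finset.sum_congr rfl
    intro x _
    rw [mul_pow, sg_sq, one_mul]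
  · congr 1
    · apply Finset.sum_congr rfl
      intro e _
      simp only [GG.Jr, Sum.elim_inl]
      ring
    · apply Finset.sum_congr rfl
      intro e _
      simp only [GG.Jr, Sum.elim_inr]
      ring

lemma sgn_eq (σ : V → Bool) (r : V → ℝ) (hr : ∀ x, 0 < r x) : sgn (fun x => sg (σ x) * r x) = σ := by
  funext x
  have := hr x
  cases h : σ x with
  | false => simp [sgn, sg, h, this.le]
  | true => simp [sgn, sg, h, this]

lemma abs_eq (σ : V → Bool) (r : V → ℝ) (hr : ∀ x, 0 < r x) :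
    (fun x => |sg (σ x) * r x|) = r := by
  funext x
  rw [abs_mul, sg_abs, one_mul, abs_of_pos (hr x)]

lemma Jr_nonneg_b (G : GG V E H) (r : V → ℝ) (hr : ∀ x, 0 < r x) (e : E ⊕ H) : 0 ≤ G.Jr r e := by
  rw [Jr_eq]
  exact mul_nonneg (G.wt e).2 (Finset.prod_nonneg fun x _ => (hr x).le)

lemma cw_nonneg_b (inc : E ⊕ H → Finset V) (J : E ⊕ H → ℝ) (hJ : ∀ e, 0 ≤ J e) (n : E ⊕ H → ℕ) :
    0 ≤ cw inc J n := by
  unfold cw
  split_ifs
  · exact Finset.prod_nonneg fun e _ => div_nonneg (pow_nonneg (hJ e) _) (by positivity)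
  · exact le_rfl

/-- the integrand at given radii and signs -/
lemma K1 (G : GG V E H) (tp : H × List (E × Bool) × H → ι) (env : Env E H ι) (σ : V → Bool)
    (r : V → ℝ) (hr : ∀ x, 0 < r x) :
    ENNReal.ofReal (G.rho (fun x => sg (σ x) * r x)) * G.sk tp (fun x => sg (σ x) * r x) env
      = G.ew tp env * (G.Phi Ga (ncur env))⁻¹
        * ENNReal.ofReal (2 ^ (Fintype.card V) * Real.exp (-(1 / 2) * ∑ x, r x ^ 2))
        * ENNReal.ofReal (cw G.inc (G.Jr r) (ncur env) * qq G.inc (G.Jr r) (ncur env) σ) := by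
  unfold GG.sk GG.rho
  rw [abs_eq σ r hr, sgn_eq σ r hr, expo_eq_b]
  have h1 : ENNReal.ofReal (2 ^ (Fintype.card V) * Real.exp (-(1 / 2) * ∑ x, r x ^ 2))
    = ENNReal.ofReal (Real.exp (-(1 / 2) * ∑ x, r x ^ 2 + ∑ e, G.Jr r e * sgE G.inc σ e))
      * ENNReal.ofReal (2 ^ (Fintype.card V) * Real.exp (-∑ e, G.Jr r e * sgE G.inc σ e)) := by
    rw [← ENNReal.ofReal_mul (Real.exp_pos _).le]
    congr 1
    rw [mul_left_comm, ← Real.exp_add]
    congr 2
    ring
  rw [h1]
  ring

lemma K2 (G : GG V E H) (tp : H × List (E × Bool) × H → ι) (env : Env E H ι)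
    (r : V → ℝ) (hr : ∀ x, 0 < r x) :
    ∑ σ : V → Bool, ENNReal.ofReal (G.rho (fun x => sg (σ x) * r x)) * G.sk tp (fun x => sg (σ x) * r x) env
      = G.ew tp env * (G.Phi Ga (ncur env))⁻¹
        * ENNReal.ofReal (2 ^ (Fintype.card V) * Real.exp (-(1 / 2) * ∑ x, r x ^ 2))
        * ENNReal.ofReal (cw G.inc (G.Jr r) (ncur env)) := by
  simp only [K1 G tp env _ r hr]
  rw [← Finset.mul_sum]
  congr 1
  rw [← ENNReal.ofReal_sum_of_nonneg]
  · rw [← Finset.mul_sum, qq_sum, mul_one]
  · intro σ _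
    exact mul_nonneg (cw_nonneg_b _ _ (Jr_nonneg_b G r hr) _) (qq_nonneg _ _ (Jr_nonneg_b G r hr) _ _)

/-- the product of weights -/
noncomputable def Pw (G : GG V E H) (n : E ⊕ H → ℕ) : ℝ≥0∞ :=
  ∏ e, (G.wt e : ℝ≥0∞) ^ (n e) / ((n e)! : ℝ≥0∞)

lemma prod_J (G : GG V E H) (n : E ⊕ H → ℕ) (r : V → ℝ) :
    ∏ e, G.Jr r e ^ n e / ((n e)! : ℝ)
      = (∏ e, (G.wt e : ℝ) ^ (n e) / ((n e)! : ℝ)) * ∏ x, r x ^ deg G.inc n x := by
  have h1 : ∏ x, r x ^ deg G.inc n x = ∏ e, ∏ x ∈ G.inc e, r x ^ n e := by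
    simp only [deg]
    simp only [← Finset.prod_pow_eq_pow_sum]
    rw [Finset.prod_comm]
    apply Finset.prod_congr rfl
    intro e _
    rw [← Finset.prod_filter_mul_prod_filter_not Finset.univ (fun x => x ∈ G.inc e)]
    have h2 : ∏ x ∈ Finset.univ.filter (fun x => ¬ x ∈ G.inc e), r x ^ (if x ∈ G.inc e then n e else 0) = 1 := by
      apply Finset.prod_eq_one
      intro x hx
      rw [Finset.mem_filter] at hx
      rw [if_neg hx.2, pow_zero]
    rw [h2, mul_one]
    apply Finset.prod_congr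
    · ext x; simp
    · intro x hx
      rw [if_pos hx]
  rw [h1, ← Finset.prod_mul_distrib]
  apply Finset.prod_congr rfl
  intro e _
  rw [Jr_eq, mul_pow, ← Finset.prod_pow]
  ring

lemma K3 (G : GG V E H) (n : E ⊕ H → ℕ) (r : V → ℝ) (hr : ∀ x, 0 < r x)
    (hev : ∀ x, Even (deg G.inc n x)) :
    ENNReal.ofReal (2 ^ (Fintype.card V) * Real.exp (-(1 / 2) * ∑ x, r x ^ 2))
        * ENNReal.ofReal (cw G.inc (G.Jr r) n)
      = 2 ^ (Fintype.card V) * Pw G n * ∏ x, ENNReal.ofReal (rad (deg G.inc n x) (r x)) := by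
  have h1 : cw G.inc (G.Jr r) n = (∏ e, (G.wt e : ℝ) ^ (n e) / ((n e)! : ℝ)) * ∏ x, r x ^ deg G.inc n x := by
    rw [cw, if_pos hev, prod_J]
  have h2 : Pw G n = ENNReal.ofReal (∏ e, (G.wt e : ℝ) ^ (n e) / ((n e)! : ℝ)) := by
    rw [ENNReal.ofReal_prod_of_nonneg (fun e _ => by positivity)]
    unfold Pw
    apply Finset.prod_congr rfl
    intro e _
    rw [ENNReal.ofReal_div_of_pos (by positivity), ENNReal.ofReal_pow (by positivity),
      ENNReal.ofReal_coe_nnreal, ENNReal.ofReal_natCast]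
  have h3 : ∏ x, ENNReal.ofReal (rad (deg G.inc n x) (r x))
      = ENNReal.ofReal ((∏ x, r x ^ deg G.inc n x) * Real.exp (-(1 / 2) * ∑ x, r x ^ 2)) := by
    rw [← ENNReal.ofReal_prod_of_nonneg]
    · congr 1
      simp only [rad]
      rw [Finset.prod_mul_distrib, ← Real.exp_sum]
      congr 2
      rw [Finset.mul_sum]
      apply Finset.sum_congr rfl
      intro x _
      ring
    · intro x _
      exact mul_nonneg (pow_nonneg (hr x).le _) (Real.exp_pos _).le
  have h4 : (2 : ℝ≥0∞) ^ (Fintype.card V) = ENNReal.ofReal (2 ^ (Fintype.card V)) := by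
    rw [ENNReal.ofReal_pow (by norm_num)]; norm_num
  have h5 : (0 : ℝ) ≤ ∏ x, r x ^ deg G.inc n x := Finset.prod_nonneg fun x _ => pow_nonneg (hr x).le _
  rw [h1, h2, h3, h4, ← ENNReal.ofReal_mul (by positivity), ← ENNReal.ofReal_mul (by positivity),
    ← ENNReal.ofReal_mul (by positivity)]
  congr 1
  ring

lemma Jr_cont (G : GG V E H) (e : E ⊕ H) : Measurable fun r : V → ℝ => G.Jr r e := by
  simp only [Jr_eq]
  exact (Finset.measurable_fun_prod _ fun x _ => measurable_pi_apply x).const_mul _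

lemma qq_meas (G : GG V E H) (n : E ⊕ H → ℕ) (σ : V → Bool) :
    Measurable fun r : V → ℝ => qq G.inc (G.Jr r) n σ := by
  unfold qq
  apply Finset.measurable_fun_sum
  intro ω _
  split_ifs
  · apply Measurable.div_const
    apply Measurable.mul
    · apply Finset.measurable_fun_prod
      intro e _
      split_ifs
      · exact (Real.measurable_exp.comp (Jr_cont G e).neg).const_sub 1
      · exact measurable_const
    · apply Finset.measurable_fun_prod
      intro e _
      exact Real.measurable_exp.comp (Jr_cont G e).neg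
  · exact measurable_const

lemma cw_meas (G : GG V E H) (n : E ⊕ H → ℕ) :
    Measurable fun r : V → ℝ => cw G.inc (G.Jr r) n := by
  unfold cw
  split_ifs
  · apply Finset.measurable_fun_prod
    intro e _
    exact ((Jr_cont G e).pow_const _).div_const _
  · exact measurable_const

lemma rho_meas (G : GG V E H) : Measurable fun ψ : V → ℝ => G.rho ψ := by
  unfold GG.rho GG.expo
  apply Real.measurable_exp.comp
  have h1 : Measurable fun ψ : V → ℝ => ∑ x, ψ x ^ 2 :=
    Finset.measurable_fun_sum _ fun x _ => (measurable_pi_apply x).pow_const 2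
  have h2 : Measurable fun ψ : V → ℝ => ∑ e, (G.w e : ℝ) * (ψ (G.src e) * ψ (G.tgt e)) :=
    Finset.measurable_fun_sum _ fun e _ => by fun_prop
  have h3 : Measurable fun ψ : V → ℝ => ∑ g, (G.f g : ℝ) * ψ (G.hs g) :=
    Finset.measurable_fun_sum _ fun g _ => (measurable_pi_apply _).const_mul _
  exact ((h1.const_mul _).add h2).add h3

lemma sgn_meas : Measurable (sgn : (V → ℝ) → V → Bool) := by
  apply measurable_pi_lambda
  intro x
  apply measurable_to_bool
  have : (fun ψ : V → ℝ => sgn ψ x) ⁻¹' {true} = {ψ | 0 < ψ x} := by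
    ext ψ; simp [sgn]
  rw [this]
  exact measurableSet_lt measurable_const (measurable_pi_apply x)

lemma sk_meas_aux (G : GG V E H) (c : ℝ≥0∞) (n : E ⊕ H → ℕ) (σ : V → Bool) :
    Measurable fun ψ : V → ℝ =>
      c * ENNReal.ofReal (cw G.inc (G.Jr (fun x => |ψ x|)) n
          * qq G.inc (G.Jr (fun x => |ψ x|)) n σ)
        * ENNReal.ofReal (2 ^ (Fintype.card V)
          * Real.exp (-∑ e, G.Jr (fun x => |ψ x|) e * sgE G.inc σ e)) := by
  have habs : Measurable fun ψ : V → ℝ => (fun x => |ψ x|) := by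
    apply measurable_pi_lambda
    intro x
    exact (measurable_pi_apply x).abs
  have m1 : Measurable fun ψ : V → ℝ => cw G.inc (G.Jr (fun x => |ψ x|)) n :=
    (cw_meas G n).comp habs
  have m2 : Measurable fun ψ : V → ℝ => qq G.inc (G.Jr (fun x => |ψ x|)) n σ :=
    (qq_meas G n σ).comp habs
  have m3 : Measurable fun ψ : V → ℝ => ∑ e, G.Jr (fun x => |ψ x|) e * sgE G.inc σ e :=
    Finset.measurable_fun_sum _ fun e _ => ((Jr_cont G e).comp habs).mul_const _
  have m4 : Measurable fun ψ : V → ℝ => ENNReal.ofReal (cw G.inc (G.Jr (fun x => |ψ x|)) n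
        * qq G.inc (G.Jr (fun x => |ψ x|)) n σ) := (m1.mul m2).ennreal_ofReal
  have m5 : Measurable fun ψ : V → ℝ => ENNReal.ofReal (2 ^ (Fintype.card V)
        * Real.exp (-∑ e, G.Jr (fun x => |ψ x|) e * sgE G.inc σ e)) :=
    ((m3.neg.exp).const_mul _).ennreal_ofReal
  exact (m4.const_mul c).mul m5

lemma sk_meas1 (G : GG V E H) (c : ℝ≥0∞) (n : E ⊕ H → ℕ) :
    Measurable fun p : (V → ℝ) × (V → Bool) =>
      c
        * ENNReal.ofReal (cw G.inc (G.Jr (fun x => |p.1 x|)) n
          * qq G.inc (G.Jr (fun x => |p.1 x|)) n p.2)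
        * ENNReal.ofReal (2 ^ (Fintype.card V)
          * Real.exp (-∑ e, G.Jr (fun x => |p.1 x|) e * sgE G.inc p.2 e)) := by
  apply measurable_from_prod_countable_left
  intro σ
  exact sk_meas_aux G c n σ

lemma sk_meas (G : GG V E H) (tp : H × List (E × Bool) × H → ι) (env : Env E H ι) :
    Measurable fun ψ : V → ℝ => G.sk tp ψ env := by
  have h2 : Measurable fun ψ : V → ℝ => (ψ, sgn ψ) := measurable_id.prodMk sgn_meas
  have h3 := (sk_meas1 G (G.ew tp env * (G.Phi Ga (ncur env))⁻¹) (ncur env)).comp h2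
  have h4 : (fun ψ : V → ℝ => G.sk tp ψ env) = ((fun p : (V → ℝ) × (V → Bool) =>
      G.ew tp env * (G.Phi Ga (ncur env))⁻¹
        * ENNReal.ofReal (cw G.inc (G.Jr (fun x => |p.1 x|)) (ncur env)
          * qq G.inc (G.Jr (fun x => |p.1 x|)) (ncur env) p.2)
        * ENNReal.ofReal (2 ^ (Fintype.card V)
          * Real.exp (-∑ e, G.Jr (fun x => |p.1 x|) e * sgE G.inc p.2 e))) ∘ fun ψ => (ψ, sgn ψ)) := by
    funext ψ
    simp only [Function.comp]
    unfold GG.sk
    rfl
  rw [h4]
  exact h3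

lemma F_meas (G : GG V E H) (tp : H × List (E × Bool) × H → ι) (env : Env E H ι) :
    Measurable fun ψ : V → ℝ => ENNReal.ofReal (G.rho ψ) * G.sk tp ψ env :=
  (rho_meas G).ennreal_ofReal.mul (sk_meas G tp env)

/-- the constant -/
noncomputable def CC (G : GG V E H) (tp : H × List (E × Bool) × H → ι) (env : Env E H ι) : ℝ≥0∞ :=
  G.ew tp env * (G.Phi Ga (ncur env))⁻¹ * (2 ^ (Fintype.card V) * Pw G (ncur env))

lemma sum_int (G : GG V E H) (tp : H × List (E × Bool) × H → ι) (env : Env E H ι)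
    (B : Set (V → ℝ)) (hB : MeasurableSet B) (hpos : ∀ r ∈ B, ∀ x, 0 < r x) :
    ∑ σ : V → Bool, ∫⁻ r : V → ℝ in B,
        ENNReal.ofReal (G.rho (fun x => sg (σ x) * r x)) * G.sk tp (fun x => sg (σ x) * r x) env
      = if ∀ x, Even (deg G.inc (ncur env) x) then
          CC G tp env * ∫⁻ r : V → ℝ in B, ∏ x, ENNReal.ofReal (rad (deg G.inc (ncur env) x) (r x))
        else 0 := by
  rw [← lintegral_finsetSum]
  · rw [setLIntegral_congr_fun hB (g := fun r => G.ew tp env * (G.Phi Ga (ncur env))⁻¹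
        * ENNReal.ofReal (2 ^ (Fintype.card V) * Real.exp (-(1 / 2) * ∑ x, r x ^ 2))
        * ENNReal.ofReal (cw G.inc (G.Jr r) (ncur env)))
        (fun r hr => K2 G tp env r (hpos r hr))]
    split_ifs with hev
    · rw [setLIntegral_congr_fun hB (g := fun r => CC G tp env *
        ∏ x, ENNReal.ofReal (rad (deg G.inc (ncur env) x) (r x)))]
      · rw [lintegral_const_mul]
        apply Finset.measurable_fun_prod
        intro x _
        apply Measurable.ennreal_ofReal
        unfold rad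
        fun_prop
      · intro r hr
        have := K3 G (ncur env) r (hpos r hr) hev
        simp only
        rw [mul_assoc, this, CC]
        ring
    · have : ∀ r : V → ℝ, cw G.inc (G.Jr r) (ncur env) = 0 := by
        intro r; rw [cw, if_neg hev]
      simp [this]
  · intro σ _
    have hm : Measurable fun r : V → ℝ => (fun x => sg (σ x) * r x) := by
      apply measurable_pi_lambda
      intro x
      exact (measurable_pi_apply x).const_mul _
    exact (F_meas G tp env).comp hm

lemma ew_le_Phi (G : GG V E H) (tp : H × List (E × Bool) × H → ι) (env : Env E H ι) :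
    G.ew tp env ≤ G.Phi Ga (ncur env) := by
  have h := soup_decomp G Ga (fun d _ => Ga_rec d) Ga_ne_top tp
    (fun n => if n = ncur env then 1 else 0)
  have h1 : ∑' n : E ⊕ H → ℕ, G.Phi Ga n * (if n = ncur env then 1 else 0) = G.Phi Ga (ncur env) := by
    rw [tsum_eq_single (ncur env)]
    · simp
    · intro n hn
      simp [hn]
  rw [h1] at h
  rw [h]
  refine le_trans ?_ (ENNReal.le_tsum env.1)
  refine le_trans ?_ (ENNReal.le_tsum env.2)
  rw [if_pos (by rfl), mul_one]
  exact le_rfl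

lemma Pw_ne_top (G : GG V E H) (n : E ⊕ H → ℕ) : Pw G n ≠ ∞ := by
  unfold Pw
  apply ENNReal.prod_ne_top
  intro e _
  apply ENNReal.div_ne_top
  · exact ENNReal.pow_ne_top ENNReal.coe_ne_top
  · exact_mod_cast (Nat.factorial_pos _).ne'

lemma Phi_ne_top (G : GG V E H) (n : E ⊕ H → ℕ) : G.Phi Ga n ≠ ∞ := by
  unfold GG.Phi
  split_ifs
  · apply ENNReal.mul_ne_top (Pw_ne_top G n)
    apply ENNReal.prod_ne_top
    intro x _
    exact Ga_ne_top _
  · exact ENNReal.zero_ne_top

lemma CC_mul (G : GG V E H) (tp : H × List (E × Bool) × H → ι) (env : Env E H ι)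
    (hev : ∀ x, Even (deg G.inc (ncur env) x)) :
    CC G tp env * ∏ x, Ga (deg G.inc (ncur env) x) = 2 ^ (Fintype.card V) * G.ew tp env := by
  have hPhi : G.Phi Ga (ncur env) = Pw G (ncur env) * ∏ x, Ga (deg G.inc (ncur env) x) := by
    unfold GG.Phi
    rw [if_pos hev]
    rfl
  have h1 : CC G tp env * ∏ x, Ga (deg G.inc (ncur env) x)
      = 2 ^ (Fintype.card V) * (G.ew tp env * ((G.Phi Ga (ncur env))⁻¹ * G.Phi Ga (ncur env))) := by
    rw [CC]
    nth_rw 3 [hPhi]
    ring
  rw [h1]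
  congr 1
  by_cases h0 : G.Phi Ga (ncur env) = 0
  · have : G.ew tp env = 0 := le_antisymm ((ew_le_Phi G tp env).trans h0.le) zero_le
    rw [this, zero_mul]
  · rw [ENNReal.inv_mul_cancel h0 (Phi_ne_top G _), mul_one]

lemma ew_zero (G : GG V E H) (tp : H × List (E × Bool) × H → ι) (env : Env E H ι)
    (hev : ¬ ∀ x, Even (deg G.inc (ncur env) x)) : G.ew tp env = 0 := by
  have h := ew_le_Phi G tp env
  unfold GG.Phi at h
  rw [if_neg hev] at h
  exact le_antisymm h zero_le

lemma pos_meas : MeasurableSet {r : V → ℝ | ∀ x, 0 < r x} := by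
  have : {r : V → ℝ | ∀ x, 0 < r x} = ⋂ x, {r | 0 < r x} := by ext r; simp
  rw [this]
  exact MeasurableSet.iInter fun x => measurableSet_lt measurable_const (measurable_pi_apply x)

/-! ## TARGETS -/

theorem sk_integral (G : GG V E H) (tp : H × List (E × Bool) × H → ι) (env : Env E H ι) :
    ∫⁻ ψ : V → ℝ, ENNReal.ofReal (G.rho ψ) * G.sk tp ψ env
      = 2 ^ (Fintype.card V) * G.ew tp env := by
  rw [lintegral_sign_radii _ (F_meas G tp env), sum_int G tp env _ pos_meas (fun r hr => hr)]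
  split_ifs with hev
  · rw [lintegral_prod_rad_univ, CC_mul G tp env hev]
  · rw [ew_zero G tp env hev, mul_zero]

theorem sk_integral_small (G : GG V E H) (tp : H × List (E × Bool) × H → ι) (env : Env E H ι)
    (z : V) (hz : 2 ≤ deg G.inc (ncur env) z) (ε : ℝ) (h0 : 0 < ε) (h1 : ε ≤ 1) :
    ∫⁻ ψ : V → ℝ in {ψ | 0 < ψ z ∧ ψ z ≤ ε}, ENNReal.ofReal (G.rho ψ) * G.sk tp ψ env
      ≤ ENNReal.ofReal (2 * ε ^ 3) * (2 ^ (Fintype.card V) * G.ew tp env) := by
  have hA : MeasurableSet {ψ : V → ℝ | 0 < ψ z ∧ ψ z ≤ ε} :=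
    (measurableSet_lt measurable_const (measurable_pi_apply z)).inter
      (measurableSet_le (measurable_pi_apply z) measurable_const)
  have hB2 : MeasurableSet {r : V → ℝ | r z ≤ ε} := measurableSet_le (measurable_pi_apply z) measurable_const
  rw [← lintegral_indicator hA, lintegral_sign_radii _ ((F_meas G tp env).indicator hA)]
  have hB : MeasurableSet {r : V → ℝ | (∀ x, 0 < r x) ∧ r z ∈ Set.Iic ε} := pos_meas.inter hB2
  calc ∑ σ : V → Bool, ∫⁻ r : V → ℝ in {r | ∀ x, 0 < r x},
        ({ψ : V → ℝ | 0 < ψ z ∧ ψ z ≤ ε}).indicator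
          (fun ψ => ENNReal.ofReal (G.rho ψ) * G.sk tp ψ env) (fun x => sg (σ x) * r x)
      ≤ ∑ σ : V → Bool, ∫⁻ r : V → ℝ in {r : V → ℝ | (∀ x, 0 < r x) ∧ r z ∈ Set.Iic ε},
        ENNReal.ofReal (G.rho (fun x => sg (σ x) * r x)) * G.sk tp (fun x => sg (σ x) * r x) env := by
        apply Finset.sum_le_sum
        intro σ _
        rw [← lintegral_indicator pos_meas, ← lintegral_indicator hB]
        apply lintegral_mono
        intro r
        simp only
        by_cases hr : ∀ x, 0 < r x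
        · rw [Set.indicator_of_mem (show r ∈ {r : V → ℝ | ∀ x, 0 < r x} from hr)]
          by_cases hm : (fun x => sg (σ x) * r x) ∈ {ψ : V → ℝ | 0 < ψ z ∧ ψ z ≤ ε}
          · rw [Set.indicator_of_mem hm, Set.indicator_of_mem]
            refine ⟨hr, ?_⟩
            obtain ⟨hm1, hm2⟩ := hm
            simp only at hm1 hm2
            have hrz := hr z
            cases h : σ z with
            | false =>
              rw [h] at hm1
              simp only [sg] at hm1
              norm_num at hm1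
              linarith
            | true =>
              rw [h] at hm2
              simp only [sg, if_true, one_mul] at hm2
              exact hm2
          · rw [Set.indicator_of_notMem hm]
            exact zero_le
        · rw [Set.indicator_of_notMem (show r ∉ {r : V → ℝ | ∀ x, 0 < r x} from hr)]
          exact zero_le
    _ = if ∀ x, Even (deg G.inc (ncur env) x) then
          CC G tp env * ∫⁻ r : V → ℝ in {r : V → ℝ | (∀ x, 0 < r x) ∧ r z ∈ Set.Iic ε},
            ∏ x, ENNReal.ofReal (rad (deg G.inc (ncur env) x) (r x))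
        else 0 := sum_int G tp env _ hB (fun r hr => hr.1)
    _ ≤ _ := by
        split_ifs with hev
        · rw [lintegral_prod_rad _ z (Set.Iic ε) measurableSet_Iic, Set.Ioi_inter_Iic]
          calc CC G tp env * ((∫⁻ r in Set.Ioc 0 ε, ENNReal.ofReal (rad (deg G.inc (ncur env) z) r))
                * ∏ x ∈ Finset.univ.erase z, Ga (deg G.inc (ncur env) x))
              ≤ CC G tp env * ((ENNReal.ofReal (2 * ε ^ 3) * Ga (deg G.inc (ncur env) z))
                * ∏ x ∈ Finset.univ.erase z, Ga (deg G.inc (ncur env) x)) := by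
                gcongr
                exact Ga_small _ hz ε h0 h1
            _ = ENNReal.ofReal (2 * ε ^ 3) * (CC G tp env * ∏ x, Ga (deg G.inc (ncur env) x)) := by
                rw [← Finset.mul_prod_erase Finset.univ _ (Finset.mem_univ z)]
                ring
            _ = _ := by rw [CC_mul G tp env hev]
        · exact zero_le


end kernel

end Pool.Agent.Helper41.GF
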