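import Pool.Agent.Helper41.GF.KerDefs
import Pool.Agent.Helper41.GF.Signs
import Pool.Agent.Helper41.GF.Soup
import Pool.Agent.Helper41.GF.Radial

/-!
# Definitions: finite weighted graphs with ghost edges, currents, signs, ghost paths
-/

set_option autoImplicit false

open scoped ENNReal Nat
open Finset MeasureTheory

namespace Pool.Agent.Helper41.GF


/-! ## definitions for the targets -/

section kernel

variable {V E H ι : Type} [Fintype V] [DecidableEq V] [Fintype E] [DecidableEq E] [Fintype H]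
  [DecidableEq H] [Fintype ι] [DecidableEq ι]

/-! ## TARGETS -/

/-- the current of a list of darts -/
def hcur (l : List (E × Bool)) : E ⊕ H → ℕ :=
  (l.map (fun d => (Pi.single (Sum.inl d.1) 1 : E ⊕ H → ℕ))).sum

omit [Fintype E] [Fintype H] [DecidableEq ι] in
theorem h663_npath_le (env : Env E H ι) (t : ι) (p : H × List (E × Bool) × H)
    (hp : p ∈ env.1 t) : npath p ≤ ncur env := by
  have h1 : npath p ≤ ((env.1 t).map npath).sum := by
    refine List.single_le_sum (fun x _ => fun e => Nat.zero_le _) _ ?_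
    exact List.mem_map_of_mem hp
  have h2 : ((env.1 t).map npath).sum ≤ ∑ t, ((env.1 t).map npath).sum :=
    Finset.single_le_sum (f := fun t => ((env.1 t).map (npath (E := E) (H := H))).sum)
      (fun x _ => fun e => Nat.zero_le _) (Finset.mem_univ t)
  have h3 : ∑ t, ((env.1 t).map npath).sum ≤ ncur env := by
    intro e
    simp only [ncur, Pi.add_apply]
    exact Nat.le_add_left _ _
  exact h1.trans (h2.trans h3)

theorem h663_pw (G : GG V E H) (tp : H × List (E × Bool) × H → ι)
    (env : Env E H ι) (h : G.ew tp env ≠ 0) (t : ι) (p : H × List (E × Bool) × H)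
    (hp : p ∈ env.1 t) : G.pw (G.hs p.1) p.2.1 (G.hs p.2.2) ≠ 0 := by
  have h1 : lw G.lam tp t (env.1 t) ≠ 0 := by
    intro h0
    apply h
    unfold GG.ew
    rw [Finset.prod_eq_zero (Finset.mem_univ t) h0, zero_mul]
  have h2 : (if tp p = t then G.lam p else 0) ≠ 0 := by
    intro h0
    apply h1
    unfold lw
    have h3 := List.mem_map_of_mem (f := fun p => if tp p = t then G.lam p else 0) hp
    simp only [h0] at h3
    rw [List.prod_eq_zero h3, ENNReal.zero_div]
  have h3 : G.lam p ≠ 0 := by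
    intro h0
    apply h2
    rw [h0]; simp
  intro h0
  apply h3
  unfold GG.lam
  rw [h0]; simp

omit [Fintype V] [Fintype E] [DecidableEq E] [Fintype H] [DecidableEq H] in
theorem h663_pw_cons (G : GG V E H) {x y : V} {d : E × Bool} {l : List (E × Bool)}
    (h : G.pw x (d :: l) y ≠ 0) : G.ds d = x ∧ G.pw (G.dt d) l y ≠ 0 := by
  rw [GG.pw] at h
  by_cases hx : G.ds d = x
  · rw [if_pos hx] at h
    exact ⟨hx, right_ne_zero_of_mul h⟩
  · rw [if_neg hx] at h
    exact absurd rfl h

omit [Fintype V] [Fintype E] [DecidableEq E] [Fintype H] [DecidableEq H] in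
theorem h663_sgE (G : GG V E H) (σ : V → Bool) (d : E × Bool) :
    sgE G.inc σ (Sum.inl d.1) = sg (σ (G.ds d)) * sg (σ (G.dt d)) := by
  unfold sgE GG.inc GG.ds GG.dt
  simp only [Sum.elim_inl]
  rw [Finset.prod_pair (G.hne d.1)]
  split_ifs
  · rfl
  · ring

theorem h663_sg {b : Bool} (h : sg b = 1) : b = true := by
  cases b
  · simp [sg] at h
    norm_num at h
  · rfl

omit [Fintype V] [Fintype E] [DecidableEq E] [Fintype H] [DecidableEq H] in
theorem h663_pos (G : GG V E H) (ψ : V → ℝ) (y : V) (l : List (E × Bool)) :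
    ∀ x, 0 < ψ x → G.pw x l y ≠ 0 → (∀ d ∈ l, sgE G.inc (sgn ψ) (Sum.inl d.1) = 1) →
      ∀ i, 0 < ψ (G.fin x (l.take i)) := by
  induction l with
  | nil => intro x hx _ _ i; simpa [GG.fin] using hx
  | cons d l ih =>
    intro x hx hpw hsg i
    cases i with
    | zero => simpa [GG.fin] using hx
    | succ i =>
      obtain ⟨h1, h2⟩ := h663_pw_cons G hpw
      rw [List.take_succ_cons, GG.fin]
      apply ih _ _ h2 (fun d' hd' => hsg d' (List.mem_cons_of_mem _ hd'))
      have h3 := hsg d List.mem_cons_self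
      rw [h663_sgE, h1] at h3
      have h4 : sg (sgn ψ x) = 1 := by simp [sgn, sg, hx]
      rw [h4, one_mul] at h3
      have h5 := h663_sg h3
      simpa [sgn] using h5

omit [DecidableEq E] [DecidableEq H] [Fintype V] in
theorem h663_deg_add (G : GG V E H) (n m : E ⊕ H → ℕ) (x : V) :
    deg G.inc (n + m) x = deg G.inc n x + deg G.inc m x := by
  unfold deg
  rw [← Finset.sum_add_distrib]
  refine Finset.sum_congr rfl fun e _ => ?_
  split_ifs <;> simp

omit [Fintype V] in
theorem h663_deg_single (G : GG V E H) (e : E ⊕ H) (x : V) :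
    deg G.inc (Pi.single e 1) x = if x ∈ G.inc e then 1 else 0 := by
  unfold deg
  rw [Finset.sum_eq_single e]
  · simp
  · intro b _ hb
    simp [hb]
  · intro h
    exact absurd (Finset.mem_univ e) h

omit [DecidableEq E] [DecidableEq H] [Fintype V] in
theorem h663_deg_mono (G : GG V E H) {n m : E ⊕ H → ℕ} (h : n ≤ m) (x : V) :
    deg G.inc n x ≤ deg G.inc m x := by
  unfold deg
  refine Finset.sum_le_sum fun e _ => ?_
  split_ifs
  · exact h e
  · exact le_rfl

omit [Fintype V] in
theorem h663_deg (G : GG V E H) (y : V) (l : List (E × Bool)) :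
    ∀ x, G.pw x l y ≠ 0 → ∀ i, 2 ≤ deg G.inc (hcur l) (G.fin x (l.take i)) +
      (if G.fin x (l.take i) = x then 1 else 0) + (if G.fin x (l.take i) = y then 1 else 0) := by
  induction l with
  | nil =>
    intro x hpw i
    have hxy : x = y := by
      by_contra h
      apply hpw
      rw [GG.pw, if_neg h]
    subst hxy
    simp [GG.fin]
  | cons d l ih =>
    intro x hpw i
    obtain ⟨h1, h2⟩ := h663_pw_cons G hpw
    have hc : (hcur (d :: l) : E ⊕ H → ℕ) = Pi.single (Sum.inl d.1) 1 + hcur l := by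
      simp [hcur]
    have hin : ∀ v, v = G.ds d ∨ v = G.dt d → v ∈ G.inc (Sum.inl d.1) := by
      intro v hv
      unfold GG.inc
      simp only [Sum.elim_inl, Finset.mem_insert, Finset.mem_singleton]
      unfold GG.ds GG.dt at hv
      split_ifs at hv <;> tauto
    rw [hc, h663_deg_add, h663_deg_single]
    cases i with
    | zero =>
      rw [List.take_zero, GG.fin, if_pos (hin x (Or.inl h1.symm)), if_pos rfl]
      omega
    | succ i =>
      rw [List.take_succ_cons, GG.fin]
      have h3 := ih _ h2 i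
      have h4 : (if G.fin (G.dt d) (l.take i) = G.dt d then 1 else 0) ≤
          (if G.fin (G.dt d) (l.take i) ∈ G.inc (Sum.inl d.1 : E ⊕ H) then 1 else 0) := by
        split_ifs with h5 h6
        · exact le_rfl
        · exact absurd (hin _ (Or.inr h5)) h6
        · exact Nat.zero_le _
        · exact le_rfl
      omega

theorem sk_supp (G : GG V E H) (tp : H × List (E × Bool) × H → ι) (ψ : V → ℝ)
    (env : Env E H ι) (h : G.sk tp ψ env ≠ 0) (t : ι) (p : H × List (E × Bool) × H)
    (hp : p ∈ env.1 t) (i : ℕ) : 0 < ψ (G.site p i) := by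
  unfold GG.sk at h
  have h1 := left_ne_zero_of_mul h
  have h2 := right_ne_zero_of_mul h1
  have h3 : G.ew tp env ≠ 0 := left_ne_zero_of_mul (left_ne_zero_of_mul h1)
  have h4 : qq G.inc (G.Jr (fun x => |ψ x|)) (ncur env) (sgn ψ) ≠ 0 := by
    intro h0
    apply h2
    rw [h0, mul_zero, ENNReal.ofReal_zero]
  have h5 := qq_supp G.inc _ _ _ h4
  have h6 := h663_npath_le env t p hp
  have h7 : 0 < ψ (G.hs p.1) := by
    have h8 : ncur env (Sum.inr p.1) ≠ 0 := by
      have h13 : npath p (Sum.inr p.1) ≤ ncur env (Sum.inr p.1) := h6 _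
      have h9 : 1 ≤ npath p (Sum.inr p.1) := by
        simp only [npath, Pi.add_apply, Pi.single_eq_same]
        omega
      omega
    have h9 := h5 _ h8
    unfold sgE GG.inc at h9
    simp only [Sum.elim_inr, Finset.prod_singleton] at h9
    have h10 := h663_sg h9
    simpa [sgn] using h10
  refine h663_pos G ψ (G.hs p.2.2) p.2.1 (G.hs p.1) h7 (h663_pw G tp env h3 t p hp) ?_ i
  intro d hd
  apply h5
  have h13 : npath p (Sum.inl d.1) ≤ ncur env (Sum.inl d.1) := h6 _
  have h9 : 1 ≤ npath p (Sum.inl d.1) := by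
    have h10 : (Pi.single (Sum.inl d.1) 1 : E ⊕ H → ℕ) ≤
        (p.2.1.map (fun d => (Pi.single (Sum.inl d.1) 1 : E ⊕ H → ℕ))).sum :=
      List.single_le_sum (fun x _ => fun e => Nat.zero_le _) _ (List.mem_map_of_mem
        (f := fun d : E × Bool => (Pi.single (Sum.inl d.1) 1 : E ⊕ H → ℕ)) hd)
    have h11 : (Pi.single (Sum.inl d.1) 1 : E ⊕ H → ℕ) (Sum.inl d.1) ≤
        (p.2.1.map (fun d => (Pi.single (Sum.inl d.1) 1 : E ⊕ H → ℕ))).sum (Sum.inl d.1) := h10 _
    rw [Pi.single_eq_same] at h11
    simp only [npath, Pi.add_apply]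
    omega
  omega

theorem deg_ncur (G : GG V E H) (tp : H × List (E × Bool) × H → ι)
    (env : Env E H ι) (h : G.ew tp env ≠ 0) (t : ι) (p : H × List (E × Bool) × H)
    (hp : p ∈ env.1 t) (i : ℕ) : 2 ≤ deg G.inc (ncur env) (G.site p i) := by
  refine le_trans ?_ (h663_deg_mono G (h663_npath_le env t p hp) _)
  have h1 := h663_deg G (G.hs p.2.2) p.2.1 (G.hs p.1) (h663_pw G tp env h t p hp) i
  have h2 : npath p = Pi.single (Sum.inr p.1) 1 + Pi.single (Sum.inr p.2.2) 1 + hcur p.2.1 := rfl
  rw [h2, h663_deg_add, h663_deg_add, h663_deg_single, h663_deg_single]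
  have h3 : ∀ (v : V) (g : H), v ∈ G.inc (Sum.inr g : E ⊕ H) ↔ v = G.hs g := by
    intro v g
    unfold GG.inc
    simp
  simp only [h3]
  unfold GG.site
  omega

end kernel

end Pool.Agent.Helper41.GF
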