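import Pool.Agent.Helper41.GF.SkA
import Pool.Agent.Helper41.GF.SkB
import Pool.Agent.Helper41.GF.SkC
import Pool.Agent.Helper41.GF.GaussD
import Pool.Agent.Helper41.GF.GreenG

/-!
# Definitions: finite weighted graphs with ghost edges, currents, signs, ghost paths
-/

set_option autoImplicit false

open scoped ENNReal Nat
open Finset MeasureTheory

namespace Pool.Agent.Helper41.GF


section given
variable {V E H ι : Type} [Fintype V] [DecidableEq V] [Fintype E] [DecidableEq E] [Fintype H]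
  [DecidableEq H] [Fintype ι] [DecidableEq ι]

namespace GG

end GG

end given

/-! ## TARGETS -/

section targets

variable {V E H ι : Type} [Fintype V] [DecidableEq V] [Fintype E] [DecidableEq E] [Fintype H]
  [DecidableEq H] [Fintype ι] [DecidableEq ι]

theorem m7_meas_rho (G : GG V E H) : Measurable (fun ψ : V → ℝ => ENNReal.ofReal (G.rho ψ)) := by
  have h : Continuous (fun ψ : V → ℝ => G.rho ψ) := by
    unfold GG.rho GG.expo
    fun_prop
  exact h.measurable.ennreal_ofReal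

theorem m7_lint (G : GG V E H) {f : (V → ℝ) → ℝ≥0∞} (hf : Measurable f) :
    ∫⁻ ψ, f ψ ∂G.fieldLaw = (∫⁻ ψ : V → ℝ, ENNReal.ofReal (G.rho ψ))⁻¹
      * ∫⁻ ψ : V → ℝ, ENNReal.ofReal (G.rho ψ) * f ψ := by
  unfold GG.fieldLaw
  rw [lintegral_smul_measure, lintegral_withDensity_eq_lintegral_mul _ (m7_meas_rho G) hf]
  rfl

theorem fieldLaw_prob (G : GG V E H) (hZ : ∫⁻ ψ : V → ℝ, ENNReal.ofReal (G.rho ψ) ≠ ∞) :
    IsProbabilityMeasure G.fieldLaw := by
  constructor
  unfold GG.fieldLaw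
  rw [Measure.smul_apply, withDensity_apply _ MeasurableSet.univ, Measure.restrict_univ, smul_eq_mul]
  exact ENNReal.inv_mul_cancel G.lintegral_rho_ne_zero hZ

theorem fieldLaw_reflect (G : GG V E H) (m : V → ℝ)
    (hm : ∀ x, m x = G.Pop m x + ∑ g, (if G.hs g = x then (G.f g : ℝ) else 0)) :
    MeasurePreserving (fun (ψ : V → ℝ) x => 2 * m x - ψ x) G.fieldLaw G.fieldLaw := by
  unfold GG.fieldLaw
  exact (G.measurePreserving_reflect m hm).smul_measure _

theorem m7_sk (G : GG V E H) (tp : H × List (E × Bool) × H → ι) (env : Env E H ι) :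
    ∫⁻ ψ, G.sk tp ψ env ∂G.fieldLaw
      = (∫⁻ ψ : V → ℝ, ENNReal.ofReal (G.rho ψ))⁻¹ * (2 ^ (Fintype.card V) * G.ew tp env) := by
  rw [m7_lint G (measurable_sk G tp env), sk_integral]

theorem sk_fieldLaw (G : GG V E H) (tp : H × List (E × Bool) × H → ι)
    (hZ : ∫⁻ ψ : V → ℝ, ENNReal.ofReal (G.rho ψ) ≠ ∞) (env : Env E H ι) :
    ∫⁻ ψ, G.sk tp ψ env ∂G.fieldLaw
      = G.ew tp env / (∑' env' : Env E H ι, G.ew tp env') := by
  have hp := fieldLaw_prob G hZ
  have h1 : ∑' env' : Env E H ι, ∫⁻ ψ, G.sk tp ψ env' ∂G.fieldLaw = 1 := by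
    rw [← lintegral_tsum (fun e => (measurable_sk G tp e).aemeasurable)]
    simp_rw [sk_sum]
    simp
  simp_rw [m7_sk] at h1
  rw [m7_sk]
  have h2 : ((∫⁻ ψ : V → ℝ, ENNReal.ofReal (G.rho ψ))⁻¹ * 2 ^ (Fintype.card V))
      * ∑' env' : Env E H ι, G.ew tp env' = 1 := by
    rw [← ENNReal.tsum_mul_left, ← h1]
    refine tsum_congr fun e => ?_
    rw [mul_assoc]
  have h3 := ENNReal.eq_inv_of_mul_eq_one_left h2
  rw [← mul_assoc, h3, ENNReal.div_eq_inv_mul]

theorem m7_ew_ne (G : GG V E H) (tp : H × List (E × Bool) × H → ι) (ψ : V → ℝ) (env : Env E H ι)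
    (h : G.sk tp ψ env ≠ 0) : G.ew tp env ≠ 0 := by
  intro h0
  apply h
  unfold GG.sk
  rw [h0]
  simp

/-- the coupling sum at `z` -/
theorem m7_coupling (G : GG V E H) (z : V) (t : ℝ) (ht : 0 < t)
    (hF : ∑ g, (if G.hs g = z then (G.f g : ℝ) else 0) ≤ t) (hrow : RowLe G 0) (r : V → ℝ)
    (hr : ∀ x, 0 ≤ r x) (M : ℝ) (hM : r z ≤ M)
    (ho : ∀ e, (G.src e = z → r (G.tgt e) ≤ t) ∧ (G.tgt e = z → r (G.src e) ≤ t)) :
    ∑ e, (if z ∈ G.inc e then G.Jr r e else 0) ≤ 2 * M * t := by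
  rw [Fintype.sum_sum_type]
  have h1 : ∑ e : E, (if z ∈ G.inc (Sum.inl e) then G.Jr r (Sum.inl e) else 0)
      ≤ ∑ e : E, ((G.w e : ℝ) * ((if G.src e = z then 1 else 0) + (if G.tgt e = z then 1 else 0)))
        * (r z * t) := by
    refine Finset.sum_le_sum fun e _ => ?_
    have hw : (0:ℝ) ≤ G.w e := (G.w e).coe_nonneg
    have hne := G.hne e
    simp only [GG.inc, GG.Jr, Sum.elim_inl, Finset.mem_insert, Finset.mem_singleton]
    by_cases hs : G.src e = z
    · have htg : G.tgt e ≠ z := fun h => hne (hs.trans h.symm)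
      rw [if_pos (Or.inl hs.symm), if_pos hs, if_neg htg, hs, add_zero, mul_one]
      exact mul_le_mul_of_nonneg_left (mul_le_mul_of_nonneg_left ((ho e).1 hs) (hr z)) hw
    · by_cases htg : G.tgt e = z
      · rw [if_pos (Or.inr htg.symm), if_neg hs, if_pos htg, htg, zero_add, mul_one, mul_comm (r (G.src e))]
        exact mul_le_mul_of_nonneg_left (mul_le_mul_of_nonneg_left ((ho e).2 htg) (hr z)) hw
      · rw [if_neg (by rintro (h | h); exacts [hs h.symm, htg h.symm]), if_neg hs, if_neg htg]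
        simp
  have h2 : ∑ g : H, (if z ∈ G.inc (Sum.inr g) then G.Jr r (Sum.inr g) else 0)
      = (∑ g, (if G.hs g = z then (G.f g : ℝ) else 0)) * r z := by
    rw [Finset.sum_mul]
    refine Finset.sum_congr rfl fun g _ => ?_
    simp only [GG.inc, GG.Jr, Sum.elim_inr, Finset.mem_singleton]
    by_cases hs : G.hs g = z
    · rw [if_pos hs.symm, if_pos hs, hs]
    · rw [if_neg (fun h => hs h.symm), if_neg hs, zero_mul]
  rw [h2]
  rw [← Finset.sum_mul] at h1
  have h3 := hrow z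
  rw [sub_zero] at h3
  have hz := hr z
  have h4 : (∑ e : E, ((G.w e : ℝ) * ((if G.src e = z then 1 else 0) + (if G.tgt e = z then 1 else 0))))
        * (r z * t) ≤ 1 * (r z * t) := mul_le_mul_of_nonneg_right h3 (by positivity)
  have h5 : (∑ g, (if G.hs g = z then (G.f g : ℝ) else 0)) * r z ≤ t * r z :=
    mul_le_mul_of_nonneg_right hF hz
  have h6 : r z * t ≤ M * t := mul_le_mul_of_nonneg_right hM ht.le
  linarith

theorem m7_zero (G : GG V E H) (tp : H × List (E × Bool) × H → ι) (KZ : Env E H ι → ℝ≥0∞) (z : V)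
    (hKv : ∀ env, KZ env ≠ 0 → ∃ t, ∃ p ∈ env.1 t, ∃ i, G.site p i = z) (ψ : V → ℝ)
    (hψ : ψ z ≤ 0) : ∑' env, G.sk tp ψ env * KZ env = 0 := by
  rw [ENNReal.tsum_eq_zero]
  intro env
  by_contra hne
  have h1 : G.sk tp ψ env ≠ 0 := fun h => hne (by rw [h, zero_mul])
  have h2 : KZ env ≠ 0 := fun h => hne (by rw [h, mul_zero])
  obtain ⟨t, p, hp, i, hi⟩ := hKv env h2
  have := sk_supp G tp ψ env h1 t p hp i
  rw [hi] at this
  linarith

theorem m7_le_two (G : GG V E H) (tp : H × List (E × Bool) × H → ι) (KZ : Env E H ι → ℝ≥0∞)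
    (hK2 : ∀ env, KZ env ≤ 2) (ψ : V → ℝ) : ∑' env, G.sk tp ψ env * KZ env ≤ 2 := by
  calc ∑' env, G.sk tp ψ env * KZ env ≤ ∑' env, G.sk tp ψ env * 2 :=
        ENNReal.tsum_le_tsum fun env => mul_le_mul_right (hK2 env) _
    _ = 2 := by rw [ENNReal.tsum_mul_right, sk_sum, one_mul]

open Classical in
theorem m7_visit (G : GG V E H) (tp : H × List (E × Bool) × H → ι) (KZ : Env E H ι → ℝ≥0∞)
    (hK2 : ∀ env, KZ env ≤ 2) (z : V)
    (hKv : ∀ env, KZ env ≠ 0 → ∃ t, ∃ p ∈ env.1 t, ∃ i, G.site p i = z) (ψ : V → ℝ) :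
    ∑' env, G.sk tp ψ env * KZ env
      ≤ ENNReal.ofReal (3 * (∑ e, if z ∈ G.inc e then G.Jr (fun x => |ψ x|) e else 0) ^ 2) * 2 := by
  calc ∑' env, G.sk tp ψ env * KZ env
      ≤ ∑' env, (if deg G.inc (ncur env) z ≠ 0 then G.sk tp ψ env else 0) * 2 := by
        refine ENNReal.tsum_le_tsum fun env => ?_
        by_cases h0 : G.sk tp ψ env * KZ env = 0
        · rw [h0]; exact zero_le
        · have h1 : G.sk tp ψ env ≠ 0 := fun h => h0 (by rw [h, zero_mul])
          have h2 : KZ env ≠ 0 := fun h => h0 (by rw [h, mul_zero])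
          obtain ⟨t, p, hp, i, hi⟩ := hKv env h2
          have h3 := deg_ncur G tp env (m7_ew_ne G tp ψ env h1) t p hp i
          rw [hi] at h3
          rw [if_pos (by omega)]
          exact mul_le_mul_right (hK2 env) _
    _ = (∑' env, (if deg G.inc (ncur env) z ≠ 0 then G.sk tp ψ env else 0)) * 2 :=
        ENNReal.tsum_mul_right
    _ ≤ _ := mul_le_mul_left (sk_visit G tp ψ z) _

theorem m7_small (G : GG V E H) (tp : H × List (E × Bool) × H → ι) (env : Env E H ι) (z : V)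
    (M : ℝ) (hM : 0 < M) (hM1 : 2 * M ≤ 1) (KZ KZ' : Env E H ι → ℝ≥0∞)
    (hKK : ∀ env, KZ env ≤ KZ' env)
    (hKv : ∀ env, KZ env ≠ 0 → ∃ t, ∃ p ∈ env.1 t, ∃ i, G.site p i = z) :
    (∫⁻ ψ, Set.indicator {ψ : V → ℝ | 0 < ψ z ∧ ψ z ≤ 2 * M} (fun ψ => G.sk tp ψ env) ψ ∂G.fieldLaw)
        * KZ env
      ≤ ENNReal.ofReal (16 * M ^ 3) * ((∫⁻ ψ, G.sk tp ψ env ∂G.fieldLaw) * KZ' env) := by
  by_cases hK : KZ env = 0
  · rw [hK, mul_zero]; exact zero_le
  have hS : MeasurableSet {ψ : V → ℝ | 0 < ψ z ∧ ψ z ≤ 2 * M} :=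
    (measurableSet_lt measurable_const (measurable_pi_apply z)).inter
      (measurableSet_le (measurable_pi_apply z) measurable_const)
  have hmeas := measurable_sk G tp env
  rw [m7_lint G (hmeas.indicator hS), m7_sk]
  have e1 : ∫⁻ ψ : V → ℝ, ENNReal.ofReal (G.rho ψ)
      * Set.indicator {ψ : V → ℝ | 0 < ψ z ∧ ψ z ≤ 2 * M} (fun ψ => G.sk tp ψ env) ψ
      = ∫⁻ ψ : V → ℝ in {ψ | 0 < ψ z ∧ ψ z ≤ 2 * M}, ENNReal.ofReal (G.rho ψ) * G.sk tp ψ env := by
    rw [← lintegral_indicator hS]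
    refine lintegral_congr fun ψ => ?_
    by_cases h : ψ ∈ {ψ : V → ℝ | 0 < ψ z ∧ ψ z ≤ 2 * M}
    · rw [Set.indicator_of_mem h, Set.indicator_of_mem h]
    · rw [Set.indicator_of_notMem h, Set.indicator_of_notMem h, mul_zero]
  rw [e1]
  by_cases hew : G.ew tp env = 0
  · have h0 : ∫⁻ ψ : V → ℝ in {ψ | 0 < ψ z ∧ ψ z ≤ 2 * M}, ENNReal.ofReal (G.rho ψ) * G.sk tp ψ env = 0 := by
      have : ∀ ψ : V → ℝ, G.sk tp ψ env = 0 := fun ψ => by
        by_contra h
        exact m7_ew_ne G tp ψ env h hew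
      simp [this]
    rw [h0, mul_zero, zero_mul]; exact zero_le
  · obtain ⟨t, p, hp, i, hi⟩ := hKv env hK
    have h3 := deg_ncur G tp env hew t p hp i
    rw [hi] at h3
    have h4 := sk_integral_small G tp env z h3 (2 * M) (by positivity) hM1
    have e2 : 2 * (2 * M) ^ 3 = 16 * M ^ 3 := by ring
    rw [e2] at h4
    set Z := ∫⁻ ψ : V → ℝ, ENNReal.ofReal (G.rho ψ)
    calc Z⁻¹ * (∫⁻ ψ : V → ℝ in {ψ | 0 < ψ z ∧ ψ z ≤ 2 * M}, ENNReal.ofReal (G.rho ψ) * G.sk tp ψ env) * KZ env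
        ≤ Z⁻¹ * (ENNReal.ofReal (16 * M ^ 3) * (2 ^ (Fintype.card V) * G.ew tp env)) * KZ' env := by
          gcongr
          exact hKK env
      _ = _ := by ring

theorem m7_core (G : GG V E H) (tp : H × List (E × Bool) × H → ι) (m : V → ℝ)
    (hm : ∀ x, m x = G.Pop m x + ∑ g, (if G.hs g = x then (G.f g : ℝ) else 0))
    (hZ : ∫⁻ ψ : V → ℝ, ENNReal.ofReal (G.rho ψ) ≠ ∞)
    (KZ KZ' : Env E H ι → ℝ≥0∞) (hK2 : ∀ env, KZ env ≤ 2) (hKK : ∀ env, KZ env ≤ KZ' env) (z : V)
    (hKv : ∀ env, KZ env ≠ 0 → ∃ t, ∃ p ∈ env.1 t, ∃ i, G.site p i = z)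
    (hmz : 0 < m z) (hmz1 : 2 * m z ≤ 1) (t : ℝ) (ht : 0 < t)
    (hm0 : ∀ y, 0 ≤ m y) (hmt : ∀ y, m y ≤ t / 2) (hF : ∑ g, (if G.hs g = z then (G.f g : ℝ) else 0) ≤ t)
    (hrow : RowLe G 0) (gr : ℝ) (hgr0 : 0 < gr)
    (hgr : ∀ y, ∃ g : V → ℝ, (∀ x, g x = G.Pop g x + (if x = y then 1 else 0)) ∧ 0 < g y
      ∧ g y ≤ gr) (c : ℝ) (hcard : ((univ.filter (fun e => G.src e = z ∨ G.tgt e = z)).card : ℝ) = c) :
    ∫⁻ ψ, (∑' env, G.sk tp ψ env * KZ env)
        * (∑' env, G.sk tp (fun x => 2 * m x - ψ x) env * KZ env) ∂G.fieldLaw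
      ≤ ENNReal.ofReal (1536 * m z ^ 5 * t ^ 2)
          * (∑' env, (∫⁻ ψ, G.sk tp ψ env ∂G.fieldLaw) * KZ' env)
        + ENNReal.ofReal (8 * c * Real.exp (-t ^ 2 / (8 * gr))) := by
  set S : Set (V → ℝ) := {ψ : V → ℝ | 0 < ψ z ∧ ψ z ≤ 2 * m z} with hSd
  have hS : MeasurableSet S :=
    (measurableSet_lt measurable_const (measurable_pi_apply z)).inter
      (measurableSet_le (measurable_pi_apply z) measurable_const)
  set a : (V → ℝ) → ℝ≥0∞ := fun ψ => ∑' env, G.sk tp ψ env * KZ env with had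
  have ha : Measurable a := Measurable.tsum fun env => (measurable_sk G tp env).mul_const _
  set oth : E → V := fun e => if G.src e = z then G.tgt e else G.src e with hoth
  set Fz : Finset E := univ.filter (fun e => G.src e = z ∨ G.tgt e = z) with hFz
  set Bad : Set (V → ℝ) := ⋃ e ∈ Fz, {ψ : V → ℝ | t / 2 ≤ |ψ (oth e) - m (oth e)|} with hBad
  have hBe : ∀ y : V, MeasurableSet {ψ : V → ℝ | t / 2 ≤ |ψ y - m y|} := fun y =>
    measurableSet_le measurable_const
      (show Continuous (fun ψ : V → ℝ => |ψ y - m y|) by fun_prop).measurable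
  have hBadm : MeasurableSet Bad := Finset.measurableSet_biUnion _ fun e _ => hBe _
  have hpt : ∀ ψ : V → ℝ, a ψ * a (fun x => 2 * m x - ψ x)
      ≤ S.indicator a ψ * ENNReal.ofReal (96 * m z ^ 2 * t ^ 2) + Bad.indicator (fun _ => (4 : ℝ≥0∞)) ψ := by
    intro ψ
    by_cases hb : ψ ∈ Bad
    · rw [Set.indicator_of_mem hb]
      refine le_add_left ?_
      calc a ψ * a (fun x => 2 * m x - ψ x) ≤ 2 * 2 :=
            mul_le_mul' (m7_le_two G tp KZ hK2 _) (m7_le_two G tp KZ hK2 _)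
        _ = 4 := by norm_num
    · refine le_add_right ?_
      by_cases hs : ψ ∈ S
      · rw [Set.indicator_of_mem hs]
        refine mul_le_mul_right ?_ _
        have hB : ∀ e, (G.src e = z ∨ G.tgt e = z) → |ψ (oth e) - m (oth e)| < t / 2 := by
          intro e he
          by_contra hcon
          push Not at hcon
          apply hb
          simp only [hBad, Set.mem_iUnion]
          exact ⟨e, by simp [hFz, he], hcon⟩
        have hR : ∀ y, |ψ y - m y| < t / 2 → |2 * m y - ψ y| ≤ t := by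
          intro y hy
          have h1 := abs_lt.1 hy
          have h2 := hm0 y
          have h3 := hmt y
          rw [abs_le]
          constructor <;> linarith [h1.1, h1.2]
        have hc := m7_coupling G z t ht hF hrow (fun x => |2 * m x - ψ x|) (fun x => abs_nonneg _)
          (2 * m z) (by
            rw [abs_le]
            obtain ⟨h1, h2⟩ := hs
            constructor <;> linarith) (by
            intro e
            constructor
            · intro he
              have := hB e (Or.inl he)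
              simp only [hoth, if_pos he] at this
              exact hR _ this
            · intro he
              have hne : G.src e ≠ z := fun h => G.hne e (h.trans he.symm)
              have := hB e (Or.inr he)
              simp only [hoth, if_neg hne] at this
              exact hR _ this)
        have hc0 : 0 ≤ ∑ e, (if z ∈ G.inc e then G.Jr (fun x => |2 * m x - ψ x|) e else 0) := by
          refine Finset.sum_nonneg fun e _ => ?_
          split_ifs
          · rcases e with e | g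
            · simp only [GG.Jr, Sum.elim_inl]
              have := (G.w e).coe_nonneg
              positivity
            · simp only [GG.Jr, Sum.elim_inr]
              have := (G.f g).coe_nonneg
              positivity
          · exact le_rfl
        refine (m7_visit G tp KZ hK2 z hKv _).trans ?_
        calc ENNReal.ofReal (3 * (∑ e, if z ∈ G.inc e then G.Jr (fun x => |2 * m x - ψ x|) e else 0) ^ 2) * 2
            ≤ ENNReal.ofReal (3 * (2 * (2 * m z) * t) ^ 2) * 2 := by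
              gcongr
          _ = ENNReal.ofReal (3 * (2 * (2 * m z) * t) ^ 2) * ENNReal.ofReal 2 := by
              rw [ENNReal.ofReal_ofNat]
          _ = ENNReal.ofReal (96 * m z ^ 2 * t ^ 2) := by
              rw [← ENNReal.ofReal_mul (by positivity)]
              congr 1
              ring
      · rw [Set.indicator_of_notMem hs, zero_mul]
        by_cases h1 : 0 < ψ z
        · have h2 : 2 * m z < ψ z := by
            by_contra hcon
            exact hs ⟨h1, not_lt.1 hcon⟩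
          have h3 : a (fun x => 2 * m x - ψ x) = 0 :=
            m7_zero G tp KZ z hKv _ (by show 2 * m z - ψ z ≤ 0; linarith)
          rw [h3, mul_zero]
        · have h3 : a ψ = 0 := m7_zero G tp KZ z hKv _ (not_lt.1 h1)
          rw [h3, zero_mul]
  -- first integral
  have hI1 : ∫⁻ ψ, S.indicator a ψ ∂G.fieldLaw
      ≤ ENNReal.ofReal (16 * m z ^ 3) * (∑' env, (∫⁻ ψ, G.sk tp ψ env ∂G.fieldLaw) * KZ' env) := by
    have e1 : ∀ ψ, S.indicator a ψ = ∑' env, S.indicator (fun ψ => G.sk tp ψ env) ψ * KZ env := by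
      intro ψ
      by_cases hs : ψ ∈ S
      · rw [Set.indicator_of_mem hs]
        refine tsum_congr fun env => ?_
        rw [Set.indicator_of_mem hs]
      · rw [Set.indicator_of_notMem hs]
        symm
        rw [ENNReal.tsum_eq_zero]
        intro env
        rw [Set.indicator_of_notMem hs, zero_mul]
    simp_rw [e1]
    rw [lintegral_tsum (fun env => (((measurable_sk G tp env).indicator hS).mul_const _).aemeasurable),
      ← ENNReal.tsum_mul_left]
    refine ENNReal.tsum_le_tsum fun env => ?_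
    rw [lintegral_mul_const _ ((measurable_sk G tp env).indicator hS)]
    exact m7_small G tp env z (m z) hmz hmz1 KZ KZ' hKK hKv
  -- bad set
  have hBy : ∀ y : V, G.fieldLaw {ψ : V → ℝ | t / 2 ≤ |ψ y - m y|}
      ≤ ENNReal.ofReal (2 * Real.exp (-t ^ 2 / (8 * gr))) := by
    intro y
    obtain ⟨g, hg1, hg2, hg3⟩ := hgr y
    have h1 := G.tail_rho m g y hm hg1 hg2 (t / 2) (by positivity)
    have h2 : G.fieldLaw {ψ : V → ℝ | t / 2 ≤ |ψ y - m y|}
        = (∫⁻ ψ : V → ℝ, ENNReal.ofReal (G.rho ψ))⁻¹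
          * ∫⁻ ψ in {ψ : V → ℝ | t / 2 ≤ |ψ y - m y|}, ENNReal.ofReal (G.rho ψ) := by
      unfold GG.fieldLaw
      rw [Measure.smul_apply, withDensity_apply _ (hBe y), smul_eq_mul]
    rw [h2]
    calc (∫⁻ ψ : V → ℝ, ENNReal.ofReal (G.rho ψ))⁻¹
          * ∫⁻ ψ in {ψ : V → ℝ | t / 2 ≤ |ψ y - m y|}, ENNReal.ofReal (G.rho ψ)
        ≤ (∫⁻ ψ : V → ℝ, ENNReal.ofReal (G.rho ψ))⁻¹
          * (ENNReal.ofReal (2 * Real.exp (-(t / 2) ^ 2 / (2 * g y)))
            * ∫⁻ ψ : V → ℝ, ENNReal.ofReal (G.rho ψ)) := by gcongr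
      _ = ENNReal.ofReal (2 * Real.exp (-(t / 2) ^ 2 / (2 * g y))) := by
          rw [mul_comm (ENNReal.ofReal _), ← mul_assoc,
            ENNReal.inv_mul_cancel G.lintegral_rho_ne_zero hZ, one_mul]
      _ ≤ ENNReal.ofReal (2 * Real.exp (-t ^ 2 / (8 * gr))) := by
          refine ENNReal.ofReal_le_ofReal (mul_le_mul_of_nonneg_left (Real.exp_le_exp.2 ?_) (by norm_num))
          have e : -(t / 2) ^ 2 / (2 * g y) = -(t ^ 2 / (8 * g y)) := by field_simp; ring
          have e2 : -t ^ 2 / (8 * gr) = -(t ^ 2 / (8 * gr)) := by ring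
          rw [e, e2]
          apply neg_le_neg
          gcongr
  have hBadle : G.fieldLaw Bad ≤ ENNReal.ofReal (c * (2 * Real.exp (-t ^ 2 / (8 * gr)))) := by
    calc G.fieldLaw Bad ≤ ∑ e ∈ Fz, G.fieldLaw {ψ : V → ℝ | t / 2 ≤ |ψ (oth e) - m (oth e)|} :=
          measure_biUnion_finset_le _ _
      _ ≤ ∑ e ∈ Fz, ENNReal.ofReal (2 * Real.exp (-t ^ 2 / (8 * gr))) :=
          Finset.sum_le_sum fun e _ => hBy _
      _ = ENNReal.ofReal (c * (2 * Real.exp (-t ^ 2 / (8 * gr)))) := by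
          rw [Finset.sum_const, nsmul_eq_mul, ← hcard, ENNReal.ofReal_mul (Nat.cast_nonneg _),
            ENNReal.ofReal_natCast]
  calc ∫⁻ ψ, a ψ * a (fun x => 2 * m x - ψ x) ∂G.fieldLaw
      ≤ ∫⁻ ψ, (S.indicator a ψ * ENNReal.ofReal (96 * m z ^ 2 * t ^ 2)
          + Bad.indicator (fun _ => (4 : ℝ≥0∞)) ψ) ∂G.fieldLaw := lintegral_mono hpt
    _ = (∫⁻ ψ, S.indicator a ψ ∂G.fieldLaw) * ENNReal.ofReal (96 * m z ^ 2 * t ^ 2)
          + 4 * G.fieldLaw Bad := by
        rw [lintegral_add_left ((ha.indicator hS).mul_const _), lintegral_mul_const _ (ha.indicator hS),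
          lintegral_indicator_const hBadm]
    _ ≤ (ENNReal.ofReal (16 * m z ^ 3) * (∑' env, (∫⁻ ψ, G.sk tp ψ env ∂G.fieldLaw) * KZ' env))
          * ENNReal.ofReal (96 * m z ^ 2 * t ^ 2)
          + 4 * ENNReal.ofReal (c * (2 * Real.exp (-t ^ 2 / (8 * gr)))) := by gcongr
    _ = _ := by
        have hE1 : ENNReal.ofReal (1536 * m z ^ 5 * t ^ 2)
            = ENNReal.ofReal (16 * m z ^ 3) * ENNReal.ofReal (96 * m z ^ 2 * t ^ 2) := by
          rw [← ENNReal.ofReal_mul (by positivity)]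
          congr 1
          ring
        have hE2 : ENNReal.ofReal (8 * c * Real.exp (-t ^ 2 / (8 * gr)))
            = 4 * ENNReal.ofReal (c * (2 * Real.exp (-t ^ 2 / (8 * gr)))) := by
          have e : 8 * c * Real.exp (-t ^ 2 / (8 * gr)) = 4 * (c * (2 * Real.exp (-t ^ 2 / (8 * gr)))) := by
            ring
          rw [e, ENNReal.ofReal_mul (p := 4) (by norm_num), ENNReal.ofReal_ofNat]
        rw [hE1, hE2]
        congr 1
        exact mul_right_comm _ _ _

open Classical in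
/-- conflict bound at one site -/
theorem conflict (G : GG V E H) (tp : H × List (E × Bool) × H → ι) (m : V → ℝ)
    (hm : ∀ x, m x = G.Pop m x + ∑ g, (if G.hs g = x then (G.f g : ℝ) else 0))
    (hZ : ∫⁻ ψ : V → ℝ, ENNReal.ofReal (G.rho ψ) ≠ ∞)
    {X : Type} [Countable X] (K : Env E H ι → X → ℝ≥0∞) (vis : X → Set V)
    (hvis : ∀ env x z, K env x ≠ 0 → z ∈ vis x → ∃ t, ∃ p ∈ env.1 t, ∃ i, G.site p i = z)
    (z : V) (hmz : 0 < m z) (hmz1 : 2 * m z ≤ 1) (t : ℝ) (ht : 0 < t)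
    (hm0 : ∀ y, 0 ≤ m y) (hmt : ∀ y, m y ≤ t / 2) (hF : ∑ g, (if G.hs g = z then (G.f g : ℝ) else 0) ≤ t)
    (hrow : RowLe G 0) (gr : ℝ) (hgr0 : 0 < gr)
    (hgr : ∀ y, ∃ g : V → ℝ, (∀ x, g x = G.Pop g x + (if x = y then 1 else 0)) ∧ 0 < g y
      ∧ g y ≤ gr) :
    ∫⁻ ψ, (∑' env, G.sk tp ψ env *
          (if ∑' x, K env x ≤ 2 then ∑' x, (if z ∈ vis x then K env x else 0) else 0))
        * (∑' env, G.sk tp (fun x => 2 * m x - ψ x) env *
          (if ∑' x, K env x ≤ 2 then ∑' x, (if z ∈ vis x then K env x else 0) else 0))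
        ∂G.fieldLaw
      ≤ ENNReal.ofReal (1536 * m z ^ 5 * t ^ 2)
          * (∑' env, (∫⁻ ψ, G.sk tp ψ env ∂G.fieldLaw) *
              ∑' x, (if z ∈ vis x then K env x else 0))
        + ENNReal.ofReal (8 * ((univ.filter (fun e => G.src e = z ∨ G.tgt e = z)).card : ℝ)
            * Real.exp (-t ^ 2 / (8 * gr))) := by
  have hle : ∀ env, ∑' x, (if z ∈ vis x then K env x else 0) ≤ ∑' x, K env x := fun env =>
    ENNReal.tsum_le_tsum fun x => by split_ifs; exacts [le_rfl, zero_le]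
  refine m7_core G tp m hm hZ
    (fun env => if ∑' x, K env x ≤ 2 then ∑' x, (if z ∈ vis x then K env x else 0) else 0)
    (fun env => ∑' x, (if z ∈ vis x then K env x else 0)) ?_ ?_ z ?_ hmz hmz1 t ht hm0 hmt hF hrow
    gr hgr0 hgr _ ?_
  · intro env
    show (if ∑' x, K env x ≤ 2 then ∑' x, (if z ∈ vis x then K env x else 0) else 0) ≤ 2
    split_ifs with h
    · exact (hle env).trans h
    · exact zero_le
  · intro env
    show (if ∑' x, K env x ≤ 2 then ∑' x, (if z ∈ vis x then K env x else 0) else 0) ≤ _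
    split_ifs with h
    · exact le_rfl
    · exact zero_le
  · intro env h
    have h1 : ∑' x, (if z ∈ vis x then K env x else 0) ≠ 0 := by
      intro h0
      apply h
      show (if ∑' x, K env x ≤ 2 then ∑' x, (if z ∈ vis x then K env x else 0) else 0) = 0
      rw [h0]; simp
    have h2 : ∃ x, (if z ∈ vis x then K env x else 0) ≠ 0 := by
      by_contra hcon
      push Not at hcon
      exact h1 (ENNReal.tsum_eq_zero.2 hcon)
    obtain ⟨x, hx⟩ := h2
    by_cases hz : z ∈ vis x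
    · rw [if_pos hz] at hx
      exact hvis env x z hx hz
    · rw [if_neg hz] at hx
      exact absurd rfl hx
  · congr!

end targets
end Pool.Agent.Helper41.GF
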