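import Pool.Agent.Helper41.GF.Defs

/-!
# Chains of soup paths
-/

set_option autoImplicit false

open scoped ENNReal Nat
open Finset MeasureTheory

namespace Pool.Agent.Helper41.GF

namespace GG

variable {V E H : Type} [Fintype V] [DecidableEq V] [Fintype E] [DecidableEq E] [Fintype H]
  [DecidableEq H]

/-- Green function -/
noncomputable def Gr (G : GG V E H) (x y : V) : ℝ≥0∞ := ∑' n, G.pwr n x y

/-- geometrically stopped kernel -/
noncomputable def Tb (G : GG V E H) (v : ℝ≥0∞) (x y : V) : ℝ≥0∞ :=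
  ∑' n, v * (1 - v) ^ n * G.pwr n x y

/-- contribution of one soup path `p` to a chain standing at `u`: positions `a ≤ b` on `p`,
the walk follows `p` from position `a` to position `b` -/
noncomputable def one (G : GG V E H) (v : ℝ≥0∞) (α : V → V → ℝ≥0∞)
    (p : H × List (E × Bool) × H) (u : V) (C : List (E × Bool) → V → ℝ≥0∞) : ℝ≥0∞ :=
  ∑ b ∈ range (p.2.1.length + 1), ∑ a ∈ range (b + 1),
    if G.site p a = u then v * (1 - v) ^ (b - a) * α u (G.site p b)
      * C ((p.2.1.take b).drop a) (G.site p b) else 0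

/-- total weight of the chains through `K` layers of soup paths -/
noncomputable def chain (G : GG V E H) (v : ℕ → ℝ≥0∞) (α : ℕ → V → V → ℝ≥0∞) :
    (K : ℕ) → (Fin K → List (H × List (E × Bool) × H)) → ℕ → V →
      (List (E × Bool) → ℝ≥0∞) → ℝ≥0∞
  | 0, _, _, _, F => F []
  | K + 1, ls, k, u, F => ((ls 0).map (fun p => G.one (v (k + 1)) (α k) p u
      (fun seg w => chain G v α K (fun i => ls i.succ) (k + 1) w (fun ξ => F (seg ++ ξ))))).sum

/-- the law of the walk cut at geometric marks -/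
noncomputable def law (G : GG V E H) (v : ℕ → ℝ≥0∞) (β : ℕ → V → ℝ≥0∞) :
    ℕ → ℕ → V → (List (E × Bool) → ℝ≥0∞) → ℝ≥0∞
  | 0, _, _, F => F []
  | K + 1, k, u, F => ∑' seg : List (E × Bool), G.pw u seg (G.fin u seg)
      * (v (k + 1) * (1 - v (k + 1)) ^ seg.length) * β (k + 1) (G.fin u seg)
      * law G v β K (k + 1) (G.fin u seg) (fun ξ => F (seg ++ ξ))

/-- intensity of the soup paths of layer `k` -/
noncomputable def lamk (G : GG V E H) (A : ℕ → H → Prop) [∀ k, DecidablePred (A k)] (k : ℕ)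
    (p : H × List (E × Bool) × H) : ℝ≥0∞ := if A k p.1 ∧ A (k + 1) p.2.2 then G.lam p else 0

end GG

end Pool.Agent.Helper41.GF
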