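import Pool.Agent.Helper41.GF.Defs

set_option autoImplicit false

open scoped ENNReal Nat
open Finset

namespace Pool.Agent.Helper41.GF

/-- lists of length `n + 1` -/
def pexEquiv (α : Type) (n : ℕ) : {l : List α // l.length = n + 1} ≃ α × {l : List α // l.length = n} where
  toFun l := match l with
    | ⟨[], h⟩ => absurd h (by simp)
    | ⟨a :: l, h⟩ => (a, ⟨l, by simpa using h⟩)
  invFun x := ⟨x.1 :: x.2.1, by simp [x.2.2]⟩
  left_inv := by
    rintro ⟨l, h⟩
    cases l with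
    | nil => simp at h
    | cons a l => rfl
  right_inv := by
    rintro ⟨a, l, h⟩
    rfl

/-- sum over lists of length `n` -/
noncomputable def pexS {α : Type} (lam : α → ℝ≥0∞) (n : ℕ) (F : List α → ℝ≥0∞) : ℝ≥0∞ :=
  ∑' l : {l : List α // l.length = n}, (l.1.map lam).prod * F l.1

theorem pexS_zero {α : Type} (lam : α → ℝ≥0∞) (F : List α → ℝ≥0∞) : pexS lam 0 F = F [] := by
  unfold pexS
  have : Unique {l : List α // l.length = 0} :=
    ⟨⟨⟨[], rfl⟩⟩, by rintro ⟨l, h⟩; exact Subtype.ext (List.length_eq_zero_iff.1 h)⟩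
  rw [tsum_eq_single (⟨[], rfl⟩ : {l : List α // l.length = 0})]
  · simp
  · rintro ⟨l, h⟩ hne
    exact absurd (Subtype.ext (List.length_eq_zero_iff.1 h)) hne

theorem pexS_succ {α : Type} (lam : α → ℝ≥0∞) (n : ℕ) (F : List α → ℝ≥0∞) :
    pexS lam (n + 1) F = ∑' a, lam a * pexS lam n (fun l => F (a :: l)) := by
  unfold pexS
  rw [← (pexEquiv α n).symm.tsum_eq, ENNReal.tsum_prod']
  refine tsum_congr fun a => ?_
  rw [← ENNReal.tsum_mul_left]
  refine tsum_congr fun l => ?_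
  show ((a :: l.1).map lam).prod * F (a :: l.1) = _
  rw [List.map_cons, List.prod_cons, mul_assoc]

theorem pexS_add {α : Type} (lam : α → ℝ≥0∞) (n : ℕ) (F G : List α → ℝ≥0∞) :
    pexS lam n (fun l => F l + G l) = pexS lam n F + pexS lam n G := by
  unfold pexS
  rw [← ENNReal.tsum_add]
  exact tsum_congr fun l => mul_add _ _ _

theorem pexS_mul {α : Type} (lam : α → ℝ≥0∞) (n : ℕ) (c : ℝ≥0∞) (F : List α → ℝ≥0∞) :
    pexS lam n (fun l => c * F l) = c * pexS lam n F := by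
  unfold pexS
  rw [← ENNReal.tsum_mul_left]
  exact tsum_congr fun l => by ring

theorem pex_eq {α : Type} (lam : α → ℝ≥0∞) (F : List α → ℝ≥0∞) :
    PEx lam F = ∑' n : ℕ, pexS lam n F / (n ! : ℝ≥0∞) := by
  unfold PEx
  rw [← (Equiv.sigmaFiberEquiv (List.length : List α → ℕ)).tsum_eq, ENNReal.tsum_sigma']
  refine tsum_congr fun n => ?_
  unfold pexS
  rw [ENNReal.div_eq_inv_mul, ← ENNReal.tsum_mul_left]
  refine tsum_congr fun l => ?_
  have h1 : (Equiv.sigmaFiberEquiv (List.length : List α → ℕ)) ⟨n, l⟩ = l.1 := rfl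
  rw [h1, l.2, ENNReal.div_eq_inv_mul, mul_assoc]

theorem pexS_one {α : Type} (lam : α → ℝ≥0∞) (n : ℕ) :
    pexS lam n (fun _ => 1) = (∑' a, lam a) ^ n := by
  induction n with
  | zero => rw [pexS_zero, pow_zero]
  | succ n ih => rw [pexS_succ, ih, ENNReal.tsum_mul_right, pow_succ, mul_comm]

theorem pexS_const {α : Type} (lam : α → ℝ≥0∞) (n : ℕ) (c : ℝ≥0∞) :
    pexS lam n (fun _ => c) = c * (∑' a, lam a) ^ n := by
  have := pexS_mul lam n c (fun _ => 1)
  rw [pexS_one] at this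
  rw [← this]
  simp only [mul_one]

theorem pexS_sum {α : Type} (lam : α → ℝ≥0∞) (A : α → ℝ≥0∞) (n : ℕ) :
    pexS lam (n + 1) (fun l => (l.map A).sum) =
      (∑' a, lam a * A a) * (∑' a, lam a) ^ n + (∑' a, lam a) * pexS lam n (fun l => (l.map A).sum) := by
  rw [pexS_succ, ← ENNReal.tsum_mul_right, ← ENNReal.tsum_mul_right, ← ENNReal.tsum_add]
  refine tsum_congr fun a => ?_
  simp only [List.map_cons, List.sum_cons]
  rw [pexS_add, pexS_const]; ring

theorem pexS_sum' {α : Type} (lam : α → ℝ≥0∞) (A : α → ℝ≥0∞) (n : ℕ) :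
    pexS lam (n + 1) (fun l => (l.map A).sum) =
      ((n + 1 : ℕ) : ℝ≥0∞) * ((∑' a, lam a * A a) * (∑' a, lam a) ^ n) := by
  induction n with
  | zero => rw [pexS_sum, pexS_zero]; simp
  | succ n ih => rw [pexS_sum, ih]; push_cast; ring

theorem pexS_prod {α : Type} (lam : α → ℝ≥0∞) (A B : α → ℝ≥0∞) (n : ℕ) :
    pexS lam (n + 1) (fun l => (l.map A).sum * (l.map B).sum) =
      (∑' a, lam a * (A a * B a)) * (∑' a, lam a) ^ n
        + (∑' a, lam a * A a) * pexS lam n (fun l => (l.map B).sum)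
        + (∑' a, lam a * B a) * pexS lam n (fun l => (l.map A).sum)
        + (∑' a, lam a) * pexS lam n (fun l => (l.map A).sum * (l.map B).sum) := by
  rw [pexS_succ, ← ENNReal.tsum_mul_right, ← ENNReal.tsum_mul_right, ← ENNReal.tsum_mul_right,
    ← ENNReal.tsum_mul_right, ← ENNReal.tsum_add, ← ENNReal.tsum_add, ← ENNReal.tsum_add]
  refine tsum_congr fun a => ?_
  simp only [List.map_cons, List.sum_cons]
  have h1 : (fun l : List α => (A a + (l.map A).sum) * (B a + (l.map B).sum)) =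
      fun l => ((A a * B a + A a * (l.map B).sum) + B a * (l.map A).sum)
        + (l.map A).sum * (l.map B).sum := by
    funext l; ring
  rw [h1, pexS_add, pexS_add, pexS_add, pexS_const, pexS_mul, pexS_mul]; ring

theorem pexS_prod' {α : Type} (lam : α → ℝ≥0∞) (A B : α → ℝ≥0∞) (n : ℕ) :
    pexS lam (n + 2) (fun l => (l.map A).sum * (l.map B).sum) =
      ((n + 2 : ℕ) : ℝ≥0∞) * ((∑' a, lam a * (A a * B a)) * (∑' a, lam a) ^ (n + 1)) +
      ((n + 2 : ℕ) : ℝ≥0∞) * ((n + 1 : ℕ) : ℝ≥0∞) *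
        ((∑' a, lam a * A a) * (∑' a, lam a * B a) * (∑' a, lam a) ^ n) := by
  induction n with
  | zero =>
    rw [pexS_prod, pexS_sum', pexS_sum', pexS_prod, pexS_zero, pexS_zero, pexS_zero]
    simp
    ring
  | succ n ih =>
    rw [pexS_prod, ih, pexS_sum', pexS_sum']; push_cast; ring

theorem pex_fact (n : ℕ) (x : ℝ≥0∞) :
    ((n + 1 : ℕ) : ℝ≥0∞) * x / (((n + 1)! : ℕ) : ℝ≥0∞) = x / ((n ! : ℕ) : ℝ≥0∞) := by
  rw [Nat.factorial_succ, Nat.cast_mul]
  exact ENNReal.mul_div_mul_left _ _ (by exact_mod_cast Nat.succ_ne_zero n)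
    (ENNReal.natCast_ne_top _)

theorem PEx_one {α : Type} (lam : α → ℝ≥0∞) :
    PEx lam (fun _ => 1) = ∑' n : ℕ, (∑' a, lam a) ^ n / (n ! : ℝ≥0∞) := by
  rw [pex_eq]
  exact tsum_congr fun n => by rw [pexS_one]

theorem PEx_one_ne_top {α : Type} (lam : α → ℝ≥0∞) (h : ∑' a, lam a ≠ ∞) :
    PEx lam (fun _ => 1) ≠ ∞ := by
  rw [PEx_one]
  have h1 : ∀ n : ℕ, (∑' a, lam a) ^ n / (n ! : ℝ≥0∞) =
      ENNReal.ofReal ((∑' a, lam a).toReal ^ n / (n ! : ℝ)) := by
    intro n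
    rw [ENNReal.ofReal_div_of_pos (by exact_mod_cast Nat.factorial_pos n),
      ENNReal.ofReal_pow ENNReal.toReal_nonneg, ENNReal.ofReal_toReal h, ENNReal.ofReal_natCast]
  simp only [h1]
  rw [← ENNReal.ofReal_tsum_of_nonneg (fun n => by positivity)
    (Real.summable_pow_div_factorial _)]
  exact ENNReal.ofReal_ne_top

theorem PEx_one_ne_zero {α : Type} (lam : α → ℝ≥0∞) :
    PEx lam (fun _ => 1) ≠ 0 := by
  rw [PEx_one]
  have h1 := ENNReal.le_tsum (f := fun n : ℕ => (∑' a, lam a) ^ n / (n ! : ℝ≥0∞)) 0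
  intro h
  rw [h] at h1
  simp at h1

theorem PEx_sum {α : Type} (lam : α → ℝ≥0∞) (A : α → ℝ≥0∞) :
    PEx lam (fun l => (l.map A).sum) = (∑' a, lam a * A a) * PEx lam (fun _ => 1) := by
  rw [PEx_one, pex_eq, tsum_eq_zero_add' ENNReal.summable, ← ENNReal.tsum_mul_left, pexS_zero]
  simp only [List.map_nil, List.sum_nil, ENNReal.zero_div, zero_add]
  refine tsum_congr fun n => ?_
  rw [pexS_sum', pex_fact, mul_div_assoc]

theorem PEx_sum_mul {α : Type} (lam : α → ℝ≥0∞) (A B : α → ℝ≥0∞) :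
    PEx lam (fun l => (l.map A).sum * (l.map B).sum)
      = ((∑' a, lam a * A a) * (∑' a, lam a * B a) + ∑' a, lam a * (A a * B a))
          * PEx lam (fun _ => 1) := by
  have h0 : pexS lam 1 (fun l => (l.map A).sum * (l.map B).sum) = ∑' a, lam a * (A a * B a) := by
    rw [pexS_prod, pexS_zero, pexS_zero, pexS_zero]; simp
  rw [add_mul]
  rw [PEx_one, pex_eq, tsum_eq_zero_add' ENNReal.summable, tsum_eq_zero_add' ENNReal.summable,
    pexS_zero]
  simp only [List.map_nil, List.sum_nil, mul_zero, ENNReal.zero_div, zero_add]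
  rw [h0]
  have e1 : (∑' a, lam a * (A a * B a)) * ∑' n : ℕ, (∑' a, lam a) ^ n / (n ! : ℝ≥0∞) =
      (∑' a, lam a * (A a * B a)) / ((1 ! : ℕ) : ℝ≥0∞) +
        ∑' n : ℕ, (∑' a, lam a * (A a * B a)) * ((∑' a, lam a) ^ (n + 1) / ((n + 1)! : ℝ≥0∞)) := by
    rw [tsum_eq_zero_add' ENNReal.summable, mul_add, ENNReal.tsum_mul_left]
    simp
  rw [e1, ← ENNReal.tsum_mul_left, add_left_comm, ← ENNReal.tsum_add]
  congr 1
  refine tsum_congr fun n => ?_
  rw [pexS_prod', ENNReal.add_div, mul_assoc ((n + 2 : ℕ) : ℝ≥0∞), pex_fact (n + 1),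
    pex_fact (n + 1), pex_fact n, mul_div_assoc, mul_div_assoc, add_comm]

end Pool.Agent.Helper41.GF
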