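import Pool.Agent.Helper41.GF.KerDefs
import Pool.Agent.Helper41.GF.ChainDefs
import Pool.Agent.Helper41.GF.Poisson

/-!
# Definitions: finite weighted graphs with ghost edges, currents, signs, ghost paths
-/

set_option autoImplicit false

open scoped ENNReal Nat
open Finset MeasureTheory

namespace Pool.Agent.Helper41.GF


/-! ## TARGETS -/

section targets

variable {V E H : Type} [Fintype V] [DecidableEq V] [Fintype E] [DecidableEq E] [Fintype H]
  [DecidableEq H]

theorem tsum_pi_prod {L : Type} : ∀ (K : ℕ) (W : Fin K → L → ℝ≥0∞),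
    ∑' ls : Fin K → L, ∏ i, W i (ls i) = ∏ i, ∑' l, W i l
  | 0, W => by
    rw [tsum_eq_single (fun i => i.elim0)]
    · simp
    · intro b hb
      exact absurd (funext fun i => i.elim0) hb
  | K + 1, W => by
    rw [← (Fin.consEquiv (fun _ : Fin (K + 1) => L)).tsum_eq, ENNReal.tsum_prod', Fin.prod_univ_succ,
      ← tsum_pi_prod K (fun i => W i.succ), ← ENNReal.tsum_mul_right]
    refine tsum_congr fun a => ?_
    rw [← ENNReal.tsum_mul_left]
    refine tsum_congr fun b => ?_
    rw [Fin.prod_univ_succ]
    rfl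

def optEqv (K : ℕ) (L : Type) : (Option (Fin K) → L) ≃ L × (Fin K → L) where
  toFun x := (x none, fun i => x (some i))
  invFun p := fun o => o.elim p.1 p.2
  left_inv x := by
    funext o
    cases o <;> rfl
  right_inv p := rfl

theorem env_key {K : ℕ} (G : GG V E H) (A : ℕ → H → Prop) [∀ k, DecidablePred (A k)]
    (tp : H × List (E × Bool) × H → Option (Fin K))
    (htp : ∀ (i : Fin K) p, tp p = some i ↔ (A (0 + i) p.1 ∧ A (0 + i + 1) p.2.2))
    (F : (Fin K → List (H × List (E × Bool) × H)) → ℝ≥0∞) :
    (∑' env : Env E H (Option (Fin K)), G.ew tp env * F (fun i => env.1 (some i)))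
      = ((∑' l, lw G.lam tp none l) * ∑' n : E → ℕ, G.Phi Ga (Sum.elim n 0)) *
        ∑' ls : Fin K → List (H × List (E × Bool) × H),
          (∏ i : Fin K, ((ls i).map (G.lamk A (0 + i))).prod / (((ls i).length)! : ℝ≥0∞))
            * F ls := by
  have hlw : ∀ (i : Fin K) l, lw G.lam tp (some i) l
      = (l.map (G.lamk A (0 + i))).prod / ((l.length)! : ℝ≥0∞) := by
    intro i l
    unfold lw
    have : (fun p => if tp p = some i then G.lam p else 0) = G.lamk A (0 + i) := by
      funext p
      unfold GG.lamk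
      by_cases h : tp p = some i
      · rw [if_pos h, if_pos ((htp i p).1 h)]
      · rw [if_neg h, if_neg (fun h2 => h ((htp i p).2 h2))]
    rw [this]
  rw [ENNReal.tsum_prod']
  have h1 : ∀ x : Option (Fin K) → List (H × List (E × Bool) × H),
      (∑' n : E → ℕ, G.ew tp (x, n) * F (fun i => x (some i)))
      = (lw G.lam tp none (x none) * ((∏ i : Fin K, ((x (some i)).map (G.lamk A (0 + i))).prod /
          (((x (some i)).length)! : ℝ≥0∞)) * F (fun i => x (some i)))) *
          ∑' n : E → ℕ, G.Phi Ga (Sum.elim n 0) := by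
    intro x
    rw [← ENNReal.tsum_mul_left]
    refine tsum_congr fun n => ?_
    unfold GG.ew
    rw [Fintype.prod_option]
    simp only [hlw]
    ring
  have h2 : (∑' x : Option (Fin K) → List (H × List (E × Bool) × H),
      (lw G.lam tp none (x none) * ((∏ i : Fin K, ((x (some i)).map (G.lamk A (0 + i))).prod /
          (((x (some i)).length)! : ℝ≥0∞)) * F (fun i => x (some i)))))
      = (∑' l, lw G.lam tp none l) * ∑' ls : Fin K → List (H × List (E × Bool) × H),
          (∏ i : Fin K, ((ls i).map (G.lamk A (0 + i))).prod / (((ls i).length)! : ℝ≥0∞))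
            * F ls := by
    rw [← (optEqv K (List (H × List (E × Bool) × H))).symm.tsum_eq, ENNReal.tsum_prod',
      ← ENNReal.tsum_mul_right]
    refine tsum_congr fun a => ?_
    rw [← ENNReal.tsum_mul_left]
    rfl
  calc _ = ∑' x : Option (Fin K) → List (H × List (E × Bool) × H),
      (lw G.lam tp none (x none) * ((∏ i : Fin K, ((x (some i)).map (G.lamk A (0 + i))).prod /
          (((x (some i)).length)! : ℝ≥0∞)) * F (fun i => x (some i)))) *
          ∑' n : E → ℕ, G.Phi Ga (Sum.elim n 0) := tsum_congr h1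
    _ = _ := by
      rw [ENNReal.tsum_mul_right, h2]
      ring

/-- marginal of the layers used by the chains -/
theorem env_marg (G : GG V E H) (A : ℕ → H → Prop) [∀ k, DecidablePred (A k)] (K : ℕ)
    (tp : H × List (E × Bool) × H → Option (Fin K))
    (htp : ∀ (i : Fin K) p, tp p = some i ↔ (A (0 + i) p.1 ∧ A (0 + i + 1) p.2.2))
    (hew : ∑' env : Env E H (Option (Fin K)), G.ew tp env ≠ ∞)
    (hew0 : ∑' env : Env E H (Option (Fin K)), G.ew tp env ≠ 0)
    (F : (Fin K → List (H × List (E × Bool) × H)) → ℝ≥0∞) :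
    (∑' env : Env E H (Option (Fin K)),
        G.ew tp env / (∑' env' : Env E H (Option (Fin K)), G.ew tp env')
          * F (fun i => env.1 (some i)))
        * (∏ i : Fin K, PEx (G.lamk A (0 + i)) (fun _ => 1))
      = ∑' ls : Fin K → List (H × List (E × Bool) × H),
          (∏ i : Fin K, ((ls i).map (G.lamk A (0 + i))).prod / (((ls i).length)! : ℝ≥0∞))
            * F ls := by
  have hP : (∏ i : Fin K, PEx (G.lamk A (0 + i)) (fun _ => 1))
      = ∑' ls : Fin K → List (H × List (E × Bool) × H),
          (∏ i : Fin K, ((ls i).map (G.lamk A (0 + i))).prod / (((ls i).length)! : ℝ≥0∞))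
            * (fun _ => (1 : ℝ≥0∞)) ls := by
    simp only [mul_one, PEx]
    exact (tsum_pi_prod K (fun i (l : List (H × List (E × Bool) × H)) => (l.map (G.lamk A (0 + i))).prod /
      ((l.length)! : ℝ≥0∞))).symm
  have h1 := env_key G A tp htp (fun _ => 1)
  have hF := env_key G A tp htp F
  rw [← hP] at h1
  simp only [mul_one] at h1
  set Z := ∑' env : Env E H (Option (Fin K)), G.ew tp env with hZ
  set P := ∏ i : Fin K, PEx (G.lamk A (0 + i)) (fun _ => 1) with hPdef
  set R := (∑' l, lw G.lam tp none l) * ∑' n : E → ℕ, G.Phi Ga (Sum.elim n 0) with hR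
  have h3 : (∑' env : Env E H (Option (Fin K)), G.ew tp env / Z * F (fun i => env.1 (some i)))
      = Z⁻¹ * ∑' env : Env E H (Option (Fin K)), G.ew tp env * F (fun i => env.1 (some i)) := by
    rw [← ENNReal.tsum_mul_left]
    refine tsum_congr fun env => ?_
    rw [ENNReal.div_eq_inv_mul, mul_assoc]
  rw [h3, hF]
  set S := ∑' ls : Fin K → List (H × List (E × Bool) × H),
          (∏ i : Fin K, ((ls i).map (G.lamk A (0 + i))).prod / (((ls i).length)! : ℝ≥0∞))
            * F ls with hS
  calc Z⁻¹ * (R * S) * P = Z⁻¹ * (R * P) * S := by ring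
    _ = Z⁻¹ * Z * S := by rw [h1]
    _ = S := by rw [ENNReal.inv_mul_cancel hew0 hew, one_mul]

end targets

end Pool.Agent.Helper41.GF
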