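import Pool.Agent.Helper41.GF.ParDefs
import Pool.Agent.Helper41.GF.Poisson
import Pool.Agent.Helper41.GF.Marks

/-!
# Definitions: finite weighted graphs with ghost edges, currents, signs, ghost paths
-/

set_option autoImplicit false

open scoped ENNReal Nat
open Finset MeasureTheory

namespace Pool.Agent.Helper41.GF


/-! ## TARGET -/

section targets

variable {V E H : Type} [Fintype V] [DecidableEq V] [Fintype E] [DecidableEq E] [Fintype H]
  [DecidableEq H]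

/-- weight of a pair of positions on a path -/
noncomputable def ccq (G : GG V E H) (v : ℝ≥0∞) (α : V → V → ℝ≥0∞) (ν : V → ℝ≥0∞)
    (p : H × List (E × Bool) × H) (a b : ℕ) : ℝ≥0∞ :=
  ν (G.site p a) * (v * (1 - v) ^ (b - a) * α (G.site p a) (G.site p b))

/-- one layer pushed through a path -/
noncomputable def tpw (G : GG V E H) (v : ℝ≥0∞) (α : V → V → ℝ≥0∞) (ν : V → ℝ≥0∞)
    (p : H × List (E × Bool) × H) (w : V) : ℝ≥0∞ :=
  ∑ b ∈ range (p.2.1.length + 1), ∑ a ∈ range (b + 1),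
    if G.site p b = w then ccq G v α ν p a b else 0

theorem sum_tpw (G : GG V E H) (v : ℝ≥0∞) (α : V → V → ℝ≥0∞) (ν : V → ℝ≥0∞)
    (p : H × List (E × Bool) × H) (D : V → ℝ≥0∞) :
    ∑ w, tpw G v α ν p w * D w = ∑ b ∈ range (p.2.1.length + 1), ∑ a ∈ range (b + 1),
      ccq G v α ν p a b * D (G.site p b) := by
  unfold tpw
  simp only [Finset.sum_mul]
  rw [Finset.sum_comm]
  refine Finset.sum_congr rfl fun b _ => ?_
  rw [Finset.sum_comm]
  refine Finset.sum_congr rfl fun a _ => ?_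
  simp only [ite_mul, zero_mul]
  rw [Finset.sum_ite_eq, if_pos (Finset.mem_univ _)]

theorem sum_one (G : GG V E H) (v : ℝ≥0∞) (α : V → V → ℝ≥0∞) (ν : V → ℝ≥0∞)
    (p : H × List (E × Bool) × H) (D : V → ℝ≥0∞) :
    ∑ u, ν u * G.one v α p u (fun _ w => D w) = ∑ w, tpw G v α ν p w * D w := by
  rw [sum_tpw]
  unfold GG.one
  simp only [Finset.mul_sum]
  rw [Finset.sum_comm]
  refine Finset.sum_congr rfl fun b _ => ?_
  rw [Finset.sum_comm]
  refine Finset.sum_congr rfl fun a _ => ?_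
  simp only [mul_ite, mul_zero]
  rw [Finset.sum_ite_eq, if_pos (Finset.mem_univ _), ccq]
  ring

theorem list_lin (G : GG V E H) (v : ℝ≥0∞) (α : V → V → ℝ≥0∞) (ν : V → ℝ≥0∞)
    (D : V → ℝ≥0∞) (l : List (H × List (E × Bool) × H)) :
    ∑ u, ν u * (l.map (fun p => G.one v α p u (fun _ w => D w))).sum
      = ∑ w, (l.map (fun p => tpw G v α ν p w)).sum * D w := by
  induction l with
  | nil => simp
  | cons p l ih =>
    simp only [List.map_cons, List.sum_cons, mul_add, add_mul, Finset.sum_add_distrib, ih, sum_one]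

theorem pw_fin (G : GG V E H) (x : V) (l : List (E × Bool)) (y : V) :
    G.pw x l y = if G.fin x l = y then G.pw x l (G.fin x l) else 0 := by
  induction l generalizing x with
  | nil => simp [GG.pw, GG.fin]
  | cons d l ih =>
    simp only [GG.pw, GG.fin]
    rw [ih (G.dt d)]
    split_ifs <;> simp_all

theorem Tb_eq (G : GG V E H) (v : ℝ≥0∞) (x y : V) :
    ∑' l : List (E × Bool), G.pw x l y * (v * (1 - v) ^ l.length) = G.Tb v x y := by
  unfold GG.Tb GG.pwr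
  simp only [← ENNReal.tsum_mul_left]
  rw [ENNReal.tsum_comm]
  refine tsum_congr fun l => ?_
  rw [tsum_eq_single l.length]
  · rw [if_pos rfl]
    ring
  · intro n hn
    rw [if_neg (Ne.symm hn), mul_zero]

theorem Gr_comm_c (G : GG V E H) (x y : V) : G.Gr x y = G.Gr y x := by
  unfold GG.Gr
  exact tsum_congr fun n => G.pwr_comm n x y

/-! ### combinatorics of quadruples -/

/-- box sum -/
noncomputable def bxq (n : ℕ) (F : ℕ → ℕ → ℕ → ℕ → ℝ≥0∞) : ℝ≥0∞ :=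
  ∑ a ∈ range n, ∑ b ∈ range n, ∑ c ∈ range n, ∑ d ∈ range n, F a b c d

theorem bxq_12 (n : ℕ) (F : ℕ → ℕ → ℕ → ℕ → ℝ≥0∞) : bxq n (fun a b c d => F b a c d) = bxq n F := by
  unfold bxq
  rw [Finset.sum_comm]

theorem bxq_23 (n : ℕ) (F : ℕ → ℕ → ℕ → ℕ → ℝ≥0∞) : bxq n (fun a b c d => F a c b d) = bxq n F := by
  unfold bxq
  refine Finset.sum_congr rfl fun a _ => ?_
  rw [Finset.sum_comm]

theorem bxq_34 (n : ℕ) (F : ℕ → ℕ → ℕ → ℕ → ℝ≥0∞) : bxq n (fun a b c d => F a b d c) = bxq n F := by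
  unfold bxq
  refine Finset.sum_congr rfl fun a _ => Finset.sum_congr rfl fun b _ => ?_
  rw [Finset.sum_comm]

theorem bxq_mono (n : ℕ) {F G : ℕ → ℕ → ℕ → ℕ → ℝ≥0∞} (h : ∀ a b c d, F a b c d ≤ G a b c d) :
    bxq n F ≤ bxq n G := by
  unfold bxq
  exact Finset.sum_le_sum fun a _ => Finset.sum_le_sum fun b _ => Finset.sum_le_sum fun c _ =>
    Finset.sum_le_sum fun d _ => h a b c d

theorem bxq_add (n : ℕ) (F G : ℕ → ℕ → ℕ → ℕ → ℝ≥0∞) :
    bxq n (fun a b c d => F a b c d + G a b c d) = bxq n F + bxq n G := by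
  unfold bxq
  simp only [Finset.sum_add_distrib]

theorem sum_range_le {n b : ℕ} (hb : b ∈ range n) (F : ℕ → ℝ≥0∞) :
    ∑ a ∈ range (b + 1), F a = ∑ a ∈ range n, if a ≤ b then F a else 0 := by
  rw [← Finset.sum_filter]
  refine Finset.sum_congr ?_ fun _ _ => rfl
  ext a
  rw [mem_range] at hb
  simp only [mem_range, mem_filter]
  omega

theorem pair_eq (n : ℕ) (g : ℕ → ℕ → ℕ → ℕ → ℝ≥0∞) :
    ∑ b ∈ range n, ∑ a ∈ range (b + 1), ∑ b' ∈ range n, ∑ a' ∈ range (b' + 1), g a b a' b'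
      = bxq n (fun b a b' a' => if a ≤ b ∧ a' ≤ b' then g a b a' b' else 0) := by
  unfold bxq
  refine Finset.sum_congr rfl fun b hb => ?_
  rw [sum_range_le hb]
  refine Finset.sum_congr rfl fun a _ => ?_
  by_cases hab : a ≤ b
  · rw [if_pos hab]
    refine Finset.sum_congr rfl fun b' hb' => ?_
    rw [sum_range_le hb']
    refine Finset.sum_congr rfl fun a' _ => ?_
    simp [hab]
  · rw [if_neg hab]
    simp [hab]

theorem ord_eq (n : ℕ) (g : ℕ → ℕ → ℕ → ℕ → ℝ≥0∞) :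
    ∑ i4 ∈ range n, ∑ i3 ∈ range (i4 + 1), ∑ i2 ∈ range (i3 + 1), ∑ i1 ∈ range (i2 + 1),
        g i1 i2 i3 i4
      = bxq n (fun i4 i3 i2 i1 => if i1 ≤ i2 ∧ i2 ≤ i3 ∧ i3 ≤ i4 then g i1 i2 i3 i4 else 0) := by
  unfold bxq
  refine Finset.sum_congr rfl fun i4 h4 => ?_
  rw [sum_range_le h4]
  refine Finset.sum_congr rfl fun i3 h3 => ?_
  by_cases h34 : i3 ≤ i4
  · rw [if_pos h34, sum_range_le h3]
    refine Finset.sum_congr rfl fun i2 h2 => ?_
    by_cases h23 : i2 ≤ i3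
    · rw [if_pos h23, sum_range_le h2]
      refine Finset.sum_congr rfl fun i1 _ => ?_
      simp [h34, h23]
    · rw [if_neg h23]
      simp [h23]
  · rw [if_neg h34]
    simp [h34]

theorem quad_le (n : ℕ) (g : ℕ → ℕ → ℕ → ℕ → ℝ≥0∞) (hg : ∀ a b a' b', g a b a' b' = g a' b' a b) :
    ∑ b ∈ range n, ∑ a ∈ range (b + 1), ∑ b' ∈ range n, ∑ a' ∈ range (b' + 1), g a b a' b'
      ≤ 2 * (∑ i4 ∈ range n, ∑ i3 ∈ range (i4 + 1), ∑ i2 ∈ range (i3 + 1), ∑ i1 ∈ range (i2 + 1),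
          g i1 i2 i3 i4)
        + 2 * (∑ i4 ∈ range n, ∑ i3 ∈ range (i4 + 1), ∑ i2 ∈ range (i3 + 1),
            ∑ i1 ∈ range (i2 + 1), g i1 i3 i2 i4)
        + 2 * (∑ i4 ∈ range n, ∑ i3 ∈ range (i4 + 1), ∑ i2 ∈ range (i3 + 1),
            ∑ i1 ∈ range (i2 + 1), g i1 i4 i2 i3) := by
  rw [pair_eq, ord_eq n g, ord_eq n (fun i1 i2 i3 i4 => g i1 i3 i2 i4),
    ord_eq n (fun i1 i2 i3 i4 => g i1 i4 i2 i3)]
  set R1 : ℕ → ℕ → ℕ → ℕ → ℝ≥0∞ :=
    fun i4 i3 i2 i1 => if i1 ≤ i2 ∧ i2 ≤ i3 ∧ i3 ≤ i4 then g i1 i2 i3 i4 else 0 with hR1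
  set R2 : ℕ → ℕ → ℕ → ℕ → ℝ≥0∞ :=
    fun i4 i3 i2 i1 => if i1 ≤ i2 ∧ i2 ≤ i3 ∧ i3 ≤ i4 then g i1 i3 i2 i4 else 0 with hR2
  set R3 : ℕ → ℕ → ℕ → ℕ → ℝ≥0∞ :=
    fun i4 i3 i2 i1 => if i1 ≤ i2 ∧ i2 ≤ i3 ∧ i3 ≤ i4 then g i1 i4 i2 i3 else 0 with hR3
  -- reorderings
  have e1 : bxq n (fun b a b' a' => R1 b' a' b a) = bxq n R1 := by
    rw [← bxq_23 n R1, ← bxq_12 n (fun a b c d => R1 a c b d),
      ← bxq_34 n (fun a b c d => R1 b c a d), ← bxq_23 n (fun a b c d => R1 b d a c)]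
  have e1' : bxq n (fun b a b' a' => R1 b a b' a') = bxq n R1 := rfl
  have e2 : bxq n (fun b a b' a' => R2 b' b a' a) = bxq n R2 := by
    rw [← bxq_12 n R2, ← bxq_34 n (fun a b c d => R2 b a c d),
      ← bxq_23 n (fun a b c d => R2 b a d c), ← bxq_34 n (fun a b c d => R2 c a d b)]
  have e2' : bxq n (fun b a b' a' => R2 b b' a a') = bxq n R2 := by
    rw [← bxq_23 n R2]
  have e3 : bxq n (fun b a b' a' => R3 b b' a' a) = bxq n R3 := by
    rw [← bxq_34 n R3, ← bxq_23 n (fun a b c d => R3 a b d c),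
      ← bxq_34 n (fun a b c d => R3 a c d b)]
  have e3' : bxq n (fun b a b' a' => R3 b' b a a') = bxq n R3 := by
    rw [← bxq_12 n R3, ← bxq_23 n (fun a b c d => R3 b a c d)]
  calc bxq n (fun b a b' a' => if a ≤ b ∧ a' ≤ b' then g a b a' b' else 0)
      ≤ bxq n (fun b a b' a' => (R1 b' a' b a + R1 b a b' a') + (R2 b' b a' a + R2 b b' a a')
          + (R3 b b' a' a + R3 b' b a a')) := by
        refine bxq_mono n fun b a b' a' => ?_
        by_cases hP : a ≤ b ∧ a' ≤ b'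
        · rw [if_pos hP]
          obtain ⟨hab, hab'⟩ := hP
          by_cases c1 : b ≤ a'
          · have : R1 b' a' b a = g a b a' b' := by
              simp only [hR1]
              rw [if_pos ⟨hab, c1, hab'⟩]
            rw [← this]
            exact le_add_right (le_add_right (le_add_right le_rfl))
          by_cases c2 : b' ≤ a
          · have : R1 b a b' a' = g a b a' b' := by
              simp only [hR1]
              rw [if_pos ⟨hab', c2, hab⟩, hg]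
            rw [← this]
            exact le_add_right (le_add_right (le_add_left le_rfl))
          by_cases c3 : a ≤ a'
          · by_cases c4 : b ≤ b'
            · have : R2 b' b a' a = g a b a' b' := by
                simp only [hR2]
                rw [if_pos ⟨c3, by omega, c4⟩]
              rw [← this]
              exact le_add_right (le_add_left (le_add_right le_rfl))
            · have : R3 b b' a' a = g a b a' b' := by
                simp only [hR3]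
                rw [if_pos ⟨c3, hab', by omega⟩]
              rw [← this]
              exact le_add_left (le_add_right le_rfl)
          · by_cases c4 : b ≤ b'
            · have : R3 b' b a a' = g a b a' b' := by
                simp only [hR3]
                rw [if_pos ⟨by omega, hab, c4⟩, hg]
              rw [← this]
              exact le_add_left (le_add_left le_rfl)
            · have : R2 b b' a a' = g a b a' b' := by
                simp only [hR2]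
                rw [if_pos ⟨by omega, by omega, by omega⟩, hg]
              rw [← this]
              exact le_add_right (le_add_left (le_add_left le_rfl))
        · rw [if_neg hP]
          exact zero_le
    _ = 2 * bxq n R1 + 2 * bxq n R2 + 2 * bxq n R3 := by
        rw [bxq_add n (fun b a b' a' => (R1 b' a' b a + R1 b a b' a') + (R2 b' b a' a + R2 b b' a a'))
          (fun b a b' a' => R3 b b' a' a + R3 b' b a a'),
          bxq_add n (fun b a b' a' => R1 b' a' b a + R1 b a b' a')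
            (fun b a b' a' => R2 b' b a' a + R2 b b' a a'),
          bxq_add n (fun b a b' a' => R1 b' a' b a) (fun b a b' a' => R1 b a b' a'),
          bxq_add n (fun b a b' a' => R2 b' b a' a) (fun b a b' a' => R2 b b' a a'),
          bxq_add n (fun b a b' a' => R3 b b' a' a) (fun b a b' a' => R3 b' b a a'),
          e1, e1', e2, e2', e3, e3', two_mul, two_mul, two_mul]

/-! ### constants -/

theorem half_cancel {a b c : ℝ≥0∞} (ha : a ≠ 0) (ha' : a ≠ ∞) (hb : b ≠ 0) (hb' : b ≠ ∞) :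
    2⁻¹ * a * b * (2 * c / (a * b)) = c := by
  have h1 : (2:ℝ≥0∞)⁻¹ * 2 = 1 := ENNReal.inv_mul_cancel two_ne_zero ENNReal.ofNat_ne_top
  have h2 : (a * b) * (a * b)⁻¹ = 1 :=
    ENNReal.mul_inv_cancel (mul_ne_zero ha hb) (ENNReal.mul_ne_top ha' hb')
  calc 2⁻¹ * a * b * (2 * c / (a * b)) = (2⁻¹ * 2) * ((a * b) * (a * b)⁻¹) * c := by
        rw [div_eq_mul_inv]; ring
    _ = c := by rw [h1, h2, one_mul, one_mul]

theorem cst_gen {m1x m2x' m1z m2y by' bxq' ν q : ℝ≥0∞} (h1 : m1x ≠ 0) (h1' : m1x ≠ ∞)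
    (h2 : m2x' ≠ 0) (h2' : m2x' ≠ ∞) (hby : by' = 0 ∨ by' = 1) (hbx : bxq' ≤ 1)
    (hq : ν ≠ 0 → by' ≠ 0 → m1z⁻¹ * m2y⁻¹ ≤ q) :
    2⁻¹ * m1x * m2x' * ((2 * m1x⁻¹ * m2x'⁻¹) * (2 * by' * bxq' * (m1z⁻¹ * m2y⁻¹))) * ν ≤ 2 * q * ν := by
  have e1 : (2:ℝ≥0∞)⁻¹ * 2 = 1 := ENNReal.inv_mul_cancel two_ne_zero ENNReal.ofNat_ne_top
  have e2 : m1x * m1x⁻¹ = 1 := ENNReal.mul_inv_cancel h1 h1'
  have e3 : m2x' * m2x'⁻¹ = 1 := ENNReal.mul_inv_cancel h2 h2'
  have e : 2⁻¹ * m1x * m2x' * ((2 * m1x⁻¹ * m2x'⁻¹) * (2 * by' * bxq' * (m1z⁻¹ * m2y⁻¹))) * ν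
      = 2 * by' * bxq' * (m1z⁻¹ * m2y⁻¹) * ν := by
    calc _ = (2⁻¹ * 2) * (m1x * m1x⁻¹) * (m2x' * m2x'⁻¹) * (2 * by' * bxq' * (m1z⁻¹ * m2y⁻¹) * ν) := by
          ring
      _ = _ := by rw [e1, e2, e3, one_mul, one_mul, one_mul]
  rw [e]
  by_cases hν : ν = 0
  · rw [hν, mul_zero, mul_zero]
  rcases hby with h | h
  · rw [h, mul_zero, zero_mul, zero_mul, zero_mul]
    exact zero_le
  · have := hq hν (by rw [h]; exact one_ne_zero)
    rw [h]
    calc 2 * 1 * bxq' * (m1z⁻¹ * m2y⁻¹) * ν ≤ 2 * 1 * 1 * q * ν := by gcongr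
      _ = 2 * q * ν := by ring

section layer

variable (G : GG V E H) (A1 A2 : H → Prop) [DecidablePred A1] [DecidablePred A2]
  (m1 m2 : V → ℝ≥0∞) (v : ℝ≥0∞) (β2 : V → ℝ≥0∞) (α : V → V → ℝ≥0∞) (ν : V → ℝ≥0∞) (q κ : ℝ≥0∞)

/-- intensity of a layer -/
noncomputable def lm (p : H × List (E × Bool) × H) : ℝ≥0∞ :=
  if A1 p.1 ∧ A2 p.2.2 then G.lam p else 0

theorem layer_mean (h10 : ∀ x, m1 x ≠ 0) (h1t : ∀ x, m1 x ≠ ∞) (h20 : ∀ x, m2 x ≠ 0)
    (h2t : ∀ x, m2 x ≠ ∞) (hA : ∀ x, G.mA A1 x = m1 x) (hB : ∀ x, G.mB A2 x = m2 x)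
    (hβ : ∀ w, β2 w = 0 ∨ β2 w = 1)
    (hα : ∀ u w, α u w = 2 * β2 w / (m1 u * m2 w)) (w : V) :
    ∑' p, lm G A1 A2 p * tpw G v α ν p w ≤ ∑ x, ν x * G.Tb v x w := by
  have e1 : ∀ p : H × List (E × Bool) × H, lm G A1 A2 p * tpw G v α ν p w =
      (if A1 p.1 ∧ A2 p.2.2 then G.lam p else 0)
        * ∑ b ∈ range (p.2.1.length + 1), ∑ a ∈ range (b + 1),
            (fun (x : V) (l : List (E × Bool)) (y : V) =>
              if y = w then ν x * (v * (1 - v) ^ l.length * α x y) else 0)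
              (G.site p a) ((p.2.1.take b).drop a) (G.site p b) := by
    intro p
    unfold lm tpw
    congr 1
    refine Finset.sum_congr rfl fun b hb => Finset.sum_congr rfl fun a _ => ?_
    rw [mem_range] at hb
    have hl : ((p.2.1.take b).drop a).length = b - a := by
      rw [List.length_drop, List.length_take]
      omega
    simp only [hl, ccq]
  rw [tsum_congr e1, G.two_marks A1 A2 (fun (x : V) (l : List (E × Bool)) (y : V) =>
    if y = w then ν x * (v * (1 - v) ^ l.length * α x y) else 0)]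
  refine Finset.sum_le_sum fun x _ => ?_
  rw [← Tb_eq, ← ENNReal.tsum_mul_left]
  refine ENNReal.tsum_le_tsum fun l => ?_
  rw [pw_fin G x l w]
  by_cases hf : G.fin x l = w
  · rw [if_pos hf, if_pos hf, hf, hA, hB, hα]
    have hb1 : β2 w ≤ 1 := by
      rcases hβ w with h | h
      · rw [h]; exact zero_le
      · rw [h]
    calc 2⁻¹ * m1 x * G.pw x l w * m2 w * (ν x * (v * (1 - v) ^ l.length * (2 * β2 w / (m1 x * m2 w))))
        = (2⁻¹ * m1 x * m2 w * (2 * β2 w / (m1 x * m2 w))) * (ν x * (G.pw x l w * (v * (1 - v) ^ l.length))) := by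
          ring
      _ = β2 w * (ν x * (G.pw x l w * (v * (1 - v) ^ l.length))) := by
          rw [half_cancel (h10 x) (h1t x) (h20 w) (h2t w)]
      _ ≤ 1 * (ν x * (G.pw x l w * (v * (1 - v) ^ l.length))) := by gcongr
      _ = ν x * (G.pw x l w * (v * (1 - v) ^ l.length)) := one_mul _
  · rw [if_neg hf, mul_zero]
    exact zero_le

end layer

/-! ### the diagonal term -/

theorem tsum3 (K : ℝ≥0∞) (f g h : ℕ → ℝ≥0∞) :
    ∑' n1, ∑' n2, ∑' n3, K * (f n1 * g n2 * h n3)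
      = K * ((∑' n, f n) * (∑' n, g n) * (∑' n, h n)) := by
  simp only [ENNReal.tsum_mul_left, ENNReal.tsum_mul_right]

/-- summand of the diagonal term -/
noncomputable def gq (G : GG V E H) (v : ℝ≥0∞) (α : V → V → ℝ≥0∞) (ν : V → ℝ≥0∞)
    (h : V → V → ℝ≥0∞) (p : H × List (E × Bool) × H) (a b a' b' : ℕ) : ℝ≥0∞ :=
  h (G.site p b) (G.site p b') * (ccq G v α ν p a b * ccq G v α ν p a' b')

theorem diag_eq (G : GG V E H) (v : ℝ≥0∞) (α : V → V → ℝ≥0∞) (ν : V → ℝ≥0∞)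
    (h : V → V → ℝ≥0∞) (p : H × List (E × Bool) × H) :
    ∑ w, ∑ w', h w w' * (tpw G v α ν p w * tpw G v α ν p w')
      = ∑ b ∈ range (p.2.1.length + 1), ∑ a ∈ range (b + 1),
          ∑ b' ∈ range (p.2.1.length + 1), ∑ a' ∈ range (b' + 1), gq G v α ν h p a b a' b' := by
  have e1 : ∀ w, ∑ w', h w w' * (tpw G v α ν p w * tpw G v α ν p w')
      = tpw G v α ν p w * ∑ w', tpw G v α ν p w' * h w w' := by
    intro w
    rw [Finset.mul_sum]
    exact Finset.sum_congr rfl fun w' _ => by ring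
  rw [Finset.sum_congr rfl fun w _ => e1 w,
    sum_tpw G v α ν p (fun w => ∑ w', tpw G v α ν p w' * h w w')]
  refine Finset.sum_congr rfl fun b _ => Finset.sum_congr rfl fun a _ => ?_
  rw [sum_tpw G v α ν p (fun w' => h (G.site p b) w'), Finset.mul_sum]
  refine Finset.sum_congr rfl fun b' _ => ?_
  rw [Finset.mul_sum]
  refine Finset.sum_congr rfl fun a' _ => ?_
  rw [gq]
  ring

section layer2

variable (G : GG V E H) (A1 A2 : H → Prop) [DecidablePred A1] [DecidablePred A2]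
  (m1 m2 : V → ℝ≥0∞) (v : ℝ≥0∞) (β2 : V → ℝ≥0∞) (α : V → V → ℝ≥0∞) (ν : V → ℝ≥0∞) (q κ : ℝ≥0∞)

theorem alpha_eq (h10 : ∀ x, m1 x ≠ 0) (h1t : ∀ x, m1 x ≠ ∞)
    (hα : ∀ u w, α u w = 2 * β2 w / (m1 u * m2 w)) (u w : V) :
    α u w = 2 * β2 w * ((m1 u)⁻¹ * (m2 w)⁻¹) := by
  rw [hα, div_eq_mul_inv, ENNReal.mul_inv (Or.inl (h10 u)) (Or.inl (h1t u))]

theorem beta_le (hβ : ∀ w, β2 w = 0 ∨ β2 w = 1) (w : V) : β2 w ≤ 1 := by
  rcases hβ w with h | h
  · rw [h]; exact zero_le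
  · rw [h]

theorem cst1 (h10 : ∀ x, m1 x ≠ 0) (h1t : ∀ x, m1 x ≠ ∞) (h20 : ∀ x, m2 x ≠ 0)
    (h2t : ∀ x, m2 x ≠ ∞) (hβ : ∀ w, β2 w = 0 ∨ β2 w = 1)
    (hα : ∀ u w, α u w = 2 * β2 w / (m1 u * m2 w))
    (hq : ∀ u w, ν u ≠ 0 → β2 w ≠ 0 → (m1 u)⁻¹ * (m2 w)⁻¹ ≤ q) (x y z x' : V) :
    2⁻¹ * m1 x * m2 x' * (α x y * α z x') * ν z ≤ 2 * q * ν z := by
  have h := cst_gen (m1x := m1 x) (m2x' := m2 x') (m1z := m1 z) (m2y := m2 y) (by' := β2 y)
    (bxq' := β2 x') (ν := ν z) (q := q) (h10 x) (h1t x) (h20 x') (h2t x') (hβ y)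
    (beta_le β2 hβ x') (fun h1 h2 => hq z y h1 h2)
  refine le_trans (le_of_eq ?_) h
  rw [alpha_eq m1 m2 β2 α h10 h1t hα, alpha_eq m1 m2 β2 α h10 h1t hα]
  ring

theorem cst2 (h10 : ∀ x, m1 x ≠ 0) (h1t : ∀ x, m1 x ≠ ∞) (h20 : ∀ x, m2 x ≠ 0)
    (h2t : ∀ x, m2 x ≠ ∞) (hβ : ∀ w, β2 w = 0 ∨ β2 w = 1)
    (hα : ∀ u w, α u w = 2 * β2 w / (m1 u * m2 w))
    (hq : ∀ u w, ν u ≠ 0 → β2 w ≠ 0 → (m1 u)⁻¹ * (m2 w)⁻¹ ≤ q) (x y z x' : V) :
    2⁻¹ * m1 x * m2 x' * (α x x' * α z y) * ν z ≤ 2 * q * ν z := by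
  have h := cst_gen (m1x := m1 x) (m2x' := m2 x') (m1z := m1 z) (m2y := m2 y) (by' := β2 y)
    (bxq' := β2 x') (ν := ν z) (q := q) (h10 x) (h1t x) (h20 x') (h2t x') (hβ y)
    (beta_le β2 hβ x') (fun h1 h2 => hq z y h1 h2)
  refine le_trans (le_of_eq ?_) h
  rw [alpha_eq m1 m2 β2 α h10 h1t hα, alpha_eq m1 m2 β2 α h10 h1t hα]
  ring

/-- first kind of order -/
theorem ord1 (h10 : ∀ x, m1 x ≠ 0) (h1t : ∀ x, m1 x ≠ ∞) (h20 : ∀ x, m2 x ≠ 0)
    (h2t : ∀ x, m2 x ≠ ∞) (hA : ∀ x, G.mA A1 x = m1 x) (hB : ∀ x, G.mB A2 x = m2 x)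
    (hβ : ∀ w, β2 w = 0 ∨ β2 w = 1)
    (hα : ∀ u w, α u w = 2 * β2 w / (m1 u * m2 w))
    (hq : ∀ u w, ν u ≠ 0 → β2 w ≠ 0 → (m1 u)⁻¹ * (m2 w)⁻¹ ≤ q)
    (hκ : ∀ x y, ∑ w, G.Tb v x w * G.Gr w y ≤ κ) (h : V → V → ℝ≥0∞) (B : ℝ≥0∞)
    (hh : ∀ x y, ∑ w, G.Tb v x w * h y w ≤ B) :
    ∑' p, lm G A1 A2 p * ∑ i4 ∈ range (p.2.1.length + 1), ∑ i3 ∈ range (i4 + 1),
        ∑ i2 ∈ range (i3 + 1), ∑ i1 ∈ range (i2 + 1), gq G v α ν h p i1 i2 i3 i4
      ≤ 2 * q * κ * B * (∑ u, ν u) ^ 2 := by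
  have e1 : ∀ p : H × List (E × Bool) × H, lm G A1 A2 p * ∑ i4 ∈ range (p.2.1.length + 1),
        ∑ i3 ∈ range (i4 + 1), ∑ i2 ∈ range (i3 + 1), ∑ i1 ∈ range (i2 + 1),
          gq G v α ν h p i1 i2 i3 i4
      = (if A1 p.1 ∧ A2 p.2.2 then G.lam p else 0)
        * ∑ i4 ∈ range (p.2.1.length + 1), ∑ i3 ∈ range (i4 + 1), ∑ i2 ∈ range (i3 + 1),
            ∑ i1 ∈ range (i2 + 1),
            (fun (n1 _ n3 : ℕ) (x1 x2 x3 x4 : V) =>
              h x2 x4 * ((ν x1 * (v * (1 - v) ^ n1 * α x1 x2))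
                * (ν x3 * (v * (1 - v) ^ n3 * α x3 x4)))) (i2 - i1) (i3 - i2) (i4 - i3)
              (G.site p i1) (G.site p i2) (G.site p i3) (G.site p i4) := by
    intro p
    rfl
  rw [tsum_congr e1, G.four_marks A1 A2 (fun (n1 _ n3 : ℕ) (x1 x2 x3 x4 : V) =>
              h x2 x4 * ((ν x1 * (v * (1 - v) ^ n1 * α x1 x2))
                * (ν x3 * (v * (1 - v) ^ n3 * α x3 x4))))]
  have e2 : ∀ x1 x2 x3 x4 : V, ∑' n1, ∑' n2, ∑' n3,
          2⁻¹ * G.mA A1 x1 * G.pwr n1 x1 x2 * G.pwr n2 x2 x3 * G.pwr n3 x3 x4 * G.mB A2 x4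
            * (fun (n1 _ n3 : ℕ) (x1 x2 x3 x4 : V) =>
              h x2 x4 * ((ν x1 * (v * (1 - v) ^ n1 * α x1 x2))
                * (ν x3 * (v * (1 - v) ^ n3 * α x3 x4)))) n1 n2 n3 x1 x2 x3 x4
      ≤ (2 * q * ν x3 * (ν x1 * h x2 x4)) * (G.Tb v x1 x2 * G.Gr x2 x3 * G.Tb v x3 x4) := by
    intro x1 x2 x3 x4
    rw [GG.Tb, GG.Tb, GG.Gr, ← tsum3]
    refine ENNReal.tsum_le_tsum fun n1 => ENNReal.tsum_le_tsum fun n2 =>
      ENNReal.tsum_le_tsum fun n3 => ?_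
    rw [hA, hB]
    calc _ = (2⁻¹ * m1 x1 * m2 x4 * (α x1 x2 * α x3 x4) * ν x3) * (ν x1 * h x2 x4)
          * (v * (1 - v) ^ n1 * G.pwr n1 x1 x2 * G.pwr n2 x2 x3
            * (v * (1 - v) ^ n3 * G.pwr n3 x3 x4)) := by ring
      _ ≤ _ := by
        have := cst1 m1 m2 β2 α ν q h10 h1t h20 h2t hβ hα hq x1 x2 x3 x4
        gcongr
  calc _ ≤ ∑ x1, ∑ x2, ∑ x3, ∑ x4, (2 * q * ν x3 * (ν x1 * h x2 x4))
          * (G.Tb v x1 x2 * G.Gr x2 x3 * G.Tb v x3 x4) :=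
        Finset.sum_le_sum fun x1 _ => Finset.sum_le_sum fun x2 _ => Finset.sum_le_sum fun x3 _ =>
          Finset.sum_le_sum fun x4 _ => e2 x1 x2 x3 x4
    _ = ∑ x1, ∑ x2, ∑ x3, (2 * q * ν x3 * ν x1 * (G.Tb v x1 x2 * G.Gr x2 x3))
          * ∑ x4, G.Tb v x3 x4 * h x2 x4 := by
        refine Finset.sum_congr rfl fun x1 _ => Finset.sum_congr rfl fun x2 _ =>
          Finset.sum_congr rfl fun x3 _ => ?_
        rw [Finset.mul_sum]
        exact Finset.sum_congr rfl fun x4 _ => by ring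
    _ ≤ ∑ x1, ∑ x2, ∑ x3, (2 * q * ν x3 * ν x1 * (G.Tb v x1 x2 * G.Gr x2 x3)) * B := by
        refine Finset.sum_le_sum fun x1 _ => Finset.sum_le_sum fun x2 _ =>
          Finset.sum_le_sum fun x3 _ => ?_
        have := hh x3 x2
        gcongr
    _ = ∑ x1, ∑ x3, (2 * q * B * ν x3 * ν x1) * ∑ x2, G.Tb v x1 x2 * G.Gr x2 x3 := by
        refine Finset.sum_congr rfl fun x1 _ => ?_
        rw [Finset.sum_comm]
        refine Finset.sum_congr rfl fun x3 _ => ?_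
        rw [Finset.mul_sum]
        exact Finset.sum_congr rfl fun x2 _ => by ring
    _ ≤ ∑ x1, ∑ x3, (2 * q * B * ν x3 * ν x1) * κ := by
        refine Finset.sum_le_sum fun x1 _ => Finset.sum_le_sum fun x3 _ => ?_
        have := hκ x1 x3
        gcongr
    _ = 2 * q * κ * B * (∑ u, ν u) ^ 2 := by
        rw [sq, Finset.sum_mul_sum, Finset.mul_sum]
        refine Finset.sum_congr rfl fun x1 _ => ?_
        rw [Finset.mul_sum]
        exact Finset.sum_congr rfl fun x3 _ => by ring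

theorem last_bound (hT : ∀ x, ∑ y, G.Tb v x y ≤ 1) (h : V → V → ℝ≥0∞) (B : ℝ≥0∞)
    (hh : ∀ x y, ∑ w, G.Tb v x w * h y w ≤ B) :
    ∑ x1, ∑ x2, ∑ x3, ∑ x4, (2 * q * ν x2 * (ν x1 * h x3 x4))
          * (G.Gr x1 x2 * G.Tb v x2 x3 * G.Tb v x3 x4)
      ≤ 2 * q * B * ∑ u, ∑ u', ν u * ν u' * G.Gr u u' := by
  calc _ = ∑ x1, ∑ x2, ∑ x3, (2 * q * ν x2 * ν x1 * (G.Gr x1 x2 * G.Tb v x2 x3))
          * ∑ x4, G.Tb v x3 x4 * h x3 x4 := by
        refine Finset.sum_congr rfl fun x1 _ => Finset.sum_congr rfl fun x2 _ =>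
          Finset.sum_congr rfl fun x3 _ => ?_
        rw [Finset.mul_sum]
        exact Finset.sum_congr rfl fun x4 _ => by ring
    _ ≤ ∑ x1, ∑ x2, ∑ x3, (2 * q * ν x2 * ν x1 * (G.Gr x1 x2 * G.Tb v x2 x3)) * B := by
        refine Finset.sum_le_sum fun x1 _ => Finset.sum_le_sum fun x2 _ =>
          Finset.sum_le_sum fun x3 _ => ?_
        have := hh x3 x3
        gcongr
    _ = ∑ x1, ∑ x2, (2 * q * B * (ν x1 * ν x2 * G.Gr x1 x2)) * ∑ x3, G.Tb v x2 x3 := by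
        refine Finset.sum_congr rfl fun x1 _ => Finset.sum_congr rfl fun x2 _ => ?_
        rw [Finset.mul_sum]
        exact Finset.sum_congr rfl fun x3 _ => by ring
    _ ≤ ∑ x1, ∑ x2, (2 * q * B * (ν x1 * ν x2 * G.Gr x1 x2)) * 1 := by
        refine Finset.sum_le_sum fun x1 _ => Finset.sum_le_sum fun x2 _ => ?_
        have := hT x2
        gcongr
    _ = 2 * q * B * ∑ u, ∑ u', ν u * ν u' * G.Gr u u' := by
        rw [Finset.mul_sum]
        refine Finset.sum_congr rfl fun x1 _ => ?_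
        rw [Finset.mul_sum]
        exact Finset.sum_congr rfl fun x3 _ => by ring

/-- second kind of order -/
theorem ord2 (hv : v ≤ 1) (h10 : ∀ x, m1 x ≠ 0) (h1t : ∀ x, m1 x ≠ ∞) (h20 : ∀ x, m2 x ≠ 0)
    (h2t : ∀ x, m2 x ≠ ∞) (hA : ∀ x, G.mA A1 x = m1 x) (hB : ∀ x, G.mB A2 x = m2 x)
    (hβ : ∀ w, β2 w = 0 ∨ β2 w = 1)
    (hα : ∀ u w, α u w = 2 * β2 w / (m1 u * m2 w))
    (hq : ∀ u w, ν u ≠ 0 → β2 w ≠ 0 → (m1 u)⁻¹ * (m2 w)⁻¹ ≤ q)
    (hT : ∀ x, ∑ y, G.Tb v x y ≤ 1) (h : V → V → ℝ≥0∞) (B : ℝ≥0∞)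
    (hh : ∀ x y, ∑ w, G.Tb v x w * h y w ≤ B) :
    ∑' p, lm G A1 A2 p * ∑ i4 ∈ range (p.2.1.length + 1), ∑ i3 ∈ range (i4 + 1),
        ∑ i2 ∈ range (i3 + 1), ∑ i1 ∈ range (i2 + 1), gq G v α ν h p i1 i3 i2 i4
      ≤ 2 * q * B * ∑ u, ∑ u', ν u * ν u' * G.Gr u u' := by
  have hv1 : 1 - v ≤ 1 := tsub_le_self
  have e1 : ∀ p : H × List (E × Bool) × H, lm G A1 A2 p * ∑ i4 ∈ range (p.2.1.length + 1),
        ∑ i3 ∈ range (i4 + 1), ∑ i2 ∈ range (i3 + 1), ∑ i1 ∈ range (i2 + 1),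
          gq G v α ν h p i1 i3 i2 i4
      ≤ (if A1 p.1 ∧ A2 p.2.2 then G.lam p else 0)
        * ∑ i4 ∈ range (p.2.1.length + 1), ∑ i3 ∈ range (i4 + 1), ∑ i2 ∈ range (i3 + 1),
            ∑ i1 ∈ range (i2 + 1),
            (fun (_ n2 n3 : ℕ) (x1 x2 x3 x4 : V) =>
              h x3 x4 * ((ν x1 * (v * (1 - v) ^ n2 * α x1 x3))
                * (ν x2 * (v * (1 - v) ^ n3 * α x2 x4)))) (i2 - i1) (i3 - i2) (i4 - i3)
              (G.site p i1) (G.site p i2) (G.site p i3) (G.site p i4) := by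
    intro p
    refine mul_le_mul_right (Finset.sum_le_sum fun i4 h4 => Finset.sum_le_sum fun i3 h3 =>
      Finset.sum_le_sum fun i2 h2 => Finset.sum_le_sum fun i1 h1 => ?_) _
    rw [mem_range] at h1 h2 h3
    simp only [gq, ccq]
    have a1 : (1 - v) ^ (i3 - i1) ≤ (1 - v) ^ (i3 - i2) :=
      pow_le_pow_right_of_le_one' hv1 (by omega)
    have a2 : (1 - v) ^ (i4 - i2) ≤ (1 - v) ^ (i4 - i3) :=
      pow_le_pow_right_of_le_one' hv1 (by omega)
    gcongr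
  refine (ENNReal.tsum_le_tsum e1).trans ?_
  rw [G.four_marks A1 A2 (fun (_ n2 n3 : ℕ) (x1 x2 x3 x4 : V) =>
              h x3 x4 * ((ν x1 * (v * (1 - v) ^ n2 * α x1 x3))
                * (ν x2 * (v * (1 - v) ^ n3 * α x2 x4))))]
  have e2 : ∀ x1 x2 x3 x4 : V, ∑' n1, ∑' n2, ∑' n3,
          2⁻¹ * G.mA A1 x1 * G.pwr n1 x1 x2 * G.pwr n2 x2 x3 * G.pwr n3 x3 x4 * G.mB A2 x4
            * (fun (_ n2 n3 : ℕ) (x1 x2 x3 x4 : V) =>
              h x3 x4 * ((ν x1 * (v * (1 - v) ^ n2 * α x1 x3))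
                * (ν x2 * (v * (1 - v) ^ n3 * α x2 x4)))) n1 n2 n3 x1 x2 x3 x4
      ≤ (2 * q * ν x2 * (ν x1 * h x3 x4)) * (G.Gr x1 x2 * G.Tb v x2 x3 * G.Tb v x3 x4) := by
    intro x1 x2 x3 x4
    rw [GG.Tb, GG.Tb, GG.Gr, ← tsum3]
    refine ENNReal.tsum_le_tsum fun n1 => ENNReal.tsum_le_tsum fun n2 =>
      ENNReal.tsum_le_tsum fun n3 => ?_
    rw [hA, hB]
    calc _ = (2⁻¹ * m1 x1 * m2 x4 * (α x1 x3 * α x2 x4) * ν x2) * (ν x1 * h x3 x4)
          * (G.pwr n1 x1 x2 * (v * (1 - v) ^ n2 * G.pwr n2 x2 x3)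
            * (v * (1 - v) ^ n3 * G.pwr n3 x3 x4)) := by ring
      _ ≤ _ := by
        have := cst1 m1 m2 β2 α ν q h10 h1t h20 h2t hβ hα hq x1 x3 x2 x4
        gcongr
  refine le_trans ?_ (last_bound G v ν q hT h B hh)
  exact Finset.sum_le_sum fun x1 _ => Finset.sum_le_sum fun x2 _ => Finset.sum_le_sum fun x3 _ =>
          Finset.sum_le_sum fun x4 _ => e2 x1 x2 x3 x4

/-- third kind of order -/
theorem ord3 (hv : v ≤ 1) (h10 : ∀ x, m1 x ≠ 0) (h1t : ∀ x, m1 x ≠ ∞) (h20 : ∀ x, m2 x ≠ 0)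
    (h2t : ∀ x, m2 x ≠ ∞) (hA : ∀ x, G.mA A1 x = m1 x) (hB : ∀ x, G.mB A2 x = m2 x)
    (hβ : ∀ w, β2 w = 0 ∨ β2 w = 1)
    (hα : ∀ u w, α u w = 2 * β2 w / (m1 u * m2 w))
    (hq : ∀ u w, ν u ≠ 0 → β2 w ≠ 0 → (m1 u)⁻¹ * (m2 w)⁻¹ ≤ q)
    (hT : ∀ x, ∑ y, G.Tb v x y ≤ 1) (h : V → V → ℝ≥0∞) (B : ℝ≥0∞)
    (hh : ∀ x y, ∑ w, G.Tb v x w * h y w ≤ B) (hs : ∀ x y, h x y = h y x) :
    ∑' p, lm G A1 A2 p * ∑ i4 ∈ range (p.2.1.length + 1), ∑ i3 ∈ range (i4 + 1),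
        ∑ i2 ∈ range (i3 + 1), ∑ i1 ∈ range (i2 + 1), gq G v α ν h p i1 i4 i2 i3
      ≤ 2 * q * B * ∑ u, ∑ u', ν u * ν u' * G.Gr u u' := by
  have hv1 : 1 - v ≤ 1 := tsub_le_self
  have e1 : ∀ p : H × List (E × Bool) × H, lm G A1 A2 p * ∑ i4 ∈ range (p.2.1.length + 1),
        ∑ i3 ∈ range (i4 + 1), ∑ i2 ∈ range (i3 + 1), ∑ i1 ∈ range (i2 + 1),
          gq G v α ν h p i1 i4 i2 i3
      ≤ (if A1 p.1 ∧ A2 p.2.2 then G.lam p else 0)
        * ∑ i4 ∈ range (p.2.1.length + 1), ∑ i3 ∈ range (i4 + 1), ∑ i2 ∈ range (i3 + 1),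
            ∑ i1 ∈ range (i2 + 1),
            (fun (_ n2 n3 : ℕ) (x1 x2 x3 x4 : V) =>
              h x4 x3 * ((ν x1 * (v * (1 - v) ^ n3 * α x1 x4))
                * (ν x2 * (v * (1 - v) ^ n2 * α x2 x3)))) (i2 - i1) (i3 - i2) (i4 - i3)
              (G.site p i1) (G.site p i2) (G.site p i3) (G.site p i4) := by
    intro p
    refine mul_le_mul_right (Finset.sum_le_sum fun i4 h4 => Finset.sum_le_sum fun i3 h3 =>
      Finset.sum_le_sum fun i2 h2 => Finset.sum_le_sum fun i1 h1 => ?_) _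
    rw [mem_range] at h1 h2 h3
    simp only [gq, ccq]
    have a1 : (1 - v) ^ (i4 - i1) ≤ (1 - v) ^ (i4 - i3) :=
      pow_le_pow_right_of_le_one' hv1 (by omega)
    gcongr
  refine (ENNReal.tsum_le_tsum e1).trans ?_
  rw [G.four_marks A1 A2 (fun (_ n2 n3 : ℕ) (x1 x2 x3 x4 : V) =>
              h x4 x3 * ((ν x1 * (v * (1 - v) ^ n3 * α x1 x4))
                * (ν x2 * (v * (1 - v) ^ n2 * α x2 x3))))]
  have e2 : ∀ x1 x2 x3 x4 : V, ∑' n1, ∑' n2, ∑' n3,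
          2⁻¹ * G.mA A1 x1 * G.pwr n1 x1 x2 * G.pwr n2 x2 x3 * G.pwr n3 x3 x4 * G.mB A2 x4
            * (fun (_ n2 n3 : ℕ) (x1 x2 x3 x4 : V) =>
              h x4 x3 * ((ν x1 * (v * (1 - v) ^ n3 * α x1 x4))
                * (ν x2 * (v * (1 - v) ^ n2 * α x2 x3)))) n1 n2 n3 x1 x2 x3 x4
      ≤ (2 * q * ν x2 * (ν x1 * h x3 x4)) * (G.Gr x1 x2 * G.Tb v x2 x3 * G.Tb v x3 x4) := by
    intro x1 x2 x3 x4
    rw [GG.Tb, GG.Tb, GG.Gr, ← tsum3]
    refine ENNReal.tsum_le_tsum fun n1 => ENNReal.tsum_le_tsum fun n2 =>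
      ENNReal.tsum_le_tsum fun n3 => ?_
    rw [hA, hB]
    calc _ = (2⁻¹ * m1 x1 * m2 x4 * (α x1 x4 * α x2 x3) * ν x2) * (ν x1 * h x4 x3)
          * (G.pwr n1 x1 x2 * (v * (1 - v) ^ n2 * G.pwr n2 x2 x3)
            * (v * (1 - v) ^ n3 * G.pwr n3 x3 x4)) := by ring
      _ ≤ _ := by
        have := cst2 m1 m2 β2 α ν q h10 h1t h20 h2t hβ hα hq x1 x3 x2 x4
        rw [hs x4 x3]
        gcongr
  refine le_trans ?_ (last_bound G v ν q hT h B hh)
  exact Finset.sum_le_sum fun x1 _ => Finset.sum_le_sum fun x2 _ => Finset.sum_le_sum fun x3 _ =>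
          Finset.sum_le_sum fun x4 _ => e2 x1 x2 x3 x4

end layer2

theorem layer (G : GG V E H) (A1 A2 : H → Prop) [DecidablePred A1] [DecidablePred A2]
    (m1 m2 : V → ℝ≥0∞) (v : ℝ≥0∞) (β2 : V → ℝ≥0∞) (α : V → V → ℝ≥0∞) (ν : V → ℝ≥0∞)
    (q κ : ℝ≥0∞) (hv : v ≤ 1) (h10 : ∀ x, m1 x ≠ 0) (h1t : ∀ x, m1 x ≠ ∞) (h20 : ∀ x, m2 x ≠ 0)
    (h2t : ∀ x, m2 x ≠ ∞) (hA : ∀ x, G.mA A1 x = m1 x) (hB : ∀ x, G.mB A2 x = m2 x)
    (hβ : ∀ w, β2 w = 0 ∨ β2 w = 1)
    (hα : ∀ u w, α u w = 2 * β2 w / (m1 u * m2 w))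
    (hq : ∀ u w, ν u ≠ 0 → β2 w ≠ 0 → (m1 u)⁻¹ * (m2 w)⁻¹ ≤ q)
    (hT : ∀ x, ∑ y, G.Tb v x y ≤ 1)
    (hκ : ∀ x y, ∑ w, G.Tb v x w * G.Gr w y ≤ κ) (A' C' : ℝ≥0∞) :
    ∑ w, ∑ w', (A' + C' * G.Gr w w') *
        ((∑' p, lm G A1 A2 p * tpw G v α ν p w) * (∑' p, lm G A1 A2 p * tpw G v α ν p w')
          + ∑' p, lm G A1 A2 p * (tpw G v α ν p w * tpw G v α ν p w'))
      ≤ ((A' + κ * C') * (1 + 4 * q * κ)) * (∑ u, ν u) ^ 2
        + (8 * q * (A' + κ * C')) * ∑ u, ∑ u', ν u * ν u' * G.Gr u u' := by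
  set h : V → V → ℝ≥0∞ := fun w w' => A' + C' * G.Gr w w' with hh0
  set B : ℝ≥0∞ := A' + κ * C' with hB0
  have hs : ∀ x y, h x y = h y x := by
    intro x y
    simp only [hh0]
    rw [Gr_comm_c]
  have hh : ∀ x y, ∑ w, G.Tb v x w * h y w ≤ B := by
    intro x y
    calc ∑ w, G.Tb v x w * h y w = A' * ∑ w, G.Tb v x w + (∑ w, G.Tb v x w * G.Gr w y) * C' := by
          rw [Finset.mul_sum, Finset.sum_mul, ← Finset.sum_add_distrib]
          refine Finset.sum_congr rfl fun w _ => ?_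
          simp only [hh0]
          rw [Gr_comm_c G y w]
          ring
      _ ≤ A' * 1 + κ * C' := by
          have := hT x
          have := hκ x y
          gcongr
      _ = B := by rw [mul_one]
  set M : V → ℝ≥0∞ := fun w => ∑' p, lm G A1 A2 p * tpw G v α ν p w with hM
  have hMle : ∀ w, M w ≤ ∑ x, ν x * G.Tb v x w := fun w =>
    layer_mean G A1 A2 m1 m2 v β2 α ν h10 h1t h20 h2t hA hB hβ hα w
  have p1 : ∑ w, ∑ w', h w w' * (M w * M w') ≤ B * (∑ u, ν u) ^ 2 := by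
    calc ∑ w, ∑ w', h w w' * (M w * M w')
        ≤ ∑ w, ∑ w', h w w' * (M w * ∑ x, ν x * G.Tb v x w') := by
          refine Finset.sum_le_sum fun w _ => Finset.sum_le_sum fun w' _ => ?_
          have := hMle w'
          gcongr
      _ = ∑ w, M w * ∑ x, ν x * ∑ w', G.Tb v x w' * h w w' := by
          refine Finset.sum_congr rfl fun w _ => ?_
          simp only [Finset.mul_sum]
          rw [Finset.sum_comm]
          refine Finset.sum_congr rfl fun x _ => Finset.sum_congr rfl fun w' _ => ?_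
          ring
      _ ≤ ∑ w, M w * ∑ x, ν x * B := by
          refine Finset.sum_le_sum fun w _ => ?_
          refine mul_le_mul_right (Finset.sum_le_sum fun x _ => ?_) _
          have := hh x w
          gcongr
      _ = (∑ w, M w) * ((∑ x, ν x) * B) := by
          rw [Finset.sum_mul, Finset.sum_mul]
      _ ≤ (∑ w, ∑ x, ν x * G.Tb v x w) * ((∑ x, ν x) * B) := by
          refine mul_le_mul_left (Finset.sum_le_sum fun w _ => hMle w) _
      _ = (∑ x, ν x * ∑ w, G.Tb v x w) * ((∑ x, ν x) * B) := by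
          rw [Finset.sum_comm]
          simp only [Finset.mul_sum]
      _ ≤ (∑ x, ν x * 1) * ((∑ x, ν x) * B) := by
          refine mul_le_mul_left (Finset.sum_le_sum fun x _ => ?_) _
          have := hT x
          gcongr
      _ = B * (∑ u, ν u) ^ 2 := by
          simp only [mul_one]
          ring
  have p2 : ∑ w, ∑ w', h w w' * ∑' p, lm G A1 A2 p * (tpw G v α ν p w * tpw G v α ν p w')
      ≤ 2 * (2 * q * κ * B * (∑ u, ν u) ^ 2)
        + 2 * (2 * q * B * ∑ u, ∑ u', ν u * ν u' * G.Gr u u')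
        + 2 * (2 * q * B * ∑ u, ∑ u', ν u * ν u' * G.Gr u u') := by
    calc ∑ w, ∑ w', h w w' * ∑' p, lm G A1 A2 p * (tpw G v α ν p w * tpw G v α ν p w')
        = ∑' p, lm G A1 A2 p * ∑ w, ∑ w', h w w' * (tpw G v α ν p w * tpw G v α ν p w') := by
          simp only [Finset.mul_sum, ← ENNReal.tsum_mul_left]
          rw [Summable.tsum_finsetSum (fun _ _ => ENNReal.summable)]
          refine Finset.sum_congr rfl fun w _ => ?_
          rw [Summable.tsum_finsetSum (fun _ _ => ENNReal.summable)]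
          refine Finset.sum_congr rfl fun w' _ => tsum_congr fun p => ?_
          ring
      _ = ∑' p, lm G A1 A2 p * ∑ b ∈ range (p.2.1.length + 1), ∑ a ∈ range (b + 1),
          ∑ b' ∈ range (p.2.1.length + 1), ∑ a' ∈ range (b' + 1), gq G v α ν h p a b a' b' :=
          tsum_congr fun p => by rw [diag_eq]
      _ ≤ ∑' p, lm G A1 A2 p * (2 * (∑ i4 ∈ range (p.2.1.length + 1), ∑ i3 ∈ range (i4 + 1),
            ∑ i2 ∈ range (i3 + 1), ∑ i1 ∈ range (i2 + 1), gq G v α ν h p i1 i2 i3 i4)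
          + 2 * (∑ i4 ∈ range (p.2.1.length + 1), ∑ i3 ∈ range (i4 + 1), ∑ i2 ∈ range (i3 + 1),
            ∑ i1 ∈ range (i2 + 1), gq G v α ν h p i1 i3 i2 i4)
          + 2 * (∑ i4 ∈ range (p.2.1.length + 1), ∑ i3 ∈ range (i4 + 1), ∑ i2 ∈ range (i3 + 1),
            ∑ i1 ∈ range (i2 + 1), gq G v α ν h p i1 i4 i2 i3)) := by
          refine ENNReal.tsum_le_tsum fun p => mul_le_mul_right ?_ _
          refine quad_le _ (fun a b a' b' => gq G v α ν h p a b a' b') ?_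
          intro a b a' b'
          simp only [gq]
          rw [hs, mul_comm (ccq G v α ν p a b)]
      _ = 2 * (∑' p, lm G A1 A2 p * (∑ i4 ∈ range (p.2.1.length + 1), ∑ i3 ∈ range (i4 + 1),
            ∑ i2 ∈ range (i3 + 1), ∑ i1 ∈ range (i2 + 1), gq G v α ν h p i1 i2 i3 i4))
          + 2 * (∑' p, lm G A1 A2 p * (∑ i4 ∈ range (p.2.1.length + 1), ∑ i3 ∈ range (i4 + 1),
            ∑ i2 ∈ range (i3 + 1), ∑ i1 ∈ range (i2 + 1), gq G v α ν h p i1 i3 i2 i4))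
          + 2 * (∑' p, lm G A1 A2 p * (∑ i4 ∈ range (p.2.1.length + 1), ∑ i3 ∈ range (i4 + 1),
            ∑ i2 ∈ range (i3 + 1), ∑ i1 ∈ range (i2 + 1), gq G v α ν h p i1 i4 i2 i3)) := by
          rw [← ENNReal.tsum_mul_left, ← ENNReal.tsum_mul_left, ← ENNReal.tsum_mul_left,
            ← ENNReal.tsum_add, ← ENNReal.tsum_add]
          refine tsum_congr fun p => ?_
          ring
      _ ≤ _ := by
          have o1 := ord1 G A1 A2 m1 m2 v β2 α ν q κ h10 h1t h20 h2t hA hB hβ hα hq hκ h B hh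
          have o2 := ord2 G A1 A2 m1 m2 v β2 α ν q hv h10 h1t h20 h2t hA hB hβ hα hq hT h B hh
          have o3 := ord3 G A1 A2 m1 m2 v β2 α ν q hv h10 h1t h20 h2t hA hB hβ hα hq hT h B hh hs
          exact add_le_add (add_le_add (mul_le_mul_right o1 _) (mul_le_mul_right o2 _))
            (mul_le_mul_right o3 _)
  calc ∑ w, ∑ w', h w w' * (M w * M w'
          + ∑' p, lm G A1 A2 p * (tpw G v α ν p w * tpw G v α ν p w'))
      = ∑ w, ∑ w', h w w' * (M w * M w')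
        + ∑ w, ∑ w', h w w' * ∑' p, lm G A1 A2 p * (tpw G v α ν p w * tpw G v α ν p w') := by
        simp only [mul_add, Finset.sum_add_distrib]
    _ ≤ _ := add_le_add p1 p2
    _ = _ := by ring

/-- second moment of the chains -/
theorem chain_second (G : GG V E H) (A : ℕ → H → Prop) [∀ k, DecidablePred (A k)]
    (m : ℕ → V → ℝ≥0∞) (hm0 : ∀ k x, m k x ≠ 0) (hmt : ∀ k x, m k x ≠ ∞)
    (hA : ∀ k x, G.mA (A k) x = m k x) (hB : ∀ k x, G.mB (A k) x = m k x)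
    (hlam : ∀ k, ∑' p, G.lamk A k p ≠ ∞)
    (v : ℕ → ℝ≥0∞) (hv : ∀ k, v k ≤ 1) (β : ℕ → V → ℝ≥0∞) (hβ : ∀ k w, β k w = 0 ∨ β k w = 1)
    (α : ℕ → V → V → ℝ≥0∞)
    (hα : ∀ k u w, α k u w = 2 * β (k + 1) w / (m k u * m (k + 1) w))
    (q κ : ℕ → ℝ≥0∞)
    (hq : ∀ k u w, β k u ≠ 0 → β (k + 1) w ≠ 0 → (m k u)⁻¹ * (m (k + 1) w)⁻¹ ≤ q k)
    (hT : ∀ k x, ∑ y, G.Tb (v k) x y ≤ 1)
    (hκ : ∀ k x y, ∑ w, G.Tb (v k) x w * G.Gr w y ≤ κ k) (K : ℕ) :
    ∀ (k : ℕ) (ν : V → ℝ≥0∞), (∀ u, β k u = 0 → ν u = 0) →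
    ∑' ls : Fin K → List (H × List (E × Bool) × H),
      (∏ i : Fin K, ((ls i).map (G.lamk A (k + i))).prod / (((ls i).length)! : ℝ≥0∞))
        * (∑ u, ν u * G.chain v α K ls k u (fun _ => 1)) ^ 2
      ≤ (∏ i : Fin K, PEx (G.lamk A (k + i)) (fun _ => 1))
        * ((AC q κ K k).1 * (∑ u, ν u) ^ 2
          + (AC q κ K k).2 * ∑ u, ∑ u', ν u * ν u' * G.Gr u u') := by
  induction K with
  | zero =>
    intro k ν hν
    simp [GG.chain, AC]
  | succ K ih =>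
    intro k ν hν
    rw [← (Fin.consEquiv (fun _ : Fin (K + 1) => List (H × List (E × Bool) × H))).tsum_eq,
      ENNReal.tsum_prod']
    set P : ℝ≥0∞ := ∏ i : Fin K, PEx (G.lamk A (k + 1 + i)) (fun _ => 1) with hP
    set A' := (AC q κ K (k + 1)).1 with hA'
    set C' := (AC q κ K (k + 1)).2 with hC'
    set T : List (H × List (E × Bool) × H) → V → ℝ≥0∞ := fun l w =>
      (l.map (fun p => tpw G (v (k + 1)) (α k) ν p w)).sum with hT'
    have hTz : ∀ l w, β (k + 1) w = 0 → T l w = 0 := by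
      intro l w hw
      have ht : ∀ p : H × List (E × Bool) × H, tpw G (v (k + 1)) (α k) ν p w = 0 := by
        intro p
        unfold tpw
        refine Finset.sum_eq_zero fun b _ => Finset.sum_eq_zero fun a _ => ?_
        split_ifs with hbw
        · rw [ccq, hbw, hα, hw]
          simp
        · rfl
      simp only [hT', ht]
      simp
    have step : ∀ l0 : List (H × List (E × Bool) × H),
        ∑' ls' : Fin K → List (H × List (E × Bool) × H),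
          (∏ i : Fin (K + 1), ((Fin.consEquiv (fun _ : Fin (K + 1) =>
              List (H × List (E × Bool) × H)) (l0, ls') i).map (G.lamk A (k + i))).prod
              / (((Fin.consEquiv (fun _ : Fin (K + 1) =>
              List (H × List (E × Bool) × H)) (l0, ls') i).length)! : ℝ≥0∞))
            * (∑ u, ν u * G.chain v α (K + 1) (Fin.consEquiv (fun _ : Fin (K + 1) =>
              List (H × List (E × Bool) × H)) (l0, ls')) k u (fun _ => 1)) ^ 2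
          ≤ P * ((l0.map (G.lamk A k)).prod / ((l0.length)! : ℝ≥0∞)
            * ∑ w, ∑ w', (A' + C' * G.Gr w w') * (T l0 w * T l0 w')) := by
      intro l0
      have e1 : ∀ ls' : Fin K → List (H × List (E × Bool) × H),
          (∏ i : Fin (K + 1), ((Fin.consEquiv (fun _ : Fin (K + 1) =>
              List (H × List (E × Bool) × H)) (l0, ls') i).map (G.lamk A (k + i))).prod
              / (((Fin.consEquiv (fun _ : Fin (K + 1) =>
              List (H × List (E × Bool) × H)) (l0, ls') i).length)! : ℝ≥0∞))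
            * (∑ u, ν u * G.chain v α (K + 1) (Fin.consEquiv (fun _ : Fin (K + 1) =>
              List (H × List (E × Bool) × H)) (l0, ls')) k u (fun _ => 1)) ^ 2
          = ((l0.map (G.lamk A k)).prod / ((l0.length)! : ℝ≥0∞))
            * ((∏ i : Fin K, ((ls' i).map (G.lamk A (k + 1 + i))).prod
              / (((ls' i).length)! : ℝ≥0∞))
            * (∑ w, T l0 w * G.chain v α K ls' (k + 1) w (fun _ => 1)) ^ 2) := by
        intro ls'
        rw [Fin.prod_univ_succ]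
        have a1 : (Fin.consEquiv (fun _ : Fin (K + 1) =>
              List (H × List (E × Bool) × H)) (l0, ls')) 0 = l0 := rfl
        have a2 : ∀ i : Fin K, (Fin.consEquiv (fun _ : Fin (K + 1) =>
              List (H × List (E × Bool) × H)) (l0, ls')) i.succ = ls' i := fun i => rfl
        have a3 : ∀ i : Fin K, k + ((i.succ : Fin (K + 1)) : ℕ) = k + 1 + (i : ℕ) := by
          intro i
          rw [Fin.val_succ]
          omega
        have a4 : ∑ u, ν u * G.chain v α (K + 1) (Fin.consEquiv (fun _ : Fin (K + 1) =>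
              List (H × List (E × Bool) × H)) (l0, ls')) k u (fun _ => 1)
            = ∑ w, T l0 w * G.chain v α K ls' (k + 1) w (fun _ => 1) :=
          list_lin G (v (k + 1)) (α k) ν (fun w => G.chain v α K ls' (k + 1) w (fun _ => 1)) l0
        rw [a4]
        simp only [a2, a3]
        rw [a1, Fin.val_zero, add_zero]
        ring
      rw [tsum_congr e1, ENNReal.tsum_mul_left]
      have e2 := ih (k + 1) (T l0) (fun u hu => hTz l0 u hu)
      calc _ ≤ (l0.map (G.lamk A k)).prod / ((l0.length)! : ℝ≥0∞) *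
            (P * (A' * (∑ u, T l0 u) ^ 2 + C' * ∑ u, ∑ u', T l0 u * T l0 u' * G.Gr u u')) := by
            exact mul_le_mul_right e2 _
        _ = _ := by
            have e3 : ∑ w, ∑ w', (A' + C' * G.Gr w w') * (T l0 w * T l0 w')
                = A' * (∑ u, T l0 u) ^ 2 + C' * ∑ u, ∑ u', T l0 u * T l0 u' * G.Gr u u' := by
              rw [sq, Finset.sum_mul_sum, Finset.mul_sum, Finset.mul_sum, ← Finset.sum_add_distrib]
              refine Finset.sum_congr rfl fun w _ => ?_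
              rw [Finset.mul_sum, Finset.mul_sum, ← Finset.sum_add_distrib]
              exact Finset.sum_congr rfl fun w' _ => by ring
            rw [e3]
            ring
    refine (ENNReal.tsum_le_tsum step).trans ?_
    rw [ENNReal.tsum_mul_left]
    have e4 : ∑' l0 : List (H × List (E × Bool) × H),
        (l0.map (G.lamk A k)).prod / ((l0.length)! : ℝ≥0∞)
            * ∑ w, ∑ w', (A' + C' * G.Gr w w') * (T l0 w * T l0 w')
        = (∑ w, ∑ w', (A' + C' * G.Gr w w') *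
        ((∑' p, G.lamk A k p * tpw G (v (k + 1)) (α k) ν p w)
          * (∑' p, G.lamk A k p * tpw G (v (k + 1)) (α k) ν p w')
          + ∑' p, G.lamk A k p * (tpw G (v (k + 1)) (α k) ν p w
            * tpw G (v (k + 1)) (α k) ν p w'))) * PEx (G.lamk A k) (fun _ => 1) := by
      simp only [Finset.mul_sum, Finset.sum_mul]
      rw [Summable.tsum_finsetSum (fun _ _ => ENNReal.summable)]
      refine Finset.sum_congr rfl fun w _ => ?_
      rw [Summable.tsum_finsetSum (fun _ _ => ENNReal.summable)]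
      refine Finset.sum_congr rfl fun w' _ => ?_
      rw [mul_assoc, ← PEx_sum_mul, PEx, ← ENNReal.tsum_mul_left]
      exact tsum_congr fun l => by ring
    rw [e4]
    have e5 := layer G (A k) (A (k + 1)) (m k) (m (k + 1)) (v (k + 1)) (β (k + 1)) (α k) ν
      (q k) (κ (k + 1)) (hv _) (hm0 k) (hmt k) (hm0 (k + 1)) (hmt (k + 1)) (hA k) (hB (k + 1))
      (hβ (k + 1)) (hα k) (fun u w hu hw => hq k u w (fun h0 => hu (hν u h0)) hw) (hT (k + 1))
      (hκ (k + 1)) A' C'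
    have e6 : ∏ i : Fin (K + 1), PEx (G.lamk A (k + i)) (fun _ => 1)
        = PEx (G.lamk A k) (fun _ => 1) * P := by
      rw [Fin.prod_univ_succ, Fin.val_zero, add_zero, hP]
      congr 1
      refine Finset.prod_congr rfl fun i _ => ?_
      have a3 : k + ((i.succ : Fin (K + 1)) : ℕ) = k + 1 + (i : ℕ) := by
        rw [Fin.val_succ]
        omega
      rw [a3]
    rw [e6]
    calc P * ((∑ w, ∑ w', (A' + C' * G.Gr w w') *
        ((∑' p, G.lamk A k p * tpw G (v (k + 1)) (α k) ν p w)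
          * (∑' p, G.lamk A k p * tpw G (v (k + 1)) (α k) ν p w')
          + ∑' p, G.lamk A k p * (tpw G (v (k + 1)) (α k) ν p w
            * tpw G (v (k + 1)) (α k) ν p w'))) * PEx (G.lamk A k) (fun _ => 1))
        ≤ P * ((((A' + κ (k + 1) * C') * (1 + 4 * q k * κ (k + 1))) * (∑ u, ν u) ^ 2
        + (8 * q k * (A' + κ (k + 1) * C')) * ∑ u, ∑ u', ν u * ν u' * G.Gr u u')
          * PEx (G.lamk A k) (fun _ => 1)) :=
          mul_le_mul_right (mul_le_mul_left e5 _) _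
      _ = _ := by
          simp only [AC, ← hA', ← hC']
          ring

end targets

end Pool.Agent.Helper41.GF
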