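import Pool.Agent.Helper41.GF.Defs

set_option autoImplicit false

open Finset

namespace Pool.Agent.Helper41.GF

theorem gfa_add (x : Z3) (i : Fin 3) : nq (x + Pi.single i 1) = nq x + 1 + 2 * (x i : ℝ) := by
  fin_cases i <;> simp [nq, Fin.sum_univ_three, Pi.single_apply] <;> ring

theorem gfa_sub (x : Z3) (i : Fin 3) : nq (x - Pi.single i 1) = nq x + 1 - 2 * (x i : ℝ) := by
  fin_cases i <;> simp [nq, Fin.sum_univ_three, Pi.single_apply] <;> ring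

theorem gfa_nonneg (x : Z3) : 0 ≤ nq x := Finset.sum_nonneg fun _ _ => sq_nonneg _

theorem gfa_q {τ : ℝ} (h : |τ| ≤ 1 / 10) :
    1 / Real.sqrt (1 + τ) ≤ 1 - τ / 2 + 3 * τ ^ 2 / 8 - 5 * τ ^ 3 / 16 + τ ^ 4 / 2 := by
  obtain ⟨h1, h2⟩ := abs_le.mp h
  have h0 : 0 < 1 + τ := by linarith
  have hs : 0 < Real.sqrt (1 + τ) := Real.sqrt_pos.mpr h0
  set q : ℝ := 1 - τ / 2 + 3 * τ ^ 2 / 8 - 5 * τ ^ 3 / 16 + τ ^ 4 / 2 with hq
  have t2 : τ ^ 2 ≤ 1 / 100 := by nlinarith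
  have t20 : 0 ≤ τ ^ 2 := sq_nonneg _
  have t3 : |τ ^ 3| ≤ 1 / 1000 := by
    rw [abs_pow]
    calc |τ| ^ 3 ≤ (1 / 10) ^ 3 := pow_le_pow_left₀ (abs_nonneg _) h 3
      _ = 1 / 1000 := by norm_num
  have t5 : |τ ^ 5| ≤ 1 / 100000 := by
    rw [abs_pow]
    calc |τ| ^ 5 ≤ (1 / 10) ^ 5 := pow_le_pow_left₀ (abs_nonneg _) h 5
      _ = 1 / 100000 := by norm_num
  have t4 : |τ ^ 4| ≤ 1 / 10000 := by
    rw [abs_pow]
    calc |τ| ^ 4 ≤ (1 / 10) ^ 4 := pow_le_pow_left₀ (abs_nonneg _) h 4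
      _ = 1 / 10000 := by norm_num
  obtain ⟨a3, b3⟩ := abs_le.mp t3
  obtain ⟨a4, b4⟩ := abs_le.mp t4
  obtain ⟨a5, b5⟩ := abs_le.mp t5
  have hq0 : 0 < q := by rw [hq]; linarith
  have hkey : 1 ≤ q ^ 2 * (1 + τ) := by
    have e : q ^ 2 * (1 + τ) = 1 + τ ^ 4 * (29 / 64 + 23 / 32 * τ - 67 / 256 * τ ^ 2 +
        41 / 256 * τ ^ 3 - 1 / 16 * τ ^ 4 + 1 / 4 * τ ^ 5) := by
      rw [hq]; ring
    rw [e]
    have : 0 ≤ 29 / 64 + 23 / 32 * τ - 67 / 256 * τ ^ 2 +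
        41 / 256 * τ ^ 3 - 1 / 16 * τ ^ 4 + 1 / 4 * τ ^ 5 := by linarith
    have h4 : 0 ≤ τ ^ 4 := by positivity
    have := mul_nonneg h4 this
    linarith
  rw [div_le_iff₀ hs]
  have h3 : (q * Real.sqrt (1 + τ)) ^ 2 = q ^ 2 * (1 + τ) := by
    rw [mul_pow, Real.sq_sqrt h0.le]
  have h4 : 0 ≤ q * Real.sqrt (1 + τ) := by positivity
  nlinarith

theorem gfa_p {τ : ℝ} (h : |τ| ≤ 1 / 10) :
    1 + τ / 2 - τ ^ 2 / 8 + τ ^ 3 / 16 - τ ^ 4 / 16 ≤ Real.sqrt (1 + τ) := by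
  obtain ⟨h1, h2⟩ := abs_le.mp h
  apply Real.le_sqrt_of_sq_le
  have t2 : τ ^ 2 ≤ 1 / 100 := by nlinarith
  have t20 : 0 ≤ τ ^ 2 := sq_nonneg _
  have t3 : |τ ^ 3| ≤ 1 / 1000 := by
    rw [abs_pow]
    calc |τ| ^ 3 ≤ (1 / 10) ^ 3 := pow_le_pow_left₀ (abs_nonneg _) h 3
      _ = 1 / 1000 := by norm_num
  have t4 : |τ ^ 4| ≤ 1 / 10000 := by
    rw [abs_pow]
    calc |τ| ^ 4 ≤ (1 / 10) ^ 4 := pow_le_pow_left₀ (abs_nonneg _) h 4
      _ = 1 / 10000 := by norm_num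
  obtain ⟨a3, b3⟩ := abs_le.mp t3
  obtain ⟨a4, b4⟩ := abs_le.mp t4
  have e : (1 + τ / 2 - τ ^ 2 / 8 + τ ^ 3 / 16 - τ ^ 4 / 16) ^ 2 =
      1 + τ - τ ^ 4 * (3 / 64 + 5 / 64 * τ - 5 / 256 * τ ^ 2 + 1 / 128 * τ ^ 3 -
        1 / 256 * τ ^ 4) := by ring
  rw [e]
  have : 0 ≤ 3 / 64 + 5 / 64 * τ - 5 / 256 * τ ^ 2 + 1 / 128 * τ ^ 3 -
        1 / 256 * τ ^ 4 := by linarith
  have h4 : 0 ≤ τ ^ 4 := by positivity
  have := mul_nonneg h4 this
  linarith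

theorem gfa_pair_inv {s t : ℝ} (hs : 0 < s) (h : |t / s| ≤ 1 / 10) :
    1 / Real.sqrt (s + t) + 1 / Real.sqrt (s - t) ≤
      1 / Real.sqrt s * (2 + 3 * (t / s) ^ 2 / 4 + (t / s) ^ 4) := by
  have e1 : s + t = s * (1 + t / s) := by field_simp
  have e2 : s - t = s * (1 + -(t / s)) := by
    field_simp
    ring
  rw [e1, e2, Real.sqrt_mul hs.le, Real.sqrt_mul hs.le]
  have h1 := gfa_q h
  have h2 := gfa_q (τ := -(t / s)) (by rwa [abs_neg])
  have hss : 0 < 1 / Real.sqrt s := by positivity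
  have e3 : 1 / (Real.sqrt s * Real.sqrt (1 + t / s)) =
      1 / Real.sqrt s * (1 / Real.sqrt (1 + t / s)) := by rw [one_div_mul_one_div]
  have e4 : 1 / (Real.sqrt s * Real.sqrt (1 + -(t / s))) =
      1 / Real.sqrt s * (1 / Real.sqrt (1 + -(t / s))) := by rw [one_div_mul_one_div]
  rw [e3, e4, ← mul_add]
  apply mul_le_mul_of_nonneg_left _ hss.le
  refine (add_le_add h1 h2).trans (le_of_eq ?_)
  ring

theorem gfa_pair_sqrt {s t : ℝ} (hs : 0 < s) (h : |t / s| ≤ 1 / 10) :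
    Real.sqrt s * (2 - (t / s) ^ 2 / 4 - (t / s) ^ 4 / 8) ≤
      Real.sqrt (s + t) + Real.sqrt (s - t) := by
  have e1 : s + t = s * (1 + t / s) := by field_simp
  have e2 : s - t = s * (1 + -(t / s)) := by
    field_simp
    ring
  rw [e1, e2, Real.sqrt_mul hs.le, Real.sqrt_mul hs.le]
  have h1 := gfa_p h
  have h2 := gfa_p (τ := -(t / s)) (by rwa [abs_neg])
  rw [← mul_add]
  apply mul_le_mul_of_nonneg_left _ (Real.sqrt_nonneg _)
  refine le_trans (le_of_eq ?_) (add_le_add h1 h2)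
  ring

/-- facts on the ratios -/
theorem gfa_tau (c : ℝ) (hc : 100 ≤ c) (x : Z3) :
    (∀ i, |2 * (x i : ℝ) / (nq x + c + 1)| ≤ 1 / 10) ∧
    ∑ i, (2 * (x i : ℝ) / (nq x + c + 1)) ^ 2 = 4 * nq x / (nq x + c + 1) ^ 2 ∧
    ∑ i, (2 * (x i : ℝ) / (nq x + c + 1)) ^ 4 ≤ (4 * nq x / (nq x + c + 1) ^ 2) ^ 2 := by
  have hn := gfa_nonneg x
  set s : ℝ := nq x + c + 1 with hs
  have hs0 : 0 < s := by rw [hs]; linarith
  have hsum : ∑ i, (2 * (x i : ℝ) / s) ^ 2 = 4 * nq x / s ^ 2 := by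
    have : ∀ i, (2 * (x i : ℝ) / s) ^ 2 = 4 / s ^ 2 * (x i : ℝ) ^ 2 := by
      intro i
      rw [div_pow, mul_pow]; ring
    simp only [this]
    rw [← Finset.mul_sum]
    unfold nq
    ring
  have hsq : 4 * nq x / s ^ 2 ≤ (1 / 10) ^ 2 := by
    rw [div_le_iff₀ (by positivity)]
    rw [hs]
    nlinarith [sq_nonneg (nq x - c - 1)]
  have hle : ∀ i, (2 * (x i : ℝ) / s) ^ 2 ≤ 4 * nq x / s ^ 2 := by
    intro i
    rw [← hsum]
    exact Finset.single_le_sum (f := fun i => (2 * (x i : ℝ) / s) ^ 2)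
      (fun _ _ => sq_nonneg _) (Finset.mem_univ i)
  refine ⟨fun i => ?_, hsum, ?_⟩
  · exact abs_le_of_sq_le_sq ((hle i).trans hsq) (by norm_num)
  · rw [← hsum]
    have h4 : ∀ i, (2 * (x i : ℝ) / s) ^ 4 = ((2 * (x i : ℝ) / s) ^ 2) ^ 2 := fun i => by ring
    simp only [h4]
    rw [sq (∑ i, (2 * (x i : ℝ) / s) ^ 2), Finset.sum_mul]
    apply Finset.sum_le_sum
    intro i _
    rw [sq ((2 * (x i : ℝ) / s) ^ 2)]
    apply mul_le_mul_of_nonneg_left _ (sq_nonneg _)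
    exact Finset.single_le_sum (f := fun i => (2 * (x i : ℝ) / s) ^ 2)
      (fun _ _ => sq_nonneg _) (Finset.mem_univ i)

/-- superharmonicity of (|x|^2+c)^(-1/2) -/
theorem Av_inv_sqrt_le (c : ℝ) (hc : 100 ≤ c) (x : Z3) :
    Av (fun y => 1 / Real.sqrt (nq y + c)) x ≤ 1 / Real.sqrt (nq x + c) := by
  have hn := gfa_nonneg x
  obtain ⟨hτ, h2, h4⟩ := gfa_tau c hc x
  set n := nq x with hnn
  set s : ℝ := n + c + 1 with hs
  have hs101 : 101 ≤ s := by rw [hs]; linarith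
  have hs0 : 0 < s := by linarith
  have hsn : n ≤ s - 101 := by rw [hs]; linarith
  unfold Av
  have e1 : ∀ i : Fin 3, 1 / Real.sqrt (nq (x + Pi.single i 1) + c) +
      1 / Real.sqrt (nq (x - Pi.single i 1) + c) ≤
      1 / Real.sqrt s * (2 + 3 * (2 * (x i : ℝ) / s) ^ 2 / 4 + (2 * (x i : ℝ) / s) ^ 4) := by
    intro i
    rw [gfa_add, gfa_sub]
    have a1 : nq x + 1 + 2 * (x i : ℝ) + c = s + 2 * (x i : ℝ) := by rw [hs, hnn]; ring
    have a2 : nq x + 1 - 2 * (x i : ℝ) + c = s - 2 * (x i : ℝ) := by rw [hs, hnn]; ring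
    rw [a1, a2]
    exact gfa_pair_inv hs0 (hτ i)
  have e2 := Finset.sum_le_sum fun i (_ : i ∈ (Finset.univ : Finset (Fin 3))) => e1 i
  have e3 : ∑ i : Fin 3, 3 * (2 * (x i : ℝ) / s) ^ 2 / 4 = 3 / 4 * (4 * n / s ^ 2) := by
    rw [← h2, Finset.mul_sum]
    apply Finset.sum_congr rfl
    intro i _
    ring
  have e2s : ∑ i : Fin 3, 1 / Real.sqrt s * (2 + 3 * (2 * (x i : ℝ) / s) ^ 2 / 4 +
      (2 * (x i : ℝ) / s) ^ 4) = 1 / Real.sqrt s * (((3 : ℕ) : ℝ) * 2 +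
      3 / 4 * (4 * n / s ^ 2) + ∑ i, (2 * (x i : ℝ) / s) ^ 4) := by
    rw [← Finset.mul_sum, Finset.sum_add_distrib, Finset.sum_add_distrib, e3]
    simp only [Finset.sum_const, Finset.card_univ, Fintype.card_fin, nsmul_eq_mul]
  rw [e2s] at e2
  have hss : 0 < Real.sqrt s := Real.sqrt_pos.mpr hs0
  have e4 : 1 / Real.sqrt s * (((3 : ℕ) : ℝ) * 2 + 3 / 4 * (4 * n / s ^ 2) +
      ∑ i, (2 * (x i : ℝ) / s) ^ 4) ≤ 1 / Real.sqrt s * (6 * (1 + 1 / (2 * s))) := by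
    apply mul_le_mul_of_nonneg_left _ (by positivity)
    have f1 : 4 * n / s ^ 2 ≤ 4 / s - 404 / s ^ 2 := by
      have : 4 / s - 404 / s ^ 2 = (4 * (s - 101)) / s ^ 2 := by
        field_simp
        ring
      rw [this]
      apply div_le_div_of_nonneg_right _ (by positivity)
      linarith
    have f2 : (4 * n / s ^ 2) ^ 2 ≤ 16 / s ^ 2 := by
      rw [div_pow, div_le_div_iff₀ (by positivity) (by positivity)]
      have : n ^ 2 ≤ s ^ 2 := by nlinarith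
      have h5 : 0 ≤ s ^ 2 := sq_nonneg s
      nlinarith
    have f3 : 1 / (2 * s) = (1 / 8) * (4 / s) := by field_simp; norm_num
    have f4 : 16 / s ^ 2 = 16 * (1 / s ^ 2) := by ring
    have f5 : 404 / s ^ 2 = 404 * (1 / s ^ 2) := by ring
    have f6 : 0 ≤ 1 / s ^ 2 := by positivity
    rw [f3]
    rw [f5] at f1
    rw [f4] at f2
    push_cast
    have f7 : (0 : ℝ) ≤ 4 / s := by positivity
    linarith
  have e5 : 1 / Real.sqrt s * (1 + 1 / (2 * s)) ≤ 1 / Real.sqrt (n + c) := by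
    have g1 : n + c = s - 1 := by rw [hs]; ring
    rw [g1]
    have g2 : 0 < s - 1 := by linarith
    have g3 : 0 < Real.sqrt (s - 1) := Real.sqrt_pos.mpr g2
    rw [le_div_iff₀ g3]
    have g4 : (1 / Real.sqrt s * (1 + 1 / (2 * s)) * Real.sqrt (s - 1)) ^ 2 ≤ 1 ^ 2 := by
      rw [mul_pow, mul_pow, Real.sq_sqrt g2.le, div_pow, Real.sq_sqrt hs0.le]
      have : (1 ^ 2 : ℝ) / s * (1 + 1 / (2 * s)) ^ 2 * (s - 1) =
          1 - (3 * s + 1) / (4 * s ^ 3) := by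
        field_simp
        ring
      rw [this]
      have : 0 ≤ (3 * s + 1) / (4 * s ^ 3) := by positivity
      linarith
    exact (pow_le_pow_iff_left₀ (by positivity) one_pos.le two_ne_zero).mp g4
  calc (1 / 6 : ℝ) * ∑ i : Fin 3, (1 / Real.sqrt (nq (x + Pi.single i 1) + c) +
        1 / Real.sqrt (nq (x - Pi.single i 1) + c))
      ≤ (1 / 6) * (1 / Real.sqrt s * (6 * (1 + 1 / (2 * s)))) :=
        mul_le_mul_of_nonneg_left (e2.trans e4) (by norm_num)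
    _ = 1 / Real.sqrt s * (1 + 1 / (2 * s)) := by ring
    _ ≤ _ := e5

/-- strict at the origin -/
theorem Av_inv_sqrt_zero :
    Av (fun y => 1 / Real.sqrt (nq y + 100)) 0 ≤ 1 / Real.sqrt (nq 0 + 100) - 1 / 4000 := by
  have h0 : nq (0 : Z3) = 0 := by simp [nq]
  unfold Av
  have h1 : ∀ i : Fin 3, 1 / Real.sqrt (nq (0 + Pi.single i 1) + 100) +
      1 / Real.sqrt (nq (0 - Pi.single i 1) + 100) = 2 * (1 / Real.sqrt 101) := by
    intro i
    rw [gfa_add, gfa_sub, h0]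
    simp only [Pi.zero_apply, Int.cast_zero, mul_zero, add_zero, sub_zero, zero_add]
    norm_num
    ring
  simp only [h1, h0]
  rw [Finset.sum_const, Finset.card_univ, Fintype.card_fin, nsmul_eq_mul, zero_add]
  have h2 : Real.sqrt 100 = 10 := by
    rw [show (100 : ℝ) = 10 ^ 2 by norm_num]
    exact Real.sqrt_sq (by norm_num)
  rw [h2]
  have h3 : (4000 / 399 : ℝ) ≤ Real.sqrt 101 := by
    apply Real.le_sqrt_of_sq_le
    norm_num
  have h4 : 1 / Real.sqrt 101 ≤ 1 / (4000 / 399 : ℝ) :=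
    one_div_le_one_div_of_le (by norm_num) h3
  have h5 : (1 / (4000 / 399 : ℝ)) = 399 / 4000 := by norm_num
  rw [h5] at h4
  push_cast
  linarith

/-- subharmonicity of the square root with a quantitative gain -/
theorem le_Av_sqrt (x : Z3) :
    Real.sqrt (nq x + 100) + (1 / 5) * (1 / Real.sqrt (nq x + 100))
      ≤ Av (fun y => Real.sqrt (nq y + 100)) x := by
  have hn := gfa_nonneg x
  obtain ⟨hτ, h2, h4⟩ := gfa_tau 100 le_rfl x
  set n := nq x with hnn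
  set s : ℝ := n + 100 + 1 with hs
  have hs101 : 101 ≤ s := by rw [hs]; linarith
  have hs0 : 0 < s := by linarith
  have hsn : n ≤ s - 101 := by rw [hs]; linarith
  unfold Av
  have e1 : ∀ i : Fin 3,
      Real.sqrt s * (2 - (2 * (x i : ℝ) / s) ^ 2 / 4 - (2 * (x i : ℝ) / s) ^ 4 / 8) ≤
      Real.sqrt (nq (x + Pi.single i 1) + 100) + Real.sqrt (nq (x - Pi.single i 1) + 100) := by
    intro i
    rw [gfa_add, gfa_sub]
    have a1 : nq x + 1 + 2 * (x i : ℝ) + 100 = s + 2 * (x i : ℝ) := by rw [hs, hnn]; ring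
    have a2 : nq x + 1 - 2 * (x i : ℝ) + 100 = s - 2 * (x i : ℝ) := by rw [hs, hnn]; ring
    rw [a1, a2]
    exact gfa_pair_sqrt hs0 (hτ i)
  have e2 := Finset.sum_le_sum fun i (_ : i ∈ (Finset.univ : Finset (Fin 3))) => e1 i
  have e3 : ∑ i : Fin 3, (2 * (x i : ℝ) / s) ^ 2 / 4 = 1 / 4 * (4 * n / s ^ 2) := by
    rw [← h2, Finset.mul_sum]
    apply Finset.sum_congr rfl
    intro i _
    ring
  have e3' : ∑ i : Fin 3, (2 * (x i : ℝ) / s) ^ 4 / 8 ≤ 1 / 8 * (4 * n / s ^ 2) ^ 2 := by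
    rw [← Finset.sum_div]
    linarith
  have e2s : ∑ i : Fin 3, Real.sqrt s * (2 - (2 * (x i : ℝ) / s) ^ 2 / 4 -
      (2 * (x i : ℝ) / s) ^ 4 / 8) = Real.sqrt s * (((3 : ℕ) : ℝ) * 2 -
      1 / 4 * (4 * n / s ^ 2) - ∑ i : Fin 3, (2 * (x i : ℝ) / s) ^ 4 / 8) := by
    rw [← Finset.mul_sum, Finset.sum_sub_distrib, Finset.sum_sub_distrib, e3]
    simp only [Finset.sum_const, Finset.card_univ, Fintype.card_fin, nsmul_eq_mul]
  rw [e2s] at e2
  have hss : 0 < Real.sqrt s := Real.sqrt_pos.mpr hs0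
  have e4 : Real.sqrt s * (6 * (1 - 1 / (6 * s))) ≤ Real.sqrt s * (((3 : ℕ) : ℝ) * 2 -
      1 / 4 * (4 * n / s ^ 2) - ∑ i : Fin 3, (2 * (x i : ℝ) / s) ^ 4 / 8) := by
    apply mul_le_mul_of_nonneg_left _ hss.le
    have f1 : 4 * n / s ^ 2 ≤ 4 / s - 404 / s ^ 2 := by
      have : 4 / s - 404 / s ^ 2 = (4 * (s - 101)) / s ^ 2 := by
        field_simp
        ring
      rw [this]
      apply div_le_div_of_nonneg_right _ (by positivity)
      linarith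
    have f2 : (4 * n / s ^ 2) ^ 2 ≤ 16 / s ^ 2 := by
      rw [div_pow, div_le_div_iff₀ (by positivity) (by positivity)]
      have : n ^ 2 ≤ s ^ 2 := by nlinarith
      have h5 : 0 ≤ s ^ 2 := sq_nonneg s
      nlinarith
    have f3 : 1 / (6 * s) = (1 / 24) * (4 / s) := by field_simp; norm_num
    have f4 : 16 / s ^ 2 = 16 * (1 / s ^ 2) := by ring
    have f5 : 404 / s ^ 2 = 404 * (1 / s ^ 2) := by ring
    have f6 : 0 ≤ 1 / s ^ 2 := by positivity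
    rw [f3]
    rw [f5] at f1
    rw [f4] at f2
    push_cast
    linarith
  have e5 : Real.sqrt (n + 100) + (1 / 5) * (1 / Real.sqrt (n + 100)) ≤
      Real.sqrt s * (1 - 1 / (6 * s)) := by
    have g1 : n + 100 = s - 1 := by rw [hs]; ring
    rw [g1]
    have g2 : 0 < s - 1 := by linarith
    have g3 : 0 < Real.sqrt (s - 1) := Real.sqrt_pos.mpr g2
    have g5 : 0 ≤ 1 - 1 / (6 * s) := by
      have : 1 / (6 * s) ≤ 1 := by
        rw [div_le_one (by positivity)]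
        linarith
      linarith
    rw [← pow_le_pow_iff_left₀ (by positivity) (by positivity) two_ne_zero]
    have g6 : (Real.sqrt (s - 1) + (1 / 5) * (1 / Real.sqrt (s - 1))) ^ 2 =
        (s - 1) + 2 / 5 + 1 / (25 * (s - 1)) := by
      have : (Real.sqrt (s - 1) + (1 / 5) * (1 / Real.sqrt (s - 1))) ^ 2 =
          Real.sqrt (s - 1) ^ 2 + 2 / 5 * (Real.sqrt (s - 1) * (1 / Real.sqrt (s - 1))) +
            1 / 25 * (1 / Real.sqrt (s - 1) ^ 2) := by ring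
      rw [this, Real.sq_sqrt g2.le, mul_one_div_cancel g3.ne']
      field_simp
    have g7 : (Real.sqrt s * (1 - 1 / (6 * s))) ^ 2 = s - 1 / 3 + 1 / (36 * s) := by
      rw [mul_pow, Real.sq_sqrt hs0.le]
      field_simp
      ring
    rw [g6, g7]
    have g8 : 1 / (25 * (s - 1)) ≤ 1 / 2500 := by
      apply one_div_le_one_div_of_le (by norm_num)
      linarith
    have g9 : 0 ≤ 1 / (36 * s) := by positivity
    linarith
  calc Real.sqrt (n + 100) + (1 / 5) * (1 / Real.sqrt (n + 100))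
      ≤ Real.sqrt s * (1 - 1 / (6 * s)) := e5
    _ = (1 / 6) * (Real.sqrt s * (6 * (1 - 1 / (6 * s)))) := by ring
    _ ≤ (1 / 6 : ℝ) * ∑ i : Fin 3, (Real.sqrt (nq (x + Pi.single i 1) + 100) +
        Real.sqrt (nq (x - Pi.single i 1) + 100)) :=
        mul_le_mul_of_nonneg_left (e4.trans e2) (by norm_num)

/-- quadratic growth -/
theorem Av_nq (c : ℝ) (y : Z3) (x : Z3) :
    Av (fun z => nq (z - y) + c) x = nq (x - y) + c + 1 := by
  unfold Av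
  have h1 : ∀ i : Fin 3, (nq (x + Pi.single i 1 - y) + c + (nq (x - Pi.single i 1 - y) + c)) =
      2 * (nq (x - y) + c + 1) := by
    intro i
    have a1 : x + Pi.single i 1 - y = (x - y) + Pi.single i 1 := by abel
    have a2 : x - Pi.single i 1 - y = (x - y) - Pi.single i 1 := by abel
    rw [a1, a2, gfa_add, gfa_sub]
    ring
  simp only [h1]
  rw [Finset.sum_const, Finset.card_univ, Fintype.card_fin, nsmul_eq_mul]
  push_cast
  ring

end Pool.Agent.Helper41.GF
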