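import Pool.Agent.Helper41.GF.Defs

set_option autoImplicit false

open Finset

namespace Pool.Agent.Helper41.GF

theorem gf_poly (τ : ℝ) (h : |τ| ≤ 1 / 10) :
    1 ≤ (1 - τ / 8 + 2 / 25 * τ ^ 2) ^ 8 * (1 + τ) := by
  have h1 : (1 - τ / 8 + 2 / 25 * τ ^ 2) ^ 8 * (1 + τ) - 1 = τ ^ 2 * ((31/400) + (653/1600)*τ + (-336749/1280000)*τ^2 + (579663/2560000)*τ^3 + (-106098097/1024000000)*τ^4 + (208542067/4096000000)*τ^5 + (-22692982291/1310720000000)*τ^6 + (7856300717/1310720000000)*τ^7 + (-1969578601/1280000000000)*τ^8 + (12668691/32000000000)*τ^9 + (-9430771/125000000000)*τ^10 + (451507/31250000000)*τ^11 + (-23327/12207031250)*τ^12 + (1596/6103515625)*τ^13 + (-2944/152587890625)*τ^14 + (256/152587890625)*τ^15) := by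
    ring
  have h' := abs_le.mp h
  have e2 : |τ ^ 2| ≤ (1 / 10) ^ 2 := by rw [abs_pow]; exact pow_le_pow_left₀ (abs_nonneg _) h 2
  rw [abs_le] at e2
  have e3 : |τ ^ 3| ≤ (1 / 10) ^ 3 := by rw [abs_pow]; exact pow_le_pow_left₀ (abs_nonneg _) h 3
  rw [abs_le] at e3
  have e4 : |τ ^ 4| ≤ (1 / 10) ^ 4 := by rw [abs_pow]; exact pow_le_pow_left₀ (abs_nonneg _) h 4
  rw [abs_le] at e4
  have e5 : |τ ^ 5| ≤ (1 / 10) ^ 5 := by rw [abs_pow]; exact pow_le_pow_left₀ (abs_nonneg _) h 5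
  rw [abs_le] at e5
  have e6 : |τ ^ 6| ≤ (1 / 10) ^ 6 := by rw [abs_pow]; exact pow_le_pow_left₀ (abs_nonneg _) h 6
  rw [abs_le] at e6
  have e7 : |τ ^ 7| ≤ (1 / 10) ^ 7 := by rw [abs_pow]; exact pow_le_pow_left₀ (abs_nonneg _) h 7
  rw [abs_le] at e7
  have e8 : |τ ^ 8| ≤ (1 / 10) ^ 8 := by rw [abs_pow]; exact pow_le_pow_left₀ (abs_nonneg _) h 8
  rw [abs_le] at e8
  have e9 : |τ ^ 9| ≤ (1 / 10) ^ 9 := by rw [abs_pow]; exact pow_le_pow_left₀ (abs_nonneg _) h 9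
  rw [abs_le] at e9
  have e10 : |τ ^ 10| ≤ (1 / 10) ^ 10 := by rw [abs_pow]; exact pow_le_pow_left₀ (abs_nonneg _) h 10
  rw [abs_le] at e10
  have e11 : |τ ^ 11| ≤ (1 / 10) ^ 11 := by rw [abs_pow]; exact pow_le_pow_left₀ (abs_nonneg _) h 11
  rw [abs_le] at e11
  have e12 : |τ ^ 12| ≤ (1 / 10) ^ 12 := by rw [abs_pow]; exact pow_le_pow_left₀ (abs_nonneg _) h 12
  rw [abs_le] at e12
  have e13 : |τ ^ 13| ≤ (1 / 10) ^ 13 := by rw [abs_pow]; exact pow_le_pow_left₀ (abs_nonneg _) h 13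
  rw [abs_le] at e13
  have e14 : |τ ^ 14| ≤ (1 / 10) ^ 14 := by rw [abs_pow]; exact pow_le_pow_left₀ (abs_nonneg _) h 14
  rw [abs_le] at e14
  have e15 : |τ ^ 15| ≤ (1 / 10) ^ 15 := by rw [abs_pow]; exact pow_le_pow_left₀ (abs_nonneg _) h 15
  rw [abs_le] at e15
  have h2 : 0 ≤ (31/400) + (653/1600)*τ + (-336749/1280000)*τ^2 + (579663/2560000)*τ^3 + (-106098097/1024000000)*τ^4 + (208542067/4096000000)*τ^5 + (-22692982291/1310720000000)*τ^6 + (7856300717/1310720000000)*τ^7 + (-1969578601/1280000000000)*τ^8 + (12668691/32000000000)*τ^9 + (-9430771/125000000000)*τ^10 + (451507/31250000000)*τ^11 + (-23327/12207031250)*τ^12 + (1596/6103515625)*τ^13 + (-2944/152587890625)*τ^14 + (256/152587890625)*τ^15 := by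
    norm_num at e2 e3 e4 e5 e6 e7 e8 e9 e10 e11 e12 e13 e14 e15
    linarith [h'.1, h'.2, e2.1, e2.2, e3.1, e3.2, e4.1, e4.2, e5.1, e5.2, e6.1, e6.2, e7.1, e7.2,
      e8.1, e8.2, e9.1, e9.2, e10.1, e10.2, e11.1, e11.2, e12.1, e12.2, e13.1, e13.2, e14.1, e14.2,
      e15.1, e15.2]
  have h3 := mul_nonneg (sq_nonneg τ) h2
  linarith

theorem gf_root (τ : ℝ) (h : |τ| ≤ 1 / 10) :
    (1 + τ) ^ (-(1 / 8) : ℝ) ≤ 1 - τ / 8 + 2 / 25 * τ ^ 2 := by
  have h' := abs_le.mp h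
  have hpos : 0 < 1 + τ := by linarith [h'.1]
  have hq : 0 < 1 - τ / 8 + 2 / 25 * τ ^ 2 := by nlinarith [h'.1, h'.2, sq_nonneg τ]
  set y := (1 + τ) ^ (-(1 / 8) : ℝ) with hy
  have hy0 : 0 < y := Real.rpow_pos_of_pos hpos _
  have hy8 : y ^ 8 * (1 + τ) = 1 := by
    rw [hy, ← Real.rpow_natCast, ← Real.rpow_mul hpos.le]
    norm_num
    rw [Real.rpow_neg_one, inv_mul_cancel₀ hpos.ne']
  by_contra hcon
  push Not at hcon
  have h1 : (1 - τ / 8 + 2 / 25 * τ ^ 2) ^ 8 < y ^ 8 := pow_lt_pow_left₀ hcon hq.le (by norm_num)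
  have h2 := mul_lt_mul_of_pos_right h1 hpos
  have h3 := gf_poly τ h
  linarith

theorem gf_pair (s t : ℝ) (hs : 0 < s) (h : |t / s| ≤ 1 / 10) :
    (s + t) ^ (-(1 / 8) : ℝ) + (s - t) ^ (-(1 / 8) : ℝ) ≤
      s ^ (-(1 / 8) : ℝ) * (2 + 4 / 25 * (t / s) ^ 2) := by
  set τ := t / s with hτ
  have h' := abs_le.mp h
  have e1 : s + t = s * (1 + τ) := by rw [hτ]; field_simp
  have e2 : s - t = s * (1 + (-τ)) := by rw [hτ]; field_simp; ring
  rw [e1, e2, Real.mul_rpow hs.le (by linarith [h'.1]), Real.mul_rpow hs.le (by linarith [h'.2]),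
    ← mul_add]
  refine mul_le_mul_of_nonneg_left ?_ (Real.rpow_nonneg hs.le _)
  have h1 := gf_root τ h
  have h2 := gf_root (-τ) (by rw [abs_neg]; exact h)
  have h3 : (-τ) ^ 2 = τ ^ 2 := by ring
  rw [h3] at h2
  linarith

theorem gf_low (s : ℝ) (hs : 101 ≤ s) :
    s ^ (-(1 / 8) : ℝ) * (1 + 1 / (8 * s)) ≤ (s - 1) ^ (-(1 / 8) : ℝ) := by
  have hs0 : 0 < s := by linarith
  set u := 1 / s with hu
  have hu0 : 0 < u := by positivity
  have hu1 : u < 1 := by rw [hu, div_lt_one hs0]; linarith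
  have e1 : s - 1 = s * (1 - u) := by rw [hu]; field_simp
  have e2 : 1 / (8 * s) = u / 8 := by rw [hu]; field_simp
  rw [e1, e2, Real.mul_rpow hs0.le (by linarith)]
  refine mul_le_mul_of_nonneg_left ?_ (Real.rpow_nonneg hs0.le _)
  have hpos : 0 < 1 - u := by linarith
  set y := (1 - u) ^ (-(1 / 8) : ℝ) with hy
  have hy0 : 0 < y := Real.rpow_pos_of_pos hpos _
  have hy8 : y ^ 8 * (1 - u) = 1 := by
    rw [hy, ← Real.rpow_natCast, ← Real.rpow_mul hpos.le]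
    norm_num
    rw [Real.rpow_neg_one, inv_mul_cancel₀ hpos.ne']
  by_contra hcon
  push Not at hcon
  have h1 : y ^ 8 < (1 + u / 8) ^ 8 := pow_lt_pow_left₀ hcon hy0.le (by norm_num)
  have h2 := mul_lt_mul_of_pos_right h1 hpos
  rw [hy8] at h2
  have h3 : (1 + u / 8) ^ 8 ≤ Real.exp u := by
    have h4 : 1 + u / 8 ≤ Real.exp (u / 8) := by
      have := Real.add_one_le_exp (u / 8)
      linarith
    calc (1 + u / 8) ^ 8 ≤ (Real.exp (u / 8)) ^ 8 := pow_le_pow_left₀ (by positivity) h4 8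
      _ = Real.exp u := by
        rw [← Real.exp_nat_mul]
        congr 1
        push_cast
        ring
  have h5 : 1 - u ≤ Real.exp (-u) := by
    have := Real.add_one_le_exp (-u)
    linarith
  have h6 : (1 + u / 8) ^ 8 * (1 - u) ≤ Real.exp u * Real.exp (-u) :=
    mul_le_mul h3 h5 hpos.le (Real.exp_pos _).le
  rw [← Real.exp_add, add_neg_cancel, Real.exp_zero] at h6
  linarith

theorem gf_nq (x : Z3) (i : Fin 3) :
    nq (x + Pi.single i 1) = nq x + 2 * x i + 1 ∧ nq (x - Pi.single i 1) = nq x - 2 * x i + 1 := by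
  unfold nq
  rw [Fin.sum_univ_three, Fin.sum_univ_three, Fin.sum_univ_three]
  fin_cases i
  · constructor
    · simp [Pi.single_apply]; ring
    · simp [Pi.single_apply]; ring
  · constructor
    · simp [Pi.single_apply]; ring
    · simp [Pi.single_apply]; ring
  · constructor
    · simp [Pi.single_apply]; ring
    · simp [Pi.single_apply]; ring

/-- superharmonicity of (|x|^2+c)^(-1/8) with a quantitative gain -/
theorem Av_rpow_le (c : ℝ) (hc : 100 ≤ c) (x : Z3) :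
    Av (fun y => (nq y + c) ^ (-(1 / 8) : ℝ)) x
      ≤ (nq x + c) ^ (-(1 / 8) : ℝ) - (1 / 100) * (nq x + c) ^ (-(9 / 8) : ℝ) := by
  set N := nq x with hN
  have hN0 : 0 ≤ N := Finset.sum_nonneg fun i _ => sq_nonneg _
  set s := N + c + 1 with hs
  have hs101 : N + 101 ≤ s := by rw [hs]; linarith
  have hs0 : 0 < s := by linarith
  have hti : ∀ i : Fin 3, ((2 * x i : ℝ)) ^ 2 ≤ 4 * N := by
    intro i
    have h1 : (x i : ℝ) ^ 2 ≤ N := by
      rw [hN]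
      unfold nq
      exact Finset.single_le_sum (f := fun i => (x i : ℝ) ^ 2) (fun i _ => sq_nonneg _)
        (Finset.mem_univ i)
    nlinarith
  have hτ : ∀ i : Fin 3, |(2 * x i : ℝ) / s| ≤ 1 / 10 := by
    intro i
    rw [abs_div, abs_of_pos hs0, div_le_iff₀ hs0]
    apply abs_le_of_sq_le_sq _ (by positivity)
    have h1 := hti i
    nlinarith [sq_nonneg (N - 101)]
  have hAv : Av (fun y => (nq y + c) ^ (-(1 / 8) : ℝ)) x ≤
      s ^ (-(1 / 8) : ℝ) * (1 + (2 / 75) * ∑ i : Fin 3, ((2 * x i : ℝ) / s) ^ 2) := by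
    unfold Av
    have h1 : ∀ i : Fin 3, (nq (x + Pi.single i 1) + c) ^ (-(1 / 8) : ℝ) +
        (nq (x - Pi.single i 1) + c) ^ (-(1 / 8) : ℝ) ≤
        s ^ (-(1 / 8) : ℝ) * (2 + 4 / 25 * ((2 * x i : ℝ) / s) ^ 2) := by
      intro i
      obtain ⟨h2, h3⟩ := gf_nq x i
      rw [h2, h3]
      have h4 := gf_pair s (2 * x i) hs0 (hτ i)
      have e1 : nq x + 2 * (x i : ℝ) + 1 + c = s + 2 * x i := by rw [hs, hN]; ring
      have e2 : nq x - 2 * (x i : ℝ) + 1 + c = s - 2 * x i := by rw [hs, hN]; ring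
      rw [e1, e2]
      exact h4
    have h2 := Finset.sum_le_sum fun i (_ : i ∈ (Finset.univ : Finset (Fin 3))) => h1 i
    have h3 : ∑ i : Fin 3, s ^ (-(1 / 8) : ℝ) * (2 + 4 / 25 * ((2 * x i : ℝ) / s) ^ 2) =
        s ^ (-(1 / 8) : ℝ) * (6 + 4 / 25 * ∑ i : Fin 3, ((2 * x i : ℝ) / s) ^ 2) := by
      rw [← Finset.mul_sum, Finset.sum_add_distrib, ← Finset.mul_sum]
      simp
      left
      norm_num
    rw [h3] at h2
    calc _ ≤ (1 / 6) * (s ^ (-(1 / 8) : ℝ) * (6 + 4 / 25 * ∑ i : Fin 3, ((2 * x i : ℝ) / s) ^ 2)) :=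
          mul_le_mul_of_nonneg_left h2 (by norm_num)
      _ = _ := by ring
  have hsum : ∑ i : Fin 3, ((2 * x i : ℝ) / s) ^ 2 ≤ 4 / s := by
    have h1 : ∑ i : Fin 3, ((2 * x i : ℝ) / s) ^ 2 = 4 * N / s ^ 2 := by
      rw [hN]
      unfold nq
      rw [Finset.mul_sum, Finset.sum_div]
      refine Finset.sum_congr rfl fun i _ => ?_
      ring
    rw [h1, div_le_div_iff₀ (by positivity) hs0]
    nlinarith
  have hlow := gf_low s (by linarith)
  have ha : s - 1 = N + c := by rw [hs]; ring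
  rw [ha] at hlow
  set a := N + c with haa
  have ha0 : 0 < a := by linarith
  have ha100 : 100 ≤ a := by linarith
  have h98 : a ^ (-(9 / 8) : ℝ) = a ^ (-(1 / 8) : ℝ) / a := by
    rw [show (-(9 / 8) : ℝ) = -(1 / 8) - 1 by norm_num, Real.rpow_sub ha0, Real.rpow_one]
  rw [h98]
  set S := s ^ (-(1 / 8) : ℝ) with hS
  set A := a ^ (-(1 / 8) : ℝ) with hA
  have hS0 : 0 < S := Real.rpow_pos_of_pos hs0 _
  have hA0 : 0 < A := Real.rpow_pos_of_pos ha0 _
  have h1 : Av (fun y => (nq y + c) ^ (-(1 / 8) : ℝ)) x ≤ S * (1 + (8 / 75) / s) := by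
    refine hAv.trans (mul_le_mul_of_nonneg_left ?_ hS0.le)
    have : (2 / 75 : ℝ) * ∑ i : Fin 3, ((2 * x i : ℝ) / s) ^ 2 ≤ (2 / 75) * (4 / s) :=
      mul_le_mul_of_nonneg_left hsum (by norm_num)
    calc _ ≤ 1 + (2 / 75 : ℝ) * (4 / s) := by linarith
      _ = _ := by ring
  refine h1.trans ?_
  have hsa : s = a + 1 := by rw [hs, haa]
  have h2 : A - 1 / 100 * (A / a) = A * (1 - 1 / (100 * a)) := by
    field_simp
  rw [h2]
  have h3 : (0 : ℝ) ≤ 1 - 1 / (100 * a) := by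
    have : 1 / (100 * a) ≤ 1 := by
      rw [div_le_one (by positivity)]
      linarith
    linarith
  have h4 := mul_le_mul_of_nonneg_right hlow h3
  refine le_trans ?_ h4
  rw [mul_assoc]
  refine mul_le_mul_of_nonneg_left ?_ hS0.le
  rw [hsa]
  have ha1 : 0 < a + 1 := by linarith
  have h6 : (1 + (8 / 75) / (a + 1)) ≤ (1 + 1 / (8 * (a + 1))) * (1 - 1 / (100 * a)) := by
    rw [← sub_nonneg]
    have h7 : (1 + 1 / (8 * (a + 1))) * (1 - 1 / (100 * a)) - (1 + (8 / 75) / (a + 1)) =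
        (a * (11 / 600) - (a + 1) / 100 - 1 / 800) / (a * (a + 1)) := by
      field_simp
      ring
    rw [h7]
    refine div_nonneg ?_ (by positivity)
    linarith
  exact h6

end Pool.Agent.Helper41.GF
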