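import Pool.Agent.Helper41.GF.ParDefs
import Pool.Agent.Helper41.GF.LyapA
import Pool.Agent.Helper41.GF.LyapB

/-!
# Definitions: finite weighted graphs with ghost edges, currents, signs, ghost paths
-/

set_option autoImplicit false

open scoped ENNReal Nat
open Finset MeasureTheory

namespace Pool.Agent.Helper41.GF

/-! ## definitions -/

/-! ## TARGETS -/

theorem nq_nonneg_aux (x : Z3) : 0 ≤ nq x := by
  unfold nq
  exact Finset.sum_nonneg fun i _ => sq_nonneg _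

theorem mk_den_pos_aux (k : ℕ) (x : Z3) : (0 : ℝ) < nq x + 2 ^ (80 * k) :=
  add_pos_of_nonneg_of_pos (nq_nonneg_aux x) (by positivity)

theorem sqrt_two_pow_aux (j : ℕ) : Real.sqrt ((2 : ℝ) ^ (80 * j)) = 2 ^ (40 * j) := by
  have h : (2 : ℝ) ^ (80 * j) = (2 ^ (40 * j)) ^ 2 := by
    rw [← pow_mul]
    congr 1
    ring
  rw [h]
  exact Real.sqrt_sq (by positivity)

theorem mk_inv_le_aux (j : ℕ) (x : Z3) (hx : nq x ≤ 2 ^ (80 * j)) :
    (mk j x)⁻¹ ≤ Real.sqrt 2 * 2 ^ (19 * j) := by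
  unfold mk
  rw [inv_div, div_le_iff₀ (by positivity)]
  have h1 : Real.sqrt (nq x + 2 ^ (80 * j)) ≤ Real.sqrt (2 * 2 ^ (80 * j)) :=
    Real.sqrt_le_sqrt (by linarith)
  rw [Real.sqrt_mul (by norm_num), sqrt_two_pow_aux] at h1
  refine h1.trans (le_of_eq ?_)
  rw [mul_assoc, ← pow_add]
  congr 2
  ring

theorem mk_pos (k : ℕ) (x : Z3) : 0 < mk k x := by
  unfold mk
  exact div_pos (by positivity) (Real.sqrt_pos.2 (mk_den_pos_aux k x))

theorem qk_bound (N K k0 : ℕ) (k : ℕ) (u w : BV N) (hu : bk N K k0 k u ≠ 0)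
    (hw : bk N K k0 (k + 1) w ≠ 0) :
    (ENNReal.ofReal (mk (k0 + min k K) u.1))⁻¹
      * (ENNReal.ofReal (mk (k0 + min (k + 1) K) w.1))⁻¹ ≤ qk k0 k := by
  unfold bk at hu hw
  have hu' : k ≤ K ∧ nq u.1 ≤ 2 ^ (80 * (k0 + k)) := by
    by_contra h
    exact hu (if_neg h)
  have hw' : k + 1 ≤ K ∧ nq w.1 ≤ 2 ^ (80 * (k0 + (k + 1))) := by
    by_contra h
    exact hw (if_neg h)
  rw [min_eq_left hu'.1, min_eq_left hw'.1, ← ENNReal.ofReal_inv_of_pos (mk_pos _ _),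
    ← ENNReal.ofReal_inv_of_pos (mk_pos _ _),
    ← ENNReal.ofReal_mul (inv_nonneg.2 (mk_pos _ _).le)]
  unfold qk
  apply ENNReal.ofReal_le_ofReal
  have h1 := mk_inv_le_aux _ _ hu'.2
  have h2 := mk_inv_le_aux _ _ hw'.2
  have h3 : (mk (k0 + k) u.1)⁻¹ * (mk (k0 + (k + 1)) w.1)⁻¹
      ≤ (Real.sqrt 2 * 2 ^ (19 * (k0 + k))) * (Real.sqrt 2 * 2 ^ (19 * (k0 + (k + 1)))) :=
    mul_le_mul h1 h2 (inv_nonneg.2 (mk_pos _ _).le) (by positivity)
  refine h3.trans (le_of_eq ?_)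
  have h4 : Real.sqrt 2 * Real.sqrt 2 = 2 := Real.mul_self_sqrt (by norm_num)
  calc (Real.sqrt 2 * 2 ^ (19 * (k0 + k))) * (Real.sqrt 2 * 2 ^ (19 * (k0 + (k + 1))))
      = (Real.sqrt 2 * Real.sqrt 2) * ((2 : ℝ) ^ (19 * (k0 + k)) * 2 ^ (19 * (k0 + (k + 1)))) := by
        ring
    _ = 2 ^ (38 * (k0 + k) + 20) := by
        rw [h4, ← pow_add, ← pow_succ']
        congr 1
        ring

theorem qkk_bound_aux (k : ℕ) :
    4 * qk 100 k * kk 100 (k + 1) + 8 * qk 100 k * kk 100 k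
      ≤ ENNReal.ofReal (1 / 2 ^ (60 + k)) := by
  unfold qk kk
  have e4 : (4 : ℝ≥0∞) = ENNReal.ofReal 4 := by norm_num
  have e8 : (8 : ℝ≥0∞) = ENNReal.ofReal 8 := by norm_num
  rw [e4, e8, ← ENNReal.ofReal_mul (by norm_num), ← ENNReal.ofReal_mul (by norm_num),
    ← ENNReal.ofReal_mul (by positivity), ← ENNReal.ofReal_mul (by positivity),
    ← ENNReal.ofReal_add (by positivity) (by positivity)]
  apply ENNReal.ofReal_le_ofReal
  push_cast
  have h1 : (2 : ℝ) ^ (38 * (100 + k) + 20) * (60000 / 2 ^ (39 * (100 + k)))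
      = 60000 / 2 ^ (80 + k) := by
    rw [mul_div_assoc', div_eq_div_iff (by positivity) (by positivity)]
    have : (2 : ℝ) ^ (39 * (100 + k)) = 2 ^ (38 * (100 + k) + 20) * 2 ^ (80 + k) := by
      rw [← pow_add]
      congr 1
      ring
    rw [this]
    ring
  have h2 : (60000 : ℝ) / 2 ^ (39 * (100 + (k + 1))) ≤ 60000 / 2 ^ (39 * (100 + k)) := by
    apply div_le_div_of_nonneg_left (by norm_num) (by positivity)
    exact pow_le_pow_right₀ (by norm_num) (by omega)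
  have h3 : (2 : ℝ) ^ (38 * (100 + k) + 20) * (60000 / 2 ^ (39 * (100 + (k + 1))))
      ≤ 60000 / 2 ^ (80 + k) := by
    rw [← h1]
    exact mul_le_mul_of_nonneg_left h2 (by positivity)
  have h4 : (12 : ℝ) * (60000 / 2 ^ (80 + k)) ≤ 1 / 2 ^ (60 + k) := by
    rw [mul_div_assoc', div_le_div_iff₀ (by positivity) (by positivity)]
    have : (2 : ℝ) ^ (80 + k) = 2 ^ 20 * 2 ^ (60 + k) := by
      rw [← pow_add]
      congr 1
      ring
    rw [this]
    have h5 : (0 : ℝ) < 2 ^ (60 + k) := by positivity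
    nlinarith
  calc 4 * (2 : ℝ) ^ (38 * (100 + k) + 20) * (60000 / 2 ^ (39 * (100 + (k + 1))))
        + 8 * 2 ^ (38 * (100 + k) + 20) * (60000 / 2 ^ (39 * (100 + k)))
      = 4 * ((2 : ℝ) ^ (38 * (100 + k) + 20) * (60000 / 2 ^ (39 * (100 + (k + 1)))))
        + 8 * (2 ^ (38 * (100 + k) + 20) * (60000 / 2 ^ (39 * (100 + k)))) := by ring
    _ ≤ 4 * (60000 / 2 ^ (80 + k)) + 8 * (60000 / 2 ^ (80 + k)) := by
        rw [h1]
        linarith
    _ = 12 * (60000 / 2 ^ (80 + k)) := by ring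
    _ ≤ _ := h4

theorem AC_bound_aux (K : ℕ) : ∀ k : ℕ,
    (AC (qk 100) (kk 100) K k).1 + kk 100 k * (AC (qk 100) (kk 100) K k).2
      ≤ ENNReal.ofReal (1 + 1 / 2 ^ (50 + k)) := by
  induction K with
  | zero =>
    intro k
    simp only [AC, mul_zero, add_zero]
    rw [← ENNReal.ofReal_one]
    apply ENNReal.ofReal_le_ofReal
    have : (0 : ℝ) < 1 / 2 ^ (50 + k) := by positivity
    linarith
  | succ K ih =>
    intro k
    have hB := ih (k + 1)
    simp only [AC]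
    set B := (AC (qk 100) (kk 100) K (k + 1)).1
      + kk 100 (k + 1) * (AC (qk 100) (kk 100) K (k + 1)).2 with hBdef
    have h1 : B * (1 + 4 * qk 100 k * kk 100 (k + 1)) + kk 100 k * (8 * qk 100 k * B)
        = B * (1 + (4 * qk 100 k * kk 100 (k + 1) + 8 * qk 100 k * kk 100 k)) := by ring
    rw [h1]
    calc B * (1 + (4 * qk 100 k * kk 100 (k + 1) + 8 * qk 100 k * kk 100 k))
        ≤ ENNReal.ofReal (1 + 1 / 2 ^ (50 + (k + 1)))
          * (1 + ENNReal.ofReal (1 / 2 ^ (60 + k))) :=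
          mul_le_mul' hB (add_le_add le_rfl (qkk_bound_aux k))
      _ = ENNReal.ofReal ((1 + 1 / 2 ^ (50 + (k + 1))) * (1 + 1 / 2 ^ (60 + k))) := by
          rw [ENNReal.ofReal_mul (by positivity), ENNReal.ofReal_add (by norm_num) (by positivity),
            ENNReal.ofReal_add (by norm_num) (by positivity), ENNReal.ofReal_one]
      _ ≤ _ := by
          apply ENNReal.ofReal_le_ofReal
          have e1 : (1 : ℝ) / 2 ^ (50 + (k + 1)) = (1 / 2 ^ (50 + k)) / 2 := by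
            rw [← add_assoc, pow_succ]
            field_simp
          have e2 : (1 : ℝ) / 2 ^ (60 + k) = (1 / 2 ^ (50 + k)) / 1024 := by
            have : (2 : ℝ) ^ (60 + k) = 2 ^ (50 + k) * 1024 := by
              rw [show 60 + k = 50 + k + 10 by ring, pow_add]
              norm_num
            rw [this]
            field_simp
          rw [e1, e2]
          have t0 : (0 : ℝ) < 1 / 2 ^ (50 + k) := by positivity
          have t1 : (1 : ℝ) / 2 ^ (50 + k) ≤ 1 := by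
            rw [div_le_one (by positivity)]
            exact one_le_pow₀ (by norm_num)
          nlinarith

theorem AC_bound (K : ℕ) :
    (AC (qk 100) (kk 100) K 0).1 + kk 100 0 * (AC (qk 100) (kk 100) K 0).2 ≤ 101 / 100 := by
  refine (AC_bound_aux K 0).trans ?_
  have : (101 / 100 : ℝ≥0∞) = ENNReal.ofReal (101 / 100) := by
    rw [ENNReal.ofReal_div_of_pos (by norm_num)]
    norm_num
  rw [this]
  apply ENNReal.ofReal_le_ofReal
  norm_num

theorem geom_quarter_aux (n : ℕ) : ∑ i ∈ Finset.range n, (1 / 4 : ℝ) ^ i ≤ 4 / 3 := by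
  have h : ∑ i ∈ Finset.range n, (1 / 4 : ℝ) ^ i = 4 / 3 * (1 - (1 / 4) ^ n) := by
    induction n with
    | zero => simp
    | succ n ih => rw [Finset.sum_range_succ, ih, pow_succ]; ring
  rw [h]
  have : (0 : ℝ) < (1 / 4) ^ n := by positivity
  linarith

theorem rpow_aux (a b m : ℕ) (hb : 0 < b) :
    ((2 : ℝ) ^ (b * m)) ^ ((a : ℝ) / b) = 2 ^ (a * m) := by
  rw [← Real.rpow_natCast, ← Real.rpow_mul (by norm_num), ← Real.rpow_natCast]
  congr 1
  push_cast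
  have : (b : ℝ) ≠ 0 := by positivity
  field_simp

theorem mk_sum_le (k0 K : ℕ) (x : Z3) :
    ∑ j : Fin (K + 1), mk (k0 + j) x ≤ 3 * (nq x + 2 ^ (80 * k0)) ^ (-(19 / 80) : ℝ) := by
  set A : ℝ := nq x + 2 ^ (80 * k0) with hA
  have hApos : 0 < A := mk_den_pos_aux k0 x
  -- the scale of `A`
  have hex : ∃ s : ℕ, A < 2 ^ (80 * (k0 + (s + 1))) := by
    obtain ⟨n, hn⟩ := pow_unbounded_of_one_lt A (one_lt_two : (1 : ℝ) < 2)
    refine ⟨n, hn.trans_le (pow_le_pow_right₀ (by norm_num) (by omega))⟩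
  classical
  obtain ⟨s, hs1, hs2⟩ : ∃ s : ℕ, (2 : ℝ) ^ (80 * (k0 + s)) ≤ A ∧ A < 2 ^ (80 * (k0 + (s + 1))) := by
    refine ⟨Nat.find hex, ?_, Nat.find_spec hex⟩
    by_contra hcon
    push Not at hcon
    rcases Nat.eq_zero_or_pos (Nat.find hex) with h | h
    · rw [h, add_zero] at hcon
      have := nq_nonneg_aux x
      rw [hA] at hcon
      linarith
    · refine Nat.find_min hex (Nat.sub_lt h one_pos) ?_
      have h' : Nat.find hex - 1 + 1 = Nat.find hex := Nat.succ_pred_eq_of_pos h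
      rw [h']
      exact hcon
  have hR : (0 : ℝ) < A ^ (-(19 / 80) : ℝ) := Real.rpow_pos_of_pos hApos _
  -- first range
  have hlow : ∀ j, j ≤ s → mk (k0 + j) x ≤ A ^ (-(19 / 80) : ℝ) * (1 / 4) ^ (s - j) := by
    intro j hj
    have h1 : Real.sqrt A ≤ Real.sqrt (nq x + 2 ^ (80 * (k0 + j))) := by
      apply Real.sqrt_le_sqrt
      rw [hA]
      have : (2 : ℝ) ^ (80 * k0) ≤ 2 ^ (80 * (k0 + j)) :=
        pow_le_pow_right₀ (by norm_num) (by omega)
      linarith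
    have h2 : mk (k0 + j) x ≤ 2 ^ (21 * (k0 + j)) / Real.sqrt A := by
      unfold mk
      exact div_le_div_of_nonneg_left (by positivity) (Real.sqrt_pos.2 hApos) h1
    have h3 : (2 : ℝ) ^ (21 * (k0 + j)) ≤ 2 ^ (21 * (k0 + s)) * (1 / 4) ^ (s - j) := by
      rw [one_div, inv_pow, ← div_eq_mul_inv, le_div_iff₀ (by positivity)]
      have : (4 : ℝ) = 2 ^ 2 := by norm_num
      rw [this, ← pow_mul, ← pow_add]
      exact pow_le_pow_right₀ (by norm_num) (by omega)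
    have h4 : (2 : ℝ) ^ (21 * (k0 + s)) ≤ A ^ (21 / 80 : ℝ) := by
      have := rpow_aux 21 80 (k0 + s) (by norm_num)
      rw [← this]
      push_cast
      exact Real.rpow_le_rpow (by positivity) hs1 (by norm_num)
    have h5 : A ^ (21 / 80 : ℝ) / Real.sqrt A = A ^ (-(19 / 80) : ℝ) := by
      rw [Real.sqrt_eq_rpow, ← Real.rpow_sub hApos]
      norm_num
    calc mk (k0 + j) x ≤ 2 ^ (21 * (k0 + j)) / Real.sqrt A := h2
      _ ≤ (2 ^ (21 * (k0 + s)) * (1 / 4) ^ (s - j)) / Real.sqrt A :=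
          div_le_div_of_nonneg_right h3 (Real.sqrt_nonneg _)
      _ ≤ (A ^ (21 / 80 : ℝ) * (1 / 4) ^ (s - j)) / Real.sqrt A :=
          div_le_div_of_nonneg_right (mul_le_mul_of_nonneg_right h4 (by positivity))
            (Real.sqrt_nonneg _)
      _ = (A ^ (21 / 80 : ℝ) / Real.sqrt A) * (1 / 4) ^ (s - j) := by ring
      _ = _ := by rw [h5]
  have hhigh : ∀ i, mk (k0 + (s + 1 + i)) x ≤ A ^ (-(19 / 80) : ℝ) * (1 / 4) ^ i := by
    intro i
    have h1 : (2 : ℝ) ^ (40 * (k0 + (s + 1 + i)))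
        ≤ Real.sqrt (nq x + 2 ^ (80 * (k0 + (s + 1 + i)))) := by
      rw [← sqrt_two_pow_aux]
      apply Real.sqrt_le_sqrt
      have := nq_nonneg_aux x
      linarith
    have h2 : mk (k0 + (s + 1 + i)) x
        ≤ 2 ^ (21 * (k0 + (s + 1 + i))) / 2 ^ (40 * (k0 + (s + 1 + i))) := by
      unfold mk
      exact div_le_div_of_nonneg_left (by positivity) (by positivity) h1
    have h3 : (2 : ℝ) ^ (21 * (k0 + (s + 1 + i))) / 2 ^ (40 * (k0 + (s + 1 + i)))
        ≤ (2 ^ (19 * (k0 + (s + 1))))⁻¹ * (1 / 4) ^ i := by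
      rw [one_div, inv_pow, ← mul_inv, ← one_div, div_le_div_iff₀ (by positivity) (by positivity)]
      have : (4 : ℝ) = 2 ^ 2 := by norm_num
      rw [this, ← pow_mul, ← pow_add, ← pow_add, one_mul]
      exact pow_le_pow_right₀ (by norm_num) (by omega)
    have h4 : ((2 : ℝ) ^ (19 * (k0 + (s + 1))))⁻¹ ≤ A ^ (-(19 / 80) : ℝ) := by
      have := rpow_aux 19 80 (k0 + (s + 1)) (by norm_num)
      rw [← this, Real.rpow_neg hApos.le]
      push_cast
      apply inv_anti₀ (Real.rpow_pos_of_pos hApos _)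
      exact Real.rpow_le_rpow hApos.le hs2.le (by norm_num)
    exact h2.trans (h3.trans (mul_le_mul_of_nonneg_right h4 (by positivity)))
  rw [Fin.sum_univ_eq_sum_range (fun j => mk (k0 + j) x) (K + 1)]
  calc ∑ j ∈ Finset.range (K + 1), mk (k0 + j) x
      ≤ ∑ j ∈ Finset.range (s + 1 + (K + 1)), mk (k0 + j) x := by
        apply Finset.sum_le_sum_of_subset_of_nonneg
        · exact Finset.range_mono (by omega)
        · intro i _ _
          exact (mk_pos _ _).le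
    _ = ∑ j ∈ Finset.range (s + 1), mk (k0 + j) x
        + ∑ i ∈ Finset.range (K + 1), mk (k0 + (s + 1 + i)) x := by
        rw [Finset.sum_range_add]
    _ ≤ ∑ j ∈ Finset.range (s + 1), A ^ (-(19 / 80) : ℝ) * (1 / 4) ^ (s - j)
        + ∑ i ∈ Finset.range (K + 1), A ^ (-(19 / 80) : ℝ) * (1 / 4) ^ i := by
        apply add_le_add
        · apply Finset.sum_le_sum
          intro j hj
          exact hlow j (Nat.lt_succ_iff.1 (Finset.mem_range.1 hj))
        · exact Finset.sum_le_sum fun i _ => hhigh i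
    _ = A ^ (-(19 / 80) : ℝ) * (∑ j ∈ Finset.range (s + 1), (1 / 4 : ℝ) ^ j)
        + A ^ (-(19 / 80) : ℝ) * ∑ i ∈ Finset.range (K + 1), (1 / 4 : ℝ) ^ i := by
        rw [← Finset.mul_sum, ← Finset.mul_sum]
        congr 2
        rw [← Finset.sum_range_reflect]
        apply Finset.sum_congr rfl
        intro j hj
        have := Finset.mem_range.1 hj
        congr 1
        omega
    _ ≤ A ^ (-(19 / 80) : ℝ) * (4 / 3) + A ^ (-(19 / 80) : ℝ) * (4 / 3) :=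
        add_le_add (mul_le_mul_of_nonneg_left (geom_quarter_aux _) hR.le)
          (mul_le_mul_of_nonneg_left (geom_quarter_aux _) hR.le)
    _ ≤ 3 * A ^ (-(19 / 80) : ℝ) := by linarith

theorem sum_inv_aux (N : ℕ) :
    ∑ k ∈ Finset.Icc (-(N : ℤ)) N, (1 : ℝ) / (1 + (k : ℝ) ^ 2) ≤ 5 - 4 / ((N : ℝ) + 1) := by
  induction N with
  | zero => simp; norm_num
  | succ N ih =>
    have h1 : Finset.Icc (-((N + 1 : ℕ) : ℤ)) ((N + 1 : ℕ) : ℤ)
        = insert (-((N + 1 : ℕ) : ℤ)) (insert ((N + 1 : ℕ) : ℤ) (Finset.Icc (-(N : ℤ)) N)) := by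
      ext k
      simp only [Finset.mem_Icc, Finset.mem_insert]
      omega
    rw [h1, Finset.sum_insert, Finset.sum_insert]
    · push_cast
      have hm : (0 : ℝ) < (N : ℝ) + 1 := by positivity
      have e : (1 : ℝ) / (1 + (-((N : ℝ) + 1)) ^ 2) = 1 / (1 + ((N : ℝ) + 1) ^ 2) := by
        rw [neg_sq]
      have e' : ((-1 : ℝ) + -(N : ℝ)) ^ 2 = ((N : ℝ) + 1) ^ 2 := by ring
      have h2 : 2 * ((1 : ℝ) / (1 + ((N : ℝ) + 1) ^ 2))
          ≤ 4 / ((N : ℝ) + 1) - 4 / ((N : ℝ) + 1 + 1) := by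
        have : (4 : ℝ) / ((N : ℝ) + 1) - 4 / ((N : ℝ) + 1 + 1)
            = 4 / (((N : ℝ) + 1) * ((N : ℝ) + 1 + 1)) := by
          field_simp
          ring
        rw [this, mul_div_assoc', div_le_div_iff₀ (by positivity) (by positivity)]
        nlinarith
      rw [e]
      linarith
    · simp only [Finset.mem_Icc]
      omega
    · simp only [Finset.mem_Icc, Finset.mem_insert]
      omega

theorem big_const_aux :
    (48 : ℝ) * ((96 : ℕ)! : ℝ) * 3200 ^ 96 * 1000 * 125 ≤ (2 ^ 8000) ^ 3 := by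
  have h1 : ((96 : ℕ)! : ℝ) ≤ 2 ^ 672 := by
    have : (96 : ℕ)! ≤ 96 ^ 96 := Nat.factorial_le_pow 96
    have h2 : ((96 : ℕ)! : ℝ) ≤ 96 ^ 96 := by exact_mod_cast this
    refine h2.trans ?_
    have h3 : (96 : ℝ) ^ 96 ≤ (2 ^ 7) ^ 96 := pow_le_pow_left₀ (by norm_num) (by norm_num) _
    rw [← pow_mul] at h3
    exact h3
  have h4 : (3200 : ℝ) ^ 96 ≤ 2 ^ 1152 := by
    have h3 : (3200 : ℝ) ^ 96 ≤ (2 ^ 12) ^ 96 :=
      pow_le_pow_left₀ (by norm_num) (by norm_num) _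
    rw [← pow_mul] at h3
    exact h3
  have h5 : (48 : ℝ) * 1000 * 125 ≤ 2 ^ 23 := by norm_num
  calc (48 : ℝ) * ((96 : ℕ)! : ℝ) * 3200 ^ 96 * 1000 * 125
      = (48 * 1000 * 125) * (((96 : ℕ)! : ℝ) * 3200 ^ 96) := by ring
    _ ≤ 2 ^ 23 * (2 ^ 672 * 2 ^ 1152) := by
        apply mul_le_mul h5 _ (by positivity) (by positivity)
        exact mul_le_mul h1 h4 (by positivity) (by positivity)
    _ = 2 ^ 1847 := by rw [← pow_add, ← pow_add]
    _ ≤ 2 ^ 24000 := pow_le_pow_right₀ (by norm_num) (by norm_num)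
    _ = (2 ^ 8000) ^ 3 := by rw [← pow_mul]

theorem term_bound_aux (c : ℝ) (hc1 : 1 ≤ c)
    (hc : (48 : ℝ) * ((96 : ℕ)! : ℝ) * 3200 ^ 96 * 1000 * 125 ≤ c ^ 3) (z : Z3) :
    48 * Real.exp (-((nq z + c) ^ (1 / 32 : ℝ)) ^ 2 / 3200)
      ≤ 1 / (1000 * 125) * ∏ i : Fin 3, (1 / (1 + (z i : ℝ) ^ 2)) := by
  set A : ℝ := nq z + c with hA
  have hnn := nq_nonneg_aux z
  have hApos : 0 < A := by linarith
  set y : ℝ := (A ^ (1 / 32 : ℝ)) ^ 2 / 3200 with hy
  have hypos : 0 < y := by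
    have := Real.rpow_pos_of_pos hApos (1 / 32 : ℝ)
    positivity
  have h1 : y ^ 96 / ((96 : ℕ)! : ℝ) ≤ Real.exp y := Real.pow_div_factorial_le_exp y hypos.le 96
  have h2 : y ^ 96 = A ^ 6 / 3200 ^ 96 := by
    rw [hy, div_pow, ← pow_mul, ← Real.rpow_natCast (A ^ (1 / 32 : ℝ)), ← Real.rpow_mul hApos.le,
      ← Real.rpow_natCast A 6]
    norm_num
  have h3 : -(A ^ (1 / 32 : ℝ)) ^ 2 / 3200 = -y := by
    rw [hy]
    ring
  rw [h3, Real.exp_neg]
  have hfac : (0 : ℝ) < ((96 : ℕ)! : ℝ) := by exact_mod_cast Nat.factorial_pos 96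
  have hp : ∏ i : Fin 3, (1 + (z i : ℝ) ^ 2) ≤ A ^ 3 := by
    have : A ^ 3 = ∏ _i : Fin 3, A := by simp
    rw [this]
    apply Finset.prod_le_prod
    · intro i _
      positivity
    · intro i _
      have : (z i : ℝ) ^ 2 ≤ nq z := by
        unfold nq
        exact Finset.single_le_sum (f := fun i => (z i : ℝ) ^ 2) (fun i _ => sq_nonneg _)
          (Finset.mem_univ i)
      linarith
  have hP : (0 : ℝ) < ∏ i : Fin 3, (1 + (z i : ℝ) ^ 2) := by
    apply Finset.prod_pos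
    intro i _
    positivity
  have h5 : ∏ i : Fin 3, (1 / (1 + (z i : ℝ) ^ 2)) = 1 / ∏ i : Fin 3, (1 + (z i : ℝ) ^ 2) := by
    rw [Finset.prod_div_distrib]
    simp
  have hcA : c ^ 3 ≤ A ^ 3 := pow_le_pow_left₀ (by linarith) (by linarith) _
  have h6 : c ^ 3 * ∏ i : Fin 3, (1 + (z i : ℝ) ^ 2) ≤ A ^ 6 := by
    have : A ^ 6 = A ^ 3 * A ^ 3 := by ring
    rw [this]
    exact mul_le_mul hcA hp hP.le (by positivity)
  rw [h5, ← div_eq_mul_inv, div_mul_div_comm, one_mul,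
    div_le_div_iff₀ (Real.exp_pos _) (by positivity), one_mul]
  have h7 : A ^ 6 / 3200 ^ 96 / ((96 : ℕ)! : ℝ) ≤ Real.exp y := by
    rw [← h2]
    exact h1
  refine le_trans ?_ h7
  rw [div_div, le_div_iff₀ (by positivity)]
  calc 48 * (1000 * 125 * ∏ i : Fin 3, (1 + (z i : ℝ) ^ 2)) * (3200 ^ 96 * ((96 : ℕ)! : ℝ))
      = ((48 : ℝ) * ((96 : ℕ)! : ℝ) * 3200 ^ 96 * 1000 * 125)
        * ∏ i : Fin 3, (1 + (z i : ℝ) ^ 2) := by ring
    _ ≤ c ^ 3 * ∏ i : Fin 3, (1 + (z i : ℝ) ^ 2) := mul_le_mul_of_nonneg_right hc hP.le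
    _ ≤ A ^ 6 := h6

theorem tail_sum_le (N : ℕ) :
    ∑ z : BV N, ENNReal.ofReal (48 * Real.exp (-((nq z.1 + 2 ^ 8000) ^ (1 / 32 : ℝ)) ^ 2 / 3200))
      ≤ 1 / 1000 := by
  have hbig := big_const_aux
  have hone : (1 : ℝ) ≤ 2 ^ 8000 := one_le_pow₀ (by norm_num)
  generalize (2 : ℝ) ^ 8000 = c at hbig hone ⊢
  rw [← ENNReal.ofReal_sum_of_nonneg (fun z _ => by positivity)]
  have e : (1 / 1000 : ℝ≥0∞) = ENNReal.ofReal (1 / 1000) := by
    rw [ENNReal.ofReal_div_of_pos (by norm_num)]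
    norm_num
  rw [e]
  apply ENNReal.ofReal_le_ofReal
  calc ∑ z : BV N, 48 * Real.exp (-((nq z.1 + c) ^ (1 / 32 : ℝ)) ^ 2 / 3200)
      ≤ ∑ z : BV N, 1 / (1000 * 125) * ∏ i : Fin 3, (1 / (1 + (z.1 i : ℝ) ^ 2)) :=
        Finset.sum_le_sum fun z _ => term_bound_aux c hone hbig z.1
    _ = 1 / (1000 * 125) * ∑ z : BV N, ∏ i : Fin 3, (1 / (1 + (z.1 i : ℝ) ^ 2)) := by
        rw [Finset.mul_sum]
    _ = 1 / (1000 * 125) * ∑ z ∈ bx N, ∏ i : Fin 3, (1 / (1 + (z i : ℝ) ^ 2)) := by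
        rw [← Finset.sum_coe_sort (bx N) (fun z => ∏ i : Fin 3, (1 / (1 + (z i : ℝ) ^ 2)))]
    _ = 1 / (1000 * 125) * ∏ _i : Fin 3, ∑ k ∈ Finset.Icc (-(N : ℤ)) N,
          (1 / (1 + (k : ℝ) ^ 2)) := by
        rw [Finset.prod_univ_sum]
        congr 1
    _ ≤ 1 / (1000 * 125) * ∏ _i : Fin 3, (5 : ℝ) := by
        apply mul_le_mul_of_nonneg_left _ (by norm_num)
        apply Finset.prod_le_prod
        · intro i _
          apply Finset.sum_nonneg
          intro k _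
          positivity
        · intro i _
          refine (sum_inv_aux N).trans ?_
          have : (0 : ℝ) ≤ 4 / ((N : ℝ) + 1) := by positivity
          linarith
    _ = 1 / 1000 := by
        simp
        norm_num

end Pool.Agent.Helper41.GF
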