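import Pool.Agent.Helper41.GF.ChainDefs
import Pool.Agent.Helper41.GF.Poisson
import Pool.Agent.Helper41.GF.Marks

/-!
# Definitions: finite weighted graphs with ghost edges, currents, signs, ghost paths
-/

set_option autoImplicit false

open scoped ENNReal Nat
open Finset MeasureTheory

namespace Pool.Agent.Helper41.GF


/-! ## TARGETS -/

section targets

variable {V E H : Type} [Fintype V] [DecidableEq V] [Fintype E] [DecidableEq E] [Fintype H]
  [DecidableEq H]

theorem list_tsum {P X : Type} (l : List P) (f : P → X → ℝ≥0∞) :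
    (l.map (fun p => ∑' x, f p x)).sum = ∑' x, (l.map (fun p => f p x)).sum := by
  induction l with
  | nil => simp
  | cons a l ih =>
    simp only [List.map_cons, List.sum_cons]
    rw [ih, ENNReal.tsum_add]

theorem one_tsum {X : Type} (G : GG V E H) (v : ℝ≥0∞) (α : V → V → ℝ≥0∞)
    (p : H × List (E × Bool) × H) (u : V) (C : X → List (E × Bool) → V → ℝ≥0∞) :
    G.one v α p u (fun seg w => ∑' x, C x seg w) = ∑' x, G.one v α p u (C x) := by
  unfold GG.one
  rw [Summable.tsum_finsetSum (fun _ _ => ENNReal.summable)]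
  apply Finset.sum_congr rfl
  intro b _
  rw [Summable.tsum_finsetSum (fun _ _ => ENNReal.summable)]
  apply Finset.sum_congr rfl
  intro a _
  split_ifs
  · rw [ENNReal.tsum_mul_left]
  · simp

theorem one_const (G : GG V E H) (v : ℝ≥0∞) (α : V → V → ℝ≥0∞)
    (p : H × List (E × Bool) × H) (u : V) (c : ℝ≥0∞) (C : List (E × Bool) → V → ℝ≥0∞) :
    G.one v α p u (fun seg w => c * C seg w) = c * G.one v α p u C := by
  unfold GG.one
  rw [Finset.mul_sum]
  apply Finset.sum_congr rfl
  intro b _
  rw [Finset.mul_sum]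
  apply Finset.sum_congr rfl
  intro a _
  split_ifs
  · ring
  · simp

/-- chains are countably additive in the test function -/
theorem chain_tsum {X : Type} (G : GG V E H) (v : ℕ → ℝ≥0∞) (α : ℕ → V → V → ℝ≥0∞) (K : ℕ)
    (ls : Fin K → List (H × List (E × Bool) × H)) (k : ℕ) (u : V)
    (F : X → List (E × Bool) → ℝ≥0∞) :
    G.chain v α K ls k u (fun ξ => ∑' x, F x ξ) = ∑' x, G.chain v α K ls k u (F x) := by
  induction K generalizing k u F with
  | zero => rfl
  | succ K ih =>
    simp only [GG.chain]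
    have h1 : ∀ p : H × List (E × Bool) × H,
        G.one (v (k + 1)) (α k) p u (fun seg w => G.chain v α K (fun i => ls i.succ) (k + 1) w
          (fun ξ => ∑' x, F x (seg ++ ξ)))
        = ∑' x, G.one (v (k + 1)) (α k) p u (fun seg w =>
            G.chain v α K (fun i => ls i.succ) (k + 1) w (fun ξ => F x (seg ++ ξ))) := by
      intro p
      rw [← one_tsum]
      congr 1
      funext seg w
      exact ih (fun i => ls i.succ) (k + 1) w (fun x ξ => F x (seg ++ ξ))
    simp only [h1]
    exact list_tsum _ _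

/-- the law is countably additive in the test function -/
theorem law_tsum {X : Type} (G : GG V E H) (v : ℕ → ℝ≥0∞) (β : ℕ → V → ℝ≥0∞) (K : ℕ)
    (k : ℕ) (u : V) (F : X → List (E × Bool) → ℝ≥0∞) :
    G.law v β K k u (fun ξ => ∑' x, F x ξ) = ∑' x, G.law v β K k u (F x) := by
  induction K generalizing k u F with
  | zero => rfl
  | succ K ih =>
    simp only [GG.law]
    rw [ENNReal.tsum_comm]
    apply tsum_congr
    intro seg
    rw [ENNReal.tsum_mul_left]
    congr 1
    exact ih (k + 1) _ (fun x ξ => F x (seg ++ ξ))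

theorem ennreal_alg (a b p g β L : ℝ≥0∞) (ha : a ≠ 0) (hat : a ≠ ∞) (hb : b ≠ 0) (hbt : b ≠ ∞) :
    2⁻¹ * a * p * b * (g * (2 * β / (a * b)) * L) = p * g * β * L := by
  rw [div_eq_mul_inv, ENNReal.mul_inv (Or.inl ha) (Or.inl hat)]
  have e : 2⁻¹ * a * p * b * (g * (2 * β * (a⁻¹ * b⁻¹)) * L)
      = (2⁻¹ * 2) * (a * a⁻¹) * (b * b⁻¹) * (p * g * β * L) := by ring
  rw [e, ENNReal.inv_mul_cancel two_ne_zero ENNReal.ofNat_ne_top, ENNReal.mul_inv_cancel ha hat,
    ENNReal.mul_inv_cancel hb hbt, one_mul, one_mul, one_mul]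

/-- one step -/
theorem one_step (G : GG V E H) (A : ℕ → H → Prop) [∀ k, DecidablePred (A k)]
    (m : ℕ → V → ℝ≥0∞) (hm0 : ∀ k x, m k x ≠ 0) (hmt : ∀ k x, m k x ≠ ∞)
    (hA : ∀ k x, G.mA (A k) x = m k x) (hB : ∀ k x, G.mB (A k) x = m k x)
    (v : ℕ → ℝ≥0∞) (β : ℕ → V → ℝ≥0∞) (α : ℕ → V → V → ℝ≥0∞)
    (hα : ∀ k u w, α k u w = 2 * β (k + 1) w / (m k u * m (k + 1) w)) (k : ℕ) (u : V)
    (L : List (E × Bool) → V → ℝ≥0∞) :
    ∑' p, G.lamk A k p * G.one (v (k + 1)) (α k) p u L
      = ∑' seg : List (E × Bool), G.pw u seg (G.fin u seg)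
      * (v (k + 1) * (1 - v (k + 1)) ^ seg.length) * β (k + 1) (G.fin u seg)
      * L seg (G.fin u seg) := by
  have h := G.two_marks (A k) (A (k + 1)) (fun x seg w => if x = u then
    v (k + 1) * (1 - v (k + 1)) ^ seg.length * α k u w * L seg w else 0)
  have h1 : ∀ p : H × List (E × Bool) × H, G.one (v (k + 1)) (α k) p u L =
      ∑ b ∈ range (p.2.1.length + 1), ∑ a ∈ range (b + 1),
        (fun (x : V) (seg : List (E × Bool)) (w : V) => if x = u then
    v (k + 1) * (1 - v (k + 1)) ^ seg.length * α k u w * L seg w else 0)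
          (G.site p a) ((p.2.1.take b).drop a) (G.site p b) := by
    intro p
    unfold GG.one
    apply Finset.sum_congr rfl
    intro b hb
    apply Finset.sum_congr rfl
    intro a _
    rw [Finset.mem_range] at hb
    have hlen : ((p.2.1.take b).drop a).length = b - a := by
      rw [List.length_drop, List.length_take, min_eq_left (by omega)]
    simp only [hlen]
  simp only [h1]
  simp only [GG.lamk]
  rw [h]
  rw [Finset.sum_eq_single u]
  · apply tsum_congr
    intro l
    rw [if_pos rfl, hA, hB, hα]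
    exact ennreal_alg _ _ _ _ _ _ (hm0 _ _) (hmt _ _) (hm0 _ _) (hmt _ _)
  · intro x _ hx
    simp [hx]
  · intro h; exact absurd (Finset.mem_univ u) h

/-- first moment of the chains -/
theorem chain_first (G : GG V E H) (A : ℕ → H → Prop) [∀ k, DecidablePred (A k)]
    (m : ℕ → V → ℝ≥0∞) (hm0 : ∀ k x, m k x ≠ 0) (hmt : ∀ k x, m k x ≠ ∞)
    (hA : ∀ k x, G.mA (A k) x = m k x) (hB : ∀ k x, G.mB (A k) x = m k x)
    (v : ℕ → ℝ≥0∞) (β : ℕ → V → ℝ≥0∞) (α : ℕ → V → V → ℝ≥0∞)
    (hα : ∀ k u w, α k u w = 2 * β (k + 1) w / (m k u * m (k + 1) w)) (K : ℕ) :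
    ∀ (k : ℕ) (u : V) (F : List (E × Bool) → ℝ≥0∞),
    ∑' ls : Fin K → List (H × List (E × Bool) × H),
      (∏ i : Fin K, ((ls i).map (G.lamk A (k + i))).prod / (((ls i).length)! : ℝ≥0∞))
        * G.chain v α K ls k u F
      = (∏ i : Fin K, PEx (G.lamk A (k + i)) (fun _ => 1)) * G.law v β K k u F := by
  induction K with
  | zero =>
    intro k u F
    rw [tsum_eq_single default (fun b hb => absurd (Subsingleton.elim b default) hb)]
    simp [GG.chain, GG.law]
  | succ K ih =>
    intro k u F
    rw [← (Fin.consEquiv (fun _ : Fin (K + 1) => List (H × List (E × Bool) × H))).tsum_eq,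
      ENNReal.summable.tsum_prod' (fun _ => ENNReal.summable)]
    have hidx : ∀ i : Fin K, k + ((i.succ : Fin (K + 1)) : ℕ) = k + 1 + (i : ℕ) := by
      intro i; rw [Fin.val_succ]; omega
    set Pi1 : ℝ≥0∞ := ∏ i : Fin K, PEx (G.lamk A (k + 1 + i)) (fun _ => 1) with hPi1
    set B : H × List (E × Bool) × H → ℝ≥0∞ := fun p => G.one (v (k + 1)) (α k) p u
      (fun seg w => G.law v β K (k + 1) w (fun ξ => F (seg ++ ξ))) with hB'
    have key : ∀ l0 : List (H × List (E × Bool) × H),
        ∑' ls' : Fin K → List (H × List (E × Bool) × H),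
          (∏ i : Fin (K + 1), (((Fin.consEquiv (fun _ : Fin (K + 1) => List (H × List (E × Bool) × H)))
              (l0, ls') i).map (G.lamk A (k + i))).prod /
            (((((Fin.consEquiv (fun _ : Fin (K + 1) => List (H × List (E × Bool) × H)))
              (l0, ls') i).length)! : ℕ) : ℝ≥0∞))
          * G.chain v α (K + 1) ((Fin.consEquiv (fun _ : Fin (K + 1) => List (H × List (E × Bool) × H)))
              (l0, ls')) k u F
        = Pi1 * ((l0.map (G.lamk A k)).prod / ((l0.length)! : ℝ≥0∞) * (l0.map B).sum) := by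
      intro l0
      have e1 : ∀ ls' : Fin K → List (H × List (E × Bool) × H),
          (∏ i : Fin (K + 1), (((Fin.consEquiv (fun _ : Fin (K + 1) => List (H × List (E × Bool) × H)))
              (l0, ls') i).map (G.lamk A (k + i))).prod /
            (((((Fin.consEquiv (fun _ : Fin (K + 1) => List (H × List (E × Bool) × H)))
              (l0, ls') i).length)! : ℕ) : ℝ≥0∞))
          * G.chain v α (K + 1) ((Fin.consEquiv (fun _ : Fin (K + 1) => List (H × List (E × Bool) × H)))
              (l0, ls')) k u F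
          = (l0.map (G.lamk A k)).prod / ((l0.length)! : ℝ≥0∞) *
            (l0.map (fun p => G.one (v (k + 1)) (α k) p u (fun seg w =>
              (∏ i : Fin K, ((ls' i).map (G.lamk A (k + 1 + i))).prod / (((ls' i).length)! : ℝ≥0∞))
                * G.chain v α K ls' (k + 1) w (fun ξ => F (seg ++ ξ))))).sum := by
        intro ls'
        rw [Fin.prod_univ_succ]
        simp only [Fin.consEquiv_apply, Fin.cons_zero, Fin.cons_succ, Fin.val_zero, add_zero, hidx,
          GG.chain]
        simp only [one_const, List.sum_map_mul_left]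
        ring
      simp only [e1]
      rw [ENNReal.tsum_mul_left, ← list_tsum]
      have e2 : ∀ p : H × List (E × Bool) × H,
          ∑' ls' : Fin K → List (H × List (E × Bool) × H), G.one (v (k + 1)) (α k) p u (fun seg w =>
              (∏ i : Fin K, ((ls' i).map (G.lamk A (k + 1 + i))).prod / (((ls' i).length)! : ℝ≥0∞))
                * G.chain v α K ls' (k + 1) w (fun ξ => F (seg ++ ξ))) = Pi1 * B p := by
        intro p
        rw [← one_tsum, hB', ← one_const]
        congr 1
        funext seg w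
        exact ih (k + 1) w (fun ξ => F (seg ++ ξ))
      simp only [e2, List.sum_map_mul_left]
      ring
    rw [tsum_congr key, ENNReal.tsum_mul_left]
    have hP := PEx_sum (G.lamk A k) B
    unfold PEx at hP
    rw [hP, Fin.prod_univ_succ]
    simp only [hidx, Fin.val_zero, add_zero]
    rw [hB', one_step G A m hm0 hmt hA hB v β α hα k u
      (fun seg w => G.law v β K (k + 1) w (fun ξ => F (seg ++ ξ)))]
    simp only [GG.law]
    rw [← hPi1]
    unfold PEx
    ring

end targets

end Pool.Agent.Helper41.GF
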