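import Pool.Agent.Helper41.GF.GreenG
import Pool.Agent.Helper41.GF.ChainA

/-!
# Definitions: finite weighted graphs with ghost edges, currents, signs, ghost paths
-/

set_option autoImplicit false

open scoped ENNReal Nat
open Finset MeasureTheory

namespace Pool.Agent.Helper41.GF


section given
variable {V E H : Type} [Fintype V] [DecidableEq V] [Fintype E] [DecidableEq E] [Fintype H]
  [DecidableEq H]

namespace GG

end GG

end given

/-! ## TARGETS -/

section targets

variable {V E H : Type} [Fintype V] [DecidableEq V] [Fintype E] [DecidableEq E] [Fintype H]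
  [DecidableEq H]

theorem aux_fin_append (G : GG V E H) (u : V) (l1 l2 : List (E × Bool)) :
    G.fin u (l1 ++ l2) = G.fin (G.fin u l1) l2 := by
  induction l1 generalizing u with
  | nil => simp [GG.fin]
  | cons d l ih => simp [GG.fin, ih]

theorem aux_W_append (G : GG V E H) (u : V) (l1 l2 : List (E × Bool)) :
    G.pw u (l1 ++ l2) (G.fin u (l1 ++ l2))
      = G.pw u l1 (G.fin u l1) * G.pw (G.fin u l1) l2 (G.fin (G.fin u l1) l2) := by
  induction l1 generalizing u with
  | nil => simp [GG.fin, GG.pw]
  | cons d l ih =>
    simp only [List.cons_append, GG.pw, GG.fin]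
    split_ifs
    · rw [ih, mul_assoc]
    · simp

theorem aux_pw (G : GG V E H) (u : V) (l : List (E × Bool)) (y : V) :
    G.pw u l y = if G.fin u l = y then G.pw u l (G.fin u l) else 0 := by
  induction l generalizing u with
  | nil => simp [GG.fin, GG.pw]
  | cons d l ih =>
    simp only [GG.pw, GG.fin]
    rw [ih]
    split_ifs <;> simp

theorem aux_row (G : GG V E H) (n : ℕ) (u : V) :
    ∑ y, G.pwr n u y
      = ∑' l : List (E × Bool), if l.length = n then G.pw u l (G.fin u l) else 0 := by
  unfold GG.pwr
  rw [← Summable.tsum_finsetSum (fun _ _ => ENNReal.summable)]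
  refine tsum_congr fun l => ?_
  by_cases hl : l.length = n
  · simp only [hl, if_true]
    rw [Finset.sum_congr rfl (fun y _ => aux_pw G u l y)]
    simp
  · simp [hl]

theorem aux_mass (G : GG V E H) (hrow : RowLe G 0) (n : ℕ) (u : V) :
    (∑' l : List (E × Bool), if l.length = n then G.pw u l (G.fin u l) else 0) ≤ 1 := by
  rw [← aux_row]
  have h := pwr_row G 0 le_rfl zero_le_one hrow n u
  simpa using h

theorem aux_mass_c (G : GG V E H) (hrow : RowLe G 0) (u : V) (c : ℕ → ℝ≥0∞) :
    ∑' l : List (E × Bool), G.pw u l (G.fin u l) * c l.length ≤ ∑' n, c n := by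
  calc ∑' l : List (E × Bool), G.pw u l (G.fin u l) * c l.length
      = ∑' l : List (E × Bool), ∑' n, (if l.length = n then G.pw u l (G.fin u l) else 0) * c n := by
        refine tsum_congr fun l => ?_
        rw [tsum_eq_single l.length]
        · simp
        · intro n hn
          simp [Ne.symm hn]
    _ = ∑' n, ∑' l : List (E × Bool), (if l.length = n then G.pw u l (G.fin u l) else 0) * c n :=
        ENNReal.tsum_comm
    _ = ∑' n, (∑' l : List (E × Bool), if l.length = n then G.pw u l (G.fin u l) else 0) * c n := by
        refine tsum_congr fun n => ?_
        rw [ENNReal.tsum_mul_right]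
    _ ≤ ∑' n, c n := by
        refine ENNReal.tsum_le_tsum fun n => ?_
        calc _ ≤ 1 * c n := by gcongr; exact aux_mass G hrow n u
          _ = c n := one_mul _

theorem aux_geom (v : ℝ≥0∞) (hv0 : v ≠ 0) (hv : v ≤ 1) : ∑' n : ℕ, v * (1 - v) ^ n = 1 := by
  rw [ENNReal.tsum_mul_left, ENNReal.tsum_geometric, ENNReal.sub_sub_cancel ENNReal.one_ne_top hv]
  exact ENNReal.mul_inv_cancel hv0 (ne_top_of_le_ne_top ENNReal.one_ne_top hv)

theorem aux_geom_fin (v : ℝ≥0∞) (hv : v ≤ 1) (n : ℕ) :
    (1 - v) ^ n + ∑ s ∈ range n, v * (1 - v) ^ s = 1 := by
  induction n with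
  | zero => simp
  | succ n ih =>
    rw [Finset.sum_range_succ, pow_succ]
    have h : (1 - v) + v = 1 := tsub_add_cancel_of_le hv
    calc (1 - v) ^ n * (1 - v) + (∑ s ∈ range n, v * (1 - v) ^ s + v * (1 - v) ^ n)
        = (1 - v) ^ n * ((1 - v) + v) + ∑ s ∈ range n, v * (1 - v) ^ s := by ring
      _ = 1 := by rw [h, mul_one, ih]

theorem aux_mass_geom (G : GG V E H) (hrow : RowLe G 0) (u : V) (v : ℝ≥0∞) (hv0 : v ≠ 0)
    (hv : v ≤ 1) :
    ∑' l : List (E × Bool), G.pw u l (G.fin u l) * (v * (1 - v) ^ l.length) ≤ 1 := by
  refine (aux_mass_c G hrow u (fun n => v * (1 - v) ^ n)).trans ?_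
  rw [aux_geom v hv0 hv]

/-- monotonicity in the test function -/
theorem law_mono (G : GG V E H) (v : ℕ → ℝ≥0∞) (β : ℕ → V → ℝ≥0∞) (K k : ℕ) (u : V)
    (F F' : List (E × Bool) → ℝ≥0∞) (h : ∀ ξ, F ξ ≤ F' ξ) :
    G.law v β K k u F ≤ G.law v β K k u F' := by
  induction K generalizing k u F F' with
  | zero => exact h []
  | succ K ih =>
    simp only [GG.law]
    refine ENNReal.tsum_le_tsum fun seg => ?_
    gcongr
    exact ih _ _ _ _ (fun ξ => h _)

theorem aux_law_const (G : GG V E H) (hrow : RowLe G 0) (v : ℕ → ℝ≥0∞) (hv0 : ∀ k, v k ≠ 0)
    (hv : ∀ k, v k ≤ 1) (β : ℕ → V → ℝ≥0∞) (hβ : ∀ k w, β k w ≤ 1) (K k : ℕ) (u : V)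
    (c : ℝ≥0∞) :
    G.law v β K k u (fun _ => c) ≤ c := by
  induction K generalizing k u with
  | zero => exact le_rfl
  | succ K ih =>
    simp only [GG.law]
    calc ∑' seg : List (E × Bool), G.pw u seg (G.fin u seg)
          * (v (k + 1) * (1 - v (k + 1)) ^ seg.length) * β (k + 1) (G.fin u seg)
          * G.law v β K (k + 1) (G.fin u seg) (fun _ => c)
        ≤ ∑' seg : List (E × Bool), G.pw u seg (G.fin u seg)
          * (v (k + 1) * (1 - v (k + 1)) ^ seg.length) * 1 * c := by
          refine ENNReal.tsum_le_tsum fun seg => ?_
          gcongr
          · exact hβ _ _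
          · exact ih _ _
      _ = (∑' seg : List (E × Bool), G.pw u seg (G.fin u seg)
          * (v (k + 1) * (1 - v (k + 1)) ^ seg.length)) * c := by
          simp only [mul_one]
          rw [ENNReal.tsum_mul_right]
      _ ≤ 1 * c := by
          gcongr
          exact aux_mass_geom G hrow u _ (hv0 _) (hv _)
      _ = c := one_mul c

theorem law_one_le (G : GG V E H) (hrow : RowLe G 0) (v : ℕ → ℝ≥0∞) (hv0 : ∀ k, v k ≠ 0)
    (hv : ∀ k, v k ≤ 1) (β : ℕ → V → ℝ≥0∞) (hβ : ∀ k w, β k w ≤ 1) (K k : ℕ) (u : V) :
    G.law v β K k u (fun _ => 1) ≤ 1 :=
  aux_law_const G hrow v hv0 hv β hβ K k u 1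

/-- probability of a given prefix -/
theorem law_prefix (G : GG V E H) (hrow : RowLe G 0) (v : ℕ → ℝ≥0∞) (hv0 : ∀ k, v k ≠ 0)
    (hv : ∀ k, v k ≤ 1) (β : ℕ → V → ℝ≥0∞) (hβ : ∀ k w, β k w ≤ 1) (K k : ℕ) (u : V)
    (d : List (E × Bool)) :
    G.law v β K k u (fun ξ => if ξ.take d.length = d then 1 else 0) ≤ G.pw u d (G.fin u d) := by
  induction K generalizing k u d with
  | zero =>
    simp only [GG.law, List.take_nil]
    split_ifs with h
    · rw [← h]
      simp [GG.pw, GG.fin]
    · exact zero_le
  | succ K ih =>
    simp only [GG.law]
    have hpt : ∀ seg : List (E × Bool), G.pw u seg (G.fin u seg)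
          * (v (k + 1) * (1 - v (k + 1)) ^ seg.length) * β (k + 1) (G.fin u seg)
          * G.law v β K (k + 1) (G.fin u seg)
            (fun ξ => if (seg ++ ξ).take d.length = d then 1 else 0)
        ≤ (if seg.take d.length = d then G.pw u seg (G.fin u seg)
            * (v (k + 1) * (1 - v (k + 1)) ^ seg.length) else 0)
          + ∑ s ∈ range d.length, (if seg = d.take s then
              G.pw u d (G.fin u d) * (v (k + 1) * (1 - v (k + 1)) ^ s) else 0) := by
      intro seg
      rcases le_or_gt d.length seg.length with hlen | hlen
      · refine le_trans ?_ le_self_add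
        have htake : ∀ ξ : List (E × Bool), (seg ++ ξ).take d.length = seg.take d.length := by
          intro ξ
          rw [List.take_append_of_le_length hlen]
        simp only [htake]
        split_ifs with h
        · calc G.pw u seg (G.fin u seg)
                * (v (k + 1) * (1 - v (k + 1)) ^ seg.length) * β (k + 1) (G.fin u seg)
                * G.law v β K (k + 1) (G.fin u seg) (fun ξ => 1)
              ≤ G.pw u seg (G.fin u seg)
                * (v (k + 1) * (1 - v (k + 1)) ^ seg.length) * 1 * 1 := by
                gcongr
                · exact hβ _ _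
                · exact law_one_le G hrow v hv0 hv β hβ K (k + 1) _
            _ = _ := by rw [mul_one, mul_one]
        · have h0 := aux_law_const G hrow v hv0 hv β hβ K (k + 1) (G.fin u seg) 0
          rw [nonpos_iff_eq_zero.1 h0, mul_zero]
      · refine le_trans ?_ le_add_self
        by_cases hs : seg = d.take seg.length
        · have hlaw : G.law v β K (k + 1) (G.fin u seg)
              (fun ξ => if (seg ++ ξ).take d.length = d then 1 else 0)
              ≤ G.pw (G.fin u seg) (d.drop seg.length)
                (G.fin (G.fin u seg) (d.drop seg.length)) := by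
            refine le_trans (law_mono G v β K (k + 1) _ _ _ ?_) (ih (k + 1) (G.fin u seg)
              (d.drop seg.length))
            intro ξ
            split_ifs with h1 h2 h2
            · exact le_rfl
            · exfalso
              apply h2
              have h3 := congrArg (List.drop seg.length) h1
              rw [List.drop_take, List.drop_left] at h3
              rw [List.length_drop]
              exact h3
            · exact zero_le
            · exact le_rfl
          have hW : G.pw u seg (G.fin u seg) * G.pw (G.fin u seg) (d.drop seg.length)
                (G.fin (G.fin u seg) (d.drop seg.length)) = G.pw u d (G.fin u d) := by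
            rw [← aux_W_append]
            have hd : seg ++ d.drop seg.length = d := by
              conv_lhs => rw [hs]
              rw [← hs]
              conv_lhs => arg 1; rw [hs]
              exact List.take_append_drop _ _
            rw [hd]
          calc G.pw u seg (G.fin u seg)
                * (v (k + 1) * (1 - v (k + 1)) ^ seg.length) * β (k + 1) (G.fin u seg)
                * G.law v β K (k + 1) (G.fin u seg)
                  (fun ξ => if (seg ++ ξ).take d.length = d then 1 else 0)
              ≤ G.pw u seg (G.fin u seg)
                * (v (k + 1) * (1 - v (k + 1)) ^ seg.length) * 1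
                * G.pw (G.fin u seg) (d.drop seg.length)
                (G.fin (G.fin u seg) (d.drop seg.length)) := by
                gcongr
                exact hβ _ _
            _ = (G.pw u seg (G.fin u seg) * G.pw (G.fin u seg) (d.drop seg.length)
                (G.fin (G.fin u seg) (d.drop seg.length)))
                * (v (k + 1) * (1 - v (k + 1)) ^ seg.length) := by ring
            _ = if seg = d.take seg.length then
                G.pw u d (G.fin u d) * (v (k + 1) * (1 - v (k + 1)) ^ seg.length) else 0 := by
                rw [hW, if_pos hs]
            _ ≤ _ := by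
                exact Finset.single_le_sum (f := fun s => if seg = d.take s then
                  G.pw u d (G.fin u d) * (v (k + 1) * (1 - v (k + 1)) ^ s) else 0)
                  (fun _ _ => zero_le) (Finset.mem_range.2 hlen)
        · have h0 : G.law v β K (k + 1) (G.fin u seg)
              (fun ξ => if (seg ++ ξ).take d.length = d then 1 else 0) ≤ 0 := by
            refine le_trans (law_mono G v β K (k + 1) _ _ (fun _ => 0) ?_)
              (aux_law_const G hrow v hv0 hv β hβ K (k + 1) _ 0)
            intro ξ
            rw [if_neg]
            intro h1
            apply hs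
            have h3 := congrArg (List.take seg.length) h1
            rw [List.take_take, min_eq_left hlen.le, List.take_left] at h3
            exact h3
          rw [nonpos_iff_eq_zero.1 h0, mul_zero]
          exact zero_le
    refine (ENNReal.tsum_le_tsum hpt).trans ?_
    rw [ENNReal.tsum_add]
    have h1 : (∑' seg : List (E × Bool), if seg.take d.length = d then G.pw u seg (G.fin u seg)
            * (v (k + 1) * (1 - v (k + 1)) ^ seg.length) else 0)
          ≤ G.pw u d (G.fin u d) * (1 - v (k + 1)) ^ d.length := by
      have hinj : Function.Injective (fun r : List (E × Bool) => d ++ r) := by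
        intro a b hab
        exact List.append_cancel_left hab
      rw [← hinj.tsum_eq]
      · calc (∑' r : List (E × Bool), if (d ++ r).take d.length = d then
                G.pw u (d ++ r) (G.fin u (d ++ r))
                  * (v (k + 1) * (1 - v (k + 1)) ^ (d ++ r).length) else 0)
            = ∑' r : List (E × Bool), (G.pw u d (G.fin u d) * (1 - v (k + 1)) ^ d.length) *
                (G.pw (G.fin u d) r (G.fin (G.fin u d) r)
                  * (v (k + 1) * (1 - v (k + 1)) ^ r.length)) := by
              refine tsum_congr fun r => ?_
              rw [if_pos (List.take_left), aux_W_append, List.length_append, pow_add]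
              ring
          _ = (G.pw u d (G.fin u d) * (1 - v (k + 1)) ^ d.length) *
                ∑' r : List (E × Bool), (G.pw (G.fin u d) r (G.fin (G.fin u d) r)
                  * (v (k + 1) * (1 - v (k + 1)) ^ r.length)) := ENNReal.tsum_mul_left
          _ ≤ (G.pw u d (G.fin u d) * (1 - v (k + 1)) ^ d.length) * 1 := by
              gcongr
              exact aux_mass_geom G hrow _ _ (hv0 _) (hv _)
          _ = _ := mul_one _
      · intro seg hseg
        rw [Function.mem_support] at hseg
        by_cases h : seg.take d.length = d
        · refine ⟨seg.drop d.length, ?_⟩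
          show d ++ seg.drop d.length = seg
          conv_lhs => arg 1; rw [← h]
          exact List.take_append_drop _ _
        · exact absurd (if_neg h) hseg
    have h2 : (∑' seg : List (E × Bool), ∑ s ∈ range d.length, (if seg = d.take s then
              G.pw u d (G.fin u d) * (v (k + 1) * (1 - v (k + 1)) ^ s) else 0))
          = G.pw u d (G.fin u d) * ∑ s ∈ range d.length, v (k + 1) * (1 - v (k + 1)) ^ s := by
      rw [Summable.tsum_finsetSum (fun _ _ => ENNReal.summable), Finset.mul_sum]
      refine Finset.sum_congr rfl fun s _ => ?_
      rw [tsum_ite_eq]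
    rw [h2]
    refine (add_le_add h1 le_rfl).trans ?_
    rw [← mul_add, aux_geom_fin _ (hv _), mul_one]

/-- short walks are unlikely -/
theorem law_short (G : GG V E H) (hrow : RowLe G 0) (v : ℕ → ℝ≥0∞) (hv0 : ∀ k, v k ≠ 0)
    (hv : ∀ k, v k ≤ 1) (β : ℕ → V → ℝ≥0∞) (hβ : ∀ k w, β k w ≤ 1) (K k : ℕ) (u : V) (n : ℕ) :
    G.law v β (K + 1) k u (fun ξ => if ξ.length < n then 1 else 0) ≤ n * v (k + (K + 1)) := by
  induction K generalizing k u with
  | zero =>
    simp only [GG.law, List.append_nil]
    calc ∑' seg : List (E × Bool), G.pw u seg (G.fin u seg)
          * (v (k + 1) * (1 - v (k + 1)) ^ seg.length) * β (k + 1) (G.fin u seg)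
          * (if seg.length < n then 1 else 0)
        ≤ ∑' seg : List (E × Bool), G.pw u seg (G.fin u seg)
          * (if seg.length < n then v (k + 1) else 0) := by
          refine ENNReal.tsum_le_tsum fun seg => ?_
          split_ifs with h
          · calc G.pw u seg (G.fin u seg)
                  * (v (k + 1) * (1 - v (k + 1)) ^ seg.length) * β (k + 1) (G.fin u seg) * 1
                ≤ G.pw u seg (G.fin u seg) * (v (k + 1) * 1) * 1 * 1 := by
                  gcongr
                  · exact pow_le_one₀ zero_le tsub_le_self
                  · exact hβ _ _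
              _ = _ := by ring
          · simp
      _ ≤ ∑' m : ℕ, (if m < n then v (k + 1) else 0) :=
          aux_mass_c G hrow u (fun m => if m < n then v (k + 1) else 0)
      _ = n * v (k + (0 + 1)) := by
          rw [tsum_eq_sum (s := range n)]
          · rw [Finset.sum_congr rfl (fun m hm => if_pos (Finset.mem_range.1 hm))]
            simp
          · intro m hm
            exact if_neg (fun h => hm (Finset.mem_range.2 h))
  | succ K ih =>
    rw [GG.law]
    have e : k + (K + 1 + 1) = (k + 1) + (K + 1) := by ring
    rw [e]
    calc ∑' seg : List (E × Bool), G.pw u seg (G.fin u seg)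
          * (v (k + 1) * (1 - v (k + 1)) ^ seg.length) * β (k + 1) (G.fin u seg)
          * G.law v β (K + 1) (k + 1) (G.fin u seg)
            (fun ξ => if (seg ++ ξ).length < n then 1 else 0)
        ≤ ∑' seg : List (E × Bool), (G.pw u seg (G.fin u seg)
          * (v (k + 1) * (1 - v (k + 1)) ^ seg.length)) * (n * v (k + 1 + (K + 1))) := by
          refine ENNReal.tsum_le_tsum fun seg => ?_
          calc _ ≤ G.pw u seg (G.fin u seg)
                * (v (k + 1) * (1 - v (k + 1)) ^ seg.length) * 1
                * (n * v (k + 1 + (K + 1))) := by
                gcongr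
                · exact hβ _ _
                · refine le_trans (law_mono G v β (K + 1) (k + 1) _ _ _ ?_)
                    (ih (k + 1) (G.fin u seg))
                  intro ξ
                  split_ifs with h1 h2 h2
                  · exact le_rfl
                  · exfalso
                    apply h2
                    rw [List.length_append] at h1
                    omega
                  · exact zero_le
                  · exact le_rfl
            _ = _ := by rw [mul_one]
      _ = (∑' seg : List (E × Bool), G.pw u seg (G.fin u seg)
          * (v (k + 1) * (1 - v (k + 1)) ^ seg.length)) * (n * v (k + 1 + (K + 1))) :=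
          ENNReal.tsum_mul_right
      _ ≤ 1 * (n * v (k + 1 + (K + 1))) := by
          gcongr
          exact aux_mass_geom G hrow u _ (hv0 _) (hv _)
      _ = _ := one_mul _

theorem aux_law_add (G : GG V E H) (v : ℕ → ℝ≥0∞) (β : ℕ → V → ℝ≥0∞) (K k : ℕ) (u : V)
    (F F' : List (E × Bool) → ℝ≥0∞) :
    G.law v β K k u (fun ξ => F ξ + F' ξ) = G.law v β K k u F + G.law v β K k u F' := by
  induction K generalizing k u F F' with
  | zero => rfl
  | succ K ih =>
    simp only [GG.law]
    rw [← ENNReal.tsum_add]
    refine tsum_congr fun seg => ?_
    rw [ih, mul_add]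

/-- expected number of visits -/
theorem law_visits (G : GG V E H) (hrow : RowLe G 0) (v : ℕ → ℝ≥0∞) (hv0 : ∀ k, v k ≠ 0)
    (hv : ∀ k, v k ≤ 1) (β : ℕ → V → ℝ≥0∞) (hβ : ∀ k w, β k w ≤ 1) (K k : ℕ) (u z : V) :
    G.law v β K k u (fun ξ => ∑ i ∈ range (ξ.length + 1), if G.fin u (ξ.take i) = z then 1 else 0)
      ≤ G.Gr u z := by
  induction K generalizing k u with
  | zero =>
    simp only [GG.law, List.length_nil, zero_add, Finset.sum_range_one, List.take_nil, GG.fin,
      GG.Gr]
    rw [← GG.pwr_zero G u z]
    exact ENNReal.le_tsum 0
  | succ K ih =>
    simp only [GG.law]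
    set q := v (k + 1) with hq
    -- pointwise bound
    have hpt : ∀ seg : List (E × Bool), G.pw u seg (G.fin u seg)
          * (q * (1 - q) ^ seg.length) * β (k + 1) (G.fin u seg)
          * G.law v β K (k + 1) (G.fin u seg)
            (fun ξ => ∑ i ∈ range ((seg ++ ξ).length + 1),
              if G.fin u ((seg ++ ξ).take i) = z then 1 else 0)
        ≤ G.pw u seg (G.fin u seg) * (q * (1 - q) ^ seg.length)
            * (∑ i ∈ range seg.length, if G.fin u (seg.take i) = z then 1 else 0)
          + G.pw u seg (G.fin u seg) * (q * (1 - q) ^ seg.length) * G.Gr (G.fin u seg) z := by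
      intro seg
      rw [← mul_add]
      have hlaw : G.law v β K (k + 1) (G.fin u seg)
            (fun ξ => ∑ i ∈ range ((seg ++ ξ).length + 1),
              if G.fin u ((seg ++ ξ).take i) = z then 1 else 0)
          ≤ (∑ i ∈ range seg.length, if G.fin u (seg.take i) = z then 1 else 0)
            + G.Gr (G.fin u seg) z := by
        have he : (fun ξ : List (E × Bool) => ∑ i ∈ range ((seg ++ ξ).length + 1),
              if G.fin u ((seg ++ ξ).take i) = z then (1 : ℝ≥0∞) else 0)
            = fun ξ => (∑ i ∈ range seg.length,
                if G.fin u (seg.take i) = z then (1 : ℝ≥0∞) else 0)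
              + ∑ i ∈ range (ξ.length + 1),
                if G.fin (G.fin u seg) (ξ.take i) = z then (1 : ℝ≥0∞) else 0 := by
          funext ξ
          rw [List.length_append, add_assoc, Finset.sum_range_add]
          congr 1
          · refine Finset.sum_congr rfl fun i hi => ?_
            rw [List.take_append_of_le_length (Finset.mem_range.1 hi).le]
          · refine Finset.sum_congr rfl fun i hi => ?_
            rw [List.take_length_add_append, aux_fin_append]
        rw [he, aux_law_add]
        exact add_le_add (aux_law_const G hrow v hv0 hv β hβ K (k + 1) _ _) (ih (k + 1) _)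
      calc _ ≤ G.pw u seg (G.fin u seg) * (q * (1 - q) ^ seg.length) * 1
            * ((∑ i ∈ range seg.length, if G.fin u (seg.take i) = z then 1 else 0)
            + G.Gr (G.fin u seg) z) := by
            gcongr
            exact hβ _ _
        _ = _ := by rw [mul_one]
    refine (ENNReal.tsum_le_tsum hpt).trans ?_
    rw [ENNReal.tsum_add]
    -- first part
    have hI : ∑' seg : List (E × Bool), G.pw u seg (G.fin u seg) * (q * (1 - q) ^ seg.length)
            * (∑ i ∈ range seg.length, if G.fin u (seg.take i) = z then 1 else 0)
          ≤ ∑' i, G.pwr i u z * (1 - q) ^ (i + 1) := by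
      calc ∑' seg : List (E × Bool), G.pw u seg (G.fin u seg) * (q * (1 - q) ^ seg.length)
            * (∑ i ∈ range seg.length, if G.fin u (seg.take i) = z then 1 else 0)
          = ∑' seg : List (E × Bool), ∑' i : ℕ, (if i < seg.length ∧ G.fin u (seg.take i) = z then
              G.pw u seg (G.fin u seg) * (q * (1 - q) ^ seg.length) else 0) := by
            refine tsum_congr fun seg => ?_
            rw [tsum_eq_sum (s := range seg.length), Finset.mul_sum]
            · refine Finset.sum_congr rfl fun i hi => ?_
              rw [Finset.mem_range] at hi
              simp [hi]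
            · intro i hi
              rw [Finset.mem_range] at hi
              simp [hi]
        _ = ∑' i : ℕ, ∑' seg : List (E × Bool), (if i < seg.length ∧ G.fin u (seg.take i) = z then
              G.pw u seg (G.fin u seg) * (q * (1 - q) ^ seg.length) else 0) := ENNReal.tsum_comm
        _ ≤ ∑' i, G.pwr i u z * (1 - q) ^ (i + 1) := by
            refine ENNReal.tsum_le_tsum fun i => ?_
            let h : List (E × Bool) × List (E × Bool) → ℝ≥0∞ := fun p =>
              (if p.1.length = i then G.pw u p.1 z else 0) *
                ((1 - q) ^ (i + 1) * (G.pw z p.2 (G.fin z p.2) *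
                  (if p.2.length = 0 then 0 else q * (1 - q) ^ (p.2.length - 1))))
            have hinj : Function.Injective
                (fun seg : List (E × Bool) => (seg.take i, seg.drop i)) := by
              intro a b hab
              simp only [Prod.mk.injEq] at hab
              rw [← List.take_append_drop i a, ← List.take_append_drop i b, hab.1, hab.2]
            calc ∑' seg : List (E × Bool), (if i < seg.length ∧ G.fin u (seg.take i) = z then
                    G.pw u seg (G.fin u seg) * (q * (1 - q) ^ seg.length) else 0)
                ≤ ∑' seg : List (E × Bool), h (seg.take i, seg.drop i) := by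
                  refine ENNReal.tsum_le_tsum fun seg => ?_
                  split_ifs with hc
                  · obtain ⟨hc1, hc2⟩ := hc
                    have hW := aux_W_append G u (seg.take i) (seg.drop i)
                    rw [List.take_append_drop, hc2] at hW
                    have hl1 : (seg.take i).length = i := by
                      rw [List.length_take]; omega
                    have hl2 : (seg.drop i).length = seg.length - i := List.length_drop
                    simp only [h]
                    rw [if_pos hl1, hl2, if_neg (by omega), hW]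
                    have hpow : (1 - q) ^ seg.length
                        = (1 - q) ^ (i + 1) * (1 - q) ^ (seg.length - i - 1) := by
                      rw [← pow_add]
                      congr 1
                      omega
                    rw [hpow]
                    apply le_of_eq
                    ring
                  · exact zero_le
              _ ≤ ∑' p : List (E × Bool) × List (E × Bool), h p :=
                  ENNReal.tsum_comp_le_tsum_of_injective hinj h
              _ = ∑' l1 : List (E × Bool), ∑' l2 : List (E × Bool), h (l1, l2) :=
                  ENNReal.tsum_prod'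
              _ = (∑' l1 : List (E × Bool), (if l1.length = i then G.pw u l1 z else 0)) *
                  ((1 - q) ^ (i + 1) * ∑' l2 : List (E × Bool), (G.pw z l2 (G.fin z l2) *
                  (if l2.length = 0 then 0 else q * (1 - q) ^ (l2.length - 1)))) := by
                  rw [← ENNReal.tsum_mul_left, ← ENNReal.tsum_mul_right]
                  refine tsum_congr fun l1 => ?_
                  rw [← ENNReal.tsum_mul_left]
              _ ≤ (∑' l1 : List (E × Bool), (if l1.length = i then G.pw u l1 z else 0)) *
                  ((1 - q) ^ (i + 1) * 1) := by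
                  gcongr
                  refine (aux_mass_c G hrow z
                    (fun m => if m = 0 then 0 else q * (1 - q) ^ (m - 1))).trans ?_
                  rw [tsum_eq_zero_add' ENNReal.summable]
                  simp only [if_true, zero_add, Nat.add_one_ne_zero, if_false,
                    Nat.add_sub_cancel]
                  exact (aux_geom q (hv0 _) (hv _)).le
              _ = G.pwr i u z * (1 - q) ^ (i + 1) := by
                  rw [mul_one]
                  rfl
    -- second part
    have hII : ∑' seg : List (E × Bool), G.pw u seg (G.fin u seg) * (q * (1 - q) ^ seg.length)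
          * G.Gr (G.fin u seg) z
          = ∑' m, G.pwr m u z * ∑ n ∈ range (m + 1), q * (1 - q) ^ n := by
      calc ∑' seg : List (E × Bool), G.pw u seg (G.fin u seg) * (q * (1 - q) ^ seg.length)
            * G.Gr (G.fin u seg) z
          = ∑' seg : List (E × Bool), ∑' n : ℕ, ∑ w, (if seg.length = n then G.pw u seg w else 0)
              * (q * (1 - q) ^ n * G.Gr w z) := by
            refine tsum_congr fun seg => ?_
            rw [tsum_eq_single seg.length]
            · simp only [if_true]
              rw [Finset.sum_eq_single (G.fin u seg)]
              · ring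
              · intro w _ hw
                rw [aux_pw, if_neg (Ne.symm hw), zero_mul]
              · intro h; exact absurd (Finset.mem_univ _) h
            · intro n hn
              simp [Ne.symm hn]
        _ = ∑' n : ℕ, ∑' seg : List (E × Bool), ∑ w, (if seg.length = n then G.pw u seg w else 0)
              * (q * (1 - q) ^ n * G.Gr w z) := ENNReal.tsum_comm
        _ = ∑' n : ℕ, ∑ w, G.pwr n u w * (q * (1 - q) ^ n * G.Gr w z) := by
            refine tsum_congr fun n => ?_
            rw [Summable.tsum_finsetSum (fun _ _ => ENNReal.summable)]
            refine Finset.sum_congr rfl fun w _ => ?_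
            rw [ENNReal.tsum_mul_right]
            rfl
        _ = ∑' n : ℕ, ∑' j : ℕ, q * (1 - q) ^ n * G.pwr (n + j) u z := by
            refine tsum_congr fun n => ?_
            have : ∀ w, G.pwr n u w * (q * (1 - q) ^ n * G.Gr w z)
                = ∑' j : ℕ, q * (1 - q) ^ n * (G.pwr n u w * G.pwr j w z) := by
              intro w
              rw [GG.Gr, ENNReal.tsum_mul_left, ENNReal.tsum_mul_left]
              ring
            rw [Finset.sum_congr rfl (fun w _ => this w),
              ← Summable.tsum_finsetSum (fun _ _ => ENNReal.summable)]
            refine tsum_congr fun j => ?_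
            rw [GG.pwr_add, Finset.mul_sum]
        _ = ∑' n : ℕ, ∑' m : ℕ, (if n ≤ m then q * (1 - q) ^ n * G.pwr m u z else 0) := by
            refine tsum_congr fun n => ?_
            have hinj : Function.Injective (fun j : ℕ => n + j) := fun a b hab => by
              simpa using hab
            rw [← hinj.tsum_eq (f := fun m : ℕ =>
              if n ≤ m then q * (1 - q) ^ n * G.pwr m u z else 0)]
            · refine tsum_congr fun j => ?_
              exact (if_pos (Nat.le_add_right n j)).symm
            · intro m hm
              rw [Function.mem_support] at hm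
              by_cases h : n ≤ m
              · exact ⟨m - n, by show n + (m - n) = m; omega⟩
              · exact absurd (if_neg h) hm
        _ = ∑' m : ℕ, ∑' n : ℕ, (if n ≤ m then q * (1 - q) ^ n * G.pwr m u z else 0) :=
            ENNReal.tsum_comm
        _ = ∑' m, G.pwr m u z * ∑ n ∈ range (m + 1), q * (1 - q) ^ n := by
            refine tsum_congr fun m => ?_
            rw [tsum_eq_sum (s := range (m + 1)), Finset.mul_sum]
            · refine Finset.sum_congr rfl fun n hn => ?_
              rw [Finset.mem_range] at hn
              rw [if_pos (by omega), mul_comm]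
            · intro n hn
              rw [Finset.mem_range] at hn
              exact if_neg (by omega)
    rw [hII]
    refine (add_le_add hI le_rfl).trans ?_
    rw [← ENNReal.tsum_add]
    unfold GG.Gr
    refine ENNReal.tsum_le_tsum fun m => ?_
    rw [← mul_add, aux_geom_fin q (hv _), mul_one]

end targets

end Pool.Agent.Helper41.GF
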