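import Pool.Agent.Helper41.GF.ChainDefs

/-!
# The box graph in the cubic lattice
-/

set_option autoImplicit false

open scoped ENNReal Nat
open Finset MeasureTheory

namespace Pool.Agent.Helper41.GF

/-- row sums of the transition operator are at most `1 - θ` -/
def RowLe {V E H : Type} [DecidableEq V] [Fintype E] (G : GG V E H) (θ : ℝ) : Prop :=
  ∀ x, ∑ e, (G.w e : ℝ) * ((if G.src e = x then 1 else 0) + (if G.tgt e = x then 1 else 0))
    ≤ 1 - θ

/-- the box as a finite set of lattice points -/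
noncomputable abbrev bx (N : ℕ) : Finset Z3 := Finset.Icc (fun _ => -(N : ℤ)) (fun _ => (N : ℤ))

/-- vertices of the box graph -/
abbrev BV (N : ℕ) : Type := {x : Z3 // x ∈ bx N}

/-- edges of the box graph -/
abbrev BE (N : ℕ) : Type := {p : BV N × Fin 3 // p.1.1 + Pi.single p.2 1 ∈ bx N}

/-- ghost edges of the box graph: a vertex and a kind -/
abbrev BH (N K : ℕ) : Type := BV N × Fin (K + 1)

/-- the superharmonic profile of scale `k` -/
noncomputable def mk (k : ℕ) (x : Z3) : ℝ := 2 ^ (21 * k) / Real.sqrt (nq x + 2 ^ (80 * k))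

/-- the killed averaging operator in the box -/
noncomputable def PopB (N : ℕ) (θ : ℝ) (g : Z3 → ℝ) (x : Z3) : ℝ :=
  (1 - θ) / 6 * ∑ i : Fin 3, ((if x + Pi.single i 1 ∈ bx N then g (x + Pi.single i 1) else 0)
    + (if x - Pi.single i 1 ∈ bx N then g (x - Pi.single i 1) else 0))

/-- the box graph: killing `θ`, kinds `0..K` with the profiles `mk (k0 + j)` -/
noncomputable def box (N K k0 : ℕ) (θ : ℝ) : GG (BV N) (BE N) (BH N K) where
  src e := e.1.1
  tgt e := ⟨e.1.1.1 + Pi.single e.1.2 1, e.2⟩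
  hne e h := by
    have h1 := congrArg (fun y : BV N => y.1 e.1.2) h
    simp at h1
  hs g := g.1
  w _ := Real.toNNReal ((1 - θ) / 6)
  f g := Real.toNNReal (mk (k0 + g.2) g.1.1 - PopB N θ (mk (k0 + g.2)) g.1.1)

/-- the ghosts of kind `min k K` -/
def Aj (N K : ℕ) (k : ℕ) (g : BH N K) : Prop := (g.2 : ℕ) = min k K

instance (N K k : ℕ) : DecidablePred (Aj N K k) := fun g => by unfold Aj; infer_instance

end Pool.Agent.Helper41.GF
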