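import Pool.Agent.Helper41.GF.ChainDefs
import Pool.Agent.Helper41.GF.BoxDefs

/-!
# Parameters of the construction in the box
-/

set_option autoImplicit false

open scoped ENNReal Nat
open Finset MeasureTheory

namespace Pool.Agent.Helper41.GF

/-- constants of the second moment recursion -/
noncomputable def AC (q κ : ℕ → ℝ≥0∞) : ℕ → ℕ → ℝ≥0∞ × ℝ≥0∞
  | 0, _ => (1, 0)
  | K + 1, k =>
      let B := (AC q κ K (k + 1)).1 + κ (k + 1) * (AC q κ K (k + 1)).2
      (B * (1 + 4 * q k * κ (k + 1)), 8 * q k * B)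

/-- mark rates -/
noncomputable def vk (k0 : ℕ) (k : ℕ) : ℝ≥0∞ := ENNReal.ofReal (1 / ((2 ^ (39 * (k0 + k)) : ℕ) : ℝ) ^ 2)

open Classical in
/-- indicator of the ball of radius `2^(40 (k0+k))`, only for layers up to `K` -/
noncomputable def bk (N K k0 : ℕ) (k : ℕ) (w : BV N) : ℝ≥0∞ :=
  if k ≤ K ∧ nq w.1 ≤ 2 ^ (80 * (k0 + k)) then 1 else 0

/-- the origin of the box -/
def bo (N : ℕ) : BV N := ⟨0, by simp [Finset.mem_Icc, Pi.le_def]⟩

/-- starting measure -/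
noncomputable def nu0 (N K k0 : ℕ) (θ : ℝ) (u : BV N) : ℝ≥0∞ :=
  (box N K k0 θ).Tb (vk k0 0) (bo N) u * bk N K k0 0 u

/-- pair bound for the profiles -/
noncomputable def qk (k0 : ℕ) (k : ℕ) : ℝ≥0∞ := ENNReal.ofReal (2 ^ (38 * (k0 + k) + 20))

/-- bound for the stopped kernel against the Green function -/
noncomputable def kk (k0 : ℕ) (k : ℕ) : ℝ≥0∞ := ENNReal.ofReal (60000 / ((2 ^ (39 * (k0 + k)) : ℕ) : ℝ))

end Pool.Agent.Helper41.GF
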