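import Pool.Agent.Helper41.GF.BoxB
import Pool.Agent.Helper41.GF.ParDefs

/-!
# Definitions: finite weighted graphs with ghost edges, currents, signs, ghost paths
-/

set_option autoImplicit false

open scoped ENNReal Nat
open Finset MeasureTheory

namespace Pool.Agent.Helper41.GF


/-! ## definitions -/

/-! ## TARGET -/

section h170
variable {V E H : Type} [Fintype V] [DecidableEq V] [Fintype E] [DecidableEq E] [Fintype H]
  [DecidableEq H]

omit [Fintype V] [Fintype E] [DecidableEq E] [Fintype H] [DecidableEq H] in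
theorem h170_pw_fin (G : GG V E H) (l : List (E × Bool)) : ∀ (u w : V),
    G.pw u l w = if G.fin u l = w then G.pw u l (G.fin u l) else 0 := by
  induction l with
  | nil =>
    intro u w
    simp [GG.pw, GG.fin]
  | cons d l ih =>
    intro u w
    show (if G.ds d = u then (G.w d.1 : ℝ≥0∞) * G.pw (G.dt d) l w else 0) =
      if G.fin (G.dt d) l = w then
        (if G.ds d = u then (G.w d.1 : ℝ≥0∞) * G.pw (G.dt d) l (G.fin (G.dt d) l) else 0) else 0
    rw [ih (G.dt d) w]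
    by_cases h1 : G.ds d = u <;> by_cases h2 : G.fin (G.dt d) l = w <;> simp [h1, h2]

theorem h170_sum (G : GG V E H) (c : ℕ → ℝ≥0∞) (h : V → ℝ≥0∞) (u : V) :
    ∑ w, (∑' n, c n * G.pwr n u w) * h w =
      ∑' l : List (E × Bool), G.pw u l (G.fin u l) * c l.length * h (G.fin u l) := by
  have h1 : ∀ w, (∑' n, c n * G.pwr n u w) = ∑' l : List (E × Bool), c l.length * G.pw u l w := by
    intro w
    unfold GG.pwr
    simp_rw [← ENNReal.tsum_mul_left]
    rw [ENNReal.tsum_comm]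
    refine tsum_congr (fun l => ?_)
    rw [tsum_eq_single l.length]
    · simp
    · intro n hn
      rw [if_neg (fun h => hn h.symm), mul_zero]
  simp_rw [h1, ← ENNReal.tsum_mul_right]
  rw [← Summable.tsum_finsetSum (fun i _ => ENNReal.summable)]
  refine tsum_congr (fun l => ?_)
  rw [Finset.sum_eq_single (G.fin u l)]
  · ring
  · intro w _ hw
    rw [h170_pw_fin G l u w, if_neg (fun h => hw h.symm)]
    simp
  · intro h; exact absurd (Finset.mem_univ _) h

theorem h170_law_succ (G : GG V E H) (v : ℕ → ℝ≥0∞) (β : ℕ → V → ℝ≥0∞) (K k : ℕ) (u : V) :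
    G.law v β (K + 1) k u (fun _ => 1) =
      ∑ w, G.Tb (v (k + 1)) u w * (β (k + 1) w * G.law v β K (k + 1) w (fun _ => 1)) := by
  have h := h170_sum G (fun n => v (k + 1) * (1 - v (k + 1)) ^ n)
    (fun w => β (k + 1) w * G.law v β K (k + 1) w (fun _ => 1)) u
  unfold GG.Tb
  rw [h]
  show (∑' seg : List (E × Bool), G.pw u seg (G.fin u seg)
      * (v (k + 1) * (1 - v (k + 1)) ^ seg.length) * β (k + 1) (G.fin u seg)
      * G.law v β K (k + 1) (G.fin u seg) (fun ξ => (fun _ => 1) (seg ++ ξ))) = _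
  refine tsum_congr (fun l => ?_)
  ring

end h170

theorem h170_nq_nonneg (x : Z3) : 0 ≤ nq x := Finset.sum_nonneg (fun i _ => sq_nonneg _)

/-- layer constants -/
noncomputable def h170V (k0 j : ℕ) : ℝ := ((2 ^ (39 * (k0 + j)) : ℕ) : ℝ) ^ 2

theorem h170V_pos (k0 j : ℕ) : 0 < h170V k0 j := by unfold h170V; positivity

theorem h170V_mono (k0 : ℕ) {i j : ℕ} (h : i ≤ j) : h170V k0 i ≤ h170V k0 j := by
  unfold h170V
  have : 2 ^ (39 * (k0 + i)) ≤ 2 ^ (39 * (k0 + j)) := Nat.pow_le_pow_right (by norm_num) (by omega)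
  have h2 : ((2 ^ (39 * (k0 + i)) : ℕ) : ℝ) ≤ ((2 ^ (39 * (k0 + j)) : ℕ) : ℝ) := by exact_mod_cast this
  exact pow_le_pow_left₀ (by positivity) h2 2

/-- squared radii -/
noncomputable def h170R (k0 j : ℕ) : ℝ := 2 ^ (80 * (k0 + j))

theorem h170R_pos (k0 j : ℕ) : 0 < h170R k0 j := by unfold h170R; positivity

theorem h170VR (k0 j : ℕ) : h170V k0 j / h170R k0 j = 1 / 4 ^ (k0 + j) := by
  unfold h170V h170R
  rw [div_eq_div_iff (by positivity) (by positivity)]
  push_cast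
  rw [← pow_mul, show (4:ℝ) = 2 ^ 2 by norm_num, ← pow_mul, ← pow_add, one_mul]
  congr 1
  ring

theorem h170_vk (k0 j : ℕ) : vk k0 j = ENNReal.ofReal (1 / h170V k0 j) := rfl

theorem h170_step (N K k0 : ℕ) (θ : ℝ) (hθ0 : 0 ≤ θ) (hθ1 : θ ≤ 1) (j : ℕ) (hj : j ≤ K) (x : BV N)
    (L : BV N → ℝ≥0∞) (A B : ℝ) (hA : 0 ≤ A) (hB : 0 ≤ B)
    (hL : ∀ w : BV N, nq w.1 ≤ h170R k0 j → 1 ≤ L w + ENNReal.ofReal (A + B * nq w.1)) :
    1 ≤ ∑ w, (box N K k0 θ).Tb (vk k0 j) x w * (bk N K k0 j w * L w) +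
      ENNReal.ofReal (θ * h170V k0 j + (nq x.1 + h170V k0 j) * (1 / ((N:ℝ) + 1) ^ 2) + A +
        (B + 1 / h170R k0 j) * (nq x.1 + h170V k0 j)) := by
  set G := box N K k0 θ with hG
  set e : ℝ := 1 / ((N:ℝ) + 1) ^ 2 with he
  have he0 : 0 ≤ e := by rw [he]; positivity
  set Vj := h170V k0 j with hVj
  set R := h170R k0 j with hR
  have hV0 : 0 < Vj := h170V_pos k0 j
  have hR0 : 0 < R := h170R_pos k0 j
  have hx0 : 0 ≤ nq x.1 := h170_nq_nonneg _
  set c : ℕ → ℝ≥0∞ := fun n => vk k0 j * (1 - vk k0 j) ^ n with hc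
  have hM : 1 ≤ 2 ^ (39 * (k0 + j)) := Nat.one_le_two_pow
  have hc1 : ∑' n, c n = 1 := geom_one _ hM
  have hcm : ∑' n, c n * (n : ℝ≥0∞) ≤ ENNReal.ofReal Vj := geom_mean _ hM
  have hrow : RowLe G 0 := by
    intro y
    have := box_row N K k0 θ hθ1 y
    linarith
  have hvk0 : vk k0 j ≠ 0 := by
    rw [h170_vk]
    have : 0 < 1 / h170V k0 j := by positivity
    simpa using this
  have hV1 : 1 ≤ Vj := by
    rw [hVj]; unfold h170V
    have : (1:ℝ) ≤ ((2 ^ (39 * (k0 + j)) : ℕ) : ℝ) := by exact_mod_cast hM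
    exact one_le_pow₀ this
  have hvk1 : vk k0 j ≤ 1 := by
    rw [h170_vk, ← ENNReal.ofReal_one]
    apply ENNReal.ofReal_le_ofReal
    rw [div_le_one hV0]
    exact hV1
  have hTrow := Tb_row G hrow (vk k0 j) hvk0 hvk1 x
  -- mass of Tb
  have hmass : 1 ≤ ∑ w, G.Tb (vk k0 j) x w + ENNReal.ofReal (θ * Vj + (nq x.1 + Vj) * e) := by
    have h1 : ∀ n : ℕ, 1 ≤ ∑ y, G.pwr n x y + (ENNReal.ofReal (nq x.1 * e) + ENNReal.ofReal (θ + e) * n) := by
      intro n
      have h2 := pwr_mass_ge N K k0 θ hθ0 hθ1 n x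
      have h3 : (1:ℝ≥0∞) ≤ ENNReal.ofReal (1 - n * θ - (nq x.1 + n) / ((N : ℝ) + 1) ^ 2) +
          (ENNReal.ofReal (nq x.1 * e) + ENNReal.ofReal (θ + e) * n) := by
        have h4 : ENNReal.ofReal (θ + e) * (n : ℝ≥0∞) = ENNReal.ofReal ((θ + e) * n) := by
          rw [ENNReal.ofReal_mul (by positivity), ENNReal.ofReal_natCast]
        rw [h4, ← ENNReal.ofReal_add (by positivity) (by positivity)]
        refine le_trans ?_ ENNReal.ofReal_add_le
        rw [← ENNReal.ofReal_one]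
        apply ENNReal.ofReal_le_ofReal
        rw [he]
        apply le_of_eq
        ring
      exact h3.trans (by gcongr)
    have h5 : (1:ℝ≥0∞) ≤ ∑' n, c n * (∑ y, G.pwr n x y + (ENNReal.ofReal (nq x.1 * e) + ENNReal.ofReal (θ + e) * n)) := by
      calc (1:ℝ≥0∞) = ∑' n, c n * 1 := by simp_rw [mul_one]; exact hc1.symm
        _ ≤ _ := ENNReal.tsum_le_tsum (fun n => mul_le_mul_right (h1 n) (c n))
    have h6 : ∑' n, c n * (∑ y, G.pwr n x y + (ENNReal.ofReal (nq x.1 * e) + ENNReal.ofReal (θ + e) * n)) =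
        ∑ w, G.Tb (vk k0 j) x w + (ENNReal.ofReal (nq x.1 * e) + ENNReal.ofReal (θ + e) * ∑' n, c n * (n : ℝ≥0∞)) := by
      simp_rw [mul_add]
      rw [ENNReal.tsum_add, ENNReal.tsum_add, ENNReal.tsum_mul_right, hc1, one_mul]
      congr 1
      · unfold GG.Tb
        rw [← Summable.tsum_finsetSum (fun i _ => ENNReal.summable)]
        refine tsum_congr (fun n => ?_)
        rw [Finset.mul_sum]
      · congr 1
        rw [← ENNReal.tsum_mul_left]
        refine tsum_congr (fun n => ?_)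
        ring
    rw [h6] at h5
    refine h5.trans ?_
    have h7 : ENNReal.ofReal (nq x.1 * e) + ENNReal.ofReal (θ + e) * ∑' n, c n * (n : ℝ≥0∞) ≤
        ENNReal.ofReal (θ * Vj + (nq x.1 + Vj) * e) := by
      calc ENNReal.ofReal (nq x.1 * e) + ENNReal.ofReal (θ + e) * ∑' n, c n * (n : ℝ≥0∞)
          ≤ ENNReal.ofReal (nq x.1 * e) + ENNReal.ofReal (θ + e) * ENNReal.ofReal Vj := by gcongr
        _ = ENNReal.ofReal (θ * Vj + (nq x.1 + Vj) * e) := by
          rw [← ENNReal.ofReal_mul (by positivity), ← ENNReal.ofReal_add (by positivity) (by positivity)]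
          congr 1; ring
    gcongr
  -- second moment
  have hsec : ∑ w, G.Tb (vk k0 j) x w * ENNReal.ofReal (nq w.1) ≤ ENNReal.ofReal (nq x.1 + Vj) := by
    have h1 : ∑ w, G.Tb (vk k0 j) x w * ENNReal.ofReal (nq w.1) =
        ∑' n, c n * ∑ w, G.pwr n x w * ENNReal.ofReal (nq w.1) := by
      unfold GG.Tb
      simp_rw [← ENNReal.tsum_mul_right]
      rw [← Summable.tsum_finsetSum (fun i _ => ENNReal.summable)]
      refine tsum_congr (fun n => ?_)
      rw [Finset.mul_sum]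
      refine Finset.sum_congr rfl (fun w _ => ?_)
      simp only [hc]
      ring
    rw [h1]
    calc ∑' n, c n * ∑ w, G.pwr n x w * ENNReal.ofReal (nq w.1)
        ≤ ∑' n, c n * (ENNReal.ofReal (nq x.1) + n) := by
          refine ENNReal.tsum_le_tsum (fun n => mul_le_mul_right ?_ (c n))
          refine (pwr_nq_le N K k0 θ hθ0 hθ1 n x).trans ?_
          rw [ENNReal.ofReal_add hx0 (by positivity), ENNReal.ofReal_natCast]
      _ = ENNReal.ofReal (nq x.1) + ∑' n, c n * (n : ℝ≥0∞) := by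
          simp_rw [mul_add]
          rw [ENNReal.tsum_add, ENNReal.tsum_mul_right, hc1, one_mul]
      _ ≤ ENNReal.ofReal (nq x.1) + ENNReal.ofReal Vj := by gcongr
      _ = ENNReal.ofReal (nq x.1 + Vj) := (ENNReal.ofReal_add hx0 hV0.le).symm
  -- pointwise
  have hpt : ∀ w : BV N, 1 ≤ bk N K k0 j w * L w + ENNReal.ofReal (A + (B + 1 / R) * nq w.1) := by
    intro w
    have hw0 : 0 ≤ nq w.1 := h170_nq_nonneg _
    by_cases hw : nq w.1 ≤ R
    · have hb : bk N K k0 j w = 1 := by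
        unfold bk
        rw [if_pos]
        exact ⟨hj, hw⟩
      rw [hb, one_mul]
      refine (hL w hw).trans ?_
      have : A + B * nq w.1 ≤ A + (B + 1 / R) * nq w.1 := by
        have : 0 ≤ 1 / R * nq w.1 := by positivity
        nlinarith
      gcongr
    · push Not at hw
      refine le_trans ?_ (le_add_left le_rfl)
      rw [← ENNReal.ofReal_one]
      apply ENNReal.ofReal_le_ofReal
      have h1 : 1 ≤ 1 / R * nq w.1 := by
        rw [one_div, ← div_eq_inv_mul, le_div_iff₀ hR0]; linarith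
      have h2 : 0 ≤ B * nq w.1 := by positivity
      nlinarith
  have hT : ∑ w, G.Tb (vk k0 j) x w ≤ ∑ w, G.Tb (vk k0 j) x w * (bk N K k0 j w * L w) +
      ENNReal.ofReal (A + (B + 1 / R) * (nq x.1 + Vj)) := by
    calc ∑ w, G.Tb (vk k0 j) x w = ∑ w, G.Tb (vk k0 j) x w * 1 := by simp_rw [mul_one]
      _ ≤ ∑ w, G.Tb (vk k0 j) x w * (bk N K k0 j w * L w + ENNReal.ofReal (A + (B + 1 / R) * nq w.1)) :=
          Finset.sum_le_sum (fun w _ => mul_le_mul_right (hpt w) _)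
      _ = ∑ w, G.Tb (vk k0 j) x w * (bk N K k0 j w * L w) +
          (ENNReal.ofReal A * ∑ w, G.Tb (vk k0 j) x w + ENNReal.ofReal (B + 1 / R) *
            ∑ w, G.Tb (vk k0 j) x w * ENNReal.ofReal (nq w.1)) := by
          simp_rw [mul_add]
          rw [Finset.sum_add_distrib]
          congr 1
          rw [Finset.mul_sum, Finset.mul_sum, ← Finset.sum_add_distrib]
          refine Finset.sum_congr rfl (fun w _ => ?_)
          have hw0 : 0 ≤ nq w.1 := h170_nq_nonneg _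
          rw [ENNReal.ofReal_add hA (by positivity), ENNReal.ofReal_mul (by positivity)]
          ring
      _ ≤ ∑ w, G.Tb (vk k0 j) x w * (bk N K k0 j w * L w) +
          (ENNReal.ofReal A * 1 + ENNReal.ofReal (B + 1 / R) * ENNReal.ofReal (nq x.1 + Vj)) := by
          gcongr
      _ = _ := by
          rw [mul_one, ← ENNReal.ofReal_mul (by positivity), ← ENNReal.ofReal_add hA (by positivity)]
  refine hmass.trans ?_
  refine (add_le_add_left hT _).trans ?_
  rw [add_assoc, ← ENNReal.ofReal_add (by positivity) (by positivity)]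
  exact add_le_add le_rfl (ENNReal.ofReal_le_ofReal (le_of_eq (by ring)))

theorem h170_R_step (k0 k : ℕ) : 2 / h170R k0 (k + 1) + 1 / h170R k0 k ≤ 2 / h170R k0 k := by
  have h1 : h170R k0 (k + 1) = 2 ^ 80 * h170R k0 k := by
    unfold h170R
    rw [← pow_add]; congr 1; ring
  have h2 := h170R_pos k0 k
  rw [h1, div_add_div _ _ (by positivity) (by positivity), div_le_div_iff₀ (by positivity) (by positivity)]
  nlinarith [mul_pos h2 h2]

/-- the numerical recursion -/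
theorem h170_num (k0 K k : ℕ) (hk : k ≤ K) (θ e q : ℝ) (hθ : 0 ≤ θ) (he : 0 ≤ e) (hq : 0 ≤ q) :
    θ * h170V k0 k + (q + h170V k0 k) * e +
      (3 / 4 ^ (k0 + (k + 1)) + ((K - k : ℕ) : ℝ) * ((θ + (K + 1) * e) * h170V k0 K)) +
      ((2 / h170R k0 (k + 1) + ((K - k : ℕ) : ℝ) * e) + 1 / h170R k0 k) * (q + h170V k0 k) ≤
    (3 / 4 ^ (k0 + k) + ((K - k + 1 : ℕ) : ℝ) * ((θ + (K + 1) * e) * h170V k0 K)) +
      (2 / h170R k0 k + ((K - k + 1 : ℕ) : ℝ) * e) * q := by
  have hV := h170V_pos k0 k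
  have hR := h170R_pos k0 k
  have hVK := h170V_mono k0 hk
  have hst := h170_R_step k0 k
  have hVR := h170VR k0 k
  set V := h170V k0 k
  set R := h170R k0 k
  set R' := h170R k0 (k + 1)
  set W := h170V k0 K
  set m : ℝ := ((K - k : ℕ) : ℝ) with hm
  have hm0 : 0 ≤ m := by positivity
  have hmK : m ≤ K := by
    rw [hm]
    have : K - k ≤ K := Nat.sub_le _ _
    exact_mod_cast this
  have hm1 : ((K - k + 1 : ℕ) : ℝ) = m + 1 := by rw [hm]; push_cast; ring
  rw [hm1]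
  set F : ℝ := 2 / R' + 1 / R with hF
  have hF1 : F ≤ 2 / R := hst
  have e1 : 2 / R * V = 2 * (1 / 4 ^ (k0 + k)) := by rw [← hVR]; ring
  have e2 : (3:ℝ) / 4 ^ (k0 + (k + 1)) = 3 / 4 * (1 / 4 ^ (k0 + k)) := by
    rw [← add_assoc, pow_succ]; field_simp
  have e3 : (3:ℝ) / 4 ^ (k0 + k) = 3 * (1 / 4 ^ (k0 + k)) := by ring
  rw [e2, e3]
  have hp : (0:ℝ) < 1 / 4 ^ (k0 + k) := by positivity
  set p : ℝ := 1 / 4 ^ (k0 + k)
  have a1 : F * V ≤ 2 * p := by
    rw [← e1]; exact mul_le_mul_of_nonneg_right hF1 hV.le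
  have a2 : F * q ≤ 2 / R * q := mul_le_mul_of_nonneg_right hF1 hq
  have a3 : (θ + (m + 1) * e) * V ≤ (θ + (K + 1) * e) * W := by
    apply mul_le_mul _ hVK hV.le (by positivity)
    have : (m + 1) * e ≤ (K + 1) * e := mul_le_mul_of_nonneg_right (by linarith) he
    linarith
  have e4 : θ * V + (q + V) * e + (3 / 4 * p + m * ((θ + (K + 1) * e) * W)) +
      (2 / R' + m * e + 1 / R) * (q + V) =
      (θ + (m + 1) * e) * V + m * ((θ + (K + 1) * e) * W) + 3 / 4 * p + F * V + F * q + (m + 1) * e * q := by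
    rw [hF]; ring
  rw [e4]
  have e5 : 3 * p + (m + 1) * ((θ + (K + 1) * e) * W) + (2 / R + (m + 1) * e) * q =
      ((θ + (K + 1) * e) * W) + m * ((θ + (K + 1) * e) * W) + 3 * p + 2 / R * q + (m + 1) * e * q := by ring
  rw [e5]
  linarith

theorem h170_ind (N K k0 : ℕ) (θ : ℝ) (hθ0 : 0 ≤ θ) (hθ1 : θ ≤ 1) :
    ∀ (m k : ℕ), k + m = K → ∀ u : BV N,
      1 ≤ (box N K k0 θ).law (vk k0) (bk N K k0) m k u (fun _ => 1) +
        ENNReal.ofReal ((3 / 4 ^ (k0 + (k + 1)) + (m : ℝ) * ((θ + (K + 1) * (1 / ((N:ℝ) + 1) ^ 2)) * h170V k0 K)) +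
          (2 / h170R k0 (k + 1) + (m : ℝ) * (1 / ((N:ℝ) + 1) ^ 2)) * nq u.1) := by
  intro m
  induction m with
  | zero =>
    intro k _ u
    have : (box N K k0 θ).law (vk k0) (bk N K k0) 0 k u (fun _ => 1) = 1 := rfl
    rw [this]
    exact le_self_add
  | succ m ih =>
    intro k hk u
    rw [h170_law_succ]
    have hkK : k + 1 ≤ K := by omega
    have hm : K - (k + 1) = m := by omega
    have he : (0:ℝ) ≤ 1 / ((N:ℝ) + 1) ^ 2 := by positivity
    have hV := h170V_pos k0 K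
    have hR := h170R_pos k0 (k + 1 + 1)
    have hst := h170_step N K k0 θ hθ0 hθ1 (k + 1) hkK u
      (fun w => (box N K k0 θ).law (vk k0) (bk N K k0) m (k + 1) w (fun _ => 1))
      (3 / 4 ^ (k0 + (k + 1 + 1)) + (m : ℝ) * ((θ + (K + 1) * (1 / ((N:ℝ) + 1) ^ 2)) * h170V k0 K))
      (2 / h170R k0 (k + 1 + 1) + (m : ℝ) * (1 / ((N:ℝ) + 1) ^ 2)) (by positivity) (by positivity)
      (fun w _ => ih (k + 1) (by omega) w)
    refine hst.trans (add_le_add le_rfl (ENNReal.ofReal_le_ofReal ?_))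
    have hn := h170_num k0 K (k + 1) hkK θ (1 / ((N:ℝ) + 1) ^ 2) (nq u.1) hθ0 he (h170_nq_nonneg _)
    rw [hm] at hn
    push_cast at hn ⊢
    exact hn

theorem law_mass_ge (K k0 : ℕ) (hk0 : 1 ≤ k0) :
    ∃ N0 : ℕ, ∃ θ0 : ℝ, 0 < θ0 ∧ ∀ N ≥ N0, ∀ θ : ℝ, 0 ≤ θ → θ ≤ θ0 → θ ≤ 1 →
      1 - ENNReal.ofReal (4 / 4 ^ k0) ≤
        ∑ u, nu0 N K k0 θ u * (box N K k0 θ).law (vk k0) (bk N K k0) K 0 u (fun _ => 1) := by
  set W := h170V k0 K with hW
  have hW0 : 0 < W := h170V_pos k0 K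
  set η : ℝ := 1 / 4 ^ k0 / (2 * (K + 1) ^ 2 * W) with hη
  have hη0 : 0 < η := by positivity
  obtain ⟨N0, hN0⟩ := exists_nat_gt (1 / η)
  refine ⟨N0, η, hη0, ?_⟩
  intro N hN θ hθ0 hθη hθ1
  have hNN : (N0:ℝ) ≤ N := by exact_mod_cast hN
  set e : ℝ := 1 / ((N:ℝ) + 1) ^ 2 with he
  have he0 : 0 ≤ e := by positivity
  have heη : e ≤ η := by
    have h1 : 1 / η < (N:ℝ) + 1 := by linarith
    have h2 : (N:ℝ) + 1 ≤ ((N:ℝ) + 1) ^ 2 := by
      have : (0:ℝ) ≤ N := by positivity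
      nlinarith
    rw [he, div_le_iff₀ (by positivity)]
    have h3 : 1 < η * ((N:ℝ) + 1) := by
      have := (div_lt_iff₀ hη0).1 h1
      linarith
    nlinarith
  have hR := h170R_pos k0 (0 + 1)
  have hst := h170_step N K k0 θ hθ0 hθ1 0 (Nat.zero_le _) (bo N)
      (fun w => (box N K k0 θ).law (vk k0) (bk N K k0) K 0 w (fun _ => 1))
      (3 / 4 ^ (k0 + (0 + 1)) + (K : ℝ) * ((θ + (K + 1) * e) * W))
      (2 / h170R k0 (0 + 1) + (K : ℝ) * e) (by positivity) (by positivity)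
      (fun w _ => h170_ind N K k0 θ hθ0 hθ1 K 0 (by omega) w)
  have hn := h170_num k0 K 0 (Nat.zero_le _) θ e (nq (bo N).1) hθ0 he0 (h170_nq_nonneg _)
  have hnq : nq (bo N).1 = 0 := by
    unfold nq bo
    simp
  rw [Nat.sub_zero] at hn
  have hS : ∑ u, nu0 N K k0 θ u * (box N K k0 θ).law (vk k0) (bk N K k0) K 0 u (fun _ => 1) =
      ∑ w, (box N K k0 θ).Tb (vk k0 0) (bo N) w * (bk N K k0 0 w *
        (box N K k0 θ).law (vk k0) (bk N K k0) K 0 w (fun _ => 1)) := by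
    refine Finset.sum_congr rfl (fun u _ => ?_)
    unfold nu0
    ring
  rw [hS]
  refine tsub_le_iff_right.2 (hst.trans (add_le_add le_rfl (ENNReal.ofReal_le_ofReal ?_)))
  refine hn.trans ?_
  rw [hnq, mul_zero, add_zero, add_zero]
  have h5 : ((K + 1 : ℕ) : ℝ) * ((θ + (K + 1) * e) * W) ≤ 1 / 4 ^ k0 := by
    have hK0 : (0:ℝ) ≤ K := by positivity
    have h6 : θ + (K + 1) * e ≤ 2 * (K + 1) * η := by
      have : ((K:ℝ) + 1) * e ≤ (K + 1) * η := mul_le_mul_of_nonneg_left heη (by positivity)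
      nlinarith
    calc ((K + 1 : ℕ) : ℝ) * ((θ + (K + 1) * e) * W) ≤ ((K + 1 : ℕ) : ℝ) * ((2 * (K + 1) * η) * W) := by
          gcongr
      _ = 1 / 4 ^ k0 := by
          rw [hη]; push_cast; field_simp
  have h7 : (4:ℝ) / 4 ^ k0 = 3 / 4 ^ k0 + 1 / 4 ^ k0 := by ring
  rw [h7]
  exact add_le_add le_rfl h5

end Pool.Agent.Helper41.GF
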