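import Pool.Agent.Helper41.GF.AsmDefs
import Pool.Agent.Helper41.GF.Confl
import Pool.Agent.Helper41.GF.LawB
import Pool.Agent.Helper41.GF.EnvM
import Pool.Agent.Helper41.GF.Explicit
import Pool.Agent.Helper41.GF.ChainB
import Pool.Agent.Helper41.GF.MassB

/-!
# First and second moments of the chain weights in the box
-/

set_option autoImplicit false

open scoped ENNReal Nat
open Finset MeasureTheory

namespace Pool.Agent.Helper41.GF

theorem tpB_spec (N K : ℕ) (i : Fin K) (p : BH N K × List (BE N × Bool) × BH N K) :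
    tpB N K p = some i ↔ (Aj N K (0 + i) p.1 ∧ Aj N K (0 + i + 1) p.2.2) := by
  unfold tpB Aj
  have hi := i.2
  split_ifs with h
  · rw [Option.some_inj, Fin.ext_iff]
    constructor
    · intro h2
      simp only at h2
      constructor
      · omega
      · omega
    · rintro ⟨h2, h3⟩
      simp only
      omega
  · constructor
    · intro h2
      exact absurd h2 (by simp)
    · rintro ⟨h2, h3⟩
      exfalso
      apply h
      constructor <;> omega

theorem row_zero (N K k0 : ℕ) (θ : ℝ) (hθ0 : 0 ≤ θ) (hθ1 : θ ≤ 1) : RowLe (box N K k0 θ) 0 := by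
  intro x
  have := box_row N K k0 θ hθ1 x
  linarith

theorem box_hZ (N K k0 : ℕ) (θ : ℝ) (hθ0 : 0 < θ) (hθ1 : θ ≤ 1) :
    ∫⁻ ψ : BV N → ℝ, ENNReal.ofReal ((box N K k0 θ).rho ψ) ≠ ∞ :=
  GG.lintegral_rho_ne_top _ θ hθ0 (contraction _ θ (box_row N K k0 θ hθ1))

theorem ew_total {V E H ι : Type} [Fintype V] [DecidableEq V] [Fintype E] [DecidableEq E]
    [Fintype H] [DecidableEq H] [Fintype ι] [DecidableEq ι] (G : GG V E H)
    (tp : H × List (E × Bool) × H → ι) :
    ∫⁻ ψ : V → ℝ, ENNReal.ofReal (G.rho ψ) = 2 ^ (Fintype.card V) * ∑' env, G.ew tp env := by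
  have h1 : ∀ ψ : V → ℝ, ENNReal.ofReal (G.rho ψ)
      = ∑' env, ENNReal.ofReal (G.rho ψ) * G.sk tp ψ env := by
    intro ψ
    rw [ENNReal.tsum_mul_left, sk_sum, mul_one]
  rw [lintegral_congr h1, lintegral_tsum, ← ENNReal.tsum_mul_left]
  · exact tsum_congr fun env => sk_integral G tp env
  · intro env
    exact (G.measurable_rho.mul (measurable_sk G tp env)).aemeasurable

theorem box_ew_ne_top (N K k0 : ℕ) (θ : ℝ) (hθ0 : 0 < θ) (hθ1 : θ ≤ 1)
    (tp : BH N K × List (BE N × Bool) × BH N K → Option (Fin K)) :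
    ∑' env : Env (BE N) (BH N K) (Option (Fin K)), (box N K k0 θ).ew tp env ≠ ∞ := by
  intro h
  have h1 := ew_total (box N K k0 θ) tp
  rw [h, ENNReal.mul_top (by positivity)] at h1
  exact box_hZ N K k0 θ hθ0 hθ1 h1

theorem box_ew_ne_zero (N K k0 : ℕ) (θ : ℝ)
    (tp : BH N K × List (BE N × Bool) × BH N K → Option (Fin K)) :
    ∑' env : Env (BE N) (BH N K) (Option (Fin K)), (box N K k0 θ).ew tp env ≠ 0 := by
  intro h
  have h1 := ew_total (box N K k0 θ) tp
  rw [h, mul_zero] at h1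
  exact (box N K k0 θ).lintegral_rho_ne_zero h1

theorem lamk_ne_top (N K k0 : ℕ) (θ : ℝ) (hθ0 : 0 < θ) (hθ1 : θ ≤ 1) (k : ℕ) :
    ∑' p, (box N K k0 θ).lamk (Aj N K) k p ≠ ∞ := by
  refine ne_top_of_le_ne_top (lamk_sum_ne_top (box N K k0 θ) θ hθ0 hθ1 (box_row N K k0 θ hθ1))
    (ENNReal.tsum_le_tsum fun p => ?_)
  unfold GG.lamk
  split_ifs
  · exact le_rfl
  · exact bot_le

theorem box_P_ne (N K k0 : ℕ) (θ : ℝ) (hθ0 : 0 < θ) (hθ1 : θ ≤ 1) :
    (∏ i : Fin K, PEx ((box N K k0 θ).lamk (Aj N K) (0 + i)) (fun _ => 1)) ≠ 0 ∧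
    (∏ i : Fin K, PEx ((box N K k0 θ).lamk (Aj N K) (0 + i)) (fun _ => 1)) ≠ ∞ := by
  constructor
  · exact Finset.prod_ne_zero_iff.2 fun i _ => PEx_one_ne_zero _
  · exact ENNReal.prod_ne_top fun i _ => PEx_one_ne_top _ (lamk_ne_top N K k0 θ hθ0 hθ1 _)

/-- expectations of functions of the layers -/
theorem box_ex (N K : ℕ) (θ : ℝ) (hθ0 : 0 < θ) (hθ1 : θ ≤ 1)
    (F : (Fin K → List (BH N K × List (BE N × Bool) × BH N K)) → ℝ≥0∞) :
    (∑' env, (∫⁻ ψ, (box N K 100 θ).sk (tpB N K) ψ env ∂(box N K 100 θ).fieldLaw)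
        * F (fun i => env.1 (some i)))
      * (∏ i : Fin K, PEx ((box N K 100 θ).lamk (Aj N K) (0 + i)) (fun _ => 1))
    = ∑' ls : Fin K → List (BH N K × List (BE N × Bool) × BH N K),
        (∏ i : Fin K, ((ls i).map ((box N K 100 θ).lamk (Aj N K) (0 + i))).prod
          / (((ls i).length)! : ℝ≥0∞)) * F ls := by
  have h := env_marg (box N K 100 θ) (Aj N K) K (tpB N K) (tpB_spec N K)
    (box_ew_ne_top N K 100 θ hθ0 hθ1 _) (box_ew_ne_zero N K 100 θ _) F
  rw [← h]
  congr 1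
  refine tsum_congr fun env => ?_
  rw [sk_fieldLaw _ _ (box_hZ N K 100 θ hθ0 hθ1)]

theorem mm_ne_zero (N K k : ℕ) (x : BV N) : mm N K k x ≠ 0 := by
  unfold mm
  rw [Ne, ENNReal.ofReal_eq_zero, not_le]
  exact mk_pos _ _

theorem mm_ne_top (N K k : ℕ) (x : BV N) : mm N K k x ≠ ∞ := ENNReal.ofReal_ne_top

theorem vk_ne_zero (k0 k : ℕ) : vk k0 k ≠ 0 := by
  unfold vk
  rw [Ne, ENNReal.ofReal_eq_zero, not_le]
  positivity

theorem vk_le_one (k0 k : ℕ) : vk k0 k ≤ 1 := by
  unfold vk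
  rw [← ENNReal.ofReal_one]
  apply ENNReal.ofReal_le_ofReal
  rw [div_le_one (by positivity)]
  apply one_le_pow₀
  exact_mod_cast Nat.one_le_two_pow

theorem bk_cases (N K k0 k : ℕ) (w : BV N) : bk N K k0 k w = 0 ∨ bk N K k0 k w = 1 := by
  unfold bk
  split_ifs
  · right; rfl
  · left; rfl

theorem bk_le_one (N K k0 k : ℕ) (w : BV N) : bk N K k0 k w ≤ 1 := by
  rcases bk_cases N K k0 k w with h | h <;> rw [h]
  exact zero_le_one

/-- expectation of the chains -/
theorem box_ex_chain (N K : ℕ) (θ : ℝ) (hθ0 : 0 < θ) (hθ1 : θ ≤ 1) (u : BV N)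
    (F : List (BE N × Bool) → ℝ≥0∞) :
    ∑' env : Env (BE N) (BH N K) (Option (Fin K)),
      (∫⁻ ψ, (box N K 100 θ).sk (tpB N K) ψ env ∂(box N K 100 θ).fieldLaw)
        * (box N K 100 θ).chain (vk 100) (al N K) K (fun i => env.1 (some i)) 0 u F
      = (box N K 100 θ).law (vk 100) (bk N K 100) K 0 u F := by
  have h := box_ex N K θ hθ0 hθ1 (fun ls => (box N K 100 θ).chain (vk 100) (al N K) K ls 0 u F)
  have h2 := chain_first (box N K 100 θ) (Aj N K) (mm N K) (mm_ne_zero N K) (mm_ne_top N K)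
    (fun k x => mA_box N K 100 θ hθ0 hθ1 (by norm_num) k x)
    (fun k x => mB_box N K 100 θ hθ0 hθ1 (by norm_num) k x)
    (vk 100) (bk N K 100) (al N K) (fun k u w => rfl) K 0 u F
  rw [h2, mul_comm] at h
  obtain ⟨hP0, hP1⟩ := box_P_ne N K 100 θ hθ0 hθ1
  exact (ENNReal.mul_right_inj hP0 hP1).1 h

theorem nu0_sum_le (N K : ℕ) (θ : ℝ) (hθ0 : 0 ≤ θ) (hθ1 : θ ≤ 1) :
    ∑ u, nu0 N K 100 θ u ≤ 1 := by
  refine le_trans (Finset.sum_le_sum fun u _ => ?_)
    (Tb_row (box N K 100 θ) (row_zero N K 100 θ hθ0 hθ1) (vk 100 0) (vk_ne_zero _ _)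
      (vk_le_one _ _) (bo N))
  unfold nu0
  calc _ ≤ (box N K 100 θ).Tb (vk 100 0) (bo N) u * 1 := by
        gcongr
        exact bk_le_one _ _ _ _ _
    _ = _ := mul_one _

theorem tsum_XB {N : ℕ} (f : XB N → ℝ≥0∞) : ∑' x, f x = ∑ u, ∑' ξ, f (u, ξ) := by
  rw [ENNReal.tsum_prod', tsum_fintype]

theorem chain_null {V E H : Type} [Fintype V] [DecidableEq V] [Fintype E] [DecidableEq E]
    [Fintype H] [DecidableEq H] (G : GG V E H) (v : ℕ → ℝ≥0∞) (α : ℕ → V → V → ℝ≥0∞) (K : ℕ)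
    (ls : Fin K → List (H × List (E × Bool) × H)) (k : ℕ) (u : V) :
    G.chain v α K ls k u (fun _ => 0) = 0 := by
  have h := chain_tsum (X := Empty) G v α K ls k u (fun x => x.elim)
  simpa using h

theorem law_null {V E H : Type} [Fintype V] [DecidableEq V] [Fintype E] [DecidableEq E]
    [Fintype H] [DecidableEq H] (G : GG V E H) (v : ℕ → ℝ≥0∞) (β : ℕ → V → ℝ≥0∞) (K : ℕ)
    (k : ℕ) (u : V) :
    G.law v β K k u (fun _ => 0) = 0 := by
  have h := law_tsum (X := Empty) G v β K k u (fun x => x.elim)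
  simpa using h

open Classical in
theorem chain_ind {V E H : Type} [Fintype V] [DecidableEq V] [Fintype E] [DecidableEq E]
    [Fintype H] [DecidableEq H] (G : GG V E H) (v : ℕ → ℝ≥0∞) (α : ℕ → V → V → ℝ≥0∞) (K : ℕ)
    (ls : Fin K → List (H × List (E × Bool) × H)) (k : ℕ) (u : V)
    (c : List (E × Bool) → Prop) :
    ∑' ξ : List (E × Bool), (if c ξ then G.chain v α K ls k u (fun η => if η = ξ then 1 else 0)
      else 0) = G.chain v α K ls k u (fun η => if c η then 1 else 0) := by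
  have h := chain_tsum (X := List (E × Bool)) G v α K ls k u
    (fun ξ η => if c ξ then (if η = ξ then 1 else 0) else 0)
  have h2 : (fun η : List (E × Bool) => ∑' ξ : List (E × Bool),
      (if c ξ then (if η = ξ then (1 : ℝ≥0∞) else 0) else 0)) = fun η => if c η then 1 else 0 := by
    funext η
    rw [tsum_eq_single η]
    · simp
    · intro ξ hξ
      simp [Ne.symm hξ]
  rw [h2] at h
  rw [h]
  refine tsum_congr fun ξ => ?_
  by_cases hc : c ξ
  · simp only [hc, if_true]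
  · simp only [hc, if_false]
    exact (chain_null G v α K ls k u).symm

open Classical in
/-- a single walk -/
theorem ex_KW (N K : ℕ) (θ : ℝ) (hθ0 : 0 < θ) (hθ1 : θ ≤ 1) (x : XB N) :
    ∑' env, (∫⁻ ψ, (box N K 100 θ).sk (tpB N K) ψ env ∂(box N K 100 θ).fieldLaw)
        * KW N K θ env x = LB N K θ x := by
  unfold KW LB
  rw [← box_ex_chain N K θ hθ0 hθ1, ← ENNReal.tsum_mul_left]
  refine tsum_congr fun env => ?_
  ring

theorem KW_total (N K : ℕ) (θ : ℝ) (env : Env (BE N) (BH N K) (Option (Fin K))) :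
    ∑' x, KW N K θ env x = ∑ u, nu0 N K 100 θ u
      * (box N K 100 θ).chain (vk 100) (al N K) K (fun i => env.1 (some i)) 0 u (fun _ => 1) := by
  classical
  rw [tsum_XB]
  refine Finset.sum_congr rfl fun u _ => ?_
  have h := chain_ind (box N K 100 θ) (vk 100) (al N K) K (fun i => env.1 (some i)) 0 u
    (fun _ => True)
  simp only [if_true] at h
  rw [← h, ← ENNReal.tsum_mul_left]
  refine tsum_congr fun ξ => ?_
  unfold KW
  congr

open Classical in
theorem KW_total_vis (N K : ℕ) (θ : ℝ) (env : Env (BE N) (BH N K) (Option (Fin K))) (z : BV N) :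
    ∑' x, (if z ∈ visB N K θ x then KW N K θ env x else 0) = ∑ u, nu0 N K 100 θ u
      * (box N K 100 θ).chain (vk 100) (al N K) K (fun i => env.1 (some i)) 0 u
        (fun ξ => if z ∈ visB N K θ (u, ξ) then 1 else 0) := by
  rw [tsum_XB]
  refine Finset.sum_congr rfl fun u _ => ?_
  have h := chain_ind (box N K 100 θ) (vk 100) (al N K) K (fun i => env.1 (some i)) 0 u
    (fun ξ => z ∈ visB N K θ (u, ξ))
  rw [← h, ← ENNReal.tsum_mul_left]
  refine tsum_congr fun ξ => ?_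
  unfold KW
  split_ifs
  · rfl
  · rw [mul_zero]

/-- expectation of the total weight -/
theorem ex_total (N K : ℕ) (θ : ℝ) (hθ0 : 0 < θ) (hθ1 : θ ≤ 1) :
    ∑' env, (∫⁻ ψ, (box N K 100 θ).sk (tpB N K) ψ env ∂(box N K 100 θ).fieldLaw)
        * (∑' x, KW N K θ env x)
      = ∑ u, nu0 N K 100 θ u * (box N K 100 θ).law (vk 100) (bk N K 100) K 0 u (fun _ => 1) := by
  have h1 : ∀ env : Env (BE N) (BH N K) (Option (Fin K)),
      (∫⁻ ψ, (box N K 100 θ).sk (tpB N K) ψ env ∂(box N K 100 θ).fieldLaw)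
        * (∑' x, KW N K θ env x)
      = ∑ u, nu0 N K 100 θ u * ((∫⁻ ψ, (box N K 100 θ).sk (tpB N K) ψ env
          ∂(box N K 100 θ).fieldLaw) * (box N K 100 θ).chain (vk 100) (al N K) K
            (fun i => env.1 (some i)) 0 u (fun _ => 1)) := by
    intro env
    rw [KW_total, Finset.mul_sum]
    refine Finset.sum_congr rfl fun u _ => ?_
    ring
  rw [tsum_congr h1, Summable.tsum_finsetSum (fun _ _ => ENNReal.summable)]
  refine Finset.sum_congr rfl fun u _ => ?_
  rw [ENNReal.tsum_mul_left, box_ex_chain N K θ hθ0 hθ1]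

open Classical in
/-- expected weight of the walks through a site -/
theorem box_visits (N K : ℕ) (θ : ℝ) (hθ0 : 0 < θ) (hθ1 : θ ≤ 1) (z : BV N) :
    ∑' env, (∫⁻ ψ, (box N K 100 θ).sk (tpB N K) ψ env ∂(box N K 100 θ).fieldLaw)
        * (∑' x, (if z ∈ visB N K θ x then KW N K θ env x else 0))
      ≤ ∑ u, nu0 N K 100 θ u * (box N K 100 θ).Gr u z := by
  have h1 : ∀ env : Env (BE N) (BH N K) (Option (Fin K)),
      (∫⁻ ψ, (box N K 100 θ).sk (tpB N K) ψ env ∂(box N K 100 θ).fieldLaw)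
        * (∑' x, (if z ∈ visB N K θ x then KW N K θ env x else 0))
      = ∑ u, nu0 N K 100 θ u * ((∫⁻ ψ, (box N K 100 θ).sk (tpB N K) ψ env
          ∂(box N K 100 θ).fieldLaw) * (box N K 100 θ).chain (vk 100) (al N K) K
            (fun i => env.1 (some i)) 0 u (fun ξ => if z ∈ visB N K θ (u, ξ) then 1 else 0)) := by
    intro env
    rw [KW_total_vis, Finset.mul_sum]
    refine Finset.sum_congr rfl fun u _ => ?_
    ring
  rw [tsum_congr h1, Summable.tsum_finsetSum (fun _ _ => ENNReal.summable)]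
  refine Finset.sum_le_sum fun u _ => ?_
  rw [ENNReal.tsum_mul_left, box_ex_chain N K θ hθ0 hθ1]
  gcongr
  refine le_trans (law_mono _ _ _ _ _ _ _ _ fun ξ => ?_)
    (law_visits (box N K 100 θ) (row_zero N K 100 θ hθ0.le hθ1) (vk 100) (vk_ne_zero 100)
      (vk_le_one 100) (bk N K 100) (bk_le_one N K 100) K 0 u z)
  split_ifs with hz
  · obtain ⟨i, hi⟩ := hz
    simp only at hi
    have hmin : ξ.take i = ξ.take (min i ξ.length) := by
      rcases le_total i ξ.length with h | h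
      · rw [min_eq_left h]
      · rw [min_eq_right h, List.take_of_length_le h, List.take_of_length_le le_rfl]
    refine le_trans ?_ (Finset.single_le_sum (f := fun i =>
      if (box N K 100 θ).fin u (ξ.take i) = z then (1 : ℝ≥0∞) else 0) (fun _ _ => bot_le)
      (Finset.mem_range.2 (Nat.lt_succ_of_le (min_le_right i ξ.length))))
    rw [hmin] at hi
    simp only [hi, if_true]
    exact le_rfl
  · exact bot_le

/-- second moment of the total weight -/
theorem ex_second (N K : ℕ) (θ : ℝ) (hθ0 : 0 < θ) (hθ1 : θ ≤ 1) :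
    ∑' env, (∫⁻ ψ, (box N K 100 θ).sk (tpB N K) ψ env ∂(box N K 100 θ).fieldLaw)
        * (∑' x, KW N K θ env x) ^ 2 ≤ 101 / 100 := by
  set G := box N K 100 θ with hG
  have hex := box_ex N K θ hθ0 hθ1 (fun ls => (∑ u, nu0 N K 100 θ u
      * (box N K 100 θ).chain (vk 100) (al N K) K ls 0 u (fun _ => 1)) ^ 2)
  have h2 := chain_second (box N K 100 θ) (Aj N K) (mm N K) (mm_ne_zero N K) (mm_ne_top N K)
    (fun k x => mA_box N K 100 θ hθ0 hθ1 (by norm_num) k x)
    (fun k x => mB_box N K 100 θ hθ0 hθ1 (by norm_num) k x)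
    (lamk_ne_top N K 100 θ hθ0 hθ1) (vk 100) (vk_le_one 100) (bk N K 100) (bk_cases N K 100)
    (al N K) (fun k u w => rfl) (qk 100) (kk 100)
    (fun k u w hu hw => qk_bound N K 100 k u w hu hw)
    (fun k x => Tb_row (box N K 100 θ) (row_zero N K 100 θ hθ0.le hθ1) (vk 100 k)
      (vk_ne_zero _ _) (vk_le_one _ _) x)
    (fun k x y => Tb_Gr_box_le N K 100 θ hθ0.le hθ1 (2 ^ (39 * (100 + k))) Nat.one_le_two_pow x y)
    K 0 (nu0 N K 100 θ) (fun u hu => by unfold nu0; rw [hu, mul_zero])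
  rw [← hex, mul_comm] at h2
  obtain ⟨hP0, hP1⟩ := box_P_ne N K 100 θ hθ0 hθ1
  have h3 := (ENNReal.mul_le_mul_iff_right hP0 hP1).1 h2
  have h4 : ∑' env, (∫⁻ ψ, (box N K 100 θ).sk (tpB N K) ψ env ∂(box N K 100 θ).fieldLaw)
        * (∑' x, KW N K θ env x) ^ 2
      ≤ (AC (qk 100) (kk 100) K 0).1 * (∑ u, nu0 N K 100 θ u) ^ 2
          + (AC (qk 100) (kk 100) K 0).2 * ∑ u, ∑ u', nu0 N K 100 θ u * nu0 N K 100 θ u'
            * (box N K 100 θ).Gr u u' := by
    refine le_trans (le_of_eq (tsum_congr fun env => ?_)) h3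
    rw [KW_total]
  refine h4.trans (le_trans ?_ (AC_bound K))
  have h5 := nu0_sum_le N K θ hθ0.le hθ1
  have h6 : ∑ u, ∑ u', nu0 N K 100 θ u * nu0 N K 100 θ u' * (box N K 100 θ).Gr u u'
      ≤ kk 100 0 := by
    rw [Finset.sum_comm]
    calc ∑ u', ∑ u, nu0 N K 100 θ u * nu0 N K 100 θ u' * (box N K 100 θ).Gr u u'
        ≤ ∑ u', nu0 N K 100 θ u' * kk 100 0 := by
          refine Finset.sum_le_sum fun u' _ => ?_
          have h7 := Tb_Gr_box_le N K 100 θ hθ0.le hθ1 (2 ^ (39 * (100 + 0)))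
            Nat.one_le_two_pow (bo N) u'
          calc ∑ u, nu0 N K 100 θ u * nu0 N K 100 θ u' * (box N K 100 θ).Gr u u'
              = nu0 N K 100 θ u' * ∑ u, nu0 N K 100 θ u * (box N K 100 θ).Gr u u' := by
                rw [Finset.mul_sum]
                refine Finset.sum_congr rfl fun u _ => ?_
                ring
            _ ≤ nu0 N K 100 θ u' * kk 100 0 := by
                gcongr
                refine le_trans (Finset.sum_le_sum fun u _ => ?_) h7
                gcongr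
                unfold nu0
                calc _ ≤ (box N K 100 θ).Tb (vk 100 0) (bo N) u * 1 := by
                      gcongr
                      exact bk_le_one _ _ _ _ _
                  _ = _ := mul_one _
      _ = (∑ u', nu0 N K 100 θ u') * kk 100 0 := by rw [Finset.sum_mul]
      _ ≤ 1 * kk 100 0 := by gcongr
      _ = kk 100 0 := one_mul _
  calc (AC (qk 100) (kk 100) K 0).1 * (∑ u, nu0 N K 100 θ u) ^ 2
        + (AC (qk 100) (kk 100) K 0).2 * ∑ u, ∑ u', nu0 N K 100 θ u * nu0 N K 100 θ u'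
          * (box N K 100 θ).Gr u u'
      ≤ (AC (qk 100) (kk 100) K 0).1 * 1 ^ 2 + (AC (qk 100) (kk 100) K 0).2 * kk 100 0 := by
        gcongr
    _ = _ := by ring

end Pool.Agent.Helper41.GF
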