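import Pool.Agent.Helper41.GF.ChainDefs
import Pool.Agent.Helper41.GF.BoxDefs

/-!
# Definitions: finite weighted graphs with ghost edges, currents, signs, ghost paths
-/

set_option autoImplicit false

open scoped ENNReal Nat
open Finset MeasureTheory

namespace Pool.Agent.Helper41.GF

/-! ## TARGETS -/

section targets

variable {V E H : Type} [Fintype V] [DecidableEq V] [Fintype E] [DecidableEq E] [Fintype H]
  [DecidableEq H]

theorem cs_fin_append (G : GG V E H) (l l' : List (E × Bool)) (u : V) :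
    G.fin u (l ++ l') = G.fin (G.fin u l) l' := by
  induction l generalizing u with
  | nil => rfl
  | cons d l ih => exact ih (G.dt d)

theorem cs_one_zero (G : GG V E H) (v : ℝ≥0∞) (α : V → V → ℝ≥0∞)
    (p : H × List (E × Bool) × H) (u : V) :
    G.one v α p u (fun _ _ => 0) = 0 := by
  unfold GG.one
  simp

theorem cs_chain_zero (G : GG V E H) (v : ℕ → ℝ≥0∞) (α : ℕ → V → V → ℝ≥0∞) (K : ℕ) :
    ∀ (ls : Fin K → List (H × List (E × Bool) × H)) (k : ℕ) (u : V),
    G.chain v α K ls k u (fun _ => 0) = 0 := by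
  induction K with
  | zero => intro ls k u; rfl
  | succ K ih =>
    intro ls k u
    unfold GG.chain
    apply List.sum_eq_zero
    intro y hy
    rw [List.mem_map] at hy
    obtain ⟨p, -, rfl⟩ := hy
    have : (fun (_ : List (E × Bool)) (w : V) => G.chain v α K (fun i => ls i.succ) (k + 1) w
        (fun _ => 0)) = fun _ _ => 0 := by
      funext seg w
      exact ih _ _ _
    rw [this]
    exact cs_one_zero G _ _ _ _

theorem cs_seg_site (G : GG V E H) (p : H × List (E × Bool) × H) (a b i : ℕ) :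
    G.fin (G.site p a) (((p.2.1.take b).drop a).take i) = G.site p (a + min i (b - a)) := by
  unfold GG.site
  rw [← cs_fin_append, List.drop_take, List.take_take, ← List.take_add]

theorem cs_step (G : GG V E H) (v : ℕ → ℝ≥0∞) (α : ℕ → V → V → ℝ≥0∞) (K : ℕ)
    (IH : ∀ (ls : Fin K → List (H × List (E × Bool) × H)) (k : ℕ) (u : V)
      (ξ : List (E × Bool)), G.chain v α K ls k u (fun η => if η = ξ then 1 else 0) ≠ 0 →
      ∀ i : ℕ, G.fin u (ξ.take i) = u ∨
        ∃ j : Fin K, ∃ p ∈ ls j, ∃ a, G.site p a = G.fin u (ξ.take i))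
    (ls : Fin (K + 1) → List (H × List (E × Bool) × H)) (k : ℕ) (u : V) (ξ : List (E × Bool))
    (h : G.chain v α (K + 1) ls k u (fun η => if η = ξ then 1 else 0) ≠ 0) (i : ℕ) :
    ∃ j : Fin (K + 1), ∃ p ∈ ls j, ∃ a, G.site p a = G.fin u (ξ.take i) := by
  unfold GG.chain at h
  have h1 : ∃ p ∈ ls 0, G.one (v (k + 1)) (α k) p u
      (fun seg w => G.chain v α K (fun i => ls i.succ) (k + 1) w
        (fun ξ' => if seg ++ ξ' = ξ then 1 else 0)) ≠ 0 := by
    by_contra hcon
    apply h
    apply List.sum_eq_zero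
    intro y hy
    rw [List.mem_map] at hy
    obtain ⟨p, hp, rfl⟩ := hy
    by_contra hne
    exact hcon ⟨p, hp, hne⟩
  obtain ⟨p, hp, h2⟩ := h1
  unfold GG.one at h2
  obtain ⟨b, hb, h3⟩ := Finset.exists_ne_zero_of_sum_ne_zero h2
  obtain ⟨a, ha, h4⟩ := Finset.exists_ne_zero_of_sum_ne_zero h3
  by_cases hsite : G.site p a = u
  swap
  · rw [if_neg hsite] at h4
    exact absurd rfl h4
  rw [if_pos hsite] at h4
  have h5 := right_ne_zero_of_mul h4
  have hab : a ≤ b := by
    have := Finset.mem_range.1 ha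
    omega
  obtain ⟨seg, hseg⟩ : ∃ seg, seg = (p.2.1.take b).drop a := ⟨_, rfl⟩
  rw [← hseg] at h5
  beta_reduce at h5
  have h6 : ∃ ξ1, ξ = seg ++ ξ1 := by
    by_contra hcon
    apply h5
    have : (fun ξ' : List (E × Bool) => if seg ++ ξ' = ξ then (1 : ℝ≥0∞) else 0) = fun _ => 0 := by
      funext ξ'
      rw [if_neg]
      intro h
      exact hcon ⟨ξ', h.symm⟩
    rw [this]
    exact cs_chain_zero G v α K _ _ _
  obtain ⟨ξ1, rfl⟩ := h6
  have h7 : (fun ξ' : List (E × Bool) => if seg ++ ξ' = seg ++ ξ1 then (1 : ℝ≥0∞) else 0) =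
      fun ξ' => if ξ' = ξ1 then 1 else 0 := by
    funext ξ'
    by_cases hx : ξ' = ξ1
    · rw [if_pos hx, if_pos (by rw [hx])]
    · rw [if_neg hx, if_neg (fun h => hx (List.append_cancel_left h))]
  rw [h7] at h5
  rw [List.take_append, cs_fin_append, ← hsite]
  by_cases hi : i ≤ seg.length
  · rw [Nat.sub_eq_zero_of_le hi, List.take_zero]
    refine ⟨0, p, hp, a + min i (b - a), ?_⟩
    rw [hseg, cs_seg_site]
    rfl
  · have hfull : seg.take i = ((p.2.1.take b).drop a).take (b - a) := by
      rw [List.take_of_length_le (by omega), hseg, List.drop_take, List.take_take, Nat.min_self]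
    rw [hfull, cs_seg_site, Nat.min_self, Nat.add_sub_cancel' hab]
    rcases IH _ _ _ _ h5 (i - seg.length) with h8 | ⟨j, q, hq, c, hc⟩
    · rw [h8]
      exact ⟨0, p, hp, b, rfl⟩
    · exact ⟨j.succ, q, hq, c, hc⟩

theorem cs_aux (G : GG V E H) (v : ℕ → ℝ≥0∞) (α : ℕ → V → V → ℝ≥0∞) (K : ℕ) :
    ∀ (ls : Fin K → List (H × List (E × Bool) × H)) (k : ℕ) (u : V)
      (ξ : List (E × Bool)), G.chain v α K ls k u (fun η => if η = ξ then 1 else 0) ≠ 0 →
      ∀ i : ℕ, G.fin u (ξ.take i) = u ∨
        ∃ j : Fin K, ∃ p ∈ ls j, ∃ a, G.site p a = G.fin u (ξ.take i) := by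
  induction K with
  | zero =>
    intro ls k u ξ h i
    unfold GG.chain at h
    left
    have h1 : ([] : List (E × Bool)) = ξ := by
      by_contra hne
      apply h
      simp only
      rw [if_neg hne]
    rw [← h1, List.take_nil]
    rfl
  | succ K ih =>
    intro ls k u ξ h i
    right
    exact cs_step G v α K ih ls k u ξ h i

/-- the sites of a chain lie on the soup paths -/
theorem chain_sites (G : GG V E H) (v : ℕ → ℝ≥0∞) (α : ℕ → V → V → ℝ≥0∞) (K : ℕ)
    (ls : Fin (K + 1) → List (H × List (E × Bool) × H)) (k : ℕ) (u : V) (ξ : List (E × Bool))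
    (h : G.chain v α (K + 1) ls k u (fun η => if η = ξ then 1 else 0) ≠ 0) (i : ℕ) :
    ∃ j : Fin (K + 1), ∃ p ∈ ls j, ∃ a, G.site p a = G.fin u (ξ.take i) :=
  cs_step G v α K (cs_aux G v α K) ls k u ξ h i

end targets

open Classical in
theorem box_card (N K k0 : ℕ) (θ : ℝ) (z : BV N) :
    (univ.filter (fun e => (box N K k0 θ).src e = z ∨ (box N K k0 θ).tgt e = z)).card ≤ 6 := by
  rw [Finset.filter_or]
  have h1 : (univ.filter (fun e => (box N K k0 θ).src e = z)).card ≤ 3 := by
    have : (univ.filter (fun e => (box N K k0 θ).src e = z)).card ≤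
        (univ : Finset (Fin 3)).card := by
      apply Finset.card_le_card_of_injOn (fun e => e.1.2) (fun _ _ => Finset.mem_coe.2 (mem_univ _))
      intro e he e' he' hee
      have h1 : (box N K k0 θ).src e = z := (Finset.mem_filter.1 (Finset.mem_coe.1 he)).2
      have h2 : (box N K k0 θ).src e' = z := (Finset.mem_filter.1 (Finset.mem_coe.1 he')).2
      have h3 : e.1.1 = e'.1.1 := h1.trans h2.symm
      exact Subtype.ext (Prod.ext h3 hee)
    simpa using this
  have h2 : (univ.filter (fun e => (box N K k0 θ).tgt e = z)).card ≤ 3 := by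
    have : (univ.filter (fun e => (box N K k0 θ).tgt e = z)).card ≤
        (univ : Finset (Fin 3)).card := by
      apply Finset.card_le_card_of_injOn (fun e => e.1.2) (fun _ _ => Finset.mem_coe.2 (mem_univ _))
      intro e he e' he' hee
      have h1 : (box N K k0 θ).tgt e = z := (Finset.mem_filter.1 (Finset.mem_coe.1 he)).2
      have h2 : (box N K k0 θ).tgt e' = z := (Finset.mem_filter.1 (Finset.mem_coe.1 he')).2
      have h3 : e.1.1.1 + Pi.single e.1.2 1 = e'.1.1.1 + Pi.single e'.1.2 1 :=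
        congrArg Subtype.val (h1.trans h2.symm)
      have hee' : e.1.2 = e'.1.2 := hee
      rw [hee'] at h3
      exact Subtype.ext (Prod.ext (Subtype.ext (add_right_cancel h3)) hee')
    simpa using this
  exact le_trans (Finset.card_union_le _ _) (by omega)

end Pool.Agent.Helper41.GF
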