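import Pool.Agent.Helper41.GF.AsmA
import Pool.Agent.Helper41.GF.Sites

/-!
# Definitions: finite weighted graphs with ghost edges, currents, signs, ghost paths
-/

set_option autoImplicit false

open scoped ENNReal Nat
open Finset MeasureTheory

namespace Pool.Agent.Helper41.GF


section given
variable {V E H ι : Type} [Fintype V] [DecidableEq V] [Fintype E] [DecidableEq E] [Fintype H]
  [DecidableEq H] [Fintype ι] [DecidableEq ι]

namespace GG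

end GG

end given

/-! ## TARGET -/

theorem j3803_nq (x : Z3) : 0 ≤ nq x := by
  unfold nq
  exact Finset.sum_nonneg fun i _ => sq_nonneg _

/-- powers of `2 ^ 8000` -/
theorem j3803_c1 : (1 : ℝ) ≤ 2 ^ 8000 := one_le_pow₀ (by norm_num)

theorem j3803_c0 : (0 : ℝ) < 2 ^ 8000 := lt_of_lt_of_le one_pos j3803_c1

theorem j3803_Ac (x : Z3) : (2 : ℝ) ^ 8000 ≤ nq x + 2 ^ 8000 := le_add_of_nonneg_left (j3803_nq x)

theorem j3803_A1 (x : Z3) : 1 ≤ nq x + 2 ^ 8000 := j3803_c1.trans (j3803_Ac x)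

theorem j3803_A0 (x : Z3) : 0 < nq x + 2 ^ 8000 := lt_of_lt_of_le one_pos (j3803_A1 x)

theorem j3803_c320 : (2 : ℝ) ^ 320 ≤ 2 ^ 8000 := pow_le_pow_right₀ (by norm_num) (by norm_num)

theorem j3803_cA : ((2 : ℝ) ^ 8000) ^ (-(19 / 80) : ℝ) ≤ 1 / 6 := by
  have h1 : ((2 : ℝ) ^ 8000) ^ (-(19 / 80) : ℝ) ≤ ((2 : ℝ) ^ 320) ^ (-(19 / 80) : ℝ) :=
    Real.rpow_le_rpow_of_nonpos (by positivity) j3803_c320 (by norm_num)
  refine h1.trans ?_
  rw [← Real.rpow_natCast 2 320, ← Real.rpow_mul (by norm_num)]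
  have h2 : ((320 : ℕ) : ℝ) * (-(19 / 80)) = -((76 : ℕ) : ℝ) := by norm_num
  rw [h2, Real.rpow_neg (by norm_num), Real.rpow_natCast]
  norm_num

theorem j3803_cB : 1536 * 243 * 100 * ((2 : ℝ) ^ 8000) ^ (-(1 / 8) : ℝ) ≤ 1 / 1000 := by
  have h1 : ((2 : ℝ) ^ 8000) ^ (-(1 / 8) : ℝ) ≤ ((2 : ℝ) ^ 320) ^ (-(1 / 8) : ℝ) :=
    Real.rpow_le_rpow_of_nonpos (by positivity) j3803_c320 (by norm_num)
  have h3 : ((2 : ℝ) ^ 320) ^ (-(1 / 8) : ℝ) = (2 ^ 40)⁻¹ := by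
    rw [← Real.rpow_natCast 2 320, ← Real.rpow_mul (by norm_num)]
    have h2 : ((320 : ℕ) : ℝ) * (-(1 / 8)) = -((40 : ℕ) : ℝ) := by norm_num
    rw [h2, Real.rpow_neg (by norm_num), Real.rpow_natCast]
  rw [h3] at h1
  calc 1536 * 243 * 100 * ((2 : ℝ) ^ 8000) ^ (-(1 / 8) : ℝ) ≤ 1536 * 243 * 100 * (2 ^ 40)⁻¹ := by
        apply mul_le_mul_of_nonneg_left h1
        norm_num
    _ ≤ 1 / 1000 := by norm_num

theorem j3803_mt_pos (K : ℕ) (x : Z3) : 0 < mt K x := by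
  unfold mt
  exact Finset.sum_pos (fun j _ => mk_pos _ _) Finset.univ_nonempty

theorem j3803_mt_le (K : ℕ) (x : Z3) :
    mt K x ≤ 3 * (nq x + 2 ^ 8000) ^ (-(19 / 80) : ℝ) := by
  have h := mk_sum_le 100 K x
  exact h

theorem j3803_mt_half (K : ℕ) (x : Z3) : mt K x ≤ 1 / 2 := by
  refine (j3803_mt_le K x).trans ?_
  have h1 : (nq x + 2 ^ 8000) ^ (-(19 / 80) : ℝ) ≤ ((2 : ℝ) ^ 8000) ^ (-(19 / 80) : ℝ) :=
    Real.rpow_le_rpow_of_nonpos j3803_c0 (j3803_Ac x) (by norm_num)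
  have h2 := j3803_cA
  linarith

theorem j3803_pow (K : ℕ) (x : Z3) :
    1536 * mt K x ^ 5 * ((nq x + 2 ^ 8000) ^ (1 / 32 : ℝ)) ^ 2 ≤
      1536 * 243 * (nq x + 2 ^ 8000) ^ (-(9 / 8) : ℝ) := by
  have h0 := (j3803_mt_pos K x).le
  have h1 := j3803_mt_le K x
  have hA : 0 < nq x + 2 ^ 8000 := j3803_A0 x
  generalize nq x + 2 ^ 8000 = A at h1 hA ⊢
  have h2 : mt K x ^ 5 ≤ (3 * A ^ (-(19 / 80) : ℝ)) ^ 5 := pow_le_pow_left₀ h0 h1 5
  have h3 : (3 * A ^ (-(19 / 80) : ℝ)) ^ 5 = 243 * A ^ (-(19 / 16) : ℝ) := by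
    rw [mul_pow, ← Real.rpow_mul_natCast hA.le]
    norm_num
  have h4 : (A ^ (1 / 32 : ℝ)) ^ 2 = A ^ (1 / 16 : ℝ) := by
    rw [← Real.rpow_mul_natCast hA.le]
    norm_num
  rw [h3] at h2
  rw [h4]
  have h5 : A ^ (-(19 / 16) : ℝ) * A ^ (1 / 16 : ℝ) = A ^ (-(9 / 8) : ℝ) := by
    rw [← Real.rpow_add hA]
    norm_num
  have h6 : 0 ≤ A ^ (1 / 16 : ℝ) := Real.rpow_nonneg hA.le _
  calc 1536 * mt K x ^ 5 * A ^ (1 / 16 : ℝ) ≤
      1536 * (243 * A ^ (-(19 / 16) : ℝ)) * A ^ (1 / 16 : ℝ) := by gcongr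
    _ = 1536 * 243 * (A ^ (-(19 / 16) : ℝ) * A ^ (1 / 16 : ℝ)) := by ring
    _ = _ := by rw [h5]

theorem j3803_row {V E H : Type} [DecidableEq V] [Fintype E] {G : GG V E H} {θ : ℝ}
    (h : RowLe G θ) (h0 : 0 ≤ θ) : RowLe G 0 := fun x => (h x).trans (by linarith)

theorem j3803_pop {V E H : Type} [Fintype V] [DecidableEq V] [Fintype E] [DecidableEq E]
    [Fintype H] [DecidableEq H] (G : GG V E H) {m : V → ℝ} (hm : ∀ x, 0 ≤ m x) (x : V) :
    0 ≤ G.Pop m x := by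
  unfold GG.Pop
  apply Finset.sum_nonneg
  intro e _
  apply mul_nonneg (NNReal.coe_nonneg _)
  apply add_nonneg
  · split_ifs
    · exact hm _
    · exact le_rfl
  · split_ifs
    · exact hm _
    · exact le_rfl

theorem j3803_green (N K : ℕ) (θ : ℝ) (hθ0 : 0 < θ) (hθ1 : θ ≤ 1) (y : BV N) :
    ∃ g : BV N → ℝ, (∀ x, g x = (box N K 100 θ).Pop g x + (if x = y then 1 else 0)) ∧ 0 < g y
      ∧ g y ≤ 400 := by
  have hrow := box_row N K 100 θ hθ1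
  have hfin := Gr_ne_top (box N K 100 θ) θ hθ0 hθ1 hrow y y
  refine ⟨fun x => ((box N K 100 θ).Gr x y).toReal,
    fun x => Gr_eq (box N K 100 θ) θ hθ0 hθ1 hrow y x, ?_, ?_⟩
  · apply ENNReal.toReal_pos _ hfin
    have h1 : (box N K 100 θ).pwr 0 y y ≤ (box N K 100 θ).Gr y y :=
      ENNReal.le_tsum (f := fun n => (box N K 100 θ).pwr n y y) 0
    rw [GG.pwr_zero, if_pos rfl] at h1
    intro h2
    rw [h2] at h1
    exact absurd h1 (by simp)
  · have h1 := Gr_box_le N K 100 θ hθ0.le hθ1 y y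
    have h2 : nq (y.1 - y.1) = 0 := by
      rw [sub_self]
      simp [nq]
    have h3 : Real.sqrt 100 = 10 := by
      rw [show (100 : ℝ) = 10 ^ 2 by norm_num]
      exact Real.sqrt_sq (by norm_num)
    rw [h2, zero_add, h3] at h1
    refine (ENNReal.toReal_le_of_le_ofReal (by norm_num) h1).trans ?_
    norm_num

theorem j3803_nu (N K : ℕ) (θ : ℝ) (hθ0 : 0 < θ) (hθ1 : θ ≤ 1) :
    ∑ u, nu0 N K 100 θ u ≤ 1 := by
  have hrow := j3803_row (box_row N K 100 θ hθ1) hθ0.le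
  have h1 : (1 : ℝ) ≤ ((2 ^ (39 * (100 + 0)) : ℕ) : ℝ) := by
    exact_mod_cast Nat.one_le_two_pow
  have hv0 : vk 100 0 ≠ 0 := by
    unfold vk
    have h2 : 0 < 1 / ((2 ^ (39 * (100 + 0)) : ℕ) : ℝ) ^ 2 := by
      have : 0 < ((2 ^ (39 * (100 + 0)) : ℕ) : ℝ) := by linarith
      positivity
    exact (ENNReal.ofReal_pos.2 h2).ne'
  have hv1 : vk 100 0 ≤ 1 := by
    unfold vk
    rw [← ENNReal.ofReal_one]
    apply ENNReal.ofReal_le_ofReal
    rw [div_le_one (by positivity)]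
    exact one_le_pow₀ h1
  refine le_trans (Finset.sum_le_sum fun u _ => ?_)
    (Tb_row (box N K 100 θ) hrow (vk 100 0) hv0 hv1 (bo N))
  unfold nu0
  have hb : bk N K 100 0 u ≤ 1 := by
    unfold bk
    split_ifs
    · exact le_rfl
    · exact zero_le_one
  calc (box N K 100 θ).Tb (vk 100 0) (bo N) u * bk N K 100 0 u ≤
      (box N K 100 θ).Tb (vk 100 0) (bo N) u * 1 := by gcongr
    _ = _ := mul_one _

open Classical in
theorem j3803_vis (N K : ℕ) (hK : 1 ≤ K) (θ : ℝ) :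
    ∀ (env : Env (BE N) (BH N K) (Option (Fin K))) (x : XB N) (z : BV N), KW N K θ env x ≠ 0 →
      z ∈ visB N K θ x → ∃ t, ∃ p ∈ env.1 t, ∃ i, (box N K 100 θ).site p i = z := by
  obtain ⟨K, rfl⟩ : ∃ K', K = K' + 1 := ⟨K - 1, by omega⟩
  intro env x z hKW hz
  obtain ⟨i, rfl⟩ := hz
  unfold KW at hKW
  have h1 := right_ne_zero_of_mul hKW
  obtain ⟨j, p, hp, a, ha⟩ := chain_sites (box N (K + 1) 100 θ) (vk 100) (al N (K + 1)) K
    (fun i => env.1 (some i)) 0 x.1 x.2 h1 i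
  exact ⟨some j, p, hp, a, ha⟩

open Classical in
theorem j3803_site (N K : ℕ) (hK : 1 ≤ K) (θ : ℝ) (hθ0 : 0 < θ) (hθ1 : θ ≤ 1) (z : BV N) :
    ∫⁻ ψ, (∑' env, (box N K 100 θ).sk (tpB N K) ψ env *
          (if ∑' x, KW N K θ env x ≤ 2 then
            ∑' x, (if z ∈ visB N K θ x then KW N K θ env x else 0) else 0))
        * (∑' env, (box N K 100 θ).sk (tpB N K) (fun x => 2 * mt K x.1 - ψ x) env *
          (if ∑' x, KW N K θ env x ≤ 2 then
            ∑' x, (if z ∈ visB N K θ x then KW N K θ env x else 0) else 0))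
        ∂(box N K 100 θ).fieldLaw ≤
      ENNReal.ofReal (1536 * 243 * (nq z.1 + 2 ^ 8000) ^ (-(9 / 8) : ℝ)) *
        (∑ u, nu0 N K 100 θ u * (box N K 100 θ).Gr u z) +
      ENNReal.ofReal (48 * Real.exp (-((nq z.1 + 2 ^ 8000) ^ (1 / 32 : ℝ)) ^ 2 / 3200)) := by
  have hrow := box_row N K 100 θ hθ1
  have hrow0 := j3803_row hrow hθ0.le
  have ht1 : 1 ≤ (nq z.1 + 2 ^ 8000) ^ (1 / 32 : ℝ) :=
    Real.one_le_rpow (j3803_A1 z.1) (by norm_num)
  have hpos : ∀ y : BV N, 0 ≤ mt K y.1 := fun y => (j3803_mt_pos K y.1).le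
  have hm : ∀ x : BV N, mt K x.1 = (box N K 100 θ).Pop (fun y => mt K y.1) x
        + ∑ g, (if (box N K 100 θ).hs g = x then ((box N K 100 θ).f g : ℝ) else 0) := fun x =>
    box_harm_total N K 100 θ hθ0.le hθ1 (by norm_num) x
  have hF : ∑ g, (if (box N K 100 θ).hs g = z then ((box N K 100 θ).f g : ℝ) else 0) ≤
      (nq z.1 + 2 ^ 8000) ^ (1 / 32 : ℝ) := by
    have h1 := hm z
    have h2 := j3803_pop (box N K 100 θ) hpos z
    have h3 := j3803_mt_half K z.1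
    linarith
  refine (conflict (box N K 100 θ) (tpB N K) (fun x => mt K x.1) hm
    (GG.lintegral_rho_ne_top (box N K 100 θ) θ hθ0 (contraction (box N K 100 θ) θ hrow))
    (KW N K θ) (visB N K θ) (j3803_vis N K hK θ) z (j3803_mt_pos K z.1)
    (by linarith [j3803_mt_half K z.1]) ((nq z.1 + 2 ^ 8000) ^ (1 / 32 : ℝ)) (by linarith) hpos
    (fun y => by linarith [j3803_mt_half K y.1]) hF hrow0 400 (by norm_num)
    (j3803_green N K θ hθ0 hθ1)).trans ?_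
  apply add_le_add
  · apply mul_le_mul' _ (box_visits N K θ hθ0 hθ1 z)
    exact ENNReal.ofReal_le_ofReal (j3803_pow K z.1)
  · apply ENNReal.ofReal_le_ofReal
    have h1 : (8 : ℝ) * 400 = 3200 := by norm_num
    rw [h1]
    have h2 : ((univ.filter (fun e => (box N K 100 θ).src e = z ∨
        (box N K 100 θ).tgt e = z)).card : ℝ) ≤ 6 := by
      exact_mod_cast box_card N K 100 θ z
    apply mul_le_mul_of_nonneg_right _ (Real.exp_pos _).le
    linarith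

theorem j3803_half : (1 / 1000 + 1 / 1000 : ℝ≥0∞) ≤ 1 / 100 := by
  have h1 : (1 / 1000 : ℝ≥0∞) = ENNReal.ofReal (1 / 1000) := by
    rw [ENNReal.ofReal_div_of_pos (by norm_num)]
    simp
  have h2 : (1 / 100 : ℝ≥0∞) = ENNReal.ofReal (1 / 100) := by
    rw [ENNReal.ofReal_div_of_pos (by norm_num)]
    simp
  rw [h1, h2, ← ENNReal.ofReal_add (by norm_num) (by norm_num)]
  apply ENNReal.ofReal_le_ofReal
  norm_num

theorem j3803_main (N K : ℕ) (θ : ℝ) (hθ0 : 0 < θ) (hθ1 : θ ≤ 1) :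
    ∑ z : BV N, ENNReal.ofReal (1536 * 243 * (nq z.1 + 2 ^ 8000) ^ (-(9 / 8) : ℝ)) *
        (∑ u, nu0 N K 100 θ u * (box N K 100 θ).Gr u z) ≤ 1 / 1000 := by
  have h1 : ∀ z : BV N, ENNReal.ofReal (1536 * 243 * (nq z.1 + 2 ^ 8000) ^ (-(9 / 8) : ℝ)) *
        (∑ u, nu0 N K 100 θ u * (box N K 100 θ).Gr u z) =
      ENNReal.ofReal (1536 * 243) * ∑ u, nu0 N K 100 θ u * ((box N K 100 θ).Gr u z *
        ENNReal.ofReal ((nq z.1 + 2 ^ 8000) ^ (-(9 / 8) : ℝ))) := by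
    intro z
    rw [ENNReal.ofReal_mul (by norm_num), mul_assoc, Finset.mul_sum]
    congr 1
    apply Finset.sum_congr rfl
    intro u _
    ring
  rw [Finset.sum_congr rfl fun z _ => h1 z, ← Finset.mul_sum, Finset.sum_comm]
  have h2 : ∀ u : BV N, ∑ z, nu0 N K 100 θ u * ((box N K 100 θ).Gr u z *
        ENNReal.ofReal ((nq z.1 + 2 ^ 8000) ^ (-(9 / 8) : ℝ))) ≤
      nu0 N K 100 θ u * ENNReal.ofReal (100 * ((2 : ℝ) ^ 8000) ^ (-(1 / 8) : ℝ)) := by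
    intro u
    rw [← Finset.mul_sum]
    apply mul_le_mul' le_rfl
    have h100 : (100 : ℝ) ≤ 2 ^ 8000 := by
      refine le_trans (b := (2 : ℝ) ^ 7) (by norm_num) ?_
      exact pow_le_pow_right₀ (by norm_num) (by norm_num)
    refine (Gr_sum_box_le N K 100 θ hθ0.le hθ1 (2 ^ 8000) h100 u).trans ?_
    apply ENNReal.ofReal_le_ofReal
    apply mul_le_mul_of_nonneg_left _ (by norm_num)
    exact Real.rpow_le_rpow_of_nonpos j3803_c0 (j3803_Ac u.1) (by norm_num)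
  calc ENNReal.ofReal (1536 * 243) * ∑ u, ∑ z, nu0 N K 100 θ u * ((box N K 100 θ).Gr u z *
        ENNReal.ofReal ((nq z.1 + 2 ^ 8000) ^ (-(9 / 8) : ℝ)))
      ≤ ENNReal.ofReal (1536 * 243) * ∑ u, nu0 N K 100 θ u *
        ENNReal.ofReal (100 * ((2 : ℝ) ^ 8000) ^ (-(1 / 8) : ℝ)) := by
        gcongr with u _
        exact h2 u
    _ = ENNReal.ofReal (1536 * 243) * ((∑ u, nu0 N K 100 θ u) *
        ENNReal.ofReal (100 * ((2 : ℝ) ^ 8000) ^ (-(1 / 8) : ℝ))) := by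
        rw [← Finset.sum_mul]
    _ ≤ ENNReal.ofReal (1536 * 243) * (1 *
        ENNReal.ofReal (100 * ((2 : ℝ) ^ 8000) ^ (-(1 / 8) : ℝ))) := by
        gcongr
        exact j3803_nu N K θ hθ0 hθ1
    _ = ENNReal.ofReal (1536 * 243 * 100 * ((2 : ℝ) ^ 8000) ^ (-(1 / 8) : ℝ)) := by
        rw [one_mul, ← ENNReal.ofReal_mul (by norm_num)]
        congr 1
        ring
    _ ≤ ENNReal.ofReal (1 / 1000) := ENNReal.ofReal_le_ofReal j3803_cB
    _ = 1 / 1000 := by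
        rw [ENNReal.ofReal_div_of_pos (by norm_num)]
        simp

open Classical in
/-- the total conflict -/
theorem box_conflict (N K : ℕ) (hK : 1 ≤ K) (θ : ℝ) (hθ0 : 0 < θ) (hθ1 : θ ≤ 1) :
    ∑ z : BV N, ∫⁻ ψ, (∑' env, (box N K 100 θ).sk (tpB N K) ψ env *
          (if ∑' x, KW N K θ env x ≤ 2 then
            ∑' x, (if z ∈ visB N K θ x then KW N K θ env x else 0) else 0))
        * (∑' env, (box N K 100 θ).sk (tpB N K) (fun x => 2 * mt K x.1 - ψ x) env *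
          (if ∑' x, KW N K θ env x ≤ 2 then
            ∑' x, (if z ∈ visB N K θ x then KW N K θ env x else 0) else 0))
        ∂(box N K 100 θ).fieldLaw ≤ 1 / 100 := by
  refine (Finset.sum_le_sum fun z _ => j3803_site N K hK θ hθ0 hθ1 z).trans ?_
  rw [Finset.sum_add_distrib]
  exact (add_le_add (j3803_main N K θ hθ0 hθ1) (tail_sum_le N)).trans j3803_half

end Pool.Agent.Helper41.GF
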