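import Mathlib

set_option autoImplicit false

open scoped ENNReal
open MeasureTheory

namespace Pool.Agent.Helper41.GF

theorem glue_aux_sq (a b : ℝ≥0∞) : 2 * (a * b) ≤ a ^ 2 + b ^ 2 := by
  by_cases ha : a = ⊤
  · subst ha; simp
  by_cases hb : b = ⊤
  · subst hb; simp
  lift a to NNReal using ha
  lift b to NNReal using hb
  norm_cast
  have := two_mul_le_add_sq a b
  rw [mul_assoc] at this
  exact this

theorem glue_aux_half (a b : ℝ≥0∞) (ha : a ≤ 2) (hb : b ≤ 2) :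
    2 * (a + b) ≤ a * b + 2 + (a ^ 2 / 2 + b ^ 2 / 2) := by
  have ha' : a ≠ ⊤ := ne_top_of_le_ne_top (by simp) ha
  have hb' : b ≠ ⊤ := ne_top_of_le_ne_top (by simp) hb
  have h1 : a ^ 2 / 2 = ENNReal.ofReal (a.toReal ^ 2 / 2) := by
    rw [ENNReal.ofReal_div_of_pos (by norm_num), ENNReal.ofReal_pow ENNReal.toReal_nonneg,
      ENNReal.ofReal_toReal ha']
    simp
  have h2 : b ^ 2 / 2 = ENNReal.ofReal (b.toReal ^ 2 / 2) := by
    rw [ENNReal.ofReal_div_of_pos (by norm_num), ENNReal.ofReal_pow ENNReal.toReal_nonneg,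
      ENNReal.ofReal_toReal hb']
    simp
  have h3 : a * b = ENNReal.ofReal (a.toReal * b.toReal) := by
    rw [ENNReal.ofReal_mul ENNReal.toReal_nonneg, ENNReal.ofReal_toReal ha',
      ENNReal.ofReal_toReal hb']
  have h4 : 2 * (a + b) = ENNReal.ofReal (2 * (a.toReal + b.toReal)) := by
    rw [ENNReal.ofReal_mul (by norm_num), ENNReal.ofReal_add ENNReal.toReal_nonneg ENNReal.toReal_nonneg,
      ENNReal.ofReal_toReal ha', ENNReal.ofReal_toReal hb']
    simp
  have h5 : (2 : ℝ≥0∞) = ENNReal.ofReal 2 := by simp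
  have hx := ENNReal.toReal_nonneg (a := a)
  have hy := ENNReal.toReal_nonneg (a := b)
  rw [h4, h1, h2, h3]
  nth_rewrite 1 [h5]
  rw [← ENNReal.ofReal_add (by positivity) (by positivity),
    ← ENNReal.ofReal_add (by positivity) (by positivity),
    ← ENNReal.ofReal_add (by positivity) (by positivity)]
  apply ENNReal.ofReal_le_ofReal
  nlinarith [sq_nonneg (a.toReal + b.toReal - 2)]

theorem glue_aux_trunc (w : ℝ≥0∞) : (if w ≤ 2 then 0 else w) + 4 * w ≤ 2 * w ^ 2 + 2 := by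
  by_cases hw : w = ⊤
  · subst hw
    simp
  lift w to NNReal using hw
  split_ifs with h
  · rw [zero_add]
    norm_cast
    rw [← NNReal.coe_le_coe]
    push_cast
    nlinarith [sq_nonneg ((w : ℝ) - 1)]
  · norm_cast at h ⊢
    rw [← NNReal.coe_le_coe]
    push_cast
    have : (2 : ℝ) < w := by
      push Not at h
      exact_mod_cast h
    nlinarith

theorem glue_aux_arith (a b q c m : ℝ≥0∞) (h1 : 99 / 100 ≤ a + b) (h1' : a + b ≤ 1)
    (h2 : b + 4 * (a + b) ≤ 2 * (101 / 100) + 2) (hq : q ≤ 101 / 100)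
    (hc : 4 * a ≤ c + 2 + q) (hc4 : c ≤ 4) (hm : c ≤ 2 * m + 1 / 100) : 1 / 4 ≤ m := by
  by_cases hmt : m = ⊤
  · subst hmt; simp
  have ha : a ≠ ⊤ := ne_top_of_le_ne_top (by simp) (le_trans le_self_add h1')
  have hb : b ≠ ⊤ := ne_top_of_le_ne_top (by simp) (le_trans le_add_self h1')
  have hct : c ≠ ⊤ := ne_top_of_le_ne_top (by simp) hc4
  have hqt : q ≠ ⊤ := ne_top_of_le_ne_top (by
    apply ENNReal.div_ne_top <;> simp) hq
  have e99 : (99 / 100 : ℝ≥0∞) = ((99 / 100 : NNReal) : ℝ≥0∞) := by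
    rw [ENNReal.coe_div (by norm_num)]; norm_num
  have e101 : (101 / 100 : ℝ≥0∞) = ((101 / 100 : NNReal) : ℝ≥0∞) := by
    rw [ENNReal.coe_div (by norm_num)]; norm_num
  have e1 : (1 / 100 : ℝ≥0∞) = ((1 / 100 : NNReal) : ℝ≥0∞) := by
    rw [ENNReal.coe_div (by norm_num)]; norm_num
  have e4 : (1 / 4 : ℝ≥0∞) = ((1 / 4 : NNReal) : ℝ≥0∞) := by
    rw [ENNReal.coe_div (by norm_num)]; norm_num
  rw [e99] at h1
  rw [e101] at h2 hq
  rw [e1] at hm
  rw [e4]
  lift a to NNReal using ha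
  lift b to NNReal using hb
  lift c to NNReal using hct
  lift q to NNReal using hqt
  lift m to NNReal using hmt
  have k1 : (99 / 100 : NNReal) ≤ a + b := by exact_mod_cast h1
  have k2 : b + 4 * (a + b) ≤ 2 * (101 / 100 : NNReal) + 2 := by exact_mod_cast h2
  have k3 : q ≤ (101 / 100 : NNReal) := by exact_mod_cast hq
  have k4 : 4 * a ≤ c + 2 + q := by exact_mod_cast hc
  have k5 : c ≤ 2 * m + (1 / 100 : NNReal) := by exact_mod_cast hm
  rw [← NNReal.coe_le_coe] at k1 k2 k3 k4 k5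
  push_cast at k1 k2 k3 k4 k5
  have : (1 / 4 : NNReal) ≤ m := by
    rw [← NNReal.coe_le_coe]
    push_cast
    linarith
  exact_mod_cast this

open Classical in
theorem glue {Ψ Env X Z : Type} [MeasurableSpace Ψ] [Countable Env] [Countable X] [Fintype Z]
    (μ : Measure Ψ) [IsProbabilityMeasure μ] (R : Ψ → Ψ) (hR : MeasurePreserving R μ μ)
    (s : Ψ → Env → ℝ≥0∞) (hs : ∀ e, Measurable (fun ψ => s ψ e)) (hs1 : ∀ ψ, ∑' e, s ψ e = 1)
    (K : Env → X → ℝ≥0∞) (vis : X → Set Z)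
    (h1 : 99 / 100 ≤ ∑' e, (∫⁻ ψ, s ψ e ∂μ) * (∑' x, K e x))
    (h1' : ∑' e, (∫⁻ ψ, s ψ e ∂μ) * (∑' x, K e x) ≤ 1)
    (h2 : ∑' e, (∫⁻ ψ, s ψ e ∂μ) * (∑' x, K e x) ^ 2 ≤ 101 / 100)
    (h3 : ∑ z : Z, ∫⁻ ψ,
        (∑' e, s ψ e * (if ∑' x, K e x ≤ 2 then ∑' x, (if z ∈ vis x then K e x else 0) else 0))
        * (∑' e, s (R ψ) e *
            (if ∑' x, K e x ≤ 2 then ∑' x, (if z ∈ vis x then K e x else 0) else 0)) ∂μ
        ≤ 1 / 100) :
    ∃ π : X → X → ℝ≥0∞,
      (∀ x, ∑' y, π x y ≤ ∑' e, (∫⁻ ψ, s ψ e ∂μ) * K e x) ∧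
      (∀ y, ∑' x, π x y ≤ ∑' e, (∫⁻ ψ, s ψ e ∂μ) * K e y) ∧
      (∀ x y, ¬ Disjoint (vis x) (vis y) → π x y = 0) ∧
      1 / 4 ≤ ∑' x, ∑' y, π x y := by
  obtain ⟨W, hW⟩ : ∃ W : Env → ℝ≥0∞, ∀ e, W e = ∑' x, K e x := ⟨_, fun _ => rfl⟩
  simp_rw [← hW] at h1 h1' h2 h3
  obtain ⟨P, hP⟩ : ∃ P : Env → ℝ≥0∞, ∀ e, P e = ∫⁻ ψ, s ψ e ∂μ := ⟨_, fun _ => rfl⟩
  simp_rw [← hP] at h1 h1' h2 ⊢
  obtain ⟨K1, hK1⟩ : ∃ K1 : Env → X → ℝ≥0∞, ∀ e x, K1 e x = if W e ≤ 2 then K e x else 0 :=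
    ⟨_, fun _ _ => rfl⟩
  obtain ⟨W1, hW1⟩ : ∃ W1 : Env → ℝ≥0∞, ∀ e, W1 e = if W e ≤ 2 then W e else 0 :=
    ⟨_, fun _ => rfl⟩
  obtain ⟨W2, hW2⟩ : ∃ W2 : Env → ℝ≥0∞, ∀ e, W2 e = if W e ≤ 2 then 0 else W e :=
    ⟨_, fun _ => rfl⟩
  obtain ⟨k, hk⟩ : ∃ k : Ψ → X → ℝ≥0∞, ∀ ψ x, k ψ x = ∑' e, s ψ e * K1 e x :=
    ⟨_, fun _ _ => rfl⟩
  obtain ⟨g, hg0⟩ : ∃ g : Ψ → ℝ≥0∞, ∀ ψ, g ψ = ∑' x, k ψ x := ⟨_, fun _ => rfl⟩
  have hK1s : ∀ e, ∑' x, K1 e x = W1 e := by
    intro e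
    simp_rw [hK1, hW1]
    split_ifs with h
    · exact (hW e).symm
    · simp
  have hW12 : ∀ e, W e = W1 e + W2 e := by
    intro e
    rw [hW1, hW2]
    split_ifs <;> simp
  have hW1le : ∀ e, W1 e ≤ W e := by
    intro e
    rw [hW12 e]
    exact le_self_add
  have hW1le2 : ∀ e, W1 e ≤ 2 := by
    intro e
    rw [hW1]
    split_ifs with h
    · exact h
    · simp
  have hK1le : ∀ e x, K1 e x ≤ K e x := by
    intro e x
    rw [hK1]
    split_ifs with h
    · exact le_refl _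
    · simp
  have hg : ∀ ψ, g ψ = ∑' e, s ψ e * W1 e := by
    intro ψ
    rw [hg0]
    simp_rw [hk]
    rw [ENNReal.tsum_comm]
    simp_rw [ENNReal.tsum_mul_left, hK1s]
  have hg2 : ∀ ψ, g ψ ≤ 2 := by
    intro ψ
    rw [hg]
    calc ∑' e, s ψ e * W1 e ≤ ∑' e, s ψ e * 2 :=
          ENNReal.tsum_le_tsum (fun e => mul_le_mul_right (hW1le2 e) _)
      _ = 2 := by rw [ENNReal.tsum_mul_right, hs1, one_mul]
  have hkm : ∀ x, Measurable (fun ψ => k ψ x) := by
    intro x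
    simp_rw [hk]
    exact Measurable.tsum (fun e => (hs e).mul_const _)
  have hgm : Measurable g := by
    have : g = fun ψ => ∑' x, k ψ x := funext hg0
    rw [this]
    exact Measurable.tsum (fun x => hkm x)
  have hRm := hR.measurable
  have hkint : ∀ x, ∫⁻ ψ, k ψ x ∂μ ≤ ∑' e, P e * K e x := by
    intro x
    simp_rw [hk]
    rw [lintegral_tsum (fun e => ((hs e).mul_const _).aemeasurable)]
    apply ENNReal.tsum_le_tsum
    intro e
    rw [lintegral_mul_const _ (hs e), ← hP]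
    exact mul_le_mul_right (hK1le e x) _
  have hPs : ∑' e, P e = 1 := by
    simp_rw [hP]
    rw [← lintegral_tsum (fun e => (hs e).aemeasurable)]
    simp_rw [hs1]
    simp
  have hgint : ∫⁻ ψ, g ψ ∂μ = ∑' e, P e * W1 e := by
    simp_rw [hg]
    rw [lintegral_tsum (fun e => ((hs e).mul_const _).aemeasurable)]
    congr 1
    ext e
    rw [lintegral_mul_const _ (hs e), ← hP]
  have hgsq : ∀ ψ, g ψ ^ 2 ≤ ∑' e, s ψ e * (W1 e) ^ 2 := by
    intro ψ
    have hA : ∑' e, s ψ e * (2 * (g ψ * W1 e)) ≤ ∑' e, s ψ e * (g ψ ^ 2 + W1 e ^ 2) :=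
      ENNReal.tsum_le_tsum (fun e => mul_le_mul_right (glue_aux_sq _ _) _)
    have hB : ∑' e, s ψ e * (2 * (g ψ * W1 e)) = g ψ ^ 2 + g ψ ^ 2 := by
      have : ∀ e, s ψ e * (2 * (g ψ * W1 e)) = 2 * g ψ * (s ψ e * W1 e) := by
        intro e; ring
      simp_rw [this]
      rw [ENNReal.tsum_mul_left, ← hg]
      ring
    have hC : ∑' e, s ψ e * (g ψ ^ 2 + W1 e ^ 2) = g ψ ^ 2 + ∑' e, s ψ e * W1 e ^ 2 := by
      simp_rw [mul_add]
      rw [ENNReal.tsum_add, ENNReal.tsum_mul_right, hs1, one_mul]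
    rw [hB, hC] at hA
    have hfin : g ψ ^ 2 ≠ ⊤ := by
      apply ENNReal.pow_ne_top
      exact ne_top_of_le_ne_top (by simp) (hg2 ψ)
    exact (ENNReal.add_le_add_iff_left hfin).mp hA
  have hgsqint : ∫⁻ ψ, g ψ ^ 2 ∂μ ≤ 101 / 100 := by
    calc ∫⁻ ψ, g ψ ^ 2 ∂μ ≤ ∫⁻ ψ, ∑' e, s ψ e * (W1 e) ^ 2 ∂μ := lintegral_mono hgsq
      _ = ∑' e, P e * W1 e ^ 2 := by
        rw [lintegral_tsum (fun e => ((hs e).mul_const _).aemeasurable)]
        congr 1
        ext e
        rw [lintegral_mul_const _ (hs e), ← hP]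
      _ ≤ ∑' e, P e * W e ^ 2 := by
        apply ENNReal.tsum_le_tsum
        intro e
        gcongr
        exact hW1le e
      _ ≤ 101 / 100 := h2
  refine ⟨fun x y => if Disjoint (vis x) (vis y) then (1 / 2) * ∫⁻ ψ, k ψ x * k (R ψ) y ∂μ else 0,
    ?_, ?_, ?_, ?_⟩
  · intro x
    calc ∑' y, (if Disjoint (vis x) (vis y) then (1 / 2) * ∫⁻ ψ, k ψ x * k (R ψ) y ∂μ else 0)
        ≤ ∑' y, (1 / 2) * ∫⁻ ψ, k ψ x * k (R ψ) y ∂μ := by
          apply ENNReal.tsum_le_tsum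
          intro y
          split_ifs
          · exact le_refl _
          · simp
      _ = (1 / 2) * ∫⁻ ψ, k ψ x * g (R ψ) ∂μ := by
          rw [ENNReal.tsum_mul_left, ← lintegral_tsum]
          · congr 2
            ext ψ
            rw [ENNReal.tsum_mul_left, hg0]
          · intro y
            exact ((hkm x).mul ((hkm y).comp hRm)).aemeasurable
      _ ≤ (1 / 2) * ∫⁻ ψ, k ψ x * 2 ∂μ := by
          gcongr
          exact hg2 _
      _ = ∫⁻ ψ, k ψ x ∂μ := by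
          rw [lintegral_mul_const _ (hkm x), mul_comm (∫⁻ ψ, k ψ x ∂μ), ← mul_assoc]
          rw [one_div, ENNReal.inv_mul_cancel (by simp) (by simp), one_mul]
      _ ≤ _ := hkint x
  · intro y
    calc ∑' x, (if Disjoint (vis x) (vis y) then (1 / 2) * ∫⁻ ψ, k ψ x * k (R ψ) y ∂μ else 0)
        ≤ ∑' x, (1 / 2) * ∫⁻ ψ, k ψ x * k (R ψ) y ∂μ := by
          apply ENNReal.tsum_le_tsum
          intro x
          split_ifs
          · exact le_refl _
          · simp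
      _ = (1 / 2) * ∫⁻ ψ, g ψ * k (R ψ) y ∂μ := by
          rw [ENNReal.tsum_mul_left, ← lintegral_tsum]
          · congr 2
            ext ψ
            rw [ENNReal.tsum_mul_right, hg0]
          · intro x
            exact ((hkm x).mul ((hkm y).comp hRm)).aemeasurable
      _ ≤ (1 / 2) * ∫⁻ ψ, 2 * k (R ψ) y ∂μ := by
          gcongr
          exact hg2 _
      _ = ∫⁻ ψ, k (R ψ) y ∂μ := by
          rw [lintegral_const_mul (f := fun ψ => k (R ψ) y) _ ((hkm y).comp hRm), ← mul_assoc]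
          rw [one_div, ENNReal.inv_mul_cancel (by simp) (by simp), one_mul]
      _ = ∫⁻ ψ, k ψ y ∂μ := hR.lintegral_comp (hkm y)
      _ ≤ _ := hkint y
  · intro x y h
    simp [h]
  · -- mass
    obtain ⟨V, hV⟩ : ∃ V : Ψ → Z → ℝ≥0∞, ∀ ψ z, V ψ z = ∑' x, (if z ∈ vis x then k ψ x else 0) :=
      ⟨_, fun _ _ => rfl⟩
    have hVe : ∀ ψ z, V ψ z = ∑' e, s ψ e *
        (if W e ≤ 2 then ∑' x, (if z ∈ vis x then K e x else 0) else 0) := by
      intro ψ z
      rw [hV]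
      have e1 : ∀ x, (if z ∈ vis x then k ψ x else 0)
          = ∑' e, s ψ e * (if z ∈ vis x then K1 e x else 0) := by
        intro x
        split_ifs
        · exact hk ψ x
        · simp
      simp_rw [e1]
      rw [ENNReal.tsum_comm]
      congr 1
      ext e
      rw [ENNReal.tsum_mul_left]
      congr 1
      simp_rw [hK1]
      split_ifs with h
      · rfl
      · simp
    simp_rw [← hVe] at h3
    have hVm : ∀ z, Measurable (fun ψ => V ψ z) := by
      intro z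
      simp_rw [hVe]
      exact Measurable.tsum (fun e => (hs e).mul_const _)
    have hpt : ∀ ψ, g ψ * g (R ψ) ≤ (∑' x, ∑' y, (if Disjoint (vis x) (vis y) then
        k ψ x * k (R ψ) y else 0)) + ∑ z : Z, V ψ z * V (R ψ) z := by
      intro ψ
      have e1 : g ψ * g (R ψ) = ∑' x, ∑' y, k ψ x * k (R ψ) y := by
        simp_rw [ENNReal.tsum_mul_left, ENNReal.tsum_mul_right]
        rw [← hg0, ← hg0]
      have e2 : ∑ z : Z, V ψ z * V (R ψ) z = ∑' x, ∑' y, ∑ z : Z,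
          (if z ∈ vis x then k ψ x else 0) * (if z ∈ vis y then k (R ψ) y else 0) := by
        have e3 : ∀ z, V ψ z * V (R ψ) z = ∑' x, ∑' y,
          (if z ∈ vis x then k ψ x else 0) * (if z ∈ vis y then k (R ψ) y else 0) := by
          intro z
          simp_rw [ENNReal.tsum_mul_left, ENNReal.tsum_mul_right]
          rw [← hV, ← hV]
        simp_rw [e3]
        rw [← Summable.tsum_finsetSum (fun i _ => ENNReal.summable)]
        congr 1
        ext x
        rw [Summable.tsum_finsetSum (fun i _ => ENNReal.summable)]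
      rw [e1, e2, ← ENNReal.tsum_add]
      apply ENNReal.tsum_le_tsum
      intro x
      rw [← ENNReal.tsum_add]
      apply ENNReal.tsum_le_tsum
      intro y
      by_cases hd : Disjoint (vis x) (vis y)
      · simp [hd]
      · rw [if_neg hd, zero_add]
        obtain ⟨z, hz1, hz2⟩ := Set.not_disjoint_iff.mp hd
        calc k ψ x * k (R ψ) y = (if z ∈ vis x then k ψ x else 0) *
              (if z ∈ vis y then k (R ψ) y else 0) := by simp [hz1, hz2]
          _ ≤ _ := Finset.single_le_sum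
              (f := fun z => (if z ∈ vis x then k ψ x else 0) *
              (if z ∈ vis y then k (R ψ) y else 0)) (fun _ _ => zero_le) (Finset.mem_univ z)
    have hm1 : ∀ x y, Measurable (fun ψ => k ψ x * k (R ψ) y) := fun x y =>
      (hkm x).mul ((hkm y).comp hRm)
    have hm2 : ∀ x y, Measurable (fun ψ => if Disjoint (vis x) (vis y) then
        k ψ x * k (R ψ) y else 0) := by
      intro x y
      by_cases h : Disjoint (vis x) (vis y)
      · simp only [h, if_true]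
        exact hm1 x y
      · simp only [h, if_false]
        exact measurable_const
    have hint : ∫⁻ ψ, g ψ * g (R ψ) ∂μ ≤ 2 * (∑' x, ∑' y, (if Disjoint (vis x) (vis y) then
        (1 / 2) * ∫⁻ ψ, k ψ x * k (R ψ) y ∂μ else 0)) + 1 / 100 := by
      calc ∫⁻ ψ, g ψ * g (R ψ) ∂μ ≤ ∫⁻ ψ, ((∑' x, ∑' y, (if Disjoint (vis x) (vis y) then
        k ψ x * k (R ψ) y else 0)) + ∑ z : Z, V ψ z * V (R ψ) z) ∂μ := lintegral_mono hpt
        _ = ∫⁻ ψ, (∑' x, ∑' y, (if Disjoint (vis x) (vis y) then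
        k ψ x * k (R ψ) y else 0)) ∂μ + ∫⁻ ψ, ∑ z : Z, V ψ z * V (R ψ) z ∂μ := by
          apply lintegral_add_left
          exact Measurable.tsum (fun x => Measurable.tsum (fun y => hm2 x y))
        _ ≤ _ := by
          apply add_le_add
          · apply le_of_eq
            rw [lintegral_tsum (fun x => (Measurable.tsum (fun y => hm2 x y)).aemeasurable),
              ← ENNReal.tsum_mul_left]
            congr 1
            ext x
            rw [lintegral_tsum (fun y => (hm2 x y).aemeasurable), ← ENNReal.tsum_mul_left]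
            congr 1
            ext y
            by_cases h : Disjoint (vis x) (vis y)
            · simp only [h, if_true]
              rw [← mul_assoc, one_div, ENNReal.mul_inv_cancel (by simp) (by simp), one_mul]
            · simp [h]
          · rw [lintegral_finsetSum]
            · exact h3
            · intro z _
              exact (hVm z).mul ((hVm z).comp hRm)
    have hlow : 4 * ∫⁻ ψ, g ψ ∂μ ≤ ∫⁻ ψ, g ψ * g (R ψ) ∂μ + 2 + ∫⁻ ψ, g ψ ^ 2 ∂μ := by
      have hgR : Measurable (fun ψ => g (R ψ)) := hgm.comp hRm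
      have e1 : ∫⁻ ψ, 2 * (g ψ + g (R ψ)) ∂μ = 4 * ∫⁻ ψ, g ψ ∂μ := by
        rw [lintegral_const_mul (f := fun ψ => g ψ + g (R ψ)) _ (hgm.add hgR),
          lintegral_add_left hgm, hR.lintegral_comp hgm]
        ring
      have e2 : ∫⁻ ψ, (g ψ * g (R ψ) + 2 + (g ψ ^ 2 / 2 + g (R ψ) ^ 2 / 2)) ∂μ
          = ∫⁻ ψ, g ψ * g (R ψ) ∂μ + 2 + ∫⁻ ψ, g ψ ^ 2 ∂μ := by
        have f1 : Measurable (fun ψ => g ψ * g (R ψ)) := hgm.mul hgR
        have f2 : Measurable (fun ψ => g ψ ^ 2 / 2) := (hgm.pow_const 2).div_const 2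
        have f3 : Measurable (fun ψ => g ψ * g (R ψ) + 2) := f1.add_const 2
        rw [lintegral_add_left f3, lintegral_add_left f1, lintegral_add_left f2]
        have e3 : ∫⁻ ψ, g (R ψ) ^ 2 / 2 ∂μ = ∫⁻ ψ, g ψ ^ 2 / 2 ∂μ :=
          hR.lintegral_comp (f := fun ψ => g ψ ^ 2 / 2) f2
        rw [e3]
        simp only [lintegral_const, measure_univ, mul_one]
        congr 1
        rw [← lintegral_add_left f2]
        congr 1
        ext ψ
        exact ENNReal.add_halves _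
      rw [← e1, ← e2]
      exact lintegral_mono (fun ψ => glue_aux_half _ _ (hg2 _) (hg2 _))
    have hW12s : ∑' e, P e * W e = ∑' e, P e * W1 e + ∑' e, P e * W2 e := by
      rw [← ENNReal.tsum_add]
      congr 1
      ext e
      rw [hW12, mul_add]
    have htr : ∑' e, P e * W2 e + 4 * ∑' e, P e * W e ≤ 2 * (∑' e, P e * W e ^ 2) + 2 := by
      calc ∑' e, P e * W2 e + 4 * ∑' e, P e * W e = ∑' e, P e * (W2 e + 4 * W e) := by
            rw [← ENNReal.tsum_mul_left, ← ENNReal.tsum_add]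
            congr 1
            ext e
            ring
        _ ≤ ∑' e, P e * (2 * W e ^ 2 + 2) := by
            apply ENNReal.tsum_le_tsum
            intro e
            rw [hW2]
            exact mul_le_mul_right (glue_aux_trunc _) _
        _ = 2 * (∑' e, P e * W e ^ 2) + 2 := by
            simp_rw [mul_add]
            rw [ENNReal.tsum_add, ENNReal.tsum_mul_right, hPs, one_mul, ← ENNReal.tsum_mul_left]
            congr 2
            ext e
            ring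
    refine glue_aux_arith (∑' e, P e * W1 e) (∑' e, P e * W2 e) (∫⁻ ψ, g ψ ^ 2 ∂μ)
      (∫⁻ ψ, g ψ * g (R ψ) ∂μ) _ ?_ ?_ ?_ hgsqint ?_ ?_ hint
    · rw [← hW12s]; exact h1
    · rw [← hW12s]; exact h1'
    · rw [← hW12s]
      refine htr.trans ?_
      gcongr
    · rw [← hgint]; exact hlow
    · calc ∫⁻ ψ, g ψ * g (R ψ) ∂μ ≤ ∫⁻ ψ, 2 * 2 ∂μ :=
            lintegral_mono (fun ψ => mul_le_mul' (hg2 _) (hg2 _))
        _ = 4 := by
          simp only [lintegral_const, measure_univ, mul_one]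
          norm_num

end Pool.Agent.Helper41.GF
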