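import Pool.Agent.Helper41.GF.AsmB
import Pool.Agent.Helper41.GF.Glue

/-!
# The coupling in the box
-/

set_option autoImplicit false

open scoped ENNReal Nat
open Finset MeasureTheory

namespace Pool.Agent.Helper41.GF

open Classical in
/-- coupling of the marked walks in the box -/
theorem box_coupling (K : ℕ) (hK : 1 ≤ K) : ∃ (N : ℕ) (θ : ℝ), 0 < θ ∧ θ ≤ 1 ∧
    ∃ π : XB N → XB N → ℝ≥0∞, (∀ x, ∑' y, π x y ≤ LB N K θ x) ∧ (∀ y, ∑' x, π x y ≤ LB N K θ y) ∧
      (∀ x y, ¬ Disjoint (visB N K θ x) (visB N K θ y) → π x y = 0) ∧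
      1 / 4 ≤ ∑' x, ∑' y, π x y := by
  obtain ⟨N, θ0, hθ0, hN⟩ := law_mass_ge K 100 (by norm_num)
  set θ := min θ0 1 with hθ
  have hθp : 0 < θ := lt_min hθ0 one_pos
  have hθ1 : θ ≤ 1 := min_le_right _ _
  have hmass := hN N le_rfl θ hθp.le (min_le_left _ _) hθ1
  refine ⟨N, θ, hθp, hθ1, ?_⟩
  have hZ := box_hZ N K 100 θ hθp hθ1
  haveI : IsProbabilityMeasure (box N K 100 θ).fieldLaw := fieldLaw_prob _ hZ
  have hR := fieldLaw_reflect (box N K 100 θ) (fun x => mt K x.1)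
    (fun x => box_harm_total N K 100 θ hθp.le hθ1 (by norm_num) x)
  have h := glue (box N K 100 θ).fieldLaw (fun ψ x => 2 * mt K x.1 - ψ x) hR
    (fun ψ env => (box N K 100 θ).sk (tpB N K) ψ env)
    (fun env => measurable_sk _ _ env) (fun ψ => sk_sum _ _ ψ)
    (KW N K θ) (visB N K θ) ?_ ?_ (ex_second N K θ hθp hθ1) (box_conflict N K hK θ hθp hθ1)
  · obtain ⟨π, h1, h2, h3, h4⟩ := h
    refine ⟨π, fun x => ?_, fun y => ?_, h3, h4⟩
    · rw [← ex_KW N K θ hθp hθ1 x]; exact h1 x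
    · rw [← ex_KW N K θ hθp hθ1 y]; exact h2 y
  · rw [ex_total N K θ hθp hθ1]
    refine le_trans ?_ hmass
    have : (99 / 100 : ℝ≥0∞) = ENNReal.ofReal (99 / 100) := by
      rw [ENNReal.ofReal_div_of_pos (by norm_num)]
      norm_num
    rw [this, ← ENNReal.ofReal_one, ← ENNReal.ofReal_sub _ (by positivity)]
    apply ENNReal.ofReal_le_ofReal
    norm_num
  · rw [ex_total N K θ hθp hθ1]
    calc ∑ u, nu0 N K 100 θ u * (box N K 100 θ).law (vk 100) (bk N K 100) K 0 u (fun _ => 1)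
        ≤ ∑ u, nu0 N K 100 θ u * 1 := by
          refine Finset.sum_le_sum fun u _ => ?_
          gcongr
          exact law_one_le _ (row_zero N K 100 θ hθp.le hθ1) _ (vk_ne_zero 100) (vk_le_one 100) _
            (bk_le_one N K 100) _ _ _
      _ ≤ 1 := by simpa using nu0_sum_le N K θ hθp.le hθ1

end Pool.Agent.Helper41.GF
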