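import Pool.Agent.Helper41.GF.ParDefs
import Pool.Agent.Helper41.GF.KerDefs

/-!
# Objects used in the assembly of the box coupling
-/

set_option autoImplicit false

open scoped ENNReal Nat
open Finset MeasureTheory

namespace Pool.Agent.Helper41.GF

/-- marked walks in the box: a starting vertex and a list of darts -/
abbrev XB (N : ℕ) : Type := BV N × List (BE N × Bool)

/-- layer of a ghost path -/
def tpB (N K : ℕ) (p : BH N K × List (BE N × Bool) × BH N K) : Option (Fin K) :=
  if h : (p.1.2 : ℕ) < K ∧ (p.2.2.2 : ℕ) = p.1.2 + 1 then some ⟨p.1.2, h.1⟩ else none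

/-- profile weights -/
noncomputable def mm (N K : ℕ) (k : ℕ) (x : BV N) : ℝ≥0∞ := ENNReal.ofReal (mk (100 + min k K) x.1)

/-- step weights -/
noncomputable def al (N K : ℕ) (k : ℕ) (u w : BV N) : ℝ≥0∞ :=
  2 * bk N K 100 (k + 1) w / (mm N K k u * mm N K (k + 1) w)

open Classical in
/-- weight of the marked walk `x` in the environment -/
noncomputable def KW (N K : ℕ) (θ : ℝ) (env : Env (BE N) (BH N K) (Option (Fin K))) (x : XB N) :
    ℝ≥0∞ :=
  nu0 N K 100 θ x.1 * (box N K 100 θ).chain (vk 100) (al N K) K (fun i => env.1 (some i)) 0 x.1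
    (fun ξ => if ξ = x.2 then 1 else 0)

/-- sites of a marked walk -/
def visB (N K : ℕ) (θ : ℝ) (x : XB N) : Set (BV N) :=
  {z | ∃ i, (box N K 100 θ).fin x.1 (x.2.take i) = z}

/-- total profile -/
noncomputable def mt (K : ℕ) (x : Z3) : ℝ := ∑ j : Fin (K + 1), mk (100 + j) x

open Classical in
/-- law of the marked walk -/
noncomputable def LB (N K : ℕ) (θ : ℝ) (x : XB N) : ℝ≥0∞ :=
  nu0 N K 100 θ x.1 * (box N K 100 θ).law (vk 100) (bk N K 100) K 0 x.1
    (fun ξ => if ξ = x.2 then 1 else 0)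

/-- step of a dart -/
def stpB (N : ℕ) (d : BE N × Bool) : Stp := (d.1.1.2, d.2)

/-- the finite walks `s` from `a` and `t` from `b` meet -/
def BadC (a b : Z3) (n : ℕ) (s t : Fin n → Stp) : Prop :=
  ∃ i j : ℕ, i ≤ n ∧ j ≤ n ∧ a + (∑ k : Fin n, if (k : ℕ) < i then vec (s k) else 0)
    = b + (∑ k : Fin n, if (k : ℕ) < j then vec (t k) else 0)

end Pool.Agent.Helper41.GF
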