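import Pool.Agent.Helper41.GF.LyapA

/-!
# Definitions: finite weighted graphs with ghost edges, currents, signs, ghost paths
-/

set_option autoImplicit false

open scoped ENNReal Nat
open Finset MeasureTheory

namespace Pool.Agent.Helper41.GF


/-! ## TARGETS -/

lemma Av_mono {g g' : Z3 → ℝ} (h : ∀ z, g z ≤ g' z) (x : Z3) : Av g x ≤ Av g' x := by
  unfold Av
  apply mul_le_mul_of_nonneg_left _ (by norm_num)
  apply Finset.sum_le_sum
  intro i _
  exact add_le_add (h _) (h _)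

lemma Av_add_smul (g g' : Z3 → ℝ) (c : ℝ) (x : Z3) :
    Av (fun z => g z + c * g' z) x = Av g x + c * Av g' x := by
  unfold Av
  simp only [Fin.sum_univ_three]
  ring

lemma Av_shift (g : Z3 → ℝ) (y x : Z3) : Av (fun z => g (z - y)) x = Av g (x - y) := by
  unfold Av
  congr 1
  apply Finset.sum_congr rfl
  intro i _
  show g (x + Pi.single i 1 - y) + g (x - Pi.single i 1 - y) = _
  rw [show x + Pi.single i 1 - y = x - y + Pi.single i 1 by abel,
    show x - Pi.single i 1 - y = x - y - Pi.single i 1 by abel]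

lemma Av_sq (g : Z3 → ℝ) (x : Z3) : (Av g x) ^ 2 ≤ Av (fun z => (g z) ^ 2) x := by
  unfold Av
  simp only [Fin.sum_univ_three]
  generalize g (x + Pi.single 0 1) = a0
  generalize g (x - Pi.single 0 1) = b0
  generalize g (x + Pi.single 1 1) = a1
  generalize g (x - Pi.single 1 1) = b1
  generalize g (x + Pi.single 2 1) = a2
  generalize g (x - Pi.single 2 1) = b2
  nlinarith [sq_nonneg (a0 - b0), sq_nonneg (a0 - a1), sq_nonneg (a0 - b1), sq_nonneg (a0 - a2),
    sq_nonneg (a0 - b2), sq_nonneg (b0 - a1), sq_nonneg (b0 - b1), sq_nonneg (b0 - a2),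
    sq_nonneg (b0 - b2), sq_nonneg (a1 - b1), sq_nonneg (a1 - a2), sq_nonneg (a1 - b2),
    sq_nonneg (b1 - a2), sq_nonneg (b1 - b2), sq_nonneg (a2 - b2)]

lemma it_mono (n : ℕ) {g g' : Z3 → ℝ} (h : ∀ z, g z ≤ g' z) : ∀ x, Av^[n] g x ≤ Av^[n] g' x := by
  induction n with
  | zero => exact h
  | succ n ih =>
    intro x
    rw [Function.iterate_succ_apply', Function.iterate_succ_apply']
    exact Av_mono ih x

lemma it_add_smul (n : ℕ) (g g' : Z3 → ℝ) (c : ℝ) :
    ∀ x, Av^[n] (fun z => g z + c * g' z) x = Av^[n] g x + c * Av^[n] g' x := by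
  induction n with
  | zero => intro x; rfl
  | succ n ih =>
    intro x
    rw [Function.iterate_succ_apply', Function.iterate_succ_apply', Function.iterate_succ_apply']
    rw [← Av_add_smul]
    congr 1
    funext z
    exact ih z

lemma it_sq (n : ℕ) (g : Z3 → ℝ) : ∀ x, (Av^[n] g x) ^ 2 ≤ Av^[n] (fun z => (g z) ^ 2) x := by
  induction n with
  | zero => intro x; exact le_rfl
  | succ n ih =>
    intro x
    rw [Function.iterate_succ_apply', Function.iterate_succ_apply']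
    exact le_trans (Av_sq _ x) (Av_mono ih x)

lemma it_nq (n : ℕ) (y : Z3) : ∀ x, Av^[n] (fun z => nq (z - y) + 100) x = nq (x - y) + 100 + n := by
  induction n with
  | zero => intro x; simp
  | succ n ih =>
    intro x
    rw [Function.iterate_succ_apply']
    have : Av^[n] (fun z => nq (z - y) + 100) = fun z => nq (z - y) + (100 + n) := by
      funext z; rw [ih z]; ring
    rw [this, Av_nq]
    push_cast; ring

lemma nq_nonneg (x : Z3) : 0 ≤ nq x := Finset.sum_nonneg (fun i _ => sq_nonneg _)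

/-- decay of the iterates of the Green profile -/
theorem Av_iterate_le (n : ℕ) (y x : Z3) :
    Av^[n] (fun z => 1 / Real.sqrt (nq (z - y) + 100)) x ≤ 5 / Real.sqrt ((n : ℝ) + 1) := by
  obtain ⟨f, hf⟩ : ∃ f : Z3 → ℝ, f = fun z => 1 / Real.sqrt (nq (z - y) + 100) := ⟨_, rfl⟩
  obtain ⟨h, hh⟩ : ∃ h : Z3 → ℝ, h = fun z => Real.sqrt (nq (z - y) + 100) := ⟨_, rfl⟩
  rw [← hf]
  have hf1 : ∀ z, Av f z ≤ f z := by
    intro z
    have := Av_inv_sqrt_le 100 le_rfl (z - y)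
    rw [hf, Av_shift (fun z => 1 / Real.sqrt (nq z + 100))]
    exact this
  have hh1 : ∀ z, h z + (1 / 5) * f z ≤ Av h z := by
    intro z
    have := le_Av_sqrt (z - y)
    rw [hf, hh, Av_shift (fun z => Real.sqrt (nq z + 100))]
    exact this
  have hstep : ∀ s, Av^[s] h x + (1 / 5) * Av^[s] f x ≤ Av^[s + 1] h x := by
    intro s
    rw [Function.iterate_succ_apply, ← it_add_smul]
    exact it_mono s hh1 x
  have hdec : ∀ s, Av^[s + 1] f x ≤ Av^[s] f x := by
    intro s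
    rw [Function.iterate_succ_apply]
    exact it_mono s hf1 x
  have hanti : Antitone (fun s => Av^[s] f x) := antitone_nat_of_succ_le hdec
  have hsum : ∀ N, ∑ s ∈ Finset.range N, Av^[s] f x ≤ 5 * (Av^[N] h x - h x) := by
    intro N
    induction N with
    | zero => simp
    | succ N ih =>
      rw [Finset.sum_range_succ]
      have := hstep N
      linarith
  have hH : Av^[n + 1] h x ≤ h x + Real.sqrt ((n : ℝ) + 1) := by
    have h1 := it_sq (n + 1) h x
    have h2 : (fun z => (h z) ^ 2) = fun z => nq (z - y) + 100 := by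
      funext z
      rw [hh]
      exact Real.sq_sqrt (by have := nq_nonneg (z - y); linarith)
    rw [h2, it_nq] at h1
    have h3 : (h x) ^ 2 = nq (x - y) + 100 := congrFun h2 x
    have h4 : 0 ≤ h x := by rw [hh]; exact Real.sqrt_nonneg _
    have h5 : 0 ≤ Real.sqrt ((n : ℝ) + 1) := Real.sqrt_nonneg _
    have h6 : (Real.sqrt ((n : ℝ) + 1)) ^ 2 = (n : ℝ) + 1 := Real.sq_sqrt (by positivity)
    apply le_of_sq_le_sq _ (by positivity)
    push_cast at h1
    nlinarith [mul_nonneg h4 h5]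
  have hmain : ((n : ℝ) + 1) * Av^[n] f x ≤ 5 * Real.sqrt ((n : ℝ) + 1) := by
    have h1 : ((n : ℝ) + 1) * Av^[n] f x ≤ ∑ s ∈ Finset.range (n + 1), Av^[s] f x := by
      have h2 : ∑ s ∈ Finset.range (n + 1), Av^[n] f x ≤ ∑ s ∈ Finset.range (n + 1), Av^[s] f x := by
        apply Finset.sum_le_sum
        intro s hs
        rw [Finset.mem_range] at hs
        exact hanti (by omega)
      rw [Finset.sum_const, Finset.card_range, nsmul_eq_mul] at h2
      push_cast at h2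
      exact h2
    have h2 := hsum (n + 1)
    linarith
  have hs0 : 0 < Real.sqrt ((n : ℝ) + 1) := Real.sqrt_pos.2 (by positivity)
  rw [le_div_iff₀ hs0]
  have h6 : Real.sqrt ((n : ℝ) + 1) * Real.sqrt ((n : ℝ) + 1) = (n : ℝ) + 1 :=
    Real.mul_self_sqrt (by positivity)
  have h7 : Real.sqrt ((n : ℝ) + 1) * (Av^[n] f x * Real.sqrt ((n : ℝ) + 1)) ≤
      Real.sqrt ((n : ℝ) + 1) * 5 := by
    have h8 : Real.sqrt ((n : ℝ) + 1) * (Av^[n] f x * Real.sqrt ((n : ℝ) + 1)) =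
        (Real.sqrt ((n : ℝ) + 1) * Real.sqrt ((n : ℝ) + 1)) * Av^[n] f x := by ring
    rw [h8, h6]; linarith
  exact le_of_mul_le_mul_left h7 hs0

lemma v_facts (M : ℕ) (hM : 1 ≤ M) : (0 : ℝ) < 1 / (M : ℝ) ^ 2 ∧ 1 / (M : ℝ) ^ 2 ≤ 1 := by
  have h1 : (1 : ℝ) ≤ (M : ℝ) := by exact_mod_cast hM
  have h2 : (1 : ℝ) ≤ (M : ℝ) ^ 2 := one_le_pow₀ h1
  refine ⟨by positivity, ?_⟩
  rw [div_le_one (by positivity)]; exact h2

/-- total mass of the geometric law -/
theorem geom_one' (M : ℕ) (hM : 1 ≤ M) :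
    ∑' n : ℕ, ENNReal.ofReal (1 / (M : ℝ) ^ 2) * (1 - ENNReal.ofReal (1 / (M : ℝ) ^ 2)) ^ n
      = 1 := by
  obtain ⟨h1, h2⟩ := v_facts M hM
  rw [ENNReal.tsum_mul_left, ENNReal.tsum_geometric]
  have h3 : ENNReal.ofReal (1 / (M : ℝ) ^ 2) ≤ 1 := by
    rw [← ENNReal.ofReal_one]; exact ENNReal.ofReal_le_ofReal h2
  rw [ENNReal.sub_sub_cancel ENNReal.one_ne_top h3]
  exact ENNReal.mul_inv_cancel (by rw [Ne, ENNReal.ofReal_eq_zero, not_le]; exact h1) ENNReal.ofReal_ne_top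

lemma sum_inv_sqrt (m : ℕ) : ∑ n ∈ Finset.range m, 1 / Real.sqrt ((n : ℝ) + 1) ≤ 2 * Real.sqrt m := by
  induction m with
  | zero => simp
  | succ m ih =>
    rw [Finset.sum_range_succ]
    have h0 : 0 < Real.sqrt ((m : ℝ) + 1) := Real.sqrt_pos.2 (by positivity)
    have h1 : Real.sqrt ((m : ℝ) + 1) * Real.sqrt ((m : ℝ) + 1) = (m : ℝ) + 1 :=
      Real.mul_self_sqrt (by positivity)
    have h2 : Real.sqrt (m : ℝ) * Real.sqrt (m : ℝ) = (m : ℝ) := Real.mul_self_sqrt (by positivity)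
    have h3 : 0 ≤ Real.sqrt (m : ℝ) := Real.sqrt_nonneg _
    have h4 : 1 / Real.sqrt ((m : ℝ) + 1) ≤ 2 * Real.sqrt ((m : ℝ) + 1) - 2 * Real.sqrt (m : ℝ) := by
      rw [div_le_iff₀ h0]
      nlinarith [sq_nonneg (Real.sqrt ((m : ℝ) + 1) - Real.sqrt (m : ℝ))]
    push_cast
    linarith

/-- geometric average of `1 / sqrt (n+1)` -/
theorem geom_sqrt (M : ℕ) (hM : 1 ≤ M) :
    ∑' n : ℕ, ENNReal.ofReal (1 / (M : ℝ) ^ 2) * (1 - ENNReal.ofReal (1 / (M : ℝ) ^ 2)) ^ n
      * ENNReal.ofReal (5 / Real.sqrt ((n : ℝ) + 1)) ≤ ENNReal.ofReal (15 / (M : ℝ)) := by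
  obtain ⟨hv0, hv1⟩ := v_facts M hM
  have hMR : (1 : ℝ) ≤ (M : ℝ) := by exact_mod_cast hM
  have hM0 : (0 : ℝ) < (M : ℝ) := by linarith
  obtain ⟨v, hv⟩ : ∃ v, v = ENNReal.ofReal (1 / (M : ℝ) ^ 2) := ⟨_, rfl⟩
  have hone := geom_one' M hM
  rw [← hv] at hone ⊢
  have hterm : ∀ n : ℕ, v * (1 - v) ^ n * ENNReal.ofReal (5 / Real.sqrt ((n : ℝ) + 1)) ≤
      (if n ∈ Finset.range (M ^ 2) then v * ENNReal.ofReal (5 / Real.sqrt ((n : ℝ) + 1)) else 0) +
        v * (1 - v) ^ n * ENNReal.ofReal (5 / (M : ℝ)) := by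
    intro n
    split_ifs with h
    · refine le_trans ?_ le_self_add
      apply mul_le_mul_left
      calc v * (1 - v) ^ n ≤ v * 1 := by
            apply mul_le_mul_right
            exact pow_le_one₀ (zero_le) tsub_le_self
        _ = v := mul_one v
    · rw [zero_add]
      apply mul_le_mul_right
      apply ENNReal.ofReal_le_ofReal
      rw [Finset.mem_range, not_lt] at h
      apply div_le_div_of_nonneg_left (by norm_num) hM0
      apply Real.le_sqrt_of_sq_le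
      have : ((M ^ 2 : ℕ) : ℝ) ≤ (n : ℝ) := by exact_mod_cast h
      push_cast at this
      linarith
  refine le_trans (ENNReal.tsum_le_tsum hterm) ?_
  rw [ENNReal.tsum_add, ENNReal.tsum_mul_right, hone, one_mul]
  have h1 : ∑' n : ℕ, (if n ∈ Finset.range (M ^ 2) then v * ENNReal.ofReal (5 / Real.sqrt ((n : ℝ) + 1)) else 0)
      ≤ ENNReal.ofReal (10 / (M : ℝ)) := by
    rw [tsum_eq_sum (s := Finset.range (M ^ 2)) (by
      intro n hn; rw [if_neg hn])]
    rw [Finset.sum_congr rfl (fun n hn => if_pos hn), ← Finset.mul_sum,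
      ← ENNReal.ofReal_sum_of_nonneg (fun n _ => by positivity), hv,
      ← ENNReal.ofReal_mul hv0.le]
    apply ENNReal.ofReal_le_ofReal
    have h2 := sum_inv_sqrt (M ^ 2)
    have h3 : Real.sqrt ((M ^ 2 : ℕ) : ℝ) = (M : ℝ) := by
      push_cast; exact Real.sqrt_sq hM0.le
    rw [h3] at h2
    have h4 : ∑ n ∈ Finset.range (M ^ 2), 5 / Real.sqrt ((n : ℝ) + 1) =
        5 * ∑ n ∈ Finset.range (M ^ 2), 1 / Real.sqrt ((n : ℝ) + 1) := by
      rw [Finset.mul_sum]
      apply Finset.sum_congr rfl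
      intro n _; ring
    rw [h4]
    calc 1 / (M : ℝ) ^ 2 * (5 * ∑ n ∈ Finset.range (M ^ 2), 1 / Real.sqrt ((n : ℝ) + 1))
        ≤ 1 / (M : ℝ) ^ 2 * (5 * (2 * M)) := by
          apply mul_le_mul_of_nonneg_left _ hv0.le
          linarith
      _ = 10 / (M : ℝ) := by field_simp; norm_num
  refine le_trans (add_le_add h1 le_rfl) ?_
  rw [← ENNReal.ofReal_add (by positivity) (by positivity)]
  apply ENNReal.ofReal_le_ofReal
  rw [← add_div]
  norm_num

/-- mean of the geometric law -/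
theorem geom_mean (M : ℕ) (hM : 1 ≤ M) :
    ∑' n : ℕ, ENNReal.ofReal (1 / (M : ℝ) ^ 2) * (1 - ENNReal.ofReal (1 / (M : ℝ) ^ 2)) ^ n
      * (n : ℝ≥0∞) ≤ ENNReal.ofReal ((M : ℝ) ^ 2) := by
  obtain ⟨hv0, hv1⟩ := v_facts M hM
  have hMR : (1 : ℝ) ≤ (M : ℝ) := by exact_mod_cast hM
  have hM0 : (0 : ℝ) < (M : ℝ) := by linarith
  obtain ⟨v, hv⟩ : ∃ v : ℝ, v = 1 / (M : ℝ) ^ 2 := ⟨_, rfl⟩
  rw [← hv] at hv0 hv1 ⊢
  have hq0 : 0 ≤ 1 - v := by linarith
  have hq : ‖(1 - v : ℝ)‖ < 1 := by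
    rw [Real.norm_of_nonneg hq0]; linarith
  have e1 : ∀ n : ℕ, ENNReal.ofReal v * (1 - ENNReal.ofReal v) ^ n * (n : ℝ≥0∞) =
      ENNReal.ofReal (v * ((n : ℝ) * (1 - v) ^ n)) := by
    intro n
    rw [ENNReal.ofReal_mul hv0.le, ENNReal.ofReal_mul (by positivity), ENNReal.ofReal_natCast,
      ENNReal.ofReal_pow hq0, ENNReal.ofReal_sub _ hv0.le, ENNReal.ofReal_one]
    ring
  simp only [e1]
  have hs : Summable (fun n : ℕ => (n : ℝ) * (1 - v) ^ n) := by
    have := summable_pow_mul_geometric_of_norm_lt_one 1 hq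
    simpa using this
  rw [← ENNReal.ofReal_tsum_of_nonneg (fun n => by positivity) (hs.mul_left v), tsum_mul_left,
    tsum_coe_mul_geometric_of_norm_lt_one hq]
  apply ENNReal.ofReal_le_ofReal
  have e2 : 1 - (1 - v) = v := by ring
  rw [e2]
  have e3 : (M : ℝ) ^ 2 = 1 / v := by rw [hv]; field_simp
  rw [e3]
  have e4 : v * ((1 - v) / v ^ 2) = (1 - v) / v := by field_simp
  rw [e4]
  exact div_le_div_of_nonneg_right (by linarith) hv0.le

/-- total mass of the geometric law -/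
theorem geom_one (M : ℕ) (hM : 1 ≤ M) :
    ∑' n : ℕ, ENNReal.ofReal (1 / (M : ℝ) ^ 2) * (1 - ENNReal.ofReal (1 / (M : ℝ) ^ 2)) ^ n
      = 1 := geom_one' M hM

end Pool.Agent.Helper41.GF
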