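import Pool.Agent.Helper41.GF.BoxDefs
import Pool.Agent.Helper41.GF.LyapA
import Pool.Agent.Helper41.GF.LyapB
import Pool.Agent.Helper41.GF.LyapC
import Pool.Agent.Helper41.GF.GreenG

/-!
# Definitions: finite weighted graphs with ghost edges, currents, signs, ghost paths
-/

set_option autoImplicit false

open scoped ENNReal Nat
open Finset MeasureTheory

namespace Pool.Agent.Helper41.GF


/-! ## TARGETS -/

theorem sum_BE_aux (N : ℕ) (F : Z3 → Fin 3 → ℝ) :
    ∑ e : BE N, F e.1.1.1 e.1.2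
      = ∑ i : Fin 3, ∑ y ∈ bx N, if y + Pi.single i 1 ∈ bx N then F y i else 0 := by
  classical
  have h1 : ∑ e : BE N, F e.1.1.1 e.1.2
      = ∑ p ∈ (univ : Finset (BV N × Fin 3)).filter (fun p => p.1.1 + Pi.single p.2 1 ∈ bx N),
        F p.1.1 p.2 := by
    rw [Finset.sum_subtype (p := fun p : BV N × Fin 3 => p.1.1 + Pi.single p.2 1 ∈ bx N)]
    intro p
    simp
  rw [h1, Finset.sum_filter, Fintype.sum_prod_type, Finset.sum_comm]
  refine Finset.sum_congr rfl fun i _ => ?_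
  exact Finset.sum_coe_sort (bx N) (fun y => if y + Pi.single i 1 ∈ bx N then F y i else 0)

theorem pop_box (N K k0 : ℕ) (θ : ℝ) (hθ1 : θ ≤ 1) (g : Z3 → ℝ) (x : BV N) :
    (box N K k0 θ).Pop (fun y => g y.1) x = PopB N θ g x.1 := by
  have h0 : (box N K k0 θ).Pop (fun y => g y.1) x
      = ∑ e : BE N, (fun (y : Z3) (i : Fin 3) => (1 - θ) / 6
        * ((if y = x.1 then g (y + Pi.single i 1) else 0)
          + (if y + Pi.single i 1 = x.1 then g y else 0))) e.1.1.1 e.1.2 := by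
    unfold GG.Pop
    refine Finset.sum_congr rfl fun e _ => ?_
    have hw : (((box N K k0 θ).w e : NNReal) : ℝ) = (1 - θ) / 6 := by
      change ((Real.toNNReal ((1 - θ) / 6) : NNReal) : ℝ) = (1 - θ) / 6
      exact Real.coe_toNNReal _ (by linarith)
    rw [hw]
    have hs : ((box N K k0 θ).src e = x) ↔ (e.1.1.1 = x.1) := by
      change (e.1.1 = x) ↔ (e.1.1.1 = x.1)
      exact Subtype.ext_iff
    have ht : ((box N K k0 θ).tgt e = x) ↔ (e.1.1.1 + Pi.single e.1.2 1 = x.1) := by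
      change ((⟨e.1.1.1 + Pi.single e.1.2 1, e.2⟩ : BV N) = x) ↔ _
      exact Subtype.ext_iff
    simp only [hs, ht]
    rfl
  have h00 := sum_BE_aux N (fun (y : Z3) (i : Fin 3) => (1 - θ) / 6
        * ((if y = x.1 then g (y + Pi.single i 1) else 0)
          + (if y + Pi.single i 1 = x.1 then g y else 0)))
  rw [h0]
  refine h00.trans ?_
  unfold PopB
  rw [Finset.mul_sum]
  refine Finset.sum_congr rfl fun i _ => ?_
  have hx : x.1 ∈ bx N := x.2
  have hA : ∑ y ∈ bx N, (if y + Pi.single i 1 ∈ bx N then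
      (if y = x.1 then g (y + Pi.single i 1) else 0) else 0)
      = (if x.1 + Pi.single i 1 ∈ bx N then g (x.1 + Pi.single i 1) else 0) := by
    rw [Finset.sum_eq_single x.1]
    · simp
    · intro y _ hy
      simp [hy]
    · intro h
      exact absurd hx h
  have hB : ∑ y ∈ bx N, (if y + Pi.single i 1 ∈ bx N then
      (if y + Pi.single i 1 = x.1 then g y else 0) else 0)
      = (if x.1 - Pi.single i 1 ∈ bx N then g (x.1 - Pi.single i 1) else 0) := by
    by_cases h : x.1 - Pi.single i 1 ∈ bx N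
    · rw [Finset.sum_eq_single (x.1 - Pi.single i 1)]
      · rw [sub_add_cancel, if_pos hx, if_pos rfl, if_pos h]
      · intro y _ hy
        have : ¬ (y + Pi.single i 1 = x.1) := by
          intro h2
          exact hy (eq_sub_of_add_eq h2)
        simp [this]
      · intro h2
        exact absurd h h2
    · rw [if_neg h]
      refine Finset.sum_eq_zero fun y hy => ?_
      have : ¬ (y + Pi.single i 1 = x.1) := by
        intro h2
        have h3 := eq_sub_of_add_eq h2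
        rw [h3] at hy
        exact h hy
      simp [this]
  rw [← hA, ← hB, ← Finset.sum_add_distrib, Finset.mul_sum]
  refine Finset.sum_congr rfl fun y _ => ?_
  by_cases h : y + Pi.single i 1 ∈ bx N
  · simp only [if_pos h]
  · simp only [if_neg h]
    ring

theorem popB_le (N : ℕ) (θ : ℝ) (hθ0 : 0 ≤ θ) (hθ1 : θ ≤ 1) (g : Z3 → ℝ) (hg : ∀ x, 0 ≤ g x)
    (x : Z3) : PopB N θ g x ≤ Av g x := by
  unfold PopB Av
  have h1 : ∑ i : Fin 3, ((if x + Pi.single i 1 ∈ bx N then g (x + Pi.single i 1) else 0)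
      + (if x - Pi.single i 1 ∈ bx N then g (x - Pi.single i 1) else 0))
      ≤ ∑ i : Fin 3, (g (x + Pi.single i 1) + g (x - Pi.single i 1)) := by
    refine Finset.sum_le_sum fun i _ => add_le_add ?_ ?_
    · split_ifs
      · exact le_rfl
      · exact hg _
    · split_ifs
      · exact le_rfl
      · exact hg _
  have h2 : 0 ≤ ∑ i : Fin 3, (g (x + Pi.single i 1) + g (x - Pi.single i 1)) :=
    Finset.sum_nonneg fun i _ => add_nonneg (hg _) (hg _)
  refine mul_le_mul (by linarith) h1 ?_ (by norm_num)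
  refine Finset.sum_nonneg fun i _ => add_nonneg ?_ ?_
  · split_ifs
    · exact hg _
    · exact le_rfl
  · split_ifs
    · exact hg _
    · exact le_rfl

theorem box_row (N K k0 : ℕ) (θ : ℝ) (hθ1 : θ ≤ 1) : RowLe (box N K k0 θ) θ := by
  intro x
  have h := pop_box N K k0 θ hθ1 (fun _ => 1) x
  unfold GG.Pop at h
  refine h.le.trans ?_
  unfold PopB
  have h1 : ∑ i : Fin 3, ((if x.1 + Pi.single i 1 ∈ bx N then (1 : ℝ) else 0)
      + (if x.1 - Pi.single i 1 ∈ bx N then (1 : ℝ) else 0)) ≤ ∑ i : Fin 3, (2 : ℝ) := by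
    refine Finset.sum_le_sum fun i _ => ?_
    split_ifs <;> norm_num
  have h2 : ∑ i : Fin 3, (2 : ℝ) = 6 := by norm_num
  rw [h2] at h1
  have h3 : (1 - θ) / 6 * (∑ i : Fin 3, ((if x.1 + Pi.single i 1 ∈ bx N then (1 : ℝ) else 0)
      + (if x.1 - Pi.single i 1 ∈ bx N then (1 : ℝ) else 0))) ≤ (1 - θ) / 6 * 6 :=
    mul_le_mul_of_nonneg_left h1 (by linarith)
  refine h3.trans (by linarith)

theorem mk_nonneg' (k : ℕ) (x : Z3) : 0 ≤ mk k x := by
  unfold mk
  positivity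

theorem Av_mk_le' (k : ℕ) (hk : 1 ≤ k) (x : Z3) : Av (mk k) x ≤ mk k x := by
  have hc : (100 : ℝ) ≤ 2 ^ (80 * k) := by
    have h1 : (2 : ℝ) ^ 80 ≤ 2 ^ (80 * k) := pow_le_pow_right₀ (by norm_num) (by omega)
    have h2 : (100 : ℝ) ≤ 2 ^ 80 := by norm_num
    linarith
  have h := Av_inv_sqrt_le (2 ^ (80 * k)) hc x
  have h2 : Av (mk k) x
      = 2 ^ (21 * k) * Av (fun y => 1 / Real.sqrt (nq y + 2 ^ (80 * k))) x := by
    unfold Av mk
    rw [Finset.mul_sum, Finset.mul_sum, Finset.mul_sum]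
    refine Finset.sum_congr rfl fun i _ => ?_
    ring
  have h3 : mk k x = 2 ^ (21 * k) * (1 / Real.sqrt (nq x + 2 ^ (80 * k))) := by
    unfold mk
    ring
  rw [h2, h3]
  exact mul_le_mul_of_nonneg_left h (by positivity)

theorem box_f' (N K k0 : ℕ) (θ : ℝ) (hθ0 : 0 ≤ θ) (hθ1 : θ ≤ 1) (hk0 : 1 ≤ k0)
    (g : BH N K) : (((box N K k0 θ).f g : NNReal) : ℝ)
      = mk (k0 + g.2) g.1.1 - PopB N θ (mk (k0 + g.2)) g.1.1 := by
  change ((Real.toNNReal (mk (k0 + g.2) g.1.1 - PopB N θ (mk (k0 + g.2)) g.1.1) : NNReal) : ℝ) = _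
  refine Real.coe_toNNReal _ ?_
  have h1 := popB_le N θ hθ0 hθ1 (mk (k0 + g.2)) (mk_nonneg' _) g.1.1
  have h2 := Av_mk_le' (k0 + g.2) (by omega) g.1.1
  linarith

theorem box_harm (N K k0 : ℕ) (θ : ℝ) (hθ0 : 0 ≤ θ) (hθ1 : θ ≤ 1) (hk0 : 1 ≤ k0) (j : ℕ)
    (x : BV N) : mk (k0 + min j K) x.1
      = (box N K k0 θ).Pop (fun y => mk (k0 + min j K) y.1) x
        + ∑ g, if (box N K k0 θ).hs g = x ∧ Aj N K j g then ((box N K k0 θ).f g : ℝ) else 0 := by
  classical
  rw [pop_box N K k0 θ hθ1 (mk (k0 + min j K)) x]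
  have hlt : min j K < K + 1 := by omega
  rw [Finset.sum_eq_single ((x, ⟨min j K, hlt⟩) : BH N K)]
  · have hc : (box N K k0 θ).hs ((x, ⟨min j K, hlt⟩) : BH N K) = x
        ∧ Aj N K j ((x, ⟨min j K, hlt⟩) : BH N K) := ⟨rfl, rfl⟩
    rw [if_pos hc, box_f' N K k0 θ hθ0 hθ1 hk0]
    ring
  · intro g _ hg
    rw [if_neg]
    rintro ⟨h1, h2⟩
    apply hg
    refine Prod.ext h1 (Fin.ext h2)
  · intro h
    exact absurd (Finset.mem_univ _) h

theorem box_harm_total (N K k0 : ℕ) (θ : ℝ) (hθ0 : 0 ≤ θ) (hθ1 : θ ≤ 1) (hk0 : 1 ≤ k0)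
    (x : BV N) : ∑ j : Fin (K + 1), mk (k0 + j) x.1
      = (box N K k0 θ).Pop (fun y => ∑ j : Fin (K + 1), mk (k0 + j) y.1) x
        + ∑ g, if (box N K k0 θ).hs g = x then ((box N K k0 θ).f g : ℝ) else 0 := by
  classical
  rw [pop_box N K k0 θ hθ1 (fun z => ∑ j : Fin (K + 1), mk (k0 + j) z) x]
  have h1 : (∑ g : BH N K, if (box N K k0 θ).hs g = x then ((box N K k0 θ).f g : ℝ) else 0)
      = ∑ j : Fin (K + 1), (mk (k0 + j) x.1 - PopB N θ (mk (k0 + j)) x.1) := by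
    rw [Fintype.sum_prod_type, Finset.sum_comm]
    refine Finset.sum_congr rfl fun j _ => ?_
    rw [Finset.sum_eq_single x]
    · have hc : (box N K k0 θ).hs ((x, j) : BH N K) = x := rfl
      rw [if_pos hc, box_f' N K k0 θ hθ0 hθ1 hk0]
    · intro y _ hy
      rw [if_neg]
      exact hy
    · intro h
      exact absurd (Finset.mem_univ _) h
  have h2 : PopB N θ (fun z => ∑ j : Fin (K + 1), mk (k0 + j) z) x.1
      = ∑ j : Fin (K + 1), PopB N θ (mk (k0 + j)) x.1 := by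
    unfold PopB
    rw [← Finset.mul_sum, Finset.sum_comm]
    congr 1
    refine Finset.sum_congr rfl fun i _ => ?_
    rw [Finset.sum_add_distrib]
    congr 1
    · split_ifs
      · rfl
      · simp
    · split_ifs
      · rfl
      · simp
  rw [h1, h2, Finset.sum_sub_distrib]
  ring

theorem mA_box (N K k0 : ℕ) (θ : ℝ) (hθ0 : 0 < θ) (hθ1 : θ ≤ 1) (hk0 : 1 ≤ k0) (j : ℕ)
    (x : BV N) : (box N K k0 θ).mA (Aj N K j) x = ENNReal.ofReal (mk (k0 + min j K) x.1) :=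
  mA_eq (box N K k0 θ) θ hθ0 hθ1 (box_row N K k0 θ hθ1) (Aj N K j)
    (fun y => mk (k0 + min j K) y.1) (fun y => mk_nonneg' _ _)
    (fun y => box_harm N K k0 θ hθ0.le hθ1 hk0 j y) x

theorem mB_box (N K k0 : ℕ) (θ : ℝ) (hθ0 : 0 < θ) (hθ1 : θ ≤ 1) (hk0 : 1 ≤ k0) (j : ℕ)
    (x : BV N) : (box N K k0 θ).mB (Aj N K j) x = ENNReal.ofReal (mk (k0 + min j K) x.1) :=
  mB_eq (box N K k0 θ) θ hθ0 hθ1 (box_row N K k0 θ hθ1) (Aj N K j)
    (fun y => mk (k0 + min j K) y.1) (fun y => mk_nonneg' _ _)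
    (fun y => box_harm N K k0 θ hθ0.le hθ1 hk0 j y) x

end Pool.Agent.Helper41.GF
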