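import Pool.Agent.Helper41.GF.BoxA

/-!
# Definitions: finite weighted graphs with ghost edges, currents, signs, ghost paths
-/

set_option autoImplicit false

open scoped ENNReal Nat
open Finset MeasureTheory

namespace Pool.Agent.Helper41.GF



/-! ## TARGETS -/

theorem nq_nonneg' (x : Z3) : 0 ≤ nq x := Finset.sum_nonneg fun i _ => sq_nonneg _

theorem Pop_mono' {V E H : Type} [Fintype V] [DecidableEq V] [Fintype E] [DecidableEq E]
    [Fintype H] [DecidableEq H] (G : GG V E H) {g h : V → ℝ} (hgh : ∀ x, g x ≤ h x) (x : V) :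
    G.Pop g x ≤ G.Pop h x := by
  unfold GG.Pop
  refine Finset.sum_le_sum fun e _ => mul_le_mul_of_nonneg_left ?_ (NNReal.coe_nonneg _)
  refine add_le_add ?_ ?_
  · split_ifs
    · exact hgh _
    · exact le_refl _
  · split_ifs
    · exact hgh _
    · exact le_refl _

theorem Av_mono' {g h : Z3 → ℝ} (hgh : ∀ x, g x ≤ h x) (x : Z3) : Av g x ≤ Av h x := by
  unfold Av
  refine mul_le_mul_of_nonneg_left (Finset.sum_le_sum fun i _ => ?_) (by norm_num)
  exact add_le_add (hgh _) (hgh _)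

theorem Av_nonneg' {g : Z3 → ℝ} (hg : ∀ x, 0 ≤ g x) (x : Z3) : 0 ≤ Av g x := by
  unfold Av
  exact mul_nonneg (by norm_num) (Finset.sum_nonneg fun i _ => add_nonneg (hg _) (hg _))

theorem Av_iter_nonneg' {g : Z3 → ℝ} (hg : ∀ x, 0 ≤ g x) (n : ℕ) : ∀ x, 0 ≤ Av^[n] g x := by
  induction n with
  | zero => exact hg
  | succ n ih =>
    intro x
    rw [Function.iterate_succ_apply']
    exact Av_nonneg' ih x

theorem Av_shift' (g : Z3 → ℝ) (y x : Z3) : Av (fun z => g (z - y)) x = Av g (x - y) := by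
  unfold Av
  congr 1
  refine Finset.sum_congr rfl fun i _ => ?_
  dsimp only
  rw [show x + Pi.single i 1 - y = x - y + Pi.single i 1 by abel,
    show x - Pi.single i 1 - y = x - y - Pi.single i 1 by abel]

theorem Av_smul' (c : ℝ) (g : Z3 → ℝ) (x : Z3) : Av (fun z => c * g z) x = c * Av g x := by
  unfold Av
  simp only [Finset.mul_sum]
  refine Finset.sum_congr rfl fun i _ => ?_
  ring

theorem pop_iter_le (N K k0 : ℕ) (θ : ℝ) (hθ0 : 0 ≤ θ) (hθ1 : θ ≤ 1) (g : Z3 → ℝ)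
    (hg : ∀ x, 0 ≤ g x) (n : ℕ) :
    ∀ x : BV N, (box N K k0 θ).Pop^[n] (fun y : BV N => g y.1) x ≤ Av^[n] g x.1 := by
  induction n with
  | zero => intro x; exact le_refl _
  | succ n ih =>
    intro x
    rw [Function.iterate_succ_apply', Function.iterate_succ_apply']
    calc (box N K k0 θ).Pop ((box N K k0 θ).Pop^[n] (fun y : BV N => g y.1)) x
        ≤ (box N K k0 θ).Pop (fun y : BV N => (Av^[n] g) y.1) x := Pop_mono' _ ih x
      _ = PopB N θ (Av^[n] g) x.1 := pop_box N K k0 θ hθ1 _ x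
      _ ≤ Av (Av^[n] g) x.1 := popB_le N θ hθ0 hθ1 _ (Av_iter_nonneg' hg n) _

theorem Gr_box_le (N K k0 : ℕ) (θ : ℝ) (hθ0 : 0 ≤ θ) (hθ1 : θ ≤ 1) (x y : BV N) :
    (box N K k0 θ).Gr x y ≤ ENNReal.ofReal (4000 / Real.sqrt (nq (x.1 - y.1) + 100)) := by
  set F : Z3 → ℝ := fun z => 4000 * (1 / Real.sqrt (nq (z - y.1) + 100)) with hF
  have hF0 : ∀ z, 0 ≤ F z := fun z => by positivity
  have hAvF : ∀ z, Av F z = 4000 * Av (fun z => 1 / Real.sqrt (nq z + 100)) (z - y.1) := by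
    intro z
    rw [hF, Av_smul' 4000 (fun z => 1 / Real.sqrt (nq (z - y.1) + 100)) z,
      Av_shift' (fun z => 1 / Real.sqrt (nq z + 100)) y.1 z]
  have h := Gr_le (box N K k0 θ) (fun z : BV N => F z.1) (fun z => if z = y then 1 else 0)
    (fun z => hF0 z.1) (fun z => by split_ifs <;> norm_num) (by
      intro z
      have h1 : (box N K k0 θ).Pop (fun z : BV N => F z.1) z ≤ Av F z.1 := by
        rw [pop_box N K k0 θ hθ1 F z]
        exact popB_le N θ hθ0 hθ1 F hF0 z.1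
      rw [hAvF] at h1
      by_cases hz : z = y
      · rw [if_pos hz]
        subst hz
        rw [sub_self] at h1
        have h2 := Av_inv_sqrt_zero
        have h3 : F z.1 = 4000 * (1 / Real.sqrt (nq 0 + 100)) := by
          simp only [hF, sub_self]
        rw [h3]
        linarith
      · rw [if_neg hz, add_zero]
        have h2 := Av_inv_sqrt_le 100 (le_refl _) (z.1 - y.1)
        have h3 : F z.1 = 4000 * (1 / Real.sqrt (nq (z.1 - y.1) + 100)) := rfl
        rw [h3]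
        linarith) x
  have h2 : ∑ z, (box N K k0 θ).Gr x z * ENNReal.ofReal (if z = y then (1 : ℝ) else 0) =
      (box N K k0 θ).Gr x y := by
    rw [Finset.sum_eq_single y]
    · simp
    · intro z _ hz
      simp [hz]
    · intro h; exact absurd (Finset.mem_univ _) h
  rw [h2] at h
  refine h.trans (le_of_eq ?_)
  congr 1
  simp only [hF]
  ring

theorem Tb_Gr_box_le (N K k0 : ℕ) (θ : ℝ) (hθ0 : 0 ≤ θ) (hθ1 : θ ≤ 1) (M : ℕ) (hM : 1 ≤ M)
    (x y : BV N) :
    ∑ w, (box N K k0 θ).Tb (ENNReal.ofReal (1 / (M : ℝ) ^ 2)) x w * (box N K k0 θ).Gr w y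
      ≤ ENNReal.ofReal (60000 / (M : ℝ)) := by
  set G := box N K k0 θ with hG
  set v : ℝ≥0∞ := ENNReal.ofReal (1 / (M : ℝ) ^ 2) with hv
  set F : Z3 → ℝ := fun z => 1 / Real.sqrt (nq (z - y.1) + 100) with hF
  have hF0 : ∀ z, 0 ≤ F z := fun z => by positivity
  have h1 : ∑ w, G.Tb v x w * G.Gr w y = ∑' n : ℕ, ∑ w, v * (1 - v) ^ n * G.pwr n x w * G.Gr w y := by
    rw [Summable.tsum_finsetSum (fun i _ => ENNReal.summable)]
    refine Finset.sum_congr rfl fun w _ => ?_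
    unfold GG.Tb
    rw [ENNReal.tsum_mul_right]
  have h2 : ∀ n : ℕ, ∑ w, v * (1 - v) ^ n * G.pwr n x w * G.Gr w y ≤
      ENNReal.ofReal 4000 * (v * (1 - v) ^ n * ENNReal.ofReal (5 / Real.sqrt ((n : ℝ) + 1))) := by
    intro n
    have e1 : ∀ w : BV N, v * (1 - v) ^ n * G.pwr n x w * G.Gr w y ≤
        ENNReal.ofReal 4000 * (v * (1 - v) ^ n * (G.pwr n x w * ENNReal.ofReal (F w.1))) := by
      intro w
      have e2 := Gr_box_le N K k0 θ hθ0 hθ1 w y
      rw [show (4000 : ℝ) / Real.sqrt (nq (w.1 - y.1) + 100) = 4000 * F w.1 by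
        simp only [hF]; ring, ENNReal.ofReal_mul (by norm_num)] at e2
      calc v * (1 - v) ^ n * G.pwr n x w * G.Gr w y
          ≤ v * (1 - v) ^ n * G.pwr n x w * (ENNReal.ofReal 4000 * ENNReal.ofReal (F w.1)) :=
            mul_le_mul_right e2 _
        _ = ENNReal.ofReal 4000 * (v * (1 - v) ^ n * (G.pwr n x w * ENNReal.ofReal (F w.1))) := by
            ring
    refine (Finset.sum_le_sum fun w _ => e1 w).trans ?_
    rw [← Finset.mul_sum, ← Finset.mul_sum,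
      pop_iterate G (fun w : BV N => F w.1) (fun w => hF0 w.1) n x]
    refine mul_le_mul_right (mul_le_mul_right (ENNReal.ofReal_le_ofReal ?_) _) _
    exact (pop_iter_le N K k0 θ hθ0 hθ1 F hF0 n x).trans (Av_iterate_le n y.1 x.1)
  rw [h1]
  refine (ENNReal.tsum_le_tsum h2).trans ?_
  rw [ENNReal.tsum_mul_left]
  refine (mul_le_mul_right (geom_sqrt M hM) _).trans (le_of_eq ?_)
  rw [← ENNReal.ofReal_mul (by norm_num)]
  congr 1
  ring

theorem Gr_sum_box_le (N K k0 : ℕ) (θ : ℝ) (hθ0 : 0 ≤ θ) (hθ1 : θ ≤ 1) (c : ℝ) (hc : 100 ≤ c)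
    (x : BV N) :
    ∑ y, (box N K k0 θ).Gr x y * ENNReal.ofReal ((nq y.1 + c) ^ (-(9 / 8) : ℝ))
      ≤ ENNReal.ofReal (100 * (nq x.1 + c) ^ (-(1 / 8) : ℝ)) := by
  have hpos : ∀ z : Z3, 0 ≤ nq z + c := fun z => by have := nq_nonneg' z; linarith
  set F : Z3 → ℝ := fun z => 100 * (nq z + c) ^ (-(1 / 8) : ℝ) with hF
  have hF0 : ∀ z, 0 ≤ F z := fun z => mul_nonneg (by norm_num) (Real.rpow_nonneg (hpos z) _)
  refine Gr_le (box N K k0 θ) (fun z : BV N => F z.1) (fun z => (nq z.1 + c) ^ (-(9 / 8) : ℝ))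
    (fun z => hF0 z.1) (fun z => Real.rpow_nonneg (hpos z.1) _) ?_ x
  intro z
  have h1 : (box N K k0 θ).Pop (fun z : BV N => F z.1) z ≤ Av F z.1 := by
    rw [pop_box N K k0 θ hθ1 F z]
    exact popB_le N θ hθ0 hθ1 F hF0 z.1
  have h2 : Av F z.1 = 100 * Av (fun y => (nq y + c) ^ (-(1 / 8) : ℝ)) z.1 :=
    Av_smul' 100 (fun y => (nq y + c) ^ (-(1 / 8) : ℝ)) z.1
  have h3 := Av_rpow_le c hc z.1
  have h4 : F z.1 = 100 * (nq z.1 + c) ^ (-(1 / 8) : ℝ) := rfl
  rw [h4]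
  rw [h2] at h1
  linarith

theorem bx_notMem {N : ℕ} {z : Z3} (hz : z ∉ bx N) : ((N : ℝ) + 1) ^ 2 ≤ nq z := by
  have : ∃ i, ¬ (-(N : ℤ) ≤ z i ∧ z i ≤ N) := by
    by_contra hcon
    push Not at hcon
    apply hz
    rw [Finset.mem_Icc]
    exact ⟨fun i => (hcon i).1, fun i => (hcon i).2⟩
  obtain ⟨i, hi⟩ := this
  have h1 : ((N : ℝ) + 1) ^ 2 ≤ (z i : ℝ) ^ 2 := by
    have h2 : (N : ℤ) + 1 ≤ |z i| := by
      rcases not_and_or.1 hi with h | h
      · have : z i ≤ -((N : ℤ) + 1) := by omega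
        rw [abs_of_neg (by omega)]
        omega
      · rw [abs_of_pos (by omega)]
        omega
    have h3 : ((N : ℝ) + 1) ≤ |(z i : ℝ)| := by exact_mod_cast h2
    rw [← sq_abs (z i : ℝ)]
    exact pow_le_pow_left₀ (by positivity) h3 2
  refine h1.trans ?_
  unfold nq
  exact Finset.single_le_sum (f := fun i => (z i : ℝ) ^ 2) (fun j _ => sq_nonneg _)
    (Finset.mem_univ i)

/-- the lower barrier -/
noncomputable def phb (N : ℕ) (θ : ℝ) (n : ℕ) (z : Z3) : ℝ :=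
  1 - n * θ - (nq z + n) / ((N : ℝ) + 1) ^ 2

theorem Av_phb (N : ℕ) (θ : ℝ) (n : ℕ) (x : Z3) :
    Av (phb N θ n) x = 1 - n * θ - (nq x + n + 1) / ((N : ℝ) + 1) ^ 2 := by
  have e1 := Av_nq n 0 x
  simp only [sub_zero] at e1
  rw [← e1]
  unfold Av phb
  simp only [Fin.sum_univ_three]
  ring

theorem phb_step (N : ℕ) (θ : ℝ) (hθ0 : 0 ≤ θ) (hθ1 : θ ≤ 1) (n : ℕ) (x : Z3) :
    phb N θ (n + 1) x ≤ PopB N θ (fun z => max (phb N θ n z) 0) x ∧
      0 ≤ PopB N θ (fun z => max (phb N θ n z) 0) x := by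
  have hN : (0 : ℝ) < ((N : ℝ) + 1) ^ 2 := by positivity
  have hnθ : 0 ≤ (n : ℝ) * θ := mul_nonneg (Nat.cast_nonneg _) hθ0
  have hn0 : (0 : ℝ) ≤ n := Nat.cast_nonneg _
  have hout : ∀ z, z ∉ bx N → phb N θ n z ≤ 0 := by
    intro z hz
    have h2 := bx_notMem hz
    have h3 : 1 ≤ (nq z + n) / ((N : ℝ) + 1) ^ 2 := by
      rw [le_div_iff₀ hN]
      linarith
    unfold phb
    linarith
  have hif : ∀ z, phb N θ n z ≤ (if z ∈ bx N then max (phb N θ n z) 0 else 0) := by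
    intro z
    split_ifs with h
    · exact le_max_left _ _
    · exact hout z h
  have hif0 : ∀ z, 0 ≤ (if z ∈ bx N then max (phb N θ n z) 0 else 0) := by
    intro z
    split_ifs with h
    · exact le_max_right _ _
    · exact le_refl _
  have h2 : (1 - θ) * Av (phb N θ n) x ≤ PopB N θ (fun z => max (phb N θ n z) 0) x := by
    unfold Av PopB
    rw [← mul_assoc, show (1 - θ) * (1 / 6) = (1 - θ) / 6 by ring]
    refine mul_le_mul_of_nonneg_left (Finset.sum_le_sum fun i _ => ?_) (by linarith)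
    exact add_le_add (hif _) (hif _)
  have h2' : 0 ≤ PopB N θ (fun z => max (phb N θ n z) 0) x := by
    unfold PopB
    refine mul_nonneg (by linarith) (Finset.sum_nonneg fun i _ => ?_)
    exact add_nonneg (hif0 _) (hif0 _)
  refine ⟨?_, h2'⟩
  have h3 := Av_phb N θ n x
  have hq : 0 ≤ (nq x + n + 1) / ((N : ℝ) + 1) ^ 2 :=
    div_nonneg (by have := nq_nonneg' x; linarith) hN.le
  have h4 : Av (phb N θ n) x ≤ 1 := by
    rw [h3]
    linarith
  have h5 : phb N θ (n + 1) x = Av (phb N θ n) x - θ := by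
    rw [h3]
    unfold phb
    push_cast
    ring
  rw [h5]
  have h6 : 0 ≤ θ * (1 - Av (phb N θ n) x) := mul_nonneg hθ0 (by linarith)
  linarith

theorem pop_ge_phb (N K k0 : ℕ) (θ : ℝ) (hθ0 : 0 ≤ θ) (hθ1 : θ ≤ 1) (n : ℕ) :
    ∀ x : BV N, phb N θ n x.1 ≤ (box N K k0 θ).Pop^[n] (fun _ => 1) x ∧
      0 ≤ (box N K k0 θ).Pop^[n] (fun _ => 1) x := by
  induction n with
  | zero =>
    intro x
    have : 0 ≤ nq x.1 / ((N : ℝ) + 1) ^ 2 := div_nonneg (nq_nonneg' _) (by positivity)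
    unfold phb
    simp only [Nat.cast_zero, zero_mul, sub_zero, add_zero, Function.iterate_zero, id]
    constructor
    · linarith
    · norm_num
  | succ n ih =>
    intro x
    rw [Function.iterate_succ_apply']
    have h1 : PopB N θ (fun z => max (phb N θ n z) 0) x.1 ≤
        (box N K k0 θ).Pop ((box N K k0 θ).Pop^[n] (fun _ => 1)) x := by
      rw [← pop_box N K k0 θ hθ1 (fun z => max (phb N θ n z) 0) x]
      exact Pop_mono' _ (fun z => max_le (ih z).1 (ih z).2) x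
    obtain ⟨h2, h3⟩ := phb_step N θ hθ0 hθ1 n x.1
    exact ⟨h2.trans h1, h3.trans h1⟩

theorem pwr_mass_ge (N K k0 : ℕ) (θ : ℝ) (hθ0 : 0 ≤ θ) (hθ1 : θ ≤ 1) (n : ℕ) (x : BV N) :
    ENNReal.ofReal (1 - n * θ - (nq x.1 + n) / ((N : ℝ) + 1) ^ 2)
      ≤ ∑ y, (box N K k0 θ).pwr n x y := by
  have h := pop_iterate (box N K k0 θ) (fun _ => 1) (fun _ => zero_le_one) n x
  simp only [ENNReal.ofReal_one, mul_one] at h
  rw [h]
  exact ENNReal.ofReal_le_ofReal (pop_ge_phb N K k0 θ hθ0 hθ1 n x).1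

theorem pwr_nq_le (N K k0 : ℕ) (θ : ℝ) (hθ0 : 0 ≤ θ) (hθ1 : θ ≤ 1) (n : ℕ) (x : BV N) :
    ∑ y, (box N K k0 θ).pwr n x y * ENNReal.ofReal (nq y.1) ≤ ENNReal.ofReal (nq x.1 + n) := by
  have hA : ∀ (n : ℕ) (z : Z3), Av^[n] nq z = nq z + n := by
    intro n
    induction n with
    | zero => intro z; simp
    | succ n ih =>
      intro z
      rw [Function.iterate_succ_apply']
      have e0 : Av^[n] nq = fun z => nq z + n := funext ih
      rw [e0]
      have e1 := Av_nq n 0 z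
      simp only [sub_zero] at e1
      rw [e1]
      push_cast
      ring
  rw [pop_iterate (box N K k0 θ) (fun y : BV N => nq y.1) (fun y => nq_nonneg' y.1) n x]
  refine ENNReal.ofReal_le_ofReal ?_
  rw [← hA n x.1]
  exact pop_iter_le N K k0 θ hθ0 hθ1 nq nq_nonneg' n x

end Pool.Agent.Helper41.GF
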