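import Mathlib

/-!
# Definitions: finite weighted graphs with ghost edges, currents, signs, ghost paths
-/

set_option autoImplicit false

open scoped ENNReal Nat
open Finset MeasureTheory

namespace Pool.Agent.Helper41.GF

/-- degree of a current -/
def deg {V E : Type} [DecidableEq V] [Fintype E] (inc : E → Finset V) (n : E → ℕ) (x : V) : ℕ :=
  ∑ e, if x ∈ inc e then n e else 0

/-- sign of a boolean -/
def sg (b : Bool) : ℝ := if b then 1 else -1

/-- product of signs over the endpoints of an edge -/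
def sgE {V E : Type} (inc : E → Finset V) (σ : V → Bool) (e : E) : ℝ := ∏ x ∈ inc e, sg (σ x)

/-- weight of a current -/
noncomputable def cw {V E : Type} [Fintype V] [DecidableEq V] [Fintype E] (inc : E → Finset V)
    (J : E → ℝ) (n : E → ℕ) : ℝ :=
  if ∀ x, Even (deg inc n x) then ∏ e, J e ^ n e / ((n e)! : ℝ) else 0

/-- sign configuration compatible with a set of open edges -/
def Compat {V E : Type} (inc : E → Finset V) (ω : Finset E) (σ : V → Bool) : Prop :=
  ∀ e ∈ ω, sgE inc σ e = 1

open Classical in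
/-- number of compatible sign configurations -/
noncomputable def cnt {V E : Type} [Fintype V] [DecidableEq V] (inc : E → Finset V)
    (ω : Finset E) : ℕ :=
  (Finset.univ.filter (fun σ : V → Bool => Compat inc ω σ)).card

open Classical in
/-- conditional probability of the signs given the current -/
noncomputable def qq {V E : Type} [Fintype V] [DecidableEq V] [Fintype E] [DecidableEq E]
    (inc : E → Finset V) (J : E → ℝ) (n : E → ℕ) (σ : V → Bool) : ℝ :=
  ∑ ω : Finset E, if (∀ e, n e ≠ 0 → e ∈ ω) ∧ Compat inc ω σ then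
    (∏ e ∈ ω, if n e = 0 then 1 - Real.exp (-J e) else 1) * (∏ e ∈ ωᶜ, Real.exp (-J e))
      / (cnt inc ω : ℝ) else 0

/-- radial density -/
noncomputable def rad (d : ℕ) (r : ℝ) : ℝ := r ^ d * Real.exp (-r ^ 2 / 2)

/-- radial moment -/
noncomputable def Ga (d : ℕ) : ℝ≥0∞ := ∫⁻ r in Set.Ioi (0 : ℝ), ENNReal.ofReal (rad d r)

/-- unnormalised expectation over a Poisson list -/
noncomputable def PEx {α : Type} (lam : α → ℝ≥0∞) (F : List α → ℝ≥0∞) : ℝ≥0∞ :=
  ∑' l : List α, (l.map lam).prod / ((l.length)! : ℝ≥0∞) * F l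

/-- A finite weighted graph with ghost edges. -/
structure GG (V E H : Type) where
  src : E → V
  tgt : E → V
  hne : ∀ e, src e ≠ tgt e
  hs : H → V
  w : E → NNReal
  f : H → NNReal

namespace GG

variable {V E H : Type} [Fintype V] [DecidableEq V] [Fintype E] [DecidableEq E] [Fintype H]
  [DecidableEq H]

/-- endpoints (in V) of an edge or ghost edge -/
def inc (G : GG V E H) : E ⊕ H → Finset V :=
  Sum.elim (fun e => {G.src e, G.tgt e}) (fun g => {G.hs g})

/-- weights -/
def wt (G : GG V E H) : E ⊕ H → NNReal := Sum.elim G.w G.f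

/-- start of a dart -/
def ds (G : GG V E H) (d : E × Bool) : V := if d.2 then G.src d.1 else G.tgt d.1

/-- target of a dart -/
def dt (G : GG V E H) (d : E × Bool) : V := if d.2 then G.tgt d.1 else G.src d.1

/-- weight of the walk from `x` to `y` along a list of darts (zero if it is not such a walk) -/
noncomputable def pw (G : GG V E H) : V → List (E × Bool) → V → ℝ≥0∞
  | x, [], y => if x = y then 1 else 0
  | x, d :: l, y => if G.ds d = x then (G.w d.1 : ℝ≥0∞) * pw G (G.dt d) l y else 0

/-- half of the weight of an oriented ghost to ghost path -/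
noncomputable def lam (G : GG V E H) (p : H × List (E × Bool) × H) : ℝ≥0∞ :=
  2⁻¹ * (G.f p.1 : ℝ≥0∞) * G.pw (G.hs p.1) p.2.1 (G.hs p.2.2) * (G.f p.2.2 : ℝ≥0∞)

/-- weight of a current: even degrees, radial moments `Ga` -/
noncomputable def Phi (G : GG V E H) (Ga : ℕ → ℝ≥0∞) (n : E ⊕ H → ℕ) : ℝ≥0∞ :=
  if ∀ x, Even (deg G.inc n x) then
    (∏ e, (G.wt e : ℝ≥0∞) ^ (n e) / ((n e)! : ℝ≥0∞)) * ∏ x, Ga (deg G.inc n x)
  else 0

/-- endpoint of a list of darts started at `x` -/
def fin (G : GG V E H) : V → List (E × Bool) → V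
  | x, [] => x
  | _, d :: l => fin G (G.dt d) l

/-- total weight of walks of length `n` from `x` to `y` -/
noncomputable def pwr (G : GG V E H) (n : ℕ) (x y : V) : ℝ≥0∞ :=
  ∑' l : List (E × Bool), if l.length = n then G.pw x l y else 0

/-- the site of a ghost to ghost path at position `i` -/
def site (G : GG V E H) (p : H × List (E × Bool) × H) (i : ℕ) : V :=
  G.fin (G.hs p.1) (p.2.1.take i)

/-- total weight of walks from ghosts in `A` to `x` -/
noncomputable def mA (G : GG V E H) (A : H → Prop) [DecidablePred A] (x : V) : ℝ≥0∞ :=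
  ∑ g, if A g then (G.f g : ℝ≥0∞) * ∑' n, G.pwr n (G.hs g) x else 0

/-- total weight of walks from `x` to ghosts in `B` -/
noncomputable def mB (G : GG V E H) (B : H → Prop) [DecidablePred B] (x : V) : ℝ≥0∞ :=
  ∑ g, if B g then (∑' n, G.pwr n x (G.hs g)) * (G.f g : ℝ≥0∞) else 0

/-- the density exponent -/
noncomputable def expo (G : GG V E H) (ψ : V → ℝ) : ℝ :=
  -(1 / 2) * ∑ x, ψ x ^ 2 + ∑ e, (G.w e : ℝ) * (ψ (G.src e) * ψ (G.tgt e))
    + ∑ g, (G.f g : ℝ) * ψ (G.hs g)

/-- the unnormalised density of the field -/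
noncomputable def rho (G : GG V E H) (ψ : V → ℝ) : ℝ := Real.exp (G.expo ψ)

/-- the transition operator -/
noncomputable def Pop (G : GG V E H) (m : V → ℝ) (x : V) : ℝ :=
  ∑ e, (G.w e : ℝ) * ((if G.src e = x then m (G.tgt e) else 0)
    + (if G.tgt e = x then m (G.src e) else 0))

end GG

/-- the current of a ghost to ghost path -/
def npath {E H : Type} [DecidableEq E] [DecidableEq H] (p : H × List (E × Bool) × H) :
    E ⊕ H → ℕ :=
  Pi.single (Sum.inr p.1) 1 + Pi.single (Sum.inr p.2.2) 1
    + (p.2.1.map (fun d => (Pi.single (Sum.inl d.1) 1 : E ⊕ H → ℕ))).sum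

/-- Poisson weight of a list of paths of a given type -/
noncomputable def lw {α ι : Type} [DecidableEq ι] (lam : α → ℝ≥0∞) (tp : α → ι) (t : ι)
    (l : List α) : ℝ≥0∞ :=
  (l.map (fun p => if tp p = t then lam p else 0)).prod / ((l.length)! : ℝ≥0∞)

/-- the cubic lattice -/
abbrev Z3 := Fin 3 → ℤ

/-- squared Euclidean norm -/
def nq (x : Z3) : ℝ := ∑ i, (x i : ℝ) ^ 2

/-- average over the six neighbours -/
noncomputable def Av (g : Z3 → ℝ) (x : Z3) : ℝ :=
  (1 / 6) * ∑ i : Fin 3, (g (x + Pi.single i 1) + g (x - Pi.single i 1))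

/-- steps -/
abbrev Stp := Fin 3 × Bool

/-- unit vector of a step -/
def vec (s : Stp) : Z3 := Pi.single s.1 (if s.2 then 1 else -1)

/-- streams of steps -/
abbrev Str := ℕ → Stp

/-- displacement after n steps -/
def SS (n : ℕ) (u : Str) : Z3 := ∑ i ∈ Finset.range n, vec (u i)

/-- the uniform law on steps -/
noncomputable def stpLaw : Measure Stp := (PMF.uniformOfFintype Stp).toMeasure

/-- the law of an i.i.d. uniform stream of steps -/
noncomputable def PP : Measure Str := Measure.infinitePi (fun _ : ℕ => stpLaw)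

end Pool.Agent.Helper41.GF
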