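import Pool.Agent.Helper41.GF.AsmDefs
import Pool.Agent.Helper41.GF.BoxA
import Pool.Agent.Helper41.GF.LawB

/-!
# Definitions: finite weighted graphs with ghost edges, currents, signs, ghost paths
-/

set_option autoImplicit false

open scoped ENNReal Nat
open Finset MeasureTheory

namespace Pool.Agent.Helper41.GF


/-! ## TARGETS -/

theorem box_w_le (N K k0 : ℕ) (θ : ℝ) (hθ0 : 0 ≤ θ) (e : BE N) :
    ((box N K k0 θ).w e : ℝ≥0∞) ≤ (6 : ℝ≥0∞)⁻¹ := by
  have h1 : ((box N K k0 θ).w e : ℝ≥0∞) = ENNReal.ofReal ((1 - θ) / 6) := rfl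
  rw [h1]
  have h2 : (6 : ℝ≥0∞)⁻¹ = ENNReal.ofReal (1 / 6) := by
    rw [one_div, ENNReal.ofReal_inv_of_pos (by norm_num), ENNReal.ofReal_ofNat]
  rw [h2]
  exact ENNReal.ofReal_le_ofReal (by linarith)

theorem dart_unique (N K k0 : ℕ) (θ : ℝ) (u : BV N) (s : Stp) (d d' : BE N × Bool)
    (h1 : stpB N d = s) (h2 : (box N K k0 θ).ds d = u) (h1' : stpB N d' = s)
    (h2' : (box N K k0 θ).ds d' = u) : d = d' := by
  obtain ⟨⟨⟨y, i⟩, hy⟩, b⟩ := d
  obtain ⟨⟨⟨y', i'⟩, hy'⟩, b'⟩ := d'
  have e1 : (i, b) = s := h1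
  have e2 : (i', b') = s := h1'
  rw [← e2] at e1
  obtain ⟨rfl, rfl⟩ := Prod.mk.inj e1
  have h3 : (box N K k0 θ).ds (⟨(y, i), hy⟩, b) = (box N K k0 θ).ds (⟨(y', i), hy'⟩, b) := by
    rw [h2, h2']
  cases b with
  | true =>
    have h4 : y = y' := h3
    subst h4
    rfl
  | false =>
    have h4 : (⟨y.1 + Pi.single i 1, hy⟩ : BV N) = ⟨y'.1 + Pi.single i 1, hy'⟩ := h3
    have h5 : y.1 + Pi.single i 1 = y'.1 + Pi.single i 1 := congrArg Subtype.val h4
    have h6 : y = y' := Subtype.ext (add_right_cancel h5)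
    subst h6
    rfl

theorem dt_eq (N K k0 : ℕ) (θ : ℝ) (u : BV N) (d : BE N × Bool)
    (h2 : (box N K k0 θ).ds d = u) : ((box N K k0 θ).dt d).1 = u.1 + vec (stpB N d) := by
  obtain ⟨⟨⟨y, i⟩, hy⟩, b⟩ := d
  cases b with
  | true =>
    have h4 : y = u := h2
    subst h4
    rfl
  | false =>
    have h4 : (⟨y.1 + Pi.single i 1, hy⟩ : BV N) = u := h2
    rw [← h4]
    show y.1 = y.1 + Pi.single i 1 + Pi.single i (if false = true then 1 else -1)
    rw [add_assoc, ← Pi.single_add]
    simp

/-- total weight of the walks with prescribed steps -/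
theorem steps_weight (N K k0 : ℕ) (θ : ℝ) (hθ0 : 0 ≤ θ) (hθ1 : θ ≤ 1) (l : List Stp) (u : BV N) :
    ∑' d : List (BE N × Bool), (if d.map (stpB N) = l then
        (box N K k0 θ).pw u d ((box N K k0 θ).fin u d) else 0) ≤ ((6 : ℝ≥0∞)⁻¹) ^ l.length := by
  classical
  set G := box N K k0 θ with hG
  induction l generalizing u with
  | nil =>
    rw [tsum_eq_single ([] : List (BE N × Bool))]
    · rw [if_pos (by rfl)]
      show (if u = u then (1 : ℝ≥0∞) else 0) ≤ _
      simp
    · intro d hd
      rw [if_neg]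
      intro h
      exact hd (List.map_eq_nil_iff.1 h)
  | cons s l ih =>
    have hinj : Function.Injective (fun x : (BE N × Bool) × List (BE N × Bool) => x.1 :: x.2) := by
      rintro ⟨a, b⟩ ⟨c, d⟩ h
      have h : a :: b = c :: d := h
      rw [List.cons.injEq] at h
      exact Prod.ext h.1 h.2
    rw [← hinj.tsum_eq (f := fun d : List (BE N × Bool) => if d.map (stpB N) = s :: l then
        G.pw u d (G.fin u d) else 0)]
    · rw [ENNReal.tsum_prod (f := fun (a : BE N × Bool) (b : List (BE N × Bool)) =>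
        if (a :: b).map (stpB N) = s :: l then G.pw u (a :: b) (G.fin u (a :: b)) else 0),
        tsum_fintype]
      have h1 : ∀ a : BE N × Bool, (∑' b : List (BE N × Bool),
          if (a :: b).map (stpB N) = s :: l then G.pw u (a :: b) (G.fin u (a :: b)) else 0) ≤
          if (stpB N a = s ∧ G.ds a = u) then ((6 : ℝ≥0∞)⁻¹) ^ (s :: l).length else 0 := by
        intro a
        have h2 : ∀ b : List (BE N × Bool),
            (if (a :: b).map (stpB N) = s :: l then G.pw u (a :: b) (G.fin u (a :: b)) else 0) =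
            (if (stpB N a = s ∧ G.ds a = u) then (G.w a.1 : ℝ≥0∞) else 0) *
              (if b.map (stpB N) = l then G.pw (G.dt a) b (G.fin (G.dt a) b) else 0) := by
          intro b
          rw [List.map_cons]
          have h3 : G.pw u (a :: b) (G.fin u (a :: b)) =
            if G.ds a = u then (G.w a.1 : ℝ≥0∞) * G.pw (G.dt a) b (G.fin (G.dt a) b) else 0 := rfl
          rw [h3]
          by_cases c1 : stpB N a = s
          · by_cases c2 : G.ds a = u
            · by_cases c3 : b.map (stpB N) = l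
              · have c4 : stpB N a :: b.map (stpB N) = s :: l := by rw [c1, c3]
                rw [if_pos c4, if_pos c2, if_pos ⟨c1, c2⟩, if_pos c3]
              · have c4 : ¬ stpB N a :: b.map (stpB N) = s :: l := fun h =>
                  c3 (List.cons.inj h).2
                rw [if_neg c4, if_neg c3, mul_zero]
            · have c4 : ¬ (stpB N a = s ∧ G.ds a = u) := fun h => c2 h.2
              rw [if_neg c4, zero_mul, if_neg c2, ite_self]
          · have c4 : ¬ (stpB N a = s ∧ G.ds a = u) := fun h => c1 h.1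
            have c5 : ¬ stpB N a :: b.map (stpB N) = s :: l := fun h =>
                  c1 (List.cons.inj h).1
            rw [if_neg c4, if_neg c5, zero_mul]
        simp_rw [h2]
        rw [ENNReal.tsum_mul_left]
        by_cases c : stpB N a = s ∧ G.ds a = u
        · rw [if_pos c, if_pos c, List.length_cons, pow_succ, mul_comm]
          exact mul_le_mul' (ih (G.dt a)) (box_w_le N K k0 θ hθ0 a.1)
        · rw [if_neg c, if_neg c, zero_mul]
      refine (Finset.sum_le_sum fun a _ => h1 a).trans ?_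
      rw [← Finset.sum_filter, Finset.sum_const, nsmul_eq_mul]
      refine mul_le_of_le_one_left' ?_
      have : (Finset.univ.filter (fun a : BE N × Bool => stpB N a = s ∧ G.ds a = u)).card ≤ 1 := by
        rw [Finset.card_le_one]
        intro a ha b hb
        obtain ⟨_, ha1, ha2⟩ := Finset.mem_filter.1 ha
        obtain ⟨_, hb1, hb2⟩ := Finset.mem_filter.1 hb
        exact dart_unique N K k0 θ u s a b ha1 ha2 hb1 hb2
      exact_mod_cast this
    · intro d hd
      cases d with
      | nil =>
        exfalso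
        apply hd
        show (if ([] : List (BE N × Bool)).map (stpB N) = s :: l then _ else _) = _
        rw [if_neg]
        simp
      | cons a b => exact ⟨(a, b), rfl⟩

/-- law of the first steps -/
theorem steps_law (N K k0 : ℕ) (θ : ℝ) (hθ0 : 0 ≤ θ) (hθ1 : θ ≤ 1) (v : ℕ → ℝ≥0∞)
    (hv0 : ∀ k, v k ≠ 0) (hv : ∀ k, v k ≤ 1) (β : ℕ → BV N → ℝ≥0∞) (hβ : ∀ k w, β k w ≤ 1)
    (l : List Stp) (u : BV N) :
    (box N K k0 θ).law v β K 0 u (fun ξ => if (ξ.map (stpB N)).take l.length = l then 1 else 0)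
      ≤ ((6 : ℝ≥0∞)⁻¹) ^ l.length := by
  classical
  have hrow : RowLe (box N K k0 θ) 0 := by
    intro x
    have := box_row N K k0 θ hθ1 x
    linarith
  have h1 : ∀ ξ : List (BE N × Bool),
      (if (ξ.map (stpB N)).take l.length = l then (1 : ℝ≥0∞) else 0) ≤
      ∑' d : List (BE N × Bool), (if d.map (stpB N) = l then
        (if ξ.take d.length = d then 1 else 0) else 0) := by
    intro ξ
    by_cases c : (ξ.map (stpB N)).take l.length = l
    · rw [if_pos c]
      have e1 : (ξ.take l.length).map (stpB N) = l := by rw [List.map_take, c]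
      have e2 : (ξ.take l.length).length = l.length := by
        conv_rhs => rw [← e1]
        rw [List.length_map]
      refine le_trans (le_of_eq ?_) (ENNReal.le_tsum (ξ.take l.length))
      rw [if_pos e1, e2, if_pos rfl]
    · rw [if_neg c]
      exact zero_le
  have h0 : (box N K k0 θ).law v β K 0 u (fun _ => 0) = 0 := by
    have := law_tsum (X := Empty) (box N K k0 θ) v β K 0 u (fun x _ => x.elim)
    simpa using this
  refine (law_mono _ v β K 0 u _ _ h1).trans ?_
  rw [law_tsum]
  refine le_trans (ENNReal.tsum_le_tsum fun d => ?_) (steps_weight N K k0 θ hθ0 hθ1 l u)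
  by_cases c : d.map (stpB N) = l
  · simp only [if_pos c]
    exact law_prefix _ hrow v hv0 hv β hβ K 0 u d
  · simp only [if_neg c]
    rw [h0]

theorem pos_aux (N K k0 : ℕ) (θ : ℝ) (ξ : List (BE N × Bool)) : ∀ (u : BV N)
    (_ : (box N K k0 θ).pw u ξ ((box N K k0 θ).fin u ξ) ≠ 0) (i : ℕ),
    ((box N K k0 θ).fin u (ξ.take i)).1
      = u.1 + ((ξ.take i).map (fun d => vec (stpB N d))).sum := by
  induction ξ with
  | nil =>
    intro u _ i
    rw [List.take_nil, List.map_nil, List.sum_nil, add_zero]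
    rfl
  | cons d ξ ih =>
    intro u h i
    have h3 : (box N K k0 θ).pw u (d :: ξ) ((box N K k0 θ).fin u (d :: ξ)) =
      if (box N K k0 θ).ds d = u then ((box N K k0 θ).w d.1 : ℝ≥0∞) *
        (box N K k0 θ).pw ((box N K k0 θ).dt d) ξ ((box N K k0 θ).fin ((box N K k0 θ).dt d) ξ)
        else 0 := rfl
    rw [h3] at h
    have c1 : (box N K k0 θ).ds d = u := by
      by_contra c
      rw [if_neg c] at h
      exact h rfl
    rw [if_pos c1] at h
    have c2 := right_ne_zero_of_mul h
    cases i with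
    | zero =>
      rw [List.take_zero, List.map_nil, List.sum_nil, add_zero]
      rfl
    | succ i =>
      rw [List.take_succ_cons, List.map_cons, List.sum_cons]
      have h4 : (box N K k0 θ).fin u (d :: ξ.take i) =
        (box N K k0 θ).fin ((box N K k0 θ).dt d) (ξ.take i) := rfl
      rw [h4, ih _ c2 i, dt_eq N K k0 θ u d c1, add_assoc]

/-- positions of a walk -/
theorem pos_walk (N K k0 : ℕ) (θ : ℝ) (u : BV N) (ξ : List (BE N × Bool))
    (h : (box N K k0 θ).pw u ξ ((box N K k0 θ).fin u ξ) ≠ 0) (n : ℕ) (s : Fin n → Stp)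
    (hs : (ξ.map (stpB N)).take n = List.ofFn s) (i : ℕ) (hi : i ≤ n) :
    ((box N K k0 θ).fin u (ξ.take i)).1
      = u.1 + (∑ k : Fin n, if (k : ℕ) < i then vec (s k) else 0) := by
  rw [pos_aux N K k0 θ ξ u h i]
  congr 1
  have e1 : (ξ.take i).map (fun d => vec (stpB N d)) = ((List.ofFn s).take i).map vec := by
    rw [← hs, List.take_take, min_eq_left hi, ← List.map_take, List.map_map]
    rfl
  rw [e1, List.map_take, List.map_ofFn, List.sum_take_ofFn, Finset.sum_filter]
  rfl

end Pool.Agent.Helper41.GF
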