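import Pool.Agent.Helper41.GF.AsmC
import Pool.Agent.Helper41.GF.Steps

/-!
# Definitions: finite weighted graphs with ghost edges, currents, signs, ghost paths
-/

set_option autoImplicit false

open scoped ENNReal Nat
open Finset MeasureTheory

namespace Pool.Agent.Helper41.GF


/-! helpers for the targets -/

theorem eh_exists_ofFn {α : Type} (n : ℕ) (l : List α) (h : l.length = n) :
    ∃ s : Fin n → α, l = List.ofFn s := by
  subst h
  exact ⟨l.get, (List.ofFn_get l).symm⟩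

theorem eh_sum_unique {T : Type} [Fintype T] (P : T → Prop) [DecidablePred P]
    (hP : ∀ s t, P s → P t → s = t) (c : ℝ≥0∞) :
    ∑ t, (if P t then c else 0) ≤ c := by
  by_cases h : ∃ t, P t
  · obtain ⟨t0, ht0⟩ := h
    rw [Finset.sum_eq_single t0]
    · rw [if_pos ht0]
    · intro t _ htne
      rw [if_neg]
      intro hPt
      exact htne (hP t t0 hPt ht0)
    · intro hnot
      exact absurd (Finset.mem_univ t0) hnot
  · push Not at h
    rw [Finset.sum_eq_zero]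
    · exact zero_le
    · intro t _
      rw [if_neg (h t)]

theorem eh_law_zero {V E H : Type} [Fintype V] [DecidableEq V] [Fintype E] [DecidableEq E]
    [Fintype H] [DecidableEq H] (G : GG V E H) (v : ℕ → ℝ≥0∞) (β : ℕ → V → ℝ≥0∞) (K k : ℕ)
    (u : V) : G.law v β K k u (fun _ => 0) = 0 := by
  have h := law_tsum (X := Empty) G v β K k u (fun x _ => x.elim)
  simpa using h

open Classical in
theorem eh_law_ind {V E H : Type} [Fintype V] [DecidableEq V] [Fintype E] [DecidableEq E]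
    [Fintype H] [DecidableEq H] (G : GG V E H) (v : ℕ → ℝ≥0∞) (β : ℕ → V → ℝ≥0∞) (K k : ℕ)
    (u : V) (P : List (E × Bool) → Prop) :
    ∑' ξ, (if P ξ then G.law v β K k u (fun η => if η = ξ then 1 else 0) else 0)
      = G.law v β K k u (fun η => if P η then 1 else 0) := by
  have h := law_tsum (X := List (E × Bool)) G v β K k u
    (fun ξ η => if P ξ then (if η = ξ then 1 else 0) else 0)
  have h1 : (fun η : List (E × Bool) =>
      ∑' ξ : List (E × Bool), (if P ξ then (if η = ξ then (1 : ℝ≥0∞) else 0) else 0))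
      = fun η => if P η then 1 else 0 := by
    funext η
    rw [tsum_eq_single η]
    · simp
    · intro ξ hξ
      have : η ≠ ξ := fun hh => hξ hh.symm
      simp [this]
  rw [h1] at h
  rw [h]
  refine tsum_congr fun ξ => ?_
  by_cases hP : P ξ
  · simp [hP]
  · simp [hP, eh_law_zero]

open Classical in
theorem eh_LB_ind (N K : ℕ) (θ : ℝ) (P : XB N → Prop) :
    ∑' x : XB N, (if P x then LB N K θ x else 0)
      = ∑ u : BV N, nu0 N K 100 θ u * (box N K 100 θ).law (vk 100) (bk N K 100) K 0 u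
        (fun η => if P (u, η) then 1 else 0) := by
  rw [ENNReal.tsum_prod', tsum_fintype]
  refine Finset.sum_congr rfl fun u _ => ?_
  rw [← eh_law_ind, ← ENNReal.tsum_mul_left]
  refine tsum_congr fun ξ => ?_
  by_cases hP : P (u, ξ)
  · rw [if_pos hP, if_pos hP]
    rfl
  · rw [if_neg hP, if_neg hP, mul_zero]

theorem eh_row (N K : ℕ) (θ : ℝ) (hθ0 : 0 < θ) (hθ1 : θ ≤ 1) : RowLe (box N K 100 θ) 0 := by
  intro x
  exact (box_row N K 100 θ hθ1 x).trans (by linarith)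

theorem eh_v0 (k : ℕ) : vk 100 k ≠ 0 := by
  unfold vk
  have h6 : (1 : ℝ) ≤ ((2 ^ (39 * (100 + k)) : ℕ) : ℝ) := by exact_mod_cast Nat.one_le_two_pow
  generalize ((2 ^ (39 * (100 + k)) : ℕ) : ℝ) = X at h6 ⊢
  have : 0 < 1 / X ^ 2 := by positivity
  simpa using (ENNReal.ofReal_pos.2 this).ne'

theorem eh_v1 (k : ℕ) : vk 100 k ≤ 1 := by
  unfold vk
  have h6 : (1 : ℝ) ≤ ((2 ^ (39 * (100 + k)) : ℕ) : ℝ) := by exact_mod_cast Nat.one_le_two_pow
  generalize ((2 ^ (39 * (100 + k)) : ℕ) : ℝ) = X at h6 ⊢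
  have h7 : 1 / X ^ 2 ≤ 1 := by
    rw [div_le_one (by positivity)]
    nlinarith
  calc ENNReal.ofReal (1 / X ^ 2) ≤ ENNReal.ofReal 1 := ENNReal.ofReal_le_ofReal h7
    _ = 1 := ENNReal.ofReal_one

theorem eh_b1 (N K k0 k : ℕ) (w : BV N) : bk N K k0 k w ≤ 1 := by
  unfold bk
  split_ifs
  · exact le_refl _
  · exact zero_le

theorem eh_nu_sum (N K : ℕ) (θ : ℝ) (hθ0 : 0 < θ) (hθ1 : θ ≤ 1) :
    ∑ u : BV N, nu0 N K 100 θ u ≤ 1 := by
  refine le_trans (Finset.sum_le_sum fun u _ => ?_)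
    (Tb_row (box N K 100 θ) (eh_row N K θ hθ0 hθ1) (vk 100 0) (eh_v0 0) (eh_v1 0) (bo N))
  unfold nu0
  calc (box N K 100 θ).Tb (vk 100 0) (bo N) u * bk N K 100 0 u
      ≤ (box N K 100 θ).Tb (vk 100 0) (bo N) u * 1 := by
        gcongr
        exact eh_b1 N K 100 0 u
    _ = _ := mul_one _

open Classical in
/-- a bound for indicators -/
theorem eh_LB_bound (N K : ℕ) (θ : ℝ) (hθ0 : 0 < θ) (hθ1 : θ ≤ 1) (P : XB N → Prop)
    (c : ℝ≥0∞)
    (h : ∀ u, (box N K 100 θ).law (vk 100) (bk N K 100) K 0 u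
        (fun η => if P (u, η) then 1 else 0) ≤ c) :
    ∑' x : XB N, (if P x then LB N K θ x else 0) ≤ c := by
  rw [eh_LB_ind]
  calc ∑ u : BV N, nu0 N K 100 θ u * (box N K 100 θ).law (vk 100) (bk N K 100) K 0 u
        (fun η => if P (u, η) then 1 else 0)
      ≤ ∑ u : BV N, nu0 N K 100 θ u * c := by
        refine Finset.sum_le_sum fun u _ => ?_
        gcongr
        exact h u
    _ = (∑ u : BV N, nu0 N K 100 θ u) * c := by rw [Finset.sum_mul]
    _ ≤ 1 * c := by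
        gcongr
        exact eh_nu_sum N K θ hθ0 hθ1
    _ = c := one_mul c

open Classical in
theorem eh_marg (N K : ℕ) (θ : ℝ) (hθ0 : 0 < θ) (hθ1 : θ ≤ 1) (n : ℕ)
    (π : XB N → XB N → ℝ≥0∞) (hπ : ∀ x, ∑' y, π x y ≤ LB N K θ x) (a b : Z3)
    (s : Fin n → Stp) :
    ∑ t : Fin n → Stp, ∑' x : XB N, ∑' y : XB N, (if x.1.1 = a ∧ y.1.1 = b ∧
      (x.2.map (stpB N)).take n = List.ofFn s ∧ (y.2.map (stpB N)).take n = List.ofFn t
      then π x y else 0) ≤ ((6 : ℝ≥0∞)⁻¹) ^ n := by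
  rw [← Summable.tsum_finsetSum (fun i _ => ENNReal.summable)]
  refine le_trans (ENNReal.tsum_le_tsum (g := fun x : XB N =>
    if (x.2.map (stpB N)).take n = List.ofFn s then LB N K θ x else 0) fun x => ?_) ?_
  · rw [← Summable.tsum_finsetSum (fun i _ => ENNReal.summable)]
    by_cases hx : (x.2.map (stpB N)).take n = List.ofFn s
    · rw [if_pos hx]
      refine le_trans (ENNReal.tsum_le_tsum fun y => ?_) (hπ x)
      refine eh_sum_unique _ ?_ _
      rintro t1 t2 ⟨_, _, _, h1⟩ ⟨_, _, _, h2⟩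
      exact List.ofFn_injective (h1.symm.trans h2)
    · simp [hx]
  · refine le_trans (le_of_eq ?_) (eh_LB_bound N K θ hθ0 hθ1
      (fun x => (x.2.map (stpB N)).take n = List.ofFn s) (((6 : ℝ≥0∞)⁻¹) ^ n) fun u => ?_)
    · congr 1
      funext x
      congr 1
    have h := steps_law N K 100 θ hθ0.le hθ1 (vk 100) eh_v0 eh_v1 (bk N K 100)
      (fun k w => eh_b1 N K 100 k w) (List.ofFn s) u
    rw [List.length_ofFn] at h
    refine le_trans (le_of_eq ?_) h
    congr 1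
    funext η
    congr 1

theorem eh_short (N K : ℕ) (θ : ℝ) (hθ0 : 0 < θ) (hθ1 : θ ≤ 1) (n : ℕ)
    (π : XB N → XB N → ℝ≥0∞) (hπ : ∀ x, ∑' y, π x y ≤ LB N (K + 1) θ x) :
    ∑' x : XB N, ∑' y : XB N, (if x.2.length < n then π x y else 0)
      ≤ (n : ℝ≥0∞) * vk 100 (K + 1) := by
  classical
  refine le_trans (ENNReal.tsum_le_tsum (g := fun x : XB N =>
    if x.2.length < n then LB N (K + 1) θ x else 0) fun x => ?_) ?_
  · by_cases hx : x.2.length < n
    · simp only [hx, if_true]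
      exact hπ x
    · simp [hx]
  · refine le_trans (le_of_eq ?_) (eh_LB_bound N (K + 1) θ hθ0 hθ1
      (fun x => x.2.length < n) ((n : ℝ≥0∞) * vk 100 (K + 1)) fun u => ?_)
    · congr 1
      funext x
      congr 1
    · have h := law_short (box N (K + 1) 100 θ) (eh_row N (K + 1) θ hθ0 hθ1) (vk 100) eh_v0 eh_v1
        (bk N (K + 1) 100) (fun k w => eh_b1 N (K + 1) 100 k w) K 0 u n
      rw [Nat.zero_add] at h
      refine le_trans (le_of_eq ?_) h
      congr 1
      funext η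
      congr 1

theorem eh_pw_ne (N K : ℕ) (θ : ℝ) (hθ0 : 0 < θ) (hθ1 : θ ≤ 1) (x : XB N)
    (h : LB N K θ x ≠ 0) :
    (box N K 100 θ).pw x.1 x.2 ((box N K 100 θ).fin x.1 x.2) ≠ 0 := by
  classical
  intro h0
  apply h
  unfold LB
  have h1 := law_prefix (box N K 100 θ) (eh_row N K θ hθ0 hθ1) (vk 100) eh_v0 eh_v1
        (bk N K 100) (fun k w => eh_b1 N K 100 k w) K 0 x.1 x.2
  have h2 := law_mono (box N K 100 θ) (vk 100) (bk N K 100) K 0 x.1
    (fun η => if η = x.2 then 1 else 0) (fun η => if η.take x.2.length = x.2 then 1 else 0)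
    (fun η => by
      by_cases hη : η = x.2
      · subst hη
        simp
      · simp [hη])
  have h3 : (box N K 100 θ).law (vk 100) (bk N K 100) K 0 x.1
      (fun η => if η = x.2 then 1 else 0) = 0 := by
    refine le_antisymm (h2.trans ?_) zero_le
    rw [h0] at h1
    refine le_trans (le_of_eq ?_) h1
    congr 1
  rw [mul_eq_zero]
  right
  refine Eq.trans ?_ h3
  congr 1

theorem eh_nu_mem (N K : ℕ) (θ : ℝ) (x : XB N) (h : LB N K θ x ≠ 0) :
    nq x.1.1 ≤ 2 ^ 8000 := by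
  have h1 : nu0 N K 100 θ x.1 ≠ 0 := by
    intro h0
    apply h
    unfold LB
    rw [h0, zero_mul]
  have h2 : bk N K 100 0 x.1 ≠ 0 := by
    intro h0
    apply h1
    unfold nu0
    rw [h0, mul_zero]
  unfold bk at h2
  split_ifs at h2 with h3
  · have h4 := h3.2
    have e : 80 * (100 + 0) = 8000 := by norm_num
    rw [e] at h4
    exact h4
  · exact absurd rfl h2

/-! ## TARGETS -/

theorem vk_small (n : ℕ) : ∃ K : ℕ, (n : ℝ≥0∞) * vk 100 (K + 1) ≤ 1 / 16 := by
  refine ⟨n + 4, ?_⟩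
  unfold vk
  have h1 : (n : ℝ≥0∞) = ENNReal.ofReal (n : ℝ) := (ENNReal.ofReal_natCast n).symm
  have h2 : (1 / 16 : ℝ≥0∞) = ENNReal.ofReal (1 / 16) := by
    rw [ENNReal.ofReal_div_of_pos (by norm_num)]
    simp
  rw [h1, h2, ← ENNReal.ofReal_mul (by positivity)]
  apply ENNReal.ofReal_le_ofReal
  have h3 : n + 4 ≤ 39 * (100 + (n + 4 + 1)) := by omega
  generalize 39 * (100 + (n + 4 + 1)) = M at h3 ⊢
  have h4 : (16 * n : ℕ) ≤ 2 ^ M := by
    calc 16 * n ≤ 16 * 2 ^ n := Nat.mul_le_mul_left _ (Nat.lt_two_pow_self).le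
    _ = 2 ^ (n + 4) := by ring
    _ ≤ 2 ^ M := Nat.pow_le_pow_right (by norm_num) h3
  have h5 : (16 * n : ℝ) ≤ ((2 ^ M : ℕ) : ℝ) := by exact_mod_cast h4
  have h6 : (1 : ℝ) ≤ ((2 ^ M : ℕ) : ℝ) := by exact_mod_cast Nat.one_le_two_pow
  generalize ((2 ^ M : ℕ) : ℝ) = X at h5 h6 ⊢
  rw [mul_one_div, div_le_div_iff₀ (by positivity) (by norm_num)]
  nlinarith

/-- coupling of the first steps of the two walks -/
theorem extract (S : Finset Z3) (hS : ∀ a : Z3, nq a ≤ 2 ^ 8000 → a ∈ S) (n : ℕ) :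
    ∃ a ∈ S, ∃ b ∈ S, ∃ q : (Fin n → Stp) → (Fin n → Stp) → ℝ≥0∞,
      (∀ s, ∑ t, q s t ≤ ((6 : ℝ≥0∞)⁻¹) ^ n) ∧ (∀ t, ∑ s, q s t ≤ ((6 : ℝ≥0∞)⁻¹) ^ n) ∧
      (∀ s t, BadC a b n s t → q s t = 0) ∧
      1 / (8 * (S.card : ℝ≥0∞) ^ 2) ≤ ∑ s, ∑ t, q s t := by
  classical
  obtain ⟨K, hK⟩ := vk_small n
  obtain ⟨N, θ, hθ0, hθ1, π, hπ1, hπ2, hπ3, hπ4⟩ := box_coupling (K + 1) (by omega)
  set q : Z3 → Z3 → (Fin n → Stp) → (Fin n → Stp) → ℝ≥0∞ := fun a b s t =>
    ∑' x : XB N, ∑' y : XB N, (if x.1.1 = a ∧ y.1.1 = b ∧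
      (x.2.map (stpB N)).take n = List.ofFn s ∧ (y.2.map (stpB N)).take n = List.ofFn t
      then π x y else 0) with hq
  -- marginals
  have hm1 : ∀ a b s, ∑ t, q a b s t ≤ ((6 : ℝ≥0∞)⁻¹) ^ n := by
    intro a b s
    refine le_trans (le_of_eq ?_) (eh_marg N (K + 1) θ hθ0 hθ1 n π hπ1 a b s)
    rfl
  have hm2 : ∀ a b t, ∑ s, q a b s t ≤ ((6 : ℝ≥0∞)⁻¹) ^ n := by
    intro a b t
    refine le_trans (le_of_eq ?_)
      (eh_marg N (K + 1) θ hθ0 hθ1 n (fun y x => π x y) hπ2 b a t)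
    refine Finset.sum_congr rfl fun s _ => ?_
    rw [hq]
    change ∑' x : XB N, ∑' y : XB N, _ = _
    rw [ENNReal.tsum_comm]
    refine tsum_congr fun y => tsum_congr fun x => ?_
    by_cases h : x.1.1 = a ∧ y.1.1 = b ∧
      (x.2.map (stpB N)).take n = List.ofFn s ∧ (y.2.map (stpB N)).take n = List.ofFn t
    · rw [if_pos h, if_pos ⟨h.2.1, h.1, h.2.2.2, h.2.2.1⟩]
    · rw [if_neg h, if_neg]
      rintro ⟨h1, h2, h3, h4⟩
      exact h ⟨h2, h1, h4, h3⟩
  -- nonzero terms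
  have hL1 : ∀ x y, π x y ≠ 0 → LB N (K + 1) θ x ≠ 0 := by
    intro x y h h0
    have h1 : π x y ≤ LB N (K + 1) θ x := (ENNReal.le_tsum y).trans (hπ1 x)
    rw [h0] at h1
    exact h (le_antisymm h1 zero_le)
  have hL2 : ∀ x y, π x y ≠ 0 → LB N (K + 1) θ y ≠ 0 := by
    intro x y h h0
    have h1 : π x y ≤ LB N (K + 1) θ y :=
      (ENNReal.le_tsum (f := fun x => π x y) x).trans (hπ2 y)
    rw [h0] at h1
    exact h (le_antisymm h1 zero_le)
  have hbad : ∀ a b s t, BadC a b n s t → q a b s t = 0 := by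
    intro a b s t hB
    rw [hq]
    change ∑' x : XB N, ∑' y : XB N, _ = _
    rw [ENNReal.tsum_eq_zero]
    intro x
    rw [ENNReal.tsum_eq_zero]
    intro y
    by_cases h : x.1.1 = a ∧ y.1.1 = b ∧
      (x.2.map (stpB N)).take n = List.ofFn s ∧ (y.2.map (stpB N)).take n = List.ofFn t
    · rw [if_pos h]
      by_contra hne
      obtain ⟨ha, hb, hs, ht⟩ := h
      obtain ⟨i, j, hi, hj, hij⟩ := hB
      have hx := pos_walk N (K + 1) 100 θ x.1 x.2
        (eh_pw_ne N (K + 1) θ hθ0 hθ1 x (hL1 x y hne)) n s hs i hi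
      have hy := pos_walk N (K + 1) 100 θ y.1 y.2
        (eh_pw_ne N (K + 1) θ hθ0 hθ1 y (hL2 x y hne)) n t ht j hj
      rw [ha] at hx
      rw [hb] at hy
      have hxy : (box N (K + 1) 100 θ).fin x.1 (x.2.take i)
          = (box N (K + 1) 100 θ).fin y.1 (y.2.take j) := by
        apply Subtype.ext
        rw [hx, hy, hij]
      apply hne
      apply hπ3
      rw [Set.not_disjoint_iff]
      exact ⟨_, ⟨i, rfl⟩, ⟨j, hxy.symm⟩⟩
    · rw [if_neg h]
  -- mass
  have hmass : (1 : ℝ≥0∞) / 8 ≤ ∑ ab ∈ S ×ˢ S, ∑ s, ∑ t, q ab.1 ab.2 s t := by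
    have hs1 := (eh_short N K θ hθ0 hθ1 n π hπ1).trans hK
    have hs2 := (eh_short N K θ hθ0 hθ1 n (fun y x => π x y) hπ2).trans hK
    rw [ENNReal.tsum_comm] at hs2
    have hlong : ∑' x : XB N, ∑' y : XB N, (if n ≤ x.2.length ∧ n ≤ y.2.length then π x y else 0)
        ≤ ∑ ab ∈ S ×ˢ S, ∑ s, ∑ t, q ab.1 ab.2 s t := by
      have e : ∑ ab ∈ S ×ˢ S, ∑ s, ∑ t, q ab.1 ab.2 s t
          = ∑' x : XB N, ∑' y : XB N, ∑ ab ∈ S ×ˢ S, ∑ s : Fin n → Stp, ∑ t : Fin n → Stp,
            (if x.1.1 = ab.1 ∧ y.1.1 = ab.2 ∧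
            (x.2.map (stpB N)).take n = List.ofFn s ∧ (y.2.map (stpB N)).take n = List.ofFn t
            then π x y else 0) := by
        rw [hq]
        simp only [Summable.tsum_finsetSum (fun i _ => ENNReal.summable)]
      rw [e]
      refine ENNReal.tsum_le_tsum fun x => ENNReal.tsum_le_tsum fun y => ?_
      by_cases h : n ≤ x.2.length ∧ n ≤ y.2.length
      · rw [if_pos h]
        by_cases hne : π x y = 0
        · rw [hne]
          exact zero_le
        · obtain ⟨s, hs⟩ := eh_exists_ofFn n ((x.2.map (stpB N)).take n) (by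
            rw [List.length_take, List.length_map]
            exact min_eq_left h.1)
          obtain ⟨t, ht⟩ := eh_exists_ofFn n ((y.2.map (stpB N)).take n) (by
            rw [List.length_take, List.length_map]
            exact min_eq_left h.2)
          have hxS : x.1.1 ∈ S := hS _ (eh_nu_mem N (K + 1) θ x (hL1 x y hne))
          have hyS : y.1.1 ∈ S := hS _ (eh_nu_mem N (K + 1) θ y (hL2 x y hne))
          have hab : ((x.1.1, y.1.1) : Z3 × Z3) ∈ S ×ˢ S := Finset.mem_product.2 ⟨hxS, hyS⟩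
          refine le_trans ?_ (Finset.single_le_sum (f := fun ab : Z3 × Z3 =>
            ∑ s : Fin n → Stp, ∑ t : Fin n → Stp,
            (if x.1.1 = ab.1 ∧ y.1.1 = ab.2 ∧
            (x.2.map (stpB N)).take n = List.ofFn s ∧ (y.2.map (stpB N)).take n = List.ofFn t
            then π x y else 0)) (fun _ _ => zero_le) hab)
          refine le_trans ?_ (Finset.single_le_sum (f := fun s : Fin n → Stp =>
            ∑ t : Fin n → Stp,
            (if x.1.1 = x.1.1 ∧ y.1.1 = y.1.1 ∧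
            (x.2.map (stpB N)).take n = List.ofFn s ∧ (y.2.map (stpB N)).take n = List.ofFn t
            then π x y else 0)) (fun _ _ => zero_le) (Finset.mem_univ s))
          refine le_trans ?_ (Finset.single_le_sum (f := fun t : Fin n → Stp =>
            (if x.1.1 = x.1.1 ∧ y.1.1 = y.1.1 ∧
            (x.2.map (stpB N)).take n = List.ofFn s ∧ (y.2.map (stpB N)).take n = List.ofFn t
            then π x y else 0)) (fun _ _ => zero_le) (Finset.mem_univ t))
          rw [if_pos ⟨rfl, rfl, hs, ht⟩]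
      · rw [if_neg h]
        exact zero_le
    refine le_trans ?_ hlong
    have hsplit : ∑' x : XB N, ∑' y : XB N, π x y ≤
        (∑' x : XB N, ∑' y : XB N, (if x.2.length < n then π x y else 0)) +
        (∑' x : XB N, ∑' y : XB N, (if y.2.length < n then π x y else 0)) +
        ∑' x : XB N, ∑' y : XB N, (if n ≤ x.2.length ∧ n ≤ y.2.length then π x y else 0) := by
      rw [← ENNReal.tsum_add, ← ENNReal.tsum_add]
      refine ENNReal.tsum_le_tsum fun x => ?_
      rw [← ENNReal.tsum_add, ← ENNReal.tsum_add]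
      refine ENNReal.tsum_le_tsum fun y => ?_
      by_cases h1 : x.2.length < n
      · rw [if_pos h1, add_assoc]
        exact le_self_add
      · by_cases h2 : y.2.length < n
        · rw [if_pos h2, add_comm (ite _ _ _) (π x y), add_assoc]
          exact le_self_add
        · rw [if_pos (⟨not_lt.1 h1, not_lt.1 h2⟩ : n ≤ x.2.length ∧ n ≤ y.2.length)]
          exact le_add_self
    have h5 : (1 : ℝ≥0∞) / 4 ≤ 1 / 16 + 1 / 16 +
        ∑' x : XB N, ∑' y : XB N, (if n ≤ x.2.length ∧ n ≤ y.2.length then π x y else 0) :=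
      (hπ4.trans hsplit).trans (by gcongr)
    generalize (∑' x : XB N, ∑' y : XB N,
      (if n ≤ x.2.length ∧ n ≤ y.2.length then π x y else 0)) = L at h5
    have h6 : (1 : ℝ≥0∞) / 16 + 1 / 16 = 1 / 8 := by
      rw [← ENNReal.toReal_eq_toReal_iff' (by simp) (by simp)]
      rw [ENNReal.toReal_add (by simp) (by simp)]
      norm_num
    have h7 : (1 : ℝ≥0∞) / 8 + 1 / 8 = 1 / 4 := by
      rw [← ENNReal.toReal_eq_toReal_iff' (by simp) (by simp)]
      rw [ENNReal.toReal_add (by simp) (by simp)]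
      norm_num
    rw [h6, ← h7] at h5
    exact (ENNReal.add_le_add_iff_left (by simp)).1 h5
  -- pigeonhole
  have h0S : (0 : Z3) ∈ S := by
    apply hS
    have h0 : nq 0 = 0 := by simp [nq]
    rw [h0]
    positivity
  have hne : (S ×ˢ S).Nonempty := ⟨(0, 0), Finset.mem_product.2 ⟨h0S, h0S⟩⟩
  have hcard : (S.card : ℝ≥0∞) ≠ 0 := by
    have : S.card ≠ 0 := Finset.card_ne_zero_of_mem h0S
    exact_mod_cast this
  have hsum : ∑ _ab ∈ S ×ˢ S, (1 / (8 * (S.card : ℝ≥0∞) ^ 2)) = 1 / 8 := by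
    rw [Finset.sum_const, Finset.card_product, nsmul_eq_mul, Nat.cast_mul]
    have hct : (S.card : ℝ≥0∞) ≠ ⊤ := ENNReal.natCast_ne_top _
    generalize (S.card : ℝ≥0∞) = c at hcard hct
    rw [one_div, ENNReal.mul_inv (by simp) (by simp), mul_comm (8⁻¹ : ℝ≥0∞), ← mul_assoc, ← sq,
      ENNReal.mul_inv_cancel (pow_ne_zero 2 hcard) (ENNReal.pow_ne_top hct), one_mul, one_div]
  obtain ⟨ab, hab, hle⟩ := ENNReal.exists_le_of_sum_le hne (hsum.le.trans hmass)
  rw [Finset.mem_product] at hab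
  exact ⟨ab.1, hab.1, ab.2, hab.2, q ab.1 ab.2, hm1 _ _, hm2 _ _, hbad _ _, hle⟩

end Pool.Agent.Helper41.GF
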