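import Mathlib

set_option autoImplicit false

open scoped ENNReal
open MeasureTheory

namespace Pool.Agent.Helper41.GF

/-- prefix -/
def ML_pre {A : Type} (n : ℕ) (u : ℕ → A) : Fin n → A := fun i => u i

/-- extension by a constant -/
def ML_ext {A : Type} (a0 : A) (n : ℕ) (x : Fin n → A) : ℕ → A :=
  fun i => if h : i < n then x ⟨i, h⟩ else a0

theorem ML_pre_ext {A : Type} (a0 : A) {m n : ℕ} (h : m ≤ n) (x : Fin n → A) :
    ML_pre m (ML_ext a0 n x) = fun i => x (Fin.castLE h i) := by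
  funext i
  unfold ML_pre ML_ext
  rw [dif_pos (lt_of_lt_of_le i.2 h)]
  rfl

theorem ML_bad {A : Type} (Bad : (n : ℕ) → (Fin n → A) → (Fin n → A) → Prop)
    (hmono : ∀ n (x y : Fin (n + 1) → A),
      Bad n (fun i => x i.castSucc) (fun i => y i.castSucc) → Bad (n + 1) x y)
    {m n : ℕ} (h : m ≤ n) (x y : Fin n → A)
    (hb : Bad m (fun i => x (Fin.castLE h i)) (fun i => y (Fin.castLE h i))) : Bad n x y := by
  induction n, h using Nat.le_induction with
  | base => exact hb
  | succ n hmn ih =>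
    apply hmono
    apply ih
    exact hb

theorem ML_dom {A : Type} [Fintype A] [TopologicalSpace A] [DiscreteTopology A]
    [MeasurableSpace A] [BorelSpace A] (α β : Measure (ℕ → A)) [IsFiniteMeasure β]
    (h : ∀ m (x : Fin m → A), α (ML_pre m ⁻¹' {x}) ≤ β (ML_pre m ⁻¹' {x})) : α ≤ β := by
  classical
  have hmeas : ∀ m, Measurable (ML_pre m : (ℕ → A) → (Fin m → A)) := by
    intro m; unfold ML_pre; fun_prop
  have hT : ∀ m (T : Set (Fin m → A)), α (ML_pre m ⁻¹' T) ≤ β (ML_pre m ⁻¹' T) := by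
    intro m T
    have e1 := sum_measure_preimage_singleton (μ := α) T.toFinite.toFinset (f := ML_pre m)
      (fun y _ => hmeas m (measurableSet_singleton y))
    have e2 := sum_measure_preimage_singleton (μ := β) T.toFinite.toFinset (f := ML_pre m)
      (fun y _ => hmeas m (measurableSet_singleton y))
    rw [Set.Finite.coe_toFinset] at e1 e2
    rw [← e1, ← e2]
    exact Finset.sum_le_sum (fun x _ => h m x)
  have hO : ∀ O : Set (ℕ → A), IsOpen O → α O ≤ β O := by
    intro O hO
    set C : ℕ → Set (ℕ → A) := fun m => ML_pre m ⁻¹' {x | ML_pre m ⁻¹' {x} ⊆ O} with hC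
    have hCm : Monotone C := by
      intro m m' hmm u hu
      simp only [hC, Set.mem_preimage, Set.mem_ofPred_eq] at hu ⊢
      intro v hv
      apply hu
      simp only [Set.mem_preimage, Set.mem_singleton_iff] at hv ⊢
      funext i
      exact congrFun hv (Fin.castLE hmm i)
    have hCU : ⋃ m, C m = O := by
      apply Set.Subset.antisymm
      · intro u hu
        obtain ⟨m, hm⟩ := Set.mem_iUnion.1 hu
        exact hm (show ML_pre m u = ML_pre m u from rfl)
      · intro u hu
        obtain ⟨I, w, hw, hI⟩ := isOpen_pi_iff.1 hO u hu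
        refine Set.mem_iUnion.2 ⟨I.sup id + 1, ?_⟩
        intro v hv
        apply hI
        intro i hi
        have hlt : i < I.sup id + 1 := Nat.lt_succ_of_le (Finset.le_sup (f := id) hi)
        have : v i = u i := congrFun hv ⟨i, hlt⟩
        rw [this]
        exact (hw i hi).2
    rw [← hCU, hCm.measure_iUnion]
    exact iSup_le (fun m => (hT m _).trans (measure_mono (Set.subset_iUnion C m)))
  rw [Measure.le_iff]
  intro S _
  rw [Set.measure_eq_iInf_isOpen S β]
  exact le_iInf fun U => le_iInf fun hSU => le_iInf fun hU => (measure_mono hSU).trans (hO U hU)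

/-- the finite level measure -/
noncomputable def ML_pi {A : Type} [Fintype A] [DecidableEq A] [MeasurableSpace A] (a0 : A) (n : ℕ)
    (q : (Fin n → A) → (Fin n → A) → ℝ≥0∞) : Measure ((ℕ → A) × (ℕ → A)) :=
  ∑ x, ∑ y, q x y • Measure.dirac (ML_ext a0 n x, ML_ext a0 n y)

theorem ML_pi_apply {A : Type} [Fintype A] [DecidableEq A] [MeasurableSpace A] (a0 : A) (n : ℕ)
    (q : (Fin n → A) → (Fin n → A) → ℝ≥0∞) {K : Set ((ℕ → A) × (ℕ → A))} (hK : MeasurableSet K) :
    ML_pi a0 n q K = ∑ x, ∑ y, q x y * K.indicator 1 (ML_ext a0 n x, ML_ext a0 n y) := by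
  unfold ML_pi
  rw [Measure.finsetSum_apply]
  apply Finset.sum_congr rfl
  intro x _
  rw [Measure.finsetSum_apply]
  apply Finset.sum_congr rfl
  intro y _
  rw [Measure.smul_apply, Measure.dirac_apply' _ hK, smul_eq_mul]

theorem ML_cyl {A : Type} [Fintype A] [Nonempty A] [DecidableEq A] [MeasurableSpace A]
    [MeasurableSingletonClass A] (a0 : A) (lam : Measure A) [IsProbabilityMeasure lam]
    (hlam : ∀ a, lam {a} = (Fintype.card A : ℝ≥0∞)⁻¹) (n : ℕ) (x : Fin n → A) :
    Measure.infinitePi (fun _ : ℕ => lam) (ML_pre n ⁻¹' {x}) = ((Fintype.card A : ℝ≥0∞)⁻¹) ^ n := by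
  have h1 : (ML_pre n ⁻¹' {x} : Set (ℕ → A))
      = Set.pi (Finset.range n : Set ℕ) (fun i => {ML_ext a0 n x i}) := by
    ext u
    simp only [Set.mem_preimage, Set.mem_singleton_iff, Set.mem_pi, Finset.coe_range, Set.mem_Iio]
    constructor
    · intro h i hi
      rw [← h]
      unfold ML_ext ML_pre
      rw [dif_pos hi]
    · intro h
      funext i
      have := h i i.2
      unfold ML_ext at this
      rw [dif_pos i.2] at this
      exact this
  rw [h1, Measure.infinitePi_pi _ (fun i _ => measurableSet_singleton _)]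
  simp [hlam]

theorem ML_row {A : Type} [Fintype A] [Nonempty A] [DecidableEq A] [MeasurableSpace A]
    [MeasurableSingletonClass A] (a0 : A) (lam : Measure A) [IsProbabilityMeasure lam]
    (hlam : ∀ a, lam {a} = (Fintype.card A : ℝ≥0∞)⁻¹) (n : ℕ)
    (c : (Fin n → A) → ℝ≥0∞)
    (hc : ∀ x, c x ≤ ((Fintype.card A : ℝ≥0∞)⁻¹) ^ n) {m : ℕ} (hmn : m ≤ n) (x : Fin m → A) :
    ∑ x', c x' * (ML_pre m ⁻¹' {x}).indicator 1 (ML_ext a0 n x')
      ≤ Measure.infinitePi (fun _ : ℕ => lam) (ML_pre m ⁻¹' {x}) := by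
  classical
  have hmeas : ∀ m, Measurable (ML_pre m : (ℕ → A) → (Fin m → A)) := by
    intro m; unfold ML_pre; fun_prop
  set T : Finset (Fin n → A) := Finset.univ.filter (fun x' => ML_pre m (ML_ext a0 n x') = x) with hT
  have e2 := sum_measure_preimage_singleton (μ := Measure.infinitePi (fun _ : ℕ => lam)) T
    (f := ML_pre n) (fun y _ => hmeas n (measurableSet_singleton y))
  calc ∑ x', c x' * (ML_pre m ⁻¹' {x}).indicator 1 (ML_ext a0 n x')
      = ∑ x' ∈ T, c x' := by
        rw [hT, Finset.sum_filter]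
        apply Finset.sum_congr rfl
        intro x' _
        by_cases h : ML_pre m (ML_ext a0 n x') = x
        · rw [if_pos h, Set.indicator_of_mem (show ML_ext a0 n x' ∈ ML_pre m ⁻¹' {x} from h)]
          simp
        · rw [if_neg h, Set.indicator_of_notMem (show ML_ext a0 n x' ∉ ML_pre m ⁻¹' {x} from h),
            mul_zero]
    _ ≤ ∑ x' ∈ T, Measure.infinitePi (fun _ : ℕ => lam) (ML_pre n ⁻¹' {x'}) := by
        apply Finset.sum_le_sum
        intro x' _
        rw [ML_cyl a0 lam hlam]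
        exact hc x'
    _ = Measure.infinitePi (fun _ : ℕ => lam) (ML_pre n ⁻¹' T) := e2
    _ ≤ _ := by
        apply measure_mono
        intro u hu
        have h1 : ML_pre n u ∈ T := hu
        rw [hT, Finset.mem_filter] at h1
        have h2 := h1.2
        rw [ML_pre_ext a0 hmn] at h2
        exact h2

theorem limit_coupling {A : Type} [Fintype A] [Nonempty A] [DecidableEq A] [MeasurableSpace A]
    [MeasurableSingletonClass A] (lam : Measure A) [IsProbabilityMeasure lam]
    (hlam : ∀ a, lam {a} = (Fintype.card A : ℝ≥0∞)⁻¹)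
    (Bad : (n : ℕ) → (Fin n → A) → (Fin n → A) → Prop)
    (hmono : ∀ n (x y : Fin (n + 1) → A),
      Bad n (fun i => x i.castSucc) (fun i => y i.castSucc) → Bad (n + 1) x y)
    (p : ℝ≥0∞) (hp : 0 < p)
    (h : ∀ n, ∃ q : (Fin n → A) → (Fin n → A) → ℝ≥0∞,
      (∀ x, ∑ y, q x y ≤ ((Fintype.card A : ℝ≥0∞)⁻¹) ^ n) ∧
      (∀ y, ∑ x, q x y ≤ ((Fintype.card A : ℝ≥0∞)⁻¹) ^ n) ∧
      (∀ x y, Bad n x y → q x y = 0) ∧ p ≤ ∑ x, ∑ y, q x y) :
    ∃ π : Measure ((ℕ → A) × (ℕ → A)),
      π.map Prod.fst ≤ Measure.infinitePi (fun _ : ℕ => lam) ∧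
      π.map Prod.snd ≤ Measure.infinitePi (fun _ : ℕ => lam) ∧
      0 < π Set.univ ∧
      ∀ n, π {ω | Bad n (fun i : Fin n => ω.1 i) (fun i : Fin n => ω.2 i)} = 0 := by
  classical
  let _ : TopologicalSpace A := ⊥
  have _ : DiscreteTopology A := ⟨rfl⟩
  have _ : BorelSpace A := inferInstance
  let a0 : A := Classical.arbitrary A
  choose q hq1 hq2 hq3 hq4 using h
  have hcont : ∀ m, Continuous (ML_pre m : (ℕ → A) → (Fin m → A)) := by
    intro m; unfold ML_pre; fun_prop
  have hfst : ∀ m (x : Fin m → A), IsClopen {ω : (ℕ → A) × (ℕ → A) | ML_pre m ω.1 = x} := by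
    intro m x
    have : {ω : (ℕ → A) × (ℕ → A) | ML_pre m ω.1 = x}
        = (fun ω : (ℕ → A) × (ℕ → A) => ML_pre m ω.1) ⁻¹' {x} := rfl
    rw [this]
    exact (isClopen_discrete _).preimage ((hcont m).comp continuous_fst)
  have hsnd : ∀ m (x : Fin m → A), IsClopen {ω : (ℕ → A) × (ℕ → A) | ML_pre m ω.2 = x} := by
    intro m x
    have : {ω : (ℕ → A) × (ℕ → A) | ML_pre m ω.2 = x}
        = (fun ω : (ℕ → A) × (ℕ → A) => ML_pre m ω.2) ⁻¹' {x} := rfl
    rw [this]
    exact (isClopen_discrete _).preimage ((hcont m).comp continuous_snd)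
  have hbad : ∀ m, IsClopen {ω : (ℕ → A) × (ℕ → A) | Bad m (ML_pre m ω.1) (ML_pre m ω.2)} := by
    intro m
    have : {ω : (ℕ → A) × (ℕ → A) | Bad m (ML_pre m ω.1) (ML_pre m ω.2)}
        = (fun ω : (ℕ → A) × (ℕ → A) => (ML_pre m ω.1, ML_pre m ω.2)) ⁻¹'
          {z | Bad m z.1 z.2} := rfl
    rw [this]
    exact (isClopen_discrete _).preimage
      (((hcont m).comp continuous_fst).prodMk ((hcont m).comp continuous_snd))
  set Q : ℕ → Measure ((ℕ → A) × (ℕ → A)) := fun n => ML_pi a0 n (q n) with hQ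
  have hrow : ∀ m n (_ : m ≤ n) (x : Fin m → A), Q n {ω | ML_pre m ω.1 = x}
      ≤ Measure.infinitePi (fun _ : ℕ => lam) (ML_pre m ⁻¹' {x}) := by
    intro m n hmn x
    refine le_trans (le_of_eq ?_) (ML_row a0 lam hlam n (fun x' => ∑ y, q n x' y) (hq1 n) hmn x)
    rw [hQ]
    simp only
    rw [ML_pi_apply _ _ _ (hfst m x).1.measurableSet]
    apply Finset.sum_congr rfl
    intro x' _
    rw [Finset.sum_mul]
    apply Finset.sum_congr rfl
    intro y _
    congr 1
  have hcol : ∀ m n (_ : m ≤ n) (x : Fin m → A), Q n {ω | ML_pre m ω.2 = x}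
      ≤ Measure.infinitePi (fun _ : ℕ => lam) (ML_pre m ⁻¹' {x}) := by
    intro m n hmn x
    refine le_trans (le_of_eq ?_) (ML_row a0 lam hlam n (fun x' => ∑ y, q n y x') (hq2 n) hmn x)
    rw [hQ]
    simp only
    rw [ML_pi_apply _ _ _ (hsnd m x).1.measurableSet, Finset.sum_comm]
    apply Finset.sum_congr rfl
    intro x' _
    rw [Finset.sum_mul]
    apply Finset.sum_congr rfl
    intro y _
    congr 1
  have hbd : ∀ m n (_ : m ≤ n), Q n {ω | Bad m (ML_pre m ω.1) (ML_pre m ω.2)} = 0 := by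
    intro m n hmn
    rw [hQ]
    simp only
    rw [ML_pi_apply _ _ _ (hbad m).1.measurableSet]
    apply Finset.sum_eq_zero
    intro x _
    apply Finset.sum_eq_zero
    intro y _
    by_cases hb : Bad n x y
    · rw [hq3 n x y hb, zero_mul]
    · rw [Set.indicator_of_notMem, mul_zero]
      intro hb'
      apply hb
      apply ML_bad Bad hmono hmn
      have hb2 : Bad m (ML_pre m (ML_ext a0 n x)) (ML_pre m (ML_ext a0 n y)) := hb'
      rw [ML_pre_ext a0 hmn, ML_pre_ext a0 hmn] at hb2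
      exact hb2
  have huniv : ∀ n, p ≤ Q n Set.univ := by
    intro n
    rw [hQ]
    simp only
    rw [ML_pi_apply _ _ _ MeasurableSet.univ]
    simpa using hq4 n
  have huniv1 : ∀ n, Q n Set.univ ≤ 1 := by
    intro n
    have h1 := hrow 0 n (Nat.zero_le n) (fun i => i.elim0)
    have h2 : {ω : (ℕ → A) × (ℕ → A) | ML_pre 0 ω.1 = fun i => i.elim0} = Set.univ := by
      ext ω
      simp only [Set.mem_ofPred_eq, Set.mem_univ, iff_true]
      exact Subsingleton.elim _ _
    rw [h2] at h1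
    exact h1.trans prob_le_one
  have hne0 : ∀ n, Q n Set.univ ≠ 0 := fun n => (lt_of_lt_of_le hp (huniv n)).ne'
  have hneT : ∀ n, Q n Set.univ ≠ ⊤ := fun n => ((huniv1 n).trans_lt ENNReal.one_lt_top).ne
  let P : ℕ → ProbabilityMeasure ((ℕ → A) × (ℕ → A)) := fun n =>
    ⟨(Q n Set.univ)⁻¹ • Q n, ⟨by
      rw [Measure.smul_apply, smul_eq_mul, ENNReal.inv_mul_cancel (hne0 n) (hneT n)]⟩⟩
  let U : Ultrafilter ℕ := Filter.hyperfilter ℕ
  obtain ⟨P', -, hP'⟩ := isCompact_univ.ultrafilter_le_nhds (U.map P) (by simp)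
  obtain ⟨M, -, hM'⟩ := isCompact_univ.ultrafilter_le_nhds (U.map (fun n => Q n Set.univ)) (by simp)
  have hP : Filter.Tendsto P U (nhds P') := hP'
  have hM : Filter.Tendsto (fun n => Q n Set.univ) U (nhds M) := hM'
  have hge : ∀ m : ℕ, ∀ᶠ n in (U : Filter ℕ), m ≤ n := by
    intro m
    exact Nat.hyperfilter_le_atTop (Filter.eventually_ge_atTop m)
  have hpM : p ≤ M := ge_of_tendsto hM (Filter.Eventually.of_forall huniv)
  have hM1 : M ≤ 1 := le_of_tendsto hM (Filter.Eventually.of_forall huniv1)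
  have hMT : M ≠ ⊤ := (hM1.trans_lt ENNReal.one_lt_top).ne
  have hM0 : M ≠ 0 := (lt_of_lt_of_le hp hpM).ne'
  have hlim : ∀ K : Set ((ℕ → A) × (ℕ → A)), IsClopen K →
      Filter.Tendsto (fun n => Q n K) U (nhds ((M • (P' : Measure ((ℕ → A) × (ℕ → A)))) K)) := by
    intro K hK
    have h1 := ProbabilityMeasure.tendsto_measure_of_null_frontier_of_tendsto' hP (E := K)
      (by rw [hK.frontier_eq]; simp)
    have h2 := ENNReal.Tendsto.mul hM (Or.inl hM0) h1 (Or.inr hMT)
    rw [Measure.smul_apply, smul_eq_mul]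
    refine h2.congr ?_
    intro n
    change Q n Set.univ * ((Q n Set.univ)⁻¹ • Q n) K = Q n K
    rw [Measure.smul_apply, smul_eq_mul, ← mul_assoc, ENNReal.mul_inv_cancel (hne0 n) (hneT n),
      one_mul]
  refine ⟨M • (P' : Measure ((ℕ → A) × (ℕ → A))), ?_, ?_, ?_, ?_⟩
  · apply ML_dom
    intro m x
    rw [Measure.map_apply measurable_fst
      ((isClopen_discrete ({x} : Set (Fin m → A))).preimage (hcont m)).1.measurableSet]
    refine le_of_tendsto (hlim {ω | ML_pre m ω.1 = x} (hfst m x)) ?_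
    filter_upwards [hge m] with n hn
    exact hrow m n hn x
  · apply ML_dom
    intro m x
    rw [Measure.map_apply measurable_snd
      ((isClopen_discrete ({x} : Set (Fin m → A))).preimage (hcont m)).1.measurableSet]
    refine le_of_tendsto (hlim {ω | ML_pre m ω.2 = x} (hsnd m x)) ?_
    filter_upwards [hge m] with n hn
    exact hcol m n hn x
  · rw [Measure.smul_apply, smul_eq_mul, measure_univ, mul_one]
    exact pos_iff_ne_zero.2 hM0
  · intro m
    have h1 := hlim _ (hbad m)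
    have h2 : (M • (P' : Measure ((ℕ → A) × (ℕ → A)))) {ω | Bad m (ML_pre m ω.1) (ML_pre m ω.2)}
        ≤ 0 := by
      refine le_of_tendsto h1 ?_
      filter_upwards [hge m] with n hn
      exact (hbd m n hn).le
    exact le_antisymm h2 bot_le

end Pool.Agent.Helper41.GF
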