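import Pool.Agent.Helper41.GF.Defs

set_option autoImplicit false

open scoped ENNReal Nat
open Finset

namespace Pool.Agent.Helper41.GF

namespace GG

variable {V E H : Type} [Fintype V] [DecidableEq V] [Fintype E] [DecidableEq E] [Fintype H]
  [DecidableEq H]

end GG

variable {V E H : Type} [Fintype V] [DecidableEq V] [Fintype E] [DecidableEq E] [Fintype H]
  [DecidableEq H]

/-- product weight of a current -/
noncomputable def W (G : GG V E H) (n : E ⊕ H → ℕ) : ℝ≥0∞ :=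
  ∏ e, (G.wt e : ℝ≥0∞) ^ (n e) / ((n e)! : ℝ≥0∞)

/-- radial weight with sources `S` -/
noncomputable def A (G : GG V E H) (Ga : ℕ → ℝ≥0∞) (S : V → ℕ) (n : E ⊕ H → ℕ) : ℝ≥0∞ :=
  if ∀ x, Even (deg G.inc n x + S x) then ∏ x, Ga (deg G.inc n x + S x) else 0

/-- indicator of a vertex -/
def sgx (x : V) : V → ℕ := fun y => if y = x then 1 else 0

/-- auxiliary radial weight -/
noncomputable def Bx (G : GG V E H) (Ga : ℕ → ℝ≥0∞) (x : V) (n : E ⊕ H → ℕ) : ℝ≥0∞ :=
  if ∀ y, Even (deg G.inc n y + sgx x y) then ∏ y, Ga (deg G.inc n y - sgx x y) else 0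

/-- the current of a list of darts -/
def cur (l : List (E × Bool)) : E ⊕ H → ℕ :=
  (l.map (fun d => (Pi.single (Sum.inl d.1) 1 : E ⊕ H → ℕ))).sum

theorem Phi_eq (G : GG V E H) (Ga : ℕ → ℝ≥0∞) (n : E ⊕ H → ℕ) :
    G.Phi Ga n = W G n * A G Ga 0 n := by
  unfold GG.Phi W A
  simp only [Pi.zero_apply, add_zero]
  split_ifs
  · rfl
  · rw [mul_zero]

theorem deg_add (G : GG V E H) (n : E ⊕ H → ℕ) (i : E ⊕ H) (x : V) :
    deg G.inc (n + Pi.single i 1) x = deg G.inc n x + (if x ∈ G.inc i then 1 else 0) := by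
  unfold deg
  have h1 : ∀ e : E ⊕ H, (if x ∈ G.inc e then (n + (Pi.single i 1 : E ⊕ H → ℕ)) e else 0) =
      (if x ∈ G.inc e then n e else 0) + (if e = i then (if x ∈ G.inc i then 1 else 0) else 0) := by
    intro e
    by_cases he : e = i
    · subst he
      by_cases hx : x ∈ G.inc e
      · simp [hx]
      · simp [hx]
    · simp [he]
  simp only [h1]
  rw [Finset.sum_add_distrib, Finset.sum_ite_eq' Finset.univ i]
  simp

theorem factor_succ (w : ℝ≥0∞) (k : ℕ) :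
    ((k + 1 : ℕ) : ℝ≥0∞) * (w ^ (k + 1) / ((k + 1)! : ℝ≥0∞)) = w * (w ^ k / (k ! : ℝ≥0∞)) := by
  have h1 : ((k + 1 : ℕ) : ℝ≥0∞) ≠ 0 := by exact_mod_cast Nat.succ_ne_zero k
  have h2 : ((k + 1 : ℕ) : ℝ≥0∞) ≠ ∞ := ENNReal.natCast_ne_top _
  rw [Nat.factorial_succ, Nat.cast_mul, div_eq_mul_inv, div_eq_mul_inv,
    ENNReal.mul_inv (Or.inl h1) (Or.inl h2), pow_succ]
  calc ((k + 1 : ℕ) : ℝ≥0∞) * (w ^ k * w * (((k + 1 : ℕ) : ℝ≥0∞)⁻¹ * (k ! : ℝ≥0∞)⁻¹))
      = (((k + 1 : ℕ) : ℝ≥0∞) * ((k + 1 : ℕ) : ℝ≥0∞)⁻¹) * (w * (w ^ k * (k ! : ℝ≥0∞)⁻¹)) := by ring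
    _ = w * (w ^ k * (k ! : ℝ≥0∞)⁻¹) := by rw [ENNReal.mul_inv_cancel h1 h2, one_mul]

theorem W_add (G : GG V E H) (n : E ⊕ H → ℕ) (i : E ⊕ H) :
    ((n i + 1 : ℕ) : ℝ≥0∞) * W G (n + Pi.single i 1) = (G.wt i : ℝ≥0∞) * W G n := by
  unfold W
  rw [← Finset.mul_prod_erase Finset.univ _ (Finset.mem_univ i),
    ← Finset.mul_prod_erase Finset.univ (fun e => (G.wt e : ℝ≥0∞) ^ (n e) / ((n e)! : ℝ≥0∞))
      (Finset.mem_univ i)]
  have h1 : (n + (Pi.single i 1 : E ⊕ H → ℕ)) i = n i + 1 := by simp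
  rw [h1, ← mul_assoc, factor_succ, mul_assoc]
  congr 2
  refine Finset.prod_congr rfl fun e he => ?_
  have hne : e ≠ i := Finset.ne_of_mem_erase he
  have h2 : (n + (Pi.single i 1 : E ⊕ H → ℕ)) e = n e := by simp [hne]
  rw [h2]

theorem shift (G : GG V E H) (i : E ⊕ H) (K : (E ⊕ H → ℕ) → ℝ≥0∞) :
    ∑' n : E ⊕ H → ℕ, (n i : ℝ≥0∞) * (W G n * K n) =
      (G.wt i : ℝ≥0∞) * ∑' n : E ⊕ H → ℕ, W G n * K (n + Pi.single i 1) := by
  have hinj : Function.Injective (fun n : E ⊕ H → ℕ => n + Pi.single i 1) :=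
    add_left_injective _
  have hsupp : Function.support (fun n : E ⊕ H → ℕ => (n i : ℝ≥0∞) * (W G n * K n)) ⊆
      Set.range (fun n : E ⊕ H → ℕ => n + Pi.single i 1) := by
    intro n hn
    rw [Function.mem_support] at hn
    have hni : n i ≠ 0 := by
      intro h
      apply hn
      rw [h]
      simp
    refine ⟨n - Pi.single i 1, ?_⟩
    funext e
    by_cases he : e = i
    · subst he
      simp only [Pi.add_apply, Pi.sub_apply, Pi.single_eq_same]
      omega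
    · simp [he]
  rw [← hinj.tsum_eq hsupp, ← ENNReal.tsum_mul_left]
  congr 1
  funext n
  have h1 : (n + (Pi.single i 1 : E ⊕ H → ℕ)) i = n i + 1 := by simp
  rw [h1, ← mul_assoc, W_add, mul_assoc]

theorem A_sg (G : GG V E H) (Ga : ℕ → ℝ≥0∞)
    (hGa : ∀ d, Even d → Ga (d + 2) = ((d : ℝ≥0∞) + 1) * Ga d) (x : V) (n : E ⊕ H → ℕ) :
    A G Ga (sgx x) n = (deg G.inc n x : ℝ≥0∞) * Bx G Ga x n := by
  unfold A Bx
  by_cases h : ∀ y, Even (deg G.inc n y + sgx x y)
  · rw [if_pos h, if_pos h]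
    rw [← Finset.mul_prod_erase Finset.univ (fun y => Ga (deg G.inc n y + sgx x y))
        (Finset.mem_univ x),
      ← Finset.mul_prod_erase Finset.univ (fun y => Ga (deg G.inc n y - sgx x y))
        (Finset.mem_univ x), ← mul_assoc]
    congr 1
    · have hx := h x
      simp only [sgx, if_true] at hx ⊢
      obtain ⟨d, hd⟩ : ∃ d, deg G.inc n x = d + 1 := by
        rcases Nat.eq_zero_or_pos (deg G.inc n x) with h0 | h0
        · rw [h0] at hx
          exact absurd hx (by decide)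
        · exact ⟨deg G.inc n x - 1, by omega⟩
      rw [hd] at hx ⊢
      have hde : Even d := by
        rcases hx with ⟨k, hk⟩
        exact ⟨k - 1, by omega⟩
      have := hGa d hde
      rw [Nat.add_sub_cancel, show d + 1 + 1 = d + 2 from rfl, this]
      push_cast
      rfl
    · refine Finset.prod_congr rfl fun y hy => ?_
      have hne : y ≠ x := Finset.ne_of_mem_erase hy
      simp [sgx, hne]
  · rw [if_neg h, if_neg h, mul_zero]

theorem Bx_shift (G : GG V E H) (Ga : ℕ → ℝ≥0∞) (x : V) (i : E ⊕ H) (c : V → ℕ)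
    (hc : ∀ y, (if y ∈ G.inc i then 1 else 0) = sgx x y + c y) (n : E ⊕ H → ℕ) :
    Bx G Ga x (n + Pi.single i 1) = A G Ga c n := by
  unfold A Bx
  have h1 : ∀ y, deg G.inc (n + Pi.single i 1) y = deg G.inc n y + (sgx x y + c y) := by
    intro y
    rw [deg_add, hc]
  have h2 : (∀ y, Even (deg G.inc (n + Pi.single i 1) y + sgx x y)) ↔
      ∀ y, Even (deg G.inc n y + c y) := by
    refine forall_congr' fun y => ?_
    rw [h1, show deg G.inc n y + (sgx x y + c y) + sgx x y =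
      (deg G.inc n y + c y) + 2 * sgx x y by ring]
    rw [Nat.even_add]
    simp
  have h3 : ∀ y, deg G.inc (n + Pi.single i 1) y - sgx x y = deg G.inc n y + c y := by
    intro y
    rw [h1]
    omega
  simp only [h2, h3]

theorem ds_ne_dt (G : GG V E H) (d : E × Bool) : G.ds d ≠ G.dt d := by
  unfold GG.ds GG.dt
  rcases d with ⟨e, b⟩
  cases b
  · simpa using (G.hne e).symm
  · simpa using G.hne e

theorem inc_dart (G : GG V E H) (d : E × Bool) (y : V) :
    (if y ∈ G.inc (Sum.inl d.1) then 1 else 0) = sgx (G.ds d) y + sgx (G.dt d) y := by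
  have hne := G.hne d.1
  rcases d with ⟨e, b⟩
  simp only [GG.inc, Sum.elim_inl, Finset.mem_insert, Finset.mem_singleton, sgx, GG.ds, GG.dt]
  simp only at hne
  by_cases h1 : y = G.src e
  · have h2 : y ≠ G.tgt e := by rw [h1]; exact hne
    cases b <;> simp [h1, hne, hne.symm]
  · by_cases h2 : y = G.tgt e
    · cases b <;> simp [h2, hne, hne.symm]
    · cases b <;> simp [h1, h2]

theorem inc_ghost (G : GG V E H) (g : H) (y : V) :
    (if y ∈ G.inc (Sum.inr g : E ⊕ H) then 1 else 0) = sgx (G.hs g) y + (0 : V → ℕ) y := by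
  simp [GG.inc, sgx]

theorem deg_eq (G : GG V E H) (n : E ⊕ H → ℕ) (x : V) :
    deg G.inc n x = (∑ d : E × Bool, if G.ds d = x then n (Sum.inl d.1) else 0) +
      ∑ g : H, if G.hs g = x then n (Sum.inr g) else 0 := by
  unfold deg
  rw [Fintype.sum_sum_type, Fintype.sum_prod_type]
  congr 1
  · refine Finset.sum_congr rfl fun e _ => ?_
    rw [Fintype.sum_bool]
    have h1 := inc_dart G (e, true) x
    simp only [sgx, GG.ds, GG.dt, if_true] at h1 ⊢
    have hne := G.hne e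
    by_cases hs : G.src e = x
    · have ht : ¬ G.tgt e = x := by rw [← hs]; exact hne.symm
      simp [GG.inc, hs, ht]
    · by_cases ht : G.tgt e = x
      · simp [GG.inc, hs, ht]
      · have hs' : ¬ x = G.src e := fun h => hs h.symm
        have ht' : ¬ x = G.tgt e := fun h => ht h.symm
        simp [GG.inc, hs, ht, hs', ht']
  · refine Finset.sum_congr rfl fun g _ => ?_
    have : (x ∈ G.inc (Sum.inr g : E ⊕ H)) ↔ G.hs g = x := by
      simp only [GG.inc, Sum.elim_inr, Finset.mem_singleton]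
      exact eq_comm
    simp only [this]

theorem tsum_sum_aux {α β : Type} [Fintype β] (f : β → α → ℝ≥0∞) :
    ∑' a, ∑ b, f b a = ∑ b, ∑' a, f b a :=
  Summable.tsum_finsetSum fun _ _ => ENNReal.summable

theorem step (G : GG V E H) (Ga : ℕ → ℝ≥0∞)
    (hGa : ∀ d, Even d → Ga (d + 2) = ((d : ℝ≥0∞) + 1) * Ga d) (x : V)
    (F : (E ⊕ H → ℕ) → ℝ≥0∞) :
    ∑' n : E ⊕ H → ℕ, W G n * A G Ga (sgx x) n * F n =
      (∑ d : E × Bool, if G.ds d = x then (G.w d.1 : ℝ≥0∞) *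
        ∑' n : E ⊕ H → ℕ, W G n * A G Ga (sgx (G.dt d)) n * F (n + Pi.single (Sum.inl d.1) 1) else 0) +
      ∑ g : H, if G.hs g = x then (G.f g : ℝ≥0∞) *
        ∑' n : E ⊕ H → ℕ, W G n * A G Ga 0 n * F (n + Pi.single (Sum.inr g) 1) else 0 := by
  have h1 : ∀ n : E ⊕ H → ℕ, W G n * A G Ga (sgx x) n * F n =
      (∑ d : E × Bool, (if G.ds d = x then
        ((n (Sum.inl d.1) : ℕ) : ℝ≥0∞) * (W G n * (Bx G Ga x n * F n)) else 0)) +
      ∑ g : H, (if G.hs g = x then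
        ((n (Sum.inr g) : ℕ) : ℝ≥0∞) * (W G n * (Bx G Ga x n * F n)) else 0) := by
    intro n
    rw [A_sg G Ga hGa, deg_eq]
    push_cast
    have e1 : ∀ d : E × Bool, (if G.ds d = x then
        ((n (Sum.inl d.1) : ℕ) : ℝ≥0∞) * (W G n * (Bx G Ga x n * F n)) else 0) =
        (if G.ds d = x then ((n (Sum.inl d.1) : ℕ) : ℝ≥0∞) else 0) *
          (W G n * (Bx G Ga x n * F n)) := by
      intro d; split_ifs
      · rfl
      · rw [zero_mul]
    have e2 : ∀ g : H, (if G.hs g = x then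
        ((n (Sum.inr g) : ℕ) : ℝ≥0∞) * (W G n * (Bx G Ga x n * F n)) else 0) =
        (if G.hs g = x then ((n (Sum.inr g) : ℕ) : ℝ≥0∞) else 0) *
          (W G n * (Bx G Ga x n * F n)) := by
      intro d; split_ifs
      · rfl
      · rw [zero_mul]
    simp only [e1, e2]
    rw [← Finset.sum_mul, ← Finset.sum_mul, ← add_mul]
    ring
  simp only [h1]
  rw [ENNReal.tsum_add, tsum_sum_aux, tsum_sum_aux]
  congr 1
  · refine Finset.sum_congr rfl fun d _ => ?_
    by_cases hd : G.ds d = x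
    · simp only [hd, if_true]
      rw [shift G (Sum.inl d.1)]
      have : (G.wt (Sum.inl d.1) : ℝ≥0∞) = (G.w d.1 : ℝ≥0∞) := rfl
      rw [this]
      congr 2
      funext n
      rw [Bx_shift G Ga x (Sum.inl d.1) (sgx (G.dt d)) (fun y => by rw [inc_dart, hd]), mul_assoc]
    · simp only [hd, if_false, tsum_zero]
  · refine Finset.sum_congr rfl fun g _ => ?_
    by_cases hg : G.hs g = x
    · simp only [hg, if_true]
      rw [shift G (Sum.inr g)]
      have : (G.wt (Sum.inr g) : ℝ≥0∞) = (G.f g : ℝ≥0∞) := rfl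
      rw [this]
      congr 2
      funext n
      rw [Bx_shift G Ga x (Sum.inr g) 0 (fun y => by rw [inc_ghost, hg]), mul_assoc]
    · simp only [hg, if_false, tsum_zero]

theorem peel (G : GG V E H) (Ga : ℕ → ℝ≥0∞) (g : H) (F : (E ⊕ H → ℕ) → ℝ≥0∞) :
    ∑' n : E ⊕ H → ℕ, (n (Sum.inr g) : ℝ≥0∞) * G.Phi Ga n * F n =
      (G.f g : ℝ≥0∞) * ∑' n : E ⊕ H → ℕ, W G n * A G Ga (sgx (G.hs g)) n *
        F (n + Pi.single (Sum.inr g) 1) := by
  have h1 : ∀ n : E ⊕ H → ℕ, (n (Sum.inr g) : ℝ≥0∞) * G.Phi Ga n * F n =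
      (n (Sum.inr g) : ℝ≥0∞) * (W G n * (A G Ga 0 n * F n)) := by
    intro n; rw [Phi_eq]; ring
  simp only [h1]
  rw [shift G (Sum.inr g)]
  have : (G.wt (Sum.inr g) : ℝ≥0∞) = (G.f g : ℝ≥0∞) := rfl
  rw [this]
  congr 2
  funext n
  have h2 : A G Ga 0 (n + Pi.single (Sum.inr g) 1) = A G Ga (sgx (G.hs g)) n := by
    unfold A
    have h3 : ∀ y, deg G.inc (n + Pi.single (Sum.inr g) 1) y + (0 : V → ℕ) y =
        deg G.inc n y + sgx (G.hs g) y := by
      intro y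
      rw [deg_add, inc_ghost]
      simp
    simp only [h3]
  rw [h2, mul_assoc]

theorem tsum_list_aux {D : Type} (h : List D → ℝ≥0∞) :
    ∑' l, h l = h [] + ∑' p : D × List D, h (p.1 :: p.2) := by
  classical
  rw [ENNReal.tsum_eq_add_tsum_ite []]
  congr 1
  have hinj : Function.Injective (fun p : D × List D => p.1 :: p.2) := by
    rintro ⟨a, l⟩ ⟨b, m⟩ h
    simp only [List.cons.injEq] at h
    exact Prod.ext h.1 h.2
  symm
  refine Eq.trans ?_ (hinj.tsum_eq ?_)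
  · simp
  · intro l hl
    rw [Function.mem_support] at hl
    rcases l with _ | ⟨a, l⟩
    · simp at hl
    · exact ⟨(a, l), rfl⟩

/-- right hand side of the expansion -/
noncomputable def RH (G : GG V E H) (Ga : ℕ → ℝ≥0∞) (x : V) (F : (E ⊕ H → ℕ) → ℝ≥0∞) : ℝ≥0∞ :=
  ∑' l : List (E × Bool), ∑ g : H, G.pw x l (G.hs g) * (G.f g : ℝ≥0∞) *
    ∑' n : E ⊕ H → ℕ, W G n * A G Ga 0 n * F (n + cur l + Pi.single (Sum.inr g) 1)

theorem RH_step (G : GG V E H) (Ga : ℕ → ℝ≥0∞) (x : V) (F : (E ⊕ H → ℕ) → ℝ≥0∞) :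
    RH G Ga x F = (∑ d : E × Bool, if G.ds d = x then (G.w d.1 : ℝ≥0∞) *
        RH G Ga (G.dt d) (fun n => F (n + Pi.single (Sum.inl d.1) 1)) else 0) +
      ∑ g : H, if G.hs g = x then (G.f g : ℝ≥0∞) *
        ∑' n : E ⊕ H → ℕ, W G n * A G Ga 0 n * F (n + Pi.single (Sum.inr g) 1) else 0 := by
  rw [RH, tsum_list_aux, add_comm, ENNReal.tsum_prod', tsum_fintype]
  congr 1
  · refine Finset.sum_congr rfl fun d _ => ?_
    by_cases hd : G.ds d = x
    · simp only [hd, if_true, GG.pw]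
      rw [RH, ← ENNReal.tsum_mul_left]
      congr 1
      funext l
      rw [Finset.mul_sum]
      refine Finset.sum_congr rfl fun g _ => ?_
      have h1 : ∀ n : E ⊕ H → ℕ, n + cur (d :: l) + Pi.single (Sum.inr g) 1 =
          n + cur l + Pi.single (Sum.inr g) 1 + Pi.single (Sum.inl d.1) 1 := by
        intro n
        simp only [cur, List.map_cons, List.sum_cons]
        abel
      simp only [h1]
      ring
    · simp only [hd, if_false, GG.pw, zero_mul, Finset.sum_const_zero, tsum_zero]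
  · refine Finset.sum_congr rfl fun g _ => ?_
    have hcur : (cur ([] : List (E × Bool)) : E ⊕ H → ℕ) = 0 := by simp [cur]
    simp only [hcur, add_zero, GG.pw]
    by_cases hg : G.hs g = x
    · simp [hg]
    · have hg' : ¬ x = G.hs g := fun h => hg h.symm
      simp [hg, hg']

theorem expansion_fin (G : GG V E H) (Ga : ℕ → ℝ≥0∞)
    (hGa : ∀ d, Even d → Ga (d + 2) = ((d : ℝ≥0∞) + 1) * Ga d) (N : ℕ) :
    ∀ (x : V) (F : (E ⊕ H → ℕ) → ℝ≥0∞), (∀ n, N ≤ ∑ i, n i → F n = 0) →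
    ∑' n : E ⊕ H → ℕ, W G n * A G Ga (sgx x) n * F n = RH G Ga x F := by
  induction N with
  | zero =>
    intro x F hF
    have h0 : ∀ n, F n = 0 := fun n => hF n (Nat.zero_le _)
    unfold RH
    simp [h0]
  | succ N ih =>
    intro x F hF
    rw [step G Ga hGa, RH_step]
    congr 1
    refine Finset.sum_congr rfl fun d _ => ?_
    have key := ih (G.dt d) (fun n => F (n + Pi.single (Sum.inl d.1) 1)) ?_
    · by_cases hd : G.ds d = x
      · simp only [hd, if_true]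
        congr 1
      · simp only [hd, if_false]
    intro n hn
    apply hF
    have : ∑ i, (n + (Pi.single (Sum.inl d.1) 1 : E ⊕ H → ℕ)) i = (∑ i, n i) + 1 := by
      simp only [Pi.add_apply]
      rw [Finset.sum_add_distrib, Finset.sum_pi_single']
      simp
    omega

theorem swap_aux {α X : Type} [DecidableEq X] (c : α → ℝ≥0∞) (ph : α → X) (F : X → ℝ≥0∞) :
    ∑' a, c a * F (ph a) = ∑' m, F m * ∑' a, c a * (if ph a = m then 1 else 0) := by
  have h1 : ∀ a, c a * F (ph a) = ∑' m, F m * (c a * (if ph a = m then 1 else 0)) := by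
    intro a
    rw [tsum_eq_single (ph a)]
    · simp [mul_comm]
    · intro m hm
      rw [if_neg (Ne.symm hm), mul_zero, mul_zero]
  simp only [h1]
  rw [ENNReal.tsum_comm]
  simp only [ENNReal.tsum_mul_left]

theorem expansion (G : GG V E H) (Ga : ℕ → ℝ≥0∞)
    (hGa : ∀ d, Even d → Ga (d + 2) = ((d : ℝ≥0∞) + 1) * Ga d)
    (x : V) (F : (E ⊕ H → ℕ) → ℝ≥0∞) :
    ∑' n : E ⊕ H → ℕ, W G n * A G Ga (sgx x) n * F n = RH G Ga x F := by
  have hR : ∀ F' : (E ⊕ H → ℕ) → ℝ≥0∞, RH G Ga x F' =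
      ∑' p : List (E × Bool) × H × (E ⊕ H → ℕ), (G.pw x p.1 (G.hs p.2.1) * (G.f p.2.1 : ℝ≥0∞) *
        (W G p.2.2 * A G Ga 0 p.2.2)) * F' (p.2.2 + cur p.1 + Pi.single (Sum.inr p.2.1) 1) := by
    intro F'
    rw [ENNReal.tsum_prod', RH]
    congr 1
    funext l
    rw [ENNReal.tsum_prod', tsum_fintype]
    refine Finset.sum_congr rfl fun g _ => ?_
    rw [← ENNReal.tsum_mul_left]
    congr 1
    funext n
    ring
  rw [swap_aux, hR, swap_aux]
  congr 1
  funext m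
  congr 1
  rw [← hR (fun n => if n = m then 1 else 0)]
  apply expansion_fin G Ga hGa ((∑ i, m i) + 1)
  intro n hn
  rw [if_neg]
  rintro rfl
  omega

theorem mecke_Phi (G : GG V E H) (Ga : ℕ → ℝ≥0∞)
    (hGa : ∀ d, Even d → Ga (d + 2) = ((d : ℝ≥0∞) + 1) * Ga d) (hfin : ∀ d, Ga d ≠ ∞)
    (F : (E ⊕ H → ℕ) → ℝ≥0∞) :
    ∑' n : E ⊕ H → ℕ, (∑ g : H, (n (Sum.inr g) : ℝ≥0∞)) * G.Phi Ga n * F n
      = ∑' p : H × List (E × Bool) × H, 2 * G.lam p * ∑' n : E ⊕ H → ℕ,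
          G.Phi Ga n * F (n + npath p) := by
  have h1 : ∀ n : E ⊕ H → ℕ, (∑ g : H, (n (Sum.inr g) : ℝ≥0∞)) * G.Phi Ga n * F n =
      ∑ g : H, (n (Sum.inr g) : ℝ≥0∞) * G.Phi Ga n * F n := by
    intro n
    rw [Finset.sum_mul, Finset.sum_mul]
  simp only [h1]
  rw [tsum_sum_aux, ENNReal.tsum_prod', tsum_fintype]
  refine Finset.sum_congr rfl fun g _ => ?_
  rw [peel, expansion G Ga hGa, RH, ← ENNReal.tsum_mul_left, ENNReal.tsum_prod']
  congr 1
  funext l
  rw [tsum_fintype, Finset.mul_sum]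
  refine Finset.sum_congr rfl fun g' _ => ?_
  have h2 : ∀ n : E ⊕ H → ℕ, n + npath (g, l, g') =
      n + cur l + Pi.single (Sum.inr g') 1 + Pi.single (Sum.inr g) 1 := by
    intro n
    simp only [npath, cur]
    abel
  have h3 : 2 * G.lam (g, l, g') =
      (G.f g : ℝ≥0∞) * (G.pw (G.hs g) l (G.hs g') * (G.f g' : ℝ≥0∞)) := by
    unfold GG.lam
    simp only
    calc 2 * (2⁻¹ * (G.f g : ℝ≥0∞) * G.pw (G.hs g) l (G.hs g') * (G.f g' : ℝ≥0∞))
        = (2 * 2⁻¹) * ((G.f g : ℝ≥0∞) * (G.pw (G.hs g) l (G.hs g') * (G.f g' : ℝ≥0∞))) := by ring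
      _ = _ := by rw [ENNReal.mul_inv_cancel two_ne_zero ENNReal.ofNat_ne_top, one_mul]
  simp only [h2, h3, Phi_eq]
  ring

end Pool.Agent.Helper41.GF
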