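import Pool.Agent.Helper41.GF.Defs

set_option autoImplicit false

open scoped ENNReal
open MeasureTheory

namespace Pool.Agent.Helper41.GF

section mv

theorem mv_prob1 : IsProbabilityMeasure stpLaw := by unfold stpLaw; infer_instance

attribute [local instance] mv_prob1

theorem mv_prob2 : IsProbabilityMeasure PP := by unfold PP; infer_instance

attribute [local instance] mv_prob2

/-- Prepend a step. -/
def msc (s : Stp) (u : Str) : Str := fun n => Nat.casesOn n s u

/-- Drop the first `n` steps. -/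
def msh (n : ℕ) (u : Str) : Str := fun i => u (i + n)

lemma msc_zero (s : Stp) (u : Str) : msc s u 0 = s := rfl
lemma msc_succ (s : Stp) (u : Str) (n : ℕ) : msc s u (n + 1) = u n := rfl

lemma mSS_zero (u : Str) : SS 0 u = 0 := by simp [SS]

lemma mSS_scons (n : ℕ) (s : Stp) (u : Str) : SS (n + 1) (msc s u) = vec s + SS n u := by
  unfold SS
  rw [Finset.sum_range_succ']
  simp [add_comm, msc_zero, msc_succ]

lemma mSS_add (m n : ℕ) (u : Str) : SS (m + n) u = SS m u + SS n (msh m u) := by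
  unfold SS msh
  rw [Finset.sum_range_add]
  congr 1
  exact Finset.sum_congr rfl (fun i _ => by rw [add_comm])

lemma mstpLaw_singleton (s : Stp) : stpLaw {s} = (6 : ℝ≥0∞)⁻¹ := by
  unfold stpLaw
  rw [PMF.toMeasure_apply_singleton _ _ (MeasurableSet.singleton s), PMF.uniformOfFintype_apply]
  simp

lemma mmeasurable_scons : Measurable (fun p : Stp × Str => msc p.1 p.2) := by
  apply measurable_pi_lambda
  intro n
  cases n with
  | zero => exact measurable_fst
  | succ n => exact (measurable_pi_apply n).comp measurable_snd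

lemma mPP_map_scons : (stpLaw.prod PP).map (fun p => msc p.1 p.2) = PP := by
  unfold PP
  refine Measure.eq_infinitePi _ (fun s t ht => ?_)
  rw [Measure.map_apply mmeasurable_scons (MeasurableSet.pi s.countable_toSet (fun _ _ => ht _))]
  classical
  set s1 : Finset ℕ := s.preimage (fun i => i + 1) (Function.Injective.injOn
    (add_left_injective 1)) with hs1
  have hpre : (fun p : Stp × Str => msc p.1 p.2) ⁻¹' ((s : Set ℕ).pi t)
      = (if 0 ∈ s then t 0 else Set.univ) ×ˢ ((s1 : Set ℕ).pi (fun i => t (i + 1))) := by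
    ext ⟨a, u⟩
    simp only [Set.mem_preimage, Set.mem_pi, Set.mem_prod, hs1]
    constructor
    · intro h
      refine ⟨?_, ?_⟩
      · split_ifs with h0
        · exact h 0 h0
        · trivial
      · intro i hi
        have hi' : i + 1 ∈ s := by simpa using hi
        exact h (i + 1) hi'
    · rintro ⟨h0, h1⟩ i hi
      cases i with
      | zero =>
        have h0s : (0 : ℕ) ∈ s := hi
        rw [if_pos h0s] at h0
        exact h0
      | succ i => exact h1 i (by simpa using hi)
  rw [hpre, Measure.prod_prod, Measure.infinitePi_pi _ (fun i _ => ht (i + 1))]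
  have hs : ∏ i ∈ s, stpLaw (t i) = (if 0 ∈ s then stpLaw (t 0) else 1)
      * ∏ i ∈ s1, stpLaw (t (i + 1)) := by
    have hdec : s = (if 0 ∈ s then {0} else ∅) ∪ s1.map ⟨fun i => i + 1, add_left_injective 1⟩ := by
      ext i
      simp only [Finset.mem_union, Finset.mem_map, hs1, Finset.mem_preimage,
        Function.Embedding.coeFn_mk]
      cases i with
      | zero =>
        split_ifs with h0 <;> simp [h0]
      | succ i =>
        constructor
        · intro h; right; exact ⟨i, h, rfl⟩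
        · rintro (h | ⟨j, hj, hji⟩)
          · split_ifs at h <;> simp at h
          · rwa [← hji]
    have hdisj : Disjoint (if 0 ∈ s then ({0} : Finset ℕ) else ∅)
        (s1.map ⟨fun i => i + 1, add_left_injective 1⟩) := by
      split_ifs with h0
      · rw [Finset.disjoint_singleton_left]
        simp
      · simp
    conv_lhs => rw [hdec]
    rw [Finset.prod_union hdisj, Finset.prod_map]
    congr 1
    split_ifs <;> simp
  rw [hs]
  congr 1
  split_ifs <;> simp

lemma mlintegral_PP {F : Str → ℝ≥0∞} (hF : Measurable F) :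
    ∫⁻ u, F u ∂PP = (6 : ℝ≥0∞)⁻¹ * ∑ s : Stp, ∫⁻ u, F (msc s u) ∂PP := by
  conv_lhs => rw [← mPP_map_scons]
  have hm : Measurable (fun p : Stp × Str => F (msc p.1 p.2)) := hF.comp mmeasurable_scons
  rw [lintegral_map hF mmeasurable_scons,
    lintegral_prod _ hm.aemeasurable, lintegral_fintype, Finset.mul_sum]
  refine Finset.sum_congr rfl (fun s _ => ?_)
  rw [mstpLaw_singleton, mul_comm]

lemma mmeasurable_scons_right (s : Stp) : Measurable (msc s) :=
  mmeasurable_scons.comp (measurable_const.prodMk measurable_id)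

lemma mPP_apply {E : Set Str} (hE : MeasurableSet E) :
    PP E = (6 : ℝ≥0∞)⁻¹ * ∑ s : Stp, PP {u | msc s u ∈ E} := by
  have h := mlintegral_PP (F := E.indicator 1) (measurable_one.indicator hE)
  rw [lintegral_indicator_one hE] at h
  rw [h]
  congr 1
  refine Finset.sum_congr rfl (fun s _ => ?_)
  have : (fun u => E.indicator (1 : Str → ℝ≥0∞) (msc s u))
      = ({u | msc s u ∈ E} : Set Str).indicator 1 := by
    funext u; rfl
  rw [this]
  exact lintegral_indicator_one (mmeasurable_scons_right s hE)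

lemma mPP_scons_le (c : Stp) : (6 : ℝ≥0∞)⁻¹ • PP.map (msc c) ≤ PP := by
  refine Measure.le_iff.2 fun E hE => ?_
  rw [Measure.smul_apply, Measure.map_apply (mmeasurable_scons_right c) hE, mPP_apply hE,
    smul_eq_mul]
  gcongr
  exact Finset.single_le_sum (f := fun s : Stp => PP {u | msc s u ∈ E}) (fun _ _ => by positivity)
    (Finset.mem_univ c)

lemma mmeas_shift (n : ℕ) : Measurable (msh n) :=
  measurable_pi_lambda _ fun _ => measurable_pi_apply _

lemma mPP_shift1 : PP.map (msh 1) = PP := by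
  conv_lhs => rw [← mPP_map_scons]
  rw [Measure.map_map (mmeas_shift 1) mmeasurable_scons]
  have : msh 1 ∘ (fun p : Stp × Str => msc p.1 p.2) = Prod.snd := by
    funext p; rfl
  rw [this, Measure.map_snd_prod]
  simp

lemma mPP_shift (n : ℕ) : PP.map (msh n) = PP := by
  induction n with
  | zero =>
    have : msh 0 = id := by funext u; rfl
    rw [this, Measure.map_id]
  | succ n ih =>
    have : msh (n + 1) = msh 1 ∘ msh n := by
      funext u i
      show u (i + (n + 1)) = u (i + 1 + n)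
      congr 1; ring
    rw [this, ← Measure.map_map (mmeas_shift 1) (mmeas_shift n), ih, mPP_shift1]

lemma mmeas_SS (n : ℕ) : Measurable (SS n) := by
  unfold SS
  refine Finset.measurable_fun_sum _ (fun i _ => ?_)
  exact (measurable_of_finite vec).comp (measurable_pi_apply i)

/-- the good event -/
def mGP (B U V : Set Z3) (x y : Z3) (ω : Str × Str) : Prop :=
  (∀ n m, x + SS n ω.1 ≠ y + SS m ω.2) ∧ (∀ n, x + SS n ω.1 ∈ B → x + SS n ω.1 ∈ U) ∧
    (∀ m, y + SS m ω.2 ∈ B → y + SS m ω.2 ∈ V)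

lemma mmeasX (x : Z3) (n : ℕ) : Measurable fun ω : Str × Str => x + SS n ω.1 :=
  (measurable_of_countable (fun z : Z3 => x + z)).comp ((mmeas_SS n).comp measurable_fst)

lemma mmeasY (x : Z3) (n : ℕ) : Measurable fun ω : Str × Str => x + SS n ω.2 :=
  (measurable_of_countable (fun z : Z3 => x + z)).comp ((mmeas_SS n).comp measurable_snd)

lemma mset_meas (S : Set Z3) : MeasurableSet S := (Set.to_countable S).measurableSet

lemma mGP_meas (B U V : Set Z3) (x y : Z3) : MeasurableSet {ω | mGP B U V x y ω} := by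
  have e : {ω | mGP B U V x y ω} = (⋂ n, ⋂ m, {ω : Str × Str | x + SS n ω.1 = y + SS m ω.2}ᶜ) ∩
      ((⋂ n, (fun ω : Str × Str => x + SS n ω.1) ⁻¹' (Bᶜ ∪ U)) ∩
        (⋂ m, (fun ω : Str × Str => y + SS m ω.2) ⁻¹' (Bᶜ ∪ V))) := by
    ext ω
    simp only [mGP, Set.mem_ofPred_eq, Set.mem_inter_iff, Set.mem_iInter, Set.mem_compl_iff,
      Set.mem_preimage, Set.mem_union, ne_eq, imp_iff_not_or]
  rw [e]
  refine MeasurableSet.inter ?_ (MeasurableSet.inter ?_ ?_)
  · refine MeasurableSet.iInter fun n => MeasurableSet.iInter fun m => MeasurableSet.compl ?_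
    exact measurableSet_eq_fun (mmeasX x n) (mmeasY y m)
  · exact MeasurableSet.iInter fun n => mmeasX x n (mset_meas _)
  · exact MeasurableSet.iInter fun n => mmeasY y n (mset_meas _)

/-- existence of a good coupling -/
def mGG (B : Set Z3) (x : Z3) (U : Set Z3) (y : Z3) (V : Set Z3) : Prop :=
  ∃ π : Measure (Str × Str), π.map Prod.fst ≤ PP ∧ π.map Prod.snd ≤ PP ∧ 0 < π Set.univ ∧
    ∀ᵐ ω ∂π, mGP B U V x y ω

lemma mGG_mono {B U U' V : Set Z3} {x y : Z3} (h : mGG B x U y V) (hU : U ⊆ U') :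
    mGG B x U' y V := by
  obtain ⟨π, h1, h2, h3, h4⟩ := h
  refine ⟨π, h1, h2, h3, ?_⟩
  filter_upwards [h4] with ω hω
  exact ⟨hω.1, fun n hn => hU (hω.2.1 n hn), hω.2.2⟩

lemma mGG_symm {B U V : Set Z3} {x y : Z3} (h : mGG B x U y V) : mGG B y V x U := by
  obtain ⟨π, h1, h2, h3, h4⟩ := h
  refine ⟨π.map Prod.swap, ?_, ?_, ?_, ?_⟩
  · rw [Measure.map_map measurable_fst measurable_swap]
    exact h2
  · rw [Measure.map_map measurable_snd measurable_swap]
    exact h1
  · rw [Measure.map_apply measurable_swap MeasurableSet.univ]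
    exact h3
  · rw [ae_map_iff measurable_swap.aemeasurable (mGP_meas _ _ _ _ _)]
    filter_upwards [h4] with ω hω
    exact ⟨fun n m h => hω.1 m n h.symm, hω.2.2, hω.2.1⟩

lemma mGG_step {B U V : Set Z3} {x y x' : Z3} {c : Stp} (h : mGG B x U y V) (hx : x = x' + vec c)
    (hB : x' ∈ B) (hV : x' ∉ V) : mGG B x' (insert x' U) y V := by
  obtain ⟨π, h1, h2, h3, h4⟩ := h
  have hF : Measurable (fun ω : Str × Str => (msc c ω.1, ω.2)) :=
    ((mmeasurable_scons_right c).comp measurable_fst).prodMk measurable_snd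
  refine ⟨(6 : ℝ≥0∞)⁻¹ • π.map (fun ω => (msc c ω.1, ω.2)), ?_, ?_, ?_, ?_⟩
  · rw [Measure.map_smul, Measure.map_map measurable_fst hF]
    have e : Prod.fst ∘ (fun ω : Str × Str => (msc c ω.1, ω.2)) = msc c ∘ Prod.fst := rfl
    rw [e, ← Measure.map_map (mmeasurable_scons_right c) measurable_fst]
    refine le_trans ?_ (mPP_scons_le c)
    refine Measure.le_iff.2 fun E hE => ?_
    rw [Measure.smul_apply, Measure.smul_apply, smul_eq_mul, smul_eq_mul]
    exact mul_le_mul_right ((Measure.map_mono h1 (mmeasurable_scons_right c)) E) _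
  · rw [Measure.map_smul, Measure.map_map measurable_snd hF]
    have e : Prod.snd ∘ (fun ω : Str × Str => (msc c ω.1, ω.2)) = Prod.snd := rfl
    rw [e]
    refine le_trans ?_ h2
    refine Measure.le_iff.2 fun E hE => ?_
    rw [Measure.smul_apply, smul_eq_mul]
    calc (6 : ℝ≥0∞)⁻¹ * (π.map Prod.snd) E ≤ 1 * (π.map Prod.snd) E := by
          gcongr
          simp
      _ = _ := one_mul _
  · rw [Measure.smul_apply, Measure.map_apply hF MeasurableSet.univ, Set.preimage_univ, smul_eq_mul]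
    exact ENNReal.mul_pos (by simp) h3.ne'
  · refine Measure.ae_smul_measure ?_ _
    rw [ae_map_iff hF.aemeasurable (mGP_meas _ _ _ _ _)]
    filter_upwards [h4] with ω hω
    have key : ∀ n, x' + SS (n + 1) (msc c ω.1) = x + SS n ω.1 := by
      intro n
      rw [mSS_scons, hx, add_assoc]
    refine ⟨fun n m => ?_, fun n => ?_, hω.2.2⟩
    · cases n with
      | zero =>
        simp only
        rw [mSS_zero, add_zero]
        intro hc
        apply hV
        rw [hc]
        exact hω.2.2 m (hc ▸ hB)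
      | succ n =>
        simp only
        rw [key]; exact hω.1 n m
    · cases n with
      | zero =>
        simp only
        rw [mSS_zero, add_zero]
        exact fun _ => Set.mem_insert _ _
      | succ n =>
        simp only
        rw [key]
        exact fun h => Set.mem_insert_of_mem _ (hω.2.1 n h)

lemma mGG_path {B U V : Set Z3} {y : Z3} (γ : ℕ → Z3) (h : mGG B (γ 0) U y V) (k : ℕ)
    (hstep : ∀ l < k, ∃ c, γ l = γ (l + 1) + vec c) (hB : ∀ l ≤ k, γ l ∈ B)
    (hV : ∀ l ≤ k, γ l ∉ V) : mGG B (γ k) (U ∪ γ '' Set.Iic k) y V := by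
  induction k with
  | zero => exact mGG_mono h Set.subset_union_left
  | succ k ih =>
    have h1 := ih (fun l hl => hstep l (by omega)) (fun l hl => hB l (by omega))
      (fun l hl => hV l (by omega))
    obtain ⟨c, hc⟩ := hstep k (by omega)
    refine mGG_mono (mGG_step h1 hc (hB _ le_rfl) (hV _ le_rfl)) ?_
    rintro z (rfl | hz | ⟨l, hl, rfl⟩)
    · exact Or.inr ⟨k + 1, Set.mem_Iic.2 le_rfl, rfl⟩
    · exact Or.inl hz
    · exact Or.inr ⟨l, Set.mem_Iic.2 ((Set.mem_Iic.1 hl).trans (by omega)), rfl⟩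

lemma mvec_of (k : Fin 3) (e : ℤ) (he : e = 1 ∨ e = -1) : ∃ c, vec c = Pi.single k e := by
  rcases he with rfl | rfl
  · exact ⟨(k, true), by simp [vec]⟩
  · exact ⟨(k, false), by simp [vec]⟩

lemma mpath (a b : Z3) : ∃ (β : ℤ → Z3) (D : ℤ), 0 ≤ D ∧ β 0 = a ∧ β D = b ∧
    Function.Injective β ∧ (∀ i, ∃ c, β (i + 1) = β i + vec c) ∧
    (∀ i, ∃ c, β i = β (i + 1) + vec c) ∧ ∀ i, ∑ k, |β i k - β (i + 10) k| = 10 := by
  set σ : Fin 3 → ℤ := fun k => if a k ≤ b k then 1 else -1 with hσ
  set N : Fin 3 → ℤ := fun k => |b k - a k| with hN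
  have hN0 : ∀ k, 0 ≤ N k := fun k => abs_nonneg _
  have hσ1 : ∀ k, σ k = 1 ∨ σ k = -1 := by
    intro k; simp only [hσ]; split_ifs <;> simp
  have hσN : ∀ k, σ k * N k = b k - a k := by
    intro k; simp only [hσ, hN]
    split_ifs with h
    · rw [abs_of_nonneg (by linarith)]; ring
    · rw [abs_of_neg (by linarith)]; ring
  have hσσ : ∀ k, σ k * σ k = 1 := by
    intro k; rcases hσ1 k with h | h <;> rw [h] <;> norm_num
  have hσinj : ∀ k (u v : ℤ), a k + σ k * u = a k + σ k * v → u = v := by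
    intro k u v h
    have h2 : σ k * u = σ k * v := by linarith
    rcases hσ1 k with h3 | h3 <;> rw [h3] at h2 <;> linarith
  let u : Fin 3 → ℤ → ℤ := ![fun i => min i (N 0), fun i => min (max (i - N 0) 0) (N 1),
    fun i => max (i - N 0 - N 1) 0]
  have hu0 : ∀ i, u 0 i = min i (N 0) := fun i => rfl
  have hu1 : ∀ i, u 1 i = min (max (i - N 0) 0) (N 1) := fun i => rfl
  have hu2 : ∀ i, u 2 i = max (i - N 0 - N 1) 0 := fun i => rfl
  have n0 := hN0 0
  have n1 := hN0 1
  have n2 := hN0 2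
  have hstep : ∀ i, ∃ k, ∀ j, u j (i + 1) = u j i + (Pi.single k 1 : Z3) j := by
    intro i
    rcases lt_or_ge i (N 0) with h | h
    · refine ⟨0, fun j => ?_⟩
      fin_cases j
      · show u 0 (i + 1) = u 0 i + 1
        rw [hu0, hu0]; omega
      · show u 1 (i + 1) = u 1 i + 0
        rw [hu1, hu1]; omega
      · show u 2 (i + 1) = u 2 i + 0
        rw [hu2, hu2]; omega
    · rcases lt_or_ge i (N 0 + N 1) with h' | h'
      · refine ⟨1, fun j => ?_⟩
        fin_cases j
        · show u 0 (i + 1) = u 0 i + 0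
          rw [hu0, hu0]; omega
        · show u 1 (i + 1) = u 1 i + 1
          rw [hu1, hu1]; omega
        · show u 2 (i + 1) = u 2 i + 0
          rw [hu2, hu2]; omega
      · refine ⟨2, fun j => ?_⟩
        fin_cases j
        · show u 0 (i + 1) = u 0 i + 0
          rw [hu0, hu0]; omega
        · show u 1 (i + 1) = u 1 i + 0
          rw [hu1, hu1]; omega
        · show u 2 (i + 1) = u 2 i + 1
          rw [hu2, hu2]; omega
  refine ⟨fun i k => a k + σ k * u k i, N 0 + N 1 + N 2, by omega, ?_, ?_, ?_, ?_, ?_, ?_⟩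
  · funext k
    have : u k 0 = 0 := by
      fin_cases k
      · show u 0 0 = 0
        rw [hu0]; omega
      · show u 1 0 = 0
        rw [hu1]; omega
      · show u 2 0 = 0
        rw [hu2]; omega
    simp only [this, mul_zero, add_zero]
  · funext k
    have : u k (N 0 + N 1 + N 2) = N k := by
      fin_cases k
      · show u 0 _ = N 0
        rw [hu0]; omega
      · show u 1 _ = N 1
        rw [hu1]; omega
      · show u 2 _ = N 2
        rw [hu2]; omega
    simp only [this, hσN]
    ring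
  · intro i j hij
    have h0 := hσinj 0 _ _ (congrFun hij 0)
    have h1 := hσinj 1 _ _ (congrFun hij 1)
    have h2 := hσinj 2 _ _ (congrFun hij 2)
    rw [hu0, hu0] at h0
    rw [hu1, hu1] at h1
    rw [hu2, hu2] at h2
    omega
  · intro i
    obtain ⟨k, hk⟩ := hstep i
    obtain ⟨c, hc⟩ := mvec_of k (σ k) (hσ1 k)
    refine ⟨c, ?_⟩
    funext j
    simp only [hc, Pi.add_apply, hk]
    by_cases hjk : j = k
    · subst hjk; simp; ring
    · simp [hjk]
  · intro i
    obtain ⟨k, hk⟩ := hstep i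
    obtain ⟨c, hc⟩ := mvec_of k (-σ k) (by rcases hσ1 k with h | h <;> rw [h] <;> simp)
    refine ⟨c, ?_⟩
    funext j
    simp only [hc, Pi.add_apply, hk]
    by_cases hjk : j = k
    · subst hjk; simp; ring
    · simp [hjk]
  · intro i
    have h : ∀ k, |(a k + σ k * u k i) - (a k + σ k * u k (i + 10))| = u k (i + 10) - u k i := by
      intro k
      have e : (a k + σ k * u k i) - (a k + σ k * u k (i + 10)) =
        σ k * (-(u k (i + 10) - u k i)) := by ring
      have hs : |σ k| = 1 := by rcases hσ1 k with h | h <;> rw [h] <;> simp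
      rw [e, abs_mul, hs, one_mul, abs_neg, abs_of_nonneg]
      fin_cases k
      · show 0 ≤ u 0 (i + 10) - u 0 i
        rw [hu0, hu0]; omega
      · show 0 ≤ u 1 (i + 10) - u 1 i
        rw [hu1, hu1]; omega
      · show 0 ≤ u 2 (i + 10) - u 2 i
        rw [hu2, hu2]; omega
    simp only [h]
    rw [Fin.sum_univ_three, hu0, hu0, hu1, hu1, hu2, hu2]
    omega

lemma mlast {X : ℕ → Z3} {B : Set Z3} (h0 : X 0 ∈ B) (hf : ∀ᶠ n in Filter.atTop, X n ∉ B) :
    ∃ t, X t ∈ B ∧ ∀ n, t < n → X n ∉ B := by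
  classical
  obtain ⟨N, hN⟩ := Filter.eventually_atTop.1 hf
  have hex : ∃ N, ∀ n ≥ N, X n ∉ B := ⟨N, hN⟩
  have h1 := Nat.find_spec hex
  have h2 : Nat.find hex ≠ 0 := by
    intro h
    rw [h] at h1
    exact h1 0 le_rfl h0
  obtain ⟨t, ht⟩ := Nat.exists_eq_succ_of_ne_zero h2
  refine ⟨t, ?_, fun n hn => h1 n (by omega)⟩
  by_contra hcon
  have h3 := Nat.find_min hex (m := t) (by omega)
  apply h3
  intro n hn
  rcases Nat.eq_or_lt_of_le hn with h | h
  · rw [← h]; exact hcon
  · exact h1 n (by omega)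

lemma mtrans (htrans : ∀ z : Z3, ∑' n : ℕ, PP {u | SS n u = z} ≠ ∞) (B : Set Z3) (hB : B.Finite)
    (a : Z3) : ∀ᵐ u ∂PP, ∀ᶠ n in Filter.atTop, a + SS n u ∉ B := by
  have h1 : ∀ z ∈ B, ∀ᵐ u ∂PP, ∀ᶠ n in Filter.atTop, a + SS n u ≠ z := by
    intro z _
    have h2 := measure_setOfPred_frequently_eq_zero (htrans (z - a))
    rw [ae_iff]
    refine measure_mono_null ?_ h2
    intro u hu
    simp only [Set.mem_ofPred_eq] at hu ⊢
    rw [Filter.not_eventually] at hu
    refine hu.mono fun n hn => ?_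
    push Not at hn
    rw [← hn]; abel
  have h2 : ∀ᵐ u ∂PP, ∀ z ∈ B, ∀ᶠ n in Filter.atTop, a + SS n u ≠ z :=
    (ae_ball_iff hB.countable).2 h1
  filter_upwards [h2] with u hu
  have h3 := (hB.eventually_all).2 hu
  filter_upwards [h3] with n hn hmem
  exact hn _ hmem rfl

lemma mfinish {B : Set Z3} (β : ℤ → Z3) (D p q : ℤ) (hD : 0 ≤ D)
    (hBdef : B = β '' Set.Icc (-10) (D + 10)) (hinj : Function.Injective β)
    (hup : ∀ i, ∃ c, β (i + 1) = β i + vec c) (hdn : ∀ i, ∃ c, β i = β (i + 1) + vec c)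
    (hdist : ∀ i, ∑ k, |β i k - β (i + 10) k| = 10)
    (hp : p ∈ Set.Icc (-10) (D + 10)) (hq : q ∈ Set.Icc (-10) (D + 10)) (hpq : p < q)
    (h : mGG B (β p) {β p} (β q) {β q}) :
    ∃ x y : Z3, ∑ i, |x i - y i| = 10 ∧ ∃ U V, mGG B x U y V := by
  obtain ⟨hp1, hp2⟩ := hp
  obtain ⟨hq1, hq2⟩ := hq
  have hmem : ∀ i, -10 ≤ i → i ≤ D + 10 → β i ∈ B := fun i h1 h2 => by
    rw [hBdef]; exact ⟨i, ⟨h1, h2⟩, rfl⟩
  -- first walk goes down from p to i0
  have hX : ∀ i0, -10 ≤ i0 → i0 ≤ p → mGG B (β i0) (β '' Set.Icc i0 p) (β q) {β q} := by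
    intro i0 h1 h2
    have h3 := mGG_path (fun l : ℕ => β (p - l)) (by simpa using h) (p - i0).toNat
      (fun l _ => by
        obtain ⟨c, hc⟩ := hup (p - (l + 1 : ℕ))
        refine ⟨c, ?_⟩
        have e : p - (l + 1 : ℕ) + 1 = p - l := by push_cast; ring
        rw [e] at hc
        exact hc)
      (fun l hl => hmem _ (by omega) (by omega))
      (fun l hl hc => by
        have := hinj (Set.mem_singleton_iff.1 hc)
        omega)
    have e : p - ((p - i0).toNat : ℤ) = i0 := by omega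
    simp only [e] at h3
    refine mGG_mono h3 ?_
    rintro z (hz | ⟨l, hl, rfl⟩)
    · rw [Set.mem_singleton_iff] at hz
      subst hz
      exact ⟨p, ⟨h2, le_rfl⟩, rfl⟩
    · have hl' := Set.mem_Iic.1 hl
      exact ⟨p - l, ⟨by omega, by omega⟩, rfl⟩
  rcases le_or_gt (p + 10) q with hc | hc
  · -- far apart: second walk goes down from q to p + 10
    refine ⟨β (p + 10), β p, ?_, ?_⟩
    · exact Eq.trans (Finset.sum_congr rfl fun k _ => abs_sub_comm _ _) (hdist p)
    · have h1 := mGG_symm (hX p hp1 le_rfl)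
      have h3 := mGG_path (fun l : ℕ => β (q - l))
        (by simpa only [Nat.cast_zero, sub_zero] using h1) (q - (p + 10)).toNat
        (fun l _ => by
          obtain ⟨c, hc⟩ := hup (q - (l + 1 : ℕ))
          refine ⟨c, ?_⟩
          have e : q - (l + 1 : ℕ) + 1 = q - l := by push_cast; ring
          rw [e] at hc
          exact hc)
        (fun l hl => hmem _ (by omega) (by omega))
        (fun l hl hc => by
          obtain ⟨j, hj, hjl⟩ := hc
          have := hinj hjl
          have := hj.2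
          omega)
      have e : q - ((q - (p + 10)).toNat : ℤ) = p + 10 := by omega
      simp only [e] at h3
      exact ⟨_, _, h3⟩
  · -- close: i0 = max (-10) (q - 10), second walk goes up from q to i0 + 10
    set i0 := max (-10) (q - 10) with hi0
    refine ⟨β (i0 + 10), β i0, ?_, ?_⟩
    · exact Eq.trans (Finset.sum_congr rfl fun k _ => abs_sub_comm _ _) (hdist i0)
    · have h1 := mGG_symm (hX i0 (by omega) (by omega))
      have h3 := mGG_path (fun l : ℕ => β (q + l))
        (by simpa only [Nat.cast_zero, add_zero] using h1) (i0 + 10 - q).toNat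
        (fun l _ => by
          obtain ⟨c, hc⟩ := hdn (q + l)
          refine ⟨c, ?_⟩
          have e : q + ((l + 1 : ℕ) : ℤ) = q + l + 1 := by push_cast; ring
          rw [e]
          exact hc)
        (fun l hl => hmem _ (by omega) (by omega))
        (fun l hl hc => by
          obtain ⟨j, hj, hjl⟩ := hc
          have := hinj hjl
          have := hj.2
          omega)
      have e : q + ((i0 + 10 - q).toNat : ℤ) = i0 + 10 := by omega
      simp only [e] at h3
      exact ⟨_, _, h3⟩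

theorem move_start (htrans : ∀ z : Z3, ∑' n : ℕ, PP {u | SS n u = z} ≠ ∞)
    (a b : Z3) (π : Measure (Str × Str)) (h1 : π.map Prod.fst ≤ PP) (h2 : π.map Prod.snd ≤ PP)
    (h0 : 0 < π Set.univ)
    (hd : ∀ᵐ ω ∂π, Disjoint (Set.range fun n => a + SS n ω.1) (Set.range fun m => b + SS m ω.2)) :
    ∃ x y : Z3, ∑ i, |x i - y i| = 10 ∧ ∃ π' : Measure (Str × Str),
      π'.map Prod.fst ≤ PP ∧ π'.map Prod.snd ≤ PP ∧ 0 < π' Set.univ ∧
      ∀ᵐ ω ∂π', Disjoint (Set.range fun n => x + SS n ω.1)
        (Set.range fun m => y + SS m ω.2) := by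
  obtain ⟨β, D, hD, hβ0, hβD, hinj, hup, hdn, hdist⟩ := mpath a b
  set B : Set Z3 := β '' Set.Icc (-10) (D + 10) with hB
  have hBfin : B.Finite := (Set.finite_Icc _ _).image _
  have haB : a ∈ B := ⟨0, ⟨by norm_num, by omega⟩, hβ0⟩
  have hbB : b ∈ B := ⟨D, ⟨by omega, by omega⟩, hβD⟩
  -- last exits
  have hX : ∀ᵐ ω ∂π, ∀ᶠ n in Filter.atTop, a + SS n ω.1 ∉ B := by
    have := (Measure.absolutelyContinuous_of_le h1).ae_le (mtrans htrans B hBfin a)
    exact ae_of_ae_map measurable_fst.aemeasurable this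
  have hY : ∀ᵐ ω ∂π, ∀ᶠ n in Filter.atTop, b + SS n ω.2 ∉ B := by
    have := (Measure.absolutelyContinuous_of_le h2).ae_le (mtrans htrans B hBfin b)
    exact ae_of_ae_map measurable_snd.aemeasurable this
  let Ev : (ℕ × ℕ) × (ℤ × ℤ) → Set (Str × Str) := fun k =>
    {ω | (a + SS k.1.1 ω.1 = β k.2.1 ∧ ∀ n, k.1.1 < n → a + SS n ω.1 ∉ B) ∧
      (b + SS k.1.2 ω.2 = β k.2.2 ∧ ∀ n, k.1.2 < n → b + SS n ω.2 ∉ B) ∧
      k.2.1 ∈ Set.Icc (-10) (D + 10) ∧ k.2.2 ∈ Set.Icc (-10) (D + 10) ∧
      ∀ n m, a + SS n ω.1 ≠ b + SS m ω.2}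
  have hEex : ∃ k, ¬ ∀ᵐ ω ∂π, ω ∉ Ev k := by
    by_contra hcon
    push Not at hcon
    have hall : ∀ᵐ ω ∂π, ∀ k, ω ∉ Ev k := ae_all_iff.2 hcon
    have hF : ∀ᵐ ω ∂π, False := by
      filter_upwards [hall, hX, hY, hd] with ω h3 h4 h5 h6
      obtain ⟨t, ht1, ht2⟩ := mlast (X := fun n => a + SS n ω.1)
        (by simp only [mSS_zero, add_zero]; exact haB) h4
      obtain ⟨t', ht1', ht2'⟩ := mlast (X := fun n => b + SS n ω.2)
        (by simp only [mSS_zero, add_zero]; exact hbB) h5
      obtain ⟨p, hp, hp'⟩ := ht1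
      obtain ⟨q, hq, hq'⟩ := ht1'
      refine h3 ((t, t'), (p, q)) ⟨⟨hp'.symm, ht2⟩, ⟨hq'.symm, ht2'⟩, hp, hq, fun n m hnm => ?_⟩
      exact Set.disjoint_left.1 h6 ⟨n, rfl⟩ ⟨m, hnm.symm⟩
    rw [ae_iff] at hF
    simp only [not_false_eq_true, Set.ofPred_true] at hF
    exact h0.ne' hF
  obtain ⟨⟨⟨t, t'⟩, ⟨p, q⟩⟩, hk⟩ := hEex
  set E := Ev ((t, t'), (p, q)) with hE
  have hEpos : π E ≠ 0 := by
    intro hz
    apply hk
    rw [ae_iff]
    simpa using hz
  have hEmeas : MeasurableSet E := by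
    have e : E = ({ω | a + SS t ω.1 = β p} ∩ (⋂ n, ⋂ (_ : t < n),
        (fun ω : Str × Str => a + SS n ω.1) ⁻¹' Bᶜ)) ∩
        (({ω | b + SS t' ω.2 = β q} ∩ (⋂ n, ⋂ (_ : t' < n),
        (fun ω : Str × Str => b + SS n ω.2) ⁻¹' Bᶜ)) ∩
        ({_ω | p ∈ Set.Icc (-10) (D + 10) ∧ q ∈ Set.Icc (-10) (D + 10)} ∩
        (⋂ n, ⋂ m, {ω : Str × Str | a + SS n ω.1 = b + SS m ω.2}ᶜ))) := by
      ext ω
      simp only [hE, Ev, Set.mem_ofPred_eq, Set.mem_inter_iff, Set.mem_iInter, Set.mem_compl_iff,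
        Set.mem_preimage, ne_eq, and_assoc]
    rw [e]
    refine MeasurableSet.inter (MeasurableSet.inter ?_ ?_)
      (MeasurableSet.inter (MeasurableSet.inter ?_ ?_) (MeasurableSet.inter ?_ ?_))
    · exact mmeasX a t (mset_meas {β p})
    · exact MeasurableSet.iInter fun n => MeasurableSet.iInter fun _ => mmeasX a n (mset_meas _)
    · exact mmeasY b t' (mset_meas {β q})
    · exact MeasurableSet.iInter fun n => MeasurableSet.iInter fun _ => mmeasY b n (mset_meas _)
    · exact MeasurableSet.const _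
    · refine MeasurableSet.iInter fun n => MeasurableSet.iInter fun m => MeasurableSet.compl ?_
      exact measurableSet_eq_fun (mmeasX a n) (mmeasY b m)
  -- initial coupling
  have hEne : E.Nonempty := by
    rw [Set.nonempty_iff_ne_empty]
    rintro h
    apply hEpos
    rw [h]; simp
  obtain ⟨ω₀, hω₀⟩ := hEne
  have hp : p ∈ Set.Icc (-10) (D + 10) := hω₀.2.2.1
  have hq : q ∈ Set.Icc (-10) (D + 10) := hω₀.2.2.2.1
  have hpq : p ≠ q := by
    rintro rfl
    exact hω₀.2.2.2.2 t t' (hω₀.1.1.trans hω₀.2.1.1.symm)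
  have hinit : mGG B (β p) {β p} (β q) {β q} := by
    have hF : Measurable (fun ω : Str × Str => (msh t ω.1, msh t' ω.2)) :=
      ((mmeas_shift t).comp measurable_fst).prodMk ((mmeas_shift t').comp measurable_snd)
    refine ⟨(π.restrict E).map (fun ω => (msh t ω.1, msh t' ω.2)), ?_, ?_, ?_, ?_⟩
    · rw [Measure.map_map measurable_fst hF]
      have e : Prod.fst ∘ (fun ω : Str × Str => (msh t ω.1, msh t' ω.2)) = msh t ∘ Prod.fst := rfl
      rw [e, ← Measure.map_map (mmeas_shift t) measurable_fst]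
      conv_rhs => rw [← mPP_shift t]
      refine Measure.map_mono ?_ (mmeas_shift t)
      exact (Measure.map_mono Measure.restrict_le_self measurable_fst).trans h1
    · rw [Measure.map_map measurable_snd hF]
      have e : Prod.snd ∘ (fun ω : Str × Str => (msh t ω.1, msh t' ω.2)) = msh t' ∘ Prod.snd := rfl
      rw [e, ← Measure.map_map (mmeas_shift t') measurable_snd]
      conv_rhs => rw [← mPP_shift t']
      refine Measure.map_mono ?_ (mmeas_shift t')
      exact (Measure.map_mono Measure.restrict_le_self measurable_snd).trans h2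
    · rw [Measure.map_apply hF MeasurableSet.univ, Set.preimage_univ, Measure.restrict_apply_univ]
      exact pos_iff_ne_zero.2 hEpos
    · rw [ae_map_iff hF.aemeasurable (mGP_meas _ _ _ _ _)]
      filter_upwards [ae_restrict_mem hEmeas] with ω hω
      obtain ⟨⟨e1, e2⟩, ⟨e3, e4⟩, _, _, e5⟩ := hω
      simp only at e1 e2 e3 e4
      have k1 : ∀ n, β p + SS n (msh t ω.1) = a + SS (t + n) ω.1 := by
        intro n; rw [mSS_add, ← e1, add_assoc]
      have k2 : ∀ n, β q + SS n (msh t' ω.2) = b + SS (t' + n) ω.2 := by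
        intro n; rw [mSS_add, ← e3, add_assoc]
      refine ⟨fun n m => ?_, fun n => ?_, fun n => ?_⟩
      · simp only [k1, k2]; exact e5 _ _
      · simp only
        cases n with
        | zero => rw [mSS_zero, add_zero]; exact fun _ => Set.mem_singleton _
        | succ n =>
          rw [k1]
          exact fun h => absurd h (e2 _ (by omega))
      · simp only
        cases n with
        | zero => rw [mSS_zero, add_zero]; exact fun _ => Set.mem_singleton _
        | succ n =>
          rw [k2]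
          exact fun h => absurd h (e4 _ (by omega))
  have hfin : ∃ x y : Z3, ∑ i, |x i - y i| = 10 ∧ ∃ U V, mGG B x U y V := by
    rcases lt_or_gt_of_ne hpq with h | h
    · exact mfinish β D p q hD hB hinj hup hdn hdist hp hq h hinit
    · exact mfinish β D q p hD hB hinj hup hdn hdist hq hp h (mGG_symm hinit)
  obtain ⟨x, y, hxy, U, V, π', g1, g2, g3, g4⟩ := hfin
  refine ⟨x, y, hxy, π', g1, g2, g3, ?_⟩
  filter_upwards [g4] with ω hω
  rw [Set.disjoint_left]
  rintro _ ⟨n, rfl⟩ ⟨m, hm⟩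
  exact hω.1 n m hm.symm

end mv

end Pool.Agent.Helper41.GF
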