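import Pool.Agent.Helper41.GF.KerDefs
import Pool.Agent.Helper41.GF.Signs
import Pool.Agent.Helper41.GF.Soup
import Pool.Agent.Helper41.GF.Radial

/-!
# Definitions: finite weighted graphs with ghost edges, currents, signs, ghost paths
-/

set_option autoImplicit false

open scoped ENNReal Nat
open Finset MeasureTheory

namespace Pool.Agent.Helper41.GF


/-! ## definitions for the targets -/

section kernel

variable {V E H ι : Type} [Fintype V] [DecidableEq V] [Fintype E] [DecidableEq E] [Fintype H]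
  [DecidableEq H] [Fintype ι] [DecidableEq ι]

/-! ## TARGETS -/

theorem measurable_Jr (G : GG V E H) (e : E ⊕ H) :
    Measurable (fun ψ : V → ℝ => G.Jr (fun x => |ψ x|) e) := by
  have habs : ∀ x : V, Measurable fun ψ : V → ℝ => |ψ x| := fun x =>
    continuous_abs.measurable.comp (measurable_pi_apply x)
  rcases e with e | g
  · change Measurable (fun ψ : V → ℝ => (G.w e : ℝ) * (|ψ (G.src e)| * |ψ (G.tgt e)|))
    exact ((habs _).mul (habs _)).const_mul _
  · change Measurable (fun ψ : V → ℝ => (G.f g : ℝ) * |ψ (G.hs g)|)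
    exact (habs _).const_mul _

theorem measurable_cw (G : GG V E H) (n : E ⊕ H → ℕ) :
    Measurable (fun ψ : V → ℝ => cw G.inc (G.Jr (fun x => |ψ x|)) n) := by
  unfold cw
  by_cases h : ∀ x, Even (deg G.inc n x)
  · simp only [if_pos h]
    exact Finset.measurable_fun_prod _ fun e _ => ((measurable_Jr G e).pow_const _).div_const _
  · simp only [if_neg h]
    exact measurable_const

theorem measurable_qq (G : GG V E H) (n : E ⊕ H → ℕ) (σ : V → Bool) :
    Measurable (fun ψ : V → ℝ => qq G.inc (G.Jr (fun x => |ψ x|)) n σ) := by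
  unfold qq
  refine Finset.measurable_fun_sum _ fun ω _ => ?_
  split_ifs
  · refine Measurable.div_const (Measurable.mul ?_ ?_) _
    · refine Finset.measurable_fun_prod _ fun e _ => ?_
      split_ifs
      · exact measurable_const.sub (Real.measurable_exp.comp (measurable_Jr G e).neg)
      · exact measurable_const
    · exact Finset.measurable_fun_prod _ fun e _ =>
        Real.measurable_exp.comp (measurable_Jr G e).neg
  · exact measurable_const

theorem measurable_sgn : Measurable (fun ψ : V → ℝ => (sgn ψ : V → Bool)) := by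
  refine measurable_pi_lambda _ fun x => ?_
  apply measurable_to_bool
  have : (fun c : V → ℝ => sgn c x) ⁻¹' {true} = {c : V → ℝ | 0 < c x} := by
    ext c
    simp [sgn]
  rw [this]
  exact measurableSet_lt measurable_const (measurable_pi_apply x)

/-- auxiliary two variable version of `sk` -/
noncomputable def skf (G : GG V E H) (tp : H × List (E × Bool) × H → ι) (env : Env E H ι)
    (p : (V → ℝ) × (V → Bool)) : ℝ≥0∞ :=
  G.ew tp env * (G.Phi Ga (ncur env))⁻¹
    * ENNReal.ofReal (cw G.inc (G.Jr (fun x => |p.1 x|)) (ncur env)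
        * qq G.inc (G.Jr (fun x => |p.1 x|)) (ncur env) p.2)
    * ENNReal.ofReal (2 ^ (Fintype.card V)
        * Real.exp (-∑ e, G.Jr (fun x => |p.1 x|) e * sgE G.inc p.2 e))

theorem measurable_skf (G : GG V E H) (tp : H × List (E × Bool) × H → ι) (env : Env E H ι) :
    Measurable (skf G tp env) := by
  apply measurable_from_prod_countable_left
  intro σ
  have h1 : Measurable fun ψ : V → ℝ => ENNReal.ofReal (cw G.inc (G.Jr (fun x => |ψ x|)) (ncur env)
        * qq G.inc (G.Jr (fun x => |ψ x|)) (ncur env) σ) :=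
    ((measurable_cw G (ncur env)).mul (measurable_qq G (ncur env) σ)).ennreal_ofReal
  have h2 : Measurable fun ψ : V → ℝ =>
      (∑ e, G.Jr (fun x => |ψ x|) e * sgE G.inc σ e) :=
    Finset.measurable_fun_sum _ fun e _ => (measurable_Jr G e).mul_const _
  have h3 : Measurable fun ψ : V → ℝ => ENNReal.ofReal (2 ^ (Fintype.card V)
        * Real.exp (-∑ e, G.Jr (fun x => |ψ x|) e * sgE G.inc σ e)) :=
    ((Real.measurable_exp.comp h2.neg).const_mul _).ennreal_ofReal
  exact (h1.const_mul _).mul h3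

theorem measurable_sk (G : GG V E H) (tp : H × List (E × Bool) × H → ι) (env : Env E H ι) :
    Measurable (fun ψ : V → ℝ => G.sk tp ψ env) := by
  have h1 : (fun ψ : V → ℝ => G.sk tp ψ env) = fun ψ => skf G tp env (ψ, sgn ψ) := by
    funext ψ
    unfold GG.sk skf
    rfl
  rw [h1]
  exact (measurable_skf G tp env).comp (measurable_id.prodMk measurable_sgn)

theorem Jr_nonneg (G : GG V E H) (ψ : V → ℝ) (e : E ⊕ H) : 0 ≤ G.Jr (fun x => |ψ x|) e := by
  rcases e with e | g
  · change 0 ≤ (G.w e : ℝ) * (|ψ (G.src e)| * |ψ (G.tgt e)|)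
    positivity
  · change 0 ≤ (G.f g : ℝ) * |ψ (G.hs g)|
    positivity

theorem wt_ne_zero (G : GG V E H) (ψ : V → ℝ) (e : E ⊕ H)
    (h : G.Jr (fun x => |ψ x|) e ≠ 0) : G.wt e ≠ 0 := by
  rcases e with e | g
  · intro h0
    apply h
    change (G.w e : ℝ) * (|ψ (G.src e)| * |ψ (G.tgt e)|) = 0
    have : G.w e = 0 := h0
    rw [this]; simp
  · intro h0
    apply h
    change (G.f g : ℝ) * |ψ (G.hs g)| = 0
    have : G.f g = 0 := h0
    rw [this]; simp

theorem Phi_cancel (G : GG V E H) (ψ : V → ℝ) (n : E ⊕ H → ℕ) (σ : V → Bool) :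
    G.Phi Ga n * ((G.Phi Ga n)⁻¹ * ENNReal.ofReal (cw G.inc (G.Jr (fun x => |ψ x|)) n
      * qq G.inc (G.Jr (fun x => |ψ x|)) n σ))
    = ENNReal.ofReal (cw G.inc (G.Jr (fun x => |ψ x|)) n
      * qq G.inc (G.Jr (fun x => |ψ x|)) n σ) := by
  by_cases h : cw G.inc (G.Jr (fun x => |ψ x|)) n = 0
  · rw [h]; simp
  · have h0 : G.Phi Ga n ≠ 0 ∧ G.Phi Ga n ≠ ∞ := by
      unfold cw at h
      split_ifs at h with hev
      · replace h := Finset.prod_ne_zero_iff.1 h
        unfold GG.Phi
        rw [if_pos hev]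
        constructor
        · apply mul_ne_zero
          · rw [Finset.prod_ne_zero_iff]
            intro e _
            rw [ENNReal.div_ne_zero]
            refine ⟨?_, ENNReal.natCast_ne_top _⟩
            by_cases hn : n e = 0
            · rw [hn, pow_zero]; exact one_ne_zero
            · apply pow_ne_zero
              rw [ENNReal.coe_ne_zero]
              apply wt_ne_zero G ψ e
              intro hJ
              apply h e (Finset.mem_univ _)
              rw [hJ, zero_pow hn, zero_div]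
          · rw [Finset.prod_ne_zero_iff]
            intro x _
            exact Ga_ne_zero _
        · apply ENNReal.mul_ne_top
          · apply ENNReal.prod_ne_top
            intro e _
            apply ENNReal.div_ne_top
            · exact ENNReal.pow_ne_top ENNReal.coe_ne_top
            · exact_mod_cast (Nat.factorial_ne_zero _)
          · exact ENNReal.prod_ne_top fun x _ => Ga_ne_top _
      · exact absurd rfl h
    rw [← mul_assoc, ENNReal.mul_inv_cancel h0.1 h0.2, one_mul]

theorem const_cancel (N : ℕ) (S : ℝ) : (1 / 2 : ℝ) ^ N * Real.exp S * (2 ^ N * Real.exp (-S)) = 1 := by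
  have h1 : (1 / 2 : ℝ) ^ N * 2 ^ N = 1 := by
    rw [← mul_pow]; norm_num
  have h2 : Real.exp S * Real.exp (-S) = 1 := by
    rw [← Real.exp_add]; simp
  calc (1 / 2 : ℝ) ^ N * Real.exp S * (2 ^ N * Real.exp (-S))
      = ((1 / 2 : ℝ) ^ N * 2 ^ N) * (Real.exp S * Real.exp (-S)) := by ring
    _ = 1 := by rw [h1, h2, one_mul]

/-- general form: summation against a weight of the current -/
theorem sk_weighted (G : GG V E H) (tp : H × List (E × Bool) × H → ι) (ψ : V → ℝ)
    (w : (E ⊕ H → ℕ) → ℝ≥0∞) :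
    ∑' env : Env E H ι, G.sk tp ψ env * w (ncur env)
      = (∑' n : E ⊕ H → ℕ, ENNReal.ofReal (cw G.inc (G.Jr (fun x => |ψ x|)) n
      * qq G.inc (G.Jr (fun x => |ψ x|)) n (sgn ψ)) * w n)
        * ENNReal.ofReal (2 ^ (Fintype.card V)
        * Real.exp (-∑ e, G.Jr (fun x => |ψ x|) e * sgE G.inc (sgn ψ) e)) := by
  set c := ENNReal.ofReal (2 ^ (Fintype.card V)
        * Real.exp (-∑ e, G.Jr (fun x => |ψ x|) e * sgE G.inc (sgn ψ) e)) with hc
  have h := soup_decomp G Ga (fun d _ => Ga_rec d) Ga_ne_top tp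
    (fun n => (G.Phi Ga n)⁻¹ * ENNReal.ofReal (cw G.inc (G.Jr (fun x => |ψ x|)) n
      * qq G.inc (G.Jr (fun x => |ψ x|)) n (sgn ψ)) * (w n * c))
  have hL : ∑' n : E ⊕ H → ℕ, G.Phi Ga n * ((G.Phi Ga n)⁻¹ *
      ENNReal.ofReal (cw G.inc (G.Jr (fun x => |ψ x|)) n
      * qq G.inc (G.Jr (fun x => |ψ x|)) n (sgn ψ)) * (w n * c))
      = (∑' n : E ⊕ H → ℕ, ENNReal.ofReal (cw G.inc (G.Jr (fun x => |ψ x|)) n
      * qq G.inc (G.Jr (fun x => |ψ x|)) n (sgn ψ)) * w n) * c := by
    rw [← ENNReal.tsum_mul_right]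
    apply tsum_congr
    intro n
    rw [← mul_assoc (G.Phi Ga n), Phi_cancel, mul_assoc]
  rw [← hL, h, ENNReal.tsum_prod']
  apply tsum_congr
  intro l
  apply tsum_congr
  intro n'
  have e : ncur ((l, n') : Env E H ι) = Sum.elim n' 0 + ∑ t, ((l t).map npath).sum := rfl
  rw [← e]
  unfold GG.sk GG.ew
  rw [← hc]
  ring

theorem sk_sum (G : GG V E H) (tp : H × List (E × Bool) × H → ι) (ψ : V → ℝ) :
    ∑' env, G.sk tp ψ env = 1 := by
  have h := sk_weighted G tp ψ (fun _ => 1)
  simp only [mul_one] at h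
  rw [h, qq_marginal G.inc _ (Jr_nonneg G ψ), ← ENNReal.ofReal_mul (by positivity), const_cancel,
    ENNReal.ofReal_one]

open Classical in
theorem sk_visit (G : GG V E H) (tp : H × List (E × Bool) × H → ι) (ψ : V → ℝ) (z : V) :
    ∑' env, (if deg G.inc (ncur env) z ≠ 0 then G.sk tp ψ env else 0)
      ≤ ENNReal.ofReal (3 * (∑ e, if z ∈ G.inc e then G.Jr (fun x => |ψ x|) e else 0) ^ 2) := by
  have h := sk_weighted G tp ψ (fun n => if deg G.inc n z ≠ 0 then 1 else 0)
  have e1 : ∑' env, (if deg G.inc (ncur env) z ≠ 0 then G.sk tp ψ env else 0)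
      = ∑' env : Env E H ι, G.sk tp ψ env * (if deg G.inc (ncur env) z ≠ 0 then 1 else 0) := by
    apply tsum_congr
    intro env
    split_ifs
    · rw [mul_one]
    · rw [mul_zero]
  have e2 : ∑' n : E ⊕ H → ℕ, ENNReal.ofReal (cw G.inc (G.Jr (fun x => |ψ x|)) n
      * qq G.inc (G.Jr (fun x => |ψ x|)) n (sgn ψ)) * (if deg G.inc n z ≠ 0 then 1 else 0)
      = ∑' n : E ⊕ H → ℕ, (if deg G.inc n z ≠ 0 then
        ENNReal.ofReal (cw G.inc (G.Jr (fun x => |ψ x|)) n
      * qq G.inc (G.Jr (fun x => |ψ x|)) n (sgn ψ)) else 0) := by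
    apply tsum_congr
    intro n
    split_ifs
    · rw [mul_one]
    · rw [mul_zero]
  rw [e1, h, e2]
  have h2 := qq_visit G.inc (G.Jr (fun x => |ψ x|)) (Jr_nonneg G ψ) (sgn ψ) z
  refine (mul_le_mul_left h2 _).trans ?_
  rw [← ENNReal.ofReal_mul (by positivity), mul_assoc, const_cancel, mul_one]

end kernel

end Pool.Agent.Helper41.GF
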