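import Pool.Agent.Helper41.GF.LyapA
import Pool.Agent.Helper41.GF.Move

/-!
# Definitions: finite weighted graphs with ghost edges, currents, signs, ghost paths
-/

set_option autoImplicit false

open scoped ENNReal Nat
open Finset MeasureTheory

namespace Pool.Agent.Helper41.GF


attribute [local instance] mv_prob1

attribute [local instance] mv_prob2

/-! ## TARGETS -/

/-- the superharmonic function -/
noncomputable def tff (y : Z3) : ℝ := 1 / Real.sqrt (nq y + 100)

theorem tff_nonneg (y : Z3) : 0 ≤ tff y := by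
  unfold tff
  positivity

theorem tff_le (y : Z3) : tff y ≤ 1 := by
  unfold tff
  have h0 : 0 ≤ nq y := by
    unfold nq
    positivity
  have h1 : (1 : ℝ) ≤ Real.sqrt (nq y + 100) := by
    rw [Real.one_le_sqrt]
    linarith
  rw [div_le_one (by linarith)]
  exact h1

theorem tff_av (x : Z3) : Av tff x + (if x = 0 then (1 / 4000 : ℝ) else 0) ≤ tff x := by
  split_ifs with h
  · subst h
    have := Av_inv_sqrt_zero
    change Av tff 0 ≤ tff 0 - 1 / 4000 at this
    linarith
  · have := Av_inv_sqrt_le 100 le_rfl x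
    change Av tff x ≤ tff x at this
    linarith

/-- the ENNReal valued function -/
noncomputable def tFF (z y : Z3) : ℝ≥0∞ := ENNReal.ofReal (tff (y - z))

theorem tFF_sum (z x : Z3) :
    (6 : ℝ≥0∞)⁻¹ * ∑ s : Stp, tFF z (vec s + x) = ENNReal.ofReal (Av tff (x - z)) := by
  have h1 : ∑ s : Stp, tFF z (vec s + x) = ENNReal.ofReal (∑ s : Stp, tff (vec s + x - z)) := by
    rw [ENNReal.ofReal_sum_of_nonneg (fun s _ => tff_nonneg _)]
    rfl
  have h2 : (6 : ℝ≥0∞)⁻¹ = ENNReal.ofReal (1 / 6) := by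
    rw [one_div, ENNReal.ofReal_inv_of_pos (by norm_num)]
    norm_num
  rw [h1, h2, ← ENNReal.ofReal_mul (by norm_num)]
  congr 1
  unfold Av
  congr 1
  rw [Fintype.sum_prod_type]
  apply Finset.sum_congr rfl
  intro i _
  rw [Fintype.sum_bool]
  have e1 : vec (i, true) + x - z = x - z + Pi.single i 1 := by
    unfold vec
    simp only [if_true]
    abel
  have e2 : vec (i, false) + x - z = x - z - Pi.single i 1 := by
    unfold vec
    simp only [Bool.false_eq_true, if_false]
    rw [Pi.single_neg]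
    abel
  rw [e1, e2]

theorem tFF_step (z x : Z3) :
    (6 : ℝ≥0∞)⁻¹ * ∑ s : Stp, tFF z (vec s + x) +
      (if x = z then ENNReal.ofReal (1 / 4000) else 0) ≤ tFF z x := by
  rw [tFF_sum]
  have h := tff_av (x - z)
  unfold tFF
  by_cases hx : x = z
  · rw [if_pos hx]
    rw [if_pos (sub_eq_zero.2 hx)] at h
    have hA : 0 ≤ Av tff (x - z) := by
      unfold Av
      have : ∀ y, 0 ≤ tff y := tff_nonneg
      refine mul_nonneg (by norm_num) (Finset.sum_nonneg (fun i _ => add_nonneg (this _) (this _)))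
    rw [← ENNReal.ofReal_add hA (by norm_num)]
    exact ENNReal.ofReal_le_ofReal h
  · rw [if_neg hx, add_zero]
    rw [if_neg (fun h => hx (sub_eq_zero.1 h)), add_zero] at h
    exact ENNReal.ofReal_le_ofReal h

theorem tFF_int_step (z : Z3) (n : ℕ) :
    ∫⁻ u, tFF z (SS (n + 1) u) ∂PP + ENNReal.ofReal (1 / 4000) * PP {u | SS n u = z} ≤
      ∫⁻ u, tFF z (SS n u) ∂PP := by
  have hmF : ∀ (g : Z3 → ℝ≥0∞) (k : ℕ), Measurable (fun u => g (SS k u)) := by
    intro g k
    exact (Measurable.of_discrete (f := g)).comp (mmeas_SS k)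
  have hset : MeasurableSet {u : Str | SS n u = z} :=
    (mmeas_SS n) (MeasurableSet.of_discrete (s := ({z} : Set Z3)))
  have h1 : ∫⁻ u, tFF z (SS (n + 1) u) ∂PP =
      ∫⁻ u, (6 : ℝ≥0∞)⁻¹ * ∑ s : Stp, tFF z (vec s + SS n u) ∂PP := by
    rw [mlintegral_PP (hmF (tFF z) (n + 1))]
    have hm : Measurable (fun u => ∑ s : Stp, tFF z (vec s + SS n u)) :=
      hmF (fun y => ∑ s : Stp, tFF z (vec s + y)) n
    rw [lintegral_const_mul _ hm,
      lintegral_finsetSum _ (fun s _ => hmF (fun y => tFF z (vec s + y)) n)]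
    congr 1
    apply Finset.sum_congr rfl
    intro s _
    apply lintegral_congr
    intro u
    rw [mSS_scons]
  have h2 : ENNReal.ofReal (1 / 4000) * PP {u | SS n u = z} =
      ∫⁻ u, (if SS n u = z then ENNReal.ofReal (1 / 4000) else 0) ∂PP := by
    have : (fun u => (if SS n u = z then ENNReal.ofReal (1 / 4000) else 0)) =
        Set.indicator {u : Str | SS n u = z} (fun _ => ENNReal.ofReal (1 / 4000)) := by
      ext u
      by_cases hu : SS n u = z
      · rw [if_pos hu, Set.indicator_of_mem (show u ∈ {u : Str | SS n u = z} from hu)]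
      · rw [if_neg hu, Set.indicator_of_notMem (show u ∉ {u : Str | SS n u = z} from hu)]
    rw [this, lintegral_indicator hset, setLIntegral_const]
  have hm1 : Measurable (fun u => (6 : ℝ≥0∞)⁻¹ * ∑ s : Stp, tFF z (vec s + SS n u)) :=
    hmF (fun y => (6 : ℝ≥0∞)⁻¹ * ∑ s : Stp, tFF z (vec s + y)) n
  rw [h1, h2, ← lintegral_add_left hm1]
  apply lintegral_mono
  intro u
  exact tFF_step z (SS n u)

/-- the walk visits every site finitely often in mean -/
theorem transience (z : Z3) : ∑' n : ℕ, PP {u | SS n u = z} ≠ ∞ := by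
  have hind : ∀ N : ℕ, ∑ n ∈ Finset.range N, ENNReal.ofReal (1 / 4000) * PP {u | SS n u = z} +
      ∫⁻ u, tFF z (SS N u) ∂PP ≤ ∫⁻ u, tFF z (SS 0 u) ∂PP := by
    intro N
    induction N with
    | zero => simp
    | succ N ih =>
      refine le_trans ?_ ih
      rw [Finset.sum_range_succ, add_assoc]
      gcongr
      rw [add_comm]
      exact tFF_int_step z N
  have h0 : ∫⁻ u, tFF z (SS 0 u) ∂PP ≤ 1 := by
    calc ∫⁻ u, tFF z (SS 0 u) ∂PP ≤ ∫⁻ _, 1 ∂PP := by
          apply lintegral_mono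
          intro u
          unfold tFF
          exact ENNReal.ofReal_le_one.2 (tff_le _)
      _ = 1 := by simp
  have hts : ∑' n : ℕ, ENNReal.ofReal (1 / 4000) * PP {u | SS n u = z} ≤ 1 := by
    apply ENNReal.tsum_le_of_sum_range_le
    intro N
    exact le_trans (le_trans le_self_add (hind N)) h0
  rw [ENNReal.tsum_mul_left] at hts
  intro htop
  rw [htop, ENNReal.mul_top (by simp)] at hts
  exact absurd hts (by simp)

/-- completion of a subcoupling -/
theorem completion (π : Measure (Str × Str)) (h1 : π.map Prod.fst ≤ PP)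
    (h2 : π.map Prod.snd ≤ PP) (h0 : 0 < π Set.univ) (S : Set (Str × Str))
    (hS : ∀ᵐ ω ∂π, ω ∈ S) :
    ∃ μ : Measure (Str × Str), IsProbabilityMeasure μ ∧ μ.map Prod.fst = PP ∧
      μ.map Prod.snd = PP ∧ 0 < μ S := by
  have hhalf : ∀ m : Measure Str, (2⁻¹ : ℝ≥0∞) • m ≤ m := by
    intro m
    rw [Measure.le_iff]
    intro s _
    rw [Measure.smul_apply, smul_eq_mul]
    calc (2⁻¹ : ℝ≥0∞) * m s ≤ 1 * m s := by
          gcongr
          exact ENNReal.inv_le_one.2 (by norm_num)
      _ = m s := one_mul _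
  have hmap1 : ((2⁻¹ : ℝ≥0∞) • π).map Prod.fst ≤ PP := by
    rw [Measure.map_smul]
    exact le_trans (hhalf _) h1
  have hmap2 : ((2⁻¹ : ℝ≥0∞) • π).map Prod.snd ≤ PP := by
    rw [Measure.map_smul]
    exact le_trans (hhalf _) h2
  have hPP : PP Set.univ = 1 := measure_univ
  have hπ1 : π Set.univ ≤ 1 := by
    have := h1 Set.univ
    rw [Measure.map_apply measurable_fst MeasurableSet.univ, Set.preimage_univ, hPP] at this
    exact this
  obtain ⟨ν, hν⟩ : ∃ ν : Measure (Str × Str), ν = (2⁻¹ : ℝ≥0∞) • π := ⟨_, rfl⟩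
  rw [← hν] at hmap1 hmap2
  have hνu : ν Set.univ ≤ 2⁻¹ := by
    rw [hν, Measure.smul_apply, smul_eq_mul]
    calc (2⁻¹ : ℝ≥0∞) * π Set.univ ≤ 2⁻¹ * 1 := by gcongr
      _ = 2⁻¹ := mul_one _
  have hm1 : (ν.map Prod.fst) Set.univ = ν Set.univ := by
    rw [Measure.map_apply measurable_fst MeasurableSet.univ, Set.preimage_univ]
  have hm2 : (ν.map Prod.snd) Set.univ = ν Set.univ := by
    rw [Measure.map_apply measurable_snd MeasurableSet.univ, Set.preimage_univ]
  have : IsFiniteMeasure ν := ⟨lt_of_le_of_lt hνu (by simp)⟩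
  have : IsFiniteMeasure (ν.map Prod.fst) := by infer_instance
  have : IsFiniteMeasure (ν.map Prod.snd) := by infer_instance
  have hs1 : PP - ν.map Prod.fst + ν.map Prod.fst = PP := Measure.sub_add_cancel_of_le hmap1
  have hs2 : PP - ν.map Prod.snd + ν.map Prod.snd = PP := Measure.sub_add_cancel_of_le hmap2
  obtain ⟨ρ1, hρ1⟩ : ∃ ρ1 : Measure Str, ρ1 = PP - ν.map Prod.fst := ⟨_, rfl⟩
  obtain ⟨ρ2, hρ2⟩ : ∃ ρ2 : Measure Str, ρ2 = PP - ν.map Prod.snd := ⟨_, rfl⟩
  have : IsFiniteMeasure ρ1 := by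
    rw [hρ1]
    infer_instance
  have : IsFiniteMeasure ρ2 := by
    rw [hρ2]
    infer_instance
  rw [← hρ1] at hs1
  rw [← hρ2] at hs2
  have hνtop : ν Set.univ ≠ ∞ := measure_ne_top _ _
  have hu1 : ρ1 Set.univ = 1 - ν Set.univ := by
    have := congrArg (fun m : Measure Str => m Set.univ) hs1
    simp only [Measure.coe_add, Pi.add_apply, hm1, hPP] at this
    rw [← this]
    exact (ENNReal.add_sub_cancel_right hνtop).symm
  have hu2 : ρ2 Set.univ = 1 - ν Set.univ := by
    have := congrArg (fun m : Measure Str => m Set.univ) hs2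
    simp only [Measure.coe_add, Pi.add_apply, hm2, hPP] at this
    rw [← this]
    exact (ENNReal.add_sub_cancel_right hνtop).symm
  have ht0 : (1 - ν Set.univ) ≠ 0 := by
    rw [Ne, tsub_eq_zero_iff_le, not_le]
    refine lt_of_le_of_lt hνu ?_
    exact ENNReal.inv_lt_one.2 (by norm_num)
  have htt : (1 - ν Set.univ) ≠ ∞ := ENNReal.sub_ne_top (by simp)
  have hf1 : (ν + (1 - ν Set.univ)⁻¹ • (ρ1.prod ρ2)).map Prod.fst = PP := by
    rw [Measure.map_add _ _ measurable_fst, Measure.map_smul, Measure.map_fst_prod, hu2, smul_smul,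
      ENNReal.inv_mul_cancel ht0 htt, one_smul, add_comm]
    exact hs1
  have hf2 : (ν + (1 - ν Set.univ)⁻¹ • (ρ1.prod ρ2)).map Prod.snd = PP := by
    rw [Measure.map_add _ _ measurable_snd, Measure.map_smul, Measure.map_snd_prod, hu1, smul_smul,
      ENNReal.inv_mul_cancel ht0 htt, one_smul, add_comm]
    exact hs2
  refine ⟨ν + (1 - ν Set.univ)⁻¹ • (ρ1.prod ρ2), ?_, hf1, hf2, ?_⟩
  · constructor
    have := congrArg (fun m : Measure Str => m Set.univ) hf1
    rw [Measure.map_apply measurable_fst MeasurableSet.univ, Set.preimage_univ, hPP] at this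
    exact this
  · rw [Measure.add_apply]
    refine lt_of_lt_of_le ?_ le_self_add
    rw [hν, Measure.smul_apply, smul_eq_mul]
    have hSc : π Sᶜ = 0 := by
      rw [ae_iff] at hS
      exact hS
    have hSS : π Set.univ ≤ π S := by
      calc π Set.univ = π (S ∪ Sᶜ) := by rw [Set.union_compl_self]
        _ ≤ π S + π Sᶜ := measure_union_le _ _
        _ = π S := by rw [hSc, add_zero]
    exact ENNReal.mul_pos (by simp) (lt_of_lt_of_le h0 hSS).ne'

end Pool.Agent.Helper41.GF
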