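import Pool.Agent.Helper41.GF.Extract
import Pool.Agent.Helper41.GF.Limit
import Pool.Agent.Helper41.GF.Trans

/-!
# Definitions: finite weighted graphs with ghost edges, currents, signs, ghost paths
-/

set_option autoImplicit false

open scoped ENNReal Nat
open Finset MeasureTheory

namespace Pool.Agent.Helper41.GF


theorem m7_sum_snoc {n : ℕ} (F : (Fin (n + 1) → Stp) → ℝ≥0∞) :
    ∑ s, F s = ∑ c : Stp, ∑ s : Fin n → Stp, F (Fin.snoc (α := fun _ => Stp) s c) := by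
  rw [← Fintype.sum_prod_type']
  symm
  apply Fintype.sum_equiv (Fin.snocEquiv (fun _ : Fin (n + 1) => Stp))
  rintro ⟨c, s⟩
  rfl

theorem m7_mono {a b : Z3} (n : ℕ) (x y : Fin (n + 1) → Stp)
    (h : BadC a b n (fun i => x i.castSucc) (fun i => y i.castSucc)) : BadC a b (n + 1) x y := by
  obtain ⟨i, j, hi, hj, h⟩ := h
  refine ⟨i, j, by omega, by omega, ?_⟩
  rw [Fin.sum_univ_castSucc, Fin.sum_univ_castSucc]
  rw [if_neg (by simp; omega), if_neg (by simp; omega), add_zero, add_zero]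
  exact h

/-- good subcouplings -/
def m7G (a b : Z3) (n : ℕ) (p : ℝ≥0∞) (q : (Fin n → Stp) → (Fin n → Stp) → ℝ≥0∞) : Prop :=
  (∀ s, ∑ t, q s t ≤ ((6 : ℝ≥0∞)⁻¹) ^ n) ∧ (∀ t, ∑ s, q s t ≤ ((6 : ℝ≥0∞)⁻¹) ^ n) ∧
      (∀ s t, BadC a b n s t → q s t = 0) ∧ p ≤ ∑ s, ∑ t, q s t

theorem m7_six (n : ℕ) : ∑ _c : Stp, ((6 : ℝ≥0∞)⁻¹) ^ (n + 1) = ((6 : ℝ≥0∞)⁻¹) ^ n := by
  rw [Finset.sum_const, Finset.card_univ]
  have : Fintype.card Stp = 6 := by simp [Stp]
  rw [this, pow_succ, nsmul_eq_mul]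
  have h6 : ((6:ℕ) : ℝ≥0∞) = 6 := by norm_num
  rw [h6, mul_comm, mul_assoc, ENNReal.inv_mul_cancel (by norm_num) (by norm_num), mul_one]

theorem m7_proj {a b : Z3} {n : ℕ} {p : ℝ≥0∞} (h : ∃ q, m7G a b (n + 1) p q) :
    ∃ q, m7G a b n p q := by
  obtain ⟨q, h1, h2, h3, h4⟩ := h
  refine ⟨fun s t => ∑ c : Stp, ∑ d : Stp, q (Fin.snoc (α := fun _ => Stp) s c)
    (Fin.snoc (α := fun _ => Stp) t d), ?_, ?_, ?_, ?_⟩
  · intro s
    calc ∑ t : Fin n → Stp, ∑ c : Stp, ∑ d : Stp, q (Fin.snoc (α := fun _ => Stp) s c)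
          (Fin.snoc (α := fun _ => Stp) t d)
        = ∑ c : Stp, ∑ t : Fin (n + 1) → Stp, q (Fin.snoc (α := fun _ => Stp) s c) t := by
          rw [Finset.sum_comm]
          refine Finset.sum_congr rfl fun c _ => ?_
          rw [m7_sum_snoc, Finset.sum_comm]
      _ ≤ ∑ _c : Stp, ((6 : ℝ≥0∞)⁻¹) ^ (n + 1) := Finset.sum_le_sum fun c _ => h1 _
      _ = _ := m7_six n
  · intro t
    calc ∑ s : Fin n → Stp, ∑ c : Stp, ∑ d : Stp, q (Fin.snoc (α := fun _ => Stp) s c)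
          (Fin.snoc (α := fun _ => Stp) t d)
        = ∑ d : Stp, ∑ s : Fin (n + 1) → Stp, q s (Fin.snoc (α := fun _ => Stp) t d) := by
          have : ∀ s : Fin n → Stp, ∑ c : Stp, ∑ d : Stp, q (Fin.snoc (α := fun _ => Stp) s c)
              (Fin.snoc (α := fun _ => Stp) t d) = ∑ d : Stp, ∑ c : Stp,
              q (Fin.snoc (α := fun _ => Stp) s c) (Fin.snoc (α := fun _ => Stp) t d) :=
            fun s => Finset.sum_comm
          simp_rw [this]
          rw [Finset.sum_comm]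
          refine Finset.sum_congr rfl fun d _ => ?_
          rw [m7_sum_snoc, Finset.sum_comm]
      _ ≤ ∑ _c : Stp, ((6 : ℝ≥0∞)⁻¹) ^ (n + 1) := Finset.sum_le_sum fun c _ => h2 _
      _ = _ := m7_six n
  · intro s t hst
    refine Finset.sum_eq_zero fun c _ => Finset.sum_eq_zero fun d _ => h3 _ _ ?_
    apply m7_mono
    have e1 : (fun i : Fin n => (Fin.snoc (α := fun _ => Stp) s c : Fin (n + 1) → Stp) i.castSucc) = s := by
      funext i; exact Fin.snoc_castSucc (α := fun _ => Stp) _ _ _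
    have e2 : (fun i : Fin n => (Fin.snoc (α := fun _ => Stp) t d : Fin (n + 1) → Stp) i.castSucc) = t := by
      funext i; exact Fin.snoc_castSucc (α := fun _ => Stp) _ _ _
    rw [e1, e2]
    exact hst
  · refine h4.trans (le_of_eq ?_)
    rw [m7_sum_snoc, Finset.sum_comm]
    refine Finset.sum_congr rfl fun s _ => ?_
    have : ∀ c : Stp, ∑ t : Fin (n + 1) → Stp, q (Fin.snoc (α := fun _ => Stp) s c) t =
        ∑ t : Fin n → Stp, ∑ d : Stp, q (Fin.snoc (α := fun _ => Stp) s c)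
          (Fin.snoc (α := fun _ => Stp) t d) := by
      intro c
      rw [m7_sum_snoc, Finset.sum_comm]
    simp_rw [this]
    rw [Finset.sum_comm]

theorem m7_down {a b : Z3} {p : ℝ≥0∞} {n m : ℕ} (hnm : n ≤ m) (h : ∃ q, m7G a b m p q) :
    ∃ q, m7G a b n p q := by
  induction m, hnm using Nat.le_induction with
  | base => exact h
  | succ m _ ih => exact ih (m7_proj h)

/-- the steps of both walks under a common pair of starting points -/
theorem fixed_start : ∃ (a b : Z3) (p : ℝ≥0∞), 0 < p ∧ ∀ n, ∃ q : (Fin n → Stp) → (Fin n → Stp) → ℝ≥0∞,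
      (∀ s, ∑ t, q s t ≤ ((6 : ℝ≥0∞)⁻¹) ^ n) ∧ (∀ t, ∑ s, q s t ≤ ((6 : ℝ≥0∞)⁻¹) ^ n) ∧
      (∀ s t, BadC a b n s t → q s t = 0) ∧ p ≤ ∑ s, ∑ t, q s t := by
  obtain ⟨B, hB0, hB⟩ : ∃ B : ℤ, 0 ≤ B ∧ (2:ℝ) ^ 8000 = (B:ℝ) ^ 2 := by
    refine ⟨2 ^ 4000, pow_nonneg (by norm_num) _, ?_⟩
    rw [Int.cast_pow, ← pow_mul]
    rfl
  have hS : ∀ a : Z3, nq a ≤ 2 ^ 8000 →
      a ∈ (Finset.Icc (fun _ => -B) (fun _ => B) : Finset Z3) := by
    intro a ha
    rw [hB] at ha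
    have h1 : ∀ i, |a i| ≤ B := by
      intro i
      have h2 : ((a i : ℝ)) ^ 2 ≤ (B:ℝ) ^ 2 := by
        refine le_trans ?_ ha
        unfold nq
        exact Finset.single_le_sum (f := fun i => ((a i : ℝ)) ^ 2) (fun j _ => sq_nonneg _)
          (Finset.mem_univ i)
      have h3 : (a i) ^ 2 ≤ B ^ 2 := by exact_mod_cast h2
      exact abs_le_of_sq_le_sq h3 hB0
    rw [Finset.mem_Icc, Pi.le_def, Pi.le_def]
    exact ⟨fun i => (abs_le.1 (h1 i)).1, fun i => (abs_le.1 (h1 i)).2⟩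
  obtain ⟨S, hSdef⟩ : ∃ S : Finset Z3, ∀ a : Z3, nq a ≤ 2 ^ 8000 → a ∈ S := ⟨_, hS⟩
  have hex := fun n => extract S hSdef n
  choose a ha b hb q hq using hex
  let f : ℕ → S × S := fun n => (⟨a n, ha n⟩, ⟨b n, hb n⟩)
  obtain ⟨y, hy⟩ := Finite.exists_infinite_fiber f
  refine ⟨y.1.1, y.2.1, 1 / (8 * (S.card : ℝ≥0∞) ^ 2), ?_, ?_⟩
  · apply ENNReal.div_pos one_ne_zero
    exact ENNReal.mul_ne_top (by norm_num) (ENNReal.pow_ne_top (ENNReal.natCast_ne_top _))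
  · intro n
    obtain ⟨m, hm, hnm⟩ := (Set.infinite_coe_iff.1 hy).exists_gt n
    have hm' : f m = y := hm
    have h1 : a m = y.1.1 := by rw [← hm']
    have h2 : b m = y.2.1 := by rw [← hm']
    have h3 : ∃ q, m7G y.1.1 y.2.1 m (1 / (8 * (S.card : ℝ≥0∞) ^ 2)) q := by
      rw [← h1, ← h2]
      exact ⟨q m, hq m⟩
    exact m7_down hnm.le h3

theorem m7_SS (u : Str) {i n : ℕ} (hi : i ≤ n) :
    SS i u = ∑ k : Fin n, if (k : ℕ) < i then vec (u k) else 0 := by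
  unfold SS
  rw [Fin.sum_univ_eq_sum_range (fun k => if k < i then vec (u k) else 0) n, ← Finset.sum_filter]
  apply Finset.sum_congr _ fun _ _ => rfl
  ext k
  simp only [Finset.mem_range, Finset.mem_filter]
  omega

theorem subcoupling : ∃ (a b : Z3) (π : Measure (Str × Str)), π.map Prod.fst ≤ PP ∧
    π.map Prod.snd ≤ PP ∧ 0 < π Set.univ ∧
    ∀ᵐ ω ∂π, Disjoint (Set.range fun n => a + SS n ω.1) (Set.range fun m => b + SS m ω.2) := by
  obtain ⟨a, b, p, hp, hq⟩ := fixed_start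
  have hcard : (Fintype.card Stp : ℝ≥0∞) = 6 := by
    have : Fintype.card Stp = 6 := by simp [Stp]
    rw [this]; norm_num
  haveI : IsProbabilityMeasure stpLaw := by unfold stpLaw; infer_instance
  obtain ⟨π, h1, h2, h3, h4⟩ := limit_coupling stpLaw
    (by intro s; rw [mstpLaw_singleton, hcard]) (fun n s t => BadC a b n s t)
    (fun n x y h => m7_mono n x y h) p hp (by rw [hcard]; exact hq)
  refine ⟨a, b, π, h1, h2, h3, ?_⟩
  rw [ae_iff]
  apply measure_mono_null _ (measure_iUnion_null h4)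
  intro ω hω
  rw [Set.mem_setOf_eq, Set.not_disjoint_iff] at hω
  obtain ⟨z, ⟨i, hi⟩, ⟨j, hj⟩⟩ := hω
  rw [Set.mem_iUnion]
  refine ⟨max i j, i, j, le_max_left _ _, le_max_right _ _, ?_⟩
  rw [← m7_SS ω.1 (le_max_left i j), ← m7_SS ω.2 (le_max_right i j)]
  exact hi.trans hj.symm

/-- the coupling of the streams in dimension three -/
theorem coupling_three : ∃ x y : Z3, ∑ i, |x i - y i| = 10 ∧ ∃ μ : Measure (Str × Str),
    IsProbabilityMeasure μ ∧ μ.map Prod.fst = PP ∧ μ.map Prod.snd = PP ∧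
    0 < μ {ω | Disjoint (Set.range fun n => x + SS n ω.1) (Set.range fun m => y + SS m ω.2)} := by
  obtain ⟨a, b, π, h1, h2, h3, h4⟩ := subcoupling
  obtain ⟨x, y, hxy, π', h1', h2', h3', h4'⟩ := move_start transience a b π h1 h2 h3 h4
  obtain ⟨μ, hμ1, hμ2, hμ3, hμ4⟩ := completion π' h1' h2' h3' _ h4'
  exact ⟨x, y, hxy, μ, hμ1, hμ2, hμ3, hμ4⟩

end Pool.Agent.Helper41.GF
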